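import Pool.Agent.ZGap.Gen.Fourier

/-!
# The kernels of the smoothed counts
-/

namespace Pool.Agent.PF.SN

open MeasureTheory Set Filter Topology Pool.Agent.ZGap.Gen

/-- The transform of `(1 - v²)²` on `[0, 1]`. -/
noncomputable def Kf (z : ℝ) : ℝ := ∫ v in (0:ℝ)..1, (1 - v ^ 2) ^ 2 * Real.cos (z * v)

/-- The transform of `2 (1 - v)` on `[0, 1]`. -/
noncomputable def Fj (z : ℝ) : ℝ := ∫ v in (0:ℝ)..1, 2 * (1 - v) * Real.cos (z * v)

/-- The data of `Kf`. -/
noncomputable def PKe : PhiData where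
  f0 := fun v => (1 - v ^ 2) ^ 2 * Real.exp (-v)
  f1 := fun v => (-4 * v * (1 - v ^ 2) - (1 - v ^ 2) ^ 2) * Real.exp (-v)
  f2 := fun v => (12 * v ^ 2 - 4 + 8 * v * (1 - v ^ 2) + (1 - v ^ 2) ^ 2) * Real.exp (-v)
  c0 := by fun_prop
  c1 := by fun_prop
  c2 := by fun_prop
  d0 := fun v => by
    have h1 : HasDerivAt (fun v : ℝ => (1 - v ^ 2) ^ 2) (-4 * v * (1 - v ^ 2)) v := by
      have h2 : HasDerivAt (fun v : ℝ => 1 - v ^ 2) (-(2 * v)) v := by
        have h3 := (hasDerivAt_pow 2 v).const_sub 1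
        simpa using h3
      have h4 := h2.pow 2
      refine h4.congr_deriv ?_
      simp
      ring
    have h5 : HasDerivAt (fun v : ℝ => Real.exp (-v)) (-Real.exp (-v)) v := by
      have := (hasDerivAt_neg v).exp
      simpa using this
    refine (h1.mul h5).congr_deriv ?_
    ring
  d1 := fun v => by
    have h1 : HasDerivAt (fun v : ℝ => -4 * v * (1 - v ^ 2) - (1 - v ^ 2) ^ 2)
        (12 * v ^ 2 - 4 + 4 * v * (1 - v ^ 2)) v := by
      have h2 : HasDerivAt (fun v : ℝ => 1 - v ^ 2) (-(2 * v)) v := by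
        have h3 := (hasDerivAt_pow 2 v).const_sub 1
        simpa using h3
      have h6 : HasDerivAt (fun v : ℝ => -4 * v) (-4) v := by
        simpa using (hasDerivAt_id v).const_mul (-4)
      have h4 := (h6.mul h2).sub (h2.pow 2)
      refine h4.congr_deriv ?_
      simp
      ring
    have h5 : HasDerivAt (fun v : ℝ => Real.exp (-v)) (-Real.exp (-v)) v := by
      have := (hasDerivAt_neg v).exp
      simpa using this
    refine (h1.mul h5).congr_deriv ?_
    ring
  one := by norm_num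
  b0 := fun v h0 h1 => by
    have e1 : Real.exp (-v) ≤ 1 := Real.exp_le_one_iff.mpr (by linarith)
    have e2 := Real.exp_pos (-v)
    have q0 : 0 ≤ 1 - v ^ 2 := by nlinarith
    have q1 : 1 - v ^ 2 ≤ 1 := by nlinarith
    have h2 : |(1 - v ^ 2) ^ 2| ≤ 2 := by
      rw [abs_of_nonneg (sq_nonneg _)]
      nlinarith
    rw [abs_mul, abs_of_pos e2]
    calc _ ≤ 2 * 1 := mul_le_mul h2 e1 e2.le (by norm_num)
      _ = 2 := by norm_num
  b1 := fun v h0 h1 => by
    have e1 : Real.exp (-v) ≤ 1 := Real.exp_le_one_iff.mpr (by linarith)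
    have e2 := Real.exp_pos (-v)
    have q0 : 0 ≤ 1 - v ^ 2 := by nlinarith
    have q1 : 1 - v ^ 2 ≤ 1 := by nlinarith
    have q2 : 0 ≤ v * (1 - v ^ 2) := mul_nonneg h0 q0
    have q3 : v * (1 - v ^ 2) ≤ 1 := by nlinarith
    have q4 : (1 - v ^ 2) ^ 2 ≤ 1 := by nlinarith
    have h2 : |-4 * v * (1 - v ^ 2) - (1 - v ^ 2) ^ 2| ≤ 5 := by
      rw [abs_le]; constructor <;> nlinarith [sq_nonneg (1 - v ^ 2)]
    rw [abs_mul, abs_of_pos e2]
    calc _ ≤ 5 * 1 := mul_le_mul h2 e1 e2.le (by norm_num)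
      _ = 5 := by norm_num
  b2 := fun v h0 h1 => by
    have e1 : Real.exp (-v) ≤ 1 := Real.exp_le_one_iff.mpr (by linarith)
    have e2 := Real.exp_pos (-v)
    have q0 : 0 ≤ 1 - v ^ 2 := by nlinarith
    have q1 : 1 - v ^ 2 ≤ 1 := by nlinarith
    have q2 : 0 ≤ v * (1 - v ^ 2) := mul_nonneg h0 q0
    have q3 : v * (1 - v ^ 2) ≤ 1 := by nlinarith
    have q4 : (1 - v ^ 2) ^ 2 ≤ 1 := by nlinarith
    have h2 : |12 * v ^ 2 - 4 + 8 * v * (1 - v ^ 2) + (1 - v ^ 2) ^ 2| ≤ 24 := by
      rw [abs_le]; constructor <;> nlinarith [sq_nonneg (1 - v ^ 2), sq_nonneg v]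
    rw [abs_mul, abs_of_pos e2]
    calc _ ≤ 24 * 1 := mul_le_mul h2 e1 e2.le (by norm_num)
      _ = 24 := by norm_num

lemma AA_PKe (u : ℝ) : AA PKe 1 u = Kf u := by
  unfold AA Kf
  apply intervalIntegral.integral_congr
  intro v _
  simp only [PKe, div_one]
  rw [mul_assoc _ (Real.exp (-v)) (Real.exp v), ← Real.exp_add]
  simp

lemma Kf_continuous : Continuous Kf := by
  have h : Kf = AA PKe 1 := funext fun u => (AA_PKe u).symm
  rw [h]
  exact AA_continuous PKe 1

lemma Kf_integrable : Integrable Kf := by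
  have h : Kf = AA PKe 1 := funext fun u => (AA_PKe u).symm
  rw [h]
  exact AA_integrable (by norm_num)

lemma Kf_integral : ∫ z : ℝ, Kf z = Real.pi := by
  have h := (integral_AA_cos_sin (P := PKe) (D := 1) (by norm_num) 0).1
  have e1 : ∫ u : ℝ, AA PKe 1 u * Real.cos (u * 0) = ∫ z : ℝ, Kf z := by
    refine integral_congr_ae (Filter.Eventually.of_forall fun u => ?_)
    simp only [mul_zero, Real.cos_zero, mul_one, AA_PKe]
  rw [e1] at h
  rw [h]
  unfold gfun
  simp [PKe]

lemma Kf_neg (z : ℝ) : Kf (-z) = Kf z := by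
  unfold Kf
  apply intervalIntegral.integral_congr
  intro v _
  simp only [neg_mul, Real.cos_neg]

lemma abs_Kf_le_one (z : ℝ) : |Kf z| ≤ 1 := by
  have h : |Kf z| ≤ 1 * |(1:ℝ) - 0| := by
    unfold Kf
    rw [← Real.norm_eq_abs]
    apply intervalIntegral.norm_integral_le_of_norm_le_const
    intro v hv
    rw [Set.uIoc_of_le zero_le_one] at hv
    rw [Real.norm_eq_abs, abs_mul]
    have h0 := hv.1
    have h1 := hv.2
    have q0 : 0 ≤ 1 - v ^ 2 := by nlinarith
    have q1 : 1 - v ^ 2 ≤ 1 := by nlinarith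
    have h2 : |(1 - v ^ 2) ^ 2| ≤ 1 := by
      rw [abs_of_nonneg (sq_nonneg _)]
      exact pow_le_one₀ q0 q1
    calc _ ≤ 1 * (1:ℝ) := mul_le_mul h2 (Real.abs_cos_le_one _) (abs_nonneg _) zero_le_one
      _ = 1 := one_mul 1
  simpa using h

/-- The closed form. -/
lemma Kf_eq {z : ℝ} (hz : z ≠ 0) :
    Kf z = -8 * Real.sin z / z ^ 3 - 24 * Real.cos z / z ^ 4 + 24 * Real.sin z / z ^ 5 := by
  have hder : ∀ v ∈ Set.uIcc (0:ℝ) 1, HasDerivAt
      (fun v => (1 - v ^ 2) ^ 2 * Real.sin (z * v) / z +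
        (-4 * v * (1 - v ^ 2)) * Real.cos (z * v) / z ^ 2 -
        (12 * v ^ 2 - 4) * Real.sin (z * v) / z ^ 3 - (24 * v) * Real.cos (z * v) / z ^ 4 +
        24 * Real.sin (z * v) / z ^ 5)
      ((1 - v ^ 2) ^ 2 * Real.cos (z * v)) v := by
    intro v _
    have hl : HasDerivAt (fun v : ℝ => z * v) z v := by
      simpa using (hasDerivAt_id v).const_mul z
    have h2 : HasDerivAt (fun v : ℝ => 1 - v ^ 2) (-(2 * v)) v := by
      have h3 := (hasDerivAt_pow 2 v).const_sub 1
      simpa using h3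
    have k0 : HasDerivAt (fun v : ℝ => (1 - v ^ 2) ^ 2) (-4 * v * (1 - v ^ 2)) v := by
      refine (h2.pow 2).congr_deriv ?_
      simp
      ring
    have h6 : HasDerivAt (fun v : ℝ => -4 * v) (-4) v := by
      simpa using (hasDerivAt_id v).const_mul (-4)
    have k1 : HasDerivAt (fun v : ℝ => -4 * v * (1 - v ^ 2)) (12 * v ^ 2 - 4) v := by
      refine (h6.mul h2).congr_deriv ?_
      ring
    have k2 : HasDerivAt (fun v : ℝ => 12 * v ^ 2 - 4) (24 * v) v := by
      have h3 := ((hasDerivAt_pow 2 v).const_mul 12).sub_const 4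
      refine h3.congr_deriv ?_
      simp
      ring
    have k3 : HasDerivAt (fun v : ℝ => 24 * v) 24 v := by
      simpa using (hasDerivAt_id v).const_mul 24
    have e0 := (k0.mul hl.sin).div_const z
    have e1 := (k1.mul hl.cos).div_const (z ^ 2)
    have e2 := (k2.mul hl.sin).div_const (z ^ 3)
    have e3 := (k3.mul hl.cos).div_const (z ^ 4)
    have e4 := (hl.sin.const_mul 24).div_const (z ^ 5)
    refine ((((e0.add e1).sub e2).sub e3).add e4).congr_deriv ?_
    field_simp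
    ring
  unfold Kf
  rw [intervalIntegral.integral_eq_sub_of_hasDerivAt hder
    (Continuous.intervalIntegrable (by fun_prop) _ _)]
  simp
  ring

/-- The decay of `Kf`. -/
lemma abs_Kf_le (z : ℝ) : |Kf z| ≤ 448 / (1 + |z|) ^ 3 := by
  have hz0 := abs_nonneg z
  rcases le_total |z| 1 with h | h
  · refine (abs_Kf_le_one z).trans ?_
    rw [le_div_iff₀ (by positivity), one_mul]
    have h1 : (1 + |z|) ^ 3 ≤ 2 ^ 3 := pow_le_pow_left₀ (by positivity) (by linarith) 3
    linarith
  · have hz : z ≠ 0 := by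
      intro h0
      rw [h0, abs_zero] at h
      linarith
    rw [Kf_eq hz]
    have hs := Real.abs_sin_le_one z
    have hc := Real.abs_cos_le_one z
    have hzp : 0 < |z| := by linarith
    have h3 : |z| ^ 3 ≤ |z| ^ 4 := pow_le_pow_right₀ h (by norm_num)
    have h4 : |z| ^ 3 ≤ |z| ^ 5 := pow_le_pow_right₀ h (by norm_num)
    have a1 : |-8 * Real.sin z / z ^ 3| ≤ 8 / |z| ^ 3 := by
      rw [abs_div, abs_mul, abs_pow]
      apply div_le_div_of_nonneg_right _ (by positivity)
      norm_num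
      linarith
    have a2 : |24 * Real.cos z / z ^ 4| ≤ 24 / |z| ^ 3 := by
      rw [abs_div, abs_mul, abs_pow]
      apply div_le_div₀ (by norm_num) _ (by positivity) h3
      norm_num
      linarith
    have a3 : |24 * Real.sin z / z ^ 5| ≤ 24 / |z| ^ 3 := by
      rw [abs_div, abs_mul, abs_pow]
      apply div_le_div₀ (by norm_num) _ (by positivity) h4
      norm_num
      linarith
    have a4 : |-8 * Real.sin z / z ^ 3 - 24 * Real.cos z / z ^ 4 + 24 * Real.sin z / z ^ 5| ≤
        56 / |z| ^ 3 := by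
      refine (abs_add_le _ _).trans ((add_le_add (abs_sub _ _) le_rfl).trans ?_)
      calc _ ≤ 8 / |z| ^ 3 + 24 / |z| ^ 3 + 24 / |z| ^ 3 := by linarith
        _ = _ := by ring
    refine a4.trans ?_
    rw [div_le_div_iff₀ (by positivity) (by positivity)]
    have h5 : (1 + |z|) ^ 3 ≤ (2 * |z|) ^ 3 := pow_le_pow_left₀ (by positivity) (by linarith) 3
    calc 56 * (1 + |z|) ^ 3 ≤ 56 * (2 * |z|) ^ 3 := by linarith
      _ = 448 * |z| ^ 3 := by ring

/-- The tail on the right. -/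
lemma int_Kf_right {a b : ℝ} (ha : 0 ≤ a) (hab : a ≤ b) :
    |∫ z in a..b, Kf z| ≤ 224 / (1 + a ^ 2) := by
  have h1 : |∫ z in a..b, Kf z| ≤ ∫ z in a..b, 448 / (1 + z) ^ 3 := by
    rw [← Real.norm_eq_abs]
    apply intervalIntegral.norm_integral_le_of_norm_le hab
    · refine Filter.Eventually.of_forall fun z hz => ?_
      have hz0 : 0 < z := lt_of_le_of_lt ha hz.1
      have := abs_Kf_le z
      rwa [abs_of_pos hz0] at this
    · apply ContinuousOn.intervalIntegrable
      intro z hz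
      rw [Set.uIcc_of_le hab] at hz
      have hz0 : 0 < 1 + z := by linarith [hz.1]
      have h9 : (1 + z) ^ 3 ≠ 0 := by positivity
      have h8 : ContinuousAt (fun z : ℝ => (1 + z) ^ 3) z := by fun_prop
      exact (continuousAt_const.div h8 h9).continuousWithinAt
  have h2 : ∫ z in a..b, 448 / (1 + z) ^ 3 = -224 / (1 + b) ^ 2 - -224 / (1 + a) ^ 2 := by
    apply intervalIntegral.integral_eq_sub_of_hasDerivAt
    · intro z hz
      rw [Set.uIcc_of_le hab] at hz
      have hz0 : 0 < 1 + z := by linarith [hz.1]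
      have h3 : HasDerivAt (fun z : ℝ => (1 + z) ^ 2) (2 * (1 + z)) z := by
        have h4 : HasDerivAt (fun z : ℝ => 1 + z) 1 z := (hasDerivAt_id z).const_add 1
        refine (h4.pow 2).congr_deriv ?_
        simp
      have h5 := (hasDerivAt_const z (-224:ℝ)).div h3 (by positivity)
      refine h5.congr_deriv ?_
      field_simp
      ring
    · apply ContinuousOn.intervalIntegrable
      intro z hz
      rw [Set.uIcc_of_le hab] at hz
      have hz0 : 0 < 1 + z := by linarith [hz.1]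
      have h9 : (1 + z) ^ 3 ≠ 0 := by positivity
      have h8 : ContinuousAt (fun z : ℝ => (1 + z) ^ 3) z := by fun_prop
      exact (continuousAt_const.div h8 h9).continuousWithinAt
  have h3 : 0 ≤ 224 / (1 + b) ^ 2 := by positivity
  have h4 : 224 / (1 + a) ^ 2 ≤ 224 / (1 + a ^ 2) := by
    apply div_le_div_of_nonneg_left (by norm_num) (by positivity)
    nlinarith
  calc _ ≤ _ := h1
    _ = 224 / (1 + a) ^ 2 - 224 / (1 + b) ^ 2 := by rw [h2]; ring
    _ ≤ _ := by linarith

/-- The tail on the left. -/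
lemma int_Kf_left {a b : ℝ} (hb : b ≤ 0) (hab : a ≤ b) :
    |∫ z in a..b, Kf z| ≤ 224 / (1 + b ^ 2) := by
  have h1 : ∫ z in a..b, Kf z = ∫ z in (-b)..(-a), Kf z := by
    rw [← intervalIntegral.integral_comp_neg]
    exact intervalIntegral.integral_congr fun z _ => (Kf_neg z).symm
  rw [h1]
  have := int_Kf_right (a := -b) (b := -a) (by linarith) (by linarith)
  rwa [neg_sq] at this

/-- **The smoothed step.** -/
theorem Kf_step : ∃ C0 : ℝ, 0 < C0 ∧ ∀ a b : ℝ, a ≤ b →
    |(if a < 0 ∧ 0 ≤ b then (1:ℝ) else 0) - 1 / Real.pi * ∫ z in a..b, Kf z| ≤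
      C0 * (1 / (1 + a ^ 2) + 1 / (1 + b ^ 2)) := by
  refine ⟨224, by norm_num, fun a b hab => ?_⟩
  have hp := Real.pi_gt_three
  have hp0 := Real.pi_pos
  have hpi1 : 1 / Real.pi ≤ 1 := by
    rw [div_le_one hp0]; linarith
  have ha2 : 0 ≤ 224 / (1 + a ^ 2) := by positivity
  have hb2 : 0 ≤ 224 / (1 + b ^ 2) := by positivity
  have e1 : 224 * (1 / (1 + a ^ 2) + 1 / (1 + b ^ 2)) = 224 / (1 + a ^ 2) + 224 / (1 + b ^ 2) := by
    ring
  rw [e1]
  by_cases h : a < 0 ∧ 0 ≤ b
  · rw [if_pos h]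
    have hi : ∀ x y : ℝ, IntervalIntegrable Kf volume x y := fun x y =>
      Kf_continuous.intervalIntegrable x y
    have htend : Tendsto (fun n : ℕ => ∫ z in (-(n:ℝ))..(n:ℝ), Kf z) atTop (𝓝 Real.pi) := by
      rw [← Kf_integral]
      exact intervalIntegral_tendsto_integral Kf_integrable
        (tendsto_neg_atTop_atBot.comp tendsto_natCast_atTop_atTop) tendsto_natCast_atTop_atTop
    have hlim : |Real.pi - ∫ z in a..b, Kf z| ≤ 224 / (1 + a ^ 2) + 224 / (1 + b ^ 2) := by
      have h3 : Tendsto (fun n : ℕ => |(∫ z in (-(n:ℝ))..(n:ℝ), Kf z) - ∫ z in a..b, Kf z|) atTop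
          (𝓝 |Real.pi - ∫ z in a..b, Kf z|) := (htend.sub_const _).abs
      refine le_of_tendsto h3 ?_
      obtain ⟨N, hN⟩ := exists_nat_ge (max (-a) b)
      filter_upwards [eventually_ge_atTop N] with n hn
      have hn' : (N:ℝ) ≤ n := by exact_mod_cast hn
      have h4 : -a ≤ n := (le_max_left _ _).trans (hN.trans hn')
      have h5 : b ≤ n := (le_max_right _ _).trans (hN.trans hn')
      have h6 : (∫ z in (-(n:ℝ))..(n:ℝ), Kf z) - ∫ z in a..b, Kf z =
          (∫ z in (-(n:ℝ))..a, Kf z) + ∫ z in b..(n:ℝ), Kf z := by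
        have h7 := intervalIntegral.integral_add_adjacent_intervals (hi (-(n:ℝ)) a) (hi a b)
        have h8 := intervalIntegral.integral_add_adjacent_intervals (hi (-(n:ℝ)) b) (hi b n)
        linarith
      rw [h6]
      exact (abs_add_le _ _).trans (add_le_add (int_Kf_left h.1.le (by linarith))
        (int_Kf_right h.2 h5))
    have h9 : (1:ℝ) - 1 / Real.pi * ∫ z in a..b, Kf z =
        1 / Real.pi * (Real.pi - ∫ z in a..b, Kf z) := by
      field_simp
    rw [h9, abs_mul, abs_of_pos (by positivity : 0 < 1 / Real.pi)]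
    exact (mul_le_of_le_one_left (abs_nonneg _) hpi1).trans hlim
  · rw [if_neg h, zero_sub, abs_neg, abs_mul, abs_of_pos (by positivity : 0 < 1 / Real.pi)]
    refine (mul_le_of_le_one_left (abs_nonneg _) hpi1).trans ?_
    rcases lt_or_ge a 0 with h1 | h1
    · have h2 : b < 0 := by
        by_contra hcon
        exact h ⟨h1, not_lt.mp hcon⟩
      have := int_Kf_left h2.le hab
      linarith
    · have := int_Kf_right h1 hab
      linarith

/-- The closed form of `Fj`. -/
lemma Fj_eq {z : ℝ} (hz : z ≠ 0) : Fj z = 2 * (1 - Real.cos z) / z ^ 2 := by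
  have hder : ∀ v ∈ Set.uIcc (0:ℝ) 1, HasDerivAt
      (fun v => 2 * (1 - v) * Real.sin (z * v) / z - 2 * Real.cos (z * v) / z ^ 2)
      (2 * (1 - v) * Real.cos (z * v)) v := by
    intro v _
    have hl : HasDerivAt (fun v : ℝ => z * v) z v := by
      simpa using (hasDerivAt_id v).const_mul z
    have k0 : HasDerivAt (fun v : ℝ => 2 * (1 - v)) (-2) v := by
      have := ((hasDerivAt_id v).const_sub 1).const_mul 2
      refine this.congr_deriv ?_
      norm_num
    have e0 := (k0.mul hl.sin).div_const z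
    have e1 := (hl.cos.const_mul 2).div_const (z ^ 2)
    refine (e0.sub e1).congr_deriv ?_
    field_simp
    ring
  unfold Fj
  rw [intervalIntegral.integral_eq_sub_of_hasDerivAt hder
    (Continuous.intervalIntegrable (by fun_prop) _ _)]
  simp
  ring

lemma Fj_zero : Fj 0 = 1 := by
  unfold Fj
  have hder : ∀ v ∈ Set.uIcc (0:ℝ) 1, HasDerivAt (fun v : ℝ => 2 * v - v ^ 2)
      (2 * (1 - v) * Real.cos (0 * v)) v := by
    intro v _
    have h1 : HasDerivAt (fun v : ℝ => 2 * v) 2 v := by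
      simpa using (hasDerivAt_id v).const_mul 2
    refine (h1.sub (hasDerivAt_pow 2 v)).congr_deriv ?_
    simp
    ring
  rw [intervalIntegral.integral_eq_sub_of_hasDerivAt hder
    (Continuous.intervalIntegrable (by fun_prop) _ _)]
  norm_num

theorem Fj_nonneg (z : ℝ) : 0 ≤ Fj z := by
  by_cases hz : z = 0
  · rw [hz, Fj_zero]; norm_num
  · rw [Fj_eq hz]
    have := Real.cos_le_one z
    have h1 : 0 ≤ 1 - Real.cos z := by linarith
    positivity

lemma Fj_ge {w M : ℝ} (_hM : 0 < M) (hw : w ^ 2 ≤ M) : 2 * (1 - Real.cos w) / M ≤ Fj w := by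
  by_cases hz : w = 0
  · rw [hz, Fj_zero, Real.cos_zero]; norm_num
  · rw [Fj_eq hz]
    have := Real.cos_le_one w
    have h1 : 0 ≤ 1 - Real.cos w := by linarith
    have h2 : 0 < w ^ 2 := by positivity
    exact div_le_div_of_nonneg_left (by positivity) h2 hw

theorem one_div_le_Fj (z : ℝ) : 1 / (1 + z ^ 2) ≤ 5 * (Fj z + Fj (z + Real.pi)) := by
  have hp0 := Real.pi_pos
  set M := 2 * z ^ 2 + 2 * Real.pi ^ 2 with hM
  have hM0 : 0 < M := by positivity
  have h1 := Fj_ge (w := z) hM0 (by rw [hM]; nlinarith [sq_nonneg z, sq_nonneg Real.pi])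
  have h2 := Fj_ge (w := z + Real.pi) hM0 (by rw [hM]; nlinarith [sq_nonneg (z - Real.pi)])
  rw [Real.cos_add_pi] at h2
  have h3 : 2 * (1 - Real.cos z) / M + 2 * (1 - -Real.cos z) / M = 4 / M := by
    field_simp
    ring
  have h4 : Real.pi ^ 2 ≤ 10 := by
    have := Real.pi_lt_d2
    nlinarith
  have h5 : 1 / (1 + z ^ 2) ≤ 5 * (4 / M) := by
    rw [mul_div_assoc', div_le_div_iff₀ (by positivity) hM0]
    rw [hM]
    nlinarith [sq_nonneg z]
  linarith

end Pool.Agent.PF.SN
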