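import Pool.Agent.ZGap.Gen.Eval
import Pool.Agent.ZetaGaps.Basic
import Pool.Agent.PF.SNa

/-!
# The count of zeros against the smoothed count: one inequality for every height
-/

namespace Pool.Agent.PF.SN

open MeasureTheory Real Set Pool.Agent.Hadamard Pool.Agent.DirPoly Pool.Agent.ZGap.Gen
  Pool.Agent.ZetaGaps
open Pool.Agent.ZGap (hasSum_poisson)

/-- The kernel `(1 - v^2)^2`. -/
noncomputable def PK : PhiData where
  f0 := fun v => (1 - v ^ 2) ^ 2
  f1 := fun v => -4 * v * (1 - v ^ 2)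
  f2 := fun v => -4 + 12 * v ^ 2
  c0 := by fun_prop
  c1 := by fun_prop
  c2 := by fun_prop
  d0 := fun v => by
    have h1 : HasDerivAt (fun v : ℝ => 1 - v ^ 2) (-(2 * v)) v := by
      simpa using (hasDerivAt_pow 2 v).const_sub 1
    refine (h1.pow 2).congr_deriv ?_
    push_cast
    ring
  d1 := fun v => by
    have h1 : HasDerivAt (fun v : ℝ => 1 - v ^ 2) (-(2 * v)) v := by
      simpa using (hasDerivAt_pow 2 v).const_sub 1
    have h2 : HasDerivAt (fun v : ℝ => -4 * v) (-4) v := by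
      simpa using (hasDerivAt_id v).const_mul (-4 : ℝ)
    refine (h2.mul h1).congr_deriv ?_
    ring
  one := by norm_num
  b0 := fun v h0 h1 => by
    have h2 : v ^ 2 ≤ 1 := by nlinarith
    rw [abs_of_nonneg (by positivity)]
    nlinarith [sq_nonneg v]
  b1 := fun v h0 h1 => by
    have h2 : v ^ 2 ≤ 1 := by nlinarith
    rw [abs_le]
    constructor <;> nlinarith [mul_nonneg h0 (sub_nonneg.mpr h2)]
  b2 := fun v h0 h1 => by
    have h2 : v ^ 2 ≤ 1 := by nlinarith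
    rw [abs_le]
    constructor <;> nlinarith [sq_nonneg v]

/-- The kernel `2 (1 - v)`. -/
noncomputable def PJ : PhiData where
  f0 := fun v => 2 * (1 - v)
  f1 := fun _ => -2
  f2 := fun _ => 0
  c0 := by fun_prop
  c1 := by fun_prop
  c2 := by fun_prop
  d0 := fun v => by
    have h1 : HasDerivAt (fun v : ℝ => 1 - v) (-1) v := by
      simpa using (hasDerivAt_id v).const_sub 1
    refine (h1.const_mul 2).congr_deriv ?_
    ring
  d1 := fun v => hasDerivAt_const v (-2 : ℝ)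
  one := by norm_num
  b0 := fun v h0 h1 => by rw [abs_le]; constructor <;> linarith
  b1 := fun v h0 h1 => by norm_num
  b2 := fun v h0 h1 => by norm_num

variable {P : PhiData}

lemma FF_scale (P : PhiData) {D : ℝ} (hD : 0 < D) (y : ℝ) :
    FF P D y = D * ∫ v in (0:ℝ)..1, P.f0 v * Real.cos (D * y * v) := by
  unfold FF
  have h := intervalIntegral.integral_comp_div (a := 0) (b := D)
    (fun v => P.f0 v * Real.cos (D * y * v)) hD.ne'
  rw [zero_div, div_self hD.ne', smul_eq_mul] at h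
  rw [← h]
  refine intervalIntegral.integral_congr fun η _ => ?_
  have e : D * y * (η / D) = y * η := by field_simp
  show P.f0 (η / D) * Real.cos (y * η) = P.f0 (η / D) * Real.cos (D * y * (η / D))
  rw [e]

lemma FF_PK {D : ℝ} (hD : 0 < D) (y : ℝ) : FF PK D y = D * Kf (D * y) := FF_scale PK hD y

lemma FF_PJ {D : ℝ} (hD : 0 < D) (y : ℝ) : FF PJ D y = D * Fj (D * y) := FF_scale PJ hD y

@[fun_prop]
lemma FF_continuous (P : PhiData) (D : ℝ) : Continuous (FF P D) := by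
  unfold FF
  apply intervalIntegral.continuous_parametric_intervalIntegral_of_continuous'
  fun_prop

lemma abs_FF_le {D : ℝ} (hD : 1 / 2 ≤ D) (y : ℝ) :
    |FF P D y| ≤ 284 * Real.exp D * 8 / (4 + y ^ 2) := by
  have h1 := integral_AA_poisson (P := P) hD y
  have h2 := integral_abs_AA_poisson_le (P := P) hD y
  have hpi := Real.pi_pos
  have h3 : |π * FF P D y| ≤ 284 * Real.exp D * (8 * π) / (4 + y ^ 2) := by
    rw [← h1]
    refine (norm_integral_le_integral_norm _).trans h2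
  rw [abs_mul, abs_of_pos hpi] at h3
  have h4 : 284 * Real.exp D * (8 * π) / (4 + y ^ 2) =
      π * (284 * Real.exp D * 8 / (4 + y ^ 2)) := by ring
  rw [h4] at h3
  exact le_of_mul_le_mul_left h3 hpi

/-- The sum over the zeros. -/
noncomputable def SS (P : PhiData) (D t : ℝ) : ℝ :=
  ∑' ρ : ntz, (mult ρ : ℝ) * FF P D (t - (ρ : ℂ).im)

lemma hasSum_SS (hRH : RiemannHypothesis) (P : PhiData) {D : ℝ} (hD : 1 / 2 ≤ D) (t : ℝ) :
    HasSum (fun ρ : ntz => (mult ρ : ℝ) * FF P D (t - (ρ : ℂ).im)) (SS P D t) := by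
  have h := (hasSum_FF (P := P) hRH hD t).summable
  have h2 : Summable (fun ρ : ntz => (mult ρ : ℝ) * FF P D (t - (ρ : ℂ).im)) := by
    refine (h.mul_left (1 / π)).congr fun ρ => ?_
    have hpi := Real.pi_pos
    field_simp
  exact h2.hasSum

lemma shift_le {y s h : ℝ} (hs : 0 ≤ s) (hsh : s ≤ h) :
    1 / (4 + (y + s) ^ 2) ≤ 2 * (1 + h ^ 2) * (1 / (1 + y ^ 2)) := by
  rw [mul_one_div, div_le_div_iff₀ (by positivity) (by positivity)]
  have h1 : s ^ 2 ≤ h ^ 2 := by gcongr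
  nlinarith [sq_nonneg (y + 2 * s), sq_nonneg (y + s), mul_nonneg (sq_nonneg h) (sq_nonneg (y + s))]

lemma term_bound {D : ℝ} (hD : 1 / 2 ≤ D) {h : ℝ} (t : ℝ) (ρ : ntz) {s : ℝ} (hs : 0 ≤ s)
    (hsh : s ≤ h) : |(mult ρ : ℝ) * FF P D (t + s - (ρ : ℂ).im)| ≤
      284 * Real.exp D * 8 * (2 * (1 + h ^ 2)) *
        ((mult ρ : ℝ) * (1 / (1 + (t - (ρ : ℂ).im) ^ 2))) := by
  rw [abs_mul, Nat.abs_cast]
  have h1 := abs_FF_le (P := P) hD (t + s - (ρ : ℂ).im)
  have h2 := shift_le (y := t - (ρ : ℂ).im) hs hsh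
  have e1 : t + s - (ρ : ℂ).im = t - (ρ : ℂ).im + s := by ring
  rw [e1] at h1 ⊢
  calc (mult ρ : ℝ) * |FF P D (t - (ρ : ℂ).im + s)|
      ≤ (mult ρ : ℝ) * (284 * Real.exp D * 8 / (4 + (t - (ρ : ℂ).im + s) ^ 2)) := by gcongr
    _ = (mult ρ : ℝ) * (284 * Real.exp D * 8 * (1 / (4 + (t - (ρ : ℂ).im + s) ^ 2))) := by ring
    _ ≤ (mult ρ : ℝ) * (284 * Real.exp D * 8 *
        (2 * (1 + h ^ 2) * (1 / (1 + (t - (ρ : ℂ).im) ^ 2)))) := by gcongr
    _ = _ := by ring

lemma SS_continuousOn (hRH : RiemannHypothesis) (P : PhiData) {D : ℝ} (hD : 1 / 2 ≤ D)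
    (t h : ℝ) : ContinuousOn (fun s => SS P D (t + s)) (Icc 0 h) := by
  unfold SS
  refine continuousOn_tsum (u := fun ρ : ntz => 284 * Real.exp D * 8 * (2 * (1 + h ^ 2)) *
        ((mult ρ : ℝ) * (1 / (1 + (t - (ρ : ℂ).im) ^ 2)))) (fun ρ => ?_) ?_ fun ρ s hs => ?_
  · exact Continuous.continuousOn (by fun_prop)
  · exact (hasSum_poisson hRH t).summable.mul_left _
  · rw [Real.norm_eq_abs]
    exact term_bound hD t ρ hs.1 hs.2

/-- The sum over the zeros of the integrated kernel. -/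
theorem hasSum_int (hRH : RiemannHypothesis) (P : PhiData) {D : ℝ} (hD : 1 / 2 ≤ D)
    (t : ℝ) {h : ℝ} (hh : 0 ≤ h) :
    HasSum (fun ρ : ntz => (mult ρ : ℝ) * ∫ s in (0:ℝ)..h, FF P D (t + s - (ρ : ℂ).im))
      (∫ s in (0:ℝ)..h, SS P D (t + s)) := by
  have key := hasSum_integral_of_summable_integral_norm (μ := volume.restrict (Ioc 0 h))
    (F := fun (ρ : ntz) (s : ℝ) => (mult ρ : ℝ) * FF P D (t + s - (ρ : ℂ).im)) ?_ ?_
  · have e1 : ∀ ρ : ntz, ∫ s in Ioc 0 h, (mult ρ : ℝ) * FF P D (t + s - (ρ : ℂ).im) =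
        (mult ρ : ℝ) * ∫ s in (0:ℝ)..h, FF P D (t + s - (ρ : ℂ).im) := by
      intro ρ
      rw [MeasureTheory.integral_const_mul, intervalIntegral.integral_of_le hh]
    simp_rw [e1] at key
    rw [intervalIntegral.integral_of_le hh]
    exact key
  · intro ρ
    have : IntegrableOn (fun s => (mult ρ : ℝ) * FF P D (t + s - (ρ : ℂ).im)) (Icc 0 h) :=
      Continuous.integrableOn_Icc (by fun_prop)
    exact this.mono_set Ioc_subset_Icc_self
  · have hs := (hasSum_poisson hRH t).summable.mul_left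
      (h * (284 * Real.exp D * 8 * (2 * (1 + h ^ 2))))
    refine Summable.of_nonneg_of_le (fun ρ => integral_nonneg fun s => norm_nonneg _)
      (fun ρ => ?_) hs
    have h1 : ∫ s in Ioc 0 h, ‖(mult ρ : ℝ) * FF P D (t + s - (ρ : ℂ).im)‖ ≤
        ∫ s in Ioc 0 h, 284 * Real.exp D * 8 * (2 * (1 + h ^ 2)) *
        ((mult ρ : ℝ) * (1 / (1 + (t - (ρ : ℂ).im) ^ 2))) := by
      refine setIntegral_mono_on ?_ ?_ measurableSet_Ioc fun s hs' => ?_
      · have : IntegrableOn (fun s => ‖(mult ρ : ℝ) * FF P D (t + s - (ρ : ℂ).im)‖) (Icc 0 h) :=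
          Continuous.integrableOn_Icc (by fun_prop)
        exact this.mono_set Ioc_subset_Icc_self
      · exact integrableOn_const (by simp)
      · rw [Real.norm_eq_abs]
        exact term_bound hD t ρ hs'.1.le hs'.2
    refine h1.trans (le_of_eq ?_)
    rw [MeasureTheory.setIntegral_const, smul_eq_mul]
    simp only [Measure.real, Real.volume_Ioc, sub_zero, ENNReal.toReal_ofReal hh]
    ring

/-- The count as a sum over the zeros. -/
theorem hasSum_count {t h : ℝ} (ht : 0 ≤ t) (hh : 0 ≤ h) :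
    HasSum (fun ρ : ntz => (mult ρ : ℝ) *
        (if t < (ρ : ℂ).im ∧ (ρ : ℂ).im ≤ t + h then (1:ℝ) else 0))
      ((zeroCount (t + h) : ℝ) - zeroCount t) := by
  classical
  set F : Finset ℂ := (finite_zerosUpTo (t + h)).toFinset.filter (fun ρ => t < ρ.im) with hF
  have hsub := zeroCount_sub (S := t) (T := t + h) (by linarith)
  have hmem : ∀ ρ ∈ F, ρ ∈ ntz := fun ρ hρ => by
    rw [hF, Finset.mem_filter, Set.Finite.mem_toFinset, mem_zerosUpTo] at hρ
    exact hρ.1.1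
  have e1 : ((zeroCount (t + h) : ℝ) - zeroCount t) =
      ∑ ρ ∈ F.subtype (fun x => x ∈ ntz), (mult ρ : ℝ) *
        (if t < (ρ : ℂ).im ∧ (ρ : ℂ).im ≤ t + h then (1:ℝ) else 0) := by
    rw [hsub]
    push_cast
    rw [add_sub_cancel_left]
    have e2 := Finset.sum_subtype_of_mem (s := F) (fun ρ : ℂ => (mult ρ : ℝ)) hmem
    rw [← e2]
    refine Finset.sum_congr rfl fun ρ hρ => ?_
    rw [Finset.mem_subtype, hF, Finset.mem_filter, Set.Finite.mem_toFinset, mem_zerosUpTo] at hρ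
    rw [if_pos ⟨hρ.2, hρ.1.2.2⟩, mul_one]
  rw [e1]
  refine hasSum_sum_of_ne_finset_zero fun ρ hρ => ?_
  rw [if_neg, mul_zero]
  rintro ⟨h1, h2⟩
  apply hρ
  rw [Finset.mem_subtype, hF, Finset.mem_filter, Set.Finite.mem_toFinset, mem_zerosUpTo]
  exact ⟨⟨ρ.2, by linarith, h2⟩, h1⟩

lemma int_PK {D : ℝ} (hD : 0 < D) (t h γ : ℝ) :
    ∫ s in (0:ℝ)..h, FF PK D (t + s - γ) = ∫ z in (D * (t - γ))..(D * (t + h - γ)), Kf z := by
  have e1 : ∀ s : ℝ, FF PK D (t + s - γ) = D * Kf (D * s + D * (t - γ)) := by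
    intro s
    rw [FF_PK hD]
    congr 2
    ring
  simp_rw [e1]
  rw [intervalIntegral.integral_const_mul, intervalIntegral.mul_integral_comp_mul_add]
  congr 1 <;> ring

/-- **The count against the smoothed count.** -/
theorem count_sub_le (hRH : RiemannHypothesis) : ∃ C0 : ℝ, 0 < C0 ∧ ∀ (D t h : ℝ), 1 / 2 ≤ D →
    0 ≤ t → 0 ≤ h →
    |((zeroCount (t + h) : ℝ) - zeroCount t) - 1 / π * ∫ s in (0:ℝ)..h, SS PK D (t + s)| ≤
      C0 * (1 / D * (SS PJ D t + SS PJ D (t + π / D) + SS PJ D (t + h) +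
        SS PJ D (t + h + π / D))) := by
  obtain ⟨C0, hC0, hst⟩ := Kf_step
  refine ⟨5 * C0, by positivity, fun D t h hD ht hh => ?_⟩
  have hD0 : 0 < D := by linarith
  have H1 := (hasSum_count ht hh).sub ((hasSum_int hRH PK hD t hh).mul_left (1 / π))
  have H2 := ((((hasSum_SS hRH PJ hD t).add (hasSum_SS hRH PJ hD (t + π / D))).add
    (hasSum_SS hRH PJ hD (t + h))).add (hasSum_SS hRH PJ hD (t + h + π / D))).mul_left (1 / D)
  have H3 := H2.mul_left (5 * C0)
  have hb : ∀ ρ : ntz, |(mult ρ : ℝ) *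
        (if t < (ρ : ℂ).im ∧ (ρ : ℂ).im ≤ t + h then (1:ℝ) else 0) -
        1 / π * ((mult ρ : ℝ) * ∫ s in (0:ℝ)..h, FF PK D (t + s - (ρ : ℂ).im))| ≤
      5 * C0 * (1 / D * ((mult ρ : ℝ) * FF PJ D (t - (ρ : ℂ).im) +
        (mult ρ : ℝ) * FF PJ D (t + π / D - (ρ : ℂ).im) +
        (mult ρ : ℝ) * FF PJ D (t + h - (ρ : ℂ).im) +
        (mult ρ : ℝ) * FF PJ D (t + h + π / D - (ρ : ℂ).im))) := by
    intro ρ
    set γ := (ρ : ℂ).im with hγ
    set a := D * (t - γ) with ha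
    set b := D * (t + h - γ) with hb'
    have hab : a ≤ b := by
      rw [ha, hb']
      apply mul_le_mul_of_nonneg_left _ hD0.le
      linarith
    have e1 : (if t < γ ∧ γ ≤ t + h then (1:ℝ) else 0) = if a < 0 ∧ 0 ≤ b then (1:ℝ) else 0 := by
      have h1 : t < γ ↔ a < 0 := by
        rw [ha]
        constructor
        · intro h2; exact mul_neg_of_pos_of_neg hD0 (by linarith)
        · intro h2; have := (mul_neg_iff.mp h2); rcases this with h3 | h3 <;> linarith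
      have h2 : γ ≤ t + h ↔ 0 ≤ b := by
        rw [hb']
        constructor
        · intro h2; exact mul_nonneg hD0.le (by linarith)
        · intro h2; have := nonneg_of_mul_nonneg_right h2 hD0; linarith
      simp only [h1, h2]
    have h1 := hst a b hab
    have h2 := one_div_le_Fj a
    have h3 := one_div_le_Fj b
    rw [int_PK hD0 t h γ, e1]
    have e2 : (mult ρ : ℝ) * (if a < 0 ∧ 0 ≤ b then (1:ℝ) else 0) -
        1 / π * ((mult ρ : ℝ) * ∫ z in a..b, Kf z) =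
        (mult ρ : ℝ) * ((if a < 0 ∧ 0 ≤ b then (1:ℝ) else 0) - 1 / π * ∫ z in a..b, Kf z) := by
      ring
    rw [e2, abs_mul, Nat.abs_cast, FF_PJ hD0, FF_PJ hD0, FF_PJ hD0, FF_PJ hD0]
    have e3 : D * (t + π / D - γ) = a + π := by rw [ha]; field_simp; ring
    have e4 : D * (t + h + π / D - γ) = b + π := by rw [hb']; field_simp; ring
    rw [e3, e4, ← ha, ← hb']
    calc (mult ρ : ℝ) * |(if a < 0 ∧ 0 ≤ b then (1:ℝ) else 0) - 1 / π * ∫ z in a..b, Kf z|
        ≤ (mult ρ : ℝ) * (C0 * (1 / (1 + a ^ 2) + 1 / (1 + b ^ 2))) := by gcongr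
      _ ≤ (mult ρ : ℝ) * (C0 * (5 * (Fj a + Fj (a + π)) + 5 * (Fj b + Fj (b + π)))) := by gcongr
      _ = _ := by field_simp; ring
  rw [abs_le]
  constructor
  · have h4 := hasSum_le (fun ρ => neg_le_of_abs_le (hb ρ)) H3.neg H1
    exact h4
  · exact hasSum_le (fun ρ => le_of_abs_le (hb ρ)) H1 H3

end Pool.Agent.PF.SN
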