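import Pool.Agent.PF.FinalAA
import Pool.Agent.ZShort.AAFinal

/-!
# Almost every block: small gaps, large gaps and every path, under RH
-/

namespace Pool.Agent.PF

open MeasureTheory Real Set Pool.Agent.ZetaGaps

/-- **Almost every block** (RH): small gaps, large gaps and every profile of energy at most
`2 (1 + a)`, in every block `(n, n + M]`, `M ≥ n ^ a`, off `N ^ (1 - c)` of the `n ≤ N`. -/
theorem almost_every_block (hRH : RiemannHypothesis) {a ε : ℝ} (ha : 0 < a) (ha1 : a < 1)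
    (hε : 0 < ε) {f : ℝ → ℝ} (hf : MemLp f 2 (volume.restrict (Set.Icc (0:ℝ) 1)))
    (hE : ∫ x in (0:ℝ)..1, f x ^ 2 ≤ 2 * (1 + a)) :
    ∃ r0 : ℕ, ∀ r : ℕ, r0 ≤ r → ∃ κ c : ℝ, 0 < κ ∧ 0 < c ∧ ∃ N0 : ℕ, ∀ N : ℕ, N0 ≤ N →
      ({n : ℕ | 1 ≤ n ∧ n ≤ N ∧ ¬ ∀ M : ℕ, (n : ℝ) ^ a ≤ M →
        κ * M ≤ ({m : ℕ | n < m ∧ m ≤ n + M ∧ gap m < 2 / (3 + a) + ε}.ncard : ℝ) ∧
        κ * M ≤ ({m : ℕ | n < m ∧ m ≤ n + M ∧
          max 1.89 (1 + (1 + a) / 2 + ((1 + a) / 2) ^ 2) < gap m}.ncard : ℝ) ∧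
        κ * M ≤ ({m : ℕ | n < m ∧ m ≤ n + M ∧ ∀ k : ℕ, k ≤ r →
          |∑ j ∈ Finset.range k, gap (m + j) - k - √r * ∫ y in (0:ℝ)..(k / r), f y| ≤
            ε * √r}.ncard : ℝ)}.ncard : ℝ) ≤ (N : ℝ) ^ (1 - c) := by
  classical
  obtain ⟨κ1, c1, hκ1, hc1, N1, h1⟩ := Pool.Agent.ZShort.almost_all_blocks hRH ha ha1 hε
  obtain ⟨r0, hr0⟩ := profiles_aa hRH ha ha1 hε hf hE
  refine ⟨r0, fun r hr => ?_⟩
  obtain ⟨κ2, c2, hκ2, hc2, N2, h2⟩ := hr0 r hr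
  obtain ⟨c, hc⟩ : ∃ c : ℝ, c = min c1 c2 / 2 := ⟨_, rfl⟩
  have hc0 : 0 < c := by rw [hc]; exact half_pos (lt_min hc1 hc2)
  have hca : 2 * c ≤ c1 := by rw [hc]; linarith [min_le_left c1 c2]
  have hcb : 2 * c ≤ c2 := by rw [hc]; linarith [min_le_right c1 c2]
  have ev : ∀ᶠ N : ℕ in Filter.atTop, (2:ℝ) ≤ (N : ℝ) ^ c :=
    ((tendsto_rpow_atTop hc0).comp tendsto_natCast_atTop_atTop).eventually_ge_atTop 2
  obtain ⟨N3, h3⟩ := Filter.eventually_atTop.mp ev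
  refine ⟨min κ1 κ2, c, lt_min hκ1 hκ2, hc0, max (max N1 N2) (max N3 1), fun N hN => ?_⟩
  have g1 : N1 ≤ N := (le_max_left _ _).trans ((le_max_left _ _).trans hN)
  have g2 : N2 ≤ N := (le_max_right _ _).trans ((le_max_left _ _).trans hN)
  have g3 : N3 ≤ N := (le_max_left _ _).trans ((le_max_right _ _).trans hN)
  have g4 : 1 ≤ N := (le_max_right _ _).trans ((le_max_right _ _).trans hN)
  have e1 := h1 N g1
  have e2 := h2 N g2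
  have e3 := h3 N g3
  have hN1 : (1:ℝ) ≤ N := by exact_mod_cast g4
  set S1 : Finset ℕ := {n ∈ Finset.Icc 1 N | ¬ ∀ M : ℕ, (n:ℝ) ^ a ≤ M →
        κ1 * M ≤ (({k ∈ Finset.Ioc n (n + M) | gap k < 2 / (3 + a) + ε} : Finset ℕ).card : ℝ) ∧
        κ1 * M ≤ (({k ∈ Finset.Ioc n (n + M) |
          max 1.89 (1 + (1 + a) / 2 + ((1 + a) / 2) ^ 2) < gap k} : Finset ℕ).card : ℝ)} with hS1
  set S2 : Set ℕ := {n : ℕ | 1 ≤ n ∧ n ≤ N ∧ ¬ ∀ M : ℕ, (n : ℝ) ^ a ≤ M →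
        κ2 * M ≤ ({m : ℕ | n < m ∧ m ≤ n + M ∧ ∀ k : ℕ, k ≤ r →
          |∑ j ∈ Finset.range k, gap (m + j) - k - √r * ∫ y in (0:ℝ)..(k / r), f y| ≤
            ε * √r}.ncard : ℝ)} with hS2
  have hS2f : S2.Finite := (Set.finite_Icc 1 N).subset fun n hn => ⟨hn.1, hn.2.1⟩
  have hcard : ∀ (P : ℕ → Prop) (n M : ℕ), (({k ∈ Finset.Ioc n (n + M) | P k} :
      Finset ℕ).card : ℝ) = ({m : ℕ | n < m ∧ m ≤ n + M ∧ P m}.ncard : ℝ) := by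
    intro P n M
    rw [← Set.ncard_coe_finset]
    congr 2
    ext m
    simp [and_assoc]
  have hsub : {n : ℕ | 1 ≤ n ∧ n ≤ N ∧ ¬ ∀ M : ℕ, (n : ℝ) ^ a ≤ M →
        min κ1 κ2 * M ≤ ({m : ℕ | n < m ∧ m ≤ n + M ∧ gap m < 2 / (3 + a) + ε}.ncard : ℝ) ∧
        min κ1 κ2 * M ≤ ({m : ℕ | n < m ∧ m ≤ n + M ∧
          max 1.89 (1 + (1 + a) / 2 + ((1 + a) / 2) ^ 2) < gap m}.ncard : ℝ) ∧
        min κ1 κ2 * M ≤ ({m : ℕ | n < m ∧ m ≤ n + M ∧ ∀ k : ℕ, k ≤ r →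
          |∑ j ∈ Finset.range k, gap (m + j) - k - √r * ∫ y in (0:ℝ)..(k / r), f y| ≤
            ε * √r}.ncard : ℝ)} ⊆ (S1 : Set ℕ) ∪ S2 := by
    rintro n ⟨hn1, hn2, hn3⟩
    by_contra hcon
    rw [Set.mem_union, not_or] at hcon
    apply hn3
    intro M hM
    have hM0 : (0:ℝ) ≤ M := Nat.cast_nonneg M
    have k1 : ∀ M : ℕ, (n:ℝ) ^ a ≤ M →
        κ1 * M ≤ (({k ∈ Finset.Ioc n (n + M) | gap k < 2 / (3 + a) + ε} : Finset ℕ).card : ℝ) ∧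
        κ1 * M ≤ (({k ∈ Finset.Ioc n (n + M) |
          max 1.89 (1 + (1 + a) / 2 + ((1 + a) / 2) ^ 2) < gap k} : Finset ℕ).card : ℝ) := by
      by_contra h
      exact hcon.1 (Finset.mem_coe.2 (Finset.mem_filter.2 ⟨Finset.mem_Icc.2 ⟨hn1, hn2⟩, h⟩))
    have k2 : ∀ M : ℕ, (n : ℝ) ^ a ≤ M →
        κ2 * M ≤ ({m : ℕ | n < m ∧ m ≤ n + M ∧ ∀ k : ℕ, k ≤ r →
          |∑ j ∈ Finset.range k, gap (m + j) - k - √r * ∫ y in (0:ℝ)..(k / r), f y| ≤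
            ε * √r}.ncard : ℝ) := by
      by_contra h
      exact hcon.2 ⟨hn1, hn2, h⟩
    obtain ⟨k3, k4⟩ := k1 M hM
    have k5 := k2 M hM
    have m1 : min κ1 κ2 * M ≤ κ1 * M := mul_le_mul_of_nonneg_right (min_le_left _ _) hM0
    have m2 : min κ1 κ2 * M ≤ κ2 * M := mul_le_mul_of_nonneg_right (min_le_right _ _) hM0
    rw [hcard] at k3 k4
    exact ⟨m1.trans k3, m1.trans k4, m2.trans k5⟩
  have hle := Set.ncard_le_ncard hsub ((Finset.finite_toSet S1).union hS2f)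
  have hun := Set.ncard_union_le (S1 : Set ℕ) S2
  rw [Set.ncard_coe_finset] at hun
  have hle2 : ({n : ℕ | 1 ≤ n ∧ n ≤ N ∧ ¬ ∀ M : ℕ, (n : ℝ) ^ a ≤ M →
        min κ1 κ2 * M ≤ ({m : ℕ | n < m ∧ m ≤ n + M ∧ gap m < 2 / (3 + a) + ε}.ncard : ℝ) ∧
        min κ1 κ2 * M ≤ ({m : ℕ | n < m ∧ m ≤ n + M ∧
          max 1.89 (1 + (1 + a) / 2 + ((1 + a) / 2) ^ 2) < gap m}.ncard : ℝ) ∧
        min κ1 κ2 * M ≤ ({m : ℕ | n < m ∧ m ≤ n + M ∧ ∀ k : ℕ, k ≤ r →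
          |∑ j ∈ Finset.range k, gap (m + j) - k - √r * ∫ y in (0:ℝ)..(k / r), f y| ≤
            ε * √r}.ncard : ℝ)}.ncard : ℝ) ≤ (S1.card : ℝ) + (S2.ncard : ℝ) := by
    exact_mod_cast hle.trans hun
  have hp1 : (N:ℝ) ^ (1 - c1) ≤ (N:ℝ) ^ (1 - 2 * c) :=
    Real.rpow_le_rpow_of_exponent_le hN1 (by linarith)
  have hp2 : (N:ℝ) ^ (1 - c2) ≤ (N:ℝ) ^ (1 - 2 * c) :=
    Real.rpow_le_rpow_of_exponent_le hN1 (by linarith)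
  have hp3 : (N:ℝ) ^ (1 - c) = (N:ℝ) ^ c * (N:ℝ) ^ (1 - 2 * c) := by
    rw [← Real.rpow_add (by linarith)]
    ring_nf
  have hp4 : 0 ≤ (N:ℝ) ^ (1 - 2 * c) := Real.rpow_nonneg (by linarith) _
  have hp5 := mul_le_mul_of_nonneg_right e3 hp4
  rw [hp3]
  linarith

end Pool.Agent.PF
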