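import Pool.Agent.PF.VarD
import Pool.Agent.ZShort.VarNear

set_option autoImplicit false

/-!
# The mean square of a Dirichlet polynomial in almost all windows
-/

namespace Pool.Agent.PF.AAW

open MeasureTheory Finset Pool.Agent.TypBlk Pool.Agent.TypBlk.ExpAux Pool.Agent.PF.Var

/-! ### Divisors -/

lemma card_div_le {n : ℕ} (hn : n ≠ 0) : n.divisors.card ≤ 2 ^ n.primeFactorsList.length := by
  classical
  have h : n.divisors ⊆
      (((n.primeFactorsList : Multiset ℕ).powerset).map Multiset.prod).toFinset := by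
    intro a ha
    rw [Nat.mem_divisors] at ha
    have ha0 : a ≠ 0 := fun h0 => hn (by rw [h0] at ha; exact Nat.eq_zero_of_zero_dvd ha.1)
    rw [Multiset.mem_toFinset, Multiset.mem_map]
    refine ⟨(a.primeFactorsList : Multiset ℕ), ?_, ?_⟩
    · rw [Multiset.mem_powerset]
      exact Multiset.coe_le.mpr (Nat.primeFactorsList_sublist_of_dvd ha.1 hn).subperm
    · rw [Multiset.prod_coe]
      exact Nat.prod_primeFactorsList ha0
  calc n.divisors.card ≤ _ := card_le_card h
    _ ≤ Multiset.card (((n.primeFactorsList : Multiset ℕ).powerset).map Multiset.prod) :=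
        Multiset.toFinset_card_le _
    _ = 2 ^ n.primeFactorsList.length := by
        rw [Multiset.card_map, Multiset.card_powerset, Multiset.coe_card]

section

variable {I : Finset ℕ}

lemma length_num (hI : ∀ p ∈ I, p.Prime) (f : I → ℕ) :
    (num f).primeFactorsList.length = ∑ p : I, f p := by
  classical
  rw [← ArithmeticFunction.cardFactors_apply]
  unfold num
  have h : ∀ s : Finset I, ArithmeticFunction.cardFactors (∏ p ∈ s, (p : ℕ) ^ f p) =
      ∑ p ∈ s, f p := by
    intro s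
    induction s using Finset.induction_on with
    | empty => simp
    | insert r s hr ih =>
      have hrp : (r : ℕ).Prime := hI r.1 r.2
      rw [prod_insert hr, sum_insert hr, ArithmeticFunction.cardFactors_mul
        (pow_ne_zero _ hrp.ne_zero)
        (prod_ne_zero_iff.mpr fun p _ => pow_ne_zero _ (hI p.1 p.2).ne_zero), ih,
        ArithmeticFunction.cardFactors_pow, ArithmeticFunction.cardFactors_apply_prime hrp,
        mul_one]
  exact h univ

/-- The number of prime factors. -/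
def om (x : I → ZMod 5) : ℕ := ∑ p, (pe (x p) + ne (x p))

/-- The two products of a pair. -/
def phi (z : (I → ZMod 5) × (I → ZMod 5)) : ℕ × ℕ :=
  (num (fun p : I => pe (z.1 p) + ne (z.2 p)), num (fun p : I => pe (z.2 p) + ne (z.1 p)))

lemma num_add (f g : I → ℕ) : num (fun p => f p + g p) = num f * num g := by
  unfold num
  rw [← prod_mul_distrib]
  exact prod_congr rfl fun p _ => pow_add _ _ _

lemma num_inj (hI : ∀ p ∈ I, p.Prime) {f g : I → ℕ} (h : num f = num g) : f = g := by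
  funext q
  rw [← factorization_num hI f q, h, factorization_num hI g q]

lemma vec_inj (hI : ∀ p ∈ I, p.Prime) {x z : I → ZMod 5}
    (h1 : num (fun p : I => pe (x p)) = num (fun p : I => pe (z p)))
    (h2 : num (fun p : I => ne (x p)) = num (fun p : I => ne (z p))) : x = z := by
  funext q
  have e1 := congrFun (num_inj hI h1) q
  have e2 := congrFun (num_inj hI h2) q
  exact pe_ne_inj _ _ (by rw [e1, e2])

/-- The fibres are bounded. -/
lemma fib_le (hI : ∀ p ∈ I, p.Prime) {Ω0 : ℕ} (S : Finset ((I → ZMod 5) × (I → ZMod 5)))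
    (hS : ∀ z ∈ S, om z.1 ≤ Ω0 ∧ om z.2 ≤ Ω0) (w : ℕ × ℕ) :
    (S.filter fun z => phi z = w).card ≤ 4 ^ Ω0 := by
  classical
  rcases (S.filter fun z => phi z = w).eq_empty_or_nonempty with h | ⟨z0, hz0⟩
  · rw [h]; simp
  rw [mem_filter] at hz0
  have hw1 : w.1 ≠ 0 := by rw [← hz0.2]; exact (num_pos hI _).ne'
  have hw2 : w.2 ≠ 0 := by rw [← hz0.2]; exact (num_pos hI _).ne'
  have hlen : w.1.primeFactorsList.length + w.2.primeFactorsList.length ≤ 2 * Ω0 := by
    rw [← hz0.2]
    unfold phi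
    simp only
    rw [length_num hI, length_num hI, ← sum_add_distrib]
    obtain ⟨h1, h2⟩ := hS z0 hz0.1
    unfold om at h1 h2
    calc ∑ p : I, (pe (z0.1 p) + ne (z0.2 p) + (pe (z0.2 p) + ne (z0.1 p))) =
        ∑ p : I, (pe (z0.1 p) + ne (z0.1 p)) + ∑ p : I, (pe (z0.2 p) + ne (z0.2 p)) := by
          rw [← sum_add_distrib]
          exact sum_congr rfl fun p _ => by ring
      _ ≤ _ := by omega
  have hcard : (S.filter fun z => phi z = w).card ≤ (w.1.divisors ×ˢ w.2.divisors).card := by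
    refine card_le_card_of_injOn
      (fun z => (num (fun p : I => pe (z.1 p)), num (fun p : I => ne (z.1 p)))) ?_ ?_
    · intro z hz
      rw [mem_coe, mem_filter] at hz
      rw [mem_coe, mem_product, Nat.mem_divisors, Nat.mem_divisors]
      have h1 : w.1 = num (fun p : I => pe (z.1 p)) * num (fun p : I => ne (z.2 p)) := by
        rw [← num_add, ← hz.2]
        rfl
      have h2 : w.2 = num (fun p : I => pe (z.2 p)) * num (fun p : I => ne (z.1 p)) := by
        rw [← num_add, ← hz.2]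
        rfl
      exact ⟨⟨Dvd.intro _ h1.symm, hw1⟩, ⟨Dvd.intro_left _ h2.symm, hw2⟩⟩
    · intro z hz z' hz' he
      rw [mem_coe, mem_filter] at hz hz'
      simp only [Prod.mk.injEq] at he
      have e1 : z.1 = z'.1 := vec_inj hI he.1 he.2
      have hphi : phi z = phi z' := by rw [hz.2, hz'.2]
      unfold phi at hphi
      rw [Prod.mk.injEq] at hphi
      obtain ⟨a1, a2⟩ := hphi
      have b1 := num_inj hI a1
      have b2 := num_inj hI a2
      refine Prod.ext e1 ?_
      funext q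
      have c1 := congrFun b1 q
      have c2 := congrFun b2 q
      rw [e1] at c1 c2
      exact pe_ne_inj _ _ (by omega)
  calc _ ≤ (w.1.divisors ×ˢ w.2.divisors).card := hcard
    _ = w.1.divisors.card * w.2.divisors.card := card_product _ _
    _ ≤ 2 ^ w.1.primeFactorsList.length * 2 ^ w.2.primeFactorsList.length :=
        Nat.mul_le_mul (card_div_le hw1) (card_div_le hw2)
    _ = 2 ^ (w.1.primeFactorsList.length + w.2.primeFactorsList.length) := by rw [pow_add]
    _ ≤ 2 ^ (2 * Ω0) := Nat.pow_le_pow_right (by norm_num) hlen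
    _ = 4 ^ Ω0 := by rw [pow_mul]; norm_num

lemma log_phi (hI : ∀ p ∈ I, p.Prime) (z : (I → ZMod 5) × (I → ZMod 5)) :
    Real.log (phi z).1 = pos z.1 + neg z.2 ∧ Real.log (phi z).2 = pos z.2 + neg z.1 := by
  unfold phi
  simp only
  constructor
  · rw [log_num hI]
    unfold pos neg
    rw [← sum_add_distrib]
    exact sum_congr rfl fun p _ => by push_cast; ring
  · rw [log_num hI]
    unfold pos neg
    rw [← sum_add_distrib]
    exact sum_congr rfl fun p _ => by push_cast; ring

/-! ### Windows -/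

lemma int_ww_exp {K T t0 : ℝ} (hK : 0 < K) (hT : 1 < T) (l : ℝ) :
    ∫ t : ℝ, (ww K T t0 t : ℂ) * Complex.exp (((t * l : ℝ) : ℂ) * Complex.I) =
      (Wh (K / Real.log T * l) : ℂ) * Complex.exp (((t0 * l : ℝ) : ℂ) * Complex.I) := by
  have e1 : ∀ t : ℝ, (ww K T t0 t : ℂ) * Complex.exp (((t * l : ℝ) : ℂ) * Complex.I) =
      ((ww K T t0 t * Real.cos (t * l) : ℝ) : ℂ) +
        ((ww K T t0 t * Real.sin (t * l) : ℝ) : ℂ) * Complex.I := by
    intro t
    rw [Complex.exp_mul_I, ← Complex.ofReal_cos, ← Complex.ofReal_sin]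
    push_cast
    ring
  have hs : Integrable (fun t => ww K T t0 t * Real.sin (t * l)) := by
    refine (ww_integrable hK hT (t0 := t0)).norm.mono' ((ww_continuous K T t0).mul
      (by fun_prop)).aestronglyMeasurable (Filter.Eventually.of_forall fun t => ?_)
    rw [norm_mul]
    exact mul_le_of_le_one_right (norm_nonneg _) (Real.abs_sin_le_one _)
  simp_rw [e1]
  rw [integral_add (ww_integrable_cos hK hT l).ofReal (hs.ofReal.mul_const _), integral_mul_const,
    integral_complex_ofReal, integral_complex_ofReal, int_ww_cos hK hT, int_ww_sin hK hT,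
    Complex.exp_mul_I, ← Complex.ofReal_cos, ← Complex.ofReal_sin]
  push_cast
  ring

lemma window_eq {K T : ℝ} (hK : 0 < K) (hT : 1 < T) (y : (I → ZMod 5) → ℂ) (t0 : ℝ) :
    ((∫ t : ℝ, ww K T t0 t * ‖poly y t‖ ^ 2 : ℝ) : ℂ) = ∑ x, ∑ x', (starRingEnd ℂ (y x) * y x') *
      ((Wh (K / Real.log T * (lam x - lam x')) : ℂ) *
        Complex.exp (((t0 * (lam x - lam x') : ℝ) : ℂ) * Complex.I)) := by
  have hint : ∀ l : ℝ, Integrable fun t : ℝ =>
      (ww K T t0 t : ℂ) * Complex.exp (((t * l : ℝ) : ℂ) * Complex.I) := by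
    intro l
    refine (ww_integrable hK hT (t0 := t0)).ofReal.mul_bdd (c := 1) ?_
      (Filter.Eventually.of_forall fun t => ?_)
    · exact Continuous.aestronglyMeasurable (by fun_prop)
    · rw [Complex.norm_exp_ofReal_mul_I]
  rw [← integral_complex_ofReal]
  have e1 : ∀ t : ℝ, ((ww K T t0 t * ‖poly y t‖ ^ 2 : ℝ) : ℂ) =
      ∑ x, ∑ x', (starRingEnd ℂ (y x) * y x') *
        ((ww K T t0 t : ℂ) * Complex.exp (((t * (lam x - lam x') : ℝ) : ℂ) * Complex.I)) := by
    intro t
    rw [Complex.ofReal_mul, sq_norm_poly, mul_sum]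
    refine sum_congr rfl fun x _ => ?_
    rw [mul_sum]
    exact sum_congr rfl fun x' _ => by ring
  simp_rw [e1]
  rw [integral_finsetSum _ fun x _ => integrable_finsetSum _ fun x' _ =>
    (hint _).const_mul _]
  refine sum_congr rfl fun x _ => ?_
  rw [integral_finsetSum _ fun x' _ => (hint _).const_mul _]
  refine sum_congr rfl fun x' _ => ?_
  rw [integral_const_mul, int_ww_exp hK hT]

open Classical in
/-- The near pairs. -/
noncomputable def SS (y : (I → ZMod 5) → ℂ) (e : ℝ) : Finset ((I → ZMod 5) × (I → ZMod 5)) :=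
  univ.filter fun z => z.1 ≠ z.2 ∧ y z.1 ≠ 0 ∧ y z.2 ≠ 0 ∧ |lam z.1 - lam z.2| < e

/-- The coefficient of a pair. -/
noncomputable def wz (y : (I → ZMod 5) → ℂ) (k : ℝ) (z : (I → ZMod 5) × (I → ZMod 5)) : ℂ :=
  (starRingEnd ℂ (y z.1) * y z.2) * (Wh (k * (lam z.1 - lam z.2)) : ℂ)

open Classical in
/-- The coefficient of a ratio. -/
noncomputable def cz (y : (I → ZMod 5) → ℂ) (k e : ℝ) (w : ℕ × ℕ) : ℂ :=
  ∑ z ∈ (SS y e).filter (fun z => phi z = w), wz y k z

open Classical in
lemma window_sub {K T : ℝ} (hK : 0 < K) (hT : 1 < T) (hI : ∀ p ∈ I, p.Prime)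
    (y : (I → ZMod 5) → ℂ) (t0 : ℝ) :
    (((∫ t : ℝ, ww K T t0 t * ‖poly y t‖ ^ 2) - ∑ x, ‖y x‖ ^ 2 : ℝ) : ℂ) =
      ∑ w ∈ (SS y (Real.log T / K)).image phi, cz y (K / Real.log T) (Real.log T / K) w *
        Complex.exp (-((t0 * Real.log (w.2 / w.1) : ℝ) : ℂ) * Complex.I) := by
  have hL : 0 < Real.log T := Real.log_pos hT
  set k := K / Real.log T with hk
  set e := Real.log T / K with he
  have hk0 : 0 < k := by positivity
  have hke : k * e = 1 := by rw [hk, he]; field_simp
  set E : (I → ZMod 5) × (I → ZMod 5) → ℂ := fun z =>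
    wz y k z * Complex.exp (((t0 * (lam z.1 - lam z.2) : ℝ) : ℂ) * Complex.I) with hE
  have h1 : ((∫ t : ℝ, ww K T t0 t * ‖poly y t‖ ^ 2 : ℝ) : ℂ) = ∑ z, E z := by
    rw [window_eq hK hT, ← Finset.univ_product_univ, sum_product]
    refine sum_congr rfl fun x _ => sum_congr rfl fun x' _ => ?_
    simp only [hE, wz]
    ring
  have h2 : ((∑ x, ‖y x‖ ^ 2 : ℝ) : ℂ) = ∑ z, if z.1 = z.2 then E z else 0 := by
    rw [← Finset.univ_product_univ, sum_product, Complex.ofReal_sum]
    refine sum_congr rfl fun x _ => ?_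
    rw [sum_ite_eq univ x (fun x' => E (x, x')), if_pos (mem_univ x)]
    simp only [hE, wz, sub_self, mul_zero, Wh_zero, Complex.ofReal_zero, zero_mul,
      Complex.exp_zero, Complex.ofReal_one, mul_one]
    exact sq_norm_eq _
  have h3 : ∑ z, E z - ∑ z, (if z.1 = z.2 then E z else 0) = ∑ z ∈ SS y e, E z := by
    rw [← sum_sub_distrib]
    unfold SS
    rw [sum_filter]
    refine sum_congr rfl fun z _ => ?_
    by_cases c1 : z.1 = z.2
    · rw [if_pos c1, if_neg (fun h => h.1 c1), sub_self]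
    · rw [if_neg c1, sub_zero]
      split_ifs with h
      · rfl
      · have h0 : wz y k z = 0 := by
          unfold wz
          by_cases c2 : y z.1 = 0
          · rw [c2]; simp
          by_cases c3 : y z.2 = 0
          · rw [c3]; simp
          have c4 : e ≤ |lam z.1 - lam z.2| := by
            by_contra hcon
            exact h ⟨c1, c2, c3, not_le.mp hcon⟩
          rw [Wh_eq_zero, Complex.ofReal_zero, mul_zero]
          rw [abs_mul, abs_of_pos hk0, ← hke]
          exact mul_le_mul_of_nonneg_left c4 hk0.le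
        simp only [hE]
        rw [h0, zero_mul]
  rw [Complex.ofReal_sub, h1, h2, h3,
    ← sum_fiberwise_of_maps_to (g := phi) (t := (SS y e).image phi)
      (fun z hz => mem_image_of_mem _ hz)]
  refine sum_congr rfl fun w _ => ?_
  unfold cz
  rw [sum_mul]
  refine sum_congr rfl fun z hz => ?_
  have hzw := (mem_filter.mp hz).2
  simp only [hE]
  congr 1
  obtain ⟨l1, l2⟩ := log_phi hI z
  have p1 : ((phi z).1 : ℝ) ≠ 0 := by
    have : 0 < (phi z).1 := num_pos hI _
    exact_mod_cast this.ne'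
  have p2 : ((phi z).2 : ℝ) ≠ 0 := by
    have : 0 < (phi z).2 := num_pos hI _
    exact_mod_cast this.ne'
  rw [← hzw, Real.log_div p2 p1, l1, l2]
  congr 1
  unfold Var.lam
  push_cast
  ring

end

/-- **Almost all windows.** -/
theorem aaw {a' Th : ℝ} (ha : 0 < a') (hTh : 0 < Th) (h1 : Th < 1 / 2) (h2 : 4 * Th < 1 + a')
    (Ω0 : ℕ) {C0 : ℝ} (hC0 : 0 ≤ C0) : ∃ δ : ℝ, 0 < δ ∧ ∃ T0 : ℝ, Real.exp 3 ≤ T0 ∧
      ∀ T : ℝ, T0 ≤ T → ∀ I : Finset ℕ, (∀ p ∈ I, p.Prime) → ∀ y : (I → ZMod 5) → ℂ,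
      (∀ x, y x ≠ 0 → pos x ≤ Th * Real.log T ∧ neg x ≤ Th * Real.log T ∧ om x ≤ Ω0) →
      (∀ x, ‖y x‖ ≤ C0 * Real.exp (-(pos x + neg x) / 2)) →
      Continuous (fun t0 : ℝ => ∫ t : ℝ, ww (T ^ a' * Real.log T) T t0 t * ‖poly y t‖ ^ 2) ∧
      ∫ t0 in T..(2 * T), ((∫ t : ℝ, ww (T ^ a' * Real.log T) T t0 t * ‖poly y t‖ ^ 2) -
        ∑ x, ‖y x‖ ^ 2) ^ 2 ≤ T ^ (1 - δ) := by
  classical
  obtain ⟨δ, hδ, hfin⟩ := Pool.Agent.ZShort.final_bound ha hTh h1 h2
  obtain ⟨Cn, M0, hCn, hM0, hnear⟩ := Pool.Agent.ZShort.near_ms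
  set Kc : ℝ := C0 ^ 2 * 2 * 4 ^ Ω0 + 1 with hKc
  have hKc0 : 0 < Kc := by positivity
  obtain ⟨T0, hT0, hbd⟩ := hfin (Cn * Kc ^ 2) M0 (by positivity) hM0
  refine ⟨δ, hδ, T0, hT0, fun T hT I hI y hy hyb => ?_⟩
  obtain ⟨b1, b2, b3, b4⟩ := hbd T hT
  have h3T : Real.exp 3 ≤ T := hT0.trans hT
  have hT1 : 1 < T := lt_of_lt_of_le (Real.one_lt_exp_iff.mpr (by norm_num)) h3T
  have hTp : 0 < T := by linarith
  have hL : 0 < Real.log T := Real.log_pos hT1
  set K := T ^ a' * Real.log T with hKd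
  have hK : 0 < K := mul_pos (Real.rpow_pos_of_pos hTp _) hL
  have he : Real.log T / K = T ^ (-a') := by
    rw [hKd, Real.rpow_neg hTp.le]
    field_simp
  have hcont : Continuous (fun t0 : ℝ => ∫ t : ℝ, ww K T t0 t * ‖poly y t‖ ^ 2) := by
    have h4 : (fun t0 : ℝ => ∫ t : ℝ, ww K T t0 t * ‖poly y t‖ ^ 2) = fun t0 : ℝ =>
        (∑ x, ∑ x', (starRingEnd ℂ (y x) * y x') * ((Wh (K / Real.log T * (lam x - lam x')) : ℂ) *
          Complex.exp (((t0 * (lam x - lam x') : ℝ) : ℂ) * Complex.I))).re := by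
      funext t0
      rw [← window_eq hK hT1, Complex.ofReal_re]
    rw [h4]
    fun_prop
  refine ⟨hcont, ?_⟩
  set F := (SS y (Real.log T / K)).image phi with hF
  set c := cz y (K / Real.log T) (Real.log T / K) with hc
  have hsq : ∀ t0 : ℝ, ((∫ t : ℝ, ww K T t0 t * ‖poly y t‖ ^ 2) - ∑ x, ‖y x‖ ^ 2) ^ 2 =
      ‖∑ w ∈ F, c w * Complex.exp (-((t0 * Real.log (w.2 / w.1) : ℝ) : ℂ) * Complex.I)‖ ^ 2 := by
    intro t0
    rw [hF, hc, ← window_sub hK hT1 hI y t0, Complex.norm_real, Real.norm_eq_abs, sq_abs]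
  have hFc : ∀ p ∈ F, 1 ≤ p.1 ∧ (p.1 : ℝ) ≤ T ^ (2 * Th) ∧ p.1 ≠ p.2 ∧
      |(p.1 : ℝ) - p.2| ≤ 2 * T ^ (-a') * p.1 ∧ ‖c p‖ * p.1 ≤ Kc := by
    intro w hw
    obtain ⟨z, hz, hzw⟩ := mem_image.mp hw
    unfold SS at hz
    rw [mem_filter] at hz
    obtain ⟨-, z1, z2, z3, z4⟩ := hz
    obtain ⟨y1, y2, y3⟩ := hy _ z2
    obtain ⟨y4, y5, y6⟩ := hy _ z3
    obtain ⟨l1, l2⟩ := log_phi hI z
    rw [hzw] at l1 l2
    have w1 : 0 < w.1 := by rw [← hzw]; exact num_pos hI _
    have w2 : 0 < w.2 := by rw [← hzw]; exact num_pos hI _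
    have w1' : (0:ℝ) < w.1 := by exact_mod_cast w1
    have w2' : (0:ℝ) < w.2 := by exact_mod_cast w2
    rw [he] at z4
    have hlog : |Real.log w.1 - Real.log w.2| ≤ T ^ (-a') := by
      rw [l1, l2]
      have : pos z.1 + neg z.2 - (pos z.2 + neg z.1) = Var.lam z.1 - Var.lam z.2 := by
        unfold Var.lam; ring
      rw [this]
      exact z4.le
    refine ⟨w1, ?_, ?_, ?_, ?_⟩
    · rw [← Real.log_le_log_iff w1' (Real.rpow_pos_of_pos hTp _), l1, Real.log_rpow hTp]
      linarith
    · intro h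
      apply z1
      have h5 : num (fun p : I => pe (z.1 p) + ne (z.2 p)) =
          num (fun p : I => pe (z.2 p) + ne (z.1 p)) := by
        have := hzw
        unfold phi at this
        rw [← this] at h
        exact h
      funext q
      exact pe_ne_inj _ _ (congrFun (num_inj hI h5) q)
    · exact Pool.Agent.ZShort.abs_sub_le_of_log w1 w2 (by positivity) (by linarith) hlog
    · have hfib := fib_le hI (Ω0 := Ω0) (SS y (Real.log T / K)) (fun v hv => by
        unfold SS at hv
        rw [mem_filter] at hv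
        exact ⟨(hy _ hv.2.2.1).2.2, (hy _ hv.2.2.2.1).2.2⟩) w
      have hterm : ∀ v ∈ (SS y (Real.log T / K)).filter (fun z => phi z = w),
          ‖wz y (K / Real.log T) v‖ * w.1 ≤ C0 ^ 2 * 2 := by
        intro v hv
        have hv2 := (mem_filter.mp hv).2
        obtain ⟨m1, m2⟩ := log_phi hI v
        rw [hv2] at m1 m2
        unfold wz
        rw [norm_mul, norm_mul, RCLike.norm_conj, Complex.norm_real, Real.norm_eq_abs]
        have a1 := hyb v.1
        have a2 := hyb v.2
        have a3 := abs_Wh_le (K / Real.log T * (lam v.1 - lam v.2))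
        have a4 : ‖y v.1‖ * ‖y v.2‖ ≤ C0 ^ 2 * Real.exp (-(Real.log w.1 + Real.log w.2) / 2) := by
          calc ‖y v.1‖ * ‖y v.2‖ ≤ (C0 * Real.exp (-(pos v.1 + neg v.1) / 2)) *
              (C0 * Real.exp (-(pos v.2 + neg v.2) / 2)) :=
                mul_le_mul a1 a2 (norm_nonneg _) (by positivity)
            _ = C0 ^ 2 * (Real.exp (-(pos v.1 + neg v.1) / 2) *
                Real.exp (-(pos v.2 + neg v.2) / 2)) := by ring
            _ = _ := by
              rw [← Real.exp_add, m1, m2]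
              congr 2
              ring
        have a5 : Real.exp (-(Real.log w.1 + Real.log w.2) / 2) * w.1 ≤ 2 := by
          have e5 : Real.exp (-(Real.log w.1 + Real.log w.2) / 2) * w.1 =
              Real.exp ((Real.log w.1 - Real.log w.2) / 2) := by
            nth_rewrite 2 [← Real.exp_log w1']
            rw [← Real.exp_add]
            congr 1
            ring
          rw [e5]
          have h6 : (Real.log w.1 - Real.log w.2) / 2 ≤ 1 / 2 := by
            have := le_abs_self (Real.log w.1 - Real.log w.2)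
            linarith
          have h7 : Real.exp (1 / 2) ≤ 2 := by
            have h8 := Real.exp_one_lt_d9
            have h9 : Real.exp (1 / 2) ^ 2 = Real.exp 1 := by
              rw [← Real.exp_nat_mul]
              norm_num
            nlinarith [Real.exp_pos (1 / 2 : ℝ)]
          exact (Real.exp_le_exp.mpr h6).trans h7
        calc ‖y v.1‖ * ‖y v.2‖ * |Wh (K / Real.log T * (lam v.1 - lam v.2))| * w.1 ≤
            (C0 ^ 2 * Real.exp (-(Real.log w.1 + Real.log w.2) / 2)) * 1 * w.1 := by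
              gcongr
          _ = C0 ^ 2 * (Real.exp (-(Real.log w.1 + Real.log w.2) / 2) * w.1) := by ring
          _ ≤ C0 ^ 2 * 2 := by gcongr
      calc ‖c w‖ * w.1 ≤ (∑ v ∈ (SS y (Real.log T / K)).filter (fun z => phi z = w),
            ‖wz y (K / Real.log T) v‖) * w.1 := by
              rw [hc]
              unfold cz
              exact mul_le_mul_of_nonneg_right (norm_sum_le _ _) w1'.le
        _ = ∑ v ∈ (SS y (Real.log T / K)).filter (fun z => phi z = w),
            ‖wz y (K / Real.log T) v‖ * w.1 := by rw [sum_mul]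
        _ ≤ ∑ v ∈ (SS y (Real.log T / K)).filter (fun z => phi z = w), C0 ^ 2 * 2 :=
            sum_le_sum hterm
        _ = ((SS y (Real.log T / K)).filter (fun z => phi z = w)).card * (C0 ^ 2 * 2) := by
            rw [sum_const, nsmul_eq_mul]
        _ ≤ (4 ^ Ω0 : ℕ) * (C0 ^ 2 * 2) := by
            gcongr
        _ ≤ Kc := by
            rw [hKc]
            push_cast
            linarith
  have hmain := hnear T (T ^ (2 * Th)) (2 * T ^ (-a')) Kc b1 b2 (by positivity) (by linarith)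
    hKc0.le F c hFc
  have hcF : Continuous fun t0 : ℝ =>
      ‖∑ w ∈ F, c w * Complex.exp (-((t0 * Real.log (w.2 / w.1) : ℝ) : ℂ) * Complex.I)‖ ^ 2 := by
    fun_prop
  calc ∫ t0 in T..(2 * T), ((∫ t : ℝ, ww K T t0 t * ‖poly y t‖ ^ 2) - ∑ x, ‖y x‖ ^ 2) ^ 2 =
      ∫ t0 in T..(2 * T),
        ‖∑ w ∈ F, c w * Complex.exp (-((t0 * Real.log (w.2 / w.1) : ℝ) : ℂ) * Complex.I)‖ ^ 2 :=
        intervalIntegral.integral_congr fun t0 _ => hsq t0
    _ ≤ ∫ t0 in (T / 2)..(3 * T),
        ‖∑ w ∈ F, c w * Complex.exp (-((t0 * Real.log (w.2 / w.1) : ℝ) : ℂ) * Complex.I)‖ ^ 2 := by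
        apply intervalIntegral.integral_mono_interval (by linarith) (by linarith) (by linarith)
        · exact Filter.Eventually.of_forall fun t => by positivity
        · exact hcF.intervalIntegrable _ _
    _ ≤ _ := hmain
    _ ≤ T ^ (1 - δ) := b4

end Pool.Agent.PF.AAW
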