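import Pool.Agent.PF.VarB

set_option autoImplicit false

/-!
# The second moment of a short prime sum under the weight of a resonator
-/

namespace Pool.Agent.PF.Var

open Finset MeasureTheory

/-- The logarithm of the product. -/
noncomputable def el (S : Finset ℕ) : ℝ := ∑ p ∈ S, Real.log p

/-- The one-sided coefficient. -/
noncomputable def ga (c : ℕ → ℂ) (Φ : ℝ → ℝ) (M : ℝ) (S : Finset ℕ) : ℂ :=
  (Φ (el S / M) : ℂ) * ∏ p ∈ S, c p

/-- The resonator. -/
noncomputable def GAmp (I : Finset ℕ) (c : ℕ → ℂ) (Φ : ℝ → ℝ) (M t : ℝ) : ℂ :=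
  ∑ S ∈ I.powerset, ∑ S' ∈ (I \ S).powerset, ga c Φ M S * starRingEnd ℂ (ga c Φ M S') *
    Complex.exp (((-(t * (el S - el S')) : ℝ) : ℂ) * Complex.I)

/-- The sum of the squares of the coefficients. -/
noncomputable def GSig (I : Finset ℕ) (c : ℕ → ℂ) (Φ : ℝ → ℝ) (M : ℝ) : ℝ :=
  ∑ S ∈ I.powerset, ∑ S' ∈ (I \ S).powerset, ‖ga c Φ M S‖ ^ 2 * ‖ga c Φ M S'‖ ^ 2

/-- The prime sum. -/
noncomputable def XB (I : Finset ℕ) (b : ℕ → ℂ) (t : ℝ) : ℝ :=
  ∑ p ∈ I, (b p * Complex.exp (((-(t * Real.log p) : ℝ) : ℂ) * Complex.I)).re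

/-- Its mean. -/
noncomputable def muB (I : Finset ℕ) (b c : ℕ → ℂ) : ℝ :=
  ∑ p ∈ I, 2 * (b p * starRingEnd ℂ (c p)).re / (1 + 2 * ‖c p‖ ^ 2)

section

variable {I : Finset ℕ}

/-- The exponent vector of a pair. -/
noncomputable def enc (q : Finset ℕ × Finset ℕ) (p : I) : ZMod 5 :=
  if (p : ℕ) ∈ q.1 then 1 else if (p : ℕ) ∈ q.2 then -1 else 0

/-- The set of the primes with the exponent `a`. -/
noncomputable def dec (a : ZMod 5) (x : I → ZMod 5) : Finset ℕ :=
  (univ.filter fun p : I => x p = a).map (Function.Embedding.subtype _)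

lemma mem_dec {a : ZMod 5} {x : I → ZMod 5} {n : ℕ} :
    n ∈ dec a x ↔ ∃ h : n ∈ I, x ⟨n, h⟩ = a := by
  unfold dec
  rw [mem_map]
  constructor
  · rintro ⟨p, hp, rfl⟩
    exact ⟨p.2, (mem_filter.mp hp).2⟩
  · rintro ⟨h, hx⟩
    exact ⟨⟨n, h⟩, mem_filter.mpr ⟨mem_univ _, hx⟩, rfl⟩

/-- Sums over the pairs as sums over the exponent vectors. -/
lemma sum_pairs {β : Type*} [AddCommMonoid β] (g : (I → ZMod 5) → β)
    (hg : ∀ x, (∃ p, x p ≠ 0 ∧ x p ≠ 1 ∧ x p ≠ -1) → g x = 0) :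
    ∑ S ∈ I.powerset, ∑ S' ∈ (I \ S).powerset, g (enc (S, S')) = ∑ x, g x := by
  classical
  rw [sum_sigma']
  have h1 : ∑ x, g x = ∑ x ∈ univ.filter (fun x : I → ZMod 5 => ∀ p, x p = 0 ∨ x p = 1 ∨ x p = -1),
      g x := by
    rw [sum_filter]
    refine sum_congr rfl fun x _ => ?_
    split_ifs with h
    · rfl
    · apply hg
      push Not at h
      exact h
  rw [h1]
  refine sum_nbij' (fun q => enc (q.1, q.2)) (fun x => ⟨dec 1 x, dec (-1) x⟩) ?_ ?_ ?_ ?_ ?_
  · intro q hq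
    refine mem_filter.mpr ⟨mem_univ _, fun p => ?_⟩
    unfold enc
    split_ifs
    · exact Or.inr (Or.inl rfl)
    · exact Or.inr (Or.inr rfl)
    · exact Or.inl rfl
  · intro x hx
    refine mem_sigma.mpr ⟨mem_powerset.mpr fun n hn => (mem_dec.mp hn).1,
      mem_powerset.mpr fun n hn => ?_⟩
    obtain ⟨h, hx⟩ := mem_dec.mp hn
    refine mem_sdiff.mpr ⟨h, fun h' => ?_⟩
    obtain ⟨_, hx'⟩ := mem_dec.mp h'
    rw [hx] at hx'
    exact absurd hx' (by decide)
  · rintro ⟨S, S'⟩ hq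
    obtain ⟨h2, h3⟩ := mem_sigma.mp hq
    simp only [mem_powerset] at h2 h3
    have e1 : dec 1 (enc (I := I) (S, S')) = S := by
      ext n
      rw [mem_dec]
      constructor
      · rintro ⟨h, hx⟩
        by_contra hn
        unfold enc at hx
        simp only [if_neg hn] at hx
        split_ifs at hx
        · exact absurd hx (by decide)
        · exact absurd hx (by decide)
      · intro hn
        refine ⟨h2 hn, ?_⟩
        unfold enc
        simp only [if_pos hn]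
    have e2 : dec (-1) (enc (I := I) (S, S')) = S' := by
      ext n
      rw [mem_dec]
      constructor
      · rintro ⟨h, hx⟩
        by_contra hn
        unfold enc at hx
        simp only [if_neg hn] at hx
        split_ifs at hx
        · exact absurd hx (by decide)
        · exact absurd hx (by decide)
      · intro hn
        obtain ⟨h4, h5⟩ := mem_sdiff.mp (h3 hn)
        refine ⟨h4, ?_⟩
        unfold enc
        simp only [if_neg h5, if_pos hn]
    simp only [e1, e2]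
  · intro x hx
    have h2 := (mem_filter.mp hx).2
    funext p
    simp only [enc, mem_dec]
    rcases h2 p with h | h | h
    · have h3 : ¬ ∃ h : (p : ℕ) ∈ I, x ⟨p, h⟩ = 1 := by
        rintro ⟨_, h4⟩
        rw [show (⟨(p : ℕ), p.2⟩ : I) = p from rfl] at h4
        rw [h] at h4
        exact absurd h4 (by decide)
      have h4 : ¬ ∃ h : (p : ℕ) ∈ I, x ⟨p, h⟩ = -1 := by
        rintro ⟨_, h4⟩
        rw [show (⟨(p : ℕ), p.2⟩ : I) = p from rfl] at h4
        rw [h] at h4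
        exact absurd h4 (by decide)
      rw [if_neg h3, if_neg h4, h]
    · have h3 : ∃ h : (p : ℕ) ∈ I, x ⟨p, h⟩ = 1 := ⟨p.2, h⟩
      rw [if_pos h3, h]
    · have h3 : ¬ ∃ h : (p : ℕ) ∈ I, x ⟨p, h⟩ = 1 := by
        rintro ⟨_, h4⟩
        rw [show (⟨(p : ℕ), p.2⟩ : I) = p from rfl] at h4
        rw [h] at h4
        exact absurd h4 (by decide)
      have h4 : ∃ h : (p : ℕ) ∈ I, x ⟨p, h⟩ = -1 := ⟨p.2, h⟩
      rw [if_neg h3, if_pos h4, h]
  · intro q _
    rfl

/-- The profile on exponent vectors. -/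
noncomputable def prf (Φ : ℝ → ℝ) (M : ℝ) (x : I → ZMod 5) : ℝ := Φ (pos x / M) * Φ (neg x / M)

/-- The state of the resonator. -/
noncomputable def vv (c : ℕ → ℂ) (Φ : ℝ → ℝ) (M : ℝ) (x : I → ZMod 5) : ℂ :=
  prf Φ M x * Psi (fun p : I => c p) x

lemma psi_ne {c : ℂ} {j : ZMod 5} (h : psi c j ≠ 0) : j = 0 ∨ j = 1 ∨ j = -1 := by
  by_contra hcon
  push Not at hcon
  refine h ?_
  unfold psi
  rw [if_neg hcon.1, if_neg hcon.2.1, if_neg hcon.2.2]

lemma Psi_ne {c : I → ℂ} {x : I → ZMod 5} (h : Psi c x ≠ 0) (p : I) :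
    x p = 0 ∨ x p = 1 ∨ x p = -1 :=
  psi_ne (c := c p) fun h0 => h (prod_eq_zero (mem_univ p) h0)

lemma vv_zero {c : ℕ → ℂ} {Φ : ℝ → ℝ} {M : ℝ} (x : I → ZMod 5)
    (h : ∃ p, x p ≠ 0 ∧ x p ≠ 1 ∧ x p ≠ -1) : vv c Φ M x = 0 := by
  obtain ⟨p, h1, h2, h3⟩ := h
  unfold vv
  by_cases h0 : Psi (fun p : I => c p) x = 0
  · rw [h0, mul_zero]
  · rcases Psi_ne h0 p with h | h | h
    · exact absurd h h1
    · exact absurd h h2
    · exact absurd h h3

lemma pos_enc {S S' : Finset ℕ} (h : S ⊆ I) : pos (enc (I := I) (S, S')) = el S := by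
  unfold pos el enc
  have h1 : ∀ p : I, ((pe (if (p : ℕ) ∈ S then 1 else if (p : ℕ) ∈ S' then -1 else 0) : ℕ) : ℝ) *
      Real.log (p : ℕ) = (fun n : ℕ => if n ∈ S then Real.log n else 0) p := by
    intro p
    simp only
    by_cases h2 : (p : ℕ) ∈ S
    · rw [if_pos h2, if_pos h2]
      have : pe 1 = 1 := by decide
      rw [this]
      simp
    · rw [if_neg h2, if_neg h2]
      have : pe (if (p : ℕ) ∈ S' then -1 else 0) = 0 := by
        split_ifs
        · decide
        · decide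
      rw [this]
      simp
  rw [sum_congr rfl fun p _ => h1 p, sum_coe_sort I fun n : ℕ => if n ∈ S then Real.log n else 0,
    ← sum_filter]
  refine sum_congr ?_ fun _ _ => rfl
  ext n
  rw [mem_filter]
  exact ⟨fun h => h.2, fun hn => ⟨h hn, hn⟩⟩

lemma neg_enc {S S' : Finset ℕ} (h : S' ⊆ I \ S) : neg (enc (I := I) (S, S')) = el S' := by
  unfold neg el enc
  have h1 : ∀ p : I, ((ne (if (p : ℕ) ∈ S then 1 else if (p : ℕ) ∈ S' then -1 else 0) : ℕ) : ℝ) *
      Real.log (p : ℕ) = (fun n : ℕ => if n ∈ S' then Real.log n else 0) p := by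
    intro p
    simp only
    by_cases h2 : (p : ℕ) ∈ S'
    · have h3 : (p : ℕ) ∉ S := (mem_sdiff.mp (h h2)).2
      rw [if_neg h3, if_pos h2, if_pos h2]
      have : ne (-1) = 1 := by decide
      rw [this]
      simp
    · rw [if_neg h2, if_neg h2]
      have : ne (if (p : ℕ) ∈ S then 1 else 0) = 0 := by
        split_ifs
        · decide
        · decide
      rw [this]
      simp
  rw [sum_congr rfl fun p _ => h1 p, sum_coe_sort I fun n : ℕ => if n ∈ S' then Real.log n else 0,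
    ← sum_filter]
  refine sum_congr ?_ fun _ _ => rfl
  ext n
  rw [mem_filter]
  exact ⟨fun h => h.2, fun hn => ⟨(mem_sdiff.mp (h hn)).1, hn⟩⟩

lemma Psi_enc (c : ℕ → ℂ) {S S' : Finset ℕ} (h : S ⊆ I) (h' : S' ⊆ I \ S) :
    Psi (fun p : I => c p) (enc (I := I) (S, S')) = (∏ p ∈ S, c p) * starRingEnd ℂ (∏ p ∈ S', c p) := by
  unfold Psi prodv enc
  have h1 : ∀ p : I, psi (c p) (if (p : ℕ) ∈ S then 1 else if (p : ℕ) ∈ S' then -1 else 0) =
      (fun n : ℕ => (if n ∈ S then c n else 1) * (if n ∈ S' then starRingEnd ℂ (c n) else 1)) p := by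
    intro p
    simp only
    by_cases h2 : (p : ℕ) ∈ S
    · have h3 : (p : ℕ) ∉ S' := fun h4 => (mem_sdiff.mp (h' h4)).2 h2
      rw [if_pos h2, if_pos h2, if_neg h3, psi_1, mul_one]
    · rw [if_neg h2, if_neg h2, one_mul]
      by_cases h3 : (p : ℕ) ∈ S'
      · rw [if_pos h3, if_pos h3]
        exact psi_4 _
      · rw [if_neg h3, if_neg h3, psi_0]
  rw [prod_congr rfl fun p _ => h1 p, prod_coe_sort I fun n : ℕ =>
    (if n ∈ S then c n else 1) * (if n ∈ S' then starRingEnd ℂ (c n) else 1), prod_mul_distrib,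
    ← prod_filter, ← prod_filter, map_prod]
  congr 1
  · refine prod_congr ?_ fun _ _ => rfl
    ext n
    rw [mem_filter]
    exact ⟨fun h => h.2, fun hn => ⟨h hn, hn⟩⟩
  · refine prod_congr ?_ fun _ _ => rfl
    ext n
    rw [mem_filter]
    exact ⟨fun h => h.2, fun hn => ⟨(mem_sdiff.mp (h' hn)).1, hn⟩⟩

lemma vv_enc (c : ℕ → ℂ) (Φ : ℝ → ℝ) (M : ℝ) {S S' : Finset ℕ} (h : S ⊆ I) (h' : S' ⊆ I \ S) :
    vv c Φ M (enc (I := I) (S, S')) = ga c Φ M S * starRingEnd ℂ (ga c Φ M S') := by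
  unfold vv prf
  rw [pos_enc h, neg_enc h', Psi_enc c h h']
  unfold ga
  rw [map_mul, Complex.conj_ofReal]
  push_cast
  ring

/-- The resonator as a Dirichlet polynomial. -/
lemma GAmp_eq (c : ℕ → ℂ) (Φ : ℝ → ℝ) (M t : ℝ) :
    GAmp I c Φ M t = poly (vv (I := I) c Φ M) t := by
  unfold GAmp poly
  rw [← sum_pairs (fun x : I → ZMod 5 => vv c Φ M x *
    Complex.exp (((-(t * lam x) : ℝ) : ℂ) * Complex.I)) fun x hx => by
      rw [vv_zero x hx, zero_mul]]
  refine sum_congr rfl fun S hS => sum_congr rfl fun S' hS' => ?_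
  rw [mem_powerset] at hS hS'
  rw [vv_enc c Φ M hS hS']
  unfold lam
  rw [pos_enc hS, neg_enc hS']

lemma GSig_eq (c : ℕ → ℂ) (Φ : ℝ → ℝ) (M : ℝ) :
    GSig I c Φ M = ∑ x : I → ZMod 5, ‖vv c Φ M x‖ ^ 2 := by
  unfold GSig
  rw [← sum_pairs (fun x : I → ZMod 5 => ‖vv c Φ M x‖ ^ 2) fun x hx => by
      rw [vv_zero x hx]; simp]
  refine sum_congr rfl fun S hS => sum_congr rfl fun S' hS' => ?_
  rw [mem_powerset] at hS hS'
  rw [vv_enc c Φ M hS hS', norm_mul, RCLike.norm_conj, mul_pow]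

/-- The prime sum times the resonator. -/
lemma XB_mul_poly (b : ℕ → ℂ) (v : (I → ZMod 5) → ℂ)
    (hv : ∀ x, v x ≠ 0 → ∀ p, x p = 0 ∨ x p = 1 ∨ x p = -1) (t : ℝ) :
    (XB I b t : ℂ) * poly v t = poly (opX (fun p : I => b p) v) t := by
  set E : ℝ → ℂ := fun s => Complex.exp (((-(t * s) : ℝ) : ℂ) * Complex.I) with hE
  have hEadd : ∀ r s, E (r + s) = E r * E s := by
    intro r s
    simp only [hE]
    rw [← Complex.exp_add]
    congr 1
    push_cast
    ring
  have hEconj : ∀ s, starRingEnd ℂ (E s) = E (-s) := by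
    intro s
    simp only [hE]
    rw [← Complex.exp_conj, map_mul, Complex.conj_ofReal, Complex.conj_I]
    congr 1
    push_cast
    ring
  have hX : (XB I b t : ℂ) = ∑ p : I, (b p * E (Real.log (p : ℕ)) +
      starRingEnd ℂ (b p) * E (-Real.log (p : ℕ))) / 2 := by
    unfold XB
    rw [Complex.ofReal_sum, ← sum_coe_sort I]
    refine sum_congr rfl fun p _ => ?_
    have h := Complex.re_eq_add_conj (b p * E (Real.log (p : ℕ)))
    rw [map_mul, hEconj] at h
    exact h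
  have hP : ∀ (w : (I → ZMod 5) → ℂ), poly w t = ∑ x, w x * E (lam x) := fun w => rfl
  rw [hP, hP, hX]
  unfold opX
  -- one term
  have h1 : ∀ p : I, ∑ x : I → ZMod 5, v (x + Pi.single p (-1)) * E (lam x) =
      E (Real.log (p : ℕ)) * ∑ x, v x * E (lam x) := by
    intro p
    refine (Equiv.sum_comp (Equiv.addRight (Pi.single p 1 : I → ZMod 5))
      (fun x : I → ZMod 5 => v (x + Pi.single p (-1)) * E (lam x))).symm.trans ?_
    rw [mul_sum]
    refine sum_congr rfl fun x _ => ?_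
    have h2 : (Equiv.addRight (Pi.single p 1 : I → ZMod 5)) x + Pi.single p (-1) = x := by
      rw [Equiv.coe_addRight, add_assoc, ← Pi.single_add, add_neg_cancel, Pi.single_zero, add_zero]
    rw [h2]
    by_cases h0 : v x = 0
    · rw [h0, zero_mul, zero_mul, mul_zero]
    · rw [Equiv.coe_addRight, (shift_one (hv x h0 p)).1, hEadd]
      ring
  have h1' : ∀ p : I, ∑ x : I → ZMod 5, v (x + Pi.single p 1) * E (lam x) =
      E (-Real.log (p : ℕ)) * ∑ x, v x * E (lam x) := by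
    intro p
    refine (Equiv.sum_comp (Equiv.addRight (Pi.single p (-1) : I → ZMod 5))
      (fun x : I → ZMod 5 => v (x + Pi.single p 1) * E (lam x))).symm.trans ?_
    rw [mul_sum]
    refine sum_congr rfl fun x _ => ?_
    have h2 : (Equiv.addRight (Pi.single p (-1) : I → ZMod 5)) x + Pi.single p 1 = x := by
      rw [Equiv.coe_addRight, add_assoc, ← Pi.single_add, neg_add_cancel, Pi.single_zero, add_zero]
    rw [h2]
    by_cases h0 : v x = 0
    · rw [h0, zero_mul, zero_mul, mul_zero]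
    · rw [Equiv.coe_addRight, (shift_neg (hv x h0 p)).1, sub_eq_add_neg, hEadd]
      ring
  have h3 : ∑ x : I → ZMod 5, (∑ p : I, (b p * v (x + Pi.single p (-1)) +
      starRingEnd ℂ (b p) * v (x + Pi.single p 1)) / 2) * E (lam x) =
      ∑ p : I, (b p * ∑ x : I → ZMod 5, v (x + Pi.single p (-1)) * E (lam x) +
        starRingEnd ℂ (b p) * ∑ x : I → ZMod 5, v (x + Pi.single p 1) * E (lam x)) / 2 := by
    simp_rw [sum_mul]
    rw [sum_comm]
    refine sum_congr rfl fun p _ => ?_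
    rw [mul_sum, mul_sum, ← sum_add_distrib, sum_div]
    exact sum_congr rfl fun x _ => by ring
  rw [h3, sum_mul]
  refine sum_congr rfl fun p _ => ?_
  rw [h1, h1']
  ring

lemma poly_sub_smul (v w : (I → ZMod 5) → ℂ) (m : ℂ) (t : ℝ) :
    poly v t - m * poly w t = poly (fun x => v x - m * w x) t := by
  unfold poly
  rw [mul_sum, ← sum_sub_distrib]
  exact sum_congr rfl fun x _ => by ring

/-- **The mean square of the resonator.** -/
theorem mean_sq (hI : ∀ p ∈ I, p.Prime) (c : ℕ → ℂ) {Φ : ℝ → ℝ} {M δ : ℝ} (hM : 0 < M)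
    (hΦ0 : ∀ u, 1 ≤ u → Φ u = 0) {Om : ℝ → ℝ} (hOm : Integrable Om)
    (hvan : ∀ l : ℝ, δ ≤ |l| →
      ∫ t : ℝ, (Om t : ℂ) * Complex.exp (((t * l : ℝ) : ℂ) * Complex.I) = 0)
    (hδ : δ ≤ Real.exp (-(2 * M)) / 2) :
    ∫ t : ℝ, Om t * ‖GAmp I c Φ M t‖ ^ 2 = (∫ t : ℝ, Om t) * GSig I c Φ M := by
  rw [GSig_eq, ← mean_value hI hOm hvan hδ (vv c Φ M)]
  · simp_rw [GAmp_eq]
  · intro x hx
    constructor
    · by_contra hcon
      rw [not_le] at hcon
      refine hx ?_
      unfold vv prf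
      rw [hΦ0 (pos x / M) ((one_le_div hM).mpr hcon.le)]
      simp
    · by_contra hcon
      rw [not_le] at hcon
      refine hx ?_
      unfold vv prf
      rw [hΦ0 (neg x / M) ((one_le_div hM).mpr hcon.le)]
      simp

/-- **The second moment of the prime sum under the weight of the resonator.** -/
theorem var_bound (hI : ∀ p ∈ I, p.Prime) (b c : ℕ → ℂ) {Φ : ℝ → ℝ} {M B K δ : ℝ} (hM : 0 < M)
    (hB : 0 ≤ B) (hK : 0 ≤ K) (hΦ1 : ∀ u, 0 ≤ u → |Φ u| ≤ 1) (hΦ0 : ∀ u, 1 ≤ u → Φ u = 0)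
    (hΦK : ∀ u v, 0 ≤ u → 0 ≤ v → |Φ u - Φ v| ≤ K * |u - v|)
    (hb : ∀ p ∈ I, B < Real.log p → b p = 0) {Om : ℝ → ℝ} (hOm : Integrable Om)
    (hOm0 : 0 ≤ ∫ t : ℝ, Om t)
    (hvan : ∀ l : ℝ, δ ≤ |l| →
      ∫ t : ℝ, (Om t : ℂ) * Complex.exp (((t * l : ℝ) : ℂ) * Complex.I) = 0)
    (hδ : δ ≤ Real.exp (-(2 * (M + B))) / 2) :
    ∫ t : ℝ, Om t * (‖GAmp I c Φ M t‖ ^ 2 * (XB I b t - muB I b c) ^ 2) ≤
      (∫ t : ℝ, Om t) * (3 * (∏ p ∈ I, (1 + 2 * ‖c p‖ ^ 2)) *
        (∑ p ∈ I, ‖b p‖ ^ 2 * (1 + (K * Real.log p / M) ^ 2 / 2) +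
          2 * (∑ p ∈ I, ‖b p‖ * ‖c p‖ * (K * Real.log p / M)) ^ 2)) := by
  set v : (I → ZMod 5) → ℂ := vv c Φ M with hv
  set b' : I → ℂ := fun p => b p with hb'
  set c' : I → ℂ := fun p => c p with hc'
  have hvs : ∀ x, v x ≠ 0 → ∀ p, x p = 0 ∨ x p = 1 ∨ x p = -1 := by
    intro x hx p
    refine Psi_ne (c := c') (fun h0 => hx ?_) p
    rw [hv]
    unfold vv
    rw [← hc', h0, mul_zero]
  have hmu : muB I b c = muX b' c' := by
    unfold muB muX mup
    rw [← sum_coe_sort I]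
  have e1 : ∀ t, Om t * (‖GAmp I c Φ M t‖ ^ 2 * (XB I b t - muB I b c) ^ 2) =
      Om t * ‖poly (fun x => opX b' v x - (muX b' c' : ℂ) * v x) t‖ ^ 2 := by
    intro t
    rw [← poly_sub_smul, ← XB_mul_poly b v hvs, ← sub_mul, norm_mul, mul_pow, GAmp_eq, ← hv,
      ← Complex.ofReal_sub, Complex.norm_real, Real.norm_eq_abs, sq_abs, hmu]
    ring
  simp_rw [e1]
  -- the support
  have hsupp : ∀ x, v x ≠ 0 → pos x ≤ M ∧ neg x ≤ M := by
    intro x hx
    constructor
    · by_contra hcon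
      rw [not_le] at hcon
      refine hx ?_
      rw [hv]
      unfold vv prf
      rw [hΦ0 (pos x / M) ((one_le_div hM).mpr hcon.le)]
      simp
    · by_contra hcon
      rw [not_le] at hcon
      refine hx ?_
      rw [hv]
      unfold vv prf
      rw [hΦ0 (neg x / M) ((one_le_div hM).mpr hcon.le)]
      simp
  have hstep : ∀ (x : I → ZMod 5) (p : I) (a a' : ZMod 5), b' p ≠ 0 → (a = 1 ∧ a' = -1) ∨
      (a = -1 ∧ a' = 1) → v (x + Pi.single p a) ≠ 0 → pos x ≤ M + B ∧ neg x ≤ M + B := by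
    intro x p a a' hbp ha hx
    have hlB : Real.log (p : ℕ) ≤ B := by
      by_contra hcon
      rw [not_le] at hcon
      exact hbp (hb p p.2 hcon)
    obtain ⟨h1, h2⟩ := hsupp _ hx
    have h3 := hvs _ hx p
    have h4 : |pos (x + Pi.single p a + Pi.single p a') - pos (x + Pi.single p a)| +
        |neg (x + Pi.single p a + Pi.single p a') - neg (x + Pi.single p a)| =
          Real.log (p : ℕ) := by
      rcases ha with ⟨rfl, rfl⟩ | ⟨rfl, rfl⟩
      · exact (shift_neg h3).2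
      · exact (shift_one h3).2
    have h5 : x + Pi.single p a + Pi.single p a' = x := by
      rcases ha with ⟨rfl, rfl⟩ | ⟨rfl, rfl⟩
      · rw [add_assoc, ← Pi.single_add, add_neg_cancel, Pi.single_zero, add_zero]
      · rw [add_assoc, ← Pi.single_add, neg_add_cancel, Pi.single_zero, add_zero]
    rw [h5] at h4
    have h6 := le_abs_self (pos x - pos (x + Pi.single p a))
    have h7 := le_abs_self (neg x - neg (x + Pi.single p a))
    have h8 := abs_nonneg (pos x - pos (x + Pi.single p a))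
    have h9 := abs_nonneg (neg x - neg (x + Pi.single p a))
    constructor <;> linarith
  rw [mean_value hI hOm hvan hδ]
  · refine mul_le_mul_of_nonneg_left ?_ hOm0
    have hη : ∀ p : I, 0 ≤ K * Real.log (p : ℕ) / M := fun p =>
      div_nonneg (mul_nonneg hK (log_nat_nonneg _)) hM.le
    have hPd : ∀ x y : I → ZMod 5, |prf Φ M x - prf Φ M y| ≤
        K / M * (|pos x - pos y| + |neg x - neg y|) := by
      intro x y
      have e2 : prf Φ M x - prf Φ M y = (Φ (pos x / M) - Φ (pos y / M)) * Φ (neg x / M) +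
          Φ (pos y / M) * (Φ (neg x / M) - Φ (neg y / M)) := by
        unfold prf
        ring
      rw [e2]
      have p1 : ∀ x : I → ZMod 5, 0 ≤ pos x / M := fun x => div_nonneg (pos_nonneg x) hM.le
      have p2 : ∀ x : I → ZMod 5, 0 ≤ neg x / M := fun x => div_nonneg (neg_nonneg x) hM.le
      have h1 := hΦK _ _ (p1 x) (p1 y)
      have h2 := hΦK _ _ (p2 x) (p2 y)
      have h3 := hΦ1 _ (p2 x)
      have h4 := hΦ1 _ (p1 y)
      have e3 : ∀ r s : ℝ, |r / M - s / M| = |r - s| / M := by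
        intro r s
        rw [← sub_div, abs_div, abs_of_pos hM]
      rw [e3] at h1 h2
      calc _ ≤ |(Φ (pos x / M) - Φ (pos y / M)) * Φ (neg x / M)| +
            |Φ (pos y / M) * (Φ (neg x / M) - Φ (neg y / M))| := abs_add_le _ _
        _ ≤ K * (|pos x - pos y| / M) * 1 + 1 * (K * (|neg x - neg y| / M)) := by
            rw [abs_mul, abs_mul]
            exact add_le_add (mul_le_mul h1 h3 (abs_nonneg _)
              (mul_nonneg hK (div_nonneg (abs_nonneg _) hM.le)))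
              (mul_le_mul h4 h2 (abs_nonneg _) zero_le_one)
        _ = _ := by ring
    have key := var_trunc b' c' (prf Φ M) (fun p => K * Real.log (p : ℕ) / M) hη
      (fun x => by
        unfold prf
        rw [abs_mul]
        exact mul_le_one₀ (hΦ1 _ (div_nonneg (pos_nonneg x) hM.le)) (abs_nonneg _)
          (hΦ1 _ (div_nonneg (neg_nonneg x) hM.le)))
      (fun x p hx => by
        refine (hPd _ _).trans (le_of_eq ?_)
        rw [(shift_one (Psi_ne hx p)).2]
        ring)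
      (fun x p hx => by
        refine (hPd _ _).trans (le_of_eq ?_)
        rw [(shift_neg (Psi_ne hx p)).2]
        ring)
    refine key.trans (le_of_eq ?_)
    unfold Nrm
    rw [← prod_coe_sort I, ← sum_coe_sort I, ← sum_coe_sort I]
  · intro x hx
    by_contra hcon
    refine hx ?_
    have h1 : v x = 0 := by
      by_contra h0
      obtain ⟨h2, h3⟩ := hsupp x h0
      exact hcon ⟨by linarith, by linarith⟩
    have h2 : opX b' v x = 0 := by
      unfold opX
      refine sum_eq_zero fun p _ => ?_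
      by_cases hbp : b' p = 0
      · rw [hbp, map_zero, zero_mul, zero_mul, add_zero, zero_div]
      have h3 : v (x + Pi.single p (-1)) = 0 := by
        by_contra h0
        exact hcon (hstep x p (-1) 1 hbp (Or.inr ⟨rfl, rfl⟩) h0)
      have h4 : v (x + Pi.single p 1) = 0 := by
        by_contra h0
        exact hcon (hstep x p 1 (-1) hbp (Or.inl ⟨rfl, rfl⟩) h0)
      rw [h3, h4, mul_zero, mul_zero, add_zero, zero_div]
    rw [h1, h2, mul_zero, sub_zero]

end

end Pool.Agent.PF.Var
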