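import Pool.Agent.PF.Sta
import Pool.Agent.PF.VarC
import Pool.Agent.ZGap.Res.PrimeSum

/-!
# Theorem P: limits of the prime sums
-/

open scoped ContDiff

namespace Pool.Agent.PF

open MeasureTheory Real Filter Topology ArithmeticFunction Pool.Agent.ZGap.Res

namespace LimAux

/-- Smooth functions of compact support are bounded and Lipschitz. -/
lemma bd_lip {E : Type*} [NormedAddCommGroup E] [NormedSpace ℝ E] {f : ℝ → E}
    (h1 : ContDiff ℝ ∞ f) (h2 : HasCompactSupport f) : ∃ K M : ℝ, 0 ≤ K ∧ 0 ≤ M ∧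
      (∀ x y, ‖f x - f y‖ ≤ K * |x - y|) ∧ ∀ x, ‖f x‖ ≤ M := by
  obtain ⟨K, hK⟩ := ContDiff.lipschitzWith_of_hasCompactSupport h2 h1 (by simp)
  obtain ⟨M, hM⟩ := h2.exists_bound_of_continuous h1.continuous
  refine ⟨K, M, K.2, (norm_nonneg _).trans (hM 0), fun x y => ?_, hM⟩
  have := hK.dist_le_mul x y
  rwa [dist_eq_norm, Real.dist_eq] at this

/-- An upper bound for sums over primes of nonnegative Lipschitz functions. -/
lemma sum_upper {g : ℝ → ℝ} {K b : ℝ} (hK : 0 ≤ K) (hb0 : 0 < b) (hb : b < 1)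
    (hg0 : ∀ u, 0 ≤ u → 0 ≤ g u) (hz : g 0 = 0)
    (hlip : ∀ u v, 0 ≤ u → 0 ≤ v → |g u - g v| ≤ K * |u - v|)
    (hgb : ∀ u, b ≤ u → g u = 0) {κ : ℝ} (hκ : 0 < κ) :
    ∃ T0 : ℝ, ∀ T, T0 ≤ T → 1 < T ∧
      ∑ p ∈ PP T, Real.log p / (p * Real.log T) * g (Real.log p / Real.log T) ≤
        (∫ u in (0:ℝ)..1, g u) + κ := by
  obtain ⟨C1, hC1, h1⟩ := Pool.Agent.ANTE.mertens_lip
  have ev : ∀ᶠ T : ℝ in atTop, 3 ≤ T ∧ b * Real.log T ≤ Real.log T - Real.log 2 ∧
      C1 * K * b / κ ≤ Real.log T := by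
    have a1 : Tendsto (fun T : ℝ => Real.log T * (1 - b)) atTop atTop :=
      Real.tendsto_log_atTop.atTop_mul_const (by linarith)
    filter_upwards [eventually_ge_atTop 3, a1.eventually_ge_atTop (Real.log 2),
      Real.tendsto_log_atTop.eventually_ge_atTop (C1 * K * b / κ)] with T t1 t2 t3
    exact ⟨t1, by linarith, t3⟩
  obtain ⟨T0, hT0⟩ := eventually_atTop.mp ev
  refine ⟨T0, fun T hT => ?_⟩
  obtain ⟨hT3, hbT, hsm⟩ := hT0 T hT
  have hT0' : 0 < T := by linarith
  refine ⟨by linarith, ?_⟩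
  set L := Real.log T with hL
  have hLpos : 0 < L := Real.log_pos (by linarith)
  set N := ⌊T⌋₊ with hN
  have hN3 : 3 ≤ N := Nat.le_floor (by exact_mod_cast hT3)
  have hNT : (N : ℝ) ≤ T := Nat.floor_le hT0'.le
  have hN0 : (0:ℝ) < N := by exact_mod_cast (by omega : 0 < N)
  have hTN : T ≤ 2 * N := by
    have := Nat.lt_floor_add_one T
    have h3 : (1:ℝ) ≤ N := by exact_mod_cast (by omega : 1 ≤ N)
    linarith
  have hlogN : Real.log T - Real.log 2 ≤ Real.log N := by
    rw [← Real.log_div hT0'.ne' (by norm_num)]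
    apply Real.log_le_log (by positivity)
    linarith
  have hBN : b * L ≤ Real.log N := hbT.trans hlogN
  set g' : ℝ → ℝ := fun u => g (max u 0) with hg'
  have hg'lip : ∀ u v, |g' u - g' v| ≤ K * |u - v| := by
    intro u v
    refine (hlip _ _ (le_max_right _ _) (le_max_right _ _)).trans ?_
    exact mul_le_mul_of_nonneg_left (abs_max_sub_max_le_abs u v 0) hK
  have hg'c : Continuous g' := by
    have : LipschitzWith ⟨K, hK⟩ g' := LipschitzWith.of_dist_le_mul fun u v => by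
      rw [Real.dist_eq, Real.dist_eq]
      exact hg'lip u v
    exact this.continuous
  have hg'nn : ∀ u, 0 ≤ g' u := fun u => hg0 _ (le_max_right _ _)
  have hg'b : ∀ u, b ≤ u → g' u = 0 := fun u hu => by
    simp only [hg']
    exact hgb _ (hu.trans (le_max_left _ _))
  have hg'n : ∀ u, u ≤ 0 → g' u = 0 := fun u hu => by
    simp only [hg']
    rw [max_eq_right hu, hz]
  set h : ℝ → ℝ := fun x => g' (x / L) / L with hh
  have e1 : ∑ p ∈ PP T, Real.log p / (p * L) * g (Real.log p / L) ≤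
      ∑ n ∈ Finset.Icc 1 N, vonMangoldt n / n * h (Real.log n) := by
    calc ∑ p ∈ PP T, Real.log p / (p * L) * g (Real.log p / L) =
        ∑ n ∈ PP T, vonMangoldt n / n * h (Real.log n) := by
          refine Finset.sum_congr rfl fun p hp => ?_
          rw [mem_PP] at hp
          have hlp : 0 ≤ Real.log p := Real.log_natCast_nonneg p
          rw [vonMangoldt_apply_prime hp.1]
          simp only [hh, hg']
          rw [max_eq_left (by positivity)]
          have hp0 : (0:ℝ) < p := by exact_mod_cast hp.1.pos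
          field_simp
      _ ≤ _ := by
          refine Finset.sum_le_sum_of_subset_of_nonneg (Finset.filter_subset _ _)
            fun n _ _ => ?_
          exact mul_nonneg (div_nonneg vonMangoldt_nonneg (Nat.cast_nonneg n))
            (div_nonneg (hg'nn _) hLpos.le)
  have e2 := h1 h (K / L ^ 2) 0 (b * L) N (by positivity) (by positivity) (by omega) hBN
    (fun u _ v _ => by
      simp only [hh]
      rw [← sub_div, abs_div, abs_of_pos hLpos, div_le_iff₀ hLpos]
      refine (hg'lip _ _).trans (le_of_eq ?_)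
      rw [← sub_div, abs_div, abs_of_pos hLpos]
      field_simp)
    (fun u hu => by
      simp only [hh]
      rw [Set.mem_Ioo, not_and_or, not_lt, not_lt] at hu
      rcases hu with hu | hu
      · rw [hg'n _ (div_nonpos_of_nonpos_of_nonneg hu hLpos.le), zero_div]
      · rw [hg'b _ (by rw [le_div_iff₀ hLpos]; exact hu), zero_div])
  have e3 : ∫ u in (0:ℝ)..(Real.log N), h u = ∫ u in (0:ℝ)..1, g u := by
    have s1 : ∫ u in (0:ℝ)..(Real.log N), h u = ∫ u in (0:ℝ)..(Real.log N / L), g' u := by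
      simp only [hh]
      rw [intervalIntegral.integral_div, intervalIntegral.integral_comp_div _ hLpos.ne',
        zero_div, smul_eq_mul]
      field_simp
    have s2 : ∀ B : ℝ, b ≤ B → ∫ u in (0:ℝ)..B, g' u = ∫ u in (0:ℝ)..b, g' u := by
      intro B hB
      rw [← intervalIntegral.integral_add_adjacent_intervals
        (hg'c.intervalIntegrable 0 b) (hg'c.intervalIntegrable b B)]
      have : ∫ u in b..B, g' u = 0 := by
        rw [intervalIntegral.integral_congr (g := fun _ => (0:ℝ))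
          (fun u hu => hg'b u (by rw [Set.uIcc_of_le hB] at hu; exact hu.1))]
        simp
      rw [this, add_zero]
    rw [s1, s2 _ (by rw [le_div_iff₀ hLpos]; exact hBN), ← s2 1 hb.le]
    refine intervalIntegral.integral_congr fun u hu => ?_
    rw [Set.uIcc_of_le zero_le_one] at hu
    simp only [hg']
    rw [max_eq_left hu.1]
  have e4 := (abs_le.mp e2).2
  rw [e3] at e4
  have e5 : C1 * (K / L ^ 2) * (b * L - 0) ≤ κ := by
    have : C1 * (K / L ^ 2) * (b * L - 0) = C1 * K * b / L := by field_simp; ring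
    rw [this, div_le_iff₀ hLpos]
    rw [div_le_iff₀ hκ] at hsm
    linarith
  linarith

/-- Bounded Lipschitz functions. -/
def BL (f : ℝ → ℝ) : Prop := ∃ K M : ℝ, 0 ≤ K ∧ 0 ≤ M ∧ (∀ x y, |f x - f y| ≤ K * |x - y|) ∧
  ∀ x, |f x| ≤ M

lemma BL.mul {f g : ℝ → ℝ} (hf : BL f) (hg : BL g) : BL (fun x => f x * g x) := by
  obtain ⟨K1, M1, h1, h2, h3, h4⟩ := hf
  obtain ⟨K2, M2, g1, g2, g3, g4⟩ := hg
  refine ⟨M1 * K2 + K1 * M2, M1 * M2, by positivity, by positivity, fun x y => ?_, fun x => ?_⟩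
  · have e : f x * g x - f y * g y = f x * (g x - g y) + (f x - f y) * g y := by ring
    rw [e]
    refine (abs_add_le _ _).trans ?_
    rw [abs_mul, abs_mul]
    have a1 := mul_le_mul (h4 x) (g3 x y) (abs_nonneg _) h2
    have a2 := mul_le_mul (h3 x y) (g4 y) (abs_nonneg _) (by positivity)
    calc |f x| * |g x - g y| + |f x - f y| * |g y| ≤ M1 * (K2 * |x - y|) + K1 * |x - y| * M2 :=
          add_le_add a1 a2
      _ = _ := by ring
  · rw [abs_mul]
    exact mul_le_mul (h4 x) (g4 x) (abs_nonneg _) h2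

lemma BL.add {f g : ℝ → ℝ} (hf : BL f) (hg : BL g) : BL (fun x => f x + g x) := by
  obtain ⟨K1, M1, h1, h2, h3, h4⟩ := hf
  obtain ⟨K2, M2, g1, g2, g3, g4⟩ := hg
  refine ⟨K1 + K2, M1 + M2, by positivity, by positivity, fun x y => ?_, fun x => ?_⟩
  · have e : f x + g x - (f y + g y) = (f x - f y) + (g x - g y) := by ring
    rw [e, add_mul]
    exact (abs_add_le _ _).trans (add_le_add (h3 x y) (g3 x y))
  · exact (abs_add_le _ _).trans (add_le_add (h4 x) (g4 x))

/-- The truncated identity. -/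
noncomputable def tid (u : ℝ) : ℝ := max 0 (min u 1)

lemma BL_tid : BL tid := by
  refine ⟨1, 1, zero_le_one, zero_le_one, fun x y => ?_, fun x => ?_⟩
  · unfold tid
    rw [one_mul]
    refine (abs_max_sub_max_le_max 0 (min x 1) 0 (min y 1)).trans ?_
    rw [sub_self, abs_zero]
    refine max_le (abs_nonneg _) ?_
    refine (abs_min_sub_min_le_max x 1 y 1).trans ?_
    rw [sub_self, abs_zero]
    exact max_le le_rfl (abs_nonneg _)
  · unfold tid
    rw [abs_of_nonneg (le_max_left _ _)]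
    exact max_le zero_le_one (min_le_right _ _)

lemma BL_norm {w : ℝ → ℂ} {K M : ℝ} (h1 : ∀ x y, ‖w x - w y‖ ≤ K * |x - y|)
    (h2 : ∀ x, ‖w x‖ ≤ M) : BL (fun x => ‖w x‖) := by
  have hM : 0 ≤ M := (norm_nonneg _).trans (h2 0)
  have hK : 0 ≤ K := by
    have := (norm_nonneg _).trans (h1 1 0)
    simpa using this
  refine ⟨K, M, hK, hM, fun x y => (abs_norm_sub_norm_le _ _).trans (h1 x y), fun x => ?_⟩
  rw [abs_of_nonneg (norm_nonneg _)]
  exact h2 x

lemma BL_re {w : ℝ → ℂ} {K M : ℝ} (h1 : ∀ x y, ‖w x - w y‖ ≤ K * |x - y|)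
    (h2 : ∀ x, ‖w x‖ ≤ M) : BL (fun x => (w x).re) := by
  have hM : 0 ≤ M := (norm_nonneg _).trans (h2 0)
  have hK : 0 ≤ K := by
    have := (norm_nonneg _).trans (h1 1 0)
    simpa using this
  refine ⟨K, M, hK, hM, fun x y => ?_, fun x => (Complex.abs_re_le_norm _).trans (h2 x)⟩
  rw [← Complex.sub_re]
  exact (Complex.abs_re_le_norm _).trans (h1 x y)

lemma BL_im {w : ℝ → ℂ} {K M : ℝ} (h1 : ∀ x y, ‖w x - w y‖ ≤ K * |x - y|)
    (h2 : ∀ x, ‖w x‖ ≤ M) : BL (fun x => (w x).im) := by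
  have hM : 0 ≤ M := (norm_nonneg _).trans (h2 0)
  have hK : 0 ≤ K := by
    have := (norm_nonneg _).trans (h1 1 0)
    simpa using this
  refine ⟨K, M, hK, hM, fun x y => ?_, fun x => (Complex.abs_im_le_norm _).trans (h2 x)⟩
  rw [← Complex.sub_im]
  exact (Complex.abs_im_le_norm _).trans (h1 x y)

/-- The amplitude is bounded and Lipschitz. -/
lemma v_bd_lip (D : CData) : ∃ K M : ℝ, (∀ x y, ‖(D.r : ℂ) * D.v x - (D.r : ℂ) * D.v y‖ ≤
    K * |x - y|) ∧ ∀ x, ‖(D.r : ℂ) * D.v x‖ ≤ M := by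
  have hsupp : HasCompactSupport (fun x => (D.r : ℂ) * D.v x) :=
    HasCompactSupport.intro (isCompact_Icc (a := D.ep) (b := (D.th + 1 / 2) / 2)) fun u hu => by
      rw [Set.mem_Icc, not_and_or, not_le, not_le] at hu
      rcases hu with hu | hu
      · rw [D.v_low u hu.le]; simp
      · rw [D.v_high u hu.le]; simp
  obtain ⟨K, M, _, _, h1, h2⟩ := bd_lip (f := fun x => (D.r : ℂ) * D.v x)
    (contDiff_const.mul D.v_smooth) hsupp
  exact ⟨K, M, h1, h2⟩

lemma norm_bG {G : ℝ → ℂ} {T : ℝ} (hT : 1 < T) (p : ℕ) :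
    ‖bG G T p‖ = Real.log p / Real.log T * ‖G (Real.log p / Real.log T)‖ / Real.sqrt p := by
  have hL : 0 < Real.log T := Real.log_pos hT
  unfold bG
  rw [norm_div, norm_mul, Complex.norm_real, Complex.norm_real, Real.norm_eq_abs, Real.norm_eq_abs,
    abs_of_nonneg (Real.sqrt_nonneg _),
    abs_of_nonneg (div_nonneg (Real.log_natCast_nonneg p) hL.le)]

end LimAux

open LimAux

theorem lim_sq {G : ℝ → ℂ} {b : ℝ} (hb : b < 1) (hG : GOK G b) {κ : ℝ} (hκ : 0 < κ) :
    ∃ T0 : ℝ, ∀ T, T0 ≤ T → ∑ p ∈ PP T, ‖bG G T p‖ ^ 2 ≤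
      (∫ u in (0:ℝ)..1, u * ‖G u‖ ^ 2) + κ := by
  obtain ⟨K, hK⟩ := hG.lip
  obtain ⟨M, hM⟩ := hG.bd
  have hn := BL_norm hK hM
  obtain ⟨K', M', k1, k2, k3, k4⟩ := (BL_tid.mul hn).mul hn
  have hb1 : max b (1 / 2) < 1 := max_lt hb (by norm_num)
  have hb0 : (0:ℝ) < max b (1 / 2) := lt_of_lt_of_le (by norm_num) (le_max_right _ _)
  have hvan : ∀ u, max b (1 / 2) ≤ u → G u = 0 := fun u hu => hG.van u ((le_max_left _ _).trans hu)
  have hgw : ∀ u, 0 ≤ u → u * ‖G u‖ ^ 2 = tid u * ‖G u‖ * ‖G u‖ := by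
    intro u hu
    rcases le_or_gt u 1 with h | h
    · unfold tid
      rw [min_eq_left h, max_eq_right hu]
      ring
    · rw [hvan u (by linarith)]
      simp
  obtain ⟨T0, hT0⟩ := sum_upper (g := fun u : ℝ => u * ‖G u‖ ^ 2) k1 hb0 hb1
    (fun u hu => by positivity) (by simp) (fun u v hu hv => by
      rw [hgw u hu, hgw v hv]
      exact k3 u v)
    (fun u hu => by
      rw [hvan u hu]; simp) hκ
  refine ⟨T0, fun T hT => ?_⟩
  obtain ⟨hT1, h3⟩ := hT0 T hT
  refine le_trans (le_of_eq (Finset.sum_congr rfl fun p hp => ?_)) h3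
  have hL : 0 < Real.log T := Real.log_pos hT1
  have hp0 : (0:ℝ) < p := by
    have := (mem_PP.mp hp).1.pos
    exact_mod_cast this
  rw [norm_bG hT1, div_pow, Real.sq_sqrt hp0.le]
  field_simp

theorem lim_mix (D : CData) {G : ℝ → ℂ} {b : ℝ} (hb : b < 1) (hG : GOK G b) {κ : ℝ}
    (hκ : 0 < κ) :
    ∃ T0 : ℝ, ∀ T, T0 ≤ T → ∑ p ∈ PP T, ‖bG G T p‖ * ‖cc D T p‖ * (Real.log p / Real.log T) ≤
      (∫ u in (0:ℝ)..1, u * ‖G u‖ * ‖(D.r : ℂ) * D.v u‖) + κ := by
  obtain ⟨K, hK⟩ := hG.lip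
  obtain ⟨M, hM⟩ := hG.bd
  obtain ⟨K1, M1, hK1, hM1⟩ := v_bd_lip D
  obtain ⟨K', M', k1, k2, k3, k4⟩ := (BL_tid.mul (BL_norm hK hM)).mul (BL_norm hK1 hM1)
  have hb1 : max b (1 / 2) < 1 := max_lt hb (by norm_num)
  have hb0 : (0:ℝ) < max b (1 / 2) := lt_of_lt_of_le (by norm_num) (le_max_right _ _)
  have hvan : ∀ u, max b (1 / 2) ≤ u → G u = 0 := fun u hu => hG.van u ((le_max_left _ _).trans hu)
  have hgw : ∀ u, 0 ≤ u → u * ‖G u‖ * ‖(D.r : ℂ) * D.v u‖ =
      tid u * ‖G u‖ * ‖(D.r : ℂ) * D.v u‖ := by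
    intro u hu
    rcases le_or_gt u 1 with h | h
    · unfold tid
      rw [min_eq_left h, max_eq_right hu]
    · rw [hvan u (by linarith)]
      simp
  obtain ⟨T0, hT0⟩ := sum_upper (g := fun u : ℝ => u * ‖G u‖ * ‖(D.r : ℂ) * D.v u‖) k1 hb0 hb1
    (fun u hu => by positivity) (by simp) (fun u v hu hv => by
      rw [hgw u hu, hgw v hv]
      exact k3 u v)
    (fun u hu => by
      rw [hvan u hu]; simp) hκ
  have hu2 : ∀ T : ℝ, 1 < T → ∀ p ∈ PP T, Real.log p / Real.log T ≤ 1 := by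
    intro T hT p hp
    have hL : 0 < Real.log T := Real.log_pos hT
    have hp' := mem_PP.mp hp
    have hp0 : (0:ℝ) < p := by exact_mod_cast hp'.1.pos
    rw [div_le_one hL]
    apply Real.log_le_log hp0
    have h5 : p ≤ ⌊T⌋₊ := by
      rw [PP, Finset.mem_filter, Finset.mem_Icc] at hp
      exact hp.1.2
    calc (p : ℝ) ≤ ⌊T⌋₊ := by exact_mod_cast h5
      _ ≤ T := Nat.floor_le (by linarith)
  refine ⟨T0, fun T hT => ?_⟩
  obtain ⟨hT1, h3⟩ := hT0 T hT
  refine le_trans (Finset.sum_le_sum fun p hp => ?_) h3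
  have hL : 0 < Real.log T := Real.log_pos hT1
  have hp0 : (0:ℝ) < p := by
    have := (mem_PP.mp hp).1.pos
    exact_mod_cast this
  have hlp : 0 ≤ Real.log p := Real.log_natCast_nonneg p
  have hsq : Real.sqrt p * Real.sqrt p = p := Real.mul_self_sqrt hp0.le
  have hsq0 : 0 < Real.sqrt p := Real.sqrt_pos.mpr hp0
  have hu1 := hu2 T hT1 p hp
  rw [norm_bG hT1, norm_cc, norm_mul, Complex.norm_real, Real.norm_eq_abs]
  set u := Real.log p / Real.log T with hu
  have hu0 : 0 ≤ u := div_nonneg hlp hL.le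
  have hpL : Real.log p / (p * Real.log T) = u / p := by
    rw [hu]; field_simp
  rw [hpL]
  have hn1 := norm_nonneg (G u)
  have hn2 : 0 ≤ |D.r| * ‖D.v u‖ := by positivity
  calc u * ‖G u‖ / Real.sqrt p * (|D.r| * ‖D.v u‖ / Real.sqrt p) * u =
      u / (Real.sqrt p * Real.sqrt p) * (u * ‖G u‖ * (|D.r| * ‖D.v u‖)) := by
        field_simp
    _ = u / p * (u * ‖G u‖ * (|D.r| * ‖D.v u‖)) := by rw [hsq]
    _ ≤ _ := le_rfl

theorem lim_mu (D : CData) {G : ℝ → ℂ} {b : ℝ} (hb : b < 1) (hG : GOK G b) {κ : ℝ} (hκ : 0 < κ) :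
    ∃ T0 : ℝ, ∀ T, T0 ≤ T → |Var.muB (PP T) (bG G T) (cc D T) - mG D G| ≤ κ := by
  obtain ⟨K0, hK0⟩ := hG.lip
  obtain ⟨M0, hM0⟩ := hG.bd
  obtain ⟨K1, M1, hK1, hM1⟩ := v_bd_lip D
  have hep := D.ep_pos
  set h : ℝ → ℝ := fun u => (G u * (starRingEnd ℂ) ((D.r : ℂ) * D.v u)).re with hh
  have hhi : (D.th + 1 / 2) / 2 < 1 := by linarith [D.th_lt]
  have hBL : BL h := by
    have e : h = fun u => (G u).re * ((D.r : ℂ) * D.v u).re + (G u).im * ((D.r : ℂ) * D.v u).im := by
      funext u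
      simp only [hh]
      rw [Complex.mul_re, Complex.conj_re, Complex.conj_im]
      ring
    rw [e]
    exact ((BL_re hK0 hM0).mul (BL_re hK1 hM1)).add ((BL_im hK0 hM0).mul (BL_im hK1 hM1))
  obtain ⟨K, M, hK, hM, h1, h2⟩ := hBL
  obtain ⟨C, hC, T1, hT1, h3⟩ := prime_sum (e := D.ep) (b := (D.th + 1 / 2) / 2) hep
    (by linarith [D.ep_th, D.th_lt]) hhi
  have ev : ∀ᶠ T : ℝ in atTop, T1 ≤ T ∧ Real.exp 3 ≤ T ∧ C * (K + M) / (κ / 4) ≤ Real.log T ∧
      (12 * M * D.r ^ 2) * T ^ (-D.ep) ≤ κ / 2 := by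
    have a2 : Tendsto (fun T : ℝ => (12 * M * D.r ^ 2) * T ^ (-D.ep)) atTop (𝓝 0) := by
      have := (tendsto_rpow_neg_atTop hep).const_mul (12 * M * D.r ^ 2)
      rwa [mul_zero] at this
    filter_upwards [eventually_ge_atTop T1, eventually_ge_atTop (Real.exp 3),
      Real.tendsto_log_atTop.eventually_ge_atTop (C * (K + M) / (κ / 4)),
      a2.eventually (ge_mem_nhds (by positivity : 0 < κ / 2))] with T t1 t2 t3 t4
    exact ⟨t1, t2, t3, t4⟩
  obtain ⟨T0, hT0⟩ := eventually_atTop.mp ev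
  refine ⟨T0, fun T hT => ?_⟩
  obtain ⟨t1, t2, t3, t4⟩ := hT0 T hT
  have h1T : 1 < T := lt_of_lt_of_le (Real.one_lt_exp_iff.mpr (by norm_num)) t2
  have hTp : 0 < T := by linarith
  have hL : 0 < Real.log T := Real.log_pos h1T
  have g1 := h3 T t1 h K M hK hM (fun x hx => by
    simp only [hh]
    rw [Set.mem_Ioo, not_and_or, not_lt, not_lt] at hx
    rcases hx with hx | hx
    · rw [D.v_low x hx]; simp
    · rw [D.v_high x hx]; simp) h1 h2
  set W : ℝ := ∑ p ∈ PP T, Real.log p / (p * Real.log T) * h (Real.log p / Real.log T) with hW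
  -- the terms
  have hx : ∀ p ∈ PP T, (bG G T p * (starRingEnd ℂ) (cc D T p)).re =
      Real.log p / (p * Real.log T) * h (Real.log p / Real.log T) := by
    intro p hp
    have hp0 : (0:ℝ) < p := by
      have := (mem_PP.mp hp).1.pos
      exact_mod_cast this
    set u := Real.log p / Real.log T with hu
    have hsq : Real.sqrt p * Real.sqrt p = p := Real.mul_self_sqrt hp0.le
    have hsq0 : 0 < Real.sqrt p := Real.sqrt_pos.mpr hp0
    have e1 : (bG G T p * (starRingEnd ℂ) (cc D T p)) =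
        ((Real.log p / (p * Real.log T) : ℝ) : ℂ) *
          (G u * (starRingEnd ℂ) ((D.r : ℂ) * D.v u)) := by
      unfold bG cc
      rw [← hu, map_div₀, map_mul, Complex.conj_ofReal, Complex.conj_ofReal]
      have hne : ((Real.sqrt p : ℝ) : ℂ) ≠ 0 := by exact_mod_cast hsq0.ne'
      have e2 : ((Real.log p / (p * Real.log T) : ℝ) : ℂ) =
          (u : ℂ) / (((Real.sqrt p : ℝ) : ℂ) * ((Real.sqrt p : ℝ) : ℂ)) := by
        rw [← Complex.ofReal_mul, ← Complex.ofReal_div]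
        congr 1
        rw [hsq, hu]
        field_simp
      rw [e2]
      field_simp
    rw [e1, Complex.re_ofReal_mul]
  have hcsq : ∀ p ∈ PP T, D.v (Real.log p / Real.log T) ≠ 0 →
      ‖cc D T p‖ ^ 2 ≤ D.r ^ 2 * T ^ (-D.ep) := by
    intro p hp hv
    have hp0 : (0:ℝ) < p := by
      have := (mem_PP.mp hp).1.pos
      exact_mod_cast this
    have h4 : D.ep < Real.log p / Real.log T := by
      by_contra hcon
      exact hv (D.v_low _ (not_lt.mp hcon))
    have h5 : 1 / (p : ℝ) ≤ T ^ (-D.ep) := by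
      rw [lt_div_iff₀ hL] at h4
      rw [Real.rpow_neg hTp.le, ← one_div]
      apply one_div_le_one_div_of_le (Real.rpow_pos_of_pos hTp _)
      rw [Real.rpow_def_of_pos hTp, ← Real.le_log_iff_exp_le hp0]
      linarith
    rw [norm_cc, div_pow, mul_pow, Real.sq_sqrt hp0.le, sq_abs]
    have h6 : ‖D.v (Real.log p / Real.log T)‖ ^ 2 ≤ 1 := by
      have := D.v_le (Real.log p / Real.log T)
      have := norm_nonneg (D.v (Real.log p / Real.log T))
      nlinarith
    calc D.r ^ 2 * ‖D.v (Real.log p / Real.log T)‖ ^ 2 / p ≤ D.r ^ 2 * 1 / p := by gcongr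
      _ = D.r ^ 2 * (1 / p) := by ring
      _ ≤ _ := by gcongr
  have hmain : |Var.muB (PP T) (bG G T) (cc D T) - 2 * W| ≤ κ / 2 := by
    have e1 : Var.muB (PP T) (bG G T) (cc D T) - 2 * W = ∑ p ∈ PP T,
        (2 * (bG G T p * (starRingEnd ℂ) (cc D T p)).re / (1 + 2 * ‖cc D T p‖ ^ 2) -
          2 * (bG G T p * (starRingEnd ℂ) (cc D T p)).re) := by
      unfold Var.muB
      rw [Finset.sum_sub_distrib]
      congr 1
      rw [hW, Finset.mul_sum]
      exact Finset.sum_congr rfl fun p hp => by rw [hx p hp]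
    rw [e1]
    refine (Finset.abs_sum_le_sum_abs _ _).trans ?_
    have e2 : ∀ p ∈ PP T,
        |2 * (bG G T p * (starRingEnd ℂ) (cc D T p)).re / (1 + 2 * ‖cc D T p‖ ^ 2) -
          2 * (bG G T p * (starRingEnd ℂ) (cc D T p)).re| ≤
        (4 * M * D.r ^ 2 * T ^ (-D.ep)) * wt T p := by
      intro p hp
      have hp0 : (0:ℝ) < p := by
        have := (mem_PP.mp hp).1.pos
        exact_mod_cast this
      have hlp : 0 ≤ Real.log p := Real.log_natCast_nonneg p
      have hpow := Real.rpow_pos_of_pos hTp (-D.ep)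
      rw [hx p hp]
      by_cases hv : D.v (Real.log p / Real.log T) = 0
      · have : h (Real.log p / Real.log T) = 0 := by
          simp only [hh]; rw [hv]; simp
        rw [this]
        simp only [mul_zero, zero_div, sub_zero, abs_zero]
        have := wt_nonneg h1T p
        positivity
      · have hc := hcsq p hp hv
        set c := ‖cc D T p‖ ^ 2 with hcd
        have hc0 : 0 ≤ c := sq_nonneg _
        have hb' := h2 (Real.log p / Real.log T)
        set x := h (Real.log p / Real.log T) with hxd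
        have hx0 : 0 ≤ |x| := abs_nonneg x
        have hw0 : 0 ≤ Real.log p / (p * Real.log T) := by positivity
        have e3 : 2 * (Real.log p / (p * Real.log T) * x) / (1 + 2 * c) -
            2 * (Real.log p / (p * Real.log T) * x) =
            -(4 * (Real.log p / (p * Real.log T)) * x * (c / (1 + 2 * c))) := by
          field_simp
          ring
        rw [e3, abs_neg, abs_mul, abs_mul, abs_mul, abs_of_nonneg (by norm_num : (0:ℝ) ≤ 4),
          abs_of_nonneg hw0, abs_of_nonneg (by positivity : 0 ≤ c / (1 + 2 * c))]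
        have e4 : c / (1 + 2 * c) ≤ D.r ^ 2 * T ^ (-D.ep) :=
          (div_le_self hc0 (by linarith)).trans hc
        calc 4 * (Real.log p / (p * Real.log T)) * |x| * (c / (1 + 2 * c)) ≤
            4 * (Real.log p / (p * Real.log T)) * M * (D.r ^ 2 * T ^ (-D.ep)) := by
              gcongr
          _ = _ := by unfold wt; ring
    refine (Finset.sum_le_sum e2).trans ?_
    rw [← Finset.mul_sum]
    have e6 := sum_wt_le t2
    have hpow := Real.rpow_pos_of_pos hTp (-D.ep)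
    have e7 : 0 ≤ 4 * M * D.r ^ 2 * T ^ (-D.ep) := by positivity
    calc _ ≤ 4 * M * D.r ^ 2 * T ^ (-D.ep) * 3 := by gcongr
      _ = 12 * M * D.r ^ 2 * T ^ (-D.ep) := by ring
      _ ≤ κ / 2 := t4
  have htilt : |2 * W - mG D G| ≤ κ / 2 := by
    have e1 : 2 * W - mG D G = 2 * (W - ∫ u in (0:ℝ)..1, h u) := by
      unfold mG
      simp only [hh]
      ring
    rw [e1, abs_mul, abs_of_nonneg (by norm_num : (0:ℝ) ≤ 2)]
    have e3 : C * (K + M) / Real.log T ≤ κ / 4 := by
      rw [div_le_iff₀ (by positivity)] at t3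
      rw [div_le_iff₀ hL]
      linarith
    linarith [g1.trans e3]
  calc |Var.muB (PP T) (bG G T) (cc D T) - mG D G| =
      |(Var.muB (PP T) (bG G T) (cc D T) - 2 * W) + (2 * W - mG D G)| := by
        congr 1; ring
    _ ≤ κ / 2 + κ / 2 := (abs_add_le _ _).trans (add_le_add hmain htilt)
    _ = κ := by ring

end Pool.Agent.PF
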