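import Pool.Agent.PF.Base78
import Pool.Agent.ZShort.VoidPos
import Pool.Agent.RG.FewCrowd

/-!
# Complex amplitude: a set of large weight in every window has positive density in every interval
-/

open scoped ContDiff

namespace Pool.Agent.PF

open MeasureTheory Real Set Pool.Agent.ZGap.Res Pool.Agent.TypBlk Pool.Agent.ZShort

/-- The resonated window weight. -/
noncomputable def VL (D : CData) (K T t0 t : ℝ) : ℝ := ww K T t0 t * ‖Amp D T t‖ ^ 2

lemma VL_continuous (D : CData) (K T t0 : ℝ) : Continuous (VL D K T t0) := by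
  have h1 := WinAux.ww_continuous K T t0
  have h2 := Amp_continuous D T
  unfold VL
  fun_prop

lemma VL_nonneg (D : CData) {K T : ℝ} (hK : 0 < K) (hT : 1 < T) (t0 t : ℝ) :
    0 ≤ VL D K T t0 t := mul_nonneg (WinAux.ww_nonneg hK hT t0 t) (by positivity)

lemma VL_integrable (D : CData) (hF : ∀ x, 0 ≤ x → D.F x ≤ 1) {K₁ T : ℝ} (hK : 0 < K₁)
    (hT : Real.exp 2 ≤ T) (t0 : ℝ) : Integrable (VL D K₁ T t0) := by
  have h1T : 1 < T := lt_of_lt_of_le (Real.one_lt_exp_iff.mpr (by norm_num)) hT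
  have h1 := WinAux.ww_integrable hK h1T t0
  have hTp : 0 < T := by linarith
  refine (h1.mul_const ((T * K.E1 D) ^ 2)).mono' (VL_continuous D K₁ T t0).aestronglyMeasurable
    (Filter.Eventually.of_forall fun t => ?_)
  rw [Real.norm_of_nonneg (VL_nonneg D hK h1T t0 t)]
  unfold VL
  have h2 := WinAux.ww_nonneg hK h1T t0 t
  have h3 : ‖Amp D T t‖ ^ 2 ≤ (T * K.E1 D) ^ 2 :=
    pow_le_pow_left₀ (norm_nonneg _) (K.norm_Amp_le hT hF t) 2
  exact mul_le_mul_of_nonneg_left h3 h2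

/-- The tail of the resonated window weight is tiny, for every centre. -/
theorem exists_tail (D : CData) (hF : ∀ x, 0 ≤ x → D.F x ≤ 1) {α a : ℝ} (hα : 0 < α)
    (hαa : α < a) (ha : a ≤ 1) :
    ∃ T0 : ℝ, Real.exp 3 ≤ T0 ∧ ∀ T : ℝ, T0 ≤ T → ∀ t0 : ℝ,
      ∫ t in {t : ℝ | T ^ a / 4 < |t - t0|}, VL D (T ^ α * Real.log T) T t0 t ≤ 1 / T := by
  have haα : 0 < a - α := by linarith
  have ha0 : 0 < a := by linarith
  obtain ⟨n, hn⟩ := exists_nat_gt (10 / (a - α))
  have hn10 : 10 ≤ (a - α) * n := by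
    rw [div_lt_iff₀ haα] at hn
    linarith
  obtain ⟨C, hC, hdec⟩ := WW_decay (n + 4)
  have hE1 := K.E1_pos (D := D)
  obtain ⟨C1, hC1⟩ : ∃ C1 : ℝ, C1 = C * 4 ^ n * K.E1 D ^ 2 := ⟨_, rfl⟩
  have hC1p : 0 < C1 := by rw [hC1]; positivity
  refine ⟨max (Real.exp 3) (max ((4 : ℝ) ^ (1 / a)) (2 * C1 * Real.pi)), le_max_left _ _,
    fun T hT t0 => ?_⟩
  have hTe : Real.exp 3 ≤ T := (le_max_left _ _).trans hT
  have hTe2 : Real.exp 2 ≤ T := (Real.exp_le_exp.mpr (by norm_num)).trans hTe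
  have hT4 : (4 : ℝ) ^ (1 / a) ≤ T := (le_max_left _ _).trans ((le_max_right _ _).trans hT)
  have hTC : 2 * C1 * Real.pi ≤ T := (le_max_right _ _).trans ((le_max_right _ _).trans hT)
  have h1T : 1 < T := lt_of_lt_of_le (Real.one_lt_exp_iff.mpr (by norm_num)) hTe
  have hTp : 0 < T := by linarith
  have hL3 : 3 ≤ Real.log T := by rw [Real.le_log_iff_exp_le hTp]; exact hTe
  have hL : 0 < Real.log T := by linarith
  have hTα : 1 ≤ T ^ α := Real.one_le_rpow h1T.le hα.le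
  have hTαp : 0 < T ^ α := by linarith
  have hTαT : T ^ α ≤ T := by
    calc T ^ α ≤ T ^ (1 : ℝ) := Real.rpow_le_rpow_of_exponent_le h1T.le (by linarith)
      _ = T := Real.rpow_one T
  have hTa : 4 ≤ T ^ a := by
    calc (4 : ℝ) = ((4 : ℝ) ^ (1 / a)) ^ a := by
          rw [← Real.rpow_mul (by norm_num), one_div, inv_mul_cancel₀ ha0.ne', Real.rpow_one]
      _ ≤ T ^ a := Real.rpow_le_rpow (by positivity) hT4 ha0.le
  have hK0 : 0 < T ^ α * Real.log T := by positivity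
  have hdiv : Real.log T / (T ^ α * Real.log T) = (T ^ α)⁻¹ := by
    field_simp
  have hww0 : ∀ t, 0 ≤ ww (T ^ α * Real.log T) T t0 t := fun t => WinAux.ww_nonneg hK0 h1T t0 t
  have hAE : ∀ t, ‖Amp D T t‖ ^ 2 ≤ T ^ 2 * K.E1 D ^ 2 := by
    intro t
    rw [← mul_pow]
    exact pow_le_pow_left₀ (norm_nonneg _) (K.norm_Amp_le hTe2 hF t) 2
  have hpow : T ^ 10 ≤ 4 ^ n * (T ^ a / 4 * (T ^ α)⁻¹) ^ n := by
    have e1 : T ^ a / 4 * (T ^ α)⁻¹ = T ^ (a - α) / 4 := by
      rw [Real.rpow_sub hTp]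
      field_simp
    rw [e1, div_pow, mul_div_cancel₀ _ (by positivity), ← Real.rpow_natCast (T ^ (a - α)) n,
      ← Real.rpow_mul hTp.le, ← Real.rpow_natCast T 10]
    exact Real.rpow_le_rpow_of_exponent_le h1T.le (by push_cast; exact hn10)
  have hbound : ∀ t, T ^ a / 4 < |t - t0| →
      VL D (T ^ α * Real.log T) T t0 t ≤ 2 * C1 * (T ^ 2)⁻¹ * (1 + (t - t0) ^ 2)⁻¹ := by
    intro t ht
    obtain ⟨x, hx⟩ : ∃ x, x = |t - t0| := ⟨_, rfl⟩
    rw [← hx] at ht
    have hx1 : 1 ≤ x := by linarith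
    have hx0 : 0 < x := by linarith
    have hxsq : (t - t0) ^ 2 = x ^ 2 := by rw [hx, sq_abs]
    have hW0 := WW_nonneg ((t - t0) * (T ^ α)⁻¹)
    -- the decay
    have h1 := hdec ((t - t0) * (T ^ α)⁻¹)
    rw [abs_mul, abs_of_pos (inv_pos.2 hTαp), ← hx, pow_add] at h1
    have h2 : (T ^ a / 4 * (T ^ α)⁻¹) ^ n ≤ (x * (T ^ α)⁻¹) ^ n :=
      pow_le_pow_left₀ (by positivity) (mul_le_mul_of_nonneg_right ht.le (by positivity)) n
    have h3 : (x * T⁻¹) ^ 4 ≤ (x * (T ^ α)⁻¹) ^ 4 :=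
      pow_le_pow_left₀ (by positivity) (mul_le_mul_of_nonneg_left
        (inv_anti₀ hTαp hTαT) hx0.le) 4
    have h4 : T ^ 6 * x ^ 4 * WW ((t - t0) * (T ^ α)⁻¹) ≤ 4 ^ n * C := by
      calc T ^ 6 * x ^ 4 * WW ((t - t0) * (T ^ α)⁻¹)
          = T ^ 10 * (x * T⁻¹) ^ 4 * WW ((t - t0) * (T ^ α)⁻¹) := by
            field_simp
        _ ≤ (4 ^ n * (x * (T ^ α)⁻¹) ^ n) * (x * (T ^ α)⁻¹) ^ 4 *
              WW ((t - t0) * (T ^ α)⁻¹) := by
            refine mul_le_mul_of_nonneg_right ?_ hW0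
            refine mul_le_mul (hpow.trans (mul_le_mul_of_nonneg_left h2 (by positivity))) h3
              (by positivity) (by positivity)
        _ = 4 ^ n * ((x * (T ^ α)⁻¹) ^ n * (x * (T ^ α)⁻¹) ^ 4 *
              WW ((t - t0) * (T ^ α)⁻¹)) := by ring
        _ ≤ 4 ^ n * C := mul_le_mul_of_nonneg_left h1 (by positivity)
    have h11 : ww (T ^ α * Real.log T) T t0 t ≤ 4 ^ n * C / (T ^ 6 * x ^ 4) := by
      unfold ww
      rw [hdiv, le_div_iff₀ (by positivity)]
      calc (T ^ α)⁻¹ * WW ((t - t0) * (T ^ α)⁻¹) * (T ^ 6 * x ^ 4)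
          = (T ^ α)⁻¹ * (T ^ 6 * x ^ 4 * WW ((t - t0) * (T ^ α)⁻¹)) := by ring
        _ ≤ 1 * (T ^ 6 * x ^ 4 * WW ((t - t0) * (T ^ α)⁻¹)) :=
            mul_le_mul_of_nonneg_right (inv_le_one_of_one_le₀ hTα) (by positivity)
        _ ≤ 4 ^ n * C := by rw [one_mul]; exact h4
    have h12 : VL D (T ^ α * Real.log T) T t0 t ≤
        4 ^ n * C / (T ^ 6 * x ^ 4) * (T ^ 2 * K.E1 D ^ 2) := by
      unfold VL
      exact mul_le_mul h11 (hAE t) (by positivity) (by positivity)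
    refine h12.trans ?_
    have h13 : 4 ^ n * C / (T ^ 6 * x ^ 4) * (T ^ 2 * K.E1 D ^ 2) =
        C1 * (T ^ 2)⁻¹ * ((x ^ 2)⁻¹ * ((T ^ 2)⁻¹ * (x ^ 2)⁻¹)) := by
      rw [hC1]
      field_simp
    have h15 : (T ^ 2)⁻¹ * (x ^ 2)⁻¹ ≤ 1 := by
      have e1 : 1 ≤ T ^ 2 := one_le_pow₀ h1T.le
      have e2 : 1 ≤ x ^ 2 := one_le_pow₀ hx1
      calc (T ^ 2)⁻¹ * (x ^ 2)⁻¹ ≤ 1 * 1 :=
            mul_le_mul (inv_le_one_of_one_le₀ e1) (inv_le_one_of_one_le₀ e2) (by positivity)
              (by norm_num)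
        _ = 1 := one_mul 1
    rw [h13, hxsq]
    have h14 : (x ^ 2)⁻¹ ≤ 2 * (1 + x ^ 2)⁻¹ := by
      rw [← div_eq_mul_inv, inv_eq_one_div, div_le_div_iff₀ (by positivity) (by positivity)]
      have : 1 ≤ x ^ 2 := one_le_pow₀ hx1
      linarith
    calc C1 * (T ^ 2)⁻¹ * ((x ^ 2)⁻¹ * ((T ^ 2)⁻¹ * (x ^ 2)⁻¹))
        ≤ C1 * (T ^ 2)⁻¹ * ((2 * (1 + x ^ 2)⁻¹) * 1) := by gcongr
      _ = _ := by ring
  have hSm : MeasurableSet {t : ℝ | T ^ a / 4 < |t - t0|} :=
    measurableSet_lt measurable_const (by fun_prop)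
  have hgi : Integrable (fun t : ℝ => 2 * C1 * (T ^ 2)⁻¹ * (1 + (t - t0) ^ 2)⁻¹) :=
    (integrable_inv_one_add_sq.comp_sub_right t0).const_mul _
  calc ∫ t in {t : ℝ | T ^ a / 4 < |t - t0|}, VL D (T ^ α * Real.log T) T t0 t
      ≤ ∫ t in {t : ℝ | T ^ a / 4 < |t - t0|}, 2 * C1 * (T ^ 2)⁻¹ * (1 + (t - t0) ^ 2)⁻¹ := by
        refine integral_mono_of_nonneg (Filter.Eventually.of_forall fun t =>
          VL_nonneg D hK0 h1T t0 t) hgi.integrableOn ?_
        exact ae_restrict_of_forall_mem hSm fun t ht => hbound t ht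
    _ ≤ ∫ t : ℝ, 2 * C1 * (T ^ 2)⁻¹ * (1 + (t - t0) ^ 2)⁻¹ :=
        setIntegral_le_integral hgi (Filter.Eventually.of_forall fun t => by positivity)
    _ = 2 * C1 * (T ^ 2)⁻¹ * Real.pi := by
        rw [integral_const_mul, integral_sub_right_eq_self (fun t : ℝ => (1 + t ^ 2)⁻¹) t0,
          integral_univ_inv_one_add_sq]
    _ ≤ 1 / T := by
        rw [le_div_iff₀ hTp]
        calc 2 * C1 * (T ^ 2)⁻¹ * Real.pi * T = (2 * C1 * Real.pi) * T⁻¹ := by
              field_simp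
          _ ≤ T * T⁻¹ := mul_le_mul_of_nonneg_right hTC (by positivity)
          _ = 1 := mul_inv_cancel₀ hTp.ne'

/-- The Cauchy-Schwarz step with the fourth moment. -/
lemma cs_step {D : CData} {T y H B μ : ℝ} (hH : 0 ≤ H) (hμ : 0 < μ) {E : Set ℝ}
    (hEI : E ⊆ Icc y (y + H))
    (hf : ∫ t in y..(y + H), ‖Amp D T t‖ ^ 4 ≤ B) :
    ∫ t in E, ‖Amp D T t‖ ^ 2 ≤ μ / 2 * B + 1 / (2 * μ) * volume.real E := by
  have hAc := Amp_continuous D T
  have hEfin : volume E ≠ ⊤ := by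
    refine ne_top_of_le_ne_top ?_ (measure_mono hEI)
    rw [Real.volume_Icc]; exact ENNReal.ofReal_ne_top
  rw [intervalIntegral.integral_of_le (by linarith), ← integral_Icc_eq_integral_Ioc] at hf
  have hi4 : IntegrableOn (fun t => ‖Amp D T t‖ ^ 4) (Icc y (y + H)) :=
    (by fun_prop : Continuous fun t => ‖Amp D T t‖ ^ 4).integrableOn_Icc
  have hi2 : IntegrableOn (fun t => ‖Amp D T t‖ ^ 2) E :=
    (by fun_prop : Continuous fun t => ‖Amp D T t‖ ^ 2).integrableOn_Icc.mono_set hEI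
  have hi4E := hi4.mono_set hEI
  have hic : IntegrableOn (fun _ : ℝ => 1 / (2 * μ)) E := integrableOn_const hEfin
  calc ∫ t in E, ‖Amp D T t‖ ^ 2 ≤ ∫ t in E, (μ / 2 * ‖Amp D T t‖ ^ 4 + 1 / (2 * μ)) := by
        refine integral_mono hi2 ((hi4E.const_mul _).add hic) fun t => ?_
        have h3 : 0 ≤ (μ * ‖Amp D T t‖ ^ 2 - 1) ^ 2 / (2 * μ) := by positivity
        have h4 : (μ * ‖Amp D T t‖ ^ 2 - 1) ^ 2 / (2 * μ) =
            μ / 2 * ‖Amp D T t‖ ^ 4 + 1 / (2 * μ) - ‖Amp D T t‖ ^ 2 := by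
          field_simp
          ring
        simp only
        linarith
    _ = μ / 2 * (∫ t in E, ‖Amp D T t‖ ^ 4) + 1 / (2 * μ) * volume.real E := by
        rw [integral_add (hi4E.const_mul _) hic, integral_const_mul, setIntegral_const,
          smul_eq_mul, mul_comm (volume.real E)]
    _ ≤ μ / 2 * (∫ t in Icc y (y + H), ‖Amp D T t‖ ^ 4) + 1 / (2 * μ) * volume.real E := by
        have h5 : ∫ t in E, ‖Amp D T t‖ ^ 4 ≤ ∫ t in Icc y (y + H), ‖Amp D T t‖ ^ 4 :=
          setIntegral_mono_set hi4 (Filter.Eventually.of_forall fun t => by positivity)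
            (Filter.Eventually.of_forall hEI)
        have h6 := mul_le_mul_of_nonneg_left h5 (show 0 ≤ μ / 2 by positivity)
        linarith
    _ ≤ _ := by
        have h6 := mul_le_mul_of_nonneg_left hf (show 0 ≤ μ / 2 by positivity)
        linarith

/-- **From the weight to the density**: a set with a quarter of the weight of every window of
length `T ^ α'` has positive density in every interval of length `T ^ α`. -/
theorem pos_of_weight (hRH : RiemannHypothesis) (D : CData) (hF : ∀ x, 0 ≤ x → D.F x ≤ 1)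
    (hF0 : 0 < D.F 0) {α' α : ℝ} (h0 : 0 < α') (hα : α' < α) (hα1 : α < 1) :
    ∃ c0 T0 : ℝ, 0 < c0 ∧ ∀ T : ℝ, T0 ≤ T → ∀ G : Set ℝ, MeasurableSet G →
      (∀ t0 ∈ Icc T (2 * T), Sig D T / 4 ≤ ∫ t in G, VL D (T ^ α' * Real.log T) T t0 t) →
      ∀ y H : ℝ, T ≤ y → y + H ≤ 2 * T → T ^ α ≤ H → c0 * H ≤ volume.real (G ∩ Icc y (y + H)) := by
  have hα0 : 0 < α := by linarith
  -- the exponents
  set a : ℝ := (α' + α) / 2 with ha
  have e2 : α' < a := by rw [ha]; linarith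
  have e3 : a < α := by rw [ha]; linarith
  set b : ℕ := ⌈1 / α⌉₊ with hb
  have hbα : 1 / α ≤ (b : ℝ) := Nat.le_ceil _
  have hb0 : (0 : ℝ) < b := lt_of_lt_of_le (by positivity) hbα
  have hb1 : 1 ≤ b := Nat.succ_le_of_lt (by exact_mod_cast hb0)
  have hbinv : 1 / (b : ℝ) ≤ α := by
    rw [div_le_iff₀ hb0]
    rw [div_le_iff₀ hα0] at hbα
    linarith
  obtain ⟨Tc, hTc3, htail⟩ := exists_tail D hF h0 e2 (by linarith)
  obtain ⟨K1, Tf, hK1, hTf2, hfour⟩ := fourth_moment_short hRH hb1 D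
  set s0 : ℝ := D.F 0 ^ 4 with hs0
  have hs0p : 0 < s0 := by positivity
  set m1 : ℝ := s0 / 8 with hm1
  have hm1p : 0 < m1 := by positivity
  set μ : ℝ := m1 / (4 * K1) with hμ
  have hμ0 : 0 < μ := by positivity
  refine ⟨m1 * μ / 4, max Tc (max Tf (8 / s0)), by positivity, fun T hT G hG hw y H hy hyH hH => ?_⟩
  have hTc : Tc ≤ T := (le_max_left _ _).trans hT
  have hTf : Tf ≤ T := (le_max_left _ _).trans ((le_max_right _ _).trans hT)
  have hT8 : 8 / s0 ≤ T := (le_max_right _ _).trans ((le_max_right _ _).trans hT)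
  have hTe : Real.exp 3 ≤ T := hTc3.trans hTc
  have hTe2 : Real.exp 2 ≤ T := (Real.exp_le_exp.mpr (by norm_num)).trans hTe
  have h1T : 1 < T := lt_of_lt_of_le (Real.one_lt_exp_iff.mpr (by norm_num)) hTe
  have hTp : 0 < T := by linarith
  have hL3 : 3 ≤ Real.log T := by rw [Real.le_log_iff_exp_le hTp]; exact hTe
  have hL : 0 < Real.log T := by linarith
  have hHp : 0 < H := (Real.rpow_pos_of_pos hTp _).trans_le hH
  have haH : T ^ a ≤ H := (Real.rpow_le_rpow_of_exponent_le h1T.le e3.le).trans hH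
  have haT : 0 < T ^ a := Real.rpow_pos_of_pos hTp _
  have hK0 : 0 < T ^ α' * Real.log T := mul_pos (Real.rpow_pos_of_pos hTp _) hL
  -- the set
  set E : Set ℝ := G ∩ Icc y (y + H) with hE
  have hEI : E ⊆ Icc y (y + H) := fun t ht => ht.2
  have hEmeas : MeasurableSet E := hG.inter measurableSet_Icc
  have hEb : Bornology.IsBounded E := (Metric.isBounded_Icc _ _).subset hEI
  have hSig : s0 ≤ Sig D T := K.le_Sig
  have hcen : ∀ t0 ∈ Icc (y + T ^ a / 4) (y + H - T ^ a / 4),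
      m1 ≤ ∫ t in E, (Real.log T / (T ^ α' * Real.log T)) *
        WW ((t - t0) * (Real.log T / (T ^ α' * Real.log T))) * ‖Amp D T t‖ ^ 2 := by
    intro t0 ht0
    have ht0I : t0 ∈ Icc T (2 * T) := ⟨by linarith [ht0.1], by linarith [ht0.2]⟩
    have hiV := VL_integrable D hF hK0 hTe2 t0
    have h4 := hw t0 ht0I
    have h5 := htail T hTc t0
    set Fa : Set ℝ := {t : ℝ | T ^ a / 4 < |t - t0|} with hFa
    have hFam : MeasurableSet Fa := measurableSet_lt measurable_const (by fun_prop)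
    have hsub : G ⊆ E ∪ Fa := by
      intro t ht
      by_cases h : T ^ a / 4 < |t - t0|
      · exact Or.inr h
      · refine Or.inl ⟨ht, ?_⟩
        have h2 := abs_le.mp (not_lt.mp h)
        exact ⟨by linarith [ht0.1, h2.1], by linarith [ht0.2, h2.2]⟩
    have h6 : ∫ t in G, VL D (T ^ α' * Real.log T) T t0 t ≤
        (∫ t in E, VL D (T ^ α' * Real.log T) T t0 t) +
        ∫ t in Fa, VL D (T ^ α' * Real.log T) T t0 t := by
      calc _ ≤ ∫ t in E ∪ Fa, VL D (T ^ α' * Real.log T) T t0 t :=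
            setIntegral_mono_set hiV.integrableOn
              (Filter.Eventually.of_forall fun t => VL_nonneg D hK0 h1T t0 t)
              (Filter.Eventually.of_forall hsub)
        _ ≤ _ := by
            have h7 : ∫ t in E ∪ Fa, VL D (T ^ α' * Real.log T) T t0 t =
                (∫ t in E \ Fa, VL D (T ^ α' * Real.log T) T t0 t) +
                ∫ t in Fa, VL D (T ^ α' * Real.log T) T t0 t := by
              rw [← sdiff_union_self, setIntegral_union disjoint_sdiff_left hFam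
                hiV.integrableOn hiV.integrableOn]
            rw [h7]
            have h8 : ∫ t in E \ Fa, VL D (T ^ α' * Real.log T) T t0 t ≤
                ∫ t in E, VL D (T ^ α' * Real.log T) T t0 t :=
              setIntegral_mono_set hiV.integrableOn
                (Filter.Eventually.of_forall fun t => VL_nonneg D hK0 h1T t0 t)
                (Filter.Eventually.of_forall sdiff_subset)
            linarith
    have h9 : 1 / T ≤ s0 / 8 := by
      rw [div_le_div_iff₀ hTp (by norm_num)]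
      rw [div_le_iff₀ hs0p] at hT8
      linarith
    have h10 : m1 ≤ ∫ t in E, VL D (T ^ α' * Real.log T) T t0 t := by
      rw [hm1]
      linarith
    exact h10
  have hAc := Amp_continuous D T
  have hcm := centre_mass (a := Real.log T / (T ^ α' * Real.log T)) (by positivity)
    (G := fun t => ‖Amp D T t‖ ^ 2) (by fun_prop) (fun t => by positivity) hEb
    measurableSet_Icc hm1p.le hcen
  rw [Real.volume_real_Icc_of_le (by linarith)] at hcm
  -- the fourth moment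
  have hf := hfour T hTf y H (by linarith) (by linarith)
    ((Real.rpow_le_rpow_of_exponent_le h1T.le hbinv).trans hH) 0
  simp only [sub_zero, abs_zero, add_zero, one_pow, mul_one] at hf
  have hup := cs_step hHp.le hμ0 hEI hf
  have hlow : m1 * (H / 2) ≤ ∫ t in E, ‖Amp D T t‖ ^ 2 := by
    refine le_trans ?_ hcm
    gcongr
    linarith
  have e5 : μ / 2 * (K1 * H) = m1 * H / 8 := by
    rw [hμ]
    field_simp
    ring
  have h20 : m1 * H / 8 ≤ 1 / (2 * μ) * volume.real E := by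
    have : 0 ≤ m1 * H := by positivity
    linarith
  have h21 : 2 * μ * (m1 * H / 8) ≤ 2 * μ * (1 / (2 * μ) * volume.real E) :=
    mul_le_mul_of_nonneg_left h20 (by positivity)
  have h22 : 2 * μ * (1 / (2 * μ) * volume.real E) = volume.real E := by field_simp
  rw [h22] at h21
  calc m1 * μ / 4 * H = 2 * μ * (m1 * H / 8) := by ring
    _ ≤ _ := h21

/-- **The family Chebyshev inequality.** -/
lemma weight_ge {V : ℝ → ℝ} (hV : ∀ t, 0 ≤ V t) (hVi : Integrable V) {ι : Type*} (J : Finset ι)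
    (X : ι → ℝ → ℝ) (hX : ∀ j ∈ J, Continuous (X j)) {μ e : ι → ℝ} (he : ∀ j ∈ J, 0 < e j)
    (hi : ∀ j ∈ J, Integrable (fun t => V t * (X j t - μ j) ^ 2))
    {S : ℝ} (hS : S ≤ ∫ t, V t)
    (hsum : ∑ j ∈ J, (∫ t, V t * (X j t - μ j) ^ 2) / e j ^ 2 ≤ S / 2) :
    MeasurableSet {t : ℝ | ∀ j ∈ J, |X j t - μ j| < e j} ∧
    S / 2 ≤ ∫ t in {t : ℝ | ∀ j ∈ J, |X j t - μ j| < e j}, V t := by
  have hm : MeasurableSet {t : ℝ | ∀ j ∈ J, |X j t - μ j| < e j} := by
    have e1 : {t : ℝ | ∀ j ∈ J, |X j t - μ j| < e j} = ⋂ j ∈ J, {t : ℝ | |X j t - μ j| < e j} := by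
      ext t; simp
    rw [e1]
    refine Finset.measurableSet_biInter _ fun j hj => ?_
    have := hX j hj
    exact measurableSet_lt (by fun_prop) measurable_const
  refine ⟨hm, ?_⟩
  set G := {t : ℝ | ∀ j ∈ J, |X j t - μ j| < e j} with hG
  have h1 : ∫ t in Gᶜ, V t ≤ ∑ j ∈ J, (∫ t, V t * (X j t - μ j) ^ 2) / e j ^ 2 := by
    have h2 : ∀ t, Gᶜ.indicator V t ≤ ∑ j ∈ J, V t * (X j t - μ j) ^ 2 / e j ^ 2 := by
      intro t
      by_cases ht : t ∈ G
      · rw [indicator_of_notMem (by simpa using ht)]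
        exact Finset.sum_nonneg fun j _ => by have := hV t; positivity
      · rw [indicator_of_mem (by simpa using ht)]
        rw [hG, mem_ofPred_eq] at ht
        push Not at ht
        obtain ⟨j, hj, hjt⟩ := ht
        have h3 : V t ≤ V t * (X j t - μ j) ^ 2 / e j ^ 2 := by
          have h4 := he j hj
          rw [le_div_iff₀ (by positivity)]
          apply mul_le_mul_of_nonneg_left _ (hV t)
          rw [← sq_abs (X j t - μ j)]
          exact pow_le_pow_left₀ h4.le hjt 2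
        exact h3.trans (Finset.single_le_sum
          (f := fun j => V t * (X j t - μ j) ^ 2 / e j ^ 2)
          (fun j _ => by have := hV t; positivity) hj)
    have hgi : ∀ j ∈ J, Integrable (fun t => V t * (X j t - μ j) ^ 2 / e j ^ 2) :=
      fun j hj => (hi j hj).div_const _
    rw [← integral_indicator hm.compl]
    calc _ ≤ ∫ t, ∑ j ∈ J, V t * (X j t - μ j) ^ 2 / e j ^ 2 :=
          integral_mono (hVi.indicator hm.compl) (integrable_finsetSum _ hgi) h2
      _ = ∑ j ∈ J, ∫ t, V t * (X j t - μ j) ^ 2 / e j ^ 2 := integral_finsetSum _ hgi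
      _ = _ := Finset.sum_congr rfl fun j _ => integral_div _ _
  have h5 := integral_add_compl hm hVi
  linarith

end Pool.Agent.PF
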