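import Pool.Agent.PF.Base78
import Pool.Agent.ZGap.Res.PrimeSum

/-!
# Complex amplitude: the truncated state has at least half of the norm of the product state
-/

open scoped ContDiff

namespace Pool.Agent.PF

open MeasureTheory Real Finset Pool.Agent.ZGap.Res

variable {D : CData} {T : ℝ}

/-- Sums of products over disjoint pairs. -/
lemma sum_QQ_prod (T : ℝ) (g h : ℕ → ℝ) :
    ∑ q ∈ QQ T, (∏ p ∈ q.1, g p) * ∏ p ∈ q.2, h p = ∏ p ∈ PP T, (1 + g p + h p) := by
  classical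
  rw [← sum_QQ T (fun S S' => (∏ p ∈ S, g p) * ∏ p ∈ S', h p)]
  have e1 : ∀ p ∈ PP T, 1 + g p + h p = g p + (1 + h p) := fun p _ => by ring
  rw [prod_congr rfl e1, prod_add]
  refine sum_congr rfl fun S _ => ?_
  rw [← mul_sum, prod_one_add]

lemma Nrm_eq (D : CData) (T : ℝ) : Nrm D T = ∑ q ∈ QQ T, K.mu D T q.1 * K.mu D T q.2 := by
  unfold K.mu Nrm
  rw [sum_QQ_prod T (fun p => ‖cc D T p‖ ^ 2) (fun p => ‖cc D T p‖ ^ 2)]
  exact prod_congr rfl fun p _ => by ring

lemma Nrm_pos (D : CData) (T : ℝ) : 0 < Nrm D T := prod_pos fun _ _ => by positivity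

lemma one_le_Nrm (D : CData) (T : ℝ) : 1 ≤ Nrm D T := by
  unfold Nrm
  calc (1:ℝ) = ∏ _p ∈ PP T, (1:ℝ) := prod_const_one.symm
    _ ≤ _ := prod_le_prod (fun _ _ => zero_le_one) fun p _ => by
      have := sq_nonneg ‖cc D T p‖
      linarith

/-- The normalised length. -/
noncomputable def lenS (D : CData) (T : ℝ) (S : Finset ℕ) : ℝ := ell S / (D.th * Real.log T)

lemma lenS_eq (D : CData) (T : ℝ) (S : Finset ℕ) :
    lenS D T S = ∑ p ∈ S, Real.log p / (D.th * Real.log T) := by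
  unfold lenS ell
  rw [sum_div]

/-- The exponential moment of the length. -/
lemma exp_moment (D : CData) (T lam : ℝ) :
    ∑ q ∈ QQ T, K.mu D T q.1 * K.mu D T q.2 * Real.exp (lam * lenS D T q.1) =
      ∏ p ∈ PP T, (1 + ‖cc D T p‖ ^ 2 * Real.exp (lam * (Real.log p / (D.th * Real.log T))) +
        ‖cc D T p‖ ^ 2) := by
  rw [← sum_QQ_prod T (fun p => ‖cc D T p‖ ^ 2 *
    Real.exp (lam * (Real.log p / (D.th * Real.log T)))) (fun p => ‖cc D T p‖ ^ 2)]
  refine sum_congr rfl fun q _ => ?_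
  rw [prod_mul_distrib, lenS_eq, mul_sum, Real.exp_sum]
  unfold K.mu
  ring

lemma exp_sub_one_le {y : ℝ} (h0 : 0 ≤ y) (h1 : y ≤ 1) : Real.exp y - 1 ≤ y + y ^ 2 := by
  have := Real.abs_exp_sub_one_sub_id_le (x := y) (by rw [abs_of_nonneg h0]; exact h1)
  have := (abs_le.mp this).2
  linarith

/-- The Chernoff bound for the length. -/
lemma chern_le (hT : 1 < T) {lam x1 b0 : ℝ} (hlam : 0 ≤ lam)
    (hb0 : ∀ x, b0 ≤ x → D.v x = 0) (hlb : lam * (b0 / D.th) ≤ 1) :
    ∑ q ∈ (QQ T).filter (fun q => x1 < lenS D T q.1), K.mu D T q.1 * K.mu D T q.2 ≤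
      Nrm D T * Real.exp (lam * (∑ p ∈ PP T, ‖cc D T p‖ ^ 2 *
        (Real.log p / (D.th * Real.log T))) * (1 + lam * (b0 / D.th)) - lam * x1) := by
  have hL : 0 < Real.log T := Real.log_pos hT
  have hth := th_pos D
  set m := ∑ p ∈ PP T, ‖cc D T p‖ ^ 2 * (Real.log p / (D.th * Real.log T)) with hm
  have h1 : (∑ q ∈ (QQ T).filter (fun q => x1 < lenS D T q.1), K.mu D T q.1 * K.mu D T q.2) *
      Real.exp (lam * x1) ≤ ∑ q ∈ QQ T, K.mu D T q.1 * K.mu D T q.2 *
        Real.exp (lam * lenS D T q.1) := by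
    rw [sum_mul]
    calc _ ≤ ∑ q ∈ (QQ T).filter (fun q => x1 < lenS D T q.1), K.mu D T q.1 * K.mu D T q.2 *
          Real.exp (lam * lenS D T q.1) := by
          refine sum_le_sum fun q hq => ?_
          rw [mem_filter] at hq
          have e1 := K.mu_nonneg (D := D) (T := T) q.1
          have e2 := K.mu_nonneg (D := D) (T := T) q.2
          apply mul_le_mul_of_nonneg_left _ (mul_nonneg e1 e2)
          exact Real.exp_le_exp.mpr (mul_le_mul_of_nonneg_left hq.2.le hlam)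
      _ ≤ _ := by
          refine sum_le_sum_of_subset_of_nonneg (filter_subset _ _) fun q _ _ => ?_
          have e1 := K.mu_nonneg (D := D) (T := T) q.1
          have e2 := K.mu_nonneg (D := D) (T := T) q.2
          positivity
  rw [exp_moment] at h1
  have h2 : ∏ p ∈ PP T, (1 + ‖cc D T p‖ ^ 2 * Real.exp (lam * (Real.log p / (D.th * Real.log T))) +
        ‖cc D T p‖ ^ 2) ≤ Nrm D T * Real.exp (lam * m * (1 + lam * (b0 / D.th))) := by
    have e3 : lam * m * (1 + lam * (b0 / D.th)) = ∑ p ∈ PP T, ‖cc D T p‖ ^ 2 *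
        (lam * (Real.log p / (D.th * Real.log T)) * (1 + lam * (b0 / D.th))) := by
      rw [hm, mul_sum, sum_mul]
      exact sum_congr rfl fun p _ => by ring
    rw [e3, Real.exp_sum]
    unfold Nrm
    rw [← prod_mul_distrib]
    refine prod_le_prod (fun p _ => by positivity) fun p hp => ?_
    set a := ‖cc D T p‖ ^ 2 with ha
    have ha0 : 0 ≤ a := sq_nonneg _
    set x := Real.log p / (D.th * Real.log T) with hx
    have hx0 : 0 ≤ x := div_nonneg (Real.log_natCast_nonneg p) (by positivity)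
    have h3 : a * (Real.exp (lam * x) - 1) ≤ a * (lam * x * (1 + lam * (b0 / D.th))) := by
      rcases le_or_gt b0 (Real.log p / Real.log T) with h | h
      · have : a = 0 := by
          rw [ha, norm_cc, hb0 _ h]
          simp
        rw [this]; simp
      · have hxb : x ≤ b0 / D.th := by
          rw [hx, mul_comm, ← div_div]
          exact div_le_div_of_nonneg_right h.le hth.le
        have h4 : lam * x ≤ lam * (b0 / D.th) := mul_le_mul_of_nonneg_left hxb hlam
        have h5 := exp_sub_one_le (y := lam * x) (by positivity) (h4.trans hlb)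
        apply mul_le_mul_of_nonneg_left _ ha0
        have h6 : 0 ≤ lam * x := by positivity
        nlinarith
    have h7 := Real.add_one_le_exp (a * (lam * x * (1 + lam * (b0 / D.th))))
    calc 1 + a * Real.exp (lam * x) + a = (1 + 2 * a) + a * (Real.exp (lam * x) - 1) := by ring
      _ ≤ (1 + 2 * a) + a * (lam * x * (1 + lam * (b0 / D.th))) := by linarith
      _ ≤ (1 + 2 * a) * (a * (lam * x * (1 + lam * (b0 / D.th))) + 1) := by
          have h8 : 0 ≤ a * (lam * x * (1 + lam * (b0 / D.th))) := by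
            rcases le_or_gt b0 0 with hb | hb
            · have : a = 0 := by
                rw [ha, norm_cc, hb0 _ (hb.trans (div_nonneg (Real.log_natCast_nonneg p) hL.le))]
                simp
              rw [this]; simp
            · positivity
          nlinarith
      _ ≤ _ := mul_le_mul_of_nonneg_left h7 (by positivity)
  have h9 := h1.trans h2
  have e4 : Real.exp (lam * m * (1 + lam * (b0 / D.th)) - lam * x1) =
      Real.exp (lam * m * (1 + lam * (b0 / D.th))) / Real.exp (lam * x1) := Real.exp_sub _ _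
  rw [e4, ← mul_div_assoc, le_div_iff₀ (Real.exp_pos _)]
  exact h9

lemma exp_neg_three_halves : Real.exp (-(3 / 2)) ≤ 1 / 4 := by
  have h1 := Real.exp_one_gt_d9
  have h2 : (4:ℝ) ≤ Real.exp (3 / 2) := by
    have h3 : Real.exp (3 / 2) ^ 2 = Real.exp 1 ^ 3 := by
      rw [← Real.exp_nat_mul, ← Real.exp_nat_mul]
      norm_num
    have h4 : (16:ℝ) ≤ Real.exp (3 / 2) ^ 2 := by
      rw [h3]
      calc (16:ℝ) ≤ 2.7182818283 ^ 3 := by norm_num
        _ ≤ _ := by gcongr
    have h5 : 0 < Real.exp (3 / 2) := Real.exp_pos _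
    nlinarith
  rw [Real.exp_neg, inv_eq_one_div]
  exact one_div_le_one_div_of_le (by norm_num) h2

/-- Half of the mass, for one `T`. -/
lemma Sig_ge_of (hT : 1 < T) {x1 η b0 : ℝ} (hη : 0 < η) (hη1 : η ≤ 1) (hx1 : x1 ≤ 1)
    (hF1 : ∀ x, 0 ≤ x → x ≤ x1 → D.F x = 1) (hb00 : 0 ≤ b0) (hb0 : ∀ x, b0 ≤ x → D.v x = 0)
    (hb : 8 * b0 ≤ η ^ 2 * D.th)
    (hm : ∑ p ∈ PP T, ‖cc D T p‖ ^ 2 * (Real.log p / (D.th * Real.log T)) ≤ x1 - η) :
    Nrm D T / 2 ≤ Sig D T := by
  classical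
  have hth := th_pos D
  have hL : 0 < Real.log T := Real.log_pos hT
  set m := ∑ p ∈ PP T, ‖cc D T p‖ ^ 2 * (Real.log p / (D.th * Real.log T)) with hmdef
  have hm0 : 0 ≤ m := sum_nonneg fun p _ => mul_nonneg (sq_nonneg _)
    (div_nonneg (Real.log_natCast_nonneg p) (by positivity))
  have hbt : b0 / D.th ≤ η ^ 2 / 8 := by
    rw [div_le_div_iff₀ hth (by norm_num)]
    linarith
  have hbt0 : 0 ≤ b0 / D.th := by positivity
  have hlb : 2 / η * (b0 / D.th) ≤ η / 4 := by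
    calc 2 / η * (b0 / D.th) ≤ 2 / η * (η ^ 2 / 8) := by gcongr
      _ = η / 4 := by field_simp; norm_num
  have hch := chern_le (D := D) hT (lam := 2 / η) (x1 := x1) (b0 := b0) (by positivity) hb0
    (by linarith)
  rw [← hmdef] at hch
  have hexp : 2 / η * m * (1 + 2 / η * (b0 / D.th)) - 2 / η * x1 ≤ -(3 / 2) := by
    have h1 : 2 / η * m * (1 + 2 / η * (b0 / D.th)) ≤ 2 / η * m * (1 + η / 4) := by
      apply mul_le_mul_of_nonneg_left _ (by positivity)
      linarith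
    have h2 : 2 / η * m * (1 + η / 4) = 2 / η * m + m / 2 := by
      field_simp
      ring
    have h3 : 2 / η * m ≤ 2 / η * (x1 - η) := mul_le_mul_of_nonneg_left hm (by positivity)
    have h4 : 2 / η * (x1 - η) = 2 / η * x1 - 2 := by field_simp
    have h5 : m ≤ 1 := by linarith
    linarith
  have hN := Nrm_pos D T
  have hB : ∑ q ∈ (QQ T).filter (fun q => x1 < lenS D T q.1), K.mu D T q.1 * K.mu D T q.2 ≤
      Nrm D T / 4 := by
    refine hch.trans ?_
    have := (Real.exp_le_exp.mpr hexp).trans exp_neg_three_halves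
    calc _ ≤ Nrm D T * (1 / 4) := mul_le_mul_of_nonneg_left this hN.le
      _ = _ := by ring
  have hB2 : ∑ q ∈ (QQ T).filter (fun q => x1 < lenS D T q.2), K.mu D T q.1 * K.mu D T q.2 ≤
      Nrm D T / 4 := by
    refine le_trans (le_of_eq ?_) hB
    refine sum_bij' (fun q _ => (q.2, q.1)) (fun q _ => (q.2, q.1)) ?_ ?_ ?_ ?_ ?_
    · intro q hq
      rw [mem_filter] at hq ⊢
      exact ⟨QQ_swap hq.1, hq.2⟩
    · intro q hq
      rw [mem_filter] at hq ⊢
      exact ⟨QQ_swap hq.1, hq.2⟩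
    · intro q _; rfl
    · intro q _; rfl
    · intro q _
      exact mul_comm _ _
  have hmain : Nrm D T ≤ Sig D T +
      (∑ q ∈ (QQ T).filter (fun q => x1 < lenS D T q.1), K.mu D T q.1 * K.mu D T q.2) +
      ∑ q ∈ (QQ T).filter (fun q => x1 < lenS D T q.2), K.mu D T q.1 * K.mu D T q.2 := by
    rw [Nrm_eq, Sig, sum_filter, sum_filter, ← sum_add_distrib, ← sum_add_distrib]
    refine sum_le_sum fun q _ => ?_
    have e1 := K.mu_nonneg (D := D) (T := T) q.1
    have e2 := K.mu_nonneg (D := D) (T := T) q.2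
    have e12 := mul_nonneg e1 e2
    have e3 : 0 ≤ ‖al D T q‖ ^ 2 := sq_nonneg _
    by_cases h1 : x1 < lenS D T q.1
    · rw [if_pos h1]
      split_ifs <;> linarith
    · by_cases h2 : x1 < lenS D T q.2
      · rw [if_neg h1, if_pos h2]
        linarith
      · rw [if_neg h1, if_neg h2, norm_al, mul_pow, K.norm_aa_sq, K.norm_aa_sq,
          hF1 _ (K.arg_nonneg hT _) (not_lt.mp h1), hF1 _ (K.arg_nonneg hT _) (not_lt.mp h2)]
        linarith
  linarith

/-- The length sum tends to the integral. -/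
lemma len_sum (D : CData) : ∃ C T0 : ℝ, 0 < C ∧ 3 ≤ T0 ∧ ∀ T : ℝ, T0 ≤ T →
    |∑ p ∈ PP T, ‖cc D T p‖ ^ 2 * (Real.log p / (D.th * Real.log T)) -
      D.r ^ 2 / D.th * ∫ u in (0:ℝ)..1, ‖D.v u‖ ^ 2| ≤ C / Real.log T := by
  have hth := th_pos D
  have hep := D.ep_pos
  have hept := D.ep_th
  have hth2 := D.th_lt
  have hsupp : ∀ x, x ∉ Set.Ioo D.ep ((D.th + 1 / 2) / 2) → ‖D.v x‖ ^ 2 = 0 := by
    intro x hx
    rw [Set.mem_Ioo, not_and_or, not_lt, not_lt] at hx
    rcases hx with h | h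
    · rw [D.v_low _ h]; simp
    · rw [D.v_high _ h]; simp
  have hcs : HasCompactSupport (fun u => ‖D.v u‖ ^ 2) :=
    HasCompactSupport.intro (K := Set.Icc D.ep ((D.th + 1 / 2) / 2)) isCompact_Icc
      fun x hx => hsupp x fun h => hx (Set.Ioo_subset_Icc_self h)
  have hsm : ContDiff ℝ ∞ (fun u => ‖D.v u‖ ^ 2) := D.v_smooth.norm_sq ℝ
  obtain ⟨K0, hK0⟩ := ContDiff.lipschitzWith_of_hasCompactSupport hcs hsm (by simp)
  obtain ⟨C1, hC1, T1, hT1, h1⟩ := prime_sum hep (b := (D.th + 1 / 2) / 2) (by linarith)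
    (by linarith)
  refine ⟨D.r ^ 2 / D.th * (C1 * (K0 + 1)) + 1, T1, by positivity, hT1, fun T hT => ?_⟩
  have hT3 : 3 ≤ T := hT1.trans hT
  have hL : 0 < Real.log T := Real.log_pos (by linarith)
  have h2 := h1 T hT (fun u => ‖D.v u‖ ^ 2) K0 1 K0.2 zero_le_one hsupp
    (fun x y => by
      have := hK0.dist_le_mul x y
      rwa [Real.dist_eq, Real.dist_eq] at this)
    (fun x => by
      rw [abs_of_nonneg (sq_nonneg _)]
      exact pow_le_one₀ (norm_nonneg _) (D.v_le x))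
  have e1 : ∑ p ∈ PP T, ‖cc D T p‖ ^ 2 * (Real.log p / (D.th * Real.log T)) =
      D.r ^ 2 / D.th * ∑ p ∈ PP T, Real.log p / (p * Real.log T) *
        ‖D.v (Real.log p / Real.log T)‖ ^ 2 := by
    rw [mul_sum]
    refine sum_congr rfl fun p hp => ?_
    have hp0 : (0:ℝ) < p := by exact_mod_cast (mem_PP.mp hp).1.pos
    rw [norm_cc, div_pow, mul_pow, sq_abs, Real.sq_sqrt hp0.le]
    field_simp
  rw [e1, ← mul_sub, abs_mul, abs_of_nonneg (by positivity)]
  calc D.r ^ 2 / D.th * |_| ≤ D.r ^ 2 / D.th * (C1 * (K0 + 1) / Real.log T) := by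
        gcongr
    _ = (D.r ^ 2 / D.th * (C1 * (K0 + 1))) / Real.log T := by ring
    _ ≤ _ := by gcongr; linarith

/-- **Half of the mass**, for large `T`. -/
theorem Sig_ge (D : CData) {x1 η b0 : ℝ} (hη : 0 < η) (hη1 : η ≤ 1) (hx1 : x1 ≤ 1)
    (hF1 : ∀ x, 0 ≤ x → x ≤ x1 → D.F x = 1) (hb00 : 0 ≤ b0) (hb0 : ∀ x, b0 ≤ x → D.v x = 0)
    (hb : 8 * b0 ≤ η ^ 2 * D.th)
    (hm : D.r ^ 2 / D.th * (∫ u in (0:ℝ)..1, ‖D.v u‖ ^ 2) ≤ x1 - 2 * η) :
    ∃ T0 : ℝ, 3 ≤ T0 ∧ ∀ T : ℝ, T0 ≤ T → Nrm D T / 2 ≤ Sig D T := by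
  obtain ⟨C, T1, hC, hT1, h1⟩ := len_sum D
  refine ⟨max T1 (Real.exp (C / η)), hT1.trans (le_max_left _ _), fun T hT => ?_⟩
  have hTT1 : T1 ≤ T := (le_max_left _ _).trans hT
  have hTe : Real.exp (C / η) ≤ T := (le_max_right _ _).trans hT
  have hT3 : 3 ≤ T := hT1.trans hTT1
  have h1T : 1 < T := by linarith
  have hL : 0 < Real.log T := Real.log_pos h1T
  have h2 := (abs_le.mp (h1 T hTT1)).2
  have h3 : C / Real.log T ≤ η := by
    have h4 : C / η ≤ Real.log T := by rwa [Real.le_log_iff_exp_le (by linarith)]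
    rw [div_le_iff₀ hη] at h4
    rw [div_le_iff₀ hL]
    linarith
  exact Sig_ge_of h1T hη hη1 hx1 hF1 hb00 hb0 hb (by linarith)

end Pool.Agent.PF
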