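import Pool.Agent.PF.M4b
import Pool.Agent.RG.VV

/-!
# Complex amplitude: coefficients, trivial bounds
-/

open scoped ContDiff

namespace Pool.Agent.PF

open MeasureTheory Real Set Finset Pool.Agent.ZGap.Res

variable {D : CData} {T : ℝ}

/-- The two-sided coefficient. -/
noncomputable def al (D : CData) (T : ℝ) (q : Finset ℕ × Finset ℕ) : ℂ :=
  aa D T q.1 * (starRingEnd ℂ) (aa D T q.2)

/-- The sum of the squares of the coefficients. -/
noncomputable def Sig (D : CData) (T : ℝ) : ℝ := ∑ q ∈ QQ T, ‖al D T q‖ ^ 2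

/-- The squared norm of the untruncated product state. -/
noncomputable def Nrm (D : CData) (T : ℝ) : ℝ := ∏ p ∈ PP T, (1 + 2 * ‖cc D T p‖ ^ 2)

/-- The resonator as a sum over pairs. -/
lemma Amp_eq_sum (D : CData) (T t : ℝ) :
    Amp D T t = ∑ q ∈ QQ T, al D T q * Complex.exp (((-(t * fr q) : ℝ) : ℂ) * Complex.I) := by
  unfold Amp
  rw [sum_QQ T (fun S S' => (aa D T S * (starRingEnd ℂ) (aa D T S')) *
    Complex.exp (((-(t * (ell S - ell S')) : ℝ) : ℂ) * Complex.I))]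
  rfl

lemma norm_al (q : Finset ℕ × Finset ℕ) : ‖al D T q‖ = ‖aa D T q.1‖ * ‖aa D T q.2‖ := by
  unfold al
  rw [norm_mul, Complex.norm_conj]

lemma th_pos (D : CData) : 0 < D.th := by linarith [D.ep_pos, D.ep_th]

namespace K

/-- The weight of a set. -/
noncomputable def mu (D : CData) (T : ℝ) (S : Finset ℕ) : ℝ := ∏ p ∈ S, ‖cc D T p‖ ^ 2

lemma mu_nonneg (S : Finset ℕ) : 0 ≤ mu D T S := prod_nonneg fun _ _ => sq_nonneg _

/-- The constant bounding the total weight. -/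
noncomputable def E1 (D : CData) : ℝ := Real.exp (4 * D.r ^ 2 / D.ep)

lemma E1_pos : 0 < E1 D := Real.exp_pos _

lemma sum_mu_le (hT : Real.exp 2 ≤ T) : ∑ S ∈ (PP T).powerset, mu D T S ≤ E1 D := by
  unfold mu E1
  rw [← prod_one_add]
  have h1 : ∏ p ∈ PP T, (1 + ‖cc D T p‖ ^ 2) ≤ Real.exp (∑ p ∈ PP T, ‖cc D T p‖ ^ 2) := by
    rw [Real.exp_sum]
    refine prod_le_prod (fun p _ => by positivity) fun p _ => ?_
    have := Real.add_one_le_exp (‖cc D T p‖ ^ 2)
    linarith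
  refine h1.trans (Real.exp_le_exp.mpr ?_)
  have h2 := sum_cc_sq_le D hT
  have h3 : ∑ p ∈ PP T, (2 * ‖cc D T p‖) ^ 2 = 4 * ∑ p ∈ PP T, ‖cc D T p‖ ^ 2 := by
    rw [mul_sum]
    exact sum_congr rfl fun p _ => by ring
  rw [h3] at h2
  have h4 : 16 * D.r ^ 2 / D.ep = 4 * (4 * D.r ^ 2 / D.ep) := by ring
  linarith

lemma arg_nonneg (hT : 1 < T) (S : Finset ℕ) : 0 ≤ ell S / (D.th * Real.log T) := by
  have hL : 0 < Real.log T := Real.log_pos hT
  have hth := th_pos D
  exact div_nonneg (ell_nonneg S) (by positivity)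

lemma norm_aa_sq (S : Finset ℕ) : ‖aa D T S‖ ^ 2 =
    D.F (ell S / (D.th * Real.log T)) ^ 2 * mu D T S := by
  unfold aa mu
  rw [norm_mul, norm_prod, Complex.norm_real, Real.norm_eq_abs, mul_pow, sq_abs, Finset.prod_pow]

lemma norm_aa_sq_le (hT : 1 < T) (hF : ∀ x, 0 ≤ x → D.F x ≤ 1) (S : Finset ℕ) :
    ‖aa D T S‖ ^ 2 ≤ mu D T S := by
  rw [norm_aa_sq]
  apply mul_le_of_le_one_left (mu_nonneg S)
  exact pow_le_one₀ (D.F_nonneg _) (hF _ (arg_nonneg hT S))

/-- If the coefficient is nonzero then the product is `< T^θ`. -/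
lemma ell_lt_of_aa_ne (hT : 1 < T) {S : Finset ℕ} (h : aa D T S ≠ 0) :
    ell S < D.th * Real.log T := by
  have hL : 0 < Real.log T := Real.log_pos hT
  have hth := th_pos D
  have h1 : D.F (ell S / (D.th * Real.log T)) ≠ 0 := fun h0 => h (by
    unfold aa; rw [h0, Complex.ofReal_zero, zero_mul])
  have h2 : ell S / (D.th * Real.log T) < 1 := by
    by_contra hcon
    exact h1 (D.F_one _ (not_lt.mp hcon))
  rwa [div_lt_one (by positivity)] at h2

lemma pr_le_of_aa_ne (hT : 1 < T) {S : Finset ℕ} (hS : S ⊆ PP T)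
    (h : aa D T S ≠ 0) : pr S ≤ ⌊T⌋₊ := by
  have h1 := ell_lt_of_aa_ne hT h
  have hL : 0 < Real.log T := Real.log_pos hT
  have hth := D.th_lt
  have hpos : (0:ℝ) < pr S := by exact_mod_cast pr_pos hS
  apply Nat.le_floor
  rw [← Real.log_le_log_iff hpos (by linarith), ← ell_eq hS]
  nlinarith

/-- Number of sets with nonzero coefficient. -/
lemma card_support_le (hT : 1 < T) :
    (((PP T).powerset.filter (fun S => aa D T S ≠ 0)).card : ℝ) ≤ T := by
  classical
  have h1 : ((PP T).powerset.filter (fun S => aa D T S ≠ 0)).card ≤ (Finset.Icc 1 ⌊T⌋₊).card := by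
    apply Finset.card_le_card_of_injOn pr
    · intro S hS
      rw [Finset.mem_coe, Finset.mem_filter, Finset.mem_powerset] at hS
      rw [Finset.coe_Icc, Set.mem_Icc]
      exact ⟨pr_pos hS.1, pr_le_of_aa_ne hT hS.1 hS.2⟩
    · intro S hS S' hS' he
      rw [Finset.mem_coe, Finset.mem_filter, Finset.mem_powerset] at hS hS'
      have e1 := Nat.primeFactors_prod (s := S) (fun p hp => (mem_PP.mp (hS.1 hp)).1)
      have e2 := Nat.primeFactors_prod (s := S') (fun p hp => (mem_PP.mp (hS'.1 hp)).1)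
      rw [← e1, ← e2]
      exact congrArg Nat.primeFactors he
  rw [Nat.card_Icc, Nat.add_sub_cancel] at h1
  calc _ ≤ ((⌊T⌋₊ : ℕ) : ℝ) := by exact_mod_cast h1
    _ ≤ T := Nat.floor_le (by linarith)

lemma sum_norm_aa_sq_le (hT : Real.exp 2 ≤ T) (hF : ∀ x, 0 ≤ x → D.F x ≤ 1) :
    (∑ S ∈ (PP T).powerset, ‖aa D T S‖) ^ 2 ≤ T * E1 D := by
  classical
  have h1T : 1 < T := lt_of_lt_of_le (Real.one_lt_exp_iff.mpr (by norm_num)) hT
  have e1 : ∑ S ∈ (PP T).powerset, ‖aa D T S‖ =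
      ∑ S ∈ (PP T).powerset.filter (fun S => aa D T S ≠ 0), ‖aa D T S‖ := by
    rw [Finset.sum_filter]
    refine Finset.sum_congr rfl fun S _ => ?_
    split_ifs with h
    · rfl
    · rw [not_not.mp h, norm_zero]
  rw [e1]
  have h1 := sq_sum_le_card_mul_sum_sq (s := (PP T).powerset.filter (fun S => aa D T S ≠ 0))
    (f := fun S => ‖aa D T S‖)
  refine h1.trans ?_
  have h2 : ∑ S ∈ (PP T).powerset.filter (fun S => aa D T S ≠ 0), ‖aa D T S‖ ^ 2 ≤ E1 D := by
    calc _ ≤ ∑ S ∈ (PP T).powerset, ‖aa D T S‖ ^ 2 :=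
          Finset.sum_le_sum_of_subset_of_nonneg (Finset.filter_subset _ _)
            fun _ _ _ => sq_nonneg _
      _ ≤ ∑ S ∈ (PP T).powerset, mu D T S :=
          Finset.sum_le_sum fun S _ => norm_aa_sq_le h1T hF S
      _ ≤ _ := sum_mu_le hT
  exact mul_le_mul (card_support_le h1T) h2 (Finset.sum_nonneg fun _ _ => sq_nonneg _)
    (by linarith)

/-- The trivial bound of the resonator. -/
lemma norm_Amp_le (hT : Real.exp 2 ≤ T) (hF : ∀ x, 0 ≤ x → D.F x ≤ 1) (t : ℝ) :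
    ‖Amp D T t‖ ≤ T * E1 D := by
  classical
  refine le_trans ?_ (sum_norm_aa_sq_le hT hF)
  unfold Amp
  rw [sq, Finset.sum_mul_sum]
  refine (norm_sum_le _ _).trans (Finset.sum_le_sum fun S _ => ?_)
  refine (norm_sum_le _ _).trans ?_
  calc ∑ S' ∈ (PP T \ S).powerset, ‖(aa D T S * (starRingEnd ℂ) (aa D T S')) *
        Complex.exp (((-(t * (ell S - ell S')) : ℝ) : ℂ) * Complex.I)‖
      = ∑ S' ∈ (PP T \ S).powerset, ‖aa D T S‖ * ‖aa D T S'‖ := by
        refine Finset.sum_congr rfl fun S' _ => ?_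
        rw [norm_mul, Complex.norm_exp_ofReal_mul_I, mul_one, norm_mul, Complex.norm_conj]
    _ ≤ ∑ S' ∈ (PP T).powerset, ‖aa D T S‖ * ‖aa D T S'‖ := by
        apply Finset.sum_le_sum_of_subset_of_nonneg
        · exact Finset.powerset_mono.mpr Finset.sdiff_subset
        · intro _ _ _; positivity

lemma aa_empty : aa D T ∅ = D.F 0 := by
  unfold aa ell
  simp

/-- The empty pair. -/
lemma le_Sig : D.F 0 ^ 4 ≤ Sig D T := by
  unfold Sig
  have hm : ((∅ : Finset ℕ), (∅ : Finset ℕ)) ∈ QQ T := by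
    rw [mem_QQ]
    exact ⟨Finset.empty_subset _, Finset.empty_subset _, Finset.disjoint_empty_left _⟩
  have h := single_le_sum (f := fun q => ‖al D T q‖ ^ 2) (fun _ _ => sq_nonneg _) hm
  have e : ‖al D T ((∅ : Finset ℕ), (∅ : Finset ℕ))‖ ^ 2 = D.F 0 ^ 4 := by
    rw [norm_al]
    simp only [aa_empty]
    rw [Complex.norm_real, Real.norm_eq_abs, ← sq, ← pow_mul]
    exact (even_two_mul 2).pow_abs _
  rw [← e]
  exact h

end K

end Pool.Agent.PF
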