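import Pool.Agent.PF.VarC
import Pool.Agent.PF.Base78
import Pool.Agent.TypBlk.Exp

set_option autoImplicit false

/-!
# The second moment of a short prime sum in windows, complex amplitude
-/

namespace Pool.Agent.PF

open MeasureTheory Finset Pool.Agent.ZGap.Res Pool.Agent.TypBlk Pool.Agent.TypBlk.ExpAux

lemma Amp_eq_G (D : CData) (T t : ℝ) :
    Amp D T t = Var.GAmp (PP T) (cc D T) D.F (D.th * Real.log T) t := rfl

/-- The window has no frequencies above `log T / K`. -/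
lemma ww_van {K T t0 : ℝ} (hK : 0 < K) (hT : 1 < T) {l : ℝ} (hl : Real.log T / K ≤ |l|) :
    ∫ t : ℝ, (ww K T t0 t : ℂ) * Complex.exp (((t * l : ℝ) : ℂ) * Complex.I) = 0 := by
  have hL : 0 < Real.log T := Real.log_pos hT
  have hW : Wh (K / Real.log T * l) = 0 := by
    apply Wh_eq_zero
    rw [abs_mul, abs_of_pos (by positivity : 0 < K / Real.log T)]
    have h1 := mul_le_mul_of_nonneg_left hl (by positivity : (0:ℝ) ≤ K / Real.log T)
    have h2 : K / Real.log T * (Real.log T / K) = 1 := by field_simp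
    linarith
  have e1 : ∀ t : ℝ, (ww K T t0 t : ℂ) * Complex.exp (((t * l : ℝ) : ℂ) * Complex.I) =
      ((ww K T t0 t * Real.cos (t * l) : ℝ) : ℂ) +
        ((ww K T t0 t * Real.sin (t * l) : ℝ) : ℂ) * Complex.I := by
    intro t
    rw [Complex.exp_mul_I, ← Complex.ofReal_cos, ← Complex.ofReal_sin]
    push_cast
    ring
  have hs : Integrable (fun t => ww K T t0 t * Real.sin (t * l)) := by
    refine (ww_integrable hK hT (t0 := t0)).norm.mono' ((ww_continuous K T t0).mul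
      (by fun_prop)).aestronglyMeasurable (Filter.Eventually.of_forall fun t => ?_)
    rw [norm_mul]
    exact mul_le_of_le_one_right (norm_nonneg _) (Real.abs_sin_le_one _)
  simp_rw [e1]
  rw [integral_add (ww_integrable_cos hK hT l).ofReal (hs.ofReal.mul_const _), integral_mul_const,
    integral_complex_ofReal, integral_complex_ofReal, int_ww_cos hK hT, int_ww_sin hK hT, hW]
  simp

lemma int_ww_one {K T t0 : ℝ} (hK : 0 < K) (hT : 1 < T) : ∫ t : ℝ, ww K T t0 t = 1 := by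
  have h := int_ww K T t0 hK hT (fun _ => 1)
  simp only [mul_one] at h
  rw [h, WW_integral]

lemma Sig_eq_G (D : CData) (T : ℝ) :
    Var.GSig (PP T) (cc D T) D.F (D.th * Real.log T) = Sig D T := by
  unfold Var.GSig Sig
  rw [sum_QQ T (fun S S' => ‖Var.ga (cc D T) D.F (D.th * Real.log T) S‖ ^ 2 *
    ‖Var.ga (cc D T) D.F (D.th * Real.log T) S'‖ ^ 2)]
  refine sum_congr rfl fun q _ => ?_
  rw [norm_al, mul_pow]
  rfl

lemma prime_PP {T : ℝ} : ∀ p ∈ PP T, p.Prime := fun _ hp => (mem_PP.mp hp).1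

/-- The mean square in every window. -/
theorem int_ww_sq (D : CData) {T α : ℝ} (hT : 1 < T) (hα : 2 ≤ T ^ (α - 2 * D.th)) (t0 : ℝ) :
    ∫ t : ℝ, ww (T ^ α * Real.log T) T t0 t * ‖Amp D T t‖ ^ 2 = Sig D T := by
  have hTp : 0 < T := by linarith
  have hL : 0 < Real.log T := Real.log_pos hT
  have hK : 0 < T ^ α * Real.log T := mul_pos (Real.rpow_pos_of_pos hTp α) hL
  have hth : 0 < D.th := by linarith [D.ep_pos, D.ep_th]
  have h := Var.mean_sq (I := PP T) prime_PP (cc D T) (Φ := D.F) (M := D.th * Real.log T)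
    (δ := Real.log T / (T ^ α * Real.log T)) (mul_pos hth hL) D.F_one
    (ww_integrable hK hT (t0 := t0)) (fun l hl => ww_van hK hT hl) (by
      have e1 : Real.log T / (T ^ α * Real.log T) = T ^ (-α) := by
        rw [Real.rpow_neg hTp.le]
        field_simp
      have e2 : Real.exp (-(2 * (D.th * Real.log T))) = T ^ (-(2 * D.th)) := by
        rw [Real.rpow_def_of_pos hTp]
        congr 1
        ring
      rw [e1, e2]
      have h3 : T ^ (-(2 * D.th)) = T ^ (-α) * T ^ (α - 2 * D.th) := by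
        rw [← Real.rpow_add hTp]
        congr 1
        ring
      rw [h3]
      have h4 : 0 < T ^ (-α) := Real.rpow_pos_of_pos hTp _
      nlinarith)
  rw [int_ww_one hK hT, one_mul, Sig_eq_G] at h
  exact h

/-- **The second moment in every window.** -/
theorem var_window (D : CData) (b : ℕ → ℂ) {T α be Kf : ℝ} (hT : 1 < T) (hbe : 0 ≤ be)
    (hα : 2 ≤ T ^ (α - 2 * (D.th + be))) (hF1 : ∀ u, 0 ≤ u → D.F u ≤ 1) (hKf : 0 ≤ Kf)
    (hFK : ∀ u v, 0 ≤ u → 0 ≤ v → |D.F u - D.F v| ≤ Kf * |u - v|)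
    (hb : ∀ p ∈ PP T, be < Real.log p / Real.log T → b p = 0) (t0 : ℝ) :
    ∫ t : ℝ, ww (T ^ α * Real.log T) T t0 t *
        (‖Amp D T t‖ ^ 2 * (Var.XB (PP T) b t - Var.muB (PP T) b (cc D T)) ^ 2) ≤
      3 * Nrm D T *
        (∑ p ∈ PP T, ‖b p‖ ^ 2 * (1 + (Kf * (Real.log p / Real.log T) / D.th) ^ 2 / 2) +
          2 * (∑ p ∈ PP T, ‖b p‖ * ‖cc D T p‖ *
            (Kf * (Real.log p / Real.log T) / D.th)) ^ 2) := by
  have hTp : 0 < T := by linarith
  have hL : 0 < Real.log T := Real.log_pos hT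
  have hK : 0 < T ^ α * Real.log T := mul_pos (Real.rpow_pos_of_pos hTp α) hL
  have hth : 0 < D.th := by linarith [D.ep_pos, D.ep_th]
  have h := Var.var_bound (I := PP T) prime_PP b (cc D T) (Φ := D.F) (M := D.th * Real.log T)
    (B := be * Real.log T) (K := Kf)
    (δ := Real.log T / (T ^ α * Real.log T)) (mul_pos hth hL) (mul_nonneg hbe hL.le) hKf
    (fun u hu => by rw [abs_of_nonneg (D.F_nonneg u)]; exact hF1 u hu) D.F_one hFK
    (fun p hp hlt => hb p hp (by rwa [lt_div_iff₀ hL]))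
    (ww_integrable hK hT (t0 := t0)) (by rw [int_ww_one hK hT]; norm_num)
    (fun l hl => ww_van hK hT hl) (by
      have e1 : Real.log T / (T ^ α * Real.log T) = T ^ (-α) := by
        rw [Real.rpow_neg hTp.le]
        field_simp
      have e2 : Real.exp (-(2 * (D.th * Real.log T + be * Real.log T))) =
          T ^ (-(2 * (D.th + be))) := by
        rw [Real.rpow_def_of_pos hTp]
        congr 1
        ring
      rw [e1, e2]
      have h3 : T ^ (-(2 * (D.th + be))) = T ^ (-α) * T ^ (α - 2 * (D.th + be)) := by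
        rw [← Real.rpow_add hTp]
        congr 1
        ring
      rw [h3]
      have h4 : 0 < T ^ (-α) := Real.rpow_pos_of_pos hTp _
      nlinarith)
  rw [int_ww_one hK hT, one_mul] at h
  have e3 : ∀ p : ℕ, Kf * Real.log p / (D.th * Real.log T) =
      Kf * (Real.log p / Real.log T) / D.th := by
    intro p
    field_simp
  simp_rw [e3] at h
  exact h

/-- The truncation only makes the norm smaller. -/
theorem Sig_le_Nrm (D : CData) (hF : ∀ y, 0 ≤ y → D.F y ≤ 1) (T : ℝ) : Sig D T ≤ Nrm D T := by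
  rw [← Sig_eq_G, Var.GSig_eq]
  have h1 : Nrm D T = ∑ x : PP T → ZMod 5, ‖Var.Psi (fun p : PP T => cc D T p) x‖ ^ 2 := by
    rw [Var.sum_norm_Psi]
    unfold Nrm Var.Nrm
    rw [← prod_coe_sort (PP T)]
  rw [h1]
  refine sum_le_sum fun x _ => ?_
  have harg : 0 ≤ Var.pos x / (D.th * Real.log T) ∧ 0 ≤ Var.neg x / (D.th * Real.log T) := by
    rcases lt_or_ge 1 T with hT | hT
    · have hL : 0 < Real.log T := Real.log_pos hT
      have hth : 0 < D.th := by linarith [D.ep_pos, D.ep_th]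
      exact ⟨div_nonneg (Var.pos_nonneg x) (by positivity),
        div_nonneg (Var.neg_nonneg x) (by positivity)⟩
    · have hI : ∀ p : ℕ, p ∉ PP T := by
        intro p hp
        obtain ⟨h2, h3⟩ := mem_PP.mp hp
        have h4 : ⌊T⌋₊ ≤ 1 := by
          rw [← Nat.floor_one (R := ℝ)]
          exact Nat.floor_le_floor hT
        have := h2.two_le
        omega
      have e1 : Var.pos x = 0 := sum_eq_zero fun p _ => absurd p.2 (hI p)
      have e2 : Var.neg x = 0 := sum_eq_zero fun p _ => absurd p.2 (hI p)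
      rw [e1, e2, zero_div]
      exact ⟨le_rfl, le_rfl⟩
  unfold Var.vv Var.prf
  rw [norm_mul, mul_pow]
  refine mul_le_of_le_one_left (sq_nonneg _) ?_
  rw [Complex.norm_real, Real.norm_eq_abs, sq_abs]
  have a1 := hF _ harg.1
  have a2 := hF _ harg.2
  have b1 := D.F_nonneg (Var.pos x / (D.th * Real.log T))
  have b2 := D.F_nonneg (Var.neg x / (D.th * Real.log T))
  exact pow_le_one₀ (mul_nonneg b1 b2) (mul_le_one₀ a1 b2 a2)

lemma exp_two_le {T : ℝ} (hT : Real.exp 2 ≤ T) : 1 < T ∧ 0 < Real.log T := by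
  have h1 : 1 < T := lt_of_lt_of_le (Real.one_lt_exp_iff.mpr (by norm_num)) hT
  exact ⟨h1, Real.log_pos h1⟩

lemma window_le {T κ K : ℝ} (hT : 1 < T) (hK : 2 * T ^ (2 * κ) * Real.log T ≤ K) :
    0 < K ∧ Real.log T / K ≤ Real.exp (-(2 * (κ * Real.log T))) / 2 := by
  have hTp : 0 < T := by linarith
  have hL : 0 < Real.log T := Real.log_pos hT
  have hP : 0 < T ^ (2 * κ) := Real.rpow_pos_of_pos hTp _
  have hK0 : 0 < K := lt_of_lt_of_le (by positivity) hK
  refine ⟨hK0, ?_⟩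
  have e1 : Real.exp (-(2 * (κ * Real.log T))) = (T ^ (2 * κ))⁻¹ := by
    rw [Real.exp_neg, Real.rpow_def_of_pos hTp]
    congr 2
    ring
  rw [e1, div_le_iff₀ hK0]
  have h2 : (T ^ (2 * κ))⁻¹ * T ^ (2 * κ) = 1 := inv_mul_cancel₀ hP.ne'
  calc Real.log T = (T ^ (2 * κ))⁻¹ / 2 * (2 * T ^ (2 * κ) * Real.log T) := by
        linear_combination (-Real.log T) * h2
    _ ≤ _ := mul_le_mul_of_nonneg_left hK (by positivity)

/-- The mean square in every window. -/
theorem int_ww_Amp (D : CData) {T K t0 : ℝ} (hT : Real.exp 2 ≤ T)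
    (hK : 2 * T ^ (2 * D.th) * Real.log T ≤ K) :
    ∫ t : ℝ, ww K T t0 t * ‖Amp D T t‖ ^ 2 = Sig D T := by
  obtain ⟨hT1, hL⟩ := exp_two_le hT
  obtain ⟨hK0, hδ⟩ := window_le hT1 hK
  have hth : 0 < D.th := by linarith [D.ep_pos, D.ep_th]
  have h := Var.mean_sq (I := PP T) prime_PP (cc D T) (Φ := D.F) (M := D.th * Real.log T)
    (δ := Real.log T / K) (mul_pos hth hL) D.F_one
    (ww_integrable hK0 hT1 (t0 := t0)) (fun l hl => ww_van hK0 hT1 hl) hδ
  rw [int_ww_one hK0 hT1, one_mul, Sig_eq_G] at h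
  exact h

/-- **The second moment in every window.** -/
theorem var_ww (D : CData) {K : ℝ} (hK : 0 ≤ K) (hF : ∀ y, 0 ≤ y → D.F y ≤ 1)
    (hlip : ∀ y z, 0 ≤ y → 0 ≤ z → |D.F y - D.F z| ≤ K * |y - z|) {be T : ℝ} (hbe : 0 ≤ be)
    (hT : Real.exp 2 ≤ T) {Kw t0 : ℝ} (hKw : 2 * T ^ (2 * (D.th + be)) * Real.log T ≤ Kw)
    {b : ℕ → ℂ} (hb : ∀ p ∈ PP T, be * Real.log T < Real.log p → b p = 0) :
    ∫ t : ℝ, ww Kw T t0 t *
      (‖Amp D T t‖ ^ 2 * (Var.XB (PP T) b t - Var.muB (PP T) b (cc D T)) ^ 2) ≤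
      3 * Nrm D T * (∑ p ∈ PP T, ‖b p‖ ^ 2 * (1 + (K * (Real.log p / Real.log T) / D.th) ^ 2 / 2) +
        2 * (∑ p ∈ PP T, ‖b p‖ * ‖cc D T p‖ * (K * (Real.log p / Real.log T) / D.th)) ^ 2) := by
  obtain ⟨hT1, hL⟩ := exp_two_le hT
  obtain ⟨hK0, hδ⟩ := window_le hT1 hKw
  have hth : 0 < D.th := by linarith [D.ep_pos, D.ep_th]
  have h := Var.var_bound (I := PP T) prime_PP b (cc D T) (Φ := D.F) (M := D.th * Real.log T)
    (B := be * Real.log T) (K := K)
    (δ := Real.log T / Kw) (mul_pos hth hL) (mul_nonneg hbe hL.le) hK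
    (fun u hu => by rw [abs_of_nonneg (D.F_nonneg u)]; exact hF u hu) D.F_one hlip hb
    (ww_integrable hK0 hT1 (t0 := t0)) (by rw [int_ww_one hK0 hT1]; norm_num)
    (fun l hl => ww_van hK0 hT1 hl) (by
      rw [← add_mul]
      exact hδ)
  rw [int_ww_one hK0 hT1, one_mul] at h
  have e3 : ∀ p : ℕ, K * Real.log p / (D.th * Real.log T) =
      K * (Real.log p / Real.log T) / D.th := by
    intro p
    field_simp
  simp_rw [e3] at h
  exact h

end Pool.Agent.PF
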