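import Pool.Agent.PF.Sta
import Pool.Agent.PF.Pos78
import Pool.Agent.PF.SigGe78
import Pool.Agent.PF.VarD
import Pool.Agent.PF.Lim

/-!
# The second moment of one statistic under the resonated window weight
-/

open scoped ContDiff

namespace Pool.Agent.PF

open MeasureTheory Real Set Pool.Agent.ZGap.Res Pool.Agent.ZetaGaps Pool.Agent.TypBlk
  Pool.Agent.ZShort

lemma bG_zero {G : ℝ → ℂ} {b T : ℝ} (hG : GOK G b) (hT : 0 < Real.log T) {p : ℕ}
    (h : b * Real.log T < Real.log p) : bG G T p = 0 := by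
  unfold bG
  rw [hG.van _ ((le_div_iff₀ hT).2 h.le), mul_zero, zero_div]

lemma XB_continuous (I : Finset ℕ) (b : ℕ → ℂ) : Continuous (Var.XB I b) := by
  unfold Var.XB
  fun_prop

lemma abs_XB_le (I : Finset ℕ) (b : ℕ → ℂ) (t : ℝ) : |Var.XB I b t| ≤ ∑ p ∈ I, ‖b p‖ := by
  unfold Var.XB
  refine (Finset.abs_sum_le_sum_abs _ _).trans (Finset.sum_le_sum fun p _ => ?_)
  refine (Complex.abs_re_le_norm _).trans ?_
  rw [norm_mul, Complex.norm_exp_ofReal_mul_I, mul_one]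

/-- **The second moment of a statistic** around the limit of its mean. -/
theorem stat_bound (D : CData) {K : ℝ} (hK : 0 ≤ K) (hF : ∀ y, 0 ≤ y → D.F y ≤ 1)
    (hlip : ∀ y z, 0 ≤ y → 0 ≤ z → |D.F y - D.F z| ≤ K * |y - z|) {G : ℝ → ℂ} {b : ℝ}
    (hb0 : 0 < b) (hb : b < 1) (hG : GOK G b) {a' : ℝ} (ha' : 2 * (D.th + b) < a') {A : ℝ}
    (hA : 6 * ((1 + (K / D.th) ^ 2) * (∫ u in (0:ℝ)..1, u * ‖G u‖ ^ 2) +
      2 * (K / D.th) ^ 2 * (∫ u in (0:ℝ)..1, u * ‖G u‖ * ‖(D.r : ℂ) * D.v u‖) ^ 2) < A) :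
    ∃ T0 : ℝ, ∀ T, T0 ≤ T → ∀ t0 : ℝ,
      ∫ t : ℝ, ww (T ^ a' * Real.log T) T t0 t *
        (‖Amp D T t‖ ^ 2 * (Var.XB (PP T) (bG G T) t - mG D G) ^ 2) ≤ A * Nrm D T := by
  have hth : 0 < D.th := by linarith [D.ep_pos, D.ep_th]
  set k := K / D.th with hk
  have hk0 : 0 ≤ k := by positivity
  set I2 := ∫ u in (0:ℝ)..1, u * ‖G u‖ ^ 2 with hI2
  set I1 := ∫ u in (0:ℝ)..1, u * ‖G u‖ * ‖(D.r : ℂ) * D.v u‖ with hI1
  -- the small parameter
  obtain ⟨κ, hκ, hκA⟩ : ∃ κ : ℝ, 0 < κ ∧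
      6 * ((1 + k ^ 2) * (I2 + κ) + 2 * k ^ 2 * (I1 + κ) ^ 2) + 2 * κ ^ 2 < A := by
    have hc : Continuous fun κ : ℝ =>
        6 * ((1 + k ^ 2) * (I2 + κ) + 2 * k ^ 2 * (I1 + κ) ^ 2) + 2 * κ ^ 2 := by fun_prop
    have h0 : (fun κ : ℝ =>
        6 * ((1 + k ^ 2) * (I2 + κ) + 2 * k ^ 2 * (I1 + κ) ^ 2) + 2 * κ ^ 2) 0 < A := by
      simp only [add_zero]
      linarith
    have h1 : ∀ᶠ κ in nhdsWithin (0:ℝ) (Ioi 0),
        6 * ((1 + k ^ 2) * (I2 + κ) + 2 * k ^ 2 * (I1 + κ) ^ 2) + 2 * κ ^ 2 < A :=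
      (hc.continuousAt.eventually (gt_mem_nhds h0)).filter_mono nhdsWithin_le_nhds
    obtain ⟨κ, h2, h3⟩ := (h1.and self_mem_nhdsWithin).exists
    exact ⟨κ, h3, h2⟩
  obtain ⟨T1, h1⟩ := lim_mu D hb hG hκ
  obtain ⟨T2, h2⟩ := lim_sq hb hG hκ
  obtain ⟨T3, h3⟩ := lim_mix D hb hG hκ
  -- the length of the window
  obtain ⟨T4, h4⟩ : ∃ T4 : ℝ, ∀ T, T4 ≤ T → 2 * T ^ (2 * (D.th + b)) ≤ T ^ a' := by
    have ht := tendsto_rpow_atTop (show 0 < a' - 2 * (D.th + b) by linarith)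
    obtain ⟨T4, hT4⟩ := Filter.eventually_atTop.1 (ht.eventually_ge_atTop 2)
    refine ⟨max T4 1, fun T hT => ?_⟩
    have hT0 : 0 < T := lt_of_lt_of_le one_pos ((le_max_right _ _).trans hT)
    have h5 := hT4 T ((le_max_left _ _).trans hT)
    have h6 : T ^ a' = T ^ (a' - 2 * (D.th + b)) * T ^ (2 * (D.th + b)) := by
      rw [← Real.rpow_add hT0]
      congr 1
      ring
    rw [h6]
    gcongr
  refine ⟨max (max T1 T2) (max (max T3 T4) (Real.exp 2)), fun T hT t0 => ?_⟩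
  have hT1 : T1 ≤ T := (le_max_left _ _).trans ((le_max_left _ _).trans hT)
  have hT2 : T2 ≤ T := (le_max_right _ _).trans ((le_max_left _ _).trans hT)
  have hT3 : T3 ≤ T := (le_max_left _ _).trans ((le_max_left _ _).trans
    ((le_max_right _ _).trans hT))
  have hT4 : T4 ≤ T := (le_max_right _ _).trans ((le_max_left _ _).trans
    ((le_max_right _ _).trans hT))
  have hTe : Real.exp 2 ≤ T := (le_max_right _ _).trans ((le_max_right _ _).trans hT)
  have h1T : 1 < T := lt_of_lt_of_le (Real.one_lt_exp_iff.mpr (by norm_num)) hTe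
  have hT0 : 0 < T := by linarith
  have hL : 0 < Real.log T := Real.log_pos h1T
  have hKw : 2 * T ^ (2 * (D.th + b)) * Real.log T ≤ T ^ a' * Real.log T :=
    mul_le_mul_of_nonneg_right (h4 T hT4) hL.le
  have hKw0 : 0 < T ^ a' * Real.log T := by positivity
  have hKw' : 2 * T ^ (2 * D.th) * Real.log T ≤ T ^ a' * Real.log T := by
    refine le_trans ?_ hKw
    have : T ^ (2 * D.th) ≤ T ^ (2 * (D.th + b)) :=
      Real.rpow_le_rpow_of_exponent_le h1T.le (by linarith)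
    gcongr
  have hvar := var_ww D hK hF hlip hb0.le hTe (t0 := t0) hKw
    (b := bG G T) (fun p _ hp => bG_zero hG hL hp)
  have hint := int_ww_Amp D hTe (t0 := t0) hKw'
  have hSig := Sig_le_Nrm D hF T
  have hN := Nrm_pos D T
  set μ := Var.muB (PP T) (bG G T) (cc D T) with hμ
  set m := mG D G with hm
  have hμm : (μ - m) ^ 2 ≤ κ ^ 2 := by
    rw [← sq_abs (μ - m)]
    exact pow_le_pow_left₀ (abs_nonneg _) (h1 T hT1) 2
  -- integrability
  set X := Var.XB (PP T) (bG G T) with hX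
  set B := ∑ p ∈ PP T, ‖bG G T p‖ with hB
  have hXc : Continuous X := XB_continuous _ _
  have hXB : ∀ t, |X t| ≤ B := abs_XB_le _ _
  have hVi := VL_integrable D hF hKw0 hTe t0
  have hi : ∀ s : ℝ, Integrable fun t : ℝ => ww (T ^ a' * Real.log T) T t0 t *
      (‖Amp D T t‖ ^ 2 * (X t - s) ^ 2) := by
    intro s
    have hVc := VL_continuous D (T ^ a' * Real.log T) T t0
    have e : (fun t : ℝ => ww (T ^ a' * Real.log T) T t0 t * (‖Amp D T t‖ ^ 2 * (X t - s) ^ 2)) =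
        fun t => VL D (T ^ a' * Real.log T) T t0 t * (X t - s) ^ 2 := by
      funext t
      unfold VL
      ring
    rw [e]
    refine (hVi.norm.mul_const ((B + |s|) ^ 2)).mono'
      (Continuous.aestronglyMeasurable (by fun_prop)) (Filter.Eventually.of_forall fun t => ?_)
    rw [norm_mul]
    refine mul_le_mul_of_nonneg_left ?_ (norm_nonneg _)
    rw [norm_pow, Real.norm_eq_abs]
    refine pow_le_pow_left₀ (abs_nonneg _) ?_ 2
    exact (abs_sub _ _).trans (add_le_add (hXB t) le_rfl)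
  have hi0 : Integrable fun t : ℝ => ww (T ^ a' * Real.log T) T t0 t * ‖Amp D T t‖ ^ 2 := hVi
  -- the pointwise inequality
  have hpt : ∫ t : ℝ, ww (T ^ a' * Real.log T) T t0 t * (‖Amp D T t‖ ^ 2 * (X t - m) ^ 2) ≤
      2 * (∫ t : ℝ, ww (T ^ a' * Real.log T) T t0 t * (‖Amp D T t‖ ^ 2 * (X t - μ) ^ 2)) +
        2 * κ ^ 2 * ∫ t : ℝ, ww (T ^ a' * Real.log T) T t0 t * ‖Amp D T t‖ ^ 2 := by
    rw [← MeasureTheory.integral_const_mul, ← MeasureTheory.integral_const_mul,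
      ← integral_add ((hi μ).const_mul _) (hi0.const_mul _)]
    refine integral_mono (hi m) (((hi μ).const_mul _).add (hi0.const_mul _)) fun t => ?_
    have hw := WinAux.ww_nonneg hKw0 h1T t0 t
    have h5 : (X t - m) ^ 2 ≤ 2 * (X t - μ) ^ 2 + 2 * κ ^ 2 := by
      nlinarith [sq_nonneg ((X t - μ) - (μ - m))]
    have h6 : 0 ≤ ww (T ^ a' * Real.log T) T t0 t * ‖Amp D T t‖ ^ 2 := by positivity
    simp only
    calc ww (T ^ a' * Real.log T) T t0 t * (‖Amp D T t‖ ^ 2 * (X t - m) ^ 2) =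
        ww (T ^ a' * Real.log T) T t0 t * ‖Amp D T t‖ ^ 2 * (X t - m) ^ 2 := by ring
      _ ≤ ww (T ^ a' * Real.log T) T t0 t * ‖Amp D T t‖ ^ 2 *
          (2 * (X t - μ) ^ 2 + 2 * κ ^ 2) := mul_le_mul_of_nonneg_left h5 h6
      _ = _ := by ring
  -- the two sums
  have hu : ∀ p ∈ PP T, 0 ≤ Real.log p / Real.log T ∧ Real.log p / Real.log T ≤ 1 := by
    intro p hp
    obtain ⟨hp1, hp2⟩ := mem_PP.1 hp
    have hpT : (p : ℝ) ≤ T := (Nat.le_floor_iff hT0.le).1 hp2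
    have hp0 : (0:ℝ) < p := by exact_mod_cast hp1.pos
    exact ⟨div_nonneg (Real.log_natCast_nonneg p) hL.le,
      (div_le_one hL).2 (Real.log_le_log hp0 hpT)⟩
  have hs1 : ∑ p ∈ PP T, ‖bG G T p‖ ^ 2 *
      (1 + (K * (Real.log p / Real.log T) / D.th) ^ 2 / 2) ≤ (1 + k ^ 2) * (I2 + κ) := by
    calc _ ≤ ∑ p ∈ PP T, (1 + k ^ 2) * ‖bG G T p‖ ^ 2 := by
          refine Finset.sum_le_sum fun p hp => ?_
          obtain ⟨u0, u1⟩ := hu p hp
          have e : K * (Real.log p / Real.log T) / D.th = k * (Real.log p / Real.log T) := by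
            rw [hk]; ring
          rw [e, mul_comm]
          refine mul_le_mul_of_nonneg_right ?_ (sq_nonneg _)
          have h5 : k * (Real.log p / Real.log T) ≤ k := mul_le_of_le_one_right hk0 u1
          have h6 : (k * (Real.log p / Real.log T)) ^ 2 ≤ k ^ 2 :=
            pow_le_pow_left₀ (mul_nonneg hk0 u0) h5 2
          have h7 := sq_nonneg k
          linarith
      _ = (1 + k ^ 2) * ∑ p ∈ PP T, ‖bG G T p‖ ^ 2 := by rw [Finset.mul_sum]
      _ ≤ _ := by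
          have := h2 T hT2
          gcongr
  have hs2 : ∑ p ∈ PP T, ‖bG G T p‖ * ‖cc D T p‖ * (K * (Real.log p / Real.log T) / D.th) ≤
      k * (I1 + κ) := by
    calc _ = k * ∑ p ∈ PP T, ‖bG G T p‖ * ‖cc D T p‖ * (Real.log p / Real.log T) := by
          rw [Finset.mul_sum]
          refine Finset.sum_congr rfl fun p _ => ?_
          rw [hk]
          ring
      _ ≤ _ := by
          have := h3 T hT3
          gcongr
  have hs20 : 0 ≤ ∑ p ∈ PP T, ‖bG G T p‖ * ‖cc D T p‖ *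
      (K * (Real.log p / Real.log T) / D.th) := by
    refine Finset.sum_nonneg fun p hp => ?_
    have := (hu p hp).1
    positivity
  have hs3 : (∑ p ∈ PP T, ‖bG G T p‖ * ‖cc D T p‖ *
      (K * (Real.log p / Real.log T) / D.th)) ^ 2 ≤ k ^ 2 * (I1 + κ) ^ 2 := by
    rw [← mul_pow]
    exact pow_le_pow_left₀ hs20 hs2 2
  rw [hint] at hpt
  refine hpt.trans ?_
  have hfin : 3 * Nrm D T * ((1 + k ^ 2) * (I2 + κ) + 2 * (k ^ 2 * (I1 + κ) ^ 2)) * 2 +
      2 * κ ^ 2 * Nrm D T ≤ A * Nrm D T := by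
    have : (6 * ((1 + k ^ 2) * (I2 + κ) + 2 * k ^ 2 * (I1 + κ) ^ 2) + 2 * κ ^ 2) * Nrm D T ≤
        A * Nrm D T := mul_le_mul_of_nonneg_right hκA.le hN.le
    linarith
  have h8 : ∫ t : ℝ, ww (T ^ a' * Real.log T) T t0 t * (‖Amp D T t‖ ^ 2 * (X t - μ) ^ 2) ≤
      3 * Nrm D T * ((1 + k ^ 2) * (I2 + κ) + 2 * (k ^ 2 * (I1 + κ) ^ 2)) := by
    refine hvar.trans ?_
    gcongr
  have h9 : 2 * κ ^ 2 * Sig D T ≤ 2 * κ ^ 2 * Nrm D T :=
    mul_le_mul_of_nonneg_left hSig (by positivity)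
  linarith

end Pool.Agent.PF
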