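import Pool.Agent.PF.AAW
import Pool.Agent.PF.Stat

set_option autoImplicit false

/-!
# The weight of the resonator and the statistics in almost all windows
-/

namespace Pool.Agent.PF.AAW

open MeasureTheory Finset Pool.Agent.ZGap.Res Pool.Agent.TypBlk Pool.Agent.TypBlk.ExpAux
  Pool.Agent.PF.Var

/-! ### The sizes of the coefficients -/

section

variable {I : Finset ℕ}

/-- The weight of an exponent. -/
def wt (j : ZMod 5) : ℕ := pe j + ne j

lemma wt_zero : wt 0 = 0 := by decide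

lemma wt_one_le : ∀ j : ZMod 5, j ≠ 0 → 1 ≤ wt j := by decide

lemma wt_step_one : ∀ j : ZMod 5, wt j ≤ wt (j + 1) + 1 := by decide

lemma wt_step_neg : ∀ j : ZMod 5, wt j ≤ wt (j + -1) + 1 := by decide

lemma wt_unit : wt 1 = 1 ∧ wt (-1) = 1 := by decide

lemma size_eq (x : I → ZMod 5) : pos x + neg x = ∑ p : I, (wt (x p) : ℝ) * Real.log (p : ℕ) := by
  unfold pos neg wt
  rw [← sum_add_distrib]
  exact sum_congr rfl fun p _ => by push_cast; ring

lemma om_eq (x : I → ZMod 5) : om x = ∑ p : I, wt (x p) := rfl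

lemma size_shift (x : I → ZMod 5) (p : I) (a : ZMod 5) :
    pos (x + Pi.single p a) + neg (x + Pi.single p a) =
      pos x + neg x + ((wt (x p + a) : ℝ) - wt (x p)) * Real.log (p : ℕ) := by
  rw [pos_shift, neg_shift]
  unfold wt
  push_cast
  ring

lemma om_shift (x : I → ZMod 5) (p : I) (a : ZMod 5) :
    (om (x + Pi.single p a) : ℤ) = om x + ((wt (x p + a) : ℤ) - wt (x p)) := by
  rw [om_eq, om_eq]
  push_cast
  rw [← add_sum_erase _ _ (mem_univ p), ← add_sum_erase _ (fun l : I => (wt (x l) : ℤ))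
    (mem_univ p)]
  have h1 : ∑ l ∈ univ.erase p, (wt ((x + Pi.single p a : I → ZMod 5) l) : ℤ) =
      ∑ l ∈ univ.erase p, (wt (x l) : ℤ) := by
    refine sum_congr rfl fun l hl => ?_
    rw [Pi.add_apply, Pi.single_eq_of_ne (ne_of_mem_erase hl), add_zero]
  rw [h1, Pi.add_apply, Pi.single_eq_same]
  ring

lemma card_ne_zero_le (x : I → ZMod 5) : (univ.filter fun p : I => x p ≠ 0).card ≤ om x := by
  rw [om_eq, card_eq_sum_ones, sum_filter]
  refine sum_le_sum fun p _ => ?_
  split_ifs with h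
  · exact wt_one_le _ h
  · exact Nat.zero_le _

/-- The state is bounded by the square root of the size. -/
lemma psi_le {c : ℂ} {R s : ℝ} (hR : 0 ≤ R) (hs : 0 ≤ s) (h : ‖c‖ ≤ R * s) (j : ZMod 5) :
    ‖psi c j‖ ≤ (R * s) ^ wt j := by
  have h0 : 0 ≤ R * s := mul_nonneg hR hs
  by_cases h3 : psi c j = 0
  · rw [h3, norm_zero]
    exact pow_nonneg h0 _
  rcases psi_ne h3 with rfl | rfl | rfl
  · rw [psi_0, wt_zero, pow_zero, norm_one]
  · rw [psi_1, wt_unit.1, pow_one]
    exact h
  · have e : psi c (-1) = starRingEnd ℂ c := psi_4 c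
    rw [e, wt_unit.2, pow_one, RCLike.norm_conj]
    exact h

lemma Psi_le (hI : ∀ p ∈ I, p.Prime) {c : ℕ → ℂ} {R : ℝ} (hR : 0 ≤ R)
    (hc : ∀ p ∈ I, ‖c p‖ ≤ R * Real.exp (-Real.log p / 2)) (x : I → ZMod 5) :
    ‖Psi (fun p : I => c p) x‖ ≤ R ^ om x * Real.exp (-(pos x + neg x) / 2) := by
  unfold Psi prodv
  rw [norm_prod]
  calc ∏ p : I, ‖psi (c p) (x p)‖ ≤ ∏ p : I, (R * Real.exp (-Real.log (p : ℕ) / 2)) ^ wt (x p) :=
        prod_le_prod (fun _ _ => norm_nonneg _)
          fun p _ => psi_le hR (Real.exp_pos _).le (hc p p.2) (x p)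
    _ = R ^ om x * Real.exp (-(pos x + neg x) / 2) := by
        simp_rw [mul_pow]
        rw [prod_mul_distrib, prod_pow_eq_pow_sum, ← om_eq, size_eq]
        congr 1
        simp_rw [← Real.exp_nat_mul]
        rw [← Real.exp_sum]
        congr 1
        rw [neg_div, sum_div, ← sum_neg_distrib]
        exact sum_congr rfl fun p _ => by ring

/-- The vectors which occur. -/
structure Good (v : (I → ZMod 5) → ℂ) (M C : ℝ) (N : ℕ) : Prop where
  sup : ∀ x, v x ≠ 0 → pos x ≤ M ∧ neg x ≤ M ∧ om x ≤ N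
  le : ∀ x, ‖v x‖ ≤ C * Real.exp (-(pos x + neg x) / 2)

lemma Good.mono {v : (I → ZMod 5) → ℂ} {M M' C C' : ℝ} {N N' : ℕ} (h : Good v M C N)
    (hM : M ≤ M') (hC : C ≤ C') (hN : N ≤ N') : Good v M' C' N' :=
  ⟨fun x hx => ⟨(h.sup x hx).1.trans hM, (h.sup x hx).2.1.trans hM, (h.sup x hx).2.2.trans hN⟩,
    fun x => (h.le x).trans (mul_le_mul_of_nonneg_right hC (Real.exp_pos _).le)⟩

lemma Good.sub_smul {v w : (I → ZMod 5) → ℂ} {M C C' : ℝ} {N : ℕ} (hv : Good v M C N)
    (hw : Good w M C' N) (m : ℂ) : Good (fun x => v x - m * w x) M (C + ‖m‖ * C') N := by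
  refine ⟨fun x hx => ?_, fun x => ?_⟩
  · by_cases h : v x = 0
    · refine hw.sup x fun h' => hx ?_
      rw [h, h', mul_zero, sub_zero]
    · exact hv.sup x h
  · calc ‖v x - m * w x‖ ≤ ‖v x‖ + ‖m * w x‖ := norm_sub_le _ _
      _ ≤ C * Real.exp (-(pos x + neg x) / 2) + ‖m‖ * (C' * Real.exp (-(pos x + neg x) / 2)) := by
          rw [norm_mul]
          exact add_le_add (hv.le x) (mul_le_mul_of_nonneg_left (hw.le x) (norm_nonneg _))
      _ = _ := by ring

/-- The state of the resonator is good. -/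
lemma good_vv (hI : ∀ p ∈ I, p.Prime) {c : ℕ → ℂ} {Φ : ℝ → ℝ} {M R E : ℝ} {N : ℕ} (hM : 0 < M)
    (hR : 1 ≤ R) (hE : 0 < E) (hN : 2 * M ≤ N * E)
    (hc : ∀ p ∈ I, ‖c p‖ ≤ R * Real.exp (-Real.log p / 2))
    (hcE : ∀ p ∈ I, c p ≠ 0 → E ≤ Real.log p)
    (hΦ1 : ∀ u, 0 ≤ u → |Φ u| ≤ 1) (hΦ0 : ∀ u, 1 ≤ u → Φ u = 0) :
    Good (vv (I := I) c Φ M) M (R ^ N) N := by
  have hsup : ∀ x, vv (I := I) c Φ M x ≠ 0 → pos x ≤ M ∧ neg x ≤ M ∧ om x ≤ N := by
    intro x hx
    have h1 : pos x ≤ M := by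
      by_contra hcon
      rw [not_le] at hcon
      refine hx ?_
      unfold vv prf
      rw [hΦ0 (pos x / M) ((one_le_div hM).mpr hcon.le)]
      simp
    have h2 : neg x ≤ M := by
      by_contra hcon
      rw [not_le] at hcon
      refine hx ?_
      unfold vv prf
      rw [hΦ0 (neg x / M) ((one_le_div hM).mpr hcon.le)]
      simp
    refine ⟨h1, h2, ?_⟩
    have h3 : (om x : ℝ) * E ≤ pos x + neg x := by
      rw [size_eq, om_eq]
      push_cast
      rw [sum_mul]
      refine sum_le_sum fun p _ => ?_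
      by_cases h4 : x p = 0
      · rw [h4, wt_zero]
        simp
      · refine mul_le_mul_of_nonneg_left (hcE p p.2 fun h5 => ?_) (Nat.cast_nonneg _)
        refine hx ?_
        unfold vv
        have h6 : Psi (fun p : I => c p) x = 0 := by
          unfold Psi prodv
          refine prod_eq_zero (mem_univ p) ?_
          beta_reduce
          rw [h5]
          unfold psi
          rw [if_neg h4]
          split_ifs
          · rfl
          · rw [map_zero]
          · rfl
        rw [h6, mul_zero]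
    have h7 : (om x : ℝ) * E ≤ N * E := by linarith
    have h8 : (om x : ℝ) ≤ N := le_of_mul_le_mul_right h7 hE
    exact_mod_cast h8
  refine ⟨hsup, fun x => ?_⟩
  by_cases hx : vv (I := I) c Φ M x = 0
  · rw [hx, norm_zero]
    positivity
  have h1 := Psi_le hI (by linarith) hc x
  have h2 : ‖vv (I := I) c Φ M x‖ ≤ ‖Psi (fun p : I => c p) x‖ := by
    unfold vv prf
    rw [norm_mul, Complex.norm_real, Real.norm_eq_abs]
    refine mul_le_of_le_one_left (norm_nonneg _) ?_
    rw [abs_mul]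
    exact mul_le_one₀ (hΦ1 _ (div_nonneg (pos_nonneg x) hM.le)) (abs_nonneg _)
      (hΦ1 _ (div_nonneg (neg_nonneg x) hM.le))
  refine (h2.trans h1).trans (mul_le_mul_of_nonneg_right ?_ (Real.exp_pos _).le)
  exact pow_le_pow_right₀ hR (hsup x hx).2.2

/-- The prime sum applied to a good vector is good. -/
lemma good_opX (hI : ∀ p ∈ I, p.Prime) {v : (I → ZMod 5) → ℂ} {M C B Mb Q : ℝ} {N : ℕ}
    (hv : Good v M C N) (hC : 0 ≤ C) (hMb : 0 ≤ Mb) {J : Finset I}
    (hvs : ∀ x, v x ≠ 0 → ∀ p, x p = 0 ∨ x p = 1 ∨ x p = -1)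
    (hvJ : ∀ x, v x ≠ 0 → ∀ p, x p ≠ 0 → p ∈ J)
    {b : ℕ → ℂ} (hb : ∀ p ∈ I, ‖b p‖ ≤ Mb * Real.exp (-Real.log p / 2))
    (hbB : ∀ p ∈ I, B < Real.log p → b p = 0)
    (hQ : ∑ p ∈ J, Real.exp (-Real.log (p : ℕ)) ≤ Q) :
    Good (opX (fun p : I => b p) v) (M + B) (Mb * C * (Q + (N + 1 : ℕ))) (N + 1) := by
  have hQ0 : 0 ≤ Q := le_trans (sum_nonneg fun _ _ => (Real.exp_pos _).le) hQ
  have hsgn : ∀ a : ZMod 5, (a = 1 ∨ a = -1) → ∀ x : I → ZMod 5, ∀ p : I, b p ≠ 0 →
      v (x + Pi.single p a) ≠ 0 → pos x ≤ M + B ∧ neg x ≤ M + B ∧ om x ≤ N + 1 := by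
    intro a ha x p hbp hx
    have hlB : Real.log (p : ℕ) ≤ B := by
      by_contra hcon
      rw [not_le] at hcon
      exact hbp (hbB p p.2 hcon)
    obtain ⟨h1, h2, h2'⟩ := hv.sup _ hx
    have h3 := hvs _ hx p
    have h4 : |pos x - pos (x + Pi.single p a)| + |neg x - neg (x + Pi.single p a)| =
        Real.log (p : ℕ) := by
      rcases ha with rfl | rfl
      · have := (shift_neg h3).2
        rwa [add_assoc, ← Pi.single_add, add_neg_cancel, Pi.single_zero, add_zero] at this
      · have := (shift_one h3).2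
        rwa [add_assoc, ← Pi.single_add, neg_add_cancel, Pi.single_zero, add_zero] at this
    have h6 := le_abs_self (pos x - pos (x + Pi.single p a))
    have h7 := le_abs_self (neg x - neg (x + Pi.single p a))
    have h8 := abs_nonneg (pos x - pos (x + Pi.single p a))
    have h9 := abs_nonneg (neg x - neg (x + Pi.single p a))
    have h10 := om_shift x p a
    have h11 : wt (x p) ≤ wt (x p + a) + 1 := by
      rcases ha with rfl | rfl
      · exact wt_step_one _
      · exact wt_step_neg _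
    refine ⟨by linarith, by linarith, by omega⟩
  refine ⟨fun x hx => ?_, fun x => ?_⟩
  · by_contra hcon
    refine hx ?_
    unfold opX
    refine sum_eq_zero fun p _ => ?_
    beta_reduce
    by_cases hbp : b p = 0
    · rw [hbp, map_zero, zero_mul, zero_mul, add_zero, zero_div]
    have h3 : v (x + Pi.single p (-1)) = 0 := by
      by_contra h0
      exact hcon (hsgn (-1) (Or.inr rfl) x p hbp h0)
    have h4 : v (x + Pi.single p 1) = 0 := by
      by_contra h0
      exact hcon (hsgn 1 (Or.inl rfl) x p hbp h0)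
    rw [h3, h4, mul_zero, mul_zero, add_zero, zero_div]
  · by_cases hx0 : opX (fun p : I => b p) v x = 0
    · rw [hx0, norm_zero]
      positivity
    have hom : om x ≤ N + 1 := by
      by_contra hcon
      refine hx0 ?_
      unfold opX
      refine sum_eq_zero fun p _ => ?_
      beta_reduce
      by_cases hbp : b p = 0
      · rw [hbp, map_zero, zero_mul, zero_mul, add_zero, zero_div]
      have h3 : v (x + Pi.single p (-1)) = 0 := by
        by_contra h0
        exact hcon (hsgn (-1) (Or.inr rfl) x p hbp h0).2.2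
      have h4 : v (x + Pi.single p 1) = 0 := by
        by_contra h0
        exact hcon (hsgn 1 (Or.inl rfl) x p hbp h0).2.2
      rw [h3, h4, mul_zero, mul_zero, add_zero, zero_div]
    set W := Real.exp (-(pos x + neg x) / 2) with hW
    have hW0 : 0 < W := Real.exp_pos _
    -- one term
    have hterm : ∀ a : ZMod 5, (a = 1 ∨ a = -1) → ∀ p : I,
        ‖b p‖ * ‖v (x + Pi.single p a)‖ ≤ Mb * C * W *
          ((if p ∈ J then Real.exp (-Real.log (p : ℕ)) else 0) + if x p ≠ 0 then 1 else 0) := by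
      intro a ha p
      have hlp := log_nat_nonneg (p : ℕ)
      have hb1 := hb p p.2
      have hJ0 : 0 ≤ (if p ∈ J then Real.exp (-Real.log (p : ℕ)) else 0) := by
        split_ifs
        · exact (Real.exp_pos _).le
        · exact le_rfl
      by_cases hz : v (x + Pi.single p a) = 0
      · rw [hz, norm_zero, mul_zero]
        have : (0:ℝ) ≤ if x p ≠ 0 then 1 else 0 := by
          split_ifs <;> norm_num
        positivity
      have h1 := hv.le (x + Pi.single p a)
      have h2 := size_shift x p a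
      by_cases hxp : x p = 0
      · have hzp : (x + Pi.single p a : I → ZMod 5) p = a := by
          rw [Pi.add_apply, Pi.single_eq_same, hxp, zero_add]
        have ha0 : a ≠ 0 := by
          rcases ha with rfl | rfl
          · decide
          · decide
        have hpJ : p ∈ J := hvJ _ hz p (by rw [hzp]; exact ha0)
        rw [if_pos hpJ, if_neg (by rw [not_not]; exact hxp), add_zero]
        have hwa : wt a = 1 := by
          rcases ha with rfl | rfl
          · exact wt_unit.1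
          · exact wt_unit.2
        rw [hxp, zero_add, hwa, wt_zero] at h2
        have h3 : Real.exp (-(pos (x + Pi.single p a) + neg (x + Pi.single p a)) / 2) =
            W * Real.exp (-Real.log (p : ℕ) / 2) := by
          rw [h2, hW, ← Real.exp_add]
          congr 1
          push_cast
          ring
        rw [h3] at h1
        calc ‖b p‖ * ‖v (x + Pi.single p a)‖ ≤ (Mb * Real.exp (-Real.log (p : ℕ) / 2)) *
              (C * (W * Real.exp (-Real.log (p : ℕ) / 2))) :=
              mul_le_mul hb1 h1 (norm_nonneg _) (by positivity)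
          _ = Mb * C * W * (Real.exp (-Real.log (p : ℕ) / 2) *
              Real.exp (-Real.log (p : ℕ) / 2)) := by ring
          _ = _ := by
              rw [← Real.exp_add]
              congr 2
              ring
      · rw [if_pos hxp]
        have h11 : wt (x p) ≤ wt (x p + a) + 1 := by
          rcases ha with rfl | rfl
          · exact wt_step_one _
          · exact wt_step_neg _
        have h12 : (wt (x p) : ℝ) ≤ wt (x p + a) + 1 := by exact_mod_cast h11
        have h3 : Real.exp (-(pos (x + Pi.single p a) + neg (x + Pi.single p a)) / 2) ≤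
            W * Real.exp (Real.log (p : ℕ) / 2) := by
          rw [h2, hW, ← Real.exp_add]
          apply Real.exp_le_exp.mpr
          nlinarith
        have h4 : C * Real.exp (-(pos (x + Pi.single p a) + neg (x + Pi.single p a)) / 2) ≤
            C * (W * Real.exp (Real.log (p : ℕ) / 2)) := mul_le_mul_of_nonneg_left h3 hC
        calc ‖b p‖ * ‖v (x + Pi.single p a)‖ ≤ (Mb * Real.exp (-Real.log (p : ℕ) / 2)) *
              (C * (W * Real.exp (Real.log (p : ℕ) / 2))) :=
              mul_le_mul hb1 (h1.trans h4) (norm_nonneg _) (by positivity)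
          _ = Mb * C * W * (Real.exp (-Real.log (p : ℕ) / 2) *
              Real.exp (Real.log (p : ℕ) / 2)) := by ring
          _ = Mb * C * W * 1 := by
              rw [← Real.exp_add]
              have : -Real.log (p : ℕ) / 2 + Real.log (p : ℕ) / 2 = 0 := by ring
              rw [this, Real.exp_zero]
          _ ≤ _ := mul_le_mul_of_nonneg_left (by linarith) (by positivity)
    unfold opX
    refine (norm_sum_le _ _).trans ?_
    calc ∑ p : I, ‖(b p * v (x + Pi.single p (-1)) +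
          starRingEnd ℂ (b p) * v (x + Pi.single p 1)) / 2‖ ≤
        ∑ p : I, Mb * C * W *
          ((if p ∈ J then Real.exp (-Real.log (p : ℕ)) else 0) + if x p ≠ 0 then 1 else 0) := by
          refine sum_le_sum fun p _ => ?_
          rw [norm_div, Complex.norm_ofNat]
          have h1 := hterm (-1) (Or.inr rfl) p
          have h2 := hterm 1 (Or.inl rfl) p
          have h3 := norm_add_le (b p * v (x + Pi.single p (-1)))
            (starRingEnd ℂ (b p) * v (x + Pi.single p 1))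
          rw [norm_mul, norm_mul, RCLike.norm_conj] at h3
          linarith
      _ = Mb * C * W * ((∑ p ∈ J, Real.exp (-Real.log (p : ℕ))) +
          ((univ.filter fun p : I => x p ≠ 0).card : ℝ)) := by
          rw [← mul_sum, sum_add_distrib]
          congr 2
          · rw [sum_ite_mem, univ_inter]
          · rw [card_eq_sum_ones, sum_filter]
            push_cast
            rfl
      _ ≤ Mb * C * W * (Q + (N + 1 : ℕ)) := by
          refine mul_le_mul_of_nonneg_left (add_le_add hQ ?_) (by positivity)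
          exact_mod_cast (card_ne_zero_le x).trans hom
      _ = _ := by ring

end

end Pool.Agent.PF.AAW

namespace Pool.Agent.PF.AAW

open MeasureTheory Set

/-- **Chebyshev.** -/
lemma exc_set {δ κ : ℝ} (hδ : 0 < δ) (hκ : 0 < κ) : ∃ T0 : ℝ, 1 ≤ T0 ∧ ∀ T : ℝ, T0 ≤ T →
    ∀ f : ℝ → ℝ, Continuous f → ∀ S : ℝ, ∫ t0 in T..(2 * T), (f t0 - S) ^ 2 ≤ T ^ (1 - δ) →
      ∃ E : Set ℝ, MeasurableSet E ∧ E ⊆ Icc T (2 * T) ∧ volume.real E ≤ T ^ (1 - δ / 2) ∧
        ∀ t0 ∈ Icc T (2 * T), t0 ∉ E → |f t0 - S| ≤ κ := by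
  obtain ⟨T1, hT1⟩ := Filter.eventually_atTop.mp
    ((tendsto_rpow_atTop (show 0 < δ / 2 by positivity)).eventually_ge_atTop (1 / κ ^ 2))
  refine ⟨max T1 1, le_max_right _ _, fun T hT f hf S hS => ?_⟩
  have h1T : 1 ≤ T := (le_max_right _ _).trans hT
  have hTp : 0 < T := by linarith
  have h2 := hT1 T ((le_max_left _ _).trans hT)
  refine ⟨{t | κ < |f t - S|} ∩ Icc T (2 * T), ?_, inter_subset_right, ?_, ?_⟩
  · exact (measurableSet_lt measurable_const (by fun_prop)).inter measurableSet_Icc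
  · set E := {t | κ < |f t - S|} ∩ Icc T (2 * T) with hE
    have hEm : MeasurableSet E :=
      (measurableSet_lt measurable_const (by fun_prop)).inter measurableSet_Icc
    have hEfin : volume E ≠ ⊤ :=
      ne_top_of_le_ne_top (by rw [Real.volume_Icc]; exact ENNReal.ofReal_ne_top)
        (measure_mono inter_subset_right)
    have hi : IntegrableOn (fun t => (f t - S) ^ 2) (Icc T (2 * T)) :=
      (by fun_prop : Continuous fun t => (f t - S) ^ 2).integrableOn_Icc
    have h3 : κ ^ 2 * volume.real E ≤ T ^ (1 - δ) := by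
      calc κ ^ 2 * volume.real E = ∫ _ in E, κ ^ 2 := by
            rw [setIntegral_const, smul_eq_mul, mul_comm]
        _ ≤ ∫ t in E, (f t - S) ^ 2 := by
            refine setIntegral_mono_on (integrableOn_const hEfin)
              (hi.mono_set inter_subset_right) hEm fun t ht => ?_
            rw [← sq_abs (f t - S)]
            exact pow_le_pow_left₀ hκ.le (le_of_lt ht.1) 2
        _ ≤ ∫ t in Icc T (2 * T), (f t - S) ^ 2 :=
            setIntegral_mono_set hi (Filter.Eventually.of_forall fun t => sq_nonneg _)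
              (Filter.Eventually.of_forall inter_subset_right)
        _ = ∫ t in T..(2 * T), (f t - S) ^ 2 := by
            rw [integral_Icc_eq_integral_Ioc, intervalIntegral.integral_of_le (by linarith)]
        _ ≤ _ := hS
    have hκ2 : 0 < κ ^ 2 := by positivity
    have h4 : T ^ (1 - δ) = T ^ (1 - δ / 2) * T ^ (-(δ / 2)) := by
      rw [← Real.rpow_add hTp]
      congr 1
      ring
    have h5 : T ^ (-(δ / 2)) ≤ κ ^ 2 := by
      rw [Real.rpow_neg hTp.le, inv_le_comm₀ (Real.rpow_pos_of_pos hTp _) hκ2]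
      rwa [← one_div]
    have h6 : 0 < T ^ (1 - δ / 2) := Real.rpow_pos_of_pos hTp _
    have h7 : κ ^ 2 * volume.real E ≤ κ ^ 2 * T ^ (1 - δ / 2) := by
      calc _ ≤ _ := h3
        _ = _ := h4
        _ ≤ T ^ (1 - δ / 2) * κ ^ 2 := mul_le_mul_of_nonneg_left h5 h6.le
        _ = _ := by ring
    exact le_of_mul_le_mul_left h7 hκ2
  · intro t ht htE
    by_contra hcon
    exact htE ⟨not_le.mp hcon, ht⟩

end Pool.Agent.PF.AAW

namespace Pool.Agent.PF

open MeasureTheory Pool.Agent.ZGap.Res Pool.Agent.TypBlk Pool.Agent.TypBlk.ExpAux AAW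

/-- The number of prime factors. -/
noncomputable def NN (D : CData) : ℕ := ⌈2 * D.th / D.ep⌉₊

/-- The size of the coefficients. -/
noncomputable def RR (D : CData) : ℝ := max 1 |D.r|

lemma sqrt_eq_exp {p : ℕ} (hp : 0 < p) : (Real.sqrt p)⁻¹ = Real.exp (-Real.log p / 2) := by
  have hp' : (0:ℝ) < p := by exact_mod_cast hp
  rw [Real.sqrt_eq_rpow, Real.rpow_def_of_pos hp', ← Real.exp_neg]
  congr 1
  ring

/-- The state is good. -/
lemma good_state (D : CData) (hF : ∀ y, 0 ≤ y → D.F y ≤ 1) {T : ℝ} (hT : 1 < T) :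
    Good (Var.vv (I := PP T) (cc D T) D.F (D.th * Real.log T)) (D.th * Real.log T)
      (RR D ^ NN D) (NN D) := by
  have hL : 0 < Real.log T := Real.log_pos hT
  have hep := D.ep_pos
  have hth : 0 < D.th := by linarith [D.ep_th]
  refine good_vv (E := D.ep * Real.log T) prime_PP (by positivity) (le_max_left _ _)
    (by positivity) ?_ ?_ ?_ (fun u hu => ?_) D.F_one
  · have h1 : 2 * D.th / D.ep ≤ NN D := Nat.le_ceil _
    rw [div_le_iff₀ hep] at h1
    nlinarith
  · intro p hp
    have hp0 : 0 < p := (mem_PP.mp hp).1.pos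
    rw [norm_cc, div_eq_mul_inv, sqrt_eq_exp hp0]
    refine mul_le_mul_of_nonneg_right ?_ (Real.exp_pos _).le
    calc |D.r| * ‖D.v (Real.log p / Real.log T)‖ ≤ |D.r| * 1 :=
          mul_le_mul_of_nonneg_left (D.v_le _) (abs_nonneg _)
      _ = |D.r| := mul_one _
      _ ≤ RR D := le_max_right _ _
  · intro p hp hne
    by_contra hcon
    refine hne ?_
    unfold cc
    rw [D.v_low _ ((div_le_iff₀ hL).mpr (not_le.mp hcon).le)]
    simp
  · rw [abs_of_nonneg (D.F_nonneg u)]
    exact hF u hu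

/-- **The weight of the resonator in almost all windows.** -/
theorem amp_aa (D : CData) (hF : ∀ y, 0 ≤ y → D.F y ≤ 1) {a' : ℝ} (ha' : 0 < a')
    (h4 : 4 * D.th < 1 + a') {κ : ℝ} (hκ : 0 < κ) :
    ∃ c T0 : ℝ, 0 < c ∧ ∀ T, T0 ≤ T → ∃ E : Set ℝ, MeasurableSet E ∧ E ⊆ Set.Icc T (2 * T) ∧
      volume.real E ≤ T ^ (1 - c) ∧ ∀ t0 ∈ Set.Icc T (2 * T), t0 ∉ E →
        |(∫ t : ℝ, ww (T ^ a' * Real.log T) T t0 t * ‖Amp D T t‖ ^ 2) - Sig D T| ≤ κ := by
  have hth : 0 < D.th := by linarith [D.ep_pos, D.ep_th]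
  obtain ⟨δ, hδ, T1, hT1, h1⟩ := aaw ha' hth D.th_lt h4 (NN D) (C0 := RR D ^ NN D)
    (pow_nonneg (le_trans zero_le_one (le_max_left _ _)) _)
  obtain ⟨T2, hT2, h2⟩ := exc_set hδ hκ
  refine ⟨δ / 2, max T1 T2, by positivity, fun T hT => ?_⟩
  have hTT1 : T1 ≤ T := (le_max_left _ _).trans hT
  have h1T : 1 < T := lt_of_lt_of_le (Real.one_lt_exp_iff.mpr (by norm_num)) (hT1.trans hTT1)
  have hg := good_state D hF h1T
  obtain ⟨hc, hm⟩ := h1 T hTT1 (PP T) prime_PP _ hg.sup hg.le
  have e1 : ∀ t, Var.poly (Var.vv (I := PP T) (cc D T) D.F (D.th * Real.log T)) t = Amp D T t := by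
    intro t
    rw [Amp_eq_G, Var.GAmp_eq]
  have e2 : ∑ x, ‖Var.vv (I := PP T) (cc D T) D.F (D.th * Real.log T) x‖ ^ 2 = Sig D T := by
    rw [← Sig_eq_G, Var.GSig_eq]
  simp_rw [e1] at hc hm
  rw [e2] at hm
  exact h2 T ((le_max_right _ _).trans hT) _ hc _ hm

/-- The coefficients of a statistic are small. -/
lemma norm_bG_le {G : ℝ → ℂ} {M T : ℝ} (hM : ∀ x, ‖G x‖ ≤ M) (hT : 1 < T) {p : ℕ}
    (hp : p ∈ PP T) : ‖bG G T p‖ ≤ M * Real.exp (-Real.log p / 2) := by
  have hL : 0 < Real.log T := Real.log_pos hT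
  have hM0 : 0 ≤ M := (norm_nonneg _).trans (hM 0)
  obtain ⟨hp1, hp2⟩ := mem_PP.1 hp
  have hpT : (p : ℝ) ≤ T := (Nat.le_floor_iff (by linarith)).1 hp2
  have hp0 : (0:ℝ) < p := by exact_mod_cast hp1.pos
  have h1 : 0 ≤ Real.log p / Real.log T := div_nonneg (Real.log_natCast_nonneg p) hL.le
  have h2 : Real.log p / Real.log T ≤ 1 := (div_le_one hL).2 (Real.log_le_log hp0 hpT)
  unfold bG
  rw [norm_div, norm_mul, Complex.norm_real, Complex.norm_real, Real.norm_eq_abs,
    Real.norm_eq_abs, abs_of_nonneg h1, abs_of_nonneg (Real.sqrt_nonneg _), div_eq_mul_inv,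
    sqrt_eq_exp hp1.pos]
  refine mul_le_mul_of_nonneg_right ?_ (Real.exp_pos _).le
  calc Real.log p / Real.log T * ‖G (Real.log p / Real.log T)‖ ≤ 1 * M :=
        mul_le_mul h2 (hM _) (norm_nonneg _) zero_le_one
    _ = M := one_mul _

/-- The reciprocals of the primes of the resonator. -/
lemma sum_inv_le (D : CData) {T : ℝ} (hT : Real.exp 2 ≤ T) :
    ∑ p ∈ Finset.univ.filter (fun p : PP T => cc D T p ≠ 0), Real.exp (-Real.log (p : ℕ)) ≤
      4 / D.ep := by
  classical
  have hT0 : 0 < T := (Real.exp_pos _).trans_le hT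
  have hL2 : 2 ≤ Real.log T := by rw [Real.le_log_iff_exp_le hT0]; exact hT
  have hL : 0 < Real.log T := by linarith
  have hT1 : 1 < T := by
    have := Real.add_one_le_exp (2:ℝ); linarith
  have hfl : 1 ≤ ⌊T⌋₊ := Nat.le_floor (by push_cast; linarith)
  have h1 := Pool.Agent.DirPoly.sum_log_div_le hfl
  have hlog : Real.log ⌊T⌋₊ ≤ Real.log T :=
    Real.log_le_log (by exact_mod_cast hfl) (Nat.floor_le hT0.le)
  have hl4 : Real.log 4 ≤ 2 := by
    have : Real.log 4 = 2 * Real.log 2 := by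
      rw [show (4 : ℝ) = 2 ^ 2 by norm_num, Real.log_pow]; norm_num
    have := Real.log_two_lt_d9
    linarith
  have hep := D.ep_pos
  calc ∑ p ∈ Finset.univ.filter (fun p : PP T => cc D T p ≠ 0), Real.exp (-Real.log (p : ℕ)) ≤
      ∑ p : PP T, 1 / (D.ep * Real.log T) * (Real.log (p : ℕ) / (p : ℕ)) := by
        rw [Finset.sum_filter]
        refine Finset.sum_le_sum fun p _ => ?_
        have hp := (mem_PP.mp p.2).1
        have hp0 : (0:ℝ) < ((p : ℕ) : ℝ) := by exact_mod_cast hp.pos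
        have hlp := Real.log_natCast_nonneg (p : ℕ)
        split_ifs with h
        · have h2 : D.ep * Real.log T < Real.log (p : ℕ) := by
            by_contra hcon
            refine h ?_
            unfold cc
            rw [D.v_low _ ((div_le_iff₀ hL).mpr (not_lt.mp hcon))]
            simp
          rw [Real.exp_neg, Real.exp_log hp0]
          have h3 : 1 ≤ Real.log (p : ℕ) / (D.ep * Real.log T) := by
            rw [le_div_iff₀ (by positivity)]
            linarith
          calc ((p : ℕ) : ℝ)⁻¹ = 1 * ((p : ℕ) : ℝ)⁻¹ := (one_mul _).symm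
            _ ≤ Real.log (p : ℕ) / (D.ep * Real.log T) * ((p : ℕ) : ℝ)⁻¹ :=
                mul_le_mul_of_nonneg_right h3 (by positivity)
            _ = _ := by ring
        · positivity
    _ = 1 / (D.ep * Real.log T) * ∑ p ∈ PP T, (Real.log p / p) := by
        rw [← Finset.mul_sum, ← Finset.sum_coe_sort (PP T)]
    _ ≤ 1 / (D.ep * Real.log T) * (2 * (2 * Real.log T)) := by
        gcongr
        refine h1.trans ?_
        gcongr
        linarith
    _ = 4 / D.ep := by
        field_simp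
        ring

/-- **The second moment of a statistic in almost all windows.** -/
theorem stat_aa (D : CData) {K : ℝ} (hK : 0 ≤ K) (hF : ∀ y, 0 ≤ y → D.F y ≤ 1)
    (hlip : ∀ y z, 0 ≤ y → 0 ≤ z → |D.F y - D.F z| ≤ K * |y - z|) {G : ℝ → ℂ} {b : ℝ}
    (hb0 : 0 < b) (hb : b < 1) (hG : GOK G b) {a' : ℝ} (ha' : 0 < a') (ha1 : a' < 1)
    (h4 : 4 * (D.th + b) < 1 + a') {A : ℝ}
    (hA : 6 * ((1 + (K / D.th) ^ 2) * (∫ u in (0:ℝ)..1, u * ‖G u‖ ^ 2) +
      2 * (K / D.th) ^ 2 * (∫ u in (0:ℝ)..1, u * ‖G u‖ * ‖(D.r : ℂ) * D.v u‖) ^ 2) < A) :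
    ∃ c T0 : ℝ, 0 < c ∧ ∀ T, T0 ≤ T → ∃ E : Set ℝ, MeasurableSet E ∧ E ⊆ Set.Icc T (2 * T) ∧
      volume.real E ≤ T ^ (1 - c) ∧ ∀ t0 ∈ Set.Icc T (2 * T), t0 ∉ E →
        ∫ t : ℝ, ww (T ^ a' * Real.log T) T t0 t *
          (‖Amp D T t‖ ^ 2 * (Var.XB (PP T) (bG G T) t - mG D G) ^ 2) ≤ A * Nrm D T := by
  classical
  have hth : 0 < D.th := by linarith [D.ep_pos, D.ep_th]
  obtain ⟨A1, hA1, hA2⟩ := exists_between hA
  obtain ⟨M, hM⟩ := hG.bd
  have hM0 : 0 ≤ M := (norm_nonneg _).trans (hM 0)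
  set C1 : ℝ := RR D ^ NN D with hC1
  have hR1 : 1 ≤ RR D := le_max_left _ _
  have hC10 : 0 ≤ C1 := pow_nonneg (by linarith) _
  set C2 : ℝ := M * C1 * (4 / D.ep + (NN D + 1 : ℕ)) + ‖((mG D G : ℝ) : ℂ)‖ * C1 with hC2
  have hep := D.ep_pos
  have hC20 : 0 ≤ C2 := by positivity
  obtain ⟨δ, hδ, T1, hT1, h1⟩ := aaw ha' (by linarith : 0 < D.th + b) (by linarith) h4
    (NN D + 1) hC20
  obtain ⟨T2, hT2, h2⟩ := exc_set hδ (sub_pos.mpr hA2)
  obtain ⟨T3, h3⟩ := stat_bound D hK hF hlip hb0 hb hG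
    (show 2 * (D.th + b) < 2 * (D.th + b) + 1 by linarith) hA1
  refine ⟨δ / 2, max (max T1 T2) (max T3 2), by positivity, fun T hT => ?_⟩
  have hTT1 : T1 ≤ T := (le_max_left _ _).trans ((le_max_left _ _).trans hT)
  have hTT2 : T2 ≤ T := (le_max_right _ _).trans ((le_max_left _ _).trans hT)
  have hTT3 : T3 ≤ T := (le_max_left _ _).trans ((le_max_right _ _).trans hT)
  have h2T : 2 ≤ T := (le_max_right _ _).trans ((le_max_right _ _).trans hT)
  have hTe3 : Real.exp 3 ≤ T := hT1.trans hTT1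
  have hTe : Real.exp 2 ≤ T := (Real.exp_le_exp.mpr (by norm_num)).trans hTe3
  have h1T : 1 < T := by linarith
  have hTp : 0 < T := by linarith
  have hL : 0 < Real.log T := Real.log_pos h1T
  set v : (PP T → ZMod 5) → ℂ := Var.vv (I := PP T) (cc D T) D.F (D.th * Real.log T) with hv
  have hg := good_state D hF h1T
  have hvs : ∀ x, v x ≠ 0 → ∀ p, x p = 0 ∨ x p = 1 ∨ x p = -1 := by
    intro x hx p
    refine Var.Psi_ne (c := fun p : PP T => cc D T p) (fun h0 => hx ?_) p
    rw [hv]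
    unfold Var.vv
    rw [h0, mul_zero]
  have hvJ : ∀ x, v x ≠ 0 → ∀ p, x p ≠ 0 →
      p ∈ Finset.univ.filter (fun p : PP T => cc D T p ≠ 0) := by
    intro x hx p hp
    rw [Finset.mem_filter]
    refine ⟨Finset.mem_univ _, fun h0 => hx ?_⟩
    rw [hv]
    unfold Var.vv
    have h6 : Var.Psi (fun p : PP T => cc D T p) x = 0 := by
      unfold Var.Psi Var.prodv
      refine Finset.prod_eq_zero (Finset.mem_univ p) ?_
      beta_reduce
      rw [h0]
      unfold Var.psi
      rw [if_neg hp]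
      split_ifs
      · rfl
      · rw [map_zero]
      · rfl
    rw [h6, mul_zero]
  have hgX := good_opX (B := b * Real.log T) (b := bG G T) prime_PP hg hC10 hM0 hvs hvJ
    (fun p hp => norm_bG_le hM h1T hp) (fun p _ hp => bG_zero hG hL hp) (sum_inv_le D hTe)
  have hg' : Good v (D.th * Real.log T + b * Real.log T) C1 (NN D + 1) :=
    hg.mono (by nlinarith) le_rfl (Nat.le_succ _)
  have hgy := hgX.sub_smul hg' ((mG D G : ℝ) : ℂ)
  set y : (PP T → ZMod 5) → ℂ := fun x =>
    Var.opX (fun p : PP T => bG G T p) v x - ((mG D G : ℝ) : ℂ) * v x with hy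
  have hsup : ∀ x, y x ≠ 0 → Var.pos x ≤ (D.th + b) * Real.log T ∧
      Var.neg x ≤ (D.th + b) * Real.log T ∧ om x ≤ NN D + 1 := by
    intro x hx
    rw [add_mul]
    exact hgy.sup x hx
  have hpoly : ∀ t, ‖Var.poly y t‖ ^ 2 =
      ‖Amp D T t‖ ^ 2 * (Var.XB (PP T) (bG G T) t - mG D G) ^ 2 := by
    intro t
    rw [hy, ← Var.poly_sub_smul, ← Var.XB_mul_poly (bG G T) v hvs, ← sub_mul, norm_mul, mul_pow,
      Amp_eq_G, Var.GAmp_eq, ← hv, ← Complex.ofReal_sub, Complex.norm_real, Real.norm_eq_abs,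
      sq_abs]
    ring
  -- the sum of the squares
  have hsum : ∑ x, ‖y x‖ ^ 2 ≤ A1 * Nrm D T := by
    have hKw : 2 * T ^ (2 * (D.th + b)) * Real.log T ≤
        T ^ (2 * (D.th + b) + 1) * Real.log T := by
      rw [Real.rpow_add hTp, Real.rpow_one]
      have := Real.rpow_pos_of_pos hTp (2 * (D.th + b))
      refine mul_le_mul_of_nonneg_right ?_ hL.le
      nlinarith
    obtain ⟨hK0, hδ'⟩ := window_le h1T hKw
    have h5 := Var.mean_value (I := PP T) prime_PP (ww_integrable hK0 h1T (t0 := 0))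
      (fun l hl => ww_van hK0 h1T hl) hδ' y (fun x hx => ⟨(hsup x hx).1, (hsup x hx).2.1⟩)
    rw [int_ww_one hK0 h1T, one_mul] at h5
    rw [← h5]
    simp_rw [hpoly]
    exact h3 T hTT3 0
  obtain ⟨hc, hm⟩ := h1 T hTT1 (PP T) prime_PP y hsup hgy.le
  simp_rw [hpoly] at hc hm
  obtain ⟨E, e1, e2, e3, e4⟩ := h2 T hTT2 _ hc _ hm
  refine ⟨E, e1, e2, e3, fun t0 ht0 htE => ?_⟩
  have h6 := (abs_le.mp (e4 t0 ht0 htE)).2
  have h7 := one_le_Nrm D T
  have h8 : A - A1 ≤ (A - A1) * Nrm D T := le_mul_of_one_le_right (by linarith) h7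
  linarith

end Pool.Agent.PF
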