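import Pool.Agent.PF.Base78
import Pool.Agent.ZetaGaps.Defs

/-!
# Profiles of sums of consecutive gaps: statistics and their symbols
-/

open scoped ContDiff

namespace Pool.Agent.PF

open MeasureTheory Real Set Pool.Agent.ZGap.Res Pool.Agent.ZetaGaps

/-- The coefficients of a statistic. -/
noncomputable def bG (G : ℝ → ℂ) (T : ℝ) (p : ℕ) : ℂ :=
  ((Real.log p / Real.log T : ℝ) : ℂ) * G (Real.log p / Real.log T) / (Real.sqrt p : ℂ)

/-- The limit of its mean. -/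
noncomputable def mG (D : CData) (G : ℝ → ℂ) : ℝ :=
  2 * ∫ u in (0:ℝ)..1, (G u * (starRingEnd ℂ) ((D.r : ℂ) * D.v u)).re

/-- Admissible symbols. -/
structure GOK (G : ℝ → ℂ) (b : ℝ) : Prop where
  lip : ∃ K : ℝ, ∀ x y, ‖G x - G y‖ ≤ K * |x - y|
  bd : ∃ M : ℝ, ∀ x, ‖G x‖ ≤ M
  van : ∀ u, b ≤ u → G u = 0

/-- The Fourier transform of the indicator function of `(0, y]`. -/
noncomputable def ker (y ξ : ℝ) : ℂ :=
  ∫ x in (0:ℝ)..y, Complex.exp (2 * Real.pi * Complex.I * (x * ξ))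

/-- The smooth cutoff of the primes in a window count. -/
noncomputable def wB (b u : ℝ) : ℝ := (max 0 (1 - (u / b) ^ 2)) ^ 2

/-- The symbol of the count in the window `(0, x]`. -/
noncomputable def GI (b x u : ℝ) : ℂ := ((-2 * wB b u : ℝ) : ℂ) * (starRingEnd ℂ) (ker x u)

/-- The symbol of the Fejer count at `s`. -/
noncomputable def GF (b s u : ℝ) : ℂ :=
  ((2 / b * max 0 (1 - |u| / b) : ℝ) : ℂ) * Complex.exp (((-(s * u) : ℝ) : ℂ) * Complex.I)

/-- The centres at which the zeros follow the profile. -/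
def Pf (g : ℝ → ℝ) (r δ T : ℝ) : Set ℝ :=
  {t : ℝ | ∀ x ∈ Set.Icc (0:ℝ) (2 * r),
    |(zeroCount (t + 2 * Real.pi * x / Real.log T) : ℝ) - zeroCount t - x -
      Real.sqrt r * ∫ y in (0:ℝ)..(x / r), g y| ≤ δ * Real.sqrt r}

end Pool.Agent.PF
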