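import Pool.Agent.PF.Choice
import Pool.Agent.PF.Sta

/-! The amplitude of a profile, in the form used by the assembly. -/

open scoped ContDiff

namespace Pool.Agent.PF

open MeasureTheory

theorem ker_eq_eker (y ξ : ℝ) : ker y ξ = eker y ξ := rfl

theorem exists_amp {f : ℝ → ℝ} (hf : ContinuousOn f (Set.Icc 0 1)) {a ε : ℝ} (hε : 0 < ε)
    (hE : ∫ x in (0:ℝ)..1, f x ^ 2 < 4 * a) :
    ∃ th E C : ℝ, 0 < E ∧ E < th ∧ 2 * th < a ∧ ∀ b : ℝ, 0 < b → b ≤ 1 → ∀ A : ℝ, 0 ≤ A →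
      ∃ r0 : ℝ, 1 ≤ r0 ∧ ∀ r : ℝ, r0 ≤ r → ∃ ep0 : ℝ, 0 < ep0 ∧ ∀ ep : ℝ, 0 < ep → ep ≤ ep0 →
        ∃ v : ℝ → ℂ, ContDiff ℝ ∞ v ∧ (∀ u, ‖v u‖ ≤ 1) ∧ (∀ u, u ≤ ep → v u = 0) ∧
          (∀ u, b ≤ u → v u = 0) ∧ r ^ 2 * (∫ u in (0:ℝ)..1, ‖v u‖ ^ 2) ≤ E ∧
          r * Real.sqrt r * (∫ u in (0:ℝ)..1, ‖v u‖) ≤ C ∧
          ∀ w : ℝ → ℝ, Continuous w → (∀ u, 0 ≤ u → |w u| ≤ 1 ∧ |w u - 1| ≤ A * Real.sqrt r * u) →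
            ∀ x ∈ Set.Icc (0:ℝ) r,
              |-4 * r * (∫ u in (0:ℝ)..1, w u * (v u * ker x u).re) -
                Real.sqrt r * ∫ t in (0:ℝ)..(x / r), f t| ≤ ε * Real.sqrt r := by
  obtain ⟨th, E, C, h1, h2, h3, h4⟩ := exists_eamp hf hε hE
  refine ⟨th, E, C, h1, h2, h3, fun b hb hb1 A hA => ?_⟩
  obtain ⟨r0, hr0, h5⟩ := h4 b hb hb1 A hA
  refine ⟨r0, hr0, fun r hr => ?_⟩
  obtain ⟨ep0, hep0, h6⟩ := h5 r hr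
  refine ⟨ep0, hep0, fun ep hep hep1 => ?_⟩
  obtain ⟨v, k1, k2, k3, k4, k5, _, k7, k8⟩ := h6 ep hep hep1
  exact ⟨v, k1, k2, k3, k4, k5, k7, fun w hw hw1 x hx => k8 w hw hw1 x hx.1 hx.2⟩

end Pool.Agent.PF
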