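import Pool.Agent.PF.KerN
import Pool.Agent.ZGap.Res.BumpK

/-!
# Indicators smoothed by a band limited kernel
-/

open scoped ContDiff SchwartzMap

namespace Pool.Agent.PF

open MeasureTheory Real Set Pool.Agent.ZGap Pool.Agent.ZGap.Res

/-- The indicator of `[-q, q]` smoothed by `K`. -/
noncomputable def box (K : ℝ → ℝ) (q y : ℝ) : ℝ := ∫ u in (y - q)..(y + q), K u

lemma contDiff_sinc : ContDiff ℝ ∞ Real.sinc := by
  rw [contDiff_iff_contDiffAt]
  intro x
  by_cases hx : x = 0
  · subst hx
    have h1 : AnalyticAt ℝ Real.sin 0 := Real.analyticAt_sin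
    obtain ⟨p, hp⟩ := h1
    rw [Real.sinc_eq_dslope]
    have h2 : AnalyticAt ℝ (dslope Real.sin 0) 0 := ⟨_, hp.has_fpower_series_dslope_fslope⟩
    exact h2.contDiffAt
  · have h1 : Real.sinc =ᶠ[nhds x] fun y => Real.sin y / y := by
      filter_upwards [isOpen_ne.mem_nhds hx] with y hy
      exact Real.sinc_of_ne_zero hy
    refine ContDiffAt.congr_of_eventuallyEq ?_ h1
    exact Real.contDiff_sin.contDiffAt.div contDiffAt_id hx

lemma chat_ind {q : ℝ} (hq : 0 ≤ q) (ξ : ℝ) :
    chat (indicator (Icc (-q) q) fun _ => 1) ξ = 2 * q * Real.sinc (q * ξ) := by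
  unfold chat
  have h1 : ∀ x : ℝ, (indicator (Icc (-q) q) (fun _ => (1:ℝ)) x) * Real.cos (x * ξ) =
      indicator (Icc (-q) q) (fun x => Real.cos (x * ξ)) x := by
    intro x
    by_cases hx : x ∈ Icc (-q) q
    · rw [indicator_of_mem hx, indicator_of_mem hx, one_mul]
    · rw [indicator_of_notMem hx, indicator_of_notMem hx, zero_mul]
  simp_rw [h1]
  rw [integral_indicator measurableSet_Icc, integral_Icc_eq_integral_Ioc,
    ← intervalIntegral.integral_of_le (by linarith)]
  rcases hq.eq_or_lt with h | h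
  · rw [← h]; simp
  · have hpi := Real.pi_pos
    have h2 := integral_cos_k0 (c := q / π) (by positivity) ξ
    rw [mul_div_cancel₀ _ hpi.ne'] at h2
    rw [h2, k0, mul_div_cancel₀ _ hpi.ne']

variable {K : ℝ → ℝ}

lemma chat_cos (hK : RS K) (y s : ℝ) :
    chat (fun ξ => chat K ξ * Real.cos (ξ * y)) s = π * (K (s - y) + K (s + y)) := by
  have hc := hK.chat
  have h1 : ∀ ξ : ℝ, chat K ξ * Real.cos (ξ * y) * Real.cos (ξ * s) =
      (1 / 2) * (chat K ξ * Real.cos (ξ * (s - y))) +
        (1 / 2) * (chat K ξ * Real.cos (ξ * (s + y))) := by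
    intro ξ
    rw [mul_sub, mul_add, Real.cos_sub, Real.cos_add]
    ring
  have h2 : ∀ z : ℝ, ∫ ξ : ℝ, chat K ξ * Real.cos (ξ * z) = 2 * π * K z := fun z => hK.chat_chat z
  have h3 : chat (fun ξ => chat K ξ * Real.cos (ξ * y)) s =
      ∫ ξ : ℝ, chat K ξ * Real.cos (ξ * y) * Real.cos (ξ * s) := rfl
  rw [h3]
  simp_rw [h1]
  rw [integral_add ((hc.integrable_mul_cos _).const_mul _) ((hc.integrable_mul_cos _).const_mul _),
    MeasureTheory.integral_const_mul, MeasureTheory.integral_const_mul, h2, h2]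
  ring

/-- The smoothed indicator is the inverse transform of the product. -/
lemma star_box (hK : RS K) {q : ℝ} (hq : 0 ≤ q) (y : ℝ) :
    Res.star (fun ξ => 2 * q * Real.sinc (q * ξ) * chat K ξ) y = box K q y := by
  have hpi := Real.pi_pos
  have hc := hK.chat
  have hKc := hK.continuous
  have hi1 : Integrable (indicator (Icc (-q) q) (fun _ => (1:ℝ))) :=
    (integrable_indicator_iff measurableSet_Icc).2 (by simp)
  have hi2 : Integrable (fun ξ => chat K ξ * Real.cos (ξ * y)) := hc.integrable_mul_cos y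
  have h1 := chat_fubini hi1 hi2
  have h2 : ∫ x : ℝ, (indicator (Icc (-q) q) (fun _ => (1:ℝ))) x *
      chat (fun ξ => chat K ξ * Real.cos (ξ * y)) x =
      π * ∫ x in (-q)..q, (K (x - y) + K (x + y)) := by
    have h3 : ∀ x : ℝ, (indicator (Icc (-q) q) (fun _ => (1:ℝ))) x *
        chat (fun ξ => chat K ξ * Real.cos (ξ * y)) x =
        indicator (Icc (-q) q) (fun x => π * (K (x - y) + K (x + y))) x := by
      intro x
      by_cases hx : x ∈ Icc (-q) q
      · rw [indicator_of_mem hx, indicator_of_mem hx, one_mul, chat_cos hK]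
      · rw [indicator_of_notMem hx, indicator_of_notMem hx, zero_mul]
    simp_rw [h3]
    rw [integral_indicator measurableSet_Icc, integral_Icc_eq_integral_Ioc,
      ← intervalIntegral.integral_of_le (by linarith), intervalIntegral.integral_const_mul]
  have h4 : ∫ x in (-q)..q, (K (x - y) + K (x + y)) = 2 * box K q y := by
    rw [intervalIntegral.integral_add (Continuous.intervalIntegrable (by fun_prop) _ _)
      (Continuous.intervalIntegrable (by fun_prop) _ _), intervalIntegral.integral_comp_add_right,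
      intervalIntegral.integral_comp_sub_right]
    have h5 : ∫ x in (-q - y)..(q - y), K x = ∫ x in (y - q)..(y + q), K x := by
      have h6 := intervalIntegral.integral_comp_neg (fun x => K x) (a := -q - y) (b := q - y)
      simp only [hK.even] at h6
      rw [h6]
      congr 1 <;> ring
    rw [h5, box]
    have h7 : -q + y = y - q := by ring
    have h8 : q + y = y + q := by ring
    rw [h7, h8]
    ring
  have h9 : Res.star (fun ξ => 2 * q * Real.sinc (q * ξ) * chat K ξ) y =
      (2 * π)⁻¹ * ∫ x : ℝ, chat (indicator (Icc (-q) q) fun _ => 1) x *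
        (chat K x * Real.cos (x * y)) := by
    rw [Res.star]
    congr 1
    unfold chat
    refine integral_congr_ae (Filter.Eventually.of_forall fun x => ?_)
    simp only
    have := chat_ind hq x
    unfold chat at this
    rw [this]
    ring
  rw [h9, ← h1, h2, h4]
  field_simp

/-- The transform of the smoothed indicator. -/
theorem box_RS (hK : RS K) {b : ℝ} (hb : ∀ ξ, b ≤ |ξ| → chat K ξ = 0) {q : ℝ} (hq : 0 ≤ q) :
    RS (box K q) ∧ RS (fun ξ => 2 * q * Real.sinc (q * ξ) * chat K ξ) ∧
      (∀ ξ, chat (box K q) ξ = 2 * q * Real.sinc (q * ξ) * chat K ξ) := by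
  have hpi := Real.pi_pos
  have hc := hK.chat
  have hs : HasCompactSupport (chat K) := by
    refine HasCompactSupport.intro (isCompact_Icc (a := -b) (b := b)) fun x hx => ?_
    apply hb
    by_contra hcon
    push Not at hcon
    exact hx ⟨(abs_lt.1 hcon).1.le, (abs_lt.1 hcon).2.le⟩
  have hΨ : RS (fun ξ => 2 * q * Real.sinc (q * ξ) * chat K ξ) := by
    refine RS.of_compact ?_ hs.mul_left fun x => ?_
    · refine ContDiff.mul (contDiff_const.mul (contDiff_sinc.comp (contDiff_const.mul contDiff_id)))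
        hc.smooth
    · rw [hc.even, mul_neg, Real.sinc_neg]
  have he : box K q = fun y => (2 * π)⁻¹ * chat (fun ξ => 2 * q * Real.sinc (q * ξ) * chat K ξ) y :=
    funext fun y => (star_box hK hq y).symm
  refine ⟨?_, hΨ, fun ξ => ?_⟩
  · rw [he]
    exact RS_const_mul hΨ.chat _
  · rw [he]
    have h1 := hΨ.chat_chat ξ
    have h2 : chat (fun y => (2 * π)⁻¹ * chat (fun ξ => 2 * q * Real.sinc (q * ξ) * chat K ξ) y) ξ =
        (2 * π)⁻¹ * chat (chat (fun ξ => 2 * q * Real.sinc (q * ξ) * chat K ξ)) ξ := by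
      conv_lhs => rw [chat]
      conv_rhs => rw [chat]
      rw [← MeasureTheory.integral_const_mul]
      refine integral_congr_ae (Filter.Eventually.of_forall fun x => ?_)
      simp only
      ring
    rw [h2, h1]
    field_simp

/-- The scaled kernel. -/
lemma RS_scale (hK : RS K) {D : ℝ} (hD : 0 < D) : RS (fun u => K (u / D) / D) ∧
    ∀ ξ, chat (fun u => K (u / D) / D) ξ = chat K (D * ξ) := by
  constructor
  · obtain ⟨S, hS⟩ := hK.ex
    have hD' : D⁻¹ ≠ 0 := by positivity
    refine ⟨⟨((D⁻¹ : ℝ) : ℂ) • SchwartzMap.compCLMOfContinuousLinearEquiv ℂ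
      (ContinuousLinearEquiv.unitsEquivAut ℝ (Units.mk0 _ hD')) S, fun x => ?_⟩, fun x => ?_⟩
    · rw [smul_apply, SchwartzMap.compCLMOfContinuousLinearEquiv_apply,
        Function.comp_apply, hS]
      have : (ContinuousLinearEquiv.unitsEquivAut ℝ (Units.mk0 _ hD')) x = x / D := by
        simp [div_eq_mul_inv]
      rw [this, smul_eq_mul, div_eq_inv_mul (K (x / D))]
      push_cast
      ring
    · rw [neg_div, hK.even]
  · intro ξ
    unfold chat
    have h1 := Measure.integral_comp_div (fun v : ℝ => K v * Real.cos (v * (D * ξ)) / D) D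
    rw [abs_of_pos hD] at h1
    have h2 : ∀ x : ℝ, K (x / D) / D * Real.cos (x * ξ) =
        K (x / D) * Real.cos (x / D * (D * ξ)) / D := by
      intro x
      have : x / D * (D * ξ) = x * ξ := by field_simp
      rw [this]
      ring
    simp_rw [h2]
    rw [h1, integral_div, smul_eq_mul, mul_div_cancel₀ _ hD.ne']

end Pool.Agent.PF
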