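import Mathlib

/-! The Fourier transform of a smooth density. -/

namespace Pool.Agent.PF

open MeasureTheory Set FourierTransform
open scoped Real

/-- The kernel of the primitive: `(e(yξ) - 1) / (2πiξ)`, bounded by `|y|`. -/
noncomputable def eker (y ξ : ℝ) : ℂ := ∫ x in (0:ℝ)..y, Complex.exp (2 * π * Complex.I * (x * ξ))

theorem eker_eq (y : ℝ) {ξ : ℝ} (hξ : ξ ≠ 0) :
    eker y ξ = (Complex.exp (2 * π * Complex.I * (y * ξ)) - 1) / (2 * π * Complex.I * ξ) := by
  have hc : (2 * π * Complex.I * ξ : ℂ) ≠ 0 := by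
    have h1 : (π : ℂ) ≠ 0 := by exact_mod_cast Real.pi_ne_zero
    have h2 : (ξ : ℂ) ≠ 0 := by exact_mod_cast hξ
    exact mul_ne_zero (mul_ne_zero (mul_ne_zero two_ne_zero h1) Complex.I_ne_zero) h2
  unfold eker
  have h := integral_exp_mul_complex (a := 0) (b := y) hc
  have h3 : (fun x : ℝ => Complex.exp (2 * π * Complex.I * (x * ξ))) =
      fun x : ℝ => Complex.exp (2 * π * Complex.I * ξ * x) := by
    funext x
    congr 1
    ring
  rw [h3, h]
  congr 2
  · congr 1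
    ring
  · simp

theorem norm_eker_le (y ξ : ℝ) : ‖eker y ξ‖ ≤ |y| := by
  unfold eker
  have := intervalIntegral.norm_integral_le_of_norm_le_const (a := (0:ℝ)) (b := y) (C := 1)
    (f := fun x : ℝ => Complex.exp (2 * π * Complex.I * (x * ξ))) (fun x _ => ?_)
  · simpa using this
  · rw [Complex.norm_exp]
    simp

theorem eker_neg (y ξ : ℝ) : eker y (-ξ) = (starRingEnd ℂ) (eker y ξ) := by
  unfold eker
  rw [← intervalIntegral.intervalIntegral_conj]
  refine intervalIntegral.integral_congr fun x _ => ?_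
  rw [← Complex.exp_conj]
  congr 1
  have h2 : (starRingEnd ℂ) 2 = 2 := map_ofNat _ 2
  simp [h2]

theorem exists_fourier {g : ℝ → ℝ} (hg : ∀ n : ℕ∞, ContDiff ℝ n g) (h0 : ∀ x, x ≤ 0 → g x = 0)
    (h1 : ∀ x, 1 ≤ x → g x = 0) :
    ∃ G : ℝ → ℂ, (∀ n : ℕ∞, ContDiff ℝ n G) ∧ (∀ ξ, G (-ξ) = (starRingEnd ℂ) (G ξ)) ∧
      (∀ k : ℕ, ∃ C : ℝ, 0 ≤ C ∧ ∀ ξ, |ξ| ^ k * ‖G ξ‖ ≤ C) ∧ Integrable G ∧
      Integrable (fun ξ => ‖G ξ‖ ^ 2) ∧
      (∫ ξ in Ioi (0:ℝ), ‖G ξ‖ ^ 2) = (1 / 2) * ∫ x in (0:ℝ)..1, g x ^ 2 ∧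
      ∀ y, 0 ≤ y → (∫ x in (0:ℝ)..y, g x) = 2 * ∫ ξ in Ioi (0:ℝ), (G ξ * eker y ξ).re := by
  have hcs : HasCompactSupport (fun x => (g x : ℂ)) := by
    refine HasCompactSupport.intro (K := Icc 0 1) isCompact_Icc fun x hx => ?_
    rw [mem_Icc, not_and_or, not_le, not_le] at hx
    rcases hx with hx | hx
    · simp [h0 x hx.le]
    · simp [h1 x hx.le]
  have hsm : ContDiff ℝ ((⊤ : ℕ∞) : WithTop ℕ∞) (fun x => (g x : ℂ)) :=
    Complex.ofRealCLM.contDiff.comp (hg ⊤)
  let S : SchwartzMap ℝ ℂ := hcs.toSchwartzMap hsm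
  have hS : ∀ x, S x = (g x : ℂ) := fun x => rfl
  let G : SchwartzMap ℝ ℂ := 𝓕 S
  have hG : ∀ ξ : ℝ, G ξ = ∫ x : ℝ, Complex.exp (-(2 * π * Complex.I * (x * ξ))) * (g x : ℂ) := by
    intro ξ
    show (𝓕 S) ξ = _
    rw [SchwartzMap.fourier_coe, Real.fourier_eq']
    refine integral_congr_ae (Filter.Eventually.of_forall fun x => ?_)
    show Complex.exp _ • S x = _
    rw [hS, smul_eq_mul]
    congr 2
    simp
    ring
  have hconj : ∀ ξ, G (-ξ) = (starRingEnd ℂ) (G ξ) := by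
    intro ξ
    rw [hG, hG, ← integral_conj]
    refine integral_congr_ae (Filter.Eventually.of_forall fun x => ?_)
    show _ = (starRingEnd ℂ) _
    rw [map_mul, ← Complex.exp_conj, Complex.conj_ofReal]
    congr 2
    have h2 : (starRingEnd ℂ) 2 = 2 := map_ofNat _ 2
    simp [h2]
  have hinv : ∀ x : ℝ, (g x : ℂ) = ∫ ξ : ℝ, Complex.exp (2 * π * Complex.I * (x * ξ)) * G ξ := by
    intro x
    have h2 : 𝓕⁻ G = S := FourierTransform.fourierInv_fourier_eq S
    rw [← hS, ← h2, SchwartzMap.fourierInv_coe, Real.fourierInv_eq']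
    refine integral_congr_ae (Filter.Eventually.of_forall fun ξ => ?_)
    show Complex.exp _ • G ξ = _
    rw [smul_eq_mul]
    congr 2
    simp
    ring
  have hint : Integrable G := G.integrable
  have hsq : Integrable (fun ξ => ‖G ξ‖ ^ 2) := by
    obtain ⟨C, hC⟩ : ∃ C, ∀ ξ, ‖G ξ‖ ≤ C := ⟨_, G.norm_le_seminorm ℝ⟩
    refine (hint.norm.const_mul C).mono' ?_ (Filter.Eventually.of_forall fun ξ => ?_)
    · exact (G.continuous.norm.pow 2).aestronglyMeasurable
    · rw [Real.norm_eq_abs, abs_of_nonneg (by positivity), pow_two]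
      exact mul_le_mul_of_nonneg_right (hC ξ) (norm_nonneg _)
  refine ⟨G, fun n => G.smooth n, hconj, fun k => ?_, hint, hsq, ?_, fun y hy => ?_⟩
  · refine ⟨_, apply_nonneg (SchwartzMap.seminorm ℝ k 0) G, fun ξ => ?_⟩
    have := G.norm_pow_mul_le_seminorm ℝ k ξ
    rwa [Real.norm_eq_abs] at this
  · have h2 : ∫ ξ : ℝ, ‖G ξ‖ ^ 2 = ∫ x, ‖S x‖ ^ 2 := SchwartzMap.integral_norm_sq_fourier S
    have h3 : ∫ x, ‖S x‖ ^ 2 = ∫ x in (0:ℝ)..1, g x ^ 2 := by
      rw [intervalIntegral.integral_of_le zero_le_one, ← integral_indicator measurableSet_Ioc]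
      refine integral_congr_ae (Filter.Eventually.of_forall fun x => ?_)
      show ‖S x‖ ^ 2 = (Ioc (0:ℝ) 1).indicator (fun x => g x ^ 2) x
      rw [hS, Complex.norm_real, Real.norm_eq_abs, sq_abs]
      by_cases hx : x ∈ Ioc (0:ℝ) 1
      · rw [indicator_of_mem hx]
      · rw [indicator_of_notMem hx]
        rw [mem_Ioc, not_and_or, not_lt, not_le] at hx
        rcases hx with hx | hx
        · simp [h0 x hx]
        · simp [h1 x hx.le]
    have h4 : ∫ ξ : ℝ, ‖G ξ‖ ^ 2 = (∫ ξ in Ioi (0:ℝ), ‖G ξ‖ ^ 2) + ∫ ξ in Ioi (0:ℝ), ‖G ξ‖ ^ 2 := by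
      rw [← integral_add_compl (measurableSet_Ioi (a := (0:ℝ))) hsq, compl_Ioi]
      congr 1
      have := integral_comp_neg_Ioi (0:ℝ) (fun ξ => ‖G ξ‖ ^ 2)
      rw [neg_zero] at this
      rw [← this]
      refine integral_congr_ae (Filter.Eventually.of_forall fun ξ => ?_)
      show ‖G (-ξ)‖ ^ 2 = ‖G ξ‖ ^ 2
      rw [hconj, RCLike.norm_conj]
    linarith
  · -- the primitive
    have h2 : (((∫ x in (0:ℝ)..y, g x) : ℝ) : ℂ) = ∫ ξ : ℝ, G ξ * eker y ξ := by
      rw [← intervalIntegral.integral_ofReal]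
      have h3 : (∫ x in (0:ℝ)..y, (g x : ℂ)) =
          ∫ x in (0:ℝ)..y, ∫ ξ : ℝ, Complex.exp (2 * π * Complex.I * (x * ξ)) * G ξ :=
        intervalIntegral.integral_congr fun x _ => hinv x
      have hkE : Continuous fun z : ℝ × ℝ => Complex.exp (2 * π * Complex.I * (z.1 * z.2)) := by
        fun_prop
      rw [h3, intervalIntegral.integral_of_le hy, integral_integral_swap]
      · refine integral_congr_ae (Filter.Eventually.of_forall fun ξ => ?_)
        show (∫ x in Ioc (0:ℝ) y, Complex.exp (2 * π * Complex.I * (x * ξ)) * G ξ) = _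
        rw [← intervalIntegral.integral_of_le hy, intervalIntegral.integral_mul_const, mul_comm]
        rfl
      · have h4 : Integrable (fun z : ℝ × ℝ => G z.2)
            ((volume.restrict (Ioc (0:ℝ) y)).prod volume) := hint.comp_snd _
        refine h4.norm.mono' ?_ (Filter.Eventually.of_forall fun z => ?_)
        · exact (hkE.mul (G.continuous.comp continuous_snd)).aestronglyMeasurable
        · show ‖Complex.exp (2 * π * Complex.I * (z.1 * z.2)) * G z.2‖ ≤ ‖G z.2‖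
          rw [norm_mul, Complex.norm_exp]
          simp
    have hker : Continuous fun ξ => eker y ξ := by
      refine intervalIntegral.continuous_parametric_intervalIntegral_of_continuous' ?_ 0 y
      show Continuous fun z : ℝ × ℝ => Complex.exp (2 * π * Complex.I * (z.2 * z.1))
      fun_prop
    have hFi : Integrable (fun ξ => G ξ * eker y ξ) := by
      refine (hint.norm.mul_const |y|).mono' (G.continuous.mul hker).aestronglyMeasurable
        (Filter.Eventually.of_forall fun ξ => ?_)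
      rw [norm_mul]
      exact mul_le_mul_of_nonneg_left (norm_eker_le y ξ) (norm_nonneg _)
    have h5 : ∫ ξ : ℝ, G ξ * eker y ξ = (∫ ξ in Ioi (0:ℝ), G ξ * eker y ξ) +
        ∫ ξ in Ioi (0:ℝ), (starRingEnd ℂ) (G ξ * eker y ξ) := by
      rw [← integral_add_compl (measurableSet_Ioi (a := (0:ℝ))) hFi, compl_Ioi]
      congr 1
      have := integral_comp_neg_Ioi (0:ℝ) (fun ξ => G ξ * eker y ξ)
      rw [neg_zero] at this
      rw [← this]
      refine integral_congr_ae (Filter.Eventually.of_forall fun ξ => ?_)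
      show G (-ξ) * eker y (-ξ) = (starRingEnd ℂ) (G ξ * eker y ξ)
      rw [hconj, eker_neg, map_mul]
    rw [h5, integral_conj] at h2
    have h6 := congrArg Complex.re h2
    rw [Complex.ofReal_re, Complex.add_re, Complex.conj_re] at h6
    have h7 : (∫ ξ in Ioi (0:ℝ), G ξ * eker y ξ).re = ∫ ξ in Ioi (0:ℝ), (G ξ * eker y ξ).re := by
      have := integral_re (𝕜 := ℂ) (hFi.integrableOn (s := Ioi (0:ℝ)))
      simpa using this.symm
    rw [h6, h7]
    ring

end Pool.Agent.PF
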