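import Pool.Agent.PF.Prof
import Pool.Agent.PF.Four

/-! The amplitude of a profile: choice and estimates. -/

namespace Pool.Agent.PF

open MeasureTheory Set
open scoped Real ContDiff

theorem norm_eker_le' (y : ℝ) {ξ : ℝ} (hξ : ξ ≠ 0) : ‖eker y ξ‖ ≤ 1 / (π * |ξ|) := by
  rw [eker_eq y hξ, norm_div]
  have h1 : ‖Complex.exp (2 * π * Complex.I * (y * ξ)) - 1‖ ≤ 2 := by
    refine (norm_sub_le _ _).trans ?_
    rw [Complex.norm_exp]
    simp
    norm_num
  have h2 : ‖(2 * π * Complex.I * ξ : ℂ)‖ = 2 * (π * |ξ|) := by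
    rw [norm_mul, norm_mul, norm_mul, Complex.norm_I, Complex.norm_real, Complex.norm_real,
      Real.norm_eq_abs, Real.norm_eq_abs, abs_of_pos Real.pi_pos]
    simp
    ring
  rw [h2]
  have h3 : 0 < π * |ξ| := mul_pos Real.pi_pos (abs_pos.2 hξ)
  rw [div_le_div_iff₀ (by linarith) h3]
  nlinarith

theorem eker_scale (x u : ℝ) {r : ℝ} (hr : r ≠ 0) : eker x u = r * eker (x / r) (r * u) := by
  unfold eker
  have h := intervalIntegral.integral_comp_mul_left
    (fun t : ℝ => Complex.exp (2 * π * Complex.I * (t * u))) (a := 0) (b := x / r) hr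
  rw [mul_zero, mul_div_cancel₀ _ hr] at h
  have h2 : (∫ t in (0:ℝ)..(x / r), Complex.exp (2 * π * Complex.I * (t * ((r * u : ℝ) : ℂ)))) =
      ∫ t in (0:ℝ)..(x / r), Complex.exp (2 * π * Complex.I * (((r * t : ℝ) : ℂ) * u)) := by
    refine intervalIntegral.integral_congr fun t _ => ?_
    show Complex.exp _ = Complex.exp _
    congr 1
    push_cast
    ring
  rw [h2, h, Complex.real_smul, ← mul_assoc, ← Complex.ofReal_mul, mul_inv_cancel₀ hr,
    Complex.ofReal_one, one_mul]

theorem continuous_eker (y : ℝ) : Continuous fun ξ => eker y ξ := by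
  refine intervalIntegral.continuous_parametric_intervalIntegral_of_continuous' ?_ 0 y
  show Continuous fun z : ℝ × ℝ => Complex.exp (2 * π * Complex.I * (z.2 * z.1))
  fun_prop

/-- The smooth cutoff: `1` on `[2 e, b / 2]`, `0` outside `(e, b)`. -/
noncomputable def acut (e b u : ℝ) : ℝ :=
  Real.smoothTransition ((u - e) / e) * Real.smoothTransition ((b - u) / (b / 2))

theorem acut_smooth (e b : ℝ) : ContDiff ℝ ∞ (acut e b) := by
  unfold acut
  refine ContDiff.mul ?_ ?_
  · exact Real.smoothTransition.contDiff.comp ((contDiff_id.sub contDiff_const).div_const _)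
  · exact Real.smoothTransition.contDiff.comp ((contDiff_const.sub contDiff_id).div_const _)

theorem acut_nonneg (e b u : ℝ) : 0 ≤ acut e b u :=
  mul_nonneg (Real.smoothTransition.nonneg _) (Real.smoothTransition.nonneg _)

theorem acut_le_one (e b u : ℝ) : acut e b u ≤ 1 :=
  mul_le_one₀ (Real.smoothTransition.le_one _) (Real.smoothTransition.nonneg _)
    (Real.smoothTransition.le_one _)

theorem acut_low {e b u : ℝ} (he : 0 < e) (h : u ≤ e) : acut e b u = 0 := by
  unfold acut
  rw [Real.smoothTransition.zero_of_nonpos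
    (div_nonpos_of_nonpos_of_nonneg (by linarith) he.le), zero_mul]

theorem acut_high {e b u : ℝ} (hb : 0 < b) (h : b ≤ u) : acut e b u = 0 := by
  unfold acut
  rw [Real.smoothTransition.zero_of_nonpos (x := (b - u) / (b / 2))
    (div_nonpos_of_nonpos_of_nonneg (by linarith) (by linarith)), mul_zero]

theorem acut_mid {e b u : ℝ} (he : 0 < e) (hb : 0 < b) (h1 : 2 * e ≤ u) (h2 : u ≤ b / 2) :
    acut e b u = 1 := by
  unfold acut
  rw [Real.smoothTransition.one_of_one_le (by rw [le_div_iff₀ he]; linarith),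
    Real.smoothTransition.one_of_one_le (by rw [le_div_iff₀ (by linarith)]; linarith), mul_one]

/-- The integral over `[0,1]` is at most that over `(0,∞)`. -/
theorem int_le_Ioi {φ ψ : ℝ → ℝ} (hφ : Continuous φ) (hψ : IntegrableOn ψ (Ioi 0))
    (h0 : ∀ u, 0 < u → 0 ≤ ψ u) (h : ∀ u, 0 < u → φ u ≤ ψ u) :
    (∫ u in (0:ℝ)..1, φ u) ≤ ∫ u in Ioi (0:ℝ), ψ u := by
  rw [intervalIntegral.integral_of_le zero_le_one]
  calc (∫ u in Ioc (0:ℝ) 1, φ u) ≤ ∫ u in Ioc (0:ℝ) 1, ψ u := by
        refine setIntegral_mono_on ?_ (hψ.mono_set Ioc_subset_Ioi_self) measurableSet_Ioc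
          fun u hu => h u hu.1
        exact (hφ.intervalIntegrable 0 1).1
    _ ≤ _ := by
        refine setIntegral_mono_set hψ ?_ (Filter.Eventually.of_forall Ioc_subset_Ioi_self)
        exact (ae_restrict_iff' measurableSet_Ioi).2 (Filter.Eventually.of_forall h0)

/-- The amplitude of a profile. -/
theorem exists_eamp {f : ℝ → ℝ} (hf : ContinuousOn f (Icc 0 1)) {a ε : ℝ} (hε : 0 < ε)
    (hE : ∫ x in (0:ℝ)..1, f x ^ 2 < 4 * a) :
    ∃ th E C : ℝ, 0 < E ∧ E < th ∧ 2 * th < a ∧ ∀ b, 0 < b → b ≤ 1 → ∀ A, 0 ≤ A →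
      ∃ r0 : ℝ, 1 ≤ r0 ∧ ∀ r, r0 ≤ r → ∃ ep0 : ℝ, 0 < ep0 ∧ ∀ ep, 0 < ep → ep ≤ ep0 →
      ∃ v : ℝ → ℂ, ContDiff ℝ ∞ v ∧ (∀ u, ‖v u‖ ≤ 1) ∧ (∀ u, u ≤ ep → v u = 0) ∧
        (∀ u, b ≤ u → v u = 0) ∧ r ^ 2 * (∫ u in (0:ℝ)..1, ‖v u‖ ^ 2) ≤ E ∧
        r ^ 3 * (∫ u in (0:ℝ)..1, u * ‖v u‖ ^ 2) ≤ C ∧
        r * √r * (∫ u in (0:ℝ)..1, ‖v u‖) ≤ C ∧
        ∀ w : ℝ → ℝ, Continuous w → (∀ u, 0 ≤ u → |w u| ≤ 1 ∧ |w u - 1| ≤ A * √r * u) →
          ∀ x, 0 ≤ x → x ≤ r →
            |(-4 * r * ∫ u in (0:ℝ)..1, w u * (v u * eker x u).re) -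
              √r * ∫ t in (0:ℝ)..(x / r), f t| ≤ ε * √r := by
  obtain ⟨g, δ, hδ, hδ1, hgs, hg0, hg1, hgE, hgf⟩ :=
    exists_smooth_density hf hE (show (0:ℝ) < ε / 4 by linarith)
  obtain ⟨G, hGs, hGc, hGd, hGi, hGq, hGp, hGk⟩ := exists_fourier hgs
    (fun x hx => hg0 x (by linarith)) (fun x hx => hg1 x (by linarith))
  have hg20 : 0 ≤ ∫ x in (0:ℝ)..1, g x ^ 2 :=
    intervalIntegral.integral_nonneg zero_le_one fun x _ => sq_nonneg _
  -- the numbers
  obtain ⟨E, hE1, hE2⟩ : ∃ E, (∫ x in (0:ℝ)..1, g x ^ 2) / 8 < E ∧ E < a / 2 :=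
    exists_between (by linarith)
  obtain ⟨th, hth1, hth2⟩ : ∃ th, E < th ∧ th < a / 2 := exists_between hE2
  obtain ⟨M, hM0, hM⟩ := hGd 0
  have hM' : ∀ ξ, ‖G ξ‖ ≤ M := fun ξ => by simpa using hM ξ
  have hGcont : Continuous G := (hGs 0).continuous
  -- integrals of G
  set N1 : ℝ := ∫ ξ in Ioi (0:ℝ), ‖G ξ‖ with hN1
  have hN10 : 0 ≤ N1 := setIntegral_nonneg measurableSet_Ioi fun ξ _ => norm_nonneg _
  have hi1 : IntegrableOn (fun ξ => ‖G ξ‖) (Ioi 0) := hGi.norm.integrableOn
  have hi2 : IntegrableOn (fun ξ => ‖G ξ‖ ^ 2) (Ioi 0) := hGq.integrableOn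
  set N2 : ℝ := ∫ ξ in Ioi (0:ℝ), ξ * ‖G ξ‖ ^ 2 with hN2
  have hN20 : 0 ≤ N2 := setIntegral_nonneg measurableSet_Ioi fun ξ hξ =>
    mul_nonneg (le_of_lt hξ) (sq_nonneg _)
  have hi3 : IntegrableOn (fun ξ => ξ * ‖G ξ‖ ^ 2) (Ioi 0) := by
    obtain ⟨C1, hC10, hC1⟩ := hGd 1
    refine Integrable.mono' (hi1.const_mul C1) ?_ ?_
    · exact (continuous_id.mul (hGcont.norm.pow 2)).aestronglyMeasurable
    · refine (ae_restrict_iff' measurableSet_Ioi).2 (Filter.Eventually.of_forall fun ξ hξ => ?_)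
      have h1 := hC1 ξ
      rw [pow_one, abs_of_pos hξ] at h1
      rw [Real.norm_eq_abs, abs_of_nonneg (mul_nonneg (le_of_lt hξ) (sq_nonneg _)), pow_two,
        ← mul_assoc]
      exact mul_le_mul_of_nonneg_right h1 (norm_nonneg _)
  refine ⟨th, E, N1 + N2, by linarith, hth1, by linarith, fun b hb _ A hA => ?_⟩
  -- how large `r` has to be
  set K : ℝ := (2 * A / π + 4 / (π * b)) * N1 with hK
  have hπ := Real.pi_pos
  have hK0 : 0 ≤ K := mul_nonneg (by positivity) hN10
  obtain ⟨s0, hs01, hs0M, hs0K⟩ : ∃ s0 : ℝ, 1 ≤ s0 ∧ M ≤ s0 ∧ K ≤ ε / 4 * s0 := by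
    refine ⟨max 1 (max M (K / (ε / 4))), le_max_left _ _,
      (le_max_left _ _).trans (le_max_right _ _), ?_⟩
    have h1 : K / (ε / 4) ≤ max 1 (max M (K / (ε / 4))) :=
      (le_max_right _ _).trans (le_max_right _ _)
    rw [div_le_iff₀ (by linarith)] at h1
    linarith
  refine ⟨s0 ^ 2, by nlinarith, fun r hr => ?_⟩
  have hr0 : 0 < r := by nlinarith
  have hsr : s0 ≤ √r := Real.le_sqrt_of_sq_le hr
  have hs0 : 0 < √r := by linarith
  have hsq : √r * √r = r := Real.mul_self_sqrt hr0.le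
  have hs1 : 1 ≤ √r := hs01.trans hsr
  refine ⟨ε / (16 * (M + 1) * r), by positivity, fun ep hep hep0 => ?_⟩
  rw [le_div_iff₀ (by positivity)] at hep0
  -- scaling
  have hsc : ∀ φ : ℝ → ℝ, (∫ u in Ioi (0:ℝ), φ (r * u)) = r⁻¹ * ∫ ξ in Ioi (0:ℝ), φ ξ := by
    intro φ
    have := integral_comp_mul_left_Ioi φ 0 hr0
    rwa [mul_zero, smul_eq_mul] at this
  have hsi : ∀ φ : ℝ → ℝ, IntegrableOn φ (Ioi 0) → IntegrableOn (fun u => φ (r * u)) (Ioi 0) := by
    intro φ hφ
    have := (integrableOn_Ioi_comp_mul_left_iff φ 0 hr0).2 (by simpa using hφ)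
    exact this
  -- the amplitude
  set v : ℝ → ℂ := fun u => ((-(acut ep b u) / (2 * √r) : ℝ) : ℂ) * G (r * u) with hv
  have hvs : ContDiff ℝ ∞ v := by
    refine ContDiff.mul ?_ ?_
    · exact Complex.ofRealCLM.contDiff.comp (((acut_smooth ep b).neg).div_const _)
    · exact (hGs ⊤).comp (contDiff_const.mul contDiff_id)
  have hvn : ∀ u, ‖v u‖ = acut ep b u / (2 * √r) * ‖G (r * u)‖ := by
    intro u
    rw [hv]
    show ‖((-(acut ep b u) / (2 * √r) : ℝ) : ℂ) * G (r * u)‖ = _
    rw [norm_mul, Complex.norm_real, Real.norm_eq_abs, neg_div, abs_neg,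
      abs_of_nonneg (div_nonneg (acut_nonneg _ _ _) (by linarith))]
  have hvl : ∀ u, ‖v u‖ ≤ ‖G (r * u)‖ / (2 * √r) := by
    intro u
    rw [hvn, div_mul_eq_mul_div]
    refine div_le_div_of_nonneg_right ?_ (by linarith)
    exact mul_le_of_le_one_left (norm_nonneg _) (acut_le_one _ _ _)
  have hvc : Continuous v := hvs.continuous
  refine ⟨v, hvs, fun u => ?_, fun u hu => ?_, fun u hu => ?_, ?_, ?_, ?_, ?_⟩
  · refine (hvl u).trans ?_
    rw [div_le_one (by linarith)]
    linarith [hM' (r * u)]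
  · show ((-(acut ep b u) / (2 * √r) : ℝ) : ℂ) * G (r * u) = 0
    rw [acut_low hep hu]
    simp
  · show ((-(acut ep b u) / (2 * √r) : ℝ) : ℂ) * G (r * u) = 0
    rw [acut_high hb hu]
    simp
  · -- energy
    have h1 : (∫ u in (0:ℝ)..1, ‖v u‖ ^ 2) ≤ ∫ u in Ioi (0:ℝ), (1 / (4 * r)) * ‖G (r * u)‖ ^ 2 := by
      refine int_le_Ioi (hvc.norm.pow 2) ((hsi _ hi2).const_mul _)
        (fun u _ => by positivity) fun u _ => ?_
      have h2 := pow_le_pow_left₀ (norm_nonneg _) (hvl u) 2
      refine h2.trans (le_of_eq ?_)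
      rw [div_pow, mul_pow, Real.sq_sqrt hr0.le]
      ring
    rw [integral_const_mul, hsc (fun ξ => ‖G ξ‖ ^ 2), hGp] at h1
    have h3 : r ^ 2 * (∫ u in (0:ℝ)..1, ‖v u‖ ^ 2) ≤
        r ^ 2 * ((1 / (4 * r)) * (r⁻¹ * ((1 / 2) * ∫ x in (0:ℝ)..1, g x ^ 2))) :=
      mul_le_mul_of_nonneg_left h1 (by positivity)
    have h4 : r ^ 2 * ((1 / (4 * r)) * (r⁻¹ * ((1 / 2) * ∫ x in (0:ℝ)..1, g x ^ 2))) =
        (∫ x in (0:ℝ)..1, g x ^ 2) / 8 := by
      field_simp
      ring
    linarith
  · -- the moment of the length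
    have h1 : (∫ u in (0:ℝ)..1, u * ‖v u‖ ^ 2) ≤
        ∫ u in Ioi (0:ℝ), (1 / (4 * r ^ 2)) * ((r * u) * ‖G (r * u)‖ ^ 2) := by
      refine int_le_Ioi (continuous_id.mul (hvc.norm.pow 2)) ((hsi _ hi3).const_mul _)
        (fun u hu => by positivity) fun u hu => ?_
      have h2 := pow_le_pow_left₀ (norm_nonneg _) (hvl u) 2
      have h3 : u * ‖v u‖ ^ 2 ≤ u * (‖G (r * u)‖ / (2 * √r)) ^ 2 :=
        mul_le_mul_of_nonneg_left h2 hu.le
      refine h3.trans (le_of_eq ?_)
      rw [div_pow, mul_pow, Real.sq_sqrt hr0.le]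
      field_simp
      ring
    rw [integral_const_mul, hsc (fun ξ => ξ * ‖G ξ‖ ^ 2)] at h1
    have h3 : r ^ 3 * (∫ u in (0:ℝ)..1, u * ‖v u‖ ^ 2) ≤
        r ^ 3 * ((1 / (4 * r ^ 2)) * (r⁻¹ * N2)) :=
      mul_le_mul_of_nonneg_left h1 (by positivity)
    have h4 : r ^ 3 * ((1 / (4 * r ^ 2)) * (r⁻¹ * N2)) = N2 / 4 := by
      field_simp
    linarith
  · -- the first moment
    have h1 : (∫ u in (0:ℝ)..1, ‖v u‖) ≤ ∫ u in Ioi (0:ℝ), (1 / (2 * √r)) * ‖G (r * u)‖ := by
      refine int_le_Ioi hvc.norm ((hsi _ hi1).const_mul _) (fun u _ => by positivity) fun u _ => ?_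
      refine (hvl u).trans (le_of_eq ?_)
      ring
    rw [integral_const_mul, hsc (fun ξ => ‖G ξ‖)] at h1
    have h3 : r * √r * (∫ u in (0:ℝ)..1, ‖v u‖) ≤ r * √r * ((1 / (2 * √r)) * (r⁻¹ * N1)) :=
      mul_le_mul_of_nonneg_left h1 (by positivity)
    have h4 : r * √r * ((1 / (2 * √r)) * (r⁻¹ * N1)) = N1 / 2 := by
      field_simp
    linarith
  · -- the mean
    intro w hw hw1 x hx0 hxr
    have hxr1 : x / r ∈ Icc (0:ℝ) 1 := ⟨by positivity, by rw [div_le_one hr0]; exact hxr⟩
    have hfg := hgf _ hxr1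
    rw [hGk _ hxr1.1] at hfg
    -- the primitive of `g`, scaled
    have e1 : (∫ ξ in Ioi (0:ℝ), (G ξ * eker (x / r) ξ).re) =
        ∫ u in Ioi (0:ℝ), (G (r * u) * eker x u).re := by
      have h1 := hsc (fun ξ => (G ξ * eker (x / r) ξ).re)
      have h2 : (∫ ξ in Ioi (0:ℝ), (G ξ * eker (x / r) ξ).re) =
          r * ∫ u in Ioi (0:ℝ), (G (r * u) * eker (x / r) (r * u)).re := by
        rw [h1]
        field_simp
      rw [h2, ← integral_const_mul]
      refine integral_congr_ae (Filter.Eventually.of_forall fun u => ?_)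
      show r * (G (r * u) * eker (x / r) (r * u)).re = (G (r * u) * eker x u).re
      rw [eker_scale x u hr0.ne']
      simp only [Complex.mul_re, Complex.mul_im, Complex.ofReal_re, Complex.ofReal_im]
      ring
    -- the mean as an integral over the half line
    have e2 : (-4 * r * ∫ u in (0:ℝ)..1, w u * (v u * eker x u).re) =
        2 * √r * ∫ u in Ioi (0:ℝ), w u * acut ep b u * (G (r * u) * eker x u).re := by
      have h1 : (∫ u in (0:ℝ)..1, w u * (v u * eker x u).re) =
          ∫ u in Ioi (0:ℝ), w u * (v u * eker x u).re := by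
        rw [intervalIntegral.integral_of_le zero_le_one]
        refine (setIntegral_eq_of_subset_of_forall_sdiff_eq_zero measurableSet_Ioi
          Ioc_subset_Ioi_self fun u hu => ?_).symm
        have h2 : 1 < u := by
          rcases hu with ⟨h3, h4⟩
          rw [mem_Ioc, not_and_or, not_lt, not_le] at h4
          rcases h4 with h4 | h4
          · exact absurd h3 (not_lt.2 h4)
          · exact h4
        have h3 : v u = 0 := by
          show ((-(acut ep b u) / (2 * √r) : ℝ) : ℂ) * G (r * u) = 0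
          rw [acut_high hb (by linarith)]
          simp
        rw [h3]
        simp
      rw [h1, ← integral_const_mul, ← integral_const_mul]
      refine integral_congr_ae (Filter.Eventually.of_forall fun u => ?_)
      show -4 * r * (w u * (v u * eker x u).re) =
        2 * √r * (w u * acut ep b u * (G (r * u) * eker x u).re)
      have h2 : (v u * eker x u).re = -(acut ep b u) / (2 * √r) * (G (r * u) * eker x u).re := by
        show (((-(acut ep b u) / (2 * √r) : ℝ) : ℂ) * G (r * u) * eker x u).re = _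
        rw [mul_assoc, Complex.re_ofReal_mul]
      rw [h2]
      have h3 : -4 * r * (w u * (-(acut ep b u) / (2 * √r) * (G (r * u) * eker x u).re)) =
          (r / √r) * (2 * (w u * acut ep b u * (G (r * u) * eker x u).re)) := by ring
      rw [h3, Real.div_sqrt]
      ring
    -- the difference of the two integrals
    have hcG : Continuous fun u => (G (r * u) * eker x u).re :=
      Complex.continuous_re.comp
        ((hGcont.comp (continuous_const.mul continuous_id)).mul (continuous_eker x))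
    have hcc : Continuous (acut ep b) := (acut_smooth ep b).continuous
    have hI1 : IntegrableOn (fun u => (G (r * u) * eker x u).re) (Ioi 0) := by
      refine Integrable.mono' ((hsi _ hi1).const_mul |x|) hcG.aestronglyMeasurable
        (Filter.Eventually.of_forall fun u => ?_)
      refine (Complex.abs_re_le_norm _).trans ?_
      rw [norm_mul, mul_comm]
      exact mul_le_mul_of_nonneg_right (norm_eker_le x u) (norm_nonneg _)
    have hI2 : IntegrableOn (fun u => w u * acut ep b u * (G (r * u) * eker x u).re) (Ioi 0) := by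
      refine Integrable.mono' hI1.norm ((hw.mul hcc).mul hcG).aestronglyMeasurable
        ((ae_restrict_iff' measurableSet_Ioi).2 (Filter.Eventually.of_forall fun u hu => ?_))
      rw [norm_mul, norm_mul]
      refine mul_le_of_le_one_left (norm_nonneg _) ?_
      refine mul_le_one₀ (hw1 u (le_of_lt hu)).1 (norm_nonneg _) ?_
      rw [Real.norm_eq_abs, abs_of_nonneg (acut_nonneg _ _ _)]
      exact acut_le_one _ _ _
    have hI3 : IntegrableOn (fun u => (A * √r / π + 2 / (π * b)) * ‖G (r * u)‖ +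
        (Ioc 0 (2 * ep)).indicator (fun _ => M * r) u) (Ioi 0) := by
      refine ((hsi _ hi1).const_mul _).add ?_
      refine Integrable.integrableOn ?_
      rw [integrable_indicator_iff measurableSet_Ioc]
      exact integrableOn_const measure_Ioc_lt_top.ne
    have e3 : |(∫ u in Ioi (0:ℝ), w u * acut ep b u * (G (r * u) * eker x u).re) -
        ∫ u in Ioi (0:ℝ), (G (r * u) * eker x u).re| ≤
        (A * √r / π + 2 / (π * b)) * (r⁻¹ * N1) + 2 * ep * (M * r) := by
      rw [← integral_sub hI2 hI1]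
      have h1 : |∫ u in Ioi (0:ℝ), (w u * acut ep b u * (G (r * u) * eker x u).re -
          (G (r * u) * eker x u).re)| ≤ ∫ u in Ioi (0:ℝ),
          ((A * √r / π + 2 / (π * b)) * ‖G (r * u)‖ +
            (Ioc 0 (2 * ep)).indicator (fun _ => M * r) u) := by
        rw [← Real.norm_eq_abs]
        refine norm_integral_le_of_norm_le hI3 ((ae_restrict_iff' measurableSet_Ioi).2
          (Filter.Eventually.of_forall fun u hu => ?_))
        have hu0 : (0:ℝ) < u := hu
        obtain ⟨k1, k2⟩ := hw1 u hu0.le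
        have k3 : w u * acut ep b u * (G (r * u) * eker x u).re - (G (r * u) * eker x u).re =
            (w u - 1) * acut ep b u * (G (r * u) * eker x u).re -
              (1 - acut ep b u) * (G (r * u) * eker x u).re := by ring
        have k4 : |(G (r * u) * eker x u).re| ≤ ‖G (r * u)‖ * (1 / (π * u)) := by
          refine (Complex.abs_re_le_norm _).trans ?_
          rw [norm_mul]
          refine mul_le_mul_of_nonneg_left ?_ (norm_nonneg _)
          have := norm_eker_le' x hu0.ne'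
          rwa [abs_of_pos hu0] at this
        have k5 : |(G (r * u) * eker x u).re| ≤ M * r := by
          refine (Complex.abs_re_le_norm _).trans ?_
          rw [norm_mul]
          refine mul_le_mul (hM' _) ((norm_eker_le x u).trans ?_) (norm_nonneg _) hM0
          rw [abs_of_nonneg hx0]
          exact hxr
        have k6 : |(w u - 1) * acut ep b u * (G (r * u) * eker x u).re| ≤
            A * √r / π * ‖G (r * u)‖ := by
          rw [abs_mul, abs_mul, abs_of_nonneg (acut_nonneg _ _ _)]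
          calc |w u - 1| * acut ep b u * |(G (r * u) * eker x u).re|
              ≤ (A * √r * u) * 1 * (‖G (r * u)‖ * (1 / (π * u))) := by
                refine mul_le_mul (mul_le_mul k2 (acut_le_one _ _ _) (acut_nonneg _ _ _)
                  (by positivity)) k4 (abs_nonneg _) (by positivity)
            _ = A * √r / π * ‖G (r * u)‖ := by
                field_simp
        have k7 : |(1 - acut ep b u) * (G (r * u) * eker x u).re| ≤
            2 / (π * b) * ‖G (r * u)‖ + (Ioc 0 (2 * ep)).indicator (fun _ => M * r) u := by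
          have k8 : 0 ≤ 1 - acut ep b u := by linarith [acut_le_one ep b u]
          have k9 : 1 - acut ep b u ≤ 1 := by linarith [acut_nonneg ep b u]
          rw [abs_mul, abs_of_nonneg k8]
          have k10 : 0 ≤ 2 / (π * b) * ‖G (r * u)‖ := by positivity
          by_cases h2 : u ≤ 2 * ep
          · rw [indicator_of_mem (show u ∈ Ioc 0 (2 * ep) from ⟨hu0, h2⟩)]
            have : (1 - acut ep b u) * |(G (r * u) * eker x u).re| ≤ 1 * (M * r) :=
              mul_le_mul k9 k5 (abs_nonneg _) zero_le_one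
            linarith
          · rw [indicator_of_notMem (show u ∉ Ioc 0 (2 * ep) from fun h => h2 h.2), add_zero]
            by_cases h3 : u ≤ b / 2
            · rw [acut_mid hep hb (by linarith) h3, sub_self, zero_mul]
              exact k10
            · calc (1 - acut ep b u) * |(G (r * u) * eker x u).re|
                  ≤ 1 * (‖G (r * u)‖ * (1 / (π * u))) :=
                    mul_le_mul k9 k4 (abs_nonneg _) zero_le_one
                _ ≤ 2 / (π * b) * ‖G (r * u)‖ := by
                    rw [one_mul, mul_comm]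
                    refine mul_le_mul_of_nonneg_right ?_ (norm_nonneg _)
                    rw [div_le_div_iff₀ (by positivity) (by positivity)]
                    nlinarith
        rw [k3, Real.norm_eq_abs]
        refine (abs_sub _ _).trans ?_
        rw [add_mul]
        linarith
      refine h1.trans (le_of_eq ?_)
      rw [integral_add ((hsi _ hi1).const_mul _) ?_, integral_const_mul,
        hsc (fun ξ => ‖G ξ‖)]
      · congr 1
        rw [integral_indicator measurableSet_Ioc, Measure.restrict_restrict measurableSet_Ioc,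
          inter_eq_self_of_subset_left Ioc_subset_Ioi_self, setIntegral_const, smul_eq_mul]
        simp [hep.le]
      · refine Integrable.integrableOn ?_
        rw [integrable_indicator_iff measurableSet_Ioc]
        exact integrableOn_const measure_Ioc_lt_top.ne
    rw [e2]
    rw [e1] at hfg
    set I1 := ∫ u in Ioi (0:ℝ), w u * acut ep b u * (G (r * u) * eker x u).re
    set I2 := ∫ u in Ioi (0:ℝ), (G (r * u) * eker x u).re
    set J := ∫ t in (0:ℝ)..(x / r), f t
    have e4 : 2 * √r * I1 - √r * J = 2 * √r * (I1 - I2) - √r * (J - 2 * I2) := by ring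
    rw [e4]
    refine (abs_sub _ _).trans ?_
    rw [abs_mul (2 * √r), abs_mul √r, abs_of_pos (show 0 < 2 * √r by linarith), abs_of_pos hs0]
    have e5 : 2 * √r * |I1 - I2| ≤ 2 * √r * ((A * √r / π + 2 / (π * b)) * (r⁻¹ * N1) +
        2 * ep * (M * r)) := mul_le_mul_of_nonneg_left e3 (by linarith)
    have e6 : √r * |J - 2 * I2| ≤ √r * (ε / 4) := mul_le_mul_of_nonneg_left hfg.le hs0.le
    have e7 : 2 * √r * ((A * √r / π + 2 / (π * b)) * (r⁻¹ * N1)) ≤ K := by
      have h1 : 2 * √r * ((A * √r / π + 2 / (π * b)) * (r⁻¹ * N1)) =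
          (2 * A / π * (√r * √r / r) + 4 / (π * b) * (√r / r)) * N1 := by
        field_simp
        ring
      rw [h1, hsq, div_self hr0.ne', hK]
      refine mul_le_mul_of_nonneg_right ?_ hN10
      have h2 : √r / r ≤ 1 := by
        rw [div_le_one hr0]
        nlinarith
      have h3 : 0 ≤ 4 / (π * b) := by positivity
      nlinarith
    have e8 : 2 * √r * (2 * ep * (M * r)) ≤ √r * (ε / 4) := by
      have h1 : 2 * √r * (2 * ep * (M * r)) = √r * (4 * (ep * M * r)) := by ring
      rw [h1]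
      refine mul_le_mul_of_nonneg_left ?_ hs0.le
      nlinarith [mul_pos hep hr0]
    have e9 : K ≤ ε / 4 * √r := hs0K.trans (mul_le_mul_of_nonneg_left hsr (by linarith))
    nlinarith

end Pool.Agent.PF
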