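import Pool.Agent.ZGap.Res.Crowd

/-!
# Theorem P: the true count of a window against the smoothed counts
-/

namespace Pool.Agent.PF

open MeasureTheory Real Set Pool.Agent.Hadamard Pool.Agent.ZetaGaps Pool.Agent.ZGap.Res

/-- The smoothed count of a function which is at least `1` on a window is at least the number of
zeros in the window. -/
lemma count_le_NC_aux {ψ : ℝ → ℝ} {r T t : ℝ} (hL : 1 ≤ Real.log T)
    (hψ0 : ∀ x, 0 ≤ ψ x) {K : ℝ} (hK : ∀ x, |ψ x| ≤ K / (1 + x ^ 2))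
    (hψ1 : ∀ x, |x| ≤ r * Real.log T → 1 ≤ ψ x) (hr0 : 0 ≤ r) :
    (zeroCount (t + r) : ℝ) - zeroCount (t - r) ≤ NC ψ T t := by
  classical
  have hL0 : 0 < Real.log T := by linarith
  have hsub := zeroCount_sub (S := t - r) (T := t + r) (by linarith)
  have hsum := NC_summable hK hL t
  set Z := (finite_zerosUpTo (t + r)).toFinset.filter (fun ρ => t - r < ρ.im) with hZ
  have hZn : ∀ ρ ∈ Z, ρ ∈ ntz := by
    intro ρ hρ
    rw [hZ, Finset.mem_filter, Set.Finite.mem_toFinset, mem_zerosUpTo] at hρ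
    exact hρ.1.1
  have h1 := hsum.sum_le_tsum (Z.subtype (fun x => x ∈ ntz))
    (fun ρ' _ => mul_nonneg (Nat.cast_nonneg _) (hψ0 _))
  have h2 : ((∑ ρ ∈ Z, mult ρ : ℕ) : ℝ) ≤ ∑ ρ ∈ Z.subtype (fun x => x ∈ ntz),
      (mult ρ : ℝ) * ψ ((t - (ρ : ℂ).im) * Real.log T) := by
    rw [Finset.sum_subtype_of_mem (f := fun ρ : ℂ => (mult ρ : ℝ) * ψ ((t - ρ.im) * Real.log T))
      hZn, Nat.cast_sum]
    refine Finset.sum_le_sum fun ρ hρ => ?_
    rw [hZ, Finset.mem_filter, Set.Finite.mem_toFinset, mem_zerosUpTo] at hρ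
    have h3 : ρ.im ≤ t + r := hρ.1.2.2
    have h4 : t - r < ρ.im := hρ.2
    refine le_mul_of_one_le_right (Nat.cast_nonneg _) (hψ1 _ ?_)
    rw [abs_mul, abs_of_pos hL0]
    have h6 : |t - ρ.im| ≤ r := abs_le.mpr ⟨by linarith, by linarith⟩
    exact mul_le_mul_of_nonneg_right h6 hL0.le
  have h3 : (zeroCount (t + r) : ℝ) = zeroCount (t - r) + ((∑ ρ ∈ Z, mult ρ : ℕ) : ℝ) := by
    exact_mod_cast hsub
  have h4 : NC ψ T t = ∑' ρ : ntz, (mult ρ : ℝ) * ψ ((t - (ρ : ℂ).im) * Real.log T) := rfl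
  rw [h4]
  linarith

/-- The smoothed count of a function which is at most `1`, and at most `0` outside a window, is at
most the number of zeros in the window. -/
lemma NC_le_count_aux {ψ : ℝ → ℝ} {r T t : ℝ} (hL : 1 ≤ Real.log T)
    (hψ1 : ∀ x, ψ x ≤ 1) {K : ℝ} (hK : ∀ x, |ψ x| ≤ K / (1 + x ^ 2))
    (hψ0 : ∀ x, r * Real.log T ≤ |x| → ψ x ≤ 0) (ht : r < t) (hr0 : 0 ≤ r) :
    NC ψ T t ≤ (zeroCount (t + r) : ℝ) - zeroCount (t - r) := by
  classical
  have hL0 : 0 < Real.log T := by linarith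
  have hsub := zeroCount_sub (S := t - r) (T := t + r) (by linarith)
  have hsum := NC_summable hK hL t
  unfold NC
  refine hsum.tsum_le_of_sum_le fun s => ?_
  set s' : Finset ntz := s.filter (fun ρ : ntz => |t - (ρ : ℂ).im| < r) with hs'
  have h1 : ∑ ρ ∈ s, (mult ρ : ℝ) * ψ ((t - (ρ : ℂ).im) * Real.log T) ≤
      ∑ ρ ∈ s', (mult (ρ : ℂ) : ℝ) := by
    rw [hs', Finset.sum_filter]
    refine Finset.sum_le_sum fun ρ _ => ?_
    split_ifs with h
    · exact mul_le_of_le_one_right (Nat.cast_nonneg _) (hψ1 _)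
    · refine mul_nonpos_of_nonneg_of_nonpos (Nat.cast_nonneg _) (hψ0 _ ?_)
      rw [abs_mul, abs_of_pos hL0]
      exact mul_le_mul_of_nonneg_right (not_lt.mp h) hL0.le
  refine h1.trans ?_
  have h2 : ∑ ρ ∈ s', (mult (ρ : ℂ)) ≤
      ∑ ρ ∈ (finite_zerosUpTo (t + r)).toFinset.filter (fun ρ => t - r < ρ.im), mult ρ := by
    have e1 : ∑ ρ ∈ s', (mult (ρ : ℂ)) =
        ∑ ρ ∈ s'.map (Function.Embedding.subtype (fun x => x ∈ ntz)), mult ρ := by
      rw [Finset.sum_map]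
      rfl
    rw [e1]
    apply Finset.sum_le_sum_of_subset
    intro ρ hρ
    rw [Finset.mem_map] at hρ
    obtain ⟨ρ', hρ', rfl⟩ := hρ
    rw [hs', Finset.mem_filter] at hρ'
    have h3 := abs_lt.mp hρ'.2
    rw [Finset.mem_filter, Set.Finite.mem_toFinset, mem_zerosUpTo]
    refine ⟨⟨ρ'.2, ?_, ?_⟩, ?_⟩
    · show 0 < (ρ' : ℂ).im
      linarith [h3.2]
    · show (ρ' : ℂ).im ≤ t + r
      linarith [h3.1]
    · show t - r < (ρ' : ℂ).im
      linarith [h3.2]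
  have h3 : (∑ ρ ∈ s', (mult (ρ : ℂ) : ℝ)) ≤
      ((∑ ρ ∈ (finite_zerosUpTo (t + r)).toFinset.filter (fun ρ => t - r < ρ.im), mult ρ : ℕ) : ℝ) := by
    exact_mod_cast h2
  refine h3.trans ?_
  rw [hsub]
  push_cast
  linarith

theorem win_le_NC {ψ : ℝ → ℝ} (hψ : RS ψ) (h0 : ∀ x, 0 ≤ ψ x) {x1 x2 T t : ℝ}
    (hT : 1 ≤ Real.log T) (ht : 0 < t) (hx1 : 0 ≤ x1) (h12 : x1 ≤ x2)
    (h1 : ∀ x, |x| ≤ Real.pi * (x2 - x1) → 1 ≤ ψ x) :
    (zeroCount (t + 2 * Real.pi * x2 / Real.log T) : ℝ) -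
      zeroCount (t + 2 * Real.pi * x1 / Real.log T) ≤
      NC ψ T (t + Real.pi * (x1 + x2) / Real.log T) := by
  obtain ⟨K, -, hK⟩ := hψ.decay_two
  have hL0 : 0 < Real.log T := by linarith
  have hr : Real.pi * (x2 - x1) / Real.log T * Real.log T = Real.pi * (x2 - x1) :=
    div_mul_cancel₀ _ hL0.ne'
  have h := count_le_NC_aux (r := Real.pi * (x2 - x1) / Real.log T)
    (t := t + Real.pi * (x1 + x2) / Real.log T) hT h0 hK (fun x hx => h1 x (by rwa [hr] at hx))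
    (div_nonneg (mul_nonneg Real.pi_pos.le (by linarith)) hL0.le)
  have e1 : t + Real.pi * (x1 + x2) / Real.log T + Real.pi * (x2 - x1) / Real.log T =
      t + 2 * Real.pi * x2 / Real.log T := by ring
  have e2 : t + Real.pi * (x1 + x2) / Real.log T - Real.pi * (x2 - x1) / Real.log T =
      t + 2 * Real.pi * x1 / Real.log T := by ring
  rwa [e1, e2] at h

theorem NC_le_win {ψ : ℝ → ℝ} (hψ : RS ψ) (h1 : ∀ x, ψ x ≤ 1) {x1 x2 T t : ℝ}
    (hT : 1 ≤ Real.log T) (ht : 0 < t) (hx1 : 0 ≤ x1) (h12 : x1 ≤ x2)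
    (h0 : ∀ x, Real.pi * (x2 - x1) ≤ |x| → ψ x ≤ 0) :
    NC ψ T (t + Real.pi * (x1 + x2) / Real.log T) ≤
      (zeroCount (t + 2 * Real.pi * x2 / Real.log T) : ℝ) -
      zeroCount (t + 2 * Real.pi * x1 / Real.log T) := by
  obtain ⟨K, -, hK⟩ := hψ.decay_two
  have hL0 : 0 < Real.log T := by linarith
  have hr : Real.pi * (x2 - x1) / Real.log T * Real.log T = Real.pi * (x2 - x1) :=
    div_mul_cancel₀ _ hL0.ne'
  have e1 : t + Real.pi * (x1 + x2) / Real.log T + Real.pi * (x2 - x1) / Real.log T =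
      t + 2 * Real.pi * x2 / Real.log T := by ring
  have e2 : t + Real.pi * (x1 + x2) / Real.log T - Real.pi * (x2 - x1) / Real.log T =
      t + 2 * Real.pi * x1 / Real.log T := by ring
  have h3 : 0 ≤ 2 * Real.pi * x1 / Real.log T := by positivity
  have h := NC_le_count_aux (r := Real.pi * (x2 - x1) / Real.log T)
    (t := t + Real.pi * (x1 + x2) / Real.log T) hT h1 hK (fun x hx => h0 x (by rwa [hr] at hx))
    (by linarith) (div_nonneg (mul_nonneg Real.pi_pos.le (by linarith)) hL0.le)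
  rwa [e1, e2] at h

end Pool.Agent.PF
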