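import Pool.Agent.PF.Sta

/-!
# Profiles of sums of consecutive gaps: the Fejer symbol
-/

set_option autoImplicit false

namespace Pool.Agent.PF

open MeasureTheory Real Set Pool.Agent.ZGap.Res

/-! ### The Fejer symbol -/

namespace SymF

/-- The absolute value of the Fejer symbol. -/
noncomputable def tri (b u : ℝ) : ℝ := 2 / b * max 0 (1 - |u| / b)

lemma tri_nonneg {b : ℝ} (hb : 0 < b) (u : ℝ) : 0 ≤ tri b u :=
  mul_nonneg (by positivity) (le_max_left _ _)

lemma tri_le {b : ℝ} (hb : 0 < b) (u : ℝ) : tri b u ≤ 2 / b := by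
  unfold tri
  have h1 : max 0 (1 - |u| / b) ≤ 1 := max_le (by norm_num) (by
    have : 0 ≤ |u| / b := by positivity
    linarith)
  calc 2 / b * max 0 (1 - |u| / b) ≤ 2 / b * 1 := by gcongr
    _ = 2 / b := mul_one _

lemma tri_zero {b : ℝ} (hb : 0 < b) {u : ℝ} (hu : b ≤ u) : tri b u = 0 := by
  unfold tri
  have h0 : 0 < u := lt_of_lt_of_le hb hu
  have h1 : 1 ≤ |u| / b := by
    rw [abs_of_pos h0, le_div_iff₀ hb]
    linarith
  rw [max_eq_left (by linarith), mul_zero]

lemma tri_lip {b : ℝ} (hb : 0 < b) (x y : ℝ) : |tri b x - tri b y| ≤ 2 / b ^ 2 * |x - y| := by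
  unfold tri
  rw [← mul_sub, abs_mul, abs_of_pos (by positivity : (0:ℝ) < 2 / b)]
  have h1 : |max 0 (1 - |x| / b) - max 0 (1 - |y| / b)| ≤ |x - y| / b := by
    refine (abs_max_sub_max_le_max 0 (1 - |x| / b) 0 (1 - |y| / b)).trans ?_
    rw [sub_self, abs_zero, show 1 - |x| / b - (1 - |y| / b) = (|y| - |x|) / b by ring, abs_div,
      abs_of_pos hb]
    refine max_le (by positivity) ?_
    have h2 := abs_abs_sub_abs_le y x
    rw [abs_sub_comm x y]
    gcongr
  calc 2 / b * |max 0 (1 - |x| / b) - max 0 (1 - |y| / b)| ≤ 2 / b * (|x - y| / b) := by gcongr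
    _ = 2 / b ^ 2 * |x - y| := by
      field_simp

lemma norm_GF {b : ℝ} (hb : 0 < b) (s u : ℝ) : ‖GF b s u‖ = tri b u := by
  unfold GF
  rw [norm_mul, Complex.norm_exp_ofReal_mul_I, mul_one, Complex.norm_real, Real.norm_eq_abs]
  exact abs_of_nonneg (tri_nonneg hb u)

lemma exp_lip (x y : ℝ) :
    ‖Complex.exp ((x : ℂ) * Complex.I) - Complex.exp ((y : ℂ) * Complex.I)‖ ≤ |x - y| := by
  have h : Complex.exp ((x : ℂ) * Complex.I) - Complex.exp ((y : ℂ) * Complex.I) =
      Complex.exp ((y : ℂ) * Complex.I) * (Complex.exp (Complex.I * ((x - y : ℝ) : ℂ)) - 1) := by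
    rw [mul_sub, mul_one, ← Complex.exp_add]
    congr 2
    push_cast
    ring
  rw [h, norm_mul, Complex.norm_exp_ofReal_mul_I, one_mul]
  exact Real.norm_exp_I_mul_ofReal_sub_one_le

lemma tri_continuous (b : ℝ) : Continuous (tri b) := by
  unfold tri
  exact continuous_const.mul (continuous_const.max
    (continuous_const.sub (continuous_abs.div_const b)))

lemma GF_continuous (b s : ℝ) : Continuous (GF b s) := by
  unfold GF
  refine (Complex.continuous_ofReal.comp (tri_continuous b)).mul ?_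
  exact Complex.continuous_exp.comp ((Complex.continuous_ofReal.comp
    ((continuous_const.mul continuous_id).neg)).mul continuous_const)

lemma u_tri_le {b : ℝ} (hb : 0 < b) (u : ℝ) : u * tri b u ≤ 2 := by
  rcases le_total b u with h | h
  · rw [tri_zero hb h, mul_zero]
    norm_num
  · calc u * tri b u ≤ b * (2 / b) := mul_le_mul h (tri_le hb u) (tri_nonneg hb u) hb.le
      _ = 2 := by field_simp

end SymF

open SymF

theorem GF_ok {b : ℝ} (hb : 0 < b) (s : ℝ) : GOK (GF b s) b := by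
  refine ⟨⟨2 / b ^ 2 + 2 / b * |s|, fun x y => ?_⟩, ⟨2 / b, fun x => ?_⟩, fun u hu => ?_⟩
  · have h : GF b s x - GF b s y =
        ((tri b x - tri b y : ℝ) : ℂ) * Complex.exp (((-(s * x) : ℝ) : ℂ) * Complex.I) +
        ((tri b y : ℝ) : ℂ) * (Complex.exp (((-(s * x) : ℝ) : ℂ) * Complex.I) -
          Complex.exp (((-(s * y) : ℝ) : ℂ) * Complex.I)) := by
      unfold GF tri
      push_cast
      ring
    rw [h]
    refine (norm_add_le _ _).trans ?_
    rw [norm_mul, norm_mul, Complex.norm_exp_ofReal_mul_I, mul_one, Complex.norm_real,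
      Complex.norm_real, Real.norm_eq_abs, Real.norm_eq_abs, abs_of_nonneg (tri_nonneg hb y)]
    have h1 := tri_lip hb x y
    have h2 : ‖Complex.exp (((-(s * x) : ℝ) : ℂ) * Complex.I) -
        Complex.exp (((-(s * y) : ℝ) : ℂ) * Complex.I)‖ ≤ |s| * |x - y| := by
      refine (exp_lip _ _).trans (le_of_eq ?_)
      rw [← abs_mul, show -(s * x) - -(s * y) = -(s * (x - y)) by ring, abs_neg]
    calc |tri b x - tri b y| + tri b y * _ ≤ 2 / b ^ 2 * |x - y| + 2 / b * (|s| * |x - y|) :=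
          add_le_add h1 (mul_le_mul (tri_le hb y) h2 (norm_nonneg _) (by positivity))
      _ = (2 / b ^ 2 + 2 / b * |s|) * |x - y| := by ring
  · rw [norm_GF hb]
    exact tri_le hb x
  · rw [← norm_eq_zero, norm_GF hb]
    exact tri_zero hb hu

theorem GF_sq {b s : ℝ} (hb : 0 < b) (hb1 : b ≤ 1) :
    ∫ u in (0:ℝ)..1, u * ‖GF b s u‖ ^ 2 ≤ 2 := by
  have hc : Continuous fun u : ℝ => u * ‖GF b s u‖ ^ 2 :=
    continuous_id.mul ((GF_continuous b s).norm.pow 2)
  rw [← intervalIntegral.integral_add_adjacent_intervals (b := b)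
    (hc.intervalIntegrable 0 b) (hc.intervalIntegrable b 1)]
  have h2 : ∫ u in b..1, u * ‖GF b s u‖ ^ 2 = 0 := by
    refine intervalIntegral.integral_zero_ae (Filter.Eventually.of_forall fun u hu => ?_)
    rw [Set.uIoc_of_le hb1] at hu
    rw [norm_GF hb, tri_zero hb hu.1.le]
    simp
  have h1 : ∫ u in (0:ℝ)..b, u * ‖GF b s u‖ ^ 2 ≤ ∫ u in (0:ℝ)..b, 4 / b ^ 2 * u := by
    refine intervalIntegral.integral_mono_on hb.le (hc.intervalIntegrable 0 b)
      ((continuous_const.mul continuous_id).intervalIntegrable 0 b) fun u hu => ?_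
    rw [norm_GF hb]
    have h3 : tri b u ^ 2 ≤ (2 / b) ^ 2 := pow_le_pow_left₀ (tri_nonneg hb u) (tri_le hb u) 2
    calc u * tri b u ^ 2 ≤ u * (2 / b) ^ 2 := mul_le_mul_of_nonneg_left h3 hu.1
      _ = 4 / b ^ 2 * u := by ring
  rw [h2, add_zero]
  refine h1.trans (le_of_eq ?_)
  rw [intervalIntegral.integral_const_mul, integral_id]
  field_simp
  ring

theorem GF_mix (D : CData) {b s : ℝ} (hb : 0 < b) :
    ∫ u in (0:ℝ)..1, u * ‖GF b s u‖ * ‖(D.r : ℂ) * D.v u‖ ≤
      2 * ∫ u in (0:ℝ)..1, ‖(D.r : ℂ) * D.v u‖ := by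
  have hv : Continuous fun u : ℝ => ‖(D.r : ℂ) * D.v u‖ :=
    (continuous_const.mul D.v_smooth.continuous).norm
  rw [← intervalIntegral.integral_const_mul]
  refine intervalIntegral.integral_mono_on zero_le_one
    (((continuous_id.mul (GF_continuous b s).norm).mul hv).intervalIntegrable 0 1)
    ((continuous_const.mul hv).intervalIntegrable 0 1) fun u _ => ?_
  rw [norm_GF hb]
  exact mul_le_mul_of_nonneg_right (u_tri_le hb u) (norm_nonneg _)

theorem GF_mean (D : CData) {b s : ℝ} (hb : 0 < b) :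
    |mG D (GF b s)| ≤ 4 / b * ∫ u in (0:ℝ)..1, ‖(D.r : ℂ) * D.v u‖ := by
  have hv : Continuous fun u : ℝ => ‖(D.r : ℂ) * D.v u‖ :=
    (continuous_const.mul D.v_smooth.continuous).norm
  have h0 : Continuous fun u : ℝ =>
      (GF b s u * (starRingEnd ℂ) ((D.r : ℂ) * D.v u)).re :=
    Complex.continuous_re.comp ((GF_continuous b s).mul
      (Complex.continuous_conj.comp (continuous_const.mul D.v_smooth.continuous)))
  have h1 : |∫ u in (0:ℝ)..1, (GF b s u * (starRingEnd ℂ) ((D.r : ℂ) * D.v u)).re| ≤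
      ∫ u in (0:ℝ)..1, 2 / b * ‖(D.r : ℂ) * D.v u‖ := by
    refine (intervalIntegral.abs_integral_le_integral_abs zero_le_one).trans ?_
    refine intervalIntegral.integral_mono_on zero_le_one (h0.abs.intervalIntegrable 0 1)
      ((continuous_const.mul hv).intervalIntegrable 0 1) fun u _ => ?_
    refine (Complex.abs_re_le_norm _).trans ?_
    rw [norm_mul, Complex.norm_conj, norm_GF hb]
    exact mul_le_mul_of_nonneg_right (tri_le hb u) (norm_nonneg _)
  unfold mG
  rw [abs_mul, abs_two]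
  rw [intervalIntegral.integral_const_mul] at h1
  calc 2 * |∫ u in (0:ℝ)..1, (GF b s u * (starRingEnd ℂ) ((D.r : ℂ) * D.v u)).re|
      ≤ 2 * (2 / b * ∫ u in (0:ℝ)..1, ‖(D.r : ℂ) * D.v u‖) := by gcongr
    _ = 4 / b * ∫ u in (0:ℝ)..1, ‖(D.r : ℂ) * D.v u‖ := by ring

end Pool.Agent.PF
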