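import Pool.Agent.PF.Sta

/-!
# The symbol of a window count: kernel bounds, admissibility, mean square, mean
-/

open scoped ContDiff

namespace Pool.Agent.PF

open MeasureTheory Real Set Pool.Agent.ZGap.Res Pool.Agent.ZetaGaps


namespace SI

lemma norm_e (x ξ : ℝ) : ‖Complex.exp (2 * Real.pi * Complex.I * (x * ξ))‖ = 1 := by
  rw [show (2 * Real.pi * Complex.I * (x * ξ) : ℂ) =
    ((2 * Real.pi * (x * ξ) : ℝ) : ℂ) * Complex.I by push_cast; ring]
  exact Complex.norm_exp_ofReal_mul_I _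

lemma cont_e (ξ : ℝ) : Continuous fun x : ℝ =>
    Complex.exp (2 * Real.pi * Complex.I * (x * ξ)) := by fun_prop

end SI

theorem norm_ker_le (y ξ : ℝ) : ‖ker y ξ‖ ≤ |y| := by
  unfold ker
  have h := intervalIntegral.norm_integral_le_of_norm_le_const (a := 0) (b := y)
    (f := fun x : ℝ => Complex.exp (2 * Real.pi * Complex.I * (x * ξ))) (C := 1)
    (fun x _ => (SI.norm_e x ξ).le)
  simpa using h

theorem norm_ker_le' (y : ℝ) {ξ : ℝ} (hξ : 0 < ξ) : ‖ker y ξ‖ ≤ 1 / (Real.pi * ξ) := by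
  unfold ker
  have hc : (2 * Real.pi * Complex.I * ξ : ℂ) ≠ 0 := by
    have h1 : (Real.pi : ℂ) ≠ 0 := by exact_mod_cast Real.pi_ne_zero
    have h2 : (ξ : ℂ) ≠ 0 := by exact_mod_cast hξ.ne'
    exact mul_ne_zero (mul_ne_zero (mul_ne_zero two_ne_zero h1) Complex.I_ne_zero) h2
  have h3 : ∫ x in (0:ℝ)..y, Complex.exp (2 * Real.pi * Complex.I * (x * ξ)) =
      (Complex.exp (2 * Real.pi * Complex.I * ξ * y) -
        Complex.exp (2 * Real.pi * Complex.I * ξ * (0:ℝ))) / (2 * Real.pi * Complex.I * ξ) := by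
    rw [← integral_exp_mul_complex hc]
    congr 1
    funext x
    congr 1
    ring
  rw [h3, norm_div]
  have h4 : ‖(2 * Real.pi * Complex.I * ξ : ℂ)‖ = 2 * Real.pi * ξ := by
    rw [norm_mul, norm_mul, norm_mul, Complex.norm_I, Complex.norm_real, Complex.norm_real,
      Real.norm_of_nonneg Real.pi_pos.le, Real.norm_of_nonneg hξ.le]
    simp
  have h5 : ‖Complex.exp (2 * Real.pi * Complex.I * ξ * y) -
        Complex.exp (2 * Real.pi * Complex.I * ξ * (0:ℝ))‖ ≤ 2 := by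
    refine (norm_sub_le _ _).trans ?_
    have e1 : ‖Complex.exp (2 * Real.pi * Complex.I * ξ * y)‖ = 1 := by
      rw [show (2 * Real.pi * Complex.I * ξ * y : ℂ) = 2 * Real.pi * Complex.I * (y * ξ) by ring]
      exact SI.norm_e y ξ
    have e2 : ‖Complex.exp (2 * Real.pi * Complex.I * ξ * (0:ℝ))‖ = 1 := by simp
    rw [e1, e2]
    norm_num
  rw [h4, div_le_div_iff₀ (by positivity) (by positivity)]
  have h6 : 0 < Real.pi * ξ := by positivity
  nlinarith

namespace SI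

lemma norm_e_sub (x ξ η : ℝ) : ‖Complex.exp (2 * Real.pi * Complex.I * (x * ξ)) -
    Complex.exp (2 * Real.pi * Complex.I * (x * η))‖ ≤ 2 * Real.pi * |x| * |ξ - η| := by
  have e1 : (2 * Real.pi * Complex.I * (x * ξ) : ℂ) =
      2 * Real.pi * Complex.I * (x * η) + Complex.I * ((2 * Real.pi * x * (ξ - η) : ℝ) : ℂ) := by
    push_cast; ring
  rw [e1, Complex.exp_add]
  have e2 : Complex.exp (2 * Real.pi * Complex.I * (x * η)) *
      Complex.exp (Complex.I * ((2 * Real.pi * x * (ξ - η) : ℝ) : ℂ)) -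
      Complex.exp (2 * Real.pi * Complex.I * (x * η)) =
      Complex.exp (2 * Real.pi * Complex.I * (x * η)) *
      (Complex.exp (Complex.I * ((2 * Real.pi * x * (ξ - η) : ℝ) : ℂ)) - 1) := by ring
  rw [e2, norm_mul, norm_e, one_mul]
  refine (Real.norm_exp_I_mul_ofReal_sub_one_le).trans ?_
  rw [Real.norm_eq_abs, abs_mul, abs_mul, abs_mul, abs_of_pos Real.pi_pos,
    abs_of_pos (by norm_num : (0:ℝ) < 2)]

lemma ker_lip (y ξ η : ℝ) : ‖ker y ξ - ker y η‖ ≤ 2 * Real.pi * |y| ^ 2 * |ξ - η| := by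
  unfold ker
  rw [← intervalIntegral.integral_sub ((cont_e ξ).intervalIntegrable _ _)
    ((cont_e η).intervalIntegrable _ _)]
  have h := intervalIntegral.norm_integral_le_of_norm_le_const (a := 0) (b := y)
    (f := fun x : ℝ => Complex.exp (2 * Real.pi * Complex.I * (x * ξ)) -
      Complex.exp (2 * Real.pi * Complex.I * (x * η))) (C := 2 * Real.pi * |y| * |ξ - η|)
    (fun x hx => (norm_e_sub x ξ η).trans (by
      have hx' : |x| ≤ |y| := by
        rcases le_total 0 y with hy | hy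
        · rw [uIoc_of_le hy] at hx
          rw [abs_of_pos hx.1, abs_of_nonneg hy]; exact hx.2
        · rw [uIoc_of_ge hy] at hx
          rw [abs_of_nonpos hx.2, abs_of_nonpos hy]; linarith [hx.1]
      have h0 : 0 ≤ |ξ - η| := abs_nonneg _
      have hp := Real.pi_pos
      gcongr))
  refine h.trans (le_of_eq ?_)
  rw [sub_zero]
  ring

lemma ker_cont (y : ℝ) : Continuous fun ξ => ker y ξ := by
  have h : LipschitzWith (Real.toNNReal (2 * Real.pi * |y| ^ 2)) fun ξ => ker y ξ := by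
    refine LipschitzWith.of_dist_le_mul fun ξ η => ?_
    rw [dist_eq_norm, Real.dist_eq, Real.coe_toNNReal _ (by positivity)]
    exact ker_lip y ξ η
  exact h.continuous

lemma wB_cont (b : ℝ) : Continuous fun u => wB b u := by
  unfold wB
  fun_prop

lemma wB_nonneg (b u : ℝ) : 0 ≤ wB b u := sq_nonneg _

lemma wB_le (b u : ℝ) : wB b u ≤ 1 := by
  unfold wB
  have h1 : 0 ≤ max 0 (1 - (u / b) ^ 2) := le_max_left _ _
  have h2 : max 0 (1 - (u / b) ^ 2) ≤ 1 := max_le zero_le_one (by nlinarith [sq_nonneg (u / b)])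
  exact pow_le_one₀ h1 h2

lemma m_lip (s t : ℝ) : |max 0 (1 - s ^ 2) - max 0 (1 - t ^ 2)| ≤ 2 * |s - t| := by
  have key : ∀ s : ℝ, max 0 (1 - s ^ 2) = 1 - (min 1 |s|) ^ 2 := by
    intro s
    rcases le_total 1 |s| with h | h
    · rw [min_eq_left h, max_eq_left]
      · norm_num
      · have : 1 ≤ |s| ^ 2 := by nlinarith
        rw [sq_abs] at this
        linarith
    · rw [min_eq_right h, sq_abs, max_eq_right]
      have : |s| ^ 2 ≤ 1 := by nlinarith [abs_nonneg s]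
      rw [sq_abs] at this
      linarith
  rw [key, key]
  have h1 : |(min 1 |s|) - (min 1 |t|)| ≤ |s - t| := by
    refine (abs_min_sub_min_le_max 1 |s| 1 |t|).trans ?_
    rw [sub_self, abs_zero, max_eq_right (abs_nonneg _)]
    exact abs_abs_sub_abs_le_abs_sub s t
  have a1 : 0 ≤ min 1 |s| := le_min zero_le_one (abs_nonneg _)
  have a2 : 0 ≤ min 1 |t| := le_min zero_le_one (abs_nonneg _)
  have b1 : min 1 |s| ≤ 1 := min_le_left _ _
  have b2 : min 1 |t| ≤ 1 := min_le_left _ _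
  have e : 1 - (min 1 |s|) ^ 2 - (1 - (min 1 |t|) ^ 2) =
      -((min 1 |s| + min 1 |t|) * (min 1 |s| - min 1 |t|)) := by ring
  rw [e, abs_neg, abs_mul, abs_of_nonneg (add_nonneg a1 a2)]
  have h2 : 0 ≤ |(min 1 |s|) - (min 1 |t|)| := abs_nonneg _
  nlinarith

lemma wB_lip {b : ℝ} (hb : 0 < b) (u v : ℝ) : |wB b u - wB b v| ≤ 4 / b * |u - v| := by
  unfold wB
  set p := max 0 (1 - (u / b) ^ 2) with hp
  set q := max 0 (1 - (v / b) ^ 2) with hq
  have p0 : 0 ≤ p := le_max_left _ _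
  have q0 : 0 ≤ q := le_max_left _ _
  have p1 : p ≤ 1 := max_le zero_le_one (by nlinarith [sq_nonneg (u / b)])
  have q1 : q ≤ 1 := max_le zero_le_one (by nlinarith [sq_nonneg (v / b)])
  have h : |p - q| ≤ 2 * (|u - v| / b) := by
    have := m_lip (u / b) (v / b)
    rw [← sub_div, abs_div, abs_of_pos hb] at this
    exact this
  have e : p ^ 2 - q ^ 2 = (p + q) * (p - q) := by ring
  rw [e, abs_mul, abs_of_nonneg (add_nonneg p0 q0)]
  have h2 : 0 ≤ |p - q| := abs_nonneg _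
  have h3 : 4 / b * |u - v| = 2 * (2 * (|u - v| / b)) := by ring
  rw [h3]
  nlinarith

lemma norm_GI (b x u : ℝ) : ‖GI b x u‖ = 2 * wB b u * ‖ker x u‖ := by
  unfold GI
  rw [norm_mul, Complex.norm_conj, Complex.norm_real, Real.norm_eq_abs, abs_mul, abs_neg,
    abs_of_nonneg (wB_nonneg b u), abs_of_pos (by norm_num : (0:ℝ) < 2)]

lemma GI_cont (b x : ℝ) : Continuous fun u => GI b x u := by
  unfold GI
  exact (Complex.continuous_ofReal.comp (continuous_const.mul (wB_cont b))).mul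
    (Complex.continuous_conj.comp (ker_cont x))

lemma norm_GI_le (b x u : ℝ) : ‖GI b x u‖ ≤ 2 * ‖ker x u‖ := by
  rw [norm_GI]
  have h1 := wB_le b u
  have h2 := wB_nonneg b u
  have h3 := norm_nonneg (ker x u)
  nlinarith

end SI

theorem GI_ok {b : ℝ} (hb : 0 < b) (x : ℝ) : GOK (GI b x) b where
  lip := by
    refine ⟨8 / b * |x| + 4 * Real.pi * |x| ^ 2, fun u v => ?_⟩
    have e : GI b x u - GI b x v =
        ((-2 * (wB b u - wB b v) : ℝ) : ℂ) * (starRingEnd ℂ) (ker x u) +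
        ((-2 * wB b v : ℝ) : ℂ) * (starRingEnd ℂ) (ker x u - ker x v) := by
      unfold GI
      rw [map_sub]
      push_cast
      ring
    rw [e]
    refine (norm_add_le _ _).trans ?_
    rw [norm_mul, norm_mul, Complex.norm_conj, Complex.norm_conj, Complex.norm_real,
      Complex.norm_real, Real.norm_eq_abs, Real.norm_eq_abs, abs_mul, abs_mul, abs_neg,
      abs_of_pos (by norm_num : (0:ℝ) < 2), abs_of_nonneg (SI.wB_nonneg b v)]
    have h1 := SI.wB_lip hb u v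
    have h2 := norm_ker_le x u
    have h3 := SI.ker_lip x u v
    have h4 := SI.wB_le b v
    have h5 := SI.wB_nonneg b v
    have h6 : 2 * |wB b u - wB b v| * ‖ker x u‖ ≤ 2 * (4 / b * |u - v|) * |x| := by
      gcongr
    have h7 : 2 * wB b v * ‖ker x u - ker x v‖ ≤ 2 * 1 * (2 * Real.pi * |x| ^ 2 * |u - v|) := by
      gcongr
    calc 2 * |wB b u - wB b v| * ‖ker x u‖ + 2 * wB b v * ‖ker x u - ker x v‖
        ≤ 2 * (4 / b * |u - v|) * |x| + 2 * 1 * (2 * Real.pi * |x| ^ 2 * |u - v|) :=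
          add_le_add h6 h7
      _ = (8 / b * |x| + 4 * Real.pi * |x| ^ 2) * |u - v| := by ring
  bd := ⟨2 * |x|, fun u => (SI.norm_GI_le b x u).trans
    (by have := norm_ker_le x u; linarith)⟩
  van := by
    intro u hu
    have h1 : wB b u = 0 := by
      unfold wB
      have h2 : 1 ≤ u / b := by rw [le_div_iff₀ hb]; linarith
      have h3 : 1 - (u / b) ^ 2 ≤ 0 := by nlinarith
      rw [max_eq_left h3]
      norm_num
    unfold GI
    rw [h1]
    simp

namespace SI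

lemma sq_bound {x : ℝ} (hx : 0 ≤ x) {u : ℝ} (hu : 0 ≤ u) (b : ℝ) :
    u * ‖GI b x u‖ ^ 2 ≤ 8 * x ^ 2 * u / (1 + Real.pi ^ 2 * x ^ 2 * u ^ 2) := by
  rcases hu.eq_or_lt with h0 | h0
  · rw [← h0]; simp
  have hp := Real.pi_pos
  have h1 := norm_GI_le b x u
  have h2 := norm_ker_le x u
  rw [abs_of_nonneg hx] at h2
  have h3 := norm_ker_le' x h0
  set k := ‖ker x u‖ with hk
  have hk0 : 0 ≤ k := norm_nonneg _
  have h4 : Real.pi * u * k ≤ 1 := by
    rw [le_div_iff₀ (by positivity)] at h3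
    linarith
  have h5 : ‖GI b x u‖ ^ 2 ≤ 4 * k ^ 2 := by
    have := norm_nonneg (GI b x u)
    nlinarith
  have hden : 0 < 1 + Real.pi ^ 2 * x ^ 2 * u ^ 2 := by positivity
  rw [le_div_iff₀ hden]
  have h6 : k ^ 2 * (1 + Real.pi ^ 2 * x ^ 2 * u ^ 2) ≤ 2 * x ^ 2 := by
    have a1 : k ^ 2 ≤ x ^ 2 := by nlinarith
    have a2 : (Real.pi * u * k) ^ 2 ≤ 1 := by
      have : 0 ≤ Real.pi * u * k := by positivity
      nlinarith
    have a3 : k ^ 2 * (Real.pi ^ 2 * x ^ 2 * u ^ 2) = (Real.pi * u * k) ^ 2 * x ^ 2 := by ring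
    have a4 : (Real.pi * u * k) ^ 2 * x ^ 2 ≤ 1 * x ^ 2 := by gcongr
    nlinarith
  calc u * ‖GI b x u‖ ^ 2 * (1 + Real.pi ^ 2 * x ^ 2 * u ^ 2)
      ≤ u * (4 * k ^ 2) * (1 + Real.pi ^ 2 * x ^ 2 * u ^ 2) := by gcongr
    _ = 4 * u * (k ^ 2 * (1 + Real.pi ^ 2 * x ^ 2 * u ^ 2)) := by ring
    _ ≤ 4 * u * (2 * x ^ 2) := by gcongr
    _ = 8 * x ^ 2 * u := by ring

lemma int_bound (x : ℝ) :
    ∫ u in (0:ℝ)..1, 8 * x ^ 2 * u / (1 + Real.pi ^ 2 * x ^ 2 * u ^ 2) =
      4 / Real.pi ^ 2 * Real.log (1 + Real.pi ^ 2 * x ^ 2) := by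
  have hp := Real.pi_pos
  have hd : ∀ u ∈ uIcc (0:ℝ) 1, HasDerivAt
      (fun u : ℝ => 4 / Real.pi ^ 2 * Real.log (1 + Real.pi ^ 2 * x ^ 2 * u ^ 2))
      (8 * x ^ 2 * u / (1 + Real.pi ^ 2 * x ^ 2 * u ^ 2)) u := by
    intro u _
    have hden : 0 < 1 + Real.pi ^ 2 * x ^ 2 * u ^ 2 := by positivity
    have h1 : HasDerivAt (fun u : ℝ => 1 + Real.pi ^ 2 * x ^ 2 * u ^ 2)
        (Real.pi ^ 2 * x ^ 2 * (2 * u)) u := by
      have := ((hasDerivAt_pow 2 u).const_mul (Real.pi ^ 2 * x ^ 2)).const_add 1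
      simpa using this
    have h2 := (h1.log hden.ne').const_mul (4 / Real.pi ^ 2)
    have e : 4 / Real.pi ^ 2 * (Real.pi ^ 2 * x ^ 2 * (2 * u) /
        (1 + Real.pi ^ 2 * x ^ 2 * u ^ 2)) =
        8 * x ^ 2 * u / (1 + Real.pi ^ 2 * x ^ 2 * u ^ 2) := by
      field_simp
      ring
    rw [← e]
    exact h2
  have hint : IntervalIntegrable
      (fun u : ℝ => 8 * x ^ 2 * u / (1 + Real.pi ^ 2 * x ^ 2 * u ^ 2)) volume 0 1 := by
    apply Continuous.intervalIntegrable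
    refine Continuous.div (by fun_prop) (by fun_prop) fun u => ?_
    have hden : 0 < 1 + Real.pi ^ 2 * x ^ 2 * u ^ 2 := by positivity
    exact hden.ne'
  rw [intervalIntegral.integral_eq_sub_of_hasDerivAt hd hint]
  simp

lemma log_bound {x : ℝ} (hx : 0 ≤ x) :
    4 / Real.pi ^ 2 * Real.log (1 + Real.pi ^ 2 * x ^ 2) ≤ 2 + Real.log (1 + x) := by
  have hp := Real.pi_pos
  have hp3 := Real.pi_gt_three
  have hp4 := Real.pi_le_four
  have h1 : Real.log (1 + Real.pi ^ 2 * x ^ 2) ≤ 2 * Real.log (Real.pi * (1 + x)) := by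
    have e : 2 * Real.log (Real.pi * (1 + x)) = Real.log ((Real.pi * (1 + x)) ^ 2) := by
      rw [Real.log_pow]; norm_num
    rw [e]
    refine Real.log_le_log (by positivity) ?_
    nlinarith [mul_nonneg hp.le hx, mul_nonneg (sq_nonneg Real.pi) hx]
  have h2 : Real.log (Real.pi * (1 + x)) = Real.log Real.pi + Real.log (1 + x) :=
    Real.log_mul hp.ne' (by positivity)
  have h3 : 0 ≤ Real.log (1 + x) := Real.log_nonneg (by linarith)
  have h4 : Real.log Real.pi ≤ 2 := by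
    have : Real.log Real.pi ≤ Real.log 4 := Real.log_le_log hp hp4
    have h5 : Real.log 4 = 2 * Real.log 2 := by
      rw [show (4:ℝ) = 2 ^ 2 by norm_num, Real.log_pow]; norm_num
    linarith [Real.log_two_lt_d9]
  have h5 : 0 ≤ Real.log Real.pi := Real.log_nonneg (by linarith)
  have h6 : 8 / Real.pi ^ 2 ≤ 1 := by
    rw [div_le_one (by positivity)]
    nlinarith
  calc 4 / Real.pi ^ 2 * Real.log (1 + Real.pi ^ 2 * x ^ 2)
      ≤ 4 / Real.pi ^ 2 * (2 * Real.log (Real.pi * (1 + x))) := by gcongr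
    _ = 8 / Real.pi ^ 2 * (Real.log Real.pi + Real.log (1 + x)) := by rw [h2]; ring
    _ ≤ 1 * (Real.log Real.pi + Real.log (1 + x)) := by gcongr
    _ ≤ 2 + Real.log (1 + x) := by linarith

end SI

theorem GI_sq {b x : ℝ} (hb : 0 < b) (hx : 0 ≤ x) :
    ∫ u in (0:ℝ)..1, u * ‖GI b x u‖ ^ 2 ≤ 2 + Real.log (1 + x) := by
  have h1 : ∫ u in (0:ℝ)..1, u * ‖GI b x u‖ ^ 2 ≤
      ∫ u in (0:ℝ)..1, 8 * x ^ 2 * u / (1 + Real.pi ^ 2 * x ^ 2 * u ^ 2) := by
    refine intervalIntegral.integral_mono_on zero_le_one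
      (Continuous.intervalIntegrable (continuous_id.mul ((SI.GI_cont b x).norm.pow 2)) _ _) ?_
      fun u hu => SI.sq_bound hx hu.1 b
    apply Continuous.intervalIntegrable
    refine Continuous.div (by fun_prop) (by fun_prop) fun u => ?_
    have hden : 0 < 1 + Real.pi ^ 2 * x ^ 2 * u ^ 2 := by positivity
    exact hden.ne'
  rw [SI.int_bound] at h1
  exact h1.trans (SI.log_bound hx)

theorem GI_mix (D : CData) {b x : ℝ} (hb : 0 < b) :
    ∫ u in (0:ℝ)..1, u * ‖GI b x u‖ * ‖(D.r : ℂ) * D.v u‖ ≤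
      ∫ u in (0:ℝ)..1, ‖(D.r : ℂ) * D.v u‖ := by
  have hv : Continuous fun u => ‖(D.r : ℂ) * D.v u‖ :=
    (continuous_const.mul D.v_smooth.continuous).norm
  refine intervalIntegral.integral_mono_on zero_le_one
    (Continuous.intervalIntegrable ((continuous_id.mul (SI.GI_cont b x).norm).mul hv) _ _)
    (Continuous.intervalIntegrable hv _ _) fun u hu => ?_
  have h1 : u * ‖GI b x u‖ ≤ 1 := by
    rcases hu.1.eq_or_lt with h0 | h0
    · rw [← h0]; simp
    · have h2 := norm_ker_le' x h0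
      have h3 := SI.norm_GI_le b x u
      have hp := Real.pi_pos
      have hp3 := Real.pi_gt_three
      rw [le_div_iff₀ (by positivity)] at h2
      have h4 : u * ‖GI b x u‖ ≤ u * (2 * ‖ker x u‖) := by gcongr
      have h5 : 0 ≤ u * ‖ker x u‖ := by positivity
      nlinarith
  have h2 := norm_nonneg ((D.r : ℂ) * D.v u)
  nlinarith

theorem GI_mean (D : CData) (b x : ℝ) :
    mG D (GI b x) = -4 * D.r * ∫ u in (0:ℝ)..1, wB b u * (D.v u * ker x u).re := by
  unfold mG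
  have h1 : ∀ u : ℝ, (GI b x u * (starRingEnd ℂ) ((D.r : ℂ) * D.v u)).re =
      (-2 * D.r) * (wB b u * (D.v u * ker x u).re) := by
    intro u
    unfold GI
    have e : ((-2 * wB b u : ℝ) : ℂ) * (starRingEnd ℂ) (ker x u) *
        (starRingEnd ℂ) ((D.r : ℂ) * D.v u) =
        ((-2 * D.r * wB b u : ℝ) : ℂ) * (starRingEnd ℂ) (D.v u * ker x u) := by
      rw [map_mul, map_mul, Complex.conj_ofReal]
      push_cast
      ring
    rw [e, Complex.re_ofReal_mul, Complex.conj_re]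
    ring
  simp_rw [h1]
  rw [intervalIntegral.integral_const_mul]
  ring

end Pool.Agent.PF
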