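import Pool.Agent.PF.Pos78
import Pool.Agent.PF.VarD
import Pool.Agent.PF.Stat
import Pool.Agent.PF.SymI
import Pool.Agent.PF.SymF

/-!
# Profiles: from the second moments to the measure of the good centres
-/

open scoped ContDiff

namespace Pool.Agent.PF

open MeasureTheory Real Set Filter Pool.Agent.ZGap.Res Pool.Agent.ZetaGaps Pool.Agent.TypBlk
open Pool.Agent.ZShort

namespace Core

/-- The five shifts of a window. -/
noncomputable def sh (b x : ℝ) : Fin 5 → ℝ :=
  ![0, 0, Real.pi / b, 2 * Real.pi * x, 2 * Real.pi * x + Real.pi / b]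

/-- The five symbols of a window. -/
noncomputable def G5 (b x : ℝ) (j : Fin 5) : ℝ → ℂ := if j = 0 then GI b x else GF b (sh b x j)

lemma XB_continuous (I : Finset ℕ) (b : ℕ → ℂ) : Continuous (Var.XB I b) := by
  unfold Var.XB
  fun_prop

lemma XB_bound (I : Finset ℕ) (b : ℕ → ℂ) (t : ℝ) : |Var.XB I b t| ≤ ∑ p ∈ I, ‖b p‖ := by
  unfold Var.XB
  refine (Finset.abs_sum_le_sum_abs _ _).trans (Finset.sum_le_sum fun p _ => ?_)
  refine (Complex.abs_re_le_norm _).trans ?_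
  rw [norm_mul, Complex.norm_exp_ofReal_mul_I, mul_one]

lemma integrable_VX {V : ℝ → ℝ} (hV : Integrable V) (I : Finset ℕ) (b : ℕ → ℂ) (m : ℝ) :
    Integrable (fun t => V t * (Var.XB I b t - m) ^ 2) := by
  have hc := XB_continuous I b
  refine (hV.norm.mul_const ((∑ p ∈ I, ‖b p‖ + |m|) ^ 2)).mono'
    (hV.aestronglyMeasurable.mul (Continuous.aestronglyMeasurable (by fun_prop)))
    (Filter.Eventually.of_forall fun t => ?_)
  rw [norm_mul]
  refine mul_le_mul_of_nonneg_left ?_ (norm_nonneg _)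
  rw [Real.norm_of_nonneg (sq_nonneg _), ← sq_abs]
  have h1 := XB_bound I b t
  have h2 : |Var.XB I b t - m| ≤ |Var.XB I b t| + |m| := abs_sub _ _
  exact pow_le_pow_left₀ (abs_nonneg _) (by linarith) 2

/-- **The good centres, for fixed data.** -/
theorem core1 (hRH : RiemannHypothesis) {C0 C1 b : ℝ} (hb0 : 0 < b) (hb : b < 1) (hC0 : 0 < C0)
    (hC1 : 0 < C1)
    (hnear : ∀ x : ℝ, 0 ≤ x → ∀ η : ℝ, 0 < η → ∃ T0 : ℝ, ∀ T, T0 ≤ T → ∀ t ∈ Set.Icc T (2 * T),
      |(zeroCount (t + 2 * Real.pi * x / Real.log T) : ℝ) - zeroCount t - x -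
        Var.XB (PP T) (bG (GI b x) T) t| ≤
        C0 * ((1 / b - Var.XB (PP T) (bG (GF b 0) T) t) +
          (1 / b - Var.XB (PP T) (bG (GF b (Real.pi / b)) T) t) +
          (1 / b - Var.XB (PP T) (bG (GF b (2 * Real.pi * x)) T) t) +
          (1 / b - Var.XB (PP T) (bG (GF b (2 * Real.pi * x + Real.pi / b)) T) t)) +
        C1 * (1 / b + Real.log (2 + b * x)) + η)
    (D : CData) {K : ℝ} (hK : 0 ≤ K) (hF : ∀ y, 0 ≤ y → D.F y ≤ 1) (hF0 : 0 < D.F 0)
    (hlip : ∀ y z, 0 ≤ y → 0 ≤ z → |D.F y - D.F z| ≤ K * |y - z|)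
    (hSig : ∃ T0 : ℝ, ∀ T, T0 ≤ T → Nrm D T / 2 ≤ Sig D T)
    {a' a : ℝ} (h1 : 2 * (D.th + b) < a') (h2 : a' < a) (h3 : a < 1)
    (n : ℕ) (x P : ℕ → ℝ) (hx : ∀ i, 0 ≤ x i) {e e1 e2 LX AI AF : ℝ} (he : 0 < e)
    (hAI : ∀ i, i ≤ n → 6 * ((1 + (K / D.th) ^ 2) * (∫ u in (0:ℝ)..1, u * ‖GI b (x i) u‖ ^ 2) +
      2 * (K / D.th) ^ 2 *
        (∫ u in (0:ℝ)..1, u * ‖GI b (x i) u‖ * ‖(D.r : ℂ) * D.v u‖) ^ 2) < AI)
    (hAF : ∀ s, 6 * ((1 + (K / D.th) ^ 2) * (∫ u in (0:ℝ)..1, u * ‖GF b s u‖ ^ 2) +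
      2 * (K / D.th) ^ 2 *
        (∫ u in (0:ℝ)..1, u * ‖GF b s u‖ * ‖(D.r : ℂ) * D.v u‖) ^ 2) < AF)
    (hsum : ((n : ℝ) + 1) * (AI + 4 * AF) ≤ e ^ 2 / 4)
    (hmI : ∀ i, i ≤ n → |mG D (GI b (x i)) - P i| ≤ e1) (hmF : ∀ s, |mG D (GF b s)| ≤ e2)
    (hLX : ∀ i, i ≤ n → Real.log (2 + b * x i) ≤ LX) :
    ∃ c0 T0 : ℝ, 0 < c0 ∧ ∀ T, T0 ≤ T → ∀ y H, T ≤ y → y + H ≤ 2 * T → T ^ a ≤ H →
      c0 * H ≤ volume.real (Set.Icc y (y + H) ∩ {t : ℝ | ∀ i, i ≤ n →
        |(zeroCount (t + 2 * Real.pi * x i / Real.log T) : ℝ) - zeroCount t - x i - P i| ≤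
          e + e1 + C0 * (4 * (1 / b + e2 + e)) + C1 * (1 / b + LX) + 1}) := by
  have hth := th_pos D
  have ha' : 0 < a' := by linarith
  have hbp : 0 < 1 / b := by positivity
  obtain ⟨c0, T1, hc0, hpos⟩ := pos_of_weight hRH D hF hF0 ha' h2 h3
  obtain ⟨T2, hT2⟩ := hSig
  -- the variances
  have ev1 : ∀ᶠ T : ℝ in atTop, ∀ j ∈ (Finset.range (n + 1)) ×ˢ (Finset.univ : Finset (Fin 5)),
      ∀ t0 : ℝ, ∫ t : ℝ, ww (T ^ a' * Real.log T) T t0 t *
        (‖Amp D T t‖ ^ 2 * (Var.XB (PP T) (bG (G5 b (x j.1) j.2) T) t -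
          mG D (G5 b (x j.1) j.2)) ^ 2) ≤ (if j.2 = 0 then AI else AF) * Nrm D T := by
    rw [Filter.eventually_all_finset]
    rintro ⟨i, j⟩ hij
    rw [Finset.mem_product, Finset.mem_range] at hij
    have hi : i ≤ n := by omega
    by_cases hj : j = 0
    · obtain ⟨T0, hT0⟩ := stat_bound D hK hF hlip hb0 hb (GI_ok hb0 (x i)) h1 (hAI i hi)
      filter_upwards [eventually_ge_atTop T0] with T hT t0
      have := hT0 T hT t0
      simpa only [G5, hj, if_true] using this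
    · obtain ⟨T0, hT0⟩ := stat_bound D hK hF hlip hb0 hb (GF_ok hb0 (sh b (x i) j)) h1
        (hAF (sh b (x i) j))
      filter_upwards [eventually_ge_atTop T0] with T hT t0
      have := hT0 T hT t0
      simpa only [G5, hj, if_false] using this
  have ev2 : ∀ᶠ T : ℝ in atTop, ∀ i ∈ Finset.range (n + 1), ∀ t ∈ Set.Icc T (2 * T),
      |(zeroCount (t + 2 * Real.pi * x i / Real.log T) : ℝ) - zeroCount t - x i -
        Var.XB (PP T) (bG (GI b (x i)) T) t| ≤
        C0 * ((1 / b - Var.XB (PP T) (bG (GF b 0) T) t) +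
          (1 / b - Var.XB (PP T) (bG (GF b (Real.pi / b)) T) t) +
          (1 / b - Var.XB (PP T) (bG (GF b (2 * Real.pi * x i)) T) t) +
          (1 / b - Var.XB (PP T) (bG (GF b (2 * Real.pi * x i + Real.pi / b)) T) t)) +
        C1 * (1 / b + Real.log (2 + b * x i)) + 1 := by
    rw [Filter.eventually_all_finset]
    intro i hi
    obtain ⟨T0, hT0⟩ := hnear (x i) (hx i) 1 one_pos
    filter_upwards [eventually_ge_atTop T0] with T hT
    exact hT0 T hT
  have ev3 : ∀ᶠ T : ℝ in atTop, 2 ≤ T ^ (a' - 2 * D.th) :=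
    (tendsto_rpow_atTop (by linarith)).eventually_ge_atTop 2
  obtain ⟨T3, hT3⟩ := eventually_atTop.mp (ev1.and (ev2.and ev3))
  refine ⟨c0, max (Real.exp 2) (max T1 (max T2 T3)), hc0, fun T hT y H hy hyH hH => ?_⟩
  have hTe : Real.exp 2 ≤ T := (le_max_left _ _).trans hT
  have hTT1 : T1 ≤ T := (le_max_left _ _).trans ((le_max_right _ _).trans hT)
  have hTT2 : T2 ≤ T :=
    (le_max_left _ _).trans ((le_max_right _ _).trans ((le_max_right _ _).trans hT))
  have hTT3 : T3 ≤ T :=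
    (le_max_right _ _).trans ((le_max_right _ _).trans ((le_max_right _ _).trans hT))
  obtain ⟨g1, g2, g3⟩ := hT3 T hTT3
  have hTp : 0 < T := (Real.exp_pos 2).trans_le hTe
  have hT1 : 1 < T := lt_of_lt_of_le (Real.one_lt_exp_iff.mpr (by norm_num)) hTe
  have hL0 : 0 < Real.log T := Real.log_pos hT1
  have hKw : 0 < T ^ a' * Real.log T := mul_pos (Real.rpow_pos_of_pos hTp _) hL0
  have hN1 : 0 < Nrm D T := by
    unfold Nrm
    exact Finset.prod_pos fun p _ => by positivity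
  have hS2 := hT2 T hTT2
  set J := (Finset.range (n + 1)) ×ˢ (Finset.univ : Finset (Fin 5)) with hJ
  set X : ℕ × Fin 5 → ℝ → ℝ := fun j => Var.XB (PP T) (bG (G5 b (x j.1) j.2) T) with hX
  set G : Set ℝ := {t : ℝ | ∀ j ∈ J, |X j t - mG D (G5 b (x j.1) j.2)| < e} with hG
  have hGm : ∀ t0 : ℝ, MeasurableSet G ∧ Sig D T / 2 ≤
      ∫ t in G, VL D (T ^ a' * Real.log T) T t0 t := by
    intro t0
    have hVi := VL_integrable D hF hKw hTe t0
    refine weight_ge (V := VL D (T ^ a' * Real.log T) T t0) (fun t => VL_nonneg D hKw hT1 t0 t)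
      hVi J X (fun j _ => XB_continuous _ _) (μ := fun j => mG D (G5 b (x j.1) j.2))
      (e := fun _ => e) (fun _ _ => he) (fun j _ => integrable_VX hVi _ _ _) ?_ ?_
    · rw [← int_ww_sq D hT1 g3 t0]
      exact le_rfl
    · have hbd : ∀ j ∈ J, (∫ t, VL D (T ^ a' * Real.log T) T t0 t *
          (X j t - mG D (G5 b (x j.1) j.2)) ^ 2) / e ^ 2 ≤
          (if j.2 = 0 then AI else AF) * Nrm D T / e ^ 2 := by
        intro j hj
        refine div_le_div_of_nonneg_right ?_ (by positivity)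
        refine le_trans (le_of_eq ?_) (g1 j hj t0)
        refine integral_congr_ae (Filter.Eventually.of_forall fun t => ?_)
        simp only [VL, hX]
        ring
      refine (Finset.sum_le_sum hbd).trans ?_
      rw [← Finset.sum_div, ← Finset.sum_mul, hJ, Finset.sum_product]
      have hs5 : ∀ i ∈ Finset.range (n + 1), ∑ j : Fin 5, (if j = 0 then AI else AF) =
          AI + 4 * AF := by
        intro i _
        rw [Fin.sum_univ_succ]
        have : ∀ j : Fin 4, (if (Fin.succ j : Fin 5) = 0 then AI else AF) = AF := by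
          intro j
          rw [if_neg (Fin.succ_ne_zero j)]
        simp only [this, if_true, Finset.sum_const, Finset.card_univ, Fintype.card_fin]
        ring
      rw [Finset.sum_congr rfl hs5, Finset.sum_const, Finset.card_range, nsmul_eq_mul,
        div_le_iff₀ (by positivity)]
      push_cast
      have h8 : ((n : ℝ) + 1) * (AI + 4 * AF) * Nrm D T ≤ e ^ 2 / 4 * Nrm D T :=
        mul_le_mul_of_nonneg_right hsum hN1.le
      have h9 : e ^ 2 * (Nrm D T / 2) ≤ e ^ 2 * Sig D T :=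
        mul_le_mul_of_nonneg_left hS2 (by positivity)
      nlinarith
  have hS0 : 0 ≤ Sig D T := by linarith
  have h4 := hpos T hTT1 G (hGm 0).1 (fun t0 _ => (by linarith [(hGm t0).2])) y H hy hyH hH
  refine h4.trans (measureReal_mono ?_ ?_)
  · rintro t ⟨htG, htI⟩
    refine ⟨htI, fun i hi => ?_⟩
    have hiJ : ∀ j : Fin 5, (i, j) ∈ J := fun j => by
      rw [hJ, Finset.mem_product, Finset.mem_range]
      exact ⟨by omega, Finset.mem_univ _⟩
    have htT : t ∈ Set.Icc T (2 * T) := ⟨hy.trans htI.1, htI.2.trans hyH⟩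
    have k0 := htG (i, 0) (hiJ 0)
    have k1 := htG (i, 1) (hiJ 1)
    have k2 := htG (i, 2) (hiJ 2)
    have k3 := htG (i, 3) (hiJ 3)
    have k4 := htG (i, 4) (hiJ 4)
    have e10 : (1 : Fin 5) ≠ 0 := by decide
    have e20 : (2 : Fin 5) ≠ 0 := by decide
    have e30 : (3 : Fin 5) ≠ 0 := by decide
    have e40 : (4 : Fin 5) ≠ 0 := by decide
    simp only [hX, G5, if_true] at k0
    simp only [hX, G5, e10, if_false] at k1
    simp only [hX, G5, e20, if_false] at k2
    simp only [hX, G5, e30, if_false] at k3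
    simp only [hX, G5, e40, if_false] at k4
    have s1 : sh b (x i) 1 = 0 := rfl
    have s2 : sh b (x i) 2 = Real.pi / b := rfl
    have s3 : sh b (x i) 3 = 2 * Real.pi * x i := rfl
    have s4 : sh b (x i) 4 = 2 * Real.pi * x i + Real.pi / b := rfl
    rw [s1] at k1
    rw [s2] at k2
    rw [s3] at k3
    rw [s4] at k4
    have hmain := g2 i (Finset.mem_range.mpr (by omega)) t htT
    have m0 := hmI i hi
    have m1 := hmF 0
    have m2 := hmF (Real.pi / b)
    have m3 := hmF (2 * Real.pi * x i)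
    have m4 := hmF (2 * Real.pi * x i + Real.pi / b)
    have hL := hLX i hi
    have q1 : 1 / b - Var.XB (PP T) (bG (GF b 0) T) t ≤ 1 / b + e2 + e := by
      have := (abs_lt.mp k1).1
      have := (abs_le.mp m1).1
      linarith
    have q2 : 1 / b - Var.XB (PP T) (bG (GF b (Real.pi / b)) T) t ≤ 1 / b + e2 + e := by
      have := (abs_lt.mp k2).1
      have := (abs_le.mp m2).1
      linarith
    have q3 : 1 / b - Var.XB (PP T) (bG (GF b (2 * Real.pi * x i)) T) t ≤ 1 / b + e2 + e := by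
      have := (abs_lt.mp k3).1
      have := (abs_le.mp m3).1
      linarith
    have q4 : 1 / b - Var.XB (PP T) (bG (GF b (2 * Real.pi * x i + Real.pi / b)) T) t ≤
        1 / b + e2 + e := by
      have := (abs_lt.mp k4).1
      have := (abs_le.mp m4).1
      linarith
    have q5 : C0 * ((1 / b - Var.XB (PP T) (bG (GF b 0) T) t) +
          (1 / b - Var.XB (PP T) (bG (GF b (Real.pi / b)) T) t) +
          (1 / b - Var.XB (PP T) (bG (GF b (2 * Real.pi * x i)) T) t) +
          (1 / b - Var.XB (PP T) (bG (GF b (2 * Real.pi * x i + Real.pi / b)) T) t)) ≤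
        C0 * (4 * (1 / b + e2 + e)) := mul_le_mul_of_nonneg_left (by linarith) hC0.le
    have q6 : C1 * (1 / b + Real.log (2 + b * x i)) ≤ C1 * (1 / b + LX) :=
      mul_le_mul_of_nonneg_left (by linarith) hC1.le
    have a1 := abs_le.mp hmain
    have a2 := abs_lt.mp k0
    have a3 := abs_le.mp m0
    rw [abs_le]
    constructor
    · linarith [a1.1, a2.1, a3.1]
    · linarith [a1.2, a2.2, a3.2]
  · refine ne_top_of_le_ne_top ?_ (measure_mono Set.inter_subset_left)
    rw [Real.volume_Icc]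
    exact ENNReal.ofReal_ne_top

end Core

end Pool.Agent.PF
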