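import Pool.Agent.PF.M4Defs

/-!
# The data of a resonator with a given amplitude
-/

open scoped ContDiff

namespace Pool.Agent.PF

open MeasureTheory Real Set Pool.Agent.ZGap.Res

theorem exists_data {th x1 : ℝ} (hx1 : 0 < x1) (hx1' : x1 < 1) (hth : th < 1 / 2) :
    ∃ K : ℝ, 0 ≤ K ∧ ∀ (r ep b0 : ℝ) (v : ℝ → ℂ), 0 < ep → 2 * ep < th → b0 ≤ th →
      ContDiff ℝ ∞ v → (∀ u, ‖v u‖ ≤ 1) → (∀ u, u ≤ ep → v u = 0) → (∀ u, b0 ≤ u → v u = 0) →
      ∃ D : CData, D.th = th ∧ D.ep = ep ∧ D.r = r ∧ D.v = v ∧ (∀ y, D.F y ≤ 1) ∧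
        (∀ y, 0 ≤ y → y ≤ x1 → D.F y = 1) ∧ ∀ y z, |D.F y - D.F z| ≤ K * |y - z| := by
  let B : ContDiffBump (0 : ℝ) := ⟨x1, 1, hx1, hx1'⟩
  have hsm : ContDiff ℝ ∞ (B : ℝ → ℝ) := B.contDiff
  have hcs : HasCompactSupport (B : ℝ → ℝ) := B.hasCompactSupport
  have hs1 : ContDiff ℝ 1 (B : ℝ → ℝ) := hsm.of_le (by exact_mod_cast le_top)
  obtain ⟨K, hK⟩ := hs1.lipschitzWith_of_hasCompactSupport hcs one_ne_zero
  refine ⟨K, K.2, fun r ep b0 v hep hep2 hb0 hv hv1 hvl hvh => ?_⟩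
  refine ⟨{ th := th, ep := ep, r := r, v := v, F := B, ep_pos := hep, ep_th := hep2,
            th_lt := hth, v_smooth := hv, v_le := hv1, v_low := hvl,
            v_high := fun x hx => hvh x (by linarith), F_smooth := hsm, F_supp := hcs,
            F_nonneg := fun x => B.nonneg, F_one := fun x hx => ?_ },
    rfl, rfl, rfl, rfl, fun y => B.le_one, fun y hy hy1 => ?_, fun y z => ?_⟩
  · refine B.zero_of_le_dist ?_
    show (1 : ℝ) ≤ dist x 0
    rw [Real.dist_eq, sub_zero]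
    exact hx.trans (le_abs_self x)
  · refine B.one_of_mem_closedBall ?_
    rw [Metric.mem_closedBall, Real.dist_eq, sub_zero, abs_of_nonneg hy]
    exact hy1
  · have := hK.dist_le_mul y z
    rwa [Real.dist_eq, Real.dist_eq] at this

end Pool.Agent.PF
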