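import Mathlib

/-!
# Theorem P: from a mesh to all points
-/

namespace Pool.Agent.PF

open MeasureTheory Real Set

theorem mesh {g : ℝ → ℝ} (hg : Continuous g) {B : ℝ} (hB : ∀ x, |g x| ≤ B) {r σ e : ℝ}
    (hr : 1 ≤ r) (hBr : B ≤ Real.sqrt r) (hσ : 0 < σ) {n : ℕ} (hn : 2 * Real.sqrt r / σ + 1 ≤ n)
    {f : ℝ → ℝ} (hf : Monotone f)
    (h : ∀ i : ℕ, i ≤ n → |f (i * (σ * Real.sqrt r)) - i * (σ * Real.sqrt r) -
      Real.sqrt r * ∫ y in (0:ℝ)..(i * (σ * Real.sqrt r) / r), g y| ≤ e * Real.sqrt r) :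
    ∀ x ∈ Set.Icc (0:ℝ) (2 * r), |f x - x - Real.sqrt r * ∫ y in (0:ℝ)..(x / r), g y| ≤
      (e + 2 * σ) * Real.sqrt r := by
  intro x hx
  have hr0 : 0 < r := by linarith
  have hs0 : 0 < Real.sqrt r := Real.sqrt_pos.mpr hr0
  have hss : Real.sqrt r * Real.sqrt r = r := Real.mul_self_sqrt hr0.le
  set s : ℝ := σ * Real.sqrt r with hs
  have hspos : 0 < s := mul_pos hσ hs0
  -- the integral is Lipschitz
  have hG : ∀ a b : ℝ, a ≤ b → b - a ≤ s →
      |Real.sqrt r * (∫ y in (0:ℝ)..(b / r), g y) -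
        Real.sqrt r * (∫ y in (0:ℝ)..(a / r), g y)| ≤ s := by
    intro a b hab hbs
    have h1 : (∫ y in (0:ℝ)..(b / r), g y) - (∫ y in (0:ℝ)..(a / r), g y) =
        ∫ y in (a / r)..(b / r), g y :=
      intervalIntegral.integral_interval_sub_left (hg.intervalIntegrable _ _)
        (hg.intervalIntegrable _ _)
    rw [← mul_sub, h1, abs_mul, abs_of_pos hs0]
    have h2 : |∫ y in (a / r)..(b / r), g y| ≤ B * |b / r - a / r| := by
      rw [← Real.norm_eq_abs]
      exact intervalIntegral.norm_integral_le_of_norm_le_const fun y _ => by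
        rw [Real.norm_eq_abs]; exact hB y
    have h3 : |b / r - a / r| ≤ s / r := by
      rw [← sub_div, abs_div, abs_of_pos hr0, abs_of_nonneg (by linarith)]
      exact div_le_div_of_nonneg_right hbs hr0.le
    calc Real.sqrt r * |∫ y in (a / r)..(b / r), g y| ≤ Real.sqrt r * (Real.sqrt r * (s / r)) := by
          refine mul_le_mul_of_nonneg_left (h2.trans ?_) hs0.le
          exact mul_le_mul hBr h3 (abs_nonneg _) hs0.le
      _ = s := by
          rw [← mul_assoc, hss]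
          field_simp
  -- the mesh point below `x`
  set i : ℕ := ⌊x / s⌋₊ with hi
  have hxs : 0 ≤ x / s := div_nonneg hx.1 hspos.le
  have hi1 : (i : ℝ) * s ≤ x := by
    have := Nat.floor_le hxs
    rwa [← hi, le_div_iff₀ hspos] at this
  have hi2 : x ≤ (i + 1 : ℝ) * s := by
    have := (Nat.lt_floor_add_one (x / s)).le
    rwa [← hi, div_le_iff₀ hspos] at this
  have hin : i + 1 ≤ n := by
    have h1 : (i : ℝ) ≤ 2 * Real.sqrt r / σ := by
      rw [le_div_iff₀ hσ]
      have h2 : (i : ℝ) * s ≤ 2 * (Real.sqrt r * Real.sqrt r) := by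
        rw [hss]
        exact hi1.trans hx.2
      have h3 : (i : ℝ) * σ * Real.sqrt r ≤ 2 * Real.sqrt r * Real.sqrt r := by
        rw [hs] at h2
        linarith
      exact le_of_mul_le_mul_right h3 hs0
    have h4 : ((i + 1 : ℕ) : ℝ) ≤ n := by
      push_cast
      linarith
    exact_mod_cast h4
  have hlow := h i (by omega)
  have hup := h (i + 1) hin
  push_cast at hup
  have hGl := hG (i * s) x hi1 (by linarith)
  have hGu := hG x ((i + 1 : ℝ) * s) hi2 (by linarith)
  have hf1 : f ((i : ℝ) * s) ≤ f x := hf hi1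
  have hf2 : f x ≤ f ((i + 1 : ℝ) * s) := hf hi2
  rw [abs_le] at hlow hup hGl hGu ⊢
  have e1 : (e + 2 * σ) * Real.sqrt r = e * Real.sqrt r + 2 * s := by
    rw [hs]; ring
  rw [e1]
  constructor <;> linarith [hlow.1, hlow.2, hup.1, hup.2, hGl.1, hGl.2, hGu.1, hGu.2]

end Pool.Agent.PF
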