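import Pool.Agent.PF.SNc

/-!
# The count in a window against sums over primes
-/

namespace Pool.Agent.PF

open MeasureTheory Real Set Filter Topology ArithmeticFunction Pool.Agent.Hadamard
  Pool.Agent.DirPoly Pool.Agent.ZGap.Gen Pool.Agent.ZetaGaps
open Pool.Agent.ZGap.Res (PP)

namespace SN

lemma vm_sub_prime (b : ℕ → ℂ) (x : ℕ) (t : ℝ) : vmPoly b x t - primePoly b x t =
    ∑ n ∈ (Finset.Icc 1 x).filter (fun n => ¬ n.Prime),
      (vonMangoldt n : ℂ) * b n * (n : ℂ) ^ (-(1 / 2 + t * Complex.I) : ℂ) := by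
  rw [vmPoly, primePoly, ← Finset.sum_filter_add_sum_filter_not (Finset.Icc 1 x) Nat.Prime,
    add_sub_assoc, add_comm, sub_add_eq_add_sub, add_sub_assoc, add_eq_left, sub_eq_zero]
  refine Finset.sum_congr rfl fun p hp => ?_
  rw [Finset.mem_filter] at hp
  rw [vonMangoldt_apply_prime hp.2, mul_assoc, mul_assoc, mul_assoc,
    ← Complex.cpow_add _ _ (by exact_mod_cast hp.2.ne_zero)]
  congr 3
  ring_nf

lemma wB_nonneg (b u : ℝ) : 0 ≤ wB b u := sq_nonneg _

lemma wB_le_one (b u : ℝ) : wB b u ≤ 1 := by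
  unfold wB
  have h1 : 0 ≤ max 0 (1 - (u / b) ^ 2) := le_max_left _ _
  have h2 : max 0 (1 - (u / b) ^ 2) ≤ 1 := max_le zero_le_one (by nlinarith [sq_nonneg (u / b)])
  nlinarith

lemma wB_zero {b u : ℝ} (hb : 0 < b) (h : b ≤ u) : wB b u = 0 := by
  unfold wB
  have h1 : 1 ≤ u / b := by rwa [le_div_iff₀ hb, one_mul]
  rw [max_eq_left (by nlinarith)]
  norm_num

lemma err_small {b : ℝ} (hb : b < 1 / 2) :
    Tendsto (fun T : ℝ => T ^ b * (1 + Real.log (3 * T)) / Real.sqrt T) atTop (𝓝 0) := by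
  have h1 := (isLittleO_log_rpow_atTop (r := 1 / 2 - b) (by linarith)).tendsto_div_nhds_zero
  have h2 := (tendsto_rpow_neg_atTop (y := 1 / 2 - b) (by linarith)).const_mul (1 + Real.log 3)
  have h3 := h2.add h1
  rw [mul_zero, add_zero] at h3
  refine h3.congr' ?_
  filter_upwards [eventually_gt_atTop (0:ℝ)] with T hT
  rw [Real.log_mul (by norm_num) hT.ne', Real.sqrt_eq_rpow, Real.rpow_neg hT.le,
    Real.rpow_sub hT]
  have h4 : 0 < T ^ (1 / 2 : ℝ) := Real.rpow_pos_of_pos hT _
  have h5 : 0 < T ^ b := Real.rpow_pos_of_pos hT _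
  field_simp
  ring

lemma exp_le_floor {b T : ℝ} (hb : b < 1 / 2) (hL : 1 ≤ Real.log T) (hT : 0 < T) :
    Real.exp (b * Real.log T) ≤ (⌊T⌋₊ : ℝ) + 1 ∧ Real.exp (b * Real.log T) = T ^ b ∧ 2 ≤ T := by
  have h0 : Real.exp 1 ≤ T := by rwa [← Real.le_log_iff_exp_le hT]
  have h2 : 2 ≤ T := by have := Real.exp_one_gt_d9; linarith
  refine ⟨?_, ?_, h2⟩
  · have h3 : Real.exp (b * Real.log T) ≤ T := by
      calc Real.exp (b * Real.log T) ≤ Real.exp (Real.log T) :=
            Real.exp_le_exp.mpr (by nlinarith)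
        _ = T := Real.exp_log hT
    exact h3.trans (Nat.lt_floor_add_one T).le
  · rw [Real.rpow_def_of_pos hT, mul_comm]

/-- The error of the explicit formula in a dyadic range. -/
lemma SS_range (hRH : RiemannHypothesis) : ∃ C : ℝ, 0 < C ∧
    ∀ (P : PhiData) (b T t' : ℝ), 0 < T → b < 1 / 2 → 1 ≤ b * Real.log T → 1 ≤ Real.log T →
      T ≤ t' → t' ≤ 3 * T →
      |SS P (b * Real.log T) t' - (P.f0 0 / 2 * Real.log (t' / (2 * π)) -
        (vmPoly (bb P (b * Real.log T)) ⌊T⌋₊ t').re)| ≤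
        C * (T ^ b * (1 + Real.log (3 * T)) / Real.sqrt T) := by
  obtain ⟨C, hC, h⟩ := SS_near hRH
  refine ⟨C, hC, fun P b T t' hT hb hD hL h1 h2 => ?_⟩
  obtain ⟨e1, e2, e3⟩ := exp_le_floor hb hL hT
  refine (h P (b * Real.log T) ⌊T⌋₊ t' (by linarith) e1 (by linarith)).trans ?_
  rw [e2, mul_assoc, mul_div_assoc]
  have h3 : Real.log t' ≤ Real.log (3 * T) := Real.log_le_log (by linarith) h2
  have h4 : 0 ≤ Real.log t' := Real.log_nonneg (by linarith)
  have h5 : 0 < Real.sqrt T := Real.sqrt_pos.mpr hT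
  have h6 : Real.sqrt T ≤ Real.sqrt t' := Real.sqrt_le_sqrt h1
  have h7 : 0 ≤ T ^ b := (Real.rpow_pos_of_pos hT _).le
  have h8 : 0 ≤ T ^ b * (1 + Real.log (3 * T)) := mul_nonneg h7 (by linarith)
  gcongr

/-- The Fejer sums. -/
theorem fejer_le (hRH : RiemannHypothesis) : ∃ C C' : ℝ, 0 < C ∧ 0 < C' ∧
    ∀ b T s t : ℝ, 0 < T → 0 < b → b < 1 / 2 → 1 ≤ b * Real.log T → 1 ≤ Real.log T → 0 ≤ s →
      s ≤ T → T ≤ t → t ≤ 2 * T →
      1 / (b * Real.log T) * SS PJ (b * Real.log T) (t + s / Real.log T) ≤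
        1 / b - Var.XB (PP T) (bG (GF b s) T) t + C' / b +
          C * (T ^ b * (1 + Real.log (3 * T)) / Real.sqrt T) := by
  obtain ⟨C, hC, h⟩ := SS_range hRH
  obtain ⟨C3, hC3, h3⟩ := exists_vmPoly_sub_primePoly_le
  refine ⟨C, 2 * C3, hC, by positivity, fun b T s t hT hb hb1 hD hL hs hsT ht1 ht2 => ?_⟩
  set L := Real.log T with hLdef
  have hL0 : 0 < L := by linarith
  have hD0 : 0 < b * L := by linarith
  obtain ⟨e1, e2, e3⟩ := exp_le_floor hb1 hL hT
  set t' := t + s / L with ht'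
  have hs0 : 0 ≤ s / L := by positivity
  have hs1 : s / L ≤ T := by
    rw [div_le_iff₀ hL0]; nlinarith
  have h4 := h PJ b T t' hT hb1 hD hL (by linarith) (by linarith)
  have e4 : PJ.f0 0 / 2 = 1 := by
    show 2 * (1 - 0) / 2 = (1:ℝ)
    norm_num
  rw [e4, one_mul, ← hLdef] at h4
  have hfl : 2 ≤ ⌊T⌋₊ := Nat.le_floor (by exact_mod_cast e3)
  have h5 := h3 ⌊T⌋₊ 2 (bb PJ (b * L)) t' hfl (norm_bb_le hD0)
  have h6 : (primePoly (bb PJ (b * L)) ⌊T⌋₊ t').re - (vmPoly (bb PJ (b * L)) ⌊T⌋₊ t').re ≤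
      2 * C3 * L := by
    rw [← Complex.sub_re]
    refine (Complex.re_le_norm _).trans ?_
    rw [norm_sub_rev]
    refine h5.trans ?_
    have h7 : Real.log (⌊T⌋₊ : ℝ) ≤ L :=
      Real.log_le_log (by exact_mod_cast (by omega : 0 < ⌊T⌋₊)) (Nat.floor_le hT.le)
    nlinarith
  have h7 : Real.log (t' / (2 * π)) ≤ L := by
    have hpi := Real.pi_gt_three
    refine Real.log_le_log (div_pos (by linarith) (by linarith)) ?_
    rw [div_le_iff₀ (by positivity)]
    nlinarith
  have h8 := (abs_le.mp h4).2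
  rw [XB_GF hb hL0 s t, ← hLdef, ← ht']
  set E := T ^ b * (1 + Real.log (3 * T)) / Real.sqrt T with hE
  have hE0 : 0 ≤ E := by
    have h9 : 0 ≤ Real.log (3 * T) := Real.log_nonneg (by linarith)
    have := (Real.rpow_pos_of_pos hT b).le
    positivity
  have h9 : SS PJ (b * L) t' ≤ L - (primePoly (bb PJ (b * L)) ⌊T⌋₊ t').re + 2 * C3 * L + C * E := by
    linarith
  calc 1 / (b * L) * SS PJ (b * L) t'
      ≤ 1 / (b * L) * (L - (primePoly (bb PJ (b * L)) ⌊T⌋₊ t').re + 2 * C3 * L + C * E) := by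
        gcongr
    _ = 1 / b - 1 / (b * L) * (primePoly (bb PJ (b * L)) ⌊T⌋₊ t').re + 2 * C3 / b +
          1 / (b * L) * (C * E) := by
        field_simp
    _ ≤ _ := by
        have h10 : 1 / (b * L) * (C * E) ≤ 1 * (C * E) := by
          apply mul_le_mul_of_nonneg_right _ (by positivity)
          rw [div_le_one hD0]
          exact hD
        linarith

/-- The smoothed window count. -/
theorem window_near (hRH : RiemannHypothesis) : ∃ C C2 : ℝ, 0 < C ∧ 0 < C2 ∧
    ∀ b T x t : ℝ, 0 < T → 0 < b → b < 1 / 2 → 1 ≤ b * Real.log T → 1 ≤ Real.log T → 0 ≤ x →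
      2 * π * x ≤ T → T ≤ t → t ≤ 2 * T →
      |1 / π * (∫ s in (0:ℝ)..(2 * π * x / Real.log T), SS PK (b * Real.log T) (t + s)) - x -
        Var.XB (PP T) (bG (GI b x) T) t| ≤
        C2 * Real.log (2 + b * x) + (2 * x + C2 * (2 * x + 2 / (π * b))) / Real.log T +
          2 * x * (C * (T ^ b * (1 + Real.log (3 * T)) / Real.sqrt T)) := by
  obtain ⟨C, hC, hS⟩ := SS_range hRH
  obtain ⟨C2, hC2, hp⟩ := ppow_le
  refine ⟨C, 3 * C2, hC, by positivity, fun b T x t hT hb hb1 hD hL hx hxT ht1 ht2 => ?_⟩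
  have hpi := Real.pi_pos
  set L := Real.log T with hLdef
  have hL0 : 0 < L := by linarith
  have hD0 : 0 < b * L := by linarith
  obtain ⟨e1, e2, e3⟩ := exp_le_floor hb1 hL hT
  set h := 2 * π * x / L with hh
  have hh0 : 0 ≤ h := by positivity
  have hhT : h ≤ T := by
    rw [hh, div_le_iff₀ hL0]; nlinarith
  set E := T ^ b * (1 + Real.log (3 * T)) / Real.sqrt T with hE
  have hE0 : 0 ≤ E := by
    have h9 : 0 ≤ Real.log (3 * T) := Real.log_nonneg (by linarith)
    have := (Real.rpow_pos_of_pos hT b).le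
    positivity
  set X := ⌊T⌋₊ with hX
  -- the pieces
  have cF : ContinuousOn (fun s => SS PK (b * L) (t + s)) (Icc 0 h) :=
    SS_continuousOn hRH PK (by linarith) t h
  have cH : ContinuousOn (fun s => 1 / 2 * (Real.log ((t + s) / (2 * π)) - L)) (Icc 0 h) := by
    refine ContinuousOn.mul continuousOn_const (ContinuousOn.sub ?_ continuousOn_const)
    refine ContinuousOn.log (by fun_prop) fun s hs => ?_
    have : 0 < (t + s) / (2 * π) := div_pos (by linarith [hs.1]) (by positivity)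
    exact this.ne'
  have cV : Continuous fun s : ℝ => (vmPoly (bb PK (b * L)) X (t + s)).re :=
    Complex.continuous_re.comp ((vmPoly_continuous _ _).comp (by fun_prop))
  have iF := cF.intervalIntegrable_of_Icc (μ := volume) hh0
  have iH := cH.intervalIntegrable_of_Icc (μ := volume) hh0
  have iV := cV.intervalIntegrable (μ := volume) 0 h
  have iC : IntervalIntegrable (fun _ : ℝ => L / 2) volume 0 h := intervalIntegrable_const
  have iG : IntervalIntegrable (fun s => L / 2 + 1 / 2 * (Real.log ((t + s) / (2 * π)) - L) -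
      (vmPoly (bb PK (b * L)) X (t + s)).re) volume 0 h := (iC.add iH).sub iV
  have b1 : |∫ s in (0:ℝ)..h, (SS PK (b * L) (t + s) -
      (L / 2 + 1 / 2 * (Real.log ((t + s) / (2 * π)) - L) -
        (vmPoly (bb PK (b * L)) X (t + s)).re))| ≤ C * E * h := by
    have h1 := intervalIntegral.norm_integral_le_of_norm_le_const (a := (0:ℝ)) (b := h)
      (C := C * E) (f := fun s => SS PK (b * L) (t + s) -
      (L / 2 + 1 / 2 * (Real.log ((t + s) / (2 * π)) - L) -
        (vmPoly (bb PK (b * L)) X (t + s)).re)) (fun s hs => ?_)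
    · rw [sub_zero, abs_of_nonneg hh0, Real.norm_eq_abs] at h1
      exact h1
    · rw [uIoc_of_le hh0] at hs
      have h2 := hS PK b T (t + s) hT hb1 hD hL (by linarith [hs.1]) (by linarith [hs.2])
      rw [Real.norm_eq_abs]
      have e4 : PK.f0 0 / 2 = 1 / 2 := by
        show (1 - (0:ℝ) ^ 2) ^ 2 / 2 = 1 / 2
        norm_num
      rw [e4] at h2
      have e5 : L / 2 + 1 / 2 * (Real.log ((t + s) / (2 * π)) - L) =
          1 / 2 * Real.log ((t + s) / (2 * π)) := by ring
      rw [e5]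
      exact h2
  have b2 : |∫ s in (0:ℝ)..h, 1 / 2 * (Real.log ((t + s) / (2 * π)) - L)| ≤ 1 * h := by
    have h1 := intervalIntegral.norm_integral_le_of_norm_le_const (a := (0:ℝ)) (b := h)
      (C := 1) (f := fun s => 1 / 2 * (Real.log ((t + s) / (2 * π)) - L)) (fun s hs => ?_)
    · rw [sub_zero, abs_of_nonneg hh0, Real.norm_eq_abs] at h1
      exact h1
    · rw [uIoc_of_le hh0] at hs
      have hq : 0 < t + s := by linarith [hs.1]
      have h3 : Real.log ((t + s) / (2 * π)) - L = Real.log ((t + s) / T / (2 * π)) := by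
        rw [hLdef, Real.log_div hq.ne' (by positivity), Real.log_div (by positivity) (by positivity),
          Real.log_div hq.ne' hT.ne']
        ring
      have h4 : 1 ≤ (t + s) / T := by rw [le_div_iff₀ hT]; linarith [hs.1]
      have h5 : (t + s) / T ≤ 3 := by rw [div_le_iff₀ hT]; linarith [hs.2]
      have h6 : Real.log ((t + s) / T / (2 * π)) ≤ 0 := by
        refine Real.log_nonpos (by positivity) ?_
        rw [div_le_one (by positivity)]
        have := Real.pi_gt_three
        linarith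
      have h7 : -2 ≤ Real.log ((t + s) / T / (2 * π)) := by
        have h8 : Real.exp (-2) ≤ (t + s) / T / (2 * π) := by
          rw [le_div_iff₀ (by positivity)]
          have h9 : Real.exp (-2) * (2 * π) ≤ 1 := by
            rw [Real.exp_neg, inv_mul_le_iff₀ (Real.exp_pos 2), mul_one]
            have h10 : Real.exp 2 = Real.exp 1 * Real.exp 1 := by
              rw [← Real.exp_add]; norm_num
            have h11 := Real.exp_one_gt_d9
            have h12 := Real.pi_lt_d2
            rw [h10]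
            nlinarith
          linarith
        have h13 := Real.log_le_log (Real.exp_pos _) h8
        rwa [Real.log_exp] at h13
      rw [Real.norm_eq_abs, h3, abs_le]
      constructor <;> linarith
  have b3 := int_vmPoly (bb PK (b * L)) X t h
  have b4 := XB_GI hb hL0 x t
  rw [← hLdef, ← hh, ← hX] at b4
  have b5 := vm_sub_prime (fun n => bb PK (b * L) n * JJ h n) X t
  set R := ∑ n ∈ (Finset.Icc 1 X).filter (fun n => ¬ n.Prime),
      (vonMangoldt n : ℂ) * (fun n => bb PK (b * L) n * JJ h n) n *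
        (n : ℂ) ^ (-(1 / 2 + t * Complex.I) : ℂ) with hR
  have b6 : ‖R‖ ≤ 3 * C2 * Real.log (2 + b * x) + 3 * C2 * (2 * x + 2 / (π * b)) / L := by
    set g : ℝ → ℝ := fun u => wB b (u / L) * (2 / L * ‖ker x (u / L)‖) with hg
    have hg0 : ∀ u, 0 ≤ g u := fun u => mul_nonneg (wB_nonneg _ _) (by positivity)
    have h1 := hp ((2 * x + 2 / (π * b)) / L) (2 / π) (b * L) (by positivity) hD ?_ g ?_ ?_ ?_ X
    · have h2 : ‖R‖ ≤ ∑ n ∈ (Finset.Icc 1 X).filter (fun n => ¬ n.Prime),
          vonMangoldt n / Real.sqrt n * |g (Real.log n)| := by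
        rw [hR]
        refine (norm_sum_le _ _).trans (Finset.sum_le_sum fun n hn => ?_)
        rw [Finset.mem_filter, Finset.mem_Icc] at hn
        have hn0 : 0 < n := hn.1.1
        have h3 : ‖bb PK (b * L) n * JJ h n‖ = |g (Real.log n)| := by
          rw [abs_of_nonneg (hg0 _), norm_mul, hh, JJ_eq hL0, norm_mul, Complex.norm_conj]
          unfold bb
          rw [← wB_eq hb hL0 (Real.log_natCast_nonneg n), Complex.norm_real, Complex.norm_real,
            Real.norm_eq_abs, Real.norm_eq_abs, abs_of_nonneg (wB_nonneg _ _),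
            abs_of_nonneg (by positivity : 0 ≤ 2 / L)]
        show ‖(vonMangoldt n : ℂ) * (bb PK (b * L) n * JJ h n) *
          (n : ℂ) ^ (-(1 / 2 + t * Complex.I) : ℂ)‖ ≤ _
        rw [norm_mul, norm_mul, norm_cpow_line hn0, Complex.norm_real, Real.norm_eq_abs,
          abs_of_nonneg vonMangoldt_nonneg, h3]
        apply le_of_eq
        ring
      refine h2.trans (h1.trans ?_)
      have e6 : (2 * x + 2 / (π * b)) / L * (b * L) / (2 / π) = 1 + π * (b * x) := by
        field_simp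
        ring
      rw [e6]
      have hbx : 0 ≤ b * x := by positivity
      have h4 : Real.log (1 + π * (b * x)) ≤ 2 * Real.log (2 + b * x) := by
        have h5 : Real.log ((2 + b * x) ^ 2) = 2 * Real.log (2 + b * x) := by
          rw [Real.log_pow]; norm_num
        rw [← h5]
        refine Real.log_le_log (by positivity) ?_
        have := Real.pi_lt_four
        nlinarith
      have h5 : 1 / 2 ≤ Real.log (2 + b * x) := by
        have h6 : Real.log 2 ≤ Real.log (2 + b * x) := Real.log_le_log (by norm_num) (by linarith)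
        have := Real.log_two_gt_d9
        linarith
      have h6 : 2 / π ≤ 2 / 3 := by
        have := Real.pi_gt_three
        gcongr
      have h7 : 0 ≤ (2 * x + 2 / (π * b)) / L := by positivity
      have h8 : 2 / π * (1 + Real.log (1 + π * (b * x))) ≤ 3 * Real.log (2 + b * x) := by
        calc 2 / π * (1 + Real.log (1 + π * (b * x)))
            ≤ 2 / π * (4 * Real.log (2 + b * x)) := by gcongr; linarith
          _ ≤ 2 / 3 * (4 * Real.log (2 + b * x)) := by gcongr
          _ ≤ _ := by linarith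
      calc C2 * (2 / π * (1 + Real.log (1 + π * (b * x))) + (2 * x + 2 / (π * b)) / L)
          ≤ C2 * (3 * Real.log (2 + b * x) + 3 * ((2 * x + 2 / (π * b)) / L)) := by
            gcongr
            linarith
        _ = _ := by ring
    · have e7 : (2 * x + 2 / (π * b)) / L * (b * L) = 2 * (b * x) + 2 / π := by
        field_simp
      rw [e7]
      have : 0 ≤ b * x := by positivity
      linarith
    · intro u hu
      rw [abs_of_nonneg (hg0 u)]
      have h2 := norm_ker_le1 hx (u / L)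
      have h3 := wB_le_one b (u / L)
      have h4 := wB_nonneg b (u / L)
      calc g u ≤ 1 * (2 / L * x) := by
            show wB b (u / L) * (2 / L * ‖ker x (u / L)‖) ≤ 1 * (2 / L * x)
            gcongr
        _ = (2 * x) / L := by ring
        _ ≤ (2 * x + 2 / (π * b)) / L := by
            gcongr
            have : 0 ≤ 2 / (π * b) := by positivity
            linarith
    · intro u hu
      rw [abs_of_nonneg (hg0 u)]
      have h2 := norm_ker_le2 x (ξ := u / L) (by positivity)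
      have h3 := wB_le_one b (u / L)
      have h4 := wB_nonneg b (u / L)
      calc g u ≤ 1 * (2 / L * (1 / (π * (u / L)))) := by
            show wB b (u / L) * (2 / L * ‖ker x (u / L)‖) ≤ _
            gcongr
        _ = 2 / π / u := by field_simp
    · intro u hu
      show wB b (u / L) * (2 / L * ‖ker x (u / L)‖) = 0
      rw [wB_zero hb (by rw [le_div_iff₀ hL0]; exact hu.le), zero_mul]
  -- assembly
  have a1 : ∫ s in (0:ℝ)..h, SS PK (b * L) (t + s) =
      (∫ s in (0:ℝ)..h, (SS PK (b * L) (t + s) -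
      (L / 2 + 1 / 2 * (Real.log ((t + s) / (2 * π)) - L) -
        (vmPoly (bb PK (b * L)) X (t + s)).re))) + L / 2 * h +
      (∫ s in (0:ℝ)..h, 1 / 2 * (Real.log ((t + s) / (2 * π)) - L)) -
      ∫ s in (0:ℝ)..h, (vmPoly (bb PK (b * L)) X (t + s)).re := by
    rw [intervalIntegral.integral_sub iF iG, intervalIntegral.integral_sub (iC.add iH) iV,
      intervalIntegral.integral_add iC iH, intervalIntegral.integral_const]
    simp only [smul_eq_mul, sub_zero]
    ring
  have a2 : (vmPoly (fun n => bb PK (b * L) n * JJ h n) X t).re =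
      -Var.XB (PP T) (bG (GI b x) T) t + R.re := by
    rw [b4, neg_neg, ← b5, Complex.sub_re]
    ring
  have a3 : 1 / π * (L / 2 * h) = x := by
    rw [hh]
    field_simp
  have a4 : 1 / π * (∫ s in (0:ℝ)..h, SS PK (b * L) (t + s)) - x -
      Var.XB (PP T) (bG (GI b x) T) t =
      1 / π * (∫ s in (0:ℝ)..h, (SS PK (b * L) (t + s) -
      (L / 2 + 1 / 2 * (Real.log ((t + s) / (2 * π)) - L) -
        (vmPoly (bb PK (b * L)) X (t + s)).re))) +
      1 / π * (∫ s in (0:ℝ)..h, 1 / 2 * (Real.log ((t + s) / (2 * π)) - L)) - R.re := by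
    rw [a1]
    linear_combination a3 - b3 - a2
  rw [a4]
  have a5 : |R.re| ≤ ‖R‖ := Complex.abs_re_le_norm R
  have a6 : |1 / π * (∫ s in (0:ℝ)..h, (SS PK (b * L) (t + s) -
      (L / 2 + 1 / 2 * (Real.log ((t + s) / (2 * π)) - L) -
        (vmPoly (bb PK (b * L)) X (t + s)).re)))| ≤ 2 * x * (C * E) := by
    rw [abs_mul, abs_of_pos (by positivity : 0 < 1 / π)]
    calc 1 / π * |_| ≤ 1 / π * (C * E * h) := by gcongr
      _ = 2 * x * (C * E) / L := by rw [hh]; field_simp
      _ ≤ 2 * x * (C * E) := div_le_self (by positivity) hL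
  have a7 : |1 / π * (∫ s in (0:ℝ)..h, 1 / 2 * (Real.log ((t + s) / (2 * π)) - L))| ≤
      2 * x / L := by
    rw [abs_mul, abs_of_pos (by positivity : 0 < 1 / π)]
    calc 1 / π * |_| ≤ 1 / π * (1 * h) := by gcongr
      _ = 2 * x / L := by rw [hh]; field_simp
  refine (abs_sub _ _).trans ?_
  refine (add_le_add (abs_add_le _ _) le_rfl).trans ?_
  have a8 : (2 * x + 3 * C2 * (2 * x + 2 / (π * b))) / L =
      2 * x / L + 3 * C2 * (2 * x + 2 / (π * b)) / L := by ring
  rw [a8]
  linarith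

end SN

open SN in
/-- **The count in a window against sums over primes.** -/
theorem count_near (hRH : RiemannHypothesis) : ∃ C0 C1 : ℝ, 0 < C0 ∧ 0 < C1 ∧
    ∀ b : ℝ, 0 < b → b < 1 / 2 → ∀ x : ℝ, 0 ≤ x → ∀ η : ℝ, 0 < η → ∃ T0 : ℝ, ∀ T, T0 ≤ T →
      ∀ t ∈ Set.Icc T (2 * T),
      |(zeroCount (t + 2 * Real.pi * x / Real.log T) : ℝ) - zeroCount t - x -
        Var.XB (PP T) (bG (GI b x) T) t| ≤
        C0 * ((1 / b - Var.XB (PP T) (bG (GF b 0) T) t) +
          (1 / b - Var.XB (PP T) (bG (GF b (Real.pi / b)) T) t) +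
          (1 / b - Var.XB (PP T) (bG (GF b (2 * Real.pi * x)) T) t) +
          (1 / b - Var.XB (PP T) (bG (GF b (2 * Real.pi * x + Real.pi / b)) T) t)) +
        C1 * (1 / b + Real.log (2 + b * x)) + η := by
  obtain ⟨C0, hC0, hcount⟩ := count_sub_le hRH
  obtain ⟨CF, CF', hCF, hCF', hfej⟩ := fejer_le hRH
  obtain ⟨CW, C2, hCW, hC2, hwin⟩ := window_near hRH
  refine ⟨C0, C0 * (4 * CF') + C2, hC0, by positivity, fun b hb hb1 x hx η hη => ?_⟩
  have hpi := Real.pi_pos
  have e1 : ∀ᶠ T : ℝ in atTop, (C0 * (4 * CF) + 2 * x * CW) *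
      (T ^ b * (1 + Real.log (3 * T)) / Real.sqrt T) ≤ η / 2 := by
    have h1 := (err_small hb1).const_mul (C0 * (4 * CF) + 2 * x * CW)
    rw [mul_zero] at h1
    exact h1.eventually_le_const (by positivity)
  have e2 : ∀ᶠ T : ℝ in atTop, (2 * x + C2 * (2 * x + 2 / (π * b))) / Real.log T ≤ η / 2 := by
    have h1 := Real.tendsto_log_atTop.const_div_atTop (2 * x + C2 * (2 * x + 2 / (π * b)))
    exact h1.eventually_le_const (by positivity)
  have e3 : ∀ᶠ T : ℝ in atTop, max 1 (1 / b) ≤ Real.log T :=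
    Real.tendsto_log_atTop.eventually_ge_atTop _
  obtain ⟨T0, hT0⟩ := eventually_atTop.mp
    (((e1.and e2).and e3).and (eventually_ge_atTop (max 1 (2 * π * x + π / b))))
  refine ⟨T0, fun T hT t ht => ?_⟩
  obtain ⟨⟨⟨h1, h2⟩, h3⟩, h4⟩ := hT0 T hT
  have hL : 1 ≤ Real.log T := (le_max_left _ _).trans h3
  have hLb : 1 / b ≤ Real.log T := (le_max_right _ _).trans h3
  have hT1 : 1 ≤ T := (le_max_left _ _).trans h4
  have hTx : 2 * π * x + π / b ≤ T := (le_max_right _ _).trans h4
  have hT0' : 0 < T := by linarith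
  have hD : 1 ≤ b * Real.log T := by
    rw [div_le_iff₀ hb] at hLb
    linarith
  have hpb : 0 < π / b := by positivity
  have hxx : 0 ≤ 2 * π * x := by positivity
  set L := Real.log T with hLdef
  set E := T ^ b * (1 + Real.log (3 * T)) / Real.sqrt T with hE
  have k0 := hcount (b * L) t (2 * π * x / L) (by linarith) (by linarith [ht.1]) (by positivity)
  have k1 := hwin b T x t hT0' hb hb1 hD hL hx (by linarith) ht.1 ht.2
  have f0 := hfej b T 0 t hT0' hb hb1 hD hL le_rfl hT0'.le ht.1 ht.2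
  have f1 := hfej b T (π / b) t hT0' hb hb1 hD hL hpb.le (by linarith) ht.1 ht.2
  have f2 := hfej b T (2 * π * x) t hT0' hb hb1 hD hL hxx (by linarith) ht.1 ht.2
  have f3 := hfej b T (2 * π * x + π / b) t hT0' hb hb1 hD hL (by linarith) hTx ht.1 ht.2
  rw [← hLdef, ← hE] at f0 f1 f2 f3
  rw [← hLdef, ← hE] at k1
  have hL0 : 0 < L := by linarith
  have g0 : t + 0 / L = t := by rw [zero_div, add_zero]
  have g1 : t + π / b / L = t + π / (b * L) := by rw [div_div]
  have g3 : t + (2 * π * x + π / b) / L = t + 2 * π * x / L + π / (b * L) := by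
    rw [add_div, div_div, add_assoc]
  rw [g0] at f0
  rw [g1] at f1
  rw [g3] at f3
  set S0 := SS PJ (b * L) t
  set S1 := SS PJ (b * L) (t + π / (b * L))
  set S2 := SS PJ (b * L) (t + 2 * π * x / L)
  set S3 := SS PJ (b * L) (t + 2 * π * x / L + π / (b * L))
  set X0 := Var.XB (PP T) (bG (GF b 0) T) t
  set X1 := Var.XB (PP T) (bG (GF b (π / b)) T) t
  set X2 := Var.XB (PP T) (bG (GF b (2 * π * x)) T) t
  set X3 := Var.XB (PP T) (bG (GF b (2 * π * x + π / b)) T) t
  have m1 : 1 / (b * L) * (S0 + S1 + S2 + S3) ≤ (1 / b - X0) + (1 / b - X1) + (1 / b - X2) +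
      (1 / b - X3) + 4 * (CF' / b) + 4 * (CF * E) := by
    have : 1 / (b * L) * (S0 + S1 + S2 + S3) = 1 / (b * L) * S0 + 1 / (b * L) * S1 +
      1 / (b * L) * S2 + 1 / (b * L) * S3 := by ring
    rw [this]
    linarith
  have m2 := mul_le_mul_of_nonneg_left m1 hC0.le
  have m3 : C2 * Real.log (2 + b * x) + C0 * (4 * (CF' / b)) ≤
      (C0 * (4 * CF') + C2) * (1 / b + Real.log (2 + b * x)) := by
    have h5 : 0 ≤ Real.log (2 + b * x) := by
      have : 0 ≤ b * x := by positivity
      exact Real.log_nonneg (by linarith)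
    have h6 : 0 ≤ 1 / b := by positivity
    have h7 : C0 * (4 * (CF' / b)) = C0 * (4 * CF') * (1 / b) := by ring
    rw [h7]
    have h8 : 0 ≤ C0 * (4 * CF') := by positivity
    nlinarith [mul_nonneg h8 h5, mul_nonneg hC2.le h6]
  have m4 : |((zeroCount (t + 2 * π * x / L) : ℝ) - zeroCount t) - x -
      Var.XB (PP T) (bG (GI b x) T) t| ≤
      |((zeroCount (t + 2 * π * x / L) : ℝ) - zeroCount t) -
        1 / π * ∫ s in (0:ℝ)..(2 * π * x / L), SS PK (b * L) (t + s)| +
      |1 / π * (∫ s in (0:ℝ)..(2 * π * x / L), SS PK (b * L) (t + s)) - x -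
        Var.XB (PP T) (bG (GI b x) T) t| := by
    refine le_trans (le_of_eq ?_) (abs_add_le _ _)
    congr 1
    ring
  refine m4.trans ((add_le_add k0 k1).trans ?_)
  have m5 : C0 * (4 * (CF * E)) + 2 * x * (CW * E) ≤ η / 2 := by
    have : C0 * (4 * (CF * E)) + 2 * x * (CW * E) = (C0 * (4 * CF) + 2 * x * CW) * E := by ring
    rw [this]
    exact h1
  linarith

end Pool.Agent.PF
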