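import Pool.Agent.PF.Pos78

/-!
# Complex amplitude: density in an interval from the weight of half of its windows
-/

open scoped ContDiff

namespace Pool.Agent.PF

open MeasureTheory Real Set Pool.Agent.ZGap.Res Pool.Agent.TypBlk Pool.Agent.ZShort

/-- **From the weight to the density**: if `G` has a quarter of the weight of at least half of the
windows of length `T ^ α'` with centre in `[y, y + H]`, `H ≥ T ^ α`, then it has positive density
in this interval. -/
theorem pos_of_weight_set (hRH : RiemannHypothesis) (D : CData) (hF : ∀ x, 0 ≤ x → D.F x ≤ 1)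
    (hF0 : 0 < D.F 0) {α' α : ℝ} (h0 : 0 < α') (hα : α' < α) (hα1 : α < 1) :
    ∃ c0 T0 : ℝ, 0 < c0 ∧ ∀ T : ℝ, T0 ≤ T → ∀ G : Set ℝ, MeasurableSet G →
      ∀ y H : ℝ, T ≤ y → y + H ≤ 2 * T → T ^ α ≤ H → ∀ Gs : Set ℝ, MeasurableSet Gs →
      H / 2 ≤ volume.real (Gs ∩ Icc y (y + H)) →
      (∀ t0 ∈ Gs ∩ Icc y (y + H), Sig D T / 4 ≤ ∫ t in G, VL D (T ^ α' * Real.log T) T t0 t) →
      c0 * H ≤ volume.real (G ∩ Icc y (y + H)) := by
  have hα0 : 0 < α := by linarith
  -- the exponents
  set a : ℝ := (α' + α) / 2 with ha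
  have e2 : α' < a := by rw [ha]; linarith
  have e3 : a < α := by rw [ha]; linarith
  set b : ℕ := ⌈1 / α⌉₊ with hb
  have hbα : 1 / α ≤ (b : ℝ) := Nat.le_ceil _
  have hb0 : (0 : ℝ) < b := lt_of_lt_of_le (by positivity) hbα
  have hb1 : 1 ≤ b := Nat.succ_le_of_lt (by exact_mod_cast hb0)
  have hbinv : 1 / (b : ℝ) ≤ α := by
    rw [div_le_iff₀ hb0]
    rw [div_le_iff₀ hα0] at hbα
    linarith
  obtain ⟨Tc, hTc3, htail⟩ := exists_tail D hF h0 e2 (by linarith)
  obtain ⟨K1, Tf, hK1, hTf2, hfour⟩ := fourth_moment_short hRH hb1 D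
  set s0 : ℝ := D.F 0 ^ 4 with hs0
  have hs0p : 0 < s0 := by positivity
  set m1 : ℝ := s0 / 8 with hm1
  have hm1p : 0 < m1 := by positivity
  set μ : ℝ := m1 / (4 * K1) with hμ
  have hμ0 : 0 < μ := by positivity
  have hlim1 : ∀ᶠ T : ℝ in Filter.atTop, 2 ≤ T ^ (α - a) :=
    (tendsto_rpow_atTop (by linarith)).eventually_ge_atTop 2
  obtain ⟨T5, hT5⟩ := Filter.eventually_atTop.mp hlim1
  refine ⟨m1 * μ / 4, max Tc (max (max Tf T5) (8 / s0)), by positivity, fun T hT G hG y H hy hyH hH Gs hGs hGH hw => ?_⟩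
  have hTc : Tc ≤ T := (le_max_left _ _).trans hT
  have hTf : Tf ≤ T :=
    (le_max_left _ _).trans ((le_max_left _ _).trans ((le_max_right _ _).trans hT))
  have hTT5 : T5 ≤ T :=
    (le_max_right _ _).trans ((le_max_left _ _).trans ((le_max_right _ _).trans hT))
  have hT8 : 8 / s0 ≤ T := (le_max_right _ _).trans ((le_max_right _ _).trans hT)
  have hTe : Real.exp 3 ≤ T := hTc3.trans hTc
  have hTe2 : Real.exp 2 ≤ T := (Real.exp_le_exp.mpr (by norm_num)).trans hTe
  have h1T : 1 < T := lt_of_lt_of_le (Real.one_lt_exp_iff.mpr (by norm_num)) hTe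
  have hTp : 0 < T := by linarith
  have hL3 : 3 ≤ Real.log T := by rw [Real.le_log_iff_exp_le hTp]; exact hTe
  have hL : 0 < Real.log T := by linarith
  have hHp : 0 < H := (Real.rpow_pos_of_pos hTp _).trans_le hH
  have haH : T ^ a ≤ H := (Real.rpow_le_rpow_of_exponent_le h1T.le e3.le).trans hH
  have haT : 0 < T ^ a := Real.rpow_pos_of_pos hTp _
  have hK0 : 0 < T ^ α' * Real.log T := mul_pos (Real.rpow_pos_of_pos hTp _) hL
  -- the set
  set E : Set ℝ := G ∩ Icc y (y + H) with hE
  have hEI : E ⊆ Icc y (y + H) := fun t ht => ht.2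
  have hEmeas : MeasurableSet E := hG.inter measurableSet_Icc
  have hEb : Bornology.IsBounded E := (Metric.isBounded_Icc _ _).subset hEI
  have hSig : s0 ≤ Sig D T := K.le_Sig
  have haH2 : 2 * T ^ a ≤ H := by
    have h1 := hT5 T hTT5
    calc 2 * T ^ a ≤ T ^ (α - a) * T ^ a := mul_le_mul_of_nonneg_right h1 haT.le
      _ = T ^ α := by rw [← Real.rpow_add hTp]; congr 1; ring
      _ ≤ H := hH
  have hcen : ∀ t0 ∈ Gs ∩ Icc (y + T ^ a / 4) (y + H - T ^ a / 4),
      m1 ≤ ∫ t in E, (Real.log T / (T ^ α' * Real.log T)) *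
        WW ((t - t0) * (Real.log T / (T ^ α' * Real.log T))) * ‖Amp D T t‖ ^ 2 := by
    rintro t0 ⟨ht0g, ht0⟩
    have hiV := VL_integrable D hF hK0 hTe2 t0
    have h4 := hw t0 ⟨ht0g, ⟨by linarith [ht0.1], by linarith [ht0.2]⟩⟩
    have h5 := htail T hTc t0
    set Fa : Set ℝ := {t : ℝ | T ^ a / 4 < |t - t0|} with hFa
    have hFam : MeasurableSet Fa := measurableSet_lt measurable_const (by fun_prop)
    have hsub : G ⊆ E ∪ Fa := by
      intro t ht
      by_cases h : T ^ a / 4 < |t - t0|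
      · exact Or.inr h
      · refine Or.inl ⟨ht, ?_⟩
        have h2 := abs_le.mp (not_lt.mp h)
        exact ⟨by linarith [ht0.1, h2.1], by linarith [ht0.2, h2.2]⟩
    have h6 : ∫ t in G, VL D (T ^ α' * Real.log T) T t0 t ≤
        (∫ t in E, VL D (T ^ α' * Real.log T) T t0 t) +
        ∫ t in Fa, VL D (T ^ α' * Real.log T) T t0 t := by
      calc _ ≤ ∫ t in E ∪ Fa, VL D (T ^ α' * Real.log T) T t0 t :=
            setIntegral_mono_set hiV.integrableOn
              (Filter.Eventually.of_forall fun t => VL_nonneg D hK0 h1T t0 t)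
              (Filter.Eventually.of_forall hsub)
        _ ≤ _ := by
            have h7 : ∫ t in E ∪ Fa, VL D (T ^ α' * Real.log T) T t0 t =
                (∫ t in E \ Fa, VL D (T ^ α' * Real.log T) T t0 t) +
                ∫ t in Fa, VL D (T ^ α' * Real.log T) T t0 t := by
              rw [← sdiff_union_self, setIntegral_union disjoint_sdiff_left hFam
                hiV.integrableOn hiV.integrableOn]
            rw [h7]
            have h8 : ∫ t in E \ Fa, VL D (T ^ α' * Real.log T) T t0 t ≤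
                ∫ t in E, VL D (T ^ α' * Real.log T) T t0 t :=
              setIntegral_mono_set hiV.integrableOn
                (Filter.Eventually.of_forall fun t => VL_nonneg D hK0 h1T t0 t)
                (Filter.Eventually.of_forall sdiff_subset)
            linarith
    have h9 : 1 / T ≤ s0 / 8 := by
      rw [div_le_div_iff₀ hTp (by norm_num)]
      rw [div_le_iff₀ hs0p] at hT8
      linarith
    have h10 : m1 ≤ ∫ t in E, VL D (T ^ α' * Real.log T) T t0 t := by
      rw [hm1]
      linarith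
    exact h10
  have hAc := Amp_continuous D T
  have hcm := centre_mass (a := Real.log T / (T ^ α' * Real.log T)) (by positivity)
    (G := fun t => ‖Amp D T t‖ ^ 2) (by fun_prop) (fun t => by positivity) hEb
    (hGs.inter measurableSet_Icc) hm1p.le hcen
  have hGG : H / 4 ≤ volume.real (Gs ∩ Icc (y + T ^ a / 4) (y + H - T ^ a / 4)) := by
    have h1 : Gs ∩ Icc y (y + H) ⊆ (Gs ∩ Icc (y + T ^ a / 4) (y + H - T ^ a / 4)) ∪
        (Icc y (y + T ^ a / 4) ∪ Icc (y + H - T ^ a / 4) (y + H)) := by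
      rintro t ⟨ht, ht2⟩
      by_cases c1 : t < y + T ^ a / 4
      · exact Or.inr (Or.inl ⟨ht2.1, c1.le⟩)
      · by_cases c2 : y + H - T ^ a / 4 < t
        · exact Or.inr (Or.inr ⟨c2.le, ht2.2⟩)
        · exact Or.inl ⟨ht, not_lt.mp c1, not_lt.mp c2⟩
    have fin : ∀ u v : ℝ, volume (Icc u v) ≠ ⊤ := fun u v => by
      rw [Real.volume_Icc]; exact ENNReal.ofReal_ne_top
    have h2 : volume ((Gs ∩ Icc (y + T ^ a / 4) (y + H - T ^ a / 4)) ∪
        (Icc y (y + T ^ a / 4) ∪ Icc (y + H - T ^ a / 4) (y + H))) ≠ ⊤ :=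
      measure_union_ne_top (ne_top_of_le_ne_top (fin _ _) (measure_mono inter_subset_right))
        (measure_union_ne_top (fin _ _) (fin _ _))
    have h3 := measureReal_mono h1 h2
    have h4 := measureReal_union_le (μ := volume) (Gs ∩ Icc (y + T ^ a / 4) (y + H - T ^ a / 4))
      (Icc y (y + T ^ a / 4) ∪ Icc (y + H - T ^ a / 4) (y + H))
    have h5 := measureReal_union_le (μ := volume) (Icc y (y + T ^ a / 4))
      (Icc (y + H - T ^ a / 4) (y + H))
    rw [Real.volume_real_Icc_of_le (by linarith), Real.volume_real_Icc_of_le (by linarith)] at h5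
    linarith
  -- the fourth moment
  have hf := hfour T hTf y H (by linarith) (by linarith)
    ((Real.rpow_le_rpow_of_exponent_le h1T.le hbinv).trans hH) 0
  simp only [sub_zero, abs_zero, add_zero, one_pow, mul_one] at hf
  have hup := cs_step hHp.le hμ0 hEI hf
  have hlow : m1 * (H / 4) ≤ ∫ t in E, ‖Amp D T t‖ ^ 2 := by
    refine le_trans ?_ hcm
    gcongr
  have e5 : μ / 2 * (K1 * H) = m1 * H / 8 := by
    rw [hμ]
    field_simp
    ring
  have h20 : m1 * H / 8 ≤ 1 / (2 * μ) * volume.real E := by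
    have : 0 ≤ m1 * H := by positivity
    linarith
  have h21 : 2 * μ * (m1 * H / 8) ≤ 2 * μ * (1 / (2 * μ) * volume.real E) :=
    mul_le_mul_of_nonneg_left h20 (by positivity)
  have h22 : 2 * μ * (1 / (2 * μ) * volume.real E) = volume.real E := by field_simp
  rw [h22] at h21
  calc m1 * μ / 4 * H = 2 * μ * (m1 * H / 8) := by ring
    _ ≤ _ := h21

end Pool.Agent.PF
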