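import Pool.Agent.PF.Core1
import Pool.Agent.PF.AAX
import Pool.Agent.PF.PosAA78

/-!
# Profiles in almost all intervals: the good centres off a small exceptional set, for fixed data
-/

open scoped ContDiff

namespace Pool.Agent.PF

open MeasureTheory Real Set Filter Pool.Agent.ZGap.Res Pool.Agent.ZetaGaps Pool.Agent.TypBlk
open Pool.Agent.ZShort

namespace CoreAA

/-- A property of the centres which holds off a small exceptional set. -/
def Off (Q : ℝ → ℝ → Prop) : Prop :=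
  ∃ c T0 : ℝ, 0 < c ∧ ∀ T, T0 ≤ T → ∃ E : Set ℝ, MeasurableSet E ∧ E ⊆ Set.Icc T (2 * T) ∧
    volume.real E ≤ T ^ (1 - c) ∧ ∀ t0 ∈ Set.Icc T (2 * T), t0 ∉ E → Q T t0

lemma Off.and {P Q : ℝ → ℝ → Prop} (hP : Off P) (hQ : Off Q) : Off fun T t => P T t ∧ Q T t := by
  obtain ⟨c1, T1, hc1, h1⟩ := hP
  obtain ⟨c2, T2, hc2, h2⟩ := hQ
  set c := min c1 c2 with hc
  have hc0 : 0 < c := lt_min hc1 hc2
  obtain ⟨T3, hT3⟩ := Filter.eventually_atTop.mp
    ((tendsto_rpow_atTop (show 0 < c / 2 by positivity)).eventually_ge_atTop 2)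
  refine ⟨c / 2, max (max T1 T2) (max T3 1), by positivity, fun T hT => ?_⟩
  have hT1 : T1 ≤ T := (le_max_left _ _).trans ((le_max_left _ _).trans hT)
  have hT2 : T2 ≤ T := (le_max_right _ _).trans ((le_max_left _ _).trans hT)
  have hT3' : T3 ≤ T := (le_max_left _ _).trans ((le_max_right _ _).trans hT)
  have hT4 : 1 ≤ T := (le_max_right _ _).trans ((le_max_right _ _).trans hT)
  have hTp : 0 < T := by linarith
  obtain ⟨E1, a1, a2, a3, a4⟩ := h1 T hT1
  obtain ⟨E2, b1, b2, b3, b4⟩ := h2 T hT2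
  refine ⟨E1 ∪ E2, a1.union b1, Set.union_subset a2 b2, ?_, fun t0 ht0 hn => ?_⟩
  · have k1 : T ^ (1 - c1) ≤ T ^ (1 - c) :=
      Real.rpow_le_rpow_of_exponent_le hT4 (by linarith [min_le_left c1 c2])
    have k2 : T ^ (1 - c2) ≤ T ^ (1 - c) :=
      Real.rpow_le_rpow_of_exponent_le hT4 (by linarith [min_le_right c1 c2])
    have k3 : T ^ (1 - c / 2) = T ^ (c / 2) * T ^ (1 - c) := by
      rw [← Real.rpow_add hTp]; ring_nf
    have k4 : 0 ≤ T ^ (1 - c) := Real.rpow_nonneg hTp.le _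
    have k5 := mul_le_mul_of_nonneg_right (hT3 T hT3') k4
    rw [k3]
    refine (measureReal_union_le _ _).trans ?_
    linarith
  · rw [Set.mem_union, not_or] at hn
    exact ⟨a4 t0 ht0 hn.1, b4 t0 ht0 hn.2⟩

lemma Off.true : Off fun _ _ => True :=
  ⟨1, 0, one_pos, fun T _ => ⟨∅, MeasurableSet.empty, Set.empty_subset _, by
    rw [measureReal_empty]
    norm_num, fun _ _ _ => trivial⟩⟩

lemma Off.finset {ι : Type*} (J : Finset ι) {P : ι → ℝ → ℝ → Prop} (h : ∀ j ∈ J, Off (P j)) :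
    Off fun T t => ∀ j ∈ J, P j T t := by
  classical
  induction J using Finset.induction_on with
  | empty =>
    obtain ⟨c, T0, hc, h0⟩ := Off.true
    refine ⟨c, T0, hc, fun T hT => ?_⟩
    obtain ⟨E, e1, e2, e3, e4⟩ := h0 T hT
    exact ⟨E, e1, e2, e3, fun t0 _ _ j hj => absurd hj (Finset.notMem_empty j)⟩
  | insert a s ha ih =>
    have h1 := (h a (Finset.mem_insert_self a s)).and
      (ih fun j hj => h j (Finset.mem_insert_of_mem hj))
    obtain ⟨c, T0, hc, h0⟩ := h1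
    refine ⟨c, T0, hc, fun T hT => ?_⟩
    obtain ⟨E, e1, e2, e3, e4⟩ := h0 T hT
    refine ⟨E, e1, e2, e3, fun t0 ht hn j hj => ?_⟩
    rcases Finset.mem_insert.mp hj with rfl | hj
    · exact (e4 t0 ht hn).1
    · exact (e4 t0 ht hn).2 j hj

open Pool.Agent.PF.Core

/-- The bound for one of the five statistics of one window. -/
def Q5 (D : CData) (a' b AI AF : ℝ) (x : ℕ → ℝ) (j : ℕ × Fin 5) (T t0 : ℝ) : Prop :=
  ∫ t : ℝ, ww (T ^ a' * Real.log T) T t0 t *
    (‖Amp D T t‖ ^ 2 * (Var.XB (PP T) (bG (G5 b (x j.1) j.2) T) t -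
      mG D (G5 b (x j.1) j.2)) ^ 2) ≤ (if j.2 = 0 then AI else AF) * Nrm D T

/-- **The good centres off a small exceptional set, for fixed data.** -/
theorem core1 (hRH : RiemannHypothesis) {C0 C1 b : ℝ} (hb0 : 0 < b) (hb : b < 1) (hC0 : 0 < C0)
    (hC1 : 0 < C1)
    (hnear : ∀ x : ℝ, 0 ≤ x → ∀ η : ℝ, 0 < η → ∃ T0 : ℝ, ∀ T, T0 ≤ T → ∀ t ∈ Set.Icc T (2 * T),
      |(zeroCount (t + 2 * Real.pi * x / Real.log T) : ℝ) - zeroCount t - x -
        Var.XB (PP T) (bG (GI b x) T) t| ≤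
        C0 * ((1 / b - Var.XB (PP T) (bG (GF b 0) T) t) +
          (1 / b - Var.XB (PP T) (bG (GF b (Real.pi / b)) T) t) +
          (1 / b - Var.XB (PP T) (bG (GF b (2 * Real.pi * x)) T) t) +
          (1 / b - Var.XB (PP T) (bG (GF b (2 * Real.pi * x + Real.pi / b)) T) t)) +
        C1 * (1 / b + Real.log (2 + b * x)) + η)
    (D : CData) {K : ℝ} (hK : 0 ≤ K) (hF : ∀ y, 0 ≤ y → D.F y ≤ 1) (hF0 : 0 < D.F 0)
    (hlip : ∀ y z, 0 ≤ y → 0 ≤ z → |D.F y - D.F z| ≤ K * |y - z|)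
    (hSig : ∃ T0 : ℝ, ∀ T, T0 ≤ T → Nrm D T / 2 ≤ Sig D T)
    {a' a : ℝ} (h0 : 0 < a') (h1 : 4 * (D.th + b) < 1 + a') (h2 : a' < a) (h3 : a < 1)
    (n : ℕ) (x P : ℕ → ℝ) (hx : ∀ i, 0 ≤ x i) {e e1 e2 LX AI AF : ℝ} (he : 0 < e)
    (hAI : ∀ i, i ≤ n → 6 * ((1 + (K / D.th) ^ 2) * (∫ u in (0:ℝ)..1, u * ‖GI b (x i) u‖ ^ 2) +
      2 * (K / D.th) ^ 2 *
        (∫ u in (0:ℝ)..1, u * ‖GI b (x i) u‖ * ‖(D.r : ℂ) * D.v u‖) ^ 2) < AI)
    (hAF : ∀ s, 6 * ((1 + (K / D.th) ^ 2) * (∫ u in (0:ℝ)..1, u * ‖GF b s u‖ ^ 2) +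
      2 * (K / D.th) ^ 2 *
        (∫ u in (0:ℝ)..1, u * ‖GF b s u‖ * ‖(D.r : ℂ) * D.v u‖) ^ 2) < AF)
    (hsum : ((n : ℝ) + 1) * (AI + 4 * AF) ≤ e ^ 2 / 8)
    (hmI : ∀ i, i ≤ n → |mG D (GI b (x i)) - P i| ≤ e1) (hmF : ∀ s, |mG D (GF b s)| ≤ e2)
    (hLX : ∀ i, i ≤ n → Real.log (2 + b * x i) ≤ LX) :
    ∃ c0 c T0 : ℝ, 0 < c0 ∧ 0 < c ∧ ∀ T, T0 ≤ T → ∃ E : Set ℝ, MeasurableSet E ∧
      E ⊆ Set.Icc T (2 * T) ∧ volume.real E ≤ T ^ (1 - c) ∧
      ∀ y H, T ≤ y → y + H ≤ 2 * T → T ^ a ≤ H → volume.real (E ∩ Set.Icc y (y + H)) ≤ H / 8 →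
      c0 * H ≤ volume.real (Set.Icc y (y + H) ∩ {t : ℝ | ∀ i, i ≤ n →
        |(zeroCount (t + 2 * Real.pi * x i / Real.log T) : ℝ) - zeroCount t - x i - P i| ≤
          e + e1 + C0 * (4 * (1 / b + e2 + e)) + C1 * (1 / b + LX) + 1}) := by
  have hth := th_pos D
  have ha' : 0 < a' := h0
  have hbp : 0 < 1 / b := by positivity
  obtain ⟨c0, T1, hc0, hpos⟩ := pos_of_weight_set hRH D hF hF0 ha' h2 h3
  obtain ⟨T2, hT2⟩ := hSig
  -- the variances
  have ev1 : Off fun T t0 => ∀ j ∈ (Finset.range (n + 1)) ×ˢ (Finset.univ : Finset (Fin 5)),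
      Q5 D a' b AI AF x j T t0 := by
    refine Off.finset (ι := ℕ × Fin 5) ((Finset.range (n + 1)) ×ˢ (Finset.univ : Finset (Fin 5)))
      (P := Q5 D a' b AI AF x) fun j hij => ?_
    rw [Finset.mem_product, Finset.mem_range] at hij
    have hi : j.1 ≤ n := by omega
    by_cases hj : j.2 = 0
    · obtain ⟨c, T0, hc, h5⟩ := stat_aa D hK hF hlip hb0 hb (GI_ok hb0 (x j.1)) ha' (by linarith)
        h1 (hAI j.1 hi)
      refine ⟨c, T0, hc, fun T hT => ?_⟩
      obtain ⟨E, u1, u2, u3, u4⟩ := h5 T hT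
      refine ⟨E, u1, u2, u3, fun t0 ht hn => ?_⟩
      have := u4 t0 ht hn
      unfold Q5
      simpa only [G5, hj, if_true] using this
    · obtain ⟨c, T0, hc, h5⟩ := stat_aa D hK hF hlip hb0 hb (GF_ok hb0 (sh b (x j.1) j.2)) ha'
        (by linarith) h1 (hAF (sh b (x j.1) j.2))
      refine ⟨c, T0, hc, fun T hT => ?_⟩
      obtain ⟨E, u1, u2, u3, u4⟩ := h5 T hT
      refine ⟨E, u1, u2, u3, fun t0 ht hn => ?_⟩
      have := u4 t0 ht hn
      unfold Q5
      simpa only [G5, hj, if_false] using this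
  have ev0 : Off fun T t0 => |(∫ t : ℝ, ww (T ^ a' * Real.log T) T t0 t * ‖Amp D T t‖ ^ 2) -
      Sig D T| ≤ 1 / 4 := amp_aa D hF ha' (by linarith) (by norm_num)
  obtain ⟨c, T4, hc, hoff⟩ := ev0.and ev1
  have ev2 : ∀ᶠ T : ℝ in atTop, ∀ i ∈ Finset.range (n + 1), ∀ t ∈ Set.Icc T (2 * T),
      |(zeroCount (t + 2 * Real.pi * x i / Real.log T) : ℝ) - zeroCount t - x i -
        Var.XB (PP T) (bG (GI b (x i)) T) t| ≤
        C0 * ((1 / b - Var.XB (PP T) (bG (GF b 0) T) t) +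
          (1 / b - Var.XB (PP T) (bG (GF b (Real.pi / b)) T) t) +
          (1 / b - Var.XB (PP T) (bG (GF b (2 * Real.pi * x i)) T) t) +
          (1 / b - Var.XB (PP T) (bG (GF b (2 * Real.pi * x i + Real.pi / b)) T) t)) +
        C1 * (1 / b + Real.log (2 + b * x i)) + 1 := by
    rw [Filter.eventually_all_finset]
    intro i hi
    obtain ⟨T0, hT0⟩ := hnear (x i) (hx i) 1 one_pos
    filter_upwards [eventually_ge_atTop T0] with T hT
    exact hT0 T hT
  obtain ⟨T3, hT3⟩ := eventually_atTop.mp ev2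
  refine ⟨c0, c, max (max T4 (Real.exp 2)) (max T1 (max T2 T3)), hc0, hc, fun T hT => ?_⟩
  have hTT4 : T4 ≤ T := (le_max_left _ _).trans ((le_max_left _ _).trans hT)
  have hTe : Real.exp 2 ≤ T := (le_max_right _ _).trans ((le_max_left _ _).trans hT)
  have hTT1 : T1 ≤ T := (le_max_left _ _).trans ((le_max_right _ _).trans hT)
  have hTT2 : T2 ≤ T :=
    (le_max_left _ _).trans ((le_max_right _ _).trans ((le_max_right _ _).trans hT))
  have hTT3 : T3 ≤ T :=
    (le_max_right _ _).trans ((le_max_right _ _).trans ((le_max_right _ _).trans hT))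
  have g2 := hT3 T hTT3
  obtain ⟨E, E1, E2, E3, E4⟩ := hoff T hTT4
  refine ⟨E, E1, E2, E3, fun y H hy hyH hH hEy => ?_⟩
  have hTp : 0 < T := (Real.exp_pos 2).trans_le hTe
  have hT1 : 1 < T := lt_of_lt_of_le (Real.one_lt_exp_iff.mpr (by norm_num)) hTe
  have hL0 : 0 < Real.log T := Real.log_pos hT1
  have hKw : 0 < T ^ a' * Real.log T := mul_pos (Real.rpow_pos_of_pos hTp _) hL0
  have hN1 : 1 ≤ Nrm D T := by
    unfold Nrm
    refine Finset.one_le_prod fun p _ => ?_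
    have : 0 ≤ ‖cc D T p‖ ^ 2 := by positivity
    linarith
  have hS2 := hT2 T hTT2
  set J := (Finset.range (n + 1)) ×ˢ (Finset.univ : Finset (Fin 5)) with hJ
  set X : ℕ × Fin 5 → ℝ → ℝ := fun j => Var.XB (PP T) (bG (G5 b (x j.1) j.2) T) with hX
  set G : Set ℝ := {t : ℝ | ∀ j ∈ J, |X j t - mG D (G5 b (x j.1) j.2)| < e} with hG
  have hGmeas : MeasurableSet G := by
    have e1 : G = ⋂ j ∈ J, {t : ℝ | |X j t - mG D (G5 b (x j.1) j.2)| < e} := by
      ext t; simp [hG]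
    rw [e1]
    refine Finset.measurableSet_biInter _ fun j hj => ?_
    have := XB_continuous (PP T) (bG (G5 b (x j.1) j.2) T)
    exact measurableSet_lt (by fun_prop) measurable_const
  have hGm : ∀ t0 ∈ Set.Icc T (2 * T), t0 ∉ E → Sig D T / 4 ≤
      ∫ t in G, VL D (T ^ a' * Real.log T) T t0 t := by
    intro t0 ht0 hn0
    obtain ⟨g0, g1⟩ := E4 t0 ht0 hn0
    have hVi := VL_integrable D hF hKw hTe t0
    have hw := (weight_ge (V := VL D (T ^ a' * Real.log T) T t0)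
      (fun t => VL_nonneg D hKw hT1 t0 t)
      hVi J X (fun j _ => XB_continuous _ _) (μ := fun j => mG D (G5 b (x j.1) j.2))
      (e := fun _ => e) (fun _ _ => he) (fun j _ => integrable_VX hVi _ _ _)
      (S := Sig D T / 2) ?_ ?_).2
    · refine le_trans (le_of_eq (by ring)) hw
    · have g0' := (abs_le.mp g0).1
      have g3 : ∫ t, VL D (T ^ a' * Real.log T) T t0 t =
          ∫ t : ℝ, ww (T ^ a' * Real.log T) T t0 t * ‖Amp D T t‖ ^ 2 := rfl
      rw [g3]
      linarith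
    · have hbd : ∀ j ∈ J, (∫ t, VL D (T ^ a' * Real.log T) T t0 t *
          (X j t - mG D (G5 b (x j.1) j.2)) ^ 2) / e ^ 2 ≤
          (if j.2 = 0 then AI else AF) * Nrm D T / e ^ 2 := by
        intro j hj
        refine div_le_div_of_nonneg_right ?_ (by positivity)
        refine le_trans (le_of_eq ?_) (g1 j hj)
        refine integral_congr_ae (Filter.Eventually.of_forall fun t => ?_)
        simp only [VL, hX]
        ring
      refine (Finset.sum_le_sum hbd).trans ?_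
      rw [← Finset.sum_div, ← Finset.sum_mul, hJ, Finset.sum_product]
      have hs5 : ∀ i ∈ Finset.range (n + 1), ∑ j : Fin 5, (if j = 0 then AI else AF) =
          AI + 4 * AF := by
        intro i _
        rw [Fin.sum_univ_succ]
        have : ∀ j : Fin 4, (if (Fin.succ j : Fin 5) = 0 then AI else AF) = AF := by
          intro j
          rw [if_neg (Fin.succ_ne_zero j)]
        simp only [this, if_true, Finset.sum_const, Finset.card_univ, Fintype.card_fin]
        ring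
      rw [Finset.sum_congr rfl hs5, Finset.sum_const, Finset.card_range, nsmul_eq_mul,
        div_le_iff₀ (by positivity)]
      push_cast
      have h8 : ((n : ℝ) + 1) * (AI + 4 * AF) * Nrm D T ≤ e ^ 2 / 8 * Nrm D T :=
        mul_le_mul_of_nonneg_right hsum (by linarith)
      have h9 : e ^ 2 * (Nrm D T / 2) ≤ e ^ 2 * Sig D T :=
        mul_le_mul_of_nonneg_left hS2 (by positivity)
      nlinarith
  have hH0 : 0 ≤ H := le_trans (Real.rpow_nonneg hTp.le _) hH
  have h4 := hpos T hTT1 G hGmeas y H hy hyH hH (Set.Icc T (2 * T) \ E)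
    (measurableSet_Icc.diff E1) (by
      have k1 : Set.Icc y (y + H) ⊆ ((Set.Icc T (2 * T) \ E) ∩ Set.Icc y (y + H)) ∪
          (E ∩ Set.Icc y (y + H)) := by
        intro t ht
        by_cases hE : t ∈ E
        · exact Or.inr ⟨hE, ht⟩
        · exact Or.inl ⟨⟨⟨hy.trans ht.1, ht.2.trans hyH⟩, hE⟩, ht⟩
      have hfin : ∀ S : Set ℝ, volume (S ∩ Set.Icc y (y + H)) ≠ ⊤ := fun S =>
        ne_top_of_le_ne_top (by rw [Real.volume_Icc]; exact ENNReal.ofReal_ne_top)
          (measure_mono Set.inter_subset_right)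
      have k2 := (measureReal_mono k1 (measure_union_ne_top (hfin _) (hfin _))).trans
        (measureReal_union_le _ _)
      rw [Real.volume_real_Icc, max_eq_left (by linarith)] at k2
      linarith)
    (fun t0 ht0 => hGm t0 ht0.1.1 ht0.1.2)
  refine h4.trans (measureReal_mono ?_ ?_)
  · rintro t ⟨htG, htI⟩
    refine ⟨htI, fun i hi => ?_⟩
    have hiJ : ∀ j : Fin 5, (i, j) ∈ J := fun j => by
      rw [hJ, Finset.mem_product, Finset.mem_range]
      exact ⟨by omega, Finset.mem_univ _⟩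
    have htT : t ∈ Set.Icc T (2 * T) := ⟨hy.trans htI.1, htI.2.trans hyH⟩
    have k0 := htG (i, 0) (hiJ 0)
    have k1 := htG (i, 1) (hiJ 1)
    have k2 := htG (i, 2) (hiJ 2)
    have k3 := htG (i, 3) (hiJ 3)
    have k4 := htG (i, 4) (hiJ 4)
    have e10 : (1 : Fin 5) ≠ 0 := by decide
    have e20 : (2 : Fin 5) ≠ 0 := by decide
    have e30 : (3 : Fin 5) ≠ 0 := by decide
    have e40 : (4 : Fin 5) ≠ 0 := by decide
    simp only [hX, G5, if_true] at k0
    simp only [hX, G5, e10, if_false] at k1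
    simp only [hX, G5, e20, if_false] at k2
    simp only [hX, G5, e30, if_false] at k3
    simp only [hX, G5, e40, if_false] at k4
    have s1 : sh b (x i) 1 = 0 := rfl
    have s2 : sh b (x i) 2 = Real.pi / b := rfl
    have s3 : sh b (x i) 3 = 2 * Real.pi * x i := rfl
    have s4 : sh b (x i) 4 = 2 * Real.pi * x i + Real.pi / b := rfl
    rw [s1] at k1
    rw [s2] at k2
    rw [s3] at k3
    rw [s4] at k4
    have hmain := g2 i (Finset.mem_range.mpr (by omega)) t htT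
    have m0 := hmI i hi
    have m1 := hmF 0
    have m2 := hmF (Real.pi / b)
    have m3 := hmF (2 * Real.pi * x i)
    have m4 := hmF (2 * Real.pi * x i + Real.pi / b)
    have hL := hLX i hi
    have q1 : 1 / b - Var.XB (PP T) (bG (GF b 0) T) t ≤ 1 / b + e2 + e := by
      have := (abs_lt.mp k1).1
      have := (abs_le.mp m1).1
      linarith
    have q2 : 1 / b - Var.XB (PP T) (bG (GF b (Real.pi / b)) T) t ≤ 1 / b + e2 + e := by
      have := (abs_lt.mp k2).1
      have := (abs_le.mp m2).1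
      linarith
    have q3 : 1 / b - Var.XB (PP T) (bG (GF b (2 * Real.pi * x i)) T) t ≤ 1 / b + e2 + e := by
      have := (abs_lt.mp k3).1
      have := (abs_le.mp m3).1
      linarith
    have q4 : 1 / b - Var.XB (PP T) (bG (GF b (2 * Real.pi * x i + Real.pi / b)) T) t ≤
        1 / b + e2 + e := by
      have := (abs_lt.mp k4).1
      have := (abs_le.mp m4).1
      linarith
    have q5 : C0 * ((1 / b - Var.XB (PP T) (bG (GF b 0) T) t) +
          (1 / b - Var.XB (PP T) (bG (GF b (Real.pi / b)) T) t) +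
          (1 / b - Var.XB (PP T) (bG (GF b (2 * Real.pi * x i)) T) t) +
          (1 / b - Var.XB (PP T) (bG (GF b (2 * Real.pi * x i + Real.pi / b)) T) t)) ≤
        C0 * (4 * (1 / b + e2 + e)) := mul_le_mul_of_nonneg_left (by linarith) hC0.le
    have q6 : C1 * (1 / b + Real.log (2 + b * x i)) ≤ C1 * (1 / b + LX) :=
      mul_le_mul_of_nonneg_left (by linarith) hC1.le
    have a1 := abs_le.mp hmain
    have a2 := abs_lt.mp k0
    have a3 := abs_le.mp m0
    rw [abs_le]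
    constructor
    · linarith [a1.1, a2.1, a3.1]
    · linarith [a1.2, a2.2, a3.2]
  · refine ne_top_of_le_ne_top ?_ (measure_mono Set.inter_subset_left)
    rw [Real.volume_Icc]
    exact ENNReal.ofReal_ne_top

end CoreAA

end Pool.Agent.PF
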