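import Pool.Agent.PF.Idx
import Pool.Agent.ZShort.AAFinal

/-!
# Profiles of sums of consecutive gaps in almost all blocks: from centres to indices
-/

open Filter Topology Finset MeasureTheory
open Pool.Agent.ZetaGaps

namespace Pool.Agent.PF

/-- The counts of the indices which follow the profile in one window. -/
lemma count_of_volume (hRH : RiemannHypothesis) {g : ℝ → ℝ} (hg : Continuous g) {B : ℝ}
    (hB : ∀ x, |g x| ≤ B) {δ : ℝ} (hδ : 0 < δ) :
    ∃ r1 : ℕ, 1 ≤ r1 ∧ ∀ r : ℕ, r1 ≤ r → ∃ T1 : ℝ, ∀ T, T1 ≤ T → ∀ c0 y H : ℝ,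
      T ≤ y → y + H ≤ 2 * T → c0 * H ≤ volume.real (Set.Icc y (y + H) ∩ Pf g r δ T) →
      c0 / (4 * Real.pi * r) * (H * Real.log T) ≤
        (#{n ∈ Finset.Icc (zeroCount (y - 1)) (zeroCount (y + H + 1)) | ∀ k : ℕ, k ≤ r →
          |∑ j ∈ Finset.range k, gap (n + j) - k + Real.sqrt r * ∫ y in (0:ℝ)..(k / r), g y| ≤
            8 * δ * Real.sqrt r} : ℝ) := by
  have hpi := Real.pi_pos
  have hB0 : 0 ≤ B := (abs_nonneg _).trans (hB 0)
  -- the threshold for `r`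
  have hsq : Tendsto (fun r : ℕ => √(r:ℝ)) atTop atTop :=
    Real.tendsto_sqrt_atTop.comp tendsto_natCast_atTop_atTop
  have hev : ∀ᶠ r : ℕ in atTop, (1 ≤ r ∧ 2 * B + δ + 1 ≤ √(r:ℝ)) ∧
      (4 * B + 2 * (B * (δ + 3 * B))) / δ ≤ √(r:ℝ) :=
    ((eventually_ge_atTop 1).and (hsq.eventually_ge_atTop _)).and (hsq.eventually_ge_atTop _)
  obtain ⟨r1, hr1⟩ := eventually_atTop.mp hev
  refine ⟨max r1 1, le_max_right _ _, fun r hr => ?_⟩
  obtain ⟨⟨hr1', hA⟩, hB'⟩ := hr1 r ((le_max_left _ _).trans hr)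
  have hr1R : (1:ℝ) ≤ r := by exact_mod_cast hr1'
  have hr0 : (0:ℝ) < r := by linarith
  have hs1 : 1 ≤ √(r:ℝ) := Real.one_le_sqrt.mpr hr1R
  have hs0 : 0 < √(r:ℝ) := by linarith
  have hss : √(r:ℝ) * √(r:ℝ) = r := Real.mul_self_sqrt hr0.le
  have h1 : (2 * B + δ) * √(r:ℝ) + 1 ≤ r := by nlinarith
  have h2 : 4 * B + 2 * (B * (δ + 3 * B)) ≤ δ * √(r:ℝ) := by
    rw [div_le_iff₀ hδ] at hB'
    linarith
  -- the threshold for the height
  obtain ⟨T1, hT1⟩ := exists_bigT hRH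
  have hevT : ∀ᶠ T : ℝ in atTop, 6 * r / (δ * √(r:ℝ)) ≤ Real.log T ∧
      4 * Real.pi * r ≤ Real.log T :=
    (Real.tendsto_log_atTop.eventually_ge_atTop _).and
      (Real.tendsto_log_atTop.eventually_ge_atTop _)
  obtain ⟨T2, hT2⟩ := eventually_atTop.mp hevT
  refine ⟨max T1 T2, fun T hT c0 y H hy hyH hV => ?_⟩
  have hbig := hT1 T ((le_max_left _ _).trans hT)
  obtain ⟨hlog1, hlog2⟩ := hT2 T ((le_max_right _ _).trans hT)
  have hL0 : 0 < Real.log T := by linarith [hbig.log]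
  have hL1 : 6 * r / Real.log T ≤ δ * √(r:ℝ) := by
    rw [div_le_iff₀ hL0]
    rw [div_le_iff₀ (by positivity)] at hlog1
    linarith
  have hL2 : 4 * Real.pi * r / Real.log T ≤ 1 := by
    rw [div_le_one hL0]
    exact hlog2
  set w := 4 * Real.pi * r / Real.log T with hw
  have hw0 : 0 < w := by positivity
  set A := {n ∈ Finset.Icc (zeroCount (y - 1)) (zeroCount (y + H + 1)) | ∀ k : ℕ, k ≤ r →
    |∑ j ∈ Finset.range k, gap (n + j) - k + Real.sqrt r * ∫ y in (0:ℝ)..(k / r), g y| ≤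
      8 * δ * Real.sqrt r} with hAdef
  have hcov : Set.Icc y (y + H) ∩ Pf g r δ T ⊆
      ⋃ n ∈ A, Set.Icc (ordinate n - w) (ordinate n) := by
    rintro t ⟨⟨ht1, ht2⟩, htP⟩
    obtain ⟨c1, c2, c3, c4⟩ := sums_of_centre hg hB hδ hr1' h1 h2 hbig hL1 hL2
      (hy.trans ht1) (ht2.trans hyH) htP
    simp only [Set.mem_iUnion, Set.mem_Icc, exists_prop]
    refine ⟨zeroCount t + 1, ?_, by linarith, c1.le⟩
    rw [hAdef, Finset.mem_filter, Finset.mem_Icc]
    have d1 : zeroCount (y - 1) ≤ zeroCount t := zeroCount_mono (by linarith)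
    have d2 : zeroCount (t + w) ≤ zeroCount (y + H + 1) := zeroCount_mono (by linarith)
    exact ⟨⟨by omega, c3.trans d2⟩, c4⟩
  have hmeas : c0 * H ≤ A.card * w := by
    refine hV.trans ?_
    have hfin : volume (⋃ n ∈ A, Set.Icc (ordinate n - w) (ordinate n)) ≠ ⊤ := by
      refine ne_top_of_le_ne_top ?_ (measure_biUnion_finset_le A _)
      refine ENNReal.sum_ne_top.mpr fun n _ => ?_
      rw [Real.volume_Icc]; exact ENNReal.ofReal_ne_top
    refine (measureReal_mono hcov hfin).trans ?_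
    refine (measureReal_biUnion_finset_le A _).trans ?_
    rw [← nsmul_eq_mul, ← Finset.sum_const]
    refine Finset.sum_le_sum fun n hn => ?_
    rw [Real.volume_real_Icc, max_eq_left (by linarith)]
    linarith
  have h3 : c0 * (H * Real.log T) ≤ A.card * (4 * Real.pi * r) := by
    have hwL : w * Real.log T = 4 * Real.pi * r := div_mul_cancel₀ _ hL0.ne'
    calc c0 * (H * Real.log T) = (c0 * H) * Real.log T := by ring
      _ ≤ (A.card * w) * Real.log T := mul_le_mul_of_nonneg_right hmeas hL0.le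
      _ = A.card * (w * Real.log T) := by ring
      _ = _ := by rw [hwL]
  rw [div_mul_eq_mul_div, div_le_iff₀ (by positivity)]
  exact h3

/-- **Module I, almost all blocks.** If the windows which meet a small set in at most an eighth of
their length have a positive proportion of centres which follow the profile, and every long block
of indices has a positive proportion of indices which follow it, then so have all the blocks after
almost every index. -/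
theorem index_of_volume_aa (hRH : RiemannHypothesis) {g : ℝ → ℝ} (hg : Continuous g) {B : ℝ}
    (hB : ∀ x, |g x| ≤ B) {a' a b δ : ℝ} (ha' : 0 < a') (ha : a' < a) (ha1 : a < 1) (hb1 : b < 1)
    (hδ : 0 < δ) :
    ∃ r1 : ℕ, ∀ r : ℕ, r1 ≤ r → ∀ c0 c T0 : ℝ, 0 < c0 → 0 < c →
      (∀ T, T0 ≤ T → ∃ E : Set ℝ, MeasurableSet E ∧ E ⊆ Set.Icc T (2 * T) ∧
        volume.real E ≤ T ^ (1 - c) ∧ ∀ y H, T ≤ y → y + H ≤ 2 * T → T ^ a' ≤ H →
          volume.real (E ∩ Set.Icc y (y + H)) ≤ H / 8 →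
          c0 * H ≤ volume.real (Set.Icc y (y + H) ∩ Pf g r δ T)) →
      (∃ κ : ℝ, 0 < κ ∧ ∃ N0 : ℕ, ∀ N M : ℕ, N0 ≤ N → (N : ℝ) ^ b ≤ M →
        κ * M ≤ ((({n ∈ Finset.Ioc N (N + M) | ∀ k : ℕ, k ≤ r →
          |∑ j ∈ Finset.range k, gap (n + j) - k + Real.sqrt r * ∫ y in (0:ℝ)..(k / r), g y| ≤
            8 * δ * Real.sqrt r} : Finset ℕ).card : ℕ) : ℝ)) →
      ∃ κ c' : ℝ, ∃ N0 : ℕ, 0 < κ ∧ 0 < c' ∧ ∀ N : ℕ, N0 ≤ N → ∀ Z : Finset ℕ,
        (∀ n ∈ Z, 1 ≤ n ∧ n ≤ N ∧ ∃ M : ℕ, (n:ℝ) ^ a ≤ M ∧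
          ((({m ∈ Finset.Ioc n (n + M) | ∀ k : ℕ, k ≤ r →
            |∑ j ∈ Finset.range k, gap (m + j) - k +
              Real.sqrt r * ∫ y in (0:ℝ)..(k / r), g y| ≤
              8 * δ * Real.sqrt r} : Finset ℕ).card : ℕ) : ℝ) < κ * M) →
        (Z.card : ℝ) ≤ (N:ℝ) ^ (1 - c') := by
  obtain ⟨r1, hr11, h1⟩ := count_of_volume hRH hg hB hδ
  refine ⟨r1, fun r hr c0 c T0 hc0 hc hvol hE => ?_⟩
  obtain ⟨T1, h2⟩ := h1 r hr
  have hr0 : (0:ℝ) < r := by
    have : 1 ≤ r := hr11.trans hr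
    exact_mod_cast this
  have hpi := Real.pi_pos
  obtain ⟨κE, hκE, NE, hE⟩ := hE
  refine Pool.Agent.ZShort.index_of_BFormI
    (P := fun n => ∀ k : ℕ, k ≤ r →
      |∑ j ∈ Finset.range k, gap (n + j) - k + Real.sqrt r * ∫ y in (0:ℝ)..(k / r), g y| ≤
        8 * δ * Real.sqrt r) ha' ha ha1 hb1 ?_ hκE hE
  refine ⟨c0 / (4 * Real.pi * r), c, max T0 T1, by positivity, hc, fun T hT => ?_⟩
  obtain ⟨E, e1, e2, e3, e4⟩ := hvol T ((le_max_left _ _).trans hT)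
  exact ⟨E, e1, e2, e3, fun y H hy hyH hH hEy =>
    h2 T ((le_max_right _ _).trans hT) c0 y H hy hyH (e4 y H hy hyH hH hEy)⟩

end Pool.Agent.PF
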