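import Pool.Agent.PF.Core2
import Pool.Agent.PF.CoreAA
import Pool.Agent.PF.IdxAA

/-!
# Profiles in almost all intervals: the choice of the constants, and the form in blocks of indices
-/

open scoped ContDiff

namespace Pool.Agent.PF

open MeasureTheory Real Set Filter Pool.Agent.ZGap.Res Pool.Agent.ZetaGaps Pool.Agent.TypBlk
open Pool.Agent.ZShort

namespace CoreAA

open Pool.Agent.PF.Core

/-- The union bound. -/
lemma union_arith8 {σ τ q C' AF c2 s r : ℝ} {n : ℕ} (hσ : 0 < σ) (hτ : 0 < τ) (hq : 0 ≤ q)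
    (hAF : 0 ≤ AF) (hc2 : c2 = 6 * ((1 + q) * 10 + 2 * q * C' ^ 2) + 1 + 4 * AF) (hs : 1 ≤ s)
    (hr : s ^ 4 = r) (hn : (n : ℝ) ≤ 2 * s ^ 2 / σ + 2)
    (hu : (2 / σ + 3) * c2 * 8 / τ ^ 2 ≤ s) :
    ((n : ℝ) + 1) * (6 * ((1 + q) * (2 + Real.log (1 + 3 * r)) + 2 * q * C' ^ 2) + 1 + 4 * AF) ≤
      (τ * s ^ 2) ^ 2 / 8 := by
  have hr1 : 1 ≤ r := by rw [← hr]; exact one_le_pow₀ hs
  have f1 : Real.log (1 + 3 * r) ≤ 4 + 4 * s := by
    have h1 : 1 + 3 * r ≤ 4 * s ^ 4 := by rw [hr]; linarith only [hr1]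
    have h2 := log_lin (c := 4) (by norm_num) hs 4
    have h3 : Real.log (1 + 3 * r) ≤ Real.log (4 * s ^ 4) :=
      Real.log_le_log (by linarith only [hr1]) h1
    push_cast at h2
    linarith only [h2, h3]
  have f2 : 6 * ((1 + q) * (2 + Real.log (1 + 3 * r)) + 2 * q * C' ^ 2) + 1 + 4 * AF ≤
      c2 * s := by
    have h1 : (1 + q) * (2 + Real.log (1 + 3 * r)) ≤ (1 + q) * (10 * s) :=
      mul_le_mul_of_nonneg_left (by linarith only [f1, hs]) (by linarith only [hq])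
    have h2 : 2 * q * C' ^ 2 ≤ 2 * q * C' ^ 2 * s :=
      le_mul_of_one_le_right (by positivity) hs
    have h3 : 4 * AF ≤ 4 * AF * s := le_mul_of_one_le_right (by positivity) hs
    have h4 : c2 * s = 6 * ((1 + q) * (10 * s) + 2 * q * C' ^ 2 * s) + s + 4 * AF * s := by
      rw [hc2]; ring
    rw [h4]
    linarith only [h1, h2, h3, hs]
  have hss : 1 ≤ s ^ 2 := one_le_pow₀ hs
  have f3 : (n : ℝ) + 1 ≤ (2 / σ + 3) * s ^ 2 := by
    have h1 : 2 * s ^ 2 / σ = 2 / σ * s ^ 2 := by ring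
    rw [h1] at hn
    nlinarith only [hn, hss]
  have f4 : 0 ≤ 6 * ((1 + q) * (2 + Real.log (1 + 3 * r)) + 2 * q * C' ^ 2) + 1 + 4 * AF := by
    have : 0 ≤ Real.log (1 + 3 * r) := Real.log_nonneg (by linarith only [hr1])
    positivity
  have hs0 : 0 ≤ s := by linarith only [hs]
  calc ((n : ℝ) + 1) * (6 * ((1 + q) * (2 + Real.log (1 + 3 * r)) + 2 * q * C' ^ 2) + 1 + 4 * AF)
      ≤ ((2 / σ + 3) * s ^ 2) * (c2 * s) :=
        mul_le_mul f3 f2 f4 (by positivity)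
    _ = ((2 / σ + 3) * c2) * s ^ 3 := by ring
    _ ≤ (τ ^ 2 / 8 * s) * s ^ 3 := by
        refine mul_le_mul_of_nonneg_right ?_ (by positivity)
        rw [div_le_iff₀ (by positivity)] at hu
        linarith only [hu]
    _ = _ := by ring

/-- **The good centres at one scale, off a small exceptional set.** -/
theorem core2 (hRH : RiemannHypothesis) {g : ℝ → ℝ} (hg : Continuous g) {B : ℝ}
    (hB : ∀ x, |g x| ≤ B) {C0 C1 : ℝ} (hC0 : 0 < C0) (hC1 : 0 < C1)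
    (hnear : ∀ b : ℝ, 0 < b → b < 1 / 2 → ∀ x : ℝ, 0 ≤ x → ∀ η : ℝ, 0 < η →
      ∃ T0 : ℝ, ∀ T, T0 ≤ T → ∀ t ∈ Set.Icc T (2 * T),
      |(zeroCount (t + 2 * Real.pi * x / Real.log T) : ℝ) - zeroCount t - x -
        Var.XB (PP T) (bG (GI b x) T) t| ≤
        C0 * ((1 / b - Var.XB (PP T) (bG (GF b 0) T) t) +
          (1 / b - Var.XB (PP T) (bG (GF b (Real.pi / b)) T) t) +
          (1 / b - Var.XB (PP T) (bG (GF b (2 * Real.pi * x)) T) t) +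
          (1 / b - Var.XB (PP T) (bG (GF b (2 * Real.pi * x + Real.pi / b)) T) t)) +
        C1 * (1 / b + Real.log (2 + b * x)) + η)
    {σ th K C' q AF c2 τ K0 a' a r s : ℝ} (hσ : 0 < σ) (hK : 0 ≤ K) (hC' : 0 ≤ C')
    (hq : q = (K / th) ^ 2) (hAF : AF = 6 * ((1 + q) * 2 + 2 * q * (2 * C') ^ 2) + 1)
    (hc2 : c2 = 6 * ((1 + q) * 10 + 2 * q * C' ^ 2) + 1 + 4 * AF)
    (hτ : τ = σ / (1 + 4 * C0)) (hK0 : 1 ≤ K0) (hK1 : C0 * (4 + 16 * C') + C1 ≤ σ * K0)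
    (ha0 : 0 < a') (ha : a' < a) (ha1 : a < 1) (hs : 1 ≤ s) (hr : s ^ 4 = r) (hsr : s ^ 2 = √r)
    (u1 : 2 * K0 + 1 ≤ s) (u2 : (C1 * (4 + 3 * K0) + 1) / σ ≤ s) (u5 : 2 * σ ≤ s)
    (u6 : (2 / σ + 3) * c2 * 8 / τ ^ 2 ≤ s) (u7 : B ≤ s)
    (hba : 4 * (th + K0 / s ^ 2) < 1 + a')
    (D : CData) (d1 : D.th = th) (hF : ∀ y, D.F y ≤ 1) (hF0 : 0 < D.F 0)
    (hlip : ∀ y z, |D.F y - D.F z| ≤ K * |y - z|)
    (hSig : ∃ T0 : ℝ, ∀ T, T0 ≤ T → Nrm D T / 2 ≤ Sig D T)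
    (hI : ∫ u in (0:ℝ)..1, ‖(D.r : ℂ) * D.v u‖ ≤ C')
    (hmean : ∀ x ∈ Set.Icc (0:ℝ) (3 * r), |mG D (GI (K0 / s ^ 2) x) -
      √r * ∫ y in (0:ℝ)..(x / r), g y| ≤ σ * √r) :
    ∃ c0 c T0 : ℝ, 0 < c0 ∧ 0 < c ∧ ∀ T, T0 ≤ T → ∃ E : Set ℝ, MeasurableSet E ∧
      E ⊆ Set.Icc T (2 * T) ∧ volume.real E ≤ T ^ (1 - c) ∧
      ∀ y H, T ≤ y → y + H ≤ 2 * T → T ^ a ≤ H → volume.real (E ∩ Set.Icc y (y + H)) ≤ H / 8 →
      c0 * H ≤ volume.real (Set.Icc y (y + H) ∩ Pf g r (6 * σ) T) := by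
  have hs0 : 0 < s := by linarith only [hs]
  have hs2 : 1 ≤ s ^ 2 := one_le_pow₀ hs
  have hss : s ≤ s ^ 2 := by nlinarith only [hs]
  have hr1 : 1 ≤ r := by rw [← hr]; exact one_le_pow₀ hs
  have hr0 : 0 < r := by linarith only [hr1]
  have hq0 : 0 ≤ q := by rw [hq]; positivity
  have hAF0 : 0 < AF := by rw [hAF]; positivity
  have hc20 : 0 < c2 := by rw [hc2]; positivity
  have hτ0 : 0 < τ := by rw [hτ]; positivity
  have hK00 : 0 < K0 := by linarith only [hK0]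
  obtain ⟨b, hb⟩ : ∃ b : ℝ, b = K0 / s ^ 2 := ⟨_, rfl⟩
  have hb0 : 0 < b := by rw [hb]; positivity
  have hbhalf : b < 1 / 2 := by
    rw [hb, div_lt_iff₀ (by positivity)]
    linarith only [u1, hss]
  have hb1 : b < 1 := by linarith only [hbhalf]
  have hbinv : 1 / b = s ^ 2 / K0 := by rw [hb]; field_simp
  have hI0 : 0 ≤ ∫ u in (0:ℝ)..1, ‖(D.r : ℂ) * D.v u‖ :=
    intervalIntegral.integral_nonneg zero_le_one fun u _ => norm_nonneg _
  obtain ⟨n, hn⟩ : ∃ n : ℕ, n = ⌈2 * √r / σ + 1⌉₊ := ⟨_, rfl⟩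
  have hn1 : 2 * √r / σ + 1 ≤ n := by rw [hn]; exact Nat.le_ceil _
  have hn2 : (n : ℝ) ≤ 2 * s ^ 2 / σ + 2 := by
    have h1 : (n : ℝ) < 2 * √r / σ + 1 + 1 := by
      rw [hn]; exact Nat.ceil_lt_add_one (by positivity)
    rw [hsr]
    linarith only [h1]
  obtain ⟨x, hx⟩ : ∃ x : ℕ → ℝ, ∀ i, x i = i * (σ * s ^ 2) := ⟨fun i => i * (σ * s ^ 2), fun _ => rfl⟩
  have hx0 : ∀ i, 0 ≤ x i := fun i => by rw [hx]; positivity
  have hx3 : ∀ i, i ≤ n → x i ≤ 3 * r := fun i hi => by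
    rw [hx]; exact mesh_le hσ hs hr hn2 u5 hi
  have hAI : ∀ i, i ≤ n → 6 * ((1 + (K / D.th) ^ 2) *
      (∫ u in (0:ℝ)..1, u * ‖GI b (x i) u‖ ^ 2) + 2 * (K / D.th) ^ 2 *
        (∫ u in (0:ℝ)..1, u * ‖GI b (x i) u‖ * ‖(D.r : ℂ) * D.v u‖) ^ 2) <
      6 * ((1 + q) * (2 + Real.log (1 + 3 * r)) + 2 * q * C' ^ 2) + 1 := by
    intro i hi
    rw [d1, ← hq]
    have e1 := GI_sq (b := b) (x := x i) hb0 (hx0 i)
    have e2 := GI_mix D (b := b) (x := x i) hb0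
    have e3 : Real.log (1 + x i) ≤ Real.log (1 + 3 * r) :=
      Real.log_le_log (by linarith only [hx0 i]) (by linarith only [hx3 i hi])
    have e4 : 0 ≤ ∫ u in (0:ℝ)..1, u * ‖GI b (x i) u‖ * ‖(D.r : ℂ) * D.v u‖ :=
      intervalIntegral.integral_nonneg zero_le_one fun u hu =>
        mul_nonneg (mul_nonneg hu.1 (norm_nonneg _)) (norm_nonneg _)
    have e5 : (∫ u in (0:ℝ)..1, u * ‖GI b (x i) u‖ * ‖(D.r : ℂ) * D.v u‖) ^ 2 ≤ C' ^ 2 :=
      pow_le_pow_left₀ e4 (e2.trans hI) 2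
    have e6 : (1 + q) * (∫ u in (0:ℝ)..1, u * ‖GI b (x i) u‖ ^ 2) ≤
        (1 + q) * (2 + Real.log (1 + 3 * r)) :=
      mul_le_mul_of_nonneg_left (by linarith only [e1, e3]) (by linarith only [hq0])
    have e7 : 2 * q * (∫ u in (0:ℝ)..1, u * ‖GI b (x i) u‖ * ‖(D.r : ℂ) * D.v u‖) ^ 2 ≤
        2 * q * C' ^ 2 := mul_le_mul_of_nonneg_left e5 (by linarith only [hq0])
    linarith only [e6, e7]
  have hAFs : ∀ s', 6 * ((1 + (K / D.th) ^ 2) * (∫ u in (0:ℝ)..1, u * ‖GF b s' u‖ ^ 2) +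
      2 * (K / D.th) ^ 2 *
        (∫ u in (0:ℝ)..1, u * ‖GF b s' u‖ * ‖(D.r : ℂ) * D.v u‖) ^ 2) < AF := by
    intro s'
    rw [d1, ← hq, hAF]
    have e1 := GF_sq (b := b) (s := s') hb0 hb1.le
    have e2 := GF_mix D (b := b) (s := s') hb0
    have e4 : 0 ≤ ∫ u in (0:ℝ)..1, u * ‖GF b s' u‖ * ‖(D.r : ℂ) * D.v u‖ :=
      intervalIntegral.integral_nonneg zero_le_one fun u hu =>
        mul_nonneg (mul_nonneg hu.1 (norm_nonneg _)) (norm_nonneg _)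
    have e5 : (∫ u in (0:ℝ)..1, u * ‖GF b s' u‖ * ‖(D.r : ℂ) * D.v u‖) ^ 2 ≤ (2 * C') ^ 2 :=
      pow_le_pow_left₀ e4 (by linarith only [e2, hI]) 2
    have e6 : (1 + q) * (∫ u in (0:ℝ)..1, u * ‖GF b s' u‖ ^ 2) ≤ (1 + q) * 2 :=
      mul_le_mul_of_nonneg_left e1 (by linarith only [hq0])
    have e7 : 2 * q * (∫ u in (0:ℝ)..1, u * ‖GF b s' u‖ * ‖(D.r : ℂ) * D.v u‖) ^ 2 ≤
        2 * q * (2 * C') ^ 2 := mul_le_mul_of_nonneg_left e5 (by linarith only [hq0])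
    linarith only [e6, e7]
  have hmF : ∀ s', |mG D (GF b s')| ≤ 4 * s ^ 2 / K0 * C' := by
    intro s'
    refine (GF_mean D (b := b) (s := s') hb0).trans ?_
    have h1 : 4 / b = 4 * s ^ 2 / K0 := by rw [hb]; field_simp
    rw [h1]
    exact mul_le_mul_of_nonneg_left hI (by positivity)
  obtain ⟨c0, c, T0, hc0, hc, hmain⟩ := CoreAA.core1 hRH hb0 hb1 hC0 hC1 (fun x hx => hnear b hb0 hbhalf x hx)
    D hK (fun y _ => hF y) hF0 (fun y z _ _ => hlip y z) hSig (a' := a') (a := a)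
    ha0 (by rw [d1, hb]; exact hba) ha ha1 n x (fun i => √r * ∫ y in (0:ℝ)..(x i / r), g y) hx0
    (e := τ * s ^ 2) (e1 := σ * s ^ 2) (e2 := 4 * s ^ 2 / K0 * C')
    (LX := (2 + 3 * K0) + 2 * s)
    (AI := 6 * ((1 + q) * (2 + Real.log (1 + 3 * r)) + 2 * q * C' ^ 2) + 1) (AF := AF)
    (by positivity) hAI hAFs (union_arith8 hσ hτ0 hq0 hAF0.le hc2 hs hr hn2 u6)
    (fun i hi => by
      have h1 := hmean (x i) ⟨hx0 i, hx3 i hi⟩
      rw [← hb, ← hsr] at h1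
      rw [← hsr]
      exact h1)
    hmF
    (fun i hi => by
      rw [hb]
      exact lx_arith hK0 hs hr (hx0 i) (hx3 i hi))
  refine ⟨c0, c, max T0 3, hc0, hc, fun T hT => ?_⟩
  obtain ⟨E, E1, E2, E3, E4⟩ := hmain T ((le_max_left _ _).trans hT)
  refine ⟨E, E1, E2, E3, fun y H hy hyH hH hEy => ?_⟩
  refine (E4 y H hy hyH hH hEy).trans (measureReal_mono ?_ ?_)
  · rintro t ⟨htI, ht⟩
    refine ⟨htI, ?_⟩
    have hT3 : 3 ≤ T := (le_max_right T0 3).trans hT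
    have hTpos : 1 < T := by linarith only [hT3]
    have hL0 : 0 < Real.log T := Real.log_pos hTpos
    have hmono : Monotone (fun z : ℝ => (zeroCount (t + 2 * Real.pi * z / Real.log T) : ℝ) -
        zeroCount t) := by
      intro z z' hzz
      simp only
      have h1 : zeroCount (t + 2 * Real.pi * z / Real.log T) ≤
          zeroCount (t + 2 * Real.pi * z' / Real.log T) := by
        apply zeroCount_mono
        have := Real.pi_pos
        gcongr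
      have h2 : (zeroCount (t + 2 * Real.pi * z / Real.log T) : ℝ) ≤
          zeroCount (t + 2 * Real.pi * z' / Real.log T) := by exact_mod_cast h1
      linarith only [h2]
    have hm := mesh hg hB hr1 (by rw [← hsr]; exact u7.trans hss) hσ hn1 hmono (e := 4 * σ)
      (fun i hi => by
        have h1 := ht i hi
        simp only [hx] at h1
        rw [hbinv] at h1
        have h2 := err_arith hσ hC0 hC1 hτ hK0 hK1 hs u2
        simp only [← hsr] at h1 ⊢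
        exact h1.trans h2)
    intro z hz
    have h2 := hm z hz
    have h3 : (4 * σ + 2 * σ) * √r = 6 * σ * √r := by ring
    rw [h3] at h2
    exact h2
  · refine ne_top_of_le_ne_top ?_ (measure_mono Set.inter_subset_left)
    rw [Real.volume_Icc]
    exact ENNReal.ofReal_ne_top

end CoreAA

open Pool.Agent.PF.Core

/-- **The good centres have positive density in every short interval off a small exceptional set**,
for more energy. -/
theorem profile_volume_aa (hRH : RiemannHypothesis) {g : ℝ → ℝ} (hg : Continuous g)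
    (hg0 : ∀ x, x ≤ 0 → g x = 0) (hg1 : ∀ x, 1 ≤ x → g x = 0) {a : ℝ} (ha : 0 < a) (ha1 : a < 1)
    (hE : ∫ y in (0:ℝ)..1, g y ^ 2 < 2 * (1 + a)) {δ : ℝ} (hδ : 0 < δ) :
    ∃ r0 : ℝ, ∀ r, r0 ≤ r → ∃ c0 c T0 : ℝ, 0 < c0 ∧ 0 < c ∧ ∀ T, T0 ≤ T →
      ∃ E : Set ℝ, MeasurableSet E ∧ E ⊆ Set.Icc T (2 * T) ∧ volume.real E ≤ T ^ (1 - c) ∧
        ∀ y H, T ≤ y → y + H ≤ 2 * T → T ^ a ≤ H →
          volume.real (E ∩ Set.Icc y (y + H)) ≤ H / 8 →
          c0 * H ≤ volume.real (Set.Icc y (y + H) ∩ Pf g r δ T) := by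
  obtain ⟨C0, C1, hC0, hC1, hnear⟩ := count_near hRH
  -- a bound for `g`
  obtain ⟨B, hB⟩ : ∃ B : ℝ, ∀ x, |g x| ≤ B := by
    obtain ⟨B, hB⟩ := isCompact_Icc.exists_bound_of_continuousOn
      (hg.continuousOn : ContinuousOn g (Set.Icc 0 1))
    refine ⟨B, fun x => ?_⟩
    have hB0 : 0 ≤ B := (norm_nonneg _).trans (hB 0 ⟨le_rfl, zero_le_one⟩)
    rcases le_or_gt x 0 with h | h
    · rw [hg0 x h, abs_zero]; exact hB0
    · rcases le_or_gt 1 x with h' | h'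
      · rw [hg1 x h', abs_zero]; exact hB0
      · exact hB x ⟨h.le, h'.le⟩
  obtain ⟨σ, hσ⟩ : ∃ σ : ℝ, σ = δ / 6 := ⟨_, rfl⟩
  have hσ0 : 0 < σ := by rw [hσ]; positivity
  -- the amplitude
  have hE' : ∫ x in (0:ℝ)..1, (fun t => √3 * g (3 * t)) x ^ 2 < 4 * ((1 + a) / 2) := by
    simp only
    rw [scale_sq hg hg1]; linarith only [hE]
  obtain ⟨th, E, C, hE0, hEth, hth, hamp⟩ := exists_amp (f := fun t => √3 * g (3 * t))
    (by fun_prop) (a := (1 + a) / 2) (ε := σ / 2) (by positivity) hE'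
  have hth0 : 0 < th := hE0.trans hEth
  obtain ⟨la, hla⟩ : ∃ la : ℝ, la = 1 - E / th := ⟨_, rfl⟩
  have hEt0 : 0 < E / th := div_pos hE0 hth0
  have hEt1 : E / th < 1 := by rw [div_lt_one hth0]; exact hEth
  have hla0 : 0 < la := by rw [hla]; linarith only [hEt1]
  have hla1 : la < 1 := by rw [hla]; linarith only [hEt0]
  obtain ⟨K, hK0, hdata⟩ := exists_data (th := th) (x1 := 1 - la / 4)
    (by linarith only [hla1]) (by linarith only [hla0]) (by linarith only [hth, ha1])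
  obtain ⟨b1, hb1⟩ : ∃ b1 : ℝ, b1 = min 1 (min th ((la / 4) ^ 2 * th / 8)) := ⟨_, rfl⟩
  have hb10 : 0 < b1 := by rw [hb1]; positivity
  have hb11 : b1 ≤ 1 := by rw [hb1]; exact min_le_left _ _
  have hb1th : b1 ≤ th := by rw [hb1]; exact (min_le_right _ _).trans (min_le_left _ _)
  have hb1η : 8 * b1 ≤ (la / 4) ^ 2 * th := by
    have h1 : b1 ≤ (la / 4) ^ 2 * th / 8 := by
      rw [hb1]; exact (min_le_right _ _).trans (min_le_right _ _)
    linarith only [h1]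
  obtain ⟨C', hC'⟩ : ∃ C' : ℝ, C' = max C 0 := ⟨_, rfl⟩
  have hC'0 : 0 ≤ C' := by rw [hC']; exact le_max_right _ _
  have hCC' : C ≤ C' := by rw [hC']; exact le_max_left _ _
  obtain ⟨K0, hK0'⟩ : ∃ K0 : ℝ, K0 = (C0 * (4 + 16 * C') + C1) / σ + 1 := ⟨_, rfl⟩
  have hK00 : 1 ≤ K0 := by
    rw [hK0']
    have h1 : 0 ≤ (C0 * (4 + 16 * C') + C1) / σ := by positivity
    linarith only [h1]
  have hK01 : C0 * (4 + 16 * C') + C1 ≤ σ * K0 := by
    have e1 : σ * ((C0 * (4 + 16 * C') + C1) / σ + 1) = C0 * (4 + 16 * C') + C1 + σ := by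
      field_simp
    rw [hK0', e1]
    linarith only [hσ0]
  have hK0p : 0 < K0 := by linarith only [hK00]
  obtain ⟨r0, hr0, hamp2⟩ := hamp b1 hb10 hb11 (2 / K0) (by positivity)
  obtain ⟨q, hq⟩ : ∃ q : ℝ, q = (K / th) ^ 2 := ⟨_, rfl⟩
  obtain ⟨AF, hAF⟩ : ∃ AF : ℝ, AF = 6 * ((1 + q) * 2 + 2 * q * (2 * C') ^ 2) + 1 := ⟨_, rfl⟩
  obtain ⟨c2, hc2⟩ : ∃ c2 : ℝ, c2 = 6 * ((1 + q) * 10 + 2 * q * C' ^ 2) + 1 + 4 * AF := ⟨_, rfl⟩
  obtain ⟨τ, hτ⟩ : ∃ τ : ℝ, τ = σ / (1 + 4 * C0) := ⟨_, rfl⟩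
  obtain ⟨a', ha'⟩ : ∃ a' : ℝ, a' = (max (4 * th - 1) 0 + a) / 2 := ⟨_, rfl⟩
  have hm1 : 4 * th - 1 ≤ max (4 * th - 1) 0 := le_max_left _ _
  have hm2 : 0 ≤ max (4 * th - 1) 0 := le_max_right _ _
  have hm3 : max (4 * th - 1) 0 < a := max_lt (by linarith only [hth]) ha
  obtain ⟨gp, hgp⟩ : ∃ gp : ℝ, gp = 1 + a' - 4 * th := ⟨_, rfl⟩
  have had : 0 < gp := by rw [hgp, ha']; linarith only [hm1, hm3]
  obtain ⟨S0, w1, w2, w3, w4, w5, w6, w7, w8⟩ := ub8 1 (2 * K0 + 1) ((C1 * (4 + 3 * K0) + 1) / σ)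
    (4 * K0 / gp + 1) r0 (2 * σ) ((2 / σ + 3) * c2 * 8 / τ ^ 2) B
  refine ⟨S0 ^ 4, fun r hr => ?_⟩
  obtain ⟨s, hs⟩ : ∃ s : ℝ, s = √(√r) := ⟨_, rfl⟩
  have hS00 : 0 < S0 := by linarith only [w1]
  have hrpos : 0 < r := lt_of_lt_of_le (by positivity) hr
  have hs2 : s ^ 2 = √r := by rw [hs, Real.sq_sqrt (Real.sqrt_nonneg _)]
  have hs4 : s ^ 4 = r := by
    rw [show s ^ 4 = (s ^ 2) ^ 2 by ring, hs2, Real.sq_sqrt hrpos.le]
  have hs0 : 0 ≤ s := by rw [hs]; exact Real.sqrt_nonneg _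
  have hsS : S0 ≤ s := by
    by_contra hcon
    push Not at hcon
    have h1 : s ^ 4 < S0 ^ 4 := pow_lt_pow_left₀ hcon hs0 (by norm_num)
    rw [hs4] at h1
    linarith only [h1, hr]
  have hs1 : 1 ≤ s := w1.trans hsS
  have hss : s ≤ s ^ 2 := by nlinarith only [hs1]
  have hr1 : 1 ≤ r := by rw [← hs4]; exact one_le_pow₀ hs1
  have hsr : s ≤ r := by
    have h1 : s ^ 2 ≤ s ^ 4 := pow_le_pow_right₀ hs1 (by norm_num)
    rw [← hs4]
    linarith only [hss, h1]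
  have hba : 4 * (th + K0 / s ^ 2) < 1 + a' := by
    have h0 : 4 * K0 / gp < s := by linarith only [w4, hsS]
    have h1 : 4 * K0 < s ^ 2 * gp := by
      rw [div_lt_iff₀ had] at h0
      have h2 : s * gp ≤ s ^ 2 * gp :=
        mul_le_mul_of_nonneg_right hss had.le
      linarith only [h0, h2]
    have h2 : 4 * (K0 / s ^ 2) < gp := by
      rw [← mul_div_assoc, div_lt_iff₀ (by positivity)]
      linarith only [h1]
    linarith only [h2, hgp]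
  -- the amplitude at the scale `3 r`
  obtain ⟨ep0, hep0, hv⟩ := hamp2 (3 * r) (by linarith only [w5, hsS, hsr, hr1])
  obtain ⟨v, v1, v2, v3, v4, v5, v6, v7⟩ := hv (min ep0 (th / 4)) (by positivity) (min_le_left _ _)
  have hmn : min ep0 (th / 4) ≤ th / 4 := min_le_right _ _
  obtain ⟨D, d1, d2, d3, d4, d5, d6, d7⟩ := hdata (3 * r) (min ep0 (th / 4)) b1 v (by positivity)
    (by linarith only [hmn, hth0]) hb1th v1 v2 v3 v4
  have hI : ∫ u in (0:ℝ)..1, ‖(D.r : ℂ) * D.v u‖ ≤ C' := by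
    have e1 : ∀ u : ℝ, ‖(D.r : ℂ) * D.v u‖ = (3 * r) * ‖v u‖ := by
      intro u
      rw [norm_mul, d3, d4, Complex.norm_real, Real.norm_of_nonneg (by positivity)]
    simp_rw [e1]
    rw [intervalIntegral.integral_const_mul]
    have e2 : 1 ≤ √(3 * r) := by rw [Real.one_le_sqrt]; linarith only [hr1]
    have e3 : 0 ≤ ∫ u in (0:ℝ)..1, ‖v u‖ :=
      intervalIntegral.integral_nonneg zero_le_one fun u _ => norm_nonneg _
    have e4 : 3 * r * (∫ u in (0:ℝ)..1, ‖v u‖) ≤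
        3 * r * √(3 * r) * (∫ u in (0:ℝ)..1, ‖v u‖) := by
      have e5 : 3 * r ≤ 3 * r * √(3 * r) := le_mul_of_one_le_right (by positivity) e2
      exact mul_le_mul_of_nonneg_right e5 e3
    linarith only [e4, v6, hCC']
  have hSig : ∃ T0 : ℝ, ∀ T, T0 ≤ T → Nrm D T / 2 ≤ Sig D T := by
    obtain ⟨T0, -, hT0⟩ := Sig_ge D (x1 := 1 - la / 4) (η := la / 4) (b0 := b1) (by positivity)
      (by linarith only [hla1]) (by linarith only [hla0]) d6 hb10.le (by rw [d4]; exact v4)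
      (by rw [d1]; exact hb1η)
      (by
        rw [d1, d3, d4, div_mul_eq_mul_div, div_le_iff₀ hth0]
        have e1 : (1 - la / 4 - 2 * (la / 4)) * th = th - 3 / 4 * (la * th) := by ring
        have e2 : la * th = th - E := by rw [hla]; field_simp
        rw [e1, e2]
        linarith only [v5, hEth])
    exact ⟨T0, hT0⟩
  have hmean : ∀ x ∈ Set.Icc (0:ℝ) (3 * r), |mG D (GI (K0 / s ^ 2) x) -
      √r * ∫ y in (0:ℝ)..(x / r), g y| ≤ σ * √r := by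
    intro x hx
    have hb0 : 0 < K0 / s ^ 2 := by positivity
    rw [GI_mean, d3, d4]
    have h1 := v7 (wB (K0 / s ^ 2)) (wB_continuous _) (fun u hu => by
      have h2 := wB_bounds hb0 hu
      refine ⟨h2.1, h2.2.trans ?_⟩
      have h3 : 2 / (K0 / s ^ 2) = 2 / K0 * √r := by rw [← hs2]; field_simp
      rw [h3]
      have h4 : √r ≤ √(3 * r) := Real.sqrt_le_sqrt (by linarith only [hrpos])
      have h5 : 0 ≤ 2 / K0 := by positivity
      exact mul_le_mul_of_nonneg_right (mul_le_mul_of_nonneg_left h4 h5) hu) x hx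
    rw [scale_int g hrpos x] at h1
    refine h1.trans ?_
    have h6 : √(3 * r) ≤ 2 * √r := by
      rw [show 2 * √r = √(2 ^ 2 * r) by
        rw [Real.sqrt_mul (by norm_num), Real.sqrt_sq (by norm_num)]]
      exact Real.sqrt_le_sqrt (by linarith only [hrpos])
    calc σ / 2 * √(3 * r) ≤ σ / 2 * (2 * √r) := mul_le_mul_of_nonneg_left h6 (by positivity)
      _ = σ * √r := by ring
  have h6 : 6 * σ = δ := by rw [hσ]; ring
  rw [← h6]
  exact CoreAA.core2 hRH hg hB hC0 hC1 hnear hσ0 hK0 hC'0 hq hAF hc2 hτ hK00 hK01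
    (by rw [ha']; linarith only [hm2, ha]) (by rw [ha']; linarith only [hm3]) ha1 hs1 hs4 hs2 (w2.trans hsS) (w3.trans hsS)
    (w6.trans hsS) (w7.trans hsS) (w8.trans hsS) hba D d1 d5
    (by rw [d6 0 le_rfl (by linarith only [hla1])]; exact one_pos) d7 hSig hI hmean

end Pool.Agent.PF
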