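import Mathlib

/-!
# The variance of a creation operator in a product state
-/

namespace Pool.Agent.PF

open Finset ComplexConjugate

/-- The product of `c` over a finite set. -/
noncomputable def Psi (c : ℕ → ℂ) (S : Finset ℕ) : ℂ := ∏ p ∈ S, c p

/-- The squared norm of the product state. -/
noncomputable def NP (c : ℕ → ℂ) (P : Finset ℕ) : ℝ := ∏ p ∈ P, (1 + ‖c p‖ ^ 2)

lemma Psi_insert {c : ℕ → ℂ} {p : ℕ} {S : Finset ℕ} (h : p ∉ S) :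
    Psi c (insert p S) = c p * Psi c S := prod_insert h

lemma NP_insert {c : ℕ → ℂ} {p : ℕ} {S : Finset ℕ} (h : p ∉ S) :
    NP c (insert p S) = (1 + ‖c p‖ ^ 2) * NP c S := prod_insert h

lemma NP_pos (c : ℕ → ℂ) (P : Finset ℕ) : 0 < NP c P := prod_pos fun _ _ => by positivity

lemma one_le_NP (c : ℕ → ℂ) (P : Finset ℕ) : 1 ≤ NP c P := by
  induction P using Finset.induction_on with
  | empty => simp [NP]
  | insert p P hp ih =>
    rw [NP, prod_insert hp]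
    have h1 : (1:ℝ) ≤ 1 + ‖c p‖ ^ 2 := by nlinarith [sq_nonneg ‖c p‖]
    have h2 : 1 ≤ ∏ q ∈ P, (1 + ‖c q‖ ^ 2) := ih
    nlinarith

lemma norm_Psi_sq (c : ℕ → ℂ) (S : Finset ℕ) : ‖Psi c S‖ ^ 2 = ∏ p ∈ S, ‖c p‖ ^ 2 := by
  unfold Psi
  rw [norm_prod, prod_pow]

lemma sum_norm_Psi_sq (c : ℕ → ℂ) (P : Finset ℕ) :
    ∑ S ∈ P.powerset, ‖Psi c S‖ ^ 2 = NP c P := by
  unfold NP
  rw [prod_one_add]
  exact sum_congr rfl fun S _ => norm_Psi_sq c S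

/-- The centred creation vector. -/
noncomputable def GG (c x : ℕ → ℂ) (m : ℂ) (S : Finset ℕ) : ℂ :=
  ∑ p ∈ S, x p * Psi c (S.erase p) - m * Psi c S

/-- The mean of the creation operator. -/
noncomputable def mm (c x : ℕ → ℂ) (P : Finset ℕ) : ℂ :=
  ∑ p ∈ P, x p * conj (c p) / (1 + (‖c p‖ : ℂ) ^ 2)

lemma GG_sub (c x : ℕ → ℂ) (m η : ℂ) (S : Finset ℕ) :
    GG c x (m + η) S = GG c x m S - η * Psi c S := by
  unfold GG; ring

lemma GG_insert {c x : ℕ → ℂ} {m η : ℂ} {p : ℕ} {S : Finset ℕ} (h : p ∉ S) :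
    GG c x (m + η) (insert p S) = c p * GG c x m S + (x p - η * c p) * Psi c S := by
  unfold GG
  rw [sum_insert h, Psi_insert h, erase_insert h]
  have h1 : ∑ q ∈ S, x q * Psi c ((insert p S).erase q) =
      c p * ∑ q ∈ S, x q * Psi c (S.erase q) := by
    rw [mul_sum]
    refine sum_congr rfl fun q hq => ?_
    have hne : p ≠ q := fun e => h (e ▸ hq)
    rw [erase_insert_of_ne hne, Psi_insert (fun h' => h (mem_of_mem_erase h'))]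
    ring
  rw [h1]
  ring

lemma norm_identity {G Q c x η : ℂ} (h : η * (1 + (‖c‖ : ℂ) ^ 2) = x * conj c) :
    ‖G - η * Q‖ ^ 2 + ‖c * G + (x - η * c) * Q‖ ^ 2 =
      (1 + ‖c‖ ^ 2) * ‖G‖ ^ 2 + (‖η‖ ^ 2 + ‖x - η * c‖ ^ 2) * ‖Q‖ ^ 2 := by
  have hc : ((‖c‖ : ℂ) ^ 2) = c * conj c := by
    rw [Complex.mul_conj, Complex.normSq_eq_norm_sq]; push_cast; ring
  have hre := congrArg Complex.re h
  have him := congrArg Complex.im h
  rw [hc] at hre him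
  simp only [Complex.mul_re, Complex.mul_im, Complex.add_re, Complex.add_im, Complex.one_re,
    Complex.one_im, Complex.conj_re, Complex.conj_im] at hre him
  simp only [← Complex.normSq_eq_norm_sq, Complex.normSq_apply, Complex.sub_re, Complex.sub_im,
    Complex.mul_re, Complex.mul_im, Complex.add_re, Complex.add_im]
  linear_combination (-2 * (G.re * Q.re + G.im * Q.im)) * hre +
    (-2 * (G.im * Q.re - G.re * Q.im)) * him

lemma eta_norm {c x η : ℂ} (h : η * (1 + (‖c‖ : ℂ) ^ 2) = x * conj c) :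
    ‖η‖ ^ 2 + ‖x - η * c‖ ^ 2 ≤ ‖x‖ ^ 2 := by
  have h1 := norm_identity (G := 0) (Q := 1) h
  have hpos : (0:ℝ) < 1 + ‖c‖ ^ 2 := by positivity
  have hne : (1 + (‖c‖ : ℂ) ^ 2) ≠ 0 := by
    have : ((1 + ‖c‖ ^ 2 : ℝ) : ℂ) ≠ 0 := by exact_mod_cast hpos.ne'
    simpa using this
  have e1 : (x - η * c) * (1 + (‖c‖ : ℂ) ^ 2) = x := by
    have hc : ((‖c‖ : ℂ) ^ 2) = c * conj c := by
      rw [Complex.mul_conj, Complex.normSq_eq_norm_sq]; push_cast; ring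
    calc _ = x * (1 + (‖c‖ : ℂ) ^ 2) - (η * (1 + (‖c‖ : ℂ) ^ 2)) * c := by ring
      _ = x * (1 + (‖c‖ : ℂ) ^ 2) - x * conj c * c := by rw [h]
      _ = _ := by rw [hc]; ring
  have n1 : ‖x - η * c‖ * (1 + ‖c‖ ^ 2) = ‖x‖ := by
    have := congrArg norm e1
    rw [norm_mul] at this
    have h2 : ‖(1 + (‖c‖ : ℂ) ^ 2)‖ = 1 + ‖c‖ ^ 2 := by
      have : (1 + (‖c‖ : ℂ) ^ 2) = ((1 + ‖c‖ ^ 2 : ℝ) : ℂ) := by push_cast; ring
      rw [this, Complex.norm_real, Real.norm_eq_abs, abs_of_pos hpos]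
    rwa [h2] at this
  have n2 : ‖η‖ * (1 + ‖c‖ ^ 2) = ‖x‖ * ‖c‖ := by
    have := congrArg norm h
    rw [norm_mul, norm_mul, RCLike.norm_conj] at this
    have h2 : ‖(1 + (‖c‖ : ℂ) ^ 2)‖ = 1 + ‖c‖ ^ 2 := by
      have : (1 + (‖c‖ : ℂ) ^ 2) = ((1 + ‖c‖ ^ 2 : ℝ) : ℂ) := by push_cast; ring
      rw [this, Complex.norm_real, Real.norm_eq_abs, abs_of_pos hpos]
    rwa [h2] at this
  have n3 : (‖η‖ ^ 2 + ‖x - η * c‖ ^ 2) * (1 + ‖c‖ ^ 2) ^ 2 = ‖x‖ ^ 2 * (1 + ‖c‖ ^ 2) := by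
    calc _ = (‖η‖ * (1 + ‖c‖ ^ 2)) ^ 2 + (‖x - η * c‖ * (1 + ‖c‖ ^ 2)) ^ 2 := by ring
      _ = _ := by rw [n1, n2]; ring
  have n4 : (‖η‖ ^ 2 + ‖x - η * c‖ ^ 2) * (1 + ‖c‖ ^ 2) = ‖x‖ ^ 2 := by
    have : ((‖η‖ ^ 2 + ‖x - η * c‖ ^ 2) * (1 + ‖c‖ ^ 2)) * (1 + ‖c‖ ^ 2) =
        ‖x‖ ^ 2 * (1 + ‖c‖ ^ 2) := by rw [← n3]; ring
    exact mul_right_cancel₀ hpos.ne' this
  have n5 : 0 ≤ ‖η‖ ^ 2 + ‖x - η * c‖ ^ 2 := by positivity
  nlinarith [sq_nonneg ‖c‖]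

/-- **The variance of the creation operator.** -/
theorem creation_norm (c x : ℕ → ℂ) (P : Finset ℕ) :
    ∑ S ∈ P.powerset, ‖GG c x (mm c x P) S‖ ^ 2 ≤ NP c P * ∑ p ∈ P, ‖x p‖ ^ 2 := by
  induction P using Finset.induction_on with
  | empty => simp [GG, mm]
  | insert p P hp ih =>
    have hη : x p * conj (c p) / (1 + (‖c p‖ : ℂ) ^ 2) * (1 + (‖c p‖ : ℂ) ^ 2) =
        x p * conj (c p) := by
      have hne : (1 + (‖c p‖ : ℂ) ^ 2) ≠ 0 := by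
        have : ((1 + ‖c p‖ ^ 2 : ℝ) : ℂ) ≠ 0 := by
          have h0 : (0:ℝ) < 1 + ‖c p‖ ^ 2 := by positivity
          exact_mod_cast h0.ne'
        simpa using this
      field_simp
    set η : ℂ := x p * conj (c p) / (1 + (‖c p‖ : ℂ) ^ 2) with hηd
    have hm : mm c x (insert p P) = mm c x P + η := by
      unfold mm
      rw [sum_insert hp, add_comm]
    rw [sum_powerset_insert hp, hm, NP_insert hp, sum_insert hp, ← sum_add_distrib]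
    have h1 : ∀ S ∈ P.powerset, ‖GG c x (mm c x P + η) S‖ ^ 2 +
        ‖GG c x (mm c x P + η) (insert p S)‖ ^ 2 = (1 + ‖c p‖ ^ 2) * ‖GG c x (mm c x P) S‖ ^ 2 +
          (‖η‖ ^ 2 + ‖x p - η * c p‖ ^ 2) * ‖Psi c S‖ ^ 2 := by
      intro S hS
      have hpS : p ∉ S := fun h => hp (mem_powerset.mp hS h)
      rw [GG_sub, GG_insert hpS]
      exact norm_identity hη
    rw [sum_congr rfl h1, sum_add_distrib, ← mul_sum, ← mul_sum, sum_norm_Psi_sq]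
    have h2 := eta_norm hη
    have h3 := NP_pos c P
    have h4 : (0:ℝ) ≤ 1 + ‖c p‖ ^ 2 := by positivity
    have h5 := mul_le_mul_of_nonneg_left ih h4
    have h6 := mul_le_mul_of_nonneg_right h2 h3.le
    have h7 : ‖x p‖ ^ 2 * NP c P ≤ (1 + ‖c p‖ ^ 2) * NP c P * ‖x p‖ ^ 2 := by
      have : 0 ≤ ‖c p‖ ^ 2 * (NP c P * ‖x p‖ ^ 2) := by positivity
      nlinarith
    calc _ ≤ (1 + ‖c p‖ ^ 2) * (NP c P * ∑ q ∈ P, ‖x q‖ ^ 2) + ‖x p‖ ^ 2 * NP c P :=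
          add_le_add h5 h6
      _ ≤ (1 + ‖c p‖ ^ 2) * (NP c P * ∑ q ∈ P, ‖x q‖ ^ 2) +
          (1 + ‖c p‖ ^ 2) * NP c P * ‖x p‖ ^ 2 := by linarith
      _ = _ := by ring

/-- The absolute version. -/
theorem creation_abs (c : ℕ → ℂ) {y : ℕ → ℝ} (hy : ∀ p, 0 ≤ y p) (P : Finset ℕ) :
    ∑ S ∈ P.powerset, (∑ p ∈ S, y p * ‖Psi c (S.erase p)‖) ^ 2 ≤
      NP c P * (2 * ∑ p ∈ P, y p ^ 2 + 2 * (∑ p ∈ P, y p * ‖c p‖) ^ 2) := by
  set c' : ℕ → ℂ := fun p => (‖c p‖ : ℂ) with hc'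
  set y' : ℕ → ℂ := fun p => (y p : ℂ) with hy'
  have e1 : ∀ S, Psi c' S = (‖Psi c S‖ : ℂ) := by
    intro S
    unfold Psi
    rw [norm_prod]
    push_cast
    rfl
  have e2 : NP c' P = NP c P := by
    unfold NP
    refine prod_congr rfl fun p _ => ?_
    rw [hc']
    simp
  have h1 := creation_norm c' y' P
  have e3 : ∀ S ∈ P.powerset, (∑ p ∈ S, y p * ‖Psi c (S.erase p)‖) ^ 2 ≤
      2 * ‖GG c' y' (mm c' y' P) S‖ ^ 2 + 2 * (‖mm c' y' P‖ ^ 2 * ‖Psi c S‖ ^ 2) := by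
    intro S _
    have e4 : ((∑ p ∈ S, y p * ‖Psi c (S.erase p)‖ : ℝ) : ℂ) =
        GG c' y' (mm c' y' P) S + mm c' y' P * Psi c' S := by
      unfold GG
      rw [sub_add_cancel]
      push_cast
      exact sum_congr rfl fun p _ => by rw [e1]
    have e5 : 0 ≤ ∑ p ∈ S, y p * ‖Psi c (S.erase p)‖ :=
      sum_nonneg fun p _ => mul_nonneg (hy p) (norm_nonneg _)
    have e6 : ∑ p ∈ S, y p * ‖Psi c (S.erase p)‖ =
        ‖GG c' y' (mm c' y' P) S + mm c' y' P * Psi c' S‖ := by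
      rw [← e4, Complex.norm_real, Real.norm_eq_abs, abs_of_nonneg e5]
    rw [e6]
    have e7 := norm_add_le (GG c' y' (mm c' y' P) S) (mm c' y' P * Psi c' S)
    have e8 : ‖mm c' y' P * Psi c' S‖ = ‖mm c' y' P‖ * ‖Psi c S‖ := by
      rw [norm_mul, e1, Complex.norm_real, norm_norm]
    rw [e8] at e7
    have e9 := pow_le_pow_left₀ (norm_nonneg _) e7 2
    nlinarith [sq_nonneg (‖GG c' y' (mm c' y' P) S‖ - ‖mm c' y' P‖ * ‖Psi c S‖)]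
  have h2 : ‖mm c' y' P‖ ≤ ∑ p ∈ P, y p * ‖c p‖ := by
    unfold mm
    refine (norm_sum_le _ _).trans (sum_le_sum fun p _ => ?_)
    rw [norm_div, norm_mul, RCLike.norm_conj]
    have a1 : ‖y' p‖ = y p := by
      rw [hy', Complex.norm_real, Real.norm_eq_abs, abs_of_nonneg (hy p)]
    have a2 : ‖c' p‖ = ‖c p‖ := by rw [hc']; simp
    have a3 : 1 ≤ ‖(1 + (‖c' p‖ : ℂ) ^ 2)‖ := by
      have hpos : (0:ℝ) < 1 + ‖c' p‖ ^ 2 := by positivity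
      have : (1 + (‖c' p‖ : ℂ) ^ 2) = ((1 + ‖c' p‖ ^ 2 : ℝ) : ℂ) := by push_cast; ring
      rw [this, Complex.norm_real, Real.norm_eq_abs, abs_of_pos hpos]
      nlinarith [sq_nonneg ‖c' p‖]
    rw [a1]
    refine (div_le_self (mul_nonneg (hy p) (norm_nonneg _)) a3).trans ?_
    rw [a2]
  refine (sum_le_sum e3).trans ?_
  rw [sum_add_distrib, ← mul_sum, ← mul_sum, ← mul_sum, sum_norm_Psi_sq]
  rw [e2] at h1
  have a4 : ∑ p ∈ P, ‖y' p‖ ^ 2 = ∑ p ∈ P, y p ^ 2 :=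
    sum_congr rfl fun p _ => by
      rw [hy', Complex.norm_real, Real.norm_eq_abs, sq_abs]
  rw [a4] at h1
  have h3 := NP_pos c P
  have h4 := pow_le_pow_left₀ (norm_nonneg _) h2 2
  have h5 := mul_le_mul_of_nonneg_right h4 h3.le
  nlinarith

end Pool.Agent.PF
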