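import Pool.Agent.PF.Sta
import Pool.Agent.RG.Index

/-!
# Profiles of sums of consecutive gaps: from centres to indices
-/

open Filter Topology Finset MeasureTheory
open Pool.Agent.ZetaGaps

namespace Pool.Agent.PF

/-- Lipschitz bound for the primitive of a bounded function. -/
lemma prim_lip {g : ℝ → ℝ} (hg : Continuous g) {B : ℝ} (hB : ∀ x, |g x| ≤ B) (x y : ℝ) :
    |(∫ u in (0:ℝ)..x, g u) - ∫ u in (0:ℝ)..y, g u| ≤ B * |x - y| := by
  rw [intervalIntegral.integral_interval_sub_left (hg.intervalIntegrable _ _)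
    (hg.intervalIntegrable _ _)]
  have h := intervalIntegral.norm_integral_le_of_norm_le_const (a := y) (b := x) (f := g) (C := B)
    (fun u _ => by rw [Real.norm_eq_abs]; exact hB u)
  rwa [Real.norm_eq_abs] at h

/-- The position of the `k`-th zero after a centre which follows the profile. -/
lemma seq_close {G : ℝ → ℝ} {B : ℝ} (hB0 : 0 ≤ B) (hG : ∀ x y, |G x - G y| ≤ B * |x - y|)
    (hG0 : G 0 = 0) {r δ x k : ℝ} (hr : 1 ≤ r) (hδ : 0 < δ) (hx0 : 0 < x) (hx : x ≤ 2 * r)
    (h1 : k - δ * √r ≤ x + √r * G (x / r))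
    (h2 : ∀ x', 0 ≤ x' → x' < x → x' + √r * G (x' / r) ≤ k - 1 + δ * √r) :
    |x - k + √r * G (k / r)| ≤ δ * √r + B + B * (δ + 3 * B) := by
  have hr0 : 0 < r := by linarith
  set s := √r with hs
  have hs1 : 1 ≤ s := by rw [hs]; exact Real.one_le_sqrt.mpr hr
  have hs0 : 0 < s := by linarith
  have hss : s * s = r := Real.mul_self_sqrt hr0.le
  have hsr : s * (1 / r) = 1 / s := by rw [← hss]; field_simp
  have hdiff : ∀ u v : ℝ, |s * G (u / r) - s * G (v / r)| ≤ B / s * |u - v| := by
    intro u v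
    have e1 : s * G (u / r) - s * G (v / r) = s * (G (u / r) - G (v / r)) := by ring
    rw [e1, abs_mul, abs_of_pos hs0]
    calc s * |G (u / r) - G (v / r)| ≤ s * (B * |u / r - v / r|) := by
          gcongr
          exact hG _ _
      _ = B / s * |u - v| := by
          rw [← sub_div, abs_div, abs_of_pos hr0]
          calc s * (B * (|u - v| / r)) = (s * (1 / r)) * (B * |u - v|) := by ring
            _ = _ := by rw [hsr]; ring
  have hBs : B / s ≤ B := div_le_self hB0 hs1
  -- upper bound at x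
  have h3 : x + s * G (x / r) ≤ k + δ * s + B := by
    have hx' : max (x - 1) 0 < x := max_lt (by linarith) hx0
    have e1 := h2 _ (le_max_right _ _) hx'
    have e2 := abs_le.mp (hdiff x (max (x - 1) 0))
    have e3 : |x - max (x - 1) 0| ≤ 1 := by
      rw [abs_of_pos (by linarith)]
      have := le_max_left (x - 1) 0
      linarith
    have e4 : B / s * |x - max (x - 1) 0| ≤ B := by
      calc B / s * |x - max (x - 1) 0| ≤ B * 1 := by gcongr
        _ = B := mul_one B
    have e5 := le_max_left (x - 1) 0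
    linarith [e2.2]
  have h4 : |x + s * G (x / r) - k| ≤ δ * s + B := by
    rw [abs_le]
    constructor <;> linarith
  have h5 : |s * G (x / r)| ≤ 2 * B * s := by
    have e1 := hdiff x 0
    rw [zero_div, hG0, mul_zero, sub_zero, sub_zero, abs_of_pos hx0] at e1
    refine e1.trans ?_
    calc B / s * x ≤ B / s * (2 * r) := by gcongr
      _ = 2 * B * s := by
          rw [← hss]
          field_simp
  have h6 : |x - k| ≤ (δ + 3 * B) * s := by
    have e1 : x - k = (x + s * G (x / r) - k) - s * G (x / r) := by ring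
    rw [e1]
    refine (abs_sub _ _).trans ?_
    have e2 : B ≤ B * s := le_mul_of_one_le_right hB0 hs1
    linarith
  have h7 : |s * G (x / r) - s * G (k / r)| ≤ B * (δ + 3 * B) := by
    refine (hdiff x k).trans ?_
    calc B / s * |x - k| ≤ B / s * ((δ + 3 * B) * s) := by gcongr
      _ = B * (δ + 3 * B) := by field_simp
  have e1 : x - k + s * G (k / r) =
      (x + s * G (x / r) - k) - (s * G (x / r) - s * G (k / r)) := by ring
  rw [e1]
  refine (abs_sub _ _).trans ?_
  linarith

/-- **The sums of gaps after a centre which follows the profile.** -/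
lemma sums_of_centre {g : ℝ → ℝ} (hg : Continuous g) {B : ℝ} (hB : ∀ x, |g x| ≤ B)
    {δ : ℝ} (hδ : 0 < δ) {r : ℕ} (hr : 1 ≤ r)
    (h1 : (2 * B + δ) * √(r:ℝ) + 1 ≤ r) (h2 : 4 * B + 2 * (B * (δ + 3 * B)) ≤ δ * √(r:ℝ))
    {T t : ℝ} (hT : BigT T) (hL1 : 6 * r / Real.log T ≤ δ * √(r:ℝ))
    (hL2 : 4 * Real.pi * r / Real.log T ≤ 1) (ht1 : T ≤ t) (ht2 : t ≤ 2 * T)
    (hP : t ∈ Pf g r δ T) :
    t < ordinate (zeroCount t + 1) ∧
    ordinate (zeroCount t + 1) ≤ t + 4 * Real.pi * r / Real.log T ∧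
    zeroCount t + 1 ≤ zeroCount (t + 4 * Real.pi * r / Real.log T) ∧
    ∀ k : ℕ, k ≤ r →
      |∑ j ∈ Finset.range k, gap (zeroCount t + 1 + j) - k +
        √(r:ℝ) * ∫ y in (0:ℝ)..(k / r), g y| ≤ 8 * δ * √(r:ℝ) := by
  have hpi := Real.pi_pos
  have hB0 : 0 ≤ B := (abs_nonneg _).trans (hB 0)
  obtain ⟨hT4, hL10, hcnt⟩ := hT
  have hT0 : 0 < T := by linarith
  set L := Real.log T with hL
  have hL0 : 0 < L := by linarith
  have hr1 : (1:ℝ) ≤ r := by exact_mod_cast hr
  have hr0 : (0:ℝ) < r := by linarith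
  set s := √(r:ℝ) with hs
  have hs1 : 1 ≤ s := by rw [hs]; exact Real.one_le_sqrt.mpr hr1
  have hs0 : 0 < s := by linarith
  have hss : s * s = r := Real.mul_self_sqrt hr0.le
  set n0 := zeroCount t with hn0
  have hP' : ∀ x ∈ Set.Icc (0:ℝ) (2 * r),
    |(zeroCount (t + 2 * Real.pi * x / L) : ℝ) - n0 - x -
      s * ∫ y in (0:ℝ)..(x / r), g y| ≤ δ * s := hP
  set G : ℝ → ℝ := fun x => ∫ u in (0:ℝ)..x, g u with hGdef
  have hGl : ∀ x y, |G x - G y| ≤ B * |x - y| := fun x y => prim_lip hg hB x y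
  have hG0 : G 0 = 0 := by simp [hGdef]
  -- all of the first `r + 1` zeros are near
  have hfar : n0 + (r + 1) ≤ zeroCount (t + 4 * Real.pi * r / L) := by
    have e1 := (abs_le.mp (hP' (2 * r) ⟨by positivity, le_rfl⟩)).1
    have e2 : 2 * Real.pi * (2 * (r:ℝ)) / L = 4 * Real.pi * r / L := by ring
    rw [e2] at e1
    have e3 := (abs_le.mp (hGl (2 * r / r) 0)).1
    rw [hG0, sub_zero, sub_zero, mul_div_assoc, div_self hr0.ne', mul_one,
      abs_of_pos (by norm_num : (0:ℝ) < 2)] at e3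
    have e4 : (2 * (r:ℝ) / r) = 2 := by field_simp
    rw [e4] at e1
    have e5 : -(2 * B * s) ≤ s * G 2 := by
      have := mul_le_mul_of_nonneg_left e3 hs0.le
      linarith
    have e6 : ((n0 + (r + 1) : ℕ) : ℝ) ≤ zeroCount (t + 4 * Real.pi * r / L) := by
      push_cast
      have e7 : s * G 2 = s * ∫ y in (0:ℝ)..2, g y := rfl
      rw [← e7] at e1
      linarith
    exact_mod_cast e6
  have hgt : ∀ k : ℕ, 1 ≤ k → t < ordinate (n0 + k) := by
    intro k hk
    by_contra hcon
    push Not at hcon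
    have := (le_zeroCount_iff (zeroCount_unbounded (n0 + k)) (by omega)).mpr hcon
    omega
  have hnear : ∀ k : ℕ, 1 ≤ k → k ≤ r + 1 → ordinate (n0 + k) ≤ t + 4 * Real.pi * r / L := by
    intro k hk hk2
    exact (le_zeroCount_iff (zeroCount_unbounded (n0 + k)) (by omega)).mp (by omega)
  set X : ℕ → ℝ := fun k => (ordinate (n0 + k) - t) * L / (2 * Real.pi) with hX
  have hXo : ∀ k, ordinate (n0 + k) = t + 2 * Real.pi * X k / L := by
    intro k
    simp only [hX]
    field_simp
    ring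
  have hX0 : ∀ k, 1 ≤ k → 0 < X k := by
    intro k hk
    have := hgt k hk
    have h3 : 0 < ordinate (n0 + k) - t := by linarith
    simp only [hX]
    positivity
  have hX2 : ∀ k, 1 ≤ k → k ≤ r + 1 → X k ≤ 2 * r := by
    intro k hk hk2
    have h3 := hnear k hk hk2
    simp only [hX]
    rw [div_le_iff₀ (by positivity)]
    calc (ordinate (n0 + k) - t) * L ≤ (4 * Real.pi * r / L) * L := by
          apply mul_le_mul_of_nonneg_right (by linarith) hL0.le
      _ = 2 * r * (2 * Real.pi) := by field_simp; ring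
  have hclose : ∀ k : ℕ, 1 ≤ k → k ≤ r + 1 →
      |X k - k + s * G (k / r)| ≤ δ * s + B + B * (δ + 3 * B) := by
    intro k hk hk2
    refine seq_close hB0 hGl hG0 hr1 hδ (hX0 k hk) (hX2 k hk hk2) ?_ ?_
    · have e1 := (abs_le.mp (hP' (X k) ⟨(hX0 k hk).le, hX2 k hk hk2⟩)).2
      rw [← hXo k] at e1
      have e2 : n0 + k ≤ zeroCount (ordinate (n0 + k)) :=
        (le_zeroCount_iff (zeroCount_unbounded (n0 + k)) (by omega)).mpr le_rfl
      have e3 : (n0:ℝ) + k ≤ zeroCount (ordinate (n0 + k)) := by exact_mod_cast e2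
      have e4 : s * G (X k / r) = s * ∫ y in (0:ℝ)..(X k / r), g y := rfl
      rw [← e4] at e1
      linarith
    · intro x' hx0' hx'
      have e1 := (abs_le.mp (hP' x' ⟨hx0', hx'.le.trans (hX2 k hk hk2)⟩)).1
      have e2 : zeroCount (t + 2 * Real.pi * x' / L) < n0 + k := by
        by_contra hcon
        push Not at hcon
        have h3 := (le_zeroCount_iff (zeroCount_unbounded (n0 + k)) (by omega)).mp hcon
        rw [hXo k] at h3
        have h4 : 2 * Real.pi * x' / L < 2 * Real.pi * X k / L := by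
          apply div_lt_div_of_pos_right _ hL0
          apply mul_lt_mul_of_pos_left hx' (by positivity)
        linarith
      have e3 : (zeroCount (t + 2 * Real.pi * x' / L) : ℝ) + 1 ≤ n0 + k := by exact_mod_cast e2
      have e4 : s * G (x' / r) = s * ∫ y in (0:ℝ)..(x' / r), g y := rfl
      rw [← e4] at e1
      linarith
  refine ⟨hgt 1 le_rfl, hnear 1 le_rfl (by omega), by omega, fun k hk => ?_⟩
  -- the differences
  have hd1 : ∀ u v : ℝ, |u - v| ≤ 1 → |s * G (u / r) - s * G (v / r)| ≤ B := by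
    intro u v huv
    have e1 : s * G (u / r) - s * G (v / r) = s * (G (u / r) - G (v / r)) := by ring
    rw [e1, abs_mul, abs_of_pos hs0]
    have e2 : |u / r - v / r| ≤ 1 / r := by
      rw [← sub_div, abs_div, abs_of_pos hr0]
      gcongr
    calc s * |G (u / r) - G (v / r)| ≤ s * (B * |u / r - v / r|) := by
          gcongr
          exact hGl _ _
      _ ≤ s * (B * (1 / r)) := by gcongr
      _ = B / s := by rw [← hss]; field_simp
      _ ≤ B := div_le_self hB0 hs1
  have hD : |X (k + 1) - X 1 - (k - s * G (k / r))| ≤ 3 * (δ * s) := by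
    have c1 := abs_le.mp (hclose (k + 1) (by omega) (by omega))
    have c2 := abs_le.mp (hclose 1 le_rfl (by omega))
    have c3 := abs_le.mp (hd1 ((k + 1 : ℕ) : ℝ) k (by push_cast; simp))
    have c4 := abs_le.mp (hd1 ((1 : ℕ) : ℝ) 0 (by simp))
    rw [zero_div, hG0, mul_zero, sub_zero] at c4
    have e1 : ((k + 1 : ℕ) : ℝ) = k + 1 := by push_cast; ring
    have e2 : ((1 : ℕ) : ℝ) = 1 := by norm_num
    rw [abs_le]
    constructor <;> linarith [c1.1, c1.2, c2.1, c2.2, c3.1, c3.2, c4.1, c4.2]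
  -- from positions to sums of gaps
  have hn1 : 1 ≤ n0 + 1 := by omega
  have s1 := Pool.Agent.RG.sum_gap_ge hn1 k
  have s2 := Pool.Agent.RG.sum_gap_le hn1 k
  rw [show n0 + 1 + k = n0 + (k + 1) by ring] at s1 s2
  set S := ∑ j ∈ Finset.range k, gap (n0 + 1 + j) with hS
  have hordm : ordinate (n0 + 1) ≤ ordinate (n0 + (k + 1)) :=
    ordinate_mono (zeroCount_unbounded _) hn1 (by omega)
  have hdiff : ordinate (n0 + (k + 1)) - ordinate (n0 + 1) =
      2 * Real.pi * (X (k + 1) - X 1) / L := by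
    rw [hXo (k + 1), hXo 1]
    ring
  have hXm : 0 ≤ X (k + 1) - X 1 := by
    have e1 : 0 ≤ 2 * Real.pi * (X (k + 1) - X 1) / L := by rw [← hdiff]; linarith
    have e2 : 2 * Real.pi * (X (k + 1) - X 1) / L = (2 * Real.pi / L) * (X (k + 1) - X 1) := by
      ring
    rw [e2] at e1
    exact nonneg_of_mul_nonneg_right e1 (by positivity)
  have hXle : X (k + 1) - X 1 ≤ 2 * r := by
    linarith [hX2 (k + 1) (by omega) (by omega), hX0 1 le_rfl]
  have hlow : X (k + 1) - X 1 ≤ S := by
    have e1 : L ≤ Real.log (ordinate (n0 + 1)) :=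
      Real.log_le_log hT0 (ht1.trans (hgt 1 le_rfl).le)
    have e2 : 2 * Real.pi * (X (k + 1) - X 1) ≤ 2 * Real.pi * S := by
      refine le_trans ?_ s1
      calc 2 * Real.pi * (X (k + 1) - X 1) = (ordinate (n0 + (k + 1)) - ordinate (n0 + 1)) * L := by
            rw [hdiff]; field_simp
        _ ≤ _ := by
            apply mul_le_mul_of_nonneg_left e1
            linarith
    exact le_of_mul_le_mul_left e2 (by positivity)
  have hup : S ≤ X (k + 1) - X 1 + δ * s := by
    have hpos := ordinate_pos (zeroCount_unbounded (n0 + (k + 1))) (show 1 ≤ n0 + (k + 1) by omega)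
    have e1 : Real.log (ordinate (n0 + (k + 1))) ≤ L + 2 := by
      have h7 : ordinate (n0 + (k + 1)) ≤ 4 * T := by
        have := hnear (k + 1) (by omega) (by omega)
        linarith
      have h8 := Real.log_le_log hpos h7
      rw [Real.log_mul (by norm_num) hT0.ne'] at h8
      have hl4 : Real.log 4 ≤ 2 := by
        have e4 : Real.log 4 = 2 * Real.log 2 := by
          rw [show (4:ℝ) = 2 ^ 2 by norm_num, Real.log_pow]; norm_num
        have := Real.log_two_lt_d9
        linarith
      linarith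
    have e2 : 2 * Real.pi * S ≤ 2 * Real.pi * (X (k + 1) - X 1 + δ * s) := by
      refine s2.trans ?_
      calc (ordinate (n0 + (k + 1)) - ordinate (n0 + 1)) *
            (Real.log (ordinate (n0 + (k + 1))) + 1)
          ≤ (ordinate (n0 + (k + 1)) - ordinate (n0 + 1)) * (L + 3) := by
            apply mul_le_mul_of_nonneg_left _ (by linarith)
            linarith
        _ = 2 * Real.pi * ((X (k + 1) - X 1) + 3 * (X (k + 1) - X 1) / L) := by
            rw [hdiff]; field_simp
        _ ≤ 2 * Real.pi * (X (k + 1) - X 1 + δ * s) := by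
            have e5 : 3 * (X (k + 1) - X 1) / L ≤ 6 * r / L := by
              apply div_le_div_of_nonneg_right _ hL0.le
              linarith
            have e6 : 3 * (X (k + 1) - X 1) / L ≤ δ * s := e5.trans hL1
            gcongr
    exact le_of_mul_le_mul_left e2 (by positivity)
  have hD' := abs_le.mp hD
  have hGk : s * G (k / r) = s * ∫ y in (0:ℝ)..((k:ℝ) / r), g y := rfl
  rw [← hGk]
  have hδs : 0 < δ * s := by positivity
  rw [abs_le]
  constructor <;> linarith [hD'.1, hD'.2]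

/-- **Module I.** From the measure of the centres which follow the profile to a positive
proportion of the indices in every block. -/
theorem index_of_volume (hRH : RiemannHypothesis) {g : ℝ → ℝ} (hg : Continuous g) {B : ℝ}
    (hB : ∀ x, |g x| ≤ B) (hg0 : ∀ x, x ≤ 0 → g x = 0) (hg1 : ∀ x, 1 ≤ x → g x = 0)
    {a' a δ : ℝ} (ha' : 0 < a') (ha : a' < a) (ha1 : a ≤ 1) (hδ : 0 < δ) :
    ∃ r1 : ℕ, ∀ r : ℕ, r1 ≤ r → ∀ c0 T0 : ℝ, 0 < c0 →
      (∀ T, T0 ≤ T → ∀ y H, T ≤ y → y + H ≤ 2 * T → T ^ a' ≤ H →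
        c0 * H ≤ volume.real (Set.Icc y (y + H) ∩ Pf g r δ T)) →
      ∃ κ : ℝ, 0 < κ ∧ ∃ N0 : ℕ, ∀ N M : ℕ, N0 ≤ N → (N : ℝ) ^ a ≤ M →
        κ * M ≤ ((({n ∈ Finset.Ioc N (N + M) | ∀ k : ℕ, k ≤ r →
          |∑ j ∈ Finset.range k, gap (n + j) - k + Real.sqrt r * ∫ y in (0:ℝ)..(k / r), g y| ≤
            8 * δ * Real.sqrt r} : Finset ℕ).card : ℕ) : ℝ) := by
  have hpi := Real.pi_pos
  have hB0 : 0 ≤ B := (abs_nonneg _).trans (hB 0)
  -- the threshold for `r`
  have hsq : Tendsto (fun r : ℕ => √(r:ℝ)) atTop atTop :=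
    Real.tendsto_sqrt_atTop.comp tendsto_natCast_atTop_atTop
  have hev : ∀ᶠ r : ℕ in atTop, (1 ≤ r ∧ 2 * B + δ + 1 ≤ √(r:ℝ)) ∧
      (4 * B + 2 * (B * (δ + 3 * B))) / δ ≤ √(r:ℝ) :=
    ((eventually_ge_atTop 1).and (hsq.eventually_ge_atTop _)).and (hsq.eventually_ge_atTop _)
  obtain ⟨r1, hr1⟩ := eventually_atTop.mp hev
  refine ⟨r1, fun r hr c0 T0 hc0 hvol => ?_⟩
  obtain ⟨⟨hr1', hA⟩, hB'⟩ := hr1 r hr
  have hr1R : (1:ℝ) ≤ r := by exact_mod_cast hr1'
  have hr0 : (0:ℝ) < r := by linarith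
  have hs1 : 1 ≤ √(r:ℝ) := Real.one_le_sqrt.mpr hr1R
  have hs0 : 0 < √(r:ℝ) := by linarith
  have hss : √(r:ℝ) * √(r:ℝ) = r := Real.mul_self_sqrt hr0.le
  have h1 : (2 * B + δ) * √(r:ℝ) + 1 ≤ r := by nlinarith
  have h2 : 4 * B + 2 * (B * (δ + 3 * B)) ≤ δ * √(r:ℝ) := by
    rw [div_le_iff₀ hδ] at hB'
    linarith
  -- the threshold for the height
  obtain ⟨T1, hT1⟩ := exists_bigT hRH
  have hevT : ∀ᶠ T : ℝ in atTop, 6 * r / (δ * √(r:ℝ)) ≤ Real.log T ∧
      4 * Real.pi * r ≤ Real.log T :=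
    (Real.tendsto_log_atTop.eventually_ge_atTop _).and
      (Real.tendsto_log_atTop.eventually_ge_atTop _)
  obtain ⟨T2, hT2⟩ := eventually_atTop.mp hevT
  have hκ : 0 < c0 / (4 * Real.pi * r) := by positivity
  obtain ⟨N0, hN0⟩ := Pool.Agent.ZShort.index_of_window_pred
    (P := fun n => ∀ k : ℕ, k ≤ r →
      |∑ j ∈ Finset.range k, gap (n + j) - k + Real.sqrt r * ∫ y in (0:ℝ)..(k / r), g y| ≤
        8 * δ * Real.sqrt r) ha' ha ha1 hκ
    (T1 := max T0 (max T1 T2))
    (fun T hT y H hy hyH hH => by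
      have hT0' : T0 ≤ T := (le_max_left _ _).trans hT
      have hbig := hT1 T ((le_max_left _ _).trans ((le_max_right _ _).trans hT))
      obtain ⟨hlog1, hlog2⟩ := hT2 T ((le_max_right _ _).trans ((le_max_right _ _).trans hT))
      have hL0 : 0 < Real.log T := by linarith [hbig.log]
      have hL1 : 6 * r / Real.log T ≤ δ * √(r:ℝ) := by
        rw [div_le_iff₀ hL0]
        rw [div_le_iff₀ (by positivity)] at hlog1
        linarith
      have hL2 : 4 * Real.pi * r / Real.log T ≤ 1 := by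
        rw [div_le_one hL0]
        exact hlog2
      set w := 4 * Real.pi * r / Real.log T with hw
      have hw0 : 0 < w := by positivity
      have hV := hvol T hT0' y H hy hyH hH
      set A := {n ∈ Finset.Icc (zeroCount (y - 1)) (zeroCount (y + H + 1)) | ∀ k : ℕ, k ≤ r →
        |∑ j ∈ Finset.range k, gap (n + j) - k + Real.sqrt r * ∫ y in (0:ℝ)..(k / r), g y| ≤
          8 * δ * Real.sqrt r} with hA
      have hcov : Set.Icc y (y + H) ∩ Pf g r δ T ⊆
          ⋃ n ∈ A, Set.Icc (ordinate n - w) (ordinate n) := by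
        rintro t ⟨⟨ht1, ht2⟩, htP⟩
        obtain ⟨c1, c2, c3, c4⟩ := sums_of_centre hg hB hδ hr1' h1 h2 hbig hL1 hL2
          (hy.trans ht1) (ht2.trans hyH) htP
        simp only [Set.mem_iUnion, Set.mem_Icc, exists_prop]
        refine ⟨zeroCount t + 1, ?_, by linarith, c1.le⟩
        rw [hA, Finset.mem_filter, Finset.mem_Icc]
        have d1 : zeroCount (y - 1) ≤ zeroCount t := zeroCount_mono (by linarith)
        have d2 : zeroCount (t + w) ≤ zeroCount (y + H + 1) := zeroCount_mono (by linarith)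
        exact ⟨⟨by omega, c3.trans d2⟩, c4⟩
      have hmeas : c0 * H ≤ A.card * w := by
        refine hV.trans ?_
        have hfin : volume (⋃ n ∈ A, Set.Icc (ordinate n - w) (ordinate n)) ≠ ⊤ := by
          refine ne_top_of_le_ne_top ?_ (measure_biUnion_finset_le A _)
          refine ENNReal.sum_ne_top.mpr fun n _ => ?_
          rw [Real.volume_Icc]; exact ENNReal.ofReal_ne_top
        refine (measureReal_mono hcov hfin).trans ?_
        refine (measureReal_biUnion_finset_le A _).trans ?_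
        rw [← nsmul_eq_mul, ← Finset.sum_const]
        refine Finset.sum_le_sum fun n hn => ?_
        rw [Real.volume_real_Icc, max_eq_left (by linarith)]
        linarith
      have h3 : c0 * (H * Real.log T) ≤ A.card * (4 * Real.pi * r) := by
        have hwL : w * Real.log T = 4 * Real.pi * r := div_mul_cancel₀ _ hL0.ne'
        calc c0 * (H * Real.log T) = (c0 * H) * Real.log T := by ring
          _ ≤ (A.card * w) * Real.log T := mul_le_mul_of_nonneg_right hmeas hL0.le
          _ = A.card * (w * Real.log T) := by ring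
          _ = _ := by rw [hwL]
      rw [div_mul_eq_mul_div, div_le_iff₀ (by positivity)]
      exact h3)
  exact ⟨c0 / (4 * Real.pi * r) / 12, by positivity, N0, hN0⟩

end Pool.Agent.PF
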