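import Mathlib

/-!
# Densities in `L²` by continuous densities supported in `[0, 1]`
-/

namespace Pool.Agent.PF

open MeasureTheory Real Set

namespace L2G

/-- A cutoff: `0` outside `(0, 1)`, `1` on `[d, 1 - d]`. -/
noncomputable def chi (d x : ℝ) : ℝ := max 0 (min 1 (min (x / d) ((1 - x) / d)))

lemma chi_continuous (d : ℝ) : Continuous (chi d) := by
  unfold chi; fun_prop

lemma chi_nonneg (d x : ℝ) : 0 ≤ chi d x := le_max_left _ _

lemma chi_le_one (d x : ℝ) : chi d x ≤ 1 := max_le zero_le_one (min_le_left _ _)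

lemma chi_zero {d x : ℝ} (hd : 0 < d) (hx : x ≤ 0) : chi d x = 0 := by
  unfold chi
  apply max_eq_left
  refine (min_le_right _ _).trans ((min_le_left _ _).trans ?_)
  exact div_nonpos_of_nonpos_of_nonneg hx hd.le

lemma chi_zero' {d x : ℝ} (hd : 0 < d) (hx : 1 ≤ x) : chi d x = 0 := by
  unfold chi
  apply max_eq_left
  refine (min_le_right _ _).trans ((min_le_right _ _).trans ?_)
  exact div_nonpos_of_nonpos_of_nonneg (by linarith) hd.le

lemma chi_one {d x : ℝ} (hd : 0 < d) (h1 : d ≤ x) (h2 : x ≤ 1 - d) : chi d x = 1 := by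
  unfold chi
  have e1 : 1 ≤ x / d := by rw [le_div_iff₀ hd]; linarith
  have e2 : 1 ≤ (1 - x) / d := by rw [le_div_iff₀ hd]; linarith
  rw [min_eq_left (le_min e1 e2), max_eq_right zero_le_one]

/-- `∫ |u| ≤ s` if `∫ u² ≤ s²`. -/
lemma int_abs_le {u : ℝ → ℝ} {s : ℝ} (hs : 0 < s) (h1 : IntervalIntegrable u volume 0 1)
    (h2 : IntervalIntegrable (fun x => u x ^ 2) volume 0 1)
    (h : ∫ x in (0:ℝ)..1, u x ^ 2 ≤ s ^ 2) : ∫ x in (0:ℝ)..1, |u x| ≤ s := by
  have h3 : ∫ x in (0:ℝ)..1, |u x| ≤ ∫ x in (0:ℝ)..1, (1 / (2 * s) * u x ^ 2 + s / 2) := by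
    apply intervalIntegral.integral_mono_on (by norm_num) h1.abs
      ((h2.const_mul _).add intervalIntegrable_const)
    intro x _
    have h4 : 0 ≤ (|u x| - s) ^ 2 / (2 * s) := by positivity
    have h5 : (|u x| - s) ^ 2 / (2 * s) = 1 / (2 * s) * u x ^ 2 + s / 2 - |u x| := by
      rw [← sq_abs (u x)]
      field_simp
      ring
    linarith
  rw [intervalIntegral.integral_add (h2.const_mul _) intervalIntegrable_const,
    intervalIntegral.integral_const_mul, intervalIntegral.integral_const] at h3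
  refine h3.trans ?_
  have h6 : 1 / (2 * s) * (∫ x in (0:ℝ)..1, u x ^ 2) ≤ 1 / (2 * s) * s ^ 2 :=
    mul_le_mul_of_nonneg_left h (by positivity)
  have h7 : 1 / (2 * s) * s ^ 2 = s / 2 := by field_simp
  rw [h7] at h6
  simp only [sub_zero, one_smul]
  linarith

/-- The integral over an initial segment is at most the integral of the absolute value. -/
lemma abs_int_le {u : ℝ → ℝ} (h1 : IntervalIntegrable u volume 0 1) {x : ℝ}
    (hx : x ∈ Icc (0:ℝ) 1) : |∫ y in (0:ℝ)..x, u y| ≤ ∫ y in (0:ℝ)..1, |u y| := by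
  refine (intervalIntegral.abs_integral_le_integral_abs hx.1).trans ?_
  have h2 : IntervalIntegrable (fun y => |u y|) volume 0 x :=
    h1.abs.mono_set (by
      rw [uIcc_of_le hx.1, uIcc_of_le zero_le_one]
      exact Icc_subset_Icc_right hx.2)
  have h3 : IntervalIntegrable (fun y => |u y|) volume x 1 :=
    h1.abs.mono_set (by
      rw [uIcc_of_le hx.2, uIcc_of_le zero_le_one]
      exact Icc_subset_Icc_left hx.1)
  rw [← intervalIntegral.integral_add_adjacent_intervals h2 h3]
  have h4 : 0 ≤ ∫ y in x..1, |u y| := intervalIntegral.integral_nonneg hx.2 fun _ _ => abs_nonneg _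
  linarith

end L2G

open L2G

/-- **Approximation of a density in `L²`** by the negative of a continuous density supported in
`[0, 1]`, of strictly smaller energy. -/
theorem exists_g2 {f : ℝ → ℝ} (hf : MemLp f 2 (volume.restrict (Icc (0:ℝ) 1))) {E : ℝ}
    (hE : 0 < E) (hfE : ∫ x in (0:ℝ)..1, f x ^ 2 ≤ E) {ε : ℝ} (hε : 0 < ε) :
    ∃ g : ℝ → ℝ, Continuous g ∧ (∀ x, x ≤ 0 → g x = 0) ∧ (∀ x, 1 ≤ x → g x = 0) ∧
      ∫ x in (0:ℝ)..1, g x ^ 2 < E ∧
      ∀ x ∈ Icc (0:ℝ) 1, |(∫ y in (0:ℝ)..x, f y) + ∫ y in (0:ℝ)..x, g y| ≤ ε := by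
  have hff : IntervalIntegrable f volume 0 1 := by
    rw [intervalIntegrable_iff_integrableOn_Icc_of_le zero_le_one]
    exact hf.integrable (by norm_num)
  have hf2 : IntervalIntegrable (fun x => f x ^ 2) volume 0 1 := by
    rw [intervalIntegrable_iff_integrableOn_Icc_of_le zero_le_one]
    exact hf.integrable_sq
  set s : ℝ := √E with hs
  have hs0 : 0 < s := Real.sqrt_pos.mpr hE
  have hss : s ^ 2 = E := Real.sq_sqrt hE.le
  -- the parameters
  set η : ℝ := min (1 / 2) (ε / (4 * s)) with hη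
  have hη0 : 0 < η := lt_min (by norm_num) (by positivity)
  have hη1 : η ≤ 1 / 2 := min_le_left _ _
  have hηs : η * s ≤ ε / 4 := by
    calc η * s ≤ ε / (4 * s) * s := mul_le_mul_of_nonneg_right (min_le_right _ _) hs0.le
      _ = ε / 4 := by field_simp
  set δ : ℝ := min (ε / 4) (√(η ^ 2 * E / 8)) with hδ
  have hδ0 : 0 < δ := lt_min (by positivity) (Real.sqrt_pos.mpr (by positivity))
  have hδε : δ ≤ ε / 4 := min_le_left _ _
  have hδ2 : δ ^ 2 ≤ η ^ 2 * E / 8 := by
    calc δ ^ 2 ≤ √(η ^ 2 * E / 8) ^ 2 := pow_le_pow_left₀ hδ0.le (min_le_right _ _) 2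
      _ = _ := Real.sq_sqrt (by positivity)
  set f2 : ℝ → ℝ := fun x => -((1 - η) * f x) with hf2d
  have hf2m : MemLp f2 2 (volume.restrict (Icc (0:ℝ) 1)) := (hf.const_mul (1 - η)).neg
  have hf2m' : MemLp f2 (ENNReal.ofReal 2) (volume.restrict (Icc (0:ℝ) 1)) := by
    rw [show ENNReal.ofReal 2 = 2 by simp]
    exact hf2m
  obtain ⟨g1, -, hg1, hg1c, -⟩ := hf2m'.exists_hasCompactSupport_integral_rpow_sub_le
    (by norm_num : (0:ℝ) < 2) (ε := δ ^ 2) (by positivity)
  -- a bound for `g1` on `[0, 1]`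
  obtain ⟨B0, hB0⟩ := isCompact_Icc.exists_bound_of_continuousOn (hg1c.continuousOn (s := Icc (0:ℝ) 1))
  set B := |B0| + 1 with hB
  have hBp : 0 < B := by positivity
  have hgB : ∀ x ∈ Icc (0:ℝ) 1, |g1 x| ≤ B := fun x hx => by
    have := hB0 x hx
    rw [Real.norm_eq_abs] at this
    linarith [le_abs_self B0]
  set d : ℝ := min (1 / 2) (ε / (8 * B)) with hd
  have hd0 : 0 < d := lt_min (by norm_num) (by positivity)
  have hd1 : d ≤ 1 / 2 := min_le_left _ _
  have hdB : 2 * d * B ≤ ε / 4 := by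
    calc 2 * d * B ≤ 2 * (ε / (8 * B)) * B := by
          gcongr
          exact min_le_right _ _
      _ = ε / 4 := by field_simp; norm_num
  have hg1i : IntervalIntegrable g1 volume 0 1 := hg1c.intervalIntegrable _ _
  -- the difference
  set u : ℝ → ℝ := fun x => g1 x - f2 x with hu
  have hf2i : IntervalIntegrable f2 volume 0 1 := (hff.const_mul (1 - η)).neg
  have hui : IntervalIntegrable u volume 0 1 := hg1i.sub hf2i
  have hu2 : IntervalIntegrable (fun x => u x ^ 2) volume 0 1 := by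
    have e1 : ∀ x, u x ^ 2 = g1 x ^ 2 + 2 * (1 - η) * (g1 x * f x) + (1 - η) ^ 2 * f x ^ 2 := by
      intro x; simp only [hu, hf2d]; ring
    simp_rw [e1]
    refine ((hg1c.pow 2).intervalIntegrable _ _ |>.add ?_).add (hf2.const_mul _)
    exact (hff.continuousOn_mul hg1c.continuousOn).const_mul _
  have hu2le : ∫ x in (0:ℝ)..1, u x ^ 2 ≤ δ ^ 2 := by
    rw [intervalIntegral.integral_of_le zero_le_one, ← integral_Icc_eq_integral_Ioc]
    refine le_trans (le_of_eq ?_) hg1
    refine integral_congr_ae (Filter.Eventually.of_forall fun x => ?_)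
    simp only [hu]
    rw [Real.norm_eq_abs, abs_sub_comm, Real.rpow_two, sq_abs]
  have hua : ∫ x in (0:ℝ)..1, |u x| ≤ δ := int_abs_le hδ0 hui hu2 hu2le
  have hfa : ∫ x in (0:ℝ)..1, |f x| ≤ s := int_abs_le hs0 hff hf2 (by rw [hss]; exact hfE)
  set g : ℝ → ℝ := fun x => chi d x * g1 x with hg
  have hgc : Continuous g := (chi_continuous d).mul hg1c
  refine ⟨g, hgc, fun x hx => ?_, fun x hx => ?_, ?_, ?_⟩
  · simp only [hg]; rw [chi_zero hd0 hx, zero_mul]
  · simp only [hg]; rw [chi_zero' hd0 hx, zero_mul]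
  · -- the energy
    have e1 : ∫ x in (0:ℝ)..1, g x ^ 2 ≤ ∫ x in (0:ℝ)..1,
        ((1 + η) * ((1 - η) ^ 2 * f x ^ 2) + (1 + 1 / η) * u x ^ 2) := by
      apply intervalIntegral.integral_mono_on zero_le_one ((hgc.pow 2).intervalIntegrable _ _)
        (((hf2.const_mul _).const_mul _).add (hu2.const_mul _))
      intro x _
      have h1 : g x ^ 2 ≤ g1 x ^ 2 := by
        simp only [hg]
        rw [mul_pow]
        exact mul_le_of_le_one_left (sq_nonneg _)
          (pow_le_one₀ (chi_nonneg d x) (chi_le_one d x))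
      have h2 : g1 x = u x + f2 x := by simp only [hu]; ring
      have h3 : (u x + f2 x) ^ 2 ≤ (1 + η) * f2 x ^ 2 + (1 + 1 / η) * u x ^ 2 := by
        have h4 : 0 ≤ (η * f2 x - u x) ^ 2 / η := by positivity
        have h5 : (η * f2 x - u x) ^ 2 / η = η * f2 x ^ 2 - 2 * (f2 x * u x) + 1 / η * u x ^ 2 := by
          field_simp
          ring
        nlinarith
      have h6 : f2 x ^ 2 = (1 - η) ^ 2 * f x ^ 2 := by simp only [hf2d]; ring
      rw [← h6]
      calc g x ^ 2 ≤ (u x + f2 x) ^ 2 := by rw [← h2]; exact h1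
        _ ≤ _ := h3
    rw [intervalIntegral.integral_add ((hf2.const_mul _).const_mul _) (hu2.const_mul _),
      intervalIntegral.integral_const_mul, intervalIntegral.integral_const_mul,
      intervalIntegral.integral_const_mul] at e1
    have e2 : (1 + η) * ((1 - η) ^ 2 * ∫ x in (0:ℝ)..1, f x ^ 2) ≤ (1 + η) * ((1 - η) ^ 2 * E) := by
      gcongr
    have e3 : (1 + 1 / η) * (∫ x in (0:ℝ)..1, u x ^ 2) ≤ (1 + 1 / η) * (η ^ 2 * E / 8) :=
      mul_le_mul_of_nonneg_left (hu2le.trans hδ2) (by positivity)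
    have e4 : (1 + 1 / η) * (η ^ 2 * E / 8) = (η ^ 2 + η) * E / 8 := by
      field_simp
    have e5 : (1 + η) * ((1 - η) ^ 2 * E) + (η ^ 2 + η) * E / 8 < E := by
      have h7 : (1 + η) * (1 - η) ^ 2 + (η ^ 2 + η) / 8 < 1 := by nlinarith [sq_nonneg η]
      have h8 := mul_lt_mul_of_pos_right h7 hE
      linarith
    linarith
  · -- the primitives
    intro x hx
    have hgi : IntervalIntegrable g volume 0 1 := hgc.intervalIntegrable _ _
    have hsub : ∀ {v : ℝ → ℝ}, IntervalIntegrable v volume 0 1 → IntervalIntegrable v volume 0 x :=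
      fun h => h.mono_set (by
        rw [uIcc_of_le hx.1, uIcc_of_le zero_le_one]
        exact Icc_subset_Icc_right hx.2)
    have hwi : IntervalIntegrable (fun y => g y - g1 y) volume 0 1 := hgi.sub hg1i
    have e1 : (∫ y in (0:ℝ)..x, f y) + ∫ y in (0:ℝ)..x, g y =
        η * (∫ y in (0:ℝ)..x, f y) + (∫ y in (0:ℝ)..x, u y) + ∫ y in (0:ℝ)..x, (g y - g1 y) := by
      rw [intervalIntegral.integral_sub (hsub hgi) (hsub hg1i)]
      simp only [hu]
      rw [intervalIntegral.integral_sub (hsub hg1i) (hsub hf2i)]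
      simp only [hf2d]
      rw [intervalIntegral.integral_neg, intervalIntegral.integral_const_mul]
      ring
    have b1 := (abs_int_le hff hx).trans hfa
    have b2 := (abs_int_le hui hx).trans hua
    have b3 := abs_int_le hwi hx
    have b4 : ∫ y in (0:ℝ)..1, |g y - g1 y| ≤ 2 * d * B := by
      have i0 : IntervalIntegrable (fun y => |g y - g1 y|) volume 0 1 := hwi.abs
      have hm1 : IntervalIntegrable (fun y => |g y - g1 y|) volume 0 d :=
        i0.mono_set (by
          rw [uIcc_of_le hd0.le, uIcc_of_le zero_le_one]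
          exact Icc_subset_Icc_right (by linarith))
      have hm2 : IntervalIntegrable (fun y => |g y - g1 y|) volume d (1 - d) :=
        i0.mono_set (by
          rw [uIcc_of_le (by linarith), uIcc_of_le zero_le_one]
          exact Icc_subset_Icc hd0.le (by linarith))
      have hm3 : IntervalIntegrable (fun y => |g y - g1 y|) volume (1 - d) 1 :=
        i0.mono_set (by
          rw [uIcc_of_le (by linarith), uIcc_of_le zero_le_one]
          exact Icc_subset_Icc_left (by linarith))
      rw [← intervalIntegral.integral_add_adjacent_intervals (hm1.trans hm2) hm3,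
        ← intervalIntegral.integral_add_adjacent_intervals hm1 hm2]
      have hpt : ∀ y ∈ Icc (0:ℝ) 1, |g y - g1 y| ≤ B := by
        intro y hy
        have h1 : g y - g1 y = -((1 - chi d y) * g1 y) := by simp only [hg]; ring
        rw [h1, abs_neg, abs_mul, abs_of_nonneg (by linarith [chi_le_one d y])]
        calc (1 - chi d y) * |g1 y| ≤ 1 * |g1 y| := by
              apply mul_le_mul_of_nonneg_right _ (abs_nonneg _)
              linarith [chi_nonneg d y]
          _ ≤ B := by rw [one_mul]; exact hgB y hy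
      have k1 : ∫ y in (0:ℝ)..d, |g y - g1 y| ≤ d * B := by
        have := intervalIntegral.integral_mono_on hd0.le hm1
          (intervalIntegrable_const (c := B)) fun y hy =>
            hpt y ⟨hy.1, by linarith [hy.2]⟩
        rwa [intervalIntegral.integral_const, sub_zero, smul_eq_mul] at this
      have k3 : ∫ y in (1 - d)..1, |g y - g1 y| ≤ d * B := by
        have := intervalIntegral.integral_mono_on (by linarith) hm3
          (intervalIntegrable_const (c := B)) fun y hy =>
            hpt y ⟨by linarith [hy.1], hy.2⟩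
        rwa [intervalIntegral.integral_const, smul_eq_mul, sub_sub_cancel] at this
      have k2 : ∫ y in d..(1 - d), |g y - g1 y| = 0 := by
        rw [intervalIntegral.integral_congr (g := fun _ => (0:ℝ))]
        · simp
        · intro y hy
          rw [uIcc_of_le (by linarith)] at hy
          simp only [hg]
          rw [chi_one hd0 hy.1 hy.2, one_mul, sub_self, abs_zero]
      linarith
    rw [e1]
    have c1 : |η * ∫ y in (0:ℝ)..x, f y| ≤ ε / 4 := by
      rw [abs_mul, abs_of_pos hη0]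
      exact (mul_le_mul_of_nonneg_left b1 hη0.le).trans hηs
    calc |η * (∫ y in (0:ℝ)..x, f y) + (∫ y in (0:ℝ)..x, u y) + ∫ y in (0:ℝ)..x, (g y - g1 y)|
        ≤ |η * ∫ y in (0:ℝ)..x, f y| + |∫ y in (0:ℝ)..x, u y| +
          |∫ y in (0:ℝ)..x, (g y - g1 y)| := abs_add_three _ _ _
      _ ≤ ε / 4 + ε / 4 + ε / 4 := by
          refine add_le_add (add_le_add c1 (b2.trans hδε)) (b3.trans (b4.trans hdB))
      _ ≤ ε := by linarith

end Pool.Agent.PF
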