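import Pool.Agent.PF.Core2
import Pool.Agent.PF.Idx
import Pool.Agent.PF.LtwoG
import Pool.Agent.RG.EveryR

/-!
# Every profile of energy at most `4a` is followed in every short interval, under RH
-/

open scoped ContDiff

namespace Pool.Agent.PF

open MeasureTheory Real Set Pool.Agent.ZGap.Res Pool.Agent.ZetaGaps

/-- **Profiles, blocks of indices** (RH): for every `f ∈ L²(0, 1)` with `∫ f² ≤ 4a` there is an
exponent `a' < a` such that for all large `r` a positive proportion of the indices of every block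
`(N, N + M]`, `M ≥ N ^ a'`, is followed by `r` gaps whose partial sums stay within `ε √r` of
`k + √r ∫_0^{k/r} f`. -/
theorem profiles_index (hRH : RiemannHypothesis) {a ε : ℝ} (ha : 0 < a) (ha1 : a ≤ 1) (hε : 0 < ε)
    {f : ℝ → ℝ} (hf : MemLp f 2 (volume.restrict (Set.Icc (0:ℝ) 1)))
    (hE : ∫ x in (0:ℝ)..1, f x ^ 2 ≤ 4 * a) :
    ∃ a' : ℝ, 0 < a' ∧ a' < a ∧ ∃ r0 : ℕ, ∀ r : ℕ, r0 ≤ r → ∃ κ : ℝ, 0 < κ ∧
      ∃ N0 : ℕ, ∀ N M : ℕ, N0 ≤ N → (N : ℝ) ^ a' ≤ M →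
        κ * M ≤ ((({n ∈ Finset.Ioc N (N + M) | ∀ k : ℕ, k ≤ r →
          |∑ j ∈ Finset.range k, gap (n + j) - k - √r * ∫ y in (0:ℝ)..(k / r), f y| ≤
            ε * √r} : Finset ℕ).card : ℕ) : ℝ) := by
  obtain ⟨g, hgc, hg0, hg1, hgE, hgh⟩ := exists_g2 hf (E := 4 * a) (by positivity) hE (half_pos hε)
  have hI0 : 0 ≤ ∫ x in (0:ℝ)..1, g x ^ 2 :=
    intervalIntegral.integral_nonneg (by norm_num) fun x _ => sq_nonneg _
  set I := ∫ x in (0:ℝ)..1, g x ^ 2 with hI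
  set a1 : ℝ := (I / 4 + a) / 2 with ha1'
  set a2 : ℝ := (a1 + a) / 2 with ha2'
  have h1 : I < 4 * a1 := by rw [ha1']; linarith
  have h2 : a1 < a := by rw [ha1']; linarith
  have h3 : 0 < a1 := by rw [ha1']; linarith
  have h4 : a1 < a2 := by rw [ha2']; linarith
  have h5 : a2 < a := by rw [ha2']; linarith
  have hgs : HasCompactSupport g := HasCompactSupport.intro (K := Set.Icc 0 1) isCompact_Icc
    fun x hx => by
      rw [Set.mem_Icc, not_and_or, not_le, not_le] at hx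
      rcases hx with h | h
      · exact hg0 x h.le
      · exact hg1 x h.le
  obtain ⟨B, hB⟩ := hgs.exists_bound_of_continuous hgc
  have hB' : ∀ x, |g x| ≤ B := fun x => by simpa [Real.norm_eq_abs] using hB x
  obtain ⟨r0, hr0⟩ := profile_volume hRH hgc hg0 hg1 h3 (by linarith) h1 (δ := ε / 16)
    (by positivity)
  obtain ⟨r1, hr1⟩ := index_of_volume hRH hgc hB' hg0 hg1 h3 h4 (by linarith) (δ := ε / 16)
    (by positivity)
  refine ⟨a2, by linarith, h5, max 1 (max ⌈r0⌉₊ r1), fun r hr => ?_⟩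
  have hr1' : 1 ≤ r := (le_max_left _ _).trans hr
  have hrp : (0:ℝ) < r := by exact_mod_cast hr1'
  have hrr0 : r0 ≤ r := (Nat.le_ceil r0).trans
    (by exact_mod_cast (le_max_left _ _).trans ((le_max_right _ _).trans hr))
  obtain ⟨c0, T0, hc0, hvol⟩ := hr0 r hrr0
  obtain ⟨κ, hκ, N0, hN⟩ := hr1 r ((le_max_right _ _).trans ((le_max_right _ _).trans hr)) c0 T0
    hc0 hvol
  refine ⟨κ, hκ, N0, fun N M hN0 hM => (hN N M hN0 hM).trans ?_⟩
  have hsub : ({n ∈ Finset.Ioc N (N + M) | ∀ k : ℕ, k ≤ r →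
      |∑ j ∈ Finset.range k, gap (n + j) - k + √r * ∫ y in (0:ℝ)..(k / r), g y| ≤
        8 * (ε / 16) * √r} : Finset ℕ) ⊆
      {n ∈ Finset.Ioc N (N + M) | ∀ k : ℕ, k ≤ r →
          |∑ j ∈ Finset.range k, gap (n + j) - k - √r * ∫ y in (0:ℝ)..(k / r), f y| ≤
            ε * √r} := by
    intro n hn
    rw [Finset.mem_filter] at hn ⊢
    refine ⟨hn.1, fun k hk => ?_⟩
    have e1 := hn.2 k hk
    have hkr : (k:ℝ) / r ∈ Set.Icc (0:ℝ) 1 := by
      refine ⟨by positivity, ?_⟩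
      rw [div_le_one hrp]
      exact_mod_cast hk
    have e2 := hgh _ hkr
    have hs : 0 ≤ √(r:ℝ) := Real.sqrt_nonneg _
    have e3 : |√(r:ℝ) * ((∫ y in (0:ℝ)..(k / r), f y) + ∫ y in (0:ℝ)..(k / r), g y)| ≤
        √(r:ℝ) * (ε / 2) := by
      rw [abs_mul, abs_of_nonneg hs]
      exact mul_le_mul_of_nonneg_left e2 hs
    calc |∑ j ∈ Finset.range k, gap (n + j) - k - √r * ∫ y in (0:ℝ)..(k / r), f y|
        = |(∑ j ∈ Finset.range k, gap (n + j) - k + √r * ∫ y in (0:ℝ)..(k / r), g y) -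
          √r * ((∫ y in (0:ℝ)..(k / r), f y) + ∫ y in (0:ℝ)..(k / r), g y)| := by
          congr 1
          ring
      _ ≤ 8 * (ε / 16) * √r + √r * (ε / 2) := (abs_sub _ _).trans (add_le_add e1 e3)
      _ = ε * √r := by ring
  exact_mod_cast Finset.card_le_card hsub

/-- **Profiles** (RH), in every interval `[T, T + H]`, `H ≥ T ^ a`, and in every block of indices
`(N, N + M]`, `M ≥ N ^ a`. -/
theorem profiles (hRH : RiemannHypothesis) {a ε : ℝ} (ha : 0 < a) (ha1 : a ≤ 1) (hε : 0 < ε)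
    {f : ℝ → ℝ} (hf : MemLp f 2 (volume.restrict (Set.Icc (0:ℝ) 1)))
    (hE : ∫ x in (0:ℝ)..1, f x ^ 2 ≤ 4 * a) :
    ∃ r0 : ℕ, ∀ r : ℕ, r0 ≤ r → ∃ κ : ℝ, 0 < κ ∧
      (∃ T0 : ℝ, ∀ T H : ℝ, T0 ≤ T → T ^ a ≤ H →
        κ * ((zeroCount (T + H) : ℝ) - zeroCount T) ≤
          ((({n ∈ Finset.Ioo (zeroCount T) (zeroCount (T + H)) | ∀ k : ℕ, k ≤ r →
            |∑ j ∈ Finset.range k, gap (n + j) - k - √r * ∫ y in (0:ℝ)..(k / r), f y| ≤
              ε * √r} : Finset ℕ).card : ℕ) : ℝ)) ∧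
      (∃ N0 : ℕ, ∀ N M : ℕ, N0 ≤ N → (N : ℝ) ^ a ≤ M →
        κ * M ≤ ((({n ∈ Finset.Ioc N (N + M) | ∀ k : ℕ, k ≤ r →
          |∑ j ∈ Finset.range k, gap (n + j) - k - √r * ∫ y in (0:ℝ)..(k / r), f y| ≤
            ε * √r} : Finset ℕ).card : ℕ) : ℝ)) := by
  obtain ⟨a', ha', haa, r0, hr0⟩ := profiles_index hRH ha ha1 hε hf hE
  refine ⟨r0, fun r hr => ?_⟩
  obtain ⟨κ, hκ, hN⟩ := hr0 r hr
  exact ⟨κ / 2, half_pos hκ, Pool.Agent.RG.both_forms ha' haa ha1 hκ hN⟩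

end Pool.Agent.PF
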