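import Pool.Agent.PF.CoreAA2
import Pool.Agent.PF.LtwoG

/-!
# Every profile of energy at most `2 (1 + a)` is followed in almost every short block, under RH
-/

open scoped ContDiff

namespace Pool.Agent.PF

open MeasureTheory Real Set Pool.Agent.ZGap.Res Pool.Agent.ZetaGaps

/-- **Profiles in almost all blocks of indices** (RH): for `0 < a < 1`, `∫ f² ≤ 2 (1 + a)` and all
large `r`, after all but `N ^ (1 - c)` of the indices `n ≤ N`, in EVERY block `(n, n + M]`,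
`M ≥ n ^ a`, a positive proportion of the indices is followed by `r` gaps whose partial sums stay
within `ε √r` of `k + √r ∫_0^{k/r} f`. -/
theorem profiles_aa (hRH : RiemannHypothesis) {a ε : ℝ} (ha : 0 < a) (ha1 : a < 1) (hε : 0 < ε)
    {f : ℝ → ℝ} (hf : MemLp f 2 (volume.restrict (Set.Icc (0:ℝ) 1)))
    (hE : ∫ x in (0:ℝ)..1, f x ^ 2 ≤ 2 * (1 + a)) :
    ∃ r0 : ℕ, ∀ r : ℕ, r0 ≤ r → ∃ κ c : ℝ, 0 < κ ∧ 0 < c ∧ ∃ N0 : ℕ, ∀ N : ℕ, N0 ≤ N →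
      ({n : ℕ | 1 ≤ n ∧ n ≤ N ∧ ¬ ∀ M : ℕ, (n : ℝ) ^ a ≤ M →
        κ * M ≤ ({m : ℕ | n < m ∧ m ≤ n + M ∧ ∀ k : ℕ, k ≤ r →
          |∑ j ∈ Finset.range k, gap (m + j) - k - √r * ∫ y in (0:ℝ)..(k / r), f y| ≤
            ε * √r}.ncard : ℝ)}.ncard : ℝ) ≤ (N : ℝ) ^ (1 - c) := by
  classical
  obtain ⟨g, hgc, hg0, hg1, hgE, hgh⟩ := exists_g2 hf (E := 2 * (1 + a)) (by positivity) hE
    (half_pos hε)
  have hI0 : 0 ≤ ∫ x in (0:ℝ)..1, g x ^ 2 :=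
    intervalIntegral.integral_nonneg (by norm_num) fun x _ => sq_nonneg _
  set I := ∫ x in (0:ℝ)..1, g x ^ 2 with hI
  -- the exponents
  obtain ⟨a1, h1, h2, h3⟩ : ∃ a1 : ℝ, 0 < a1 ∧ a1 < a ∧ I < 2 * (1 + a1) := by
    refine ⟨max (a / 2) ((I / 2 - 1 + a) / 2), lt_max_of_lt_left (by positivity),
      max_lt (by linarith) (by linarith), ?_⟩
    have := le_max_right (a / 2) ((I / 2 - 1 + a) / 2)
    linarith
  obtain ⟨b1, h4⟩ : ∃ b1 : ℝ, b1 = (I / 4 + 1) / 2 := ⟨_, rfl⟩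
  obtain ⟨b2, h5⟩ : ∃ b2 : ℝ, b2 = (b1 + 1) / 2 := ⟨_, rfl⟩
  have h6 : I < 4 * b1 := by rw [h4]; linarith
  have h7 : b1 < 1 := by rw [h4]; linarith
  have h8 : 0 < b1 := by rw [h4]; linarith
  have h9 : b1 < b2 := by rw [h5]; linarith
  have h10 : b2 < 1 := by rw [h5]; linarith
  have hgs : HasCompactSupport g := HasCompactSupport.intro (K := Set.Icc 0 1) isCompact_Icc
    fun x hx => by
      rw [Set.mem_Icc, not_and_or, not_le, not_le] at hx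
      rcases hx with h | h
      · exact hg0 x h.le
      · exact hg1 x h.le
  obtain ⟨B, hB⟩ := hgs.exists_bound_of_continuous hgc
  have hB' : ∀ x, |g x| ≤ B := fun x => by simpa [Real.norm_eq_abs] using hB x
  obtain ⟨r0, hr0⟩ := profile_volume_aa hRH hgc hg0 hg1 h1 (by linarith) h3 (δ := ε / 16)
    (by positivity)
  obtain ⟨r1, hr1⟩ := index_of_volume_aa hRH hgc hB' h1 h2 ha1 h10 (δ := ε / 16) (by positivity)
  obtain ⟨r2, hr2⟩ := profile_volume hRH hgc hg0 hg1 h8 h7 h6 (δ := ε / 16) (by positivity)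
  obtain ⟨r3, hr3⟩ := index_of_volume hRH hgc hB' hg0 hg1 h8 h9 h10.le (δ := ε / 16)
    (by positivity)
  refine ⟨max (max 1 ⌈r0⌉₊) (max r1 (max ⌈r2⌉₊ r3)), fun r hr => ?_⟩
  have q1 : 1 ≤ r := (le_max_left _ _).trans ((le_max_left _ _).trans hr)
  have q2 : ⌈r0⌉₊ ≤ r := (le_max_right _ _).trans ((le_max_left _ _).trans hr)
  have q3 : r1 ≤ r := (le_max_left _ _).trans ((le_max_right _ _).trans hr)
  have q4 : ⌈r2⌉₊ ≤ r :=
    (le_max_left _ _).trans ((le_max_right _ _).trans ((le_max_right _ _).trans hr))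
  have q5 : r3 ≤ r :=
    (le_max_right _ _).trans ((le_max_right _ _).trans ((le_max_right _ _).trans hr))
  have hrp : (0:ℝ) < r := by exact_mod_cast q1
  have q2' : r0 ≤ r := (Nat.le_ceil r0).trans (by exact_mod_cast q2)
  have q4' : r2 ≤ r := (Nat.le_ceil r2).trans (by exact_mod_cast q4)
  obtain ⟨c0, c, T0, hc0, hc, hvol⟩ := hr0 r q2'
  obtain ⟨d0, T2, hd0, hvol2⟩ := hr2 r q4'
  have hlong := hr3 r q5 d0 T2 hd0 hvol2
  obtain ⟨κ, c', N0, hκ, hc', hN⟩ := hr1 r q3 c0 c T0 hc0 hc hvol hlong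
  refine ⟨κ, c', hκ, hc', N0, fun N hNN => ?_⟩
  set S : Set ℕ := {n : ℕ | 1 ≤ n ∧ n ≤ N ∧ ¬ ∀ M : ℕ, (n : ℝ) ^ a ≤ M →
        κ * M ≤ ({m : ℕ | n < m ∧ m ≤ n + M ∧ ∀ k : ℕ, k ≤ r →
          |∑ j ∈ Finset.range k, gap (m + j) - k - √r * ∫ y in (0:ℝ)..(k / r), f y| ≤
            ε * √r}.ncard : ℝ)} with hS
  have hSfin : S.Finite := (Set.finite_Icc 1 N).subset fun n hn => ⟨hn.1, hn.2.1⟩
  have hcard : S.ncard = hSfin.toFinset.card := Set.ncard_eq_toFinset_card S hSfin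
  rw [hcard]
  refine hN N hNN _ fun n hn => ?_
  rw [Set.Finite.mem_toFinset, hS, Set.mem_ofPred_eq] at hn
  obtain ⟨n1, n2, n3⟩ := hn
  push Not at n3
  obtain ⟨M, m1, m2⟩ := n3
  refine ⟨n1, n2, M, m1, lt_of_le_of_lt ?_ m2⟩
  have hnc : {m : ℕ | n < m ∧ m ≤ n + M ∧ ∀ k : ℕ, k ≤ r →
      |∑ j ∈ Finset.range k, gap (m + j) - k - √r * ∫ y in (0:ℝ)..(k / r), f y| ≤
        ε * √r}.ncard = ({m ∈ Finset.Ioc n (n + M) | ∀ k : ℕ, k ≤ r →
      |∑ j ∈ Finset.range k, gap (m + j) - k - √r * ∫ y in (0:ℝ)..(k / r), f y| ≤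
        ε * √r} : Finset ℕ).card := by
    rw [← Set.ncard_coe_finset]
    congr 1
    ext m
    simp [and_assoc]
  rw [hnc]
  have hsub : ({m ∈ Finset.Ioc n (n + M) | ∀ k : ℕ, k ≤ r →
      |∑ j ∈ Finset.range k, gap (m + j) - k + √r * ∫ y in (0:ℝ)..(k / r), g y| ≤
        8 * (ε / 16) * √r} : Finset ℕ) ⊆
      {m ∈ Finset.Ioc n (n + M) | ∀ k : ℕ, k ≤ r →
          |∑ j ∈ Finset.range k, gap (m + j) - k - √r * ∫ y in (0:ℝ)..(k / r), f y| ≤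
            ε * √r} := by
    intro m hm
    rw [Finset.mem_filter] at hm ⊢
    refine ⟨hm.1, fun k hk => ?_⟩
    have e1 := hm.2 k hk
    have hkr : (k:ℝ) / r ∈ Set.Icc (0:ℝ) 1 := by
      refine ⟨by positivity, ?_⟩
      rw [div_le_one hrp]
      exact_mod_cast hk
    have e2 := hgh _ hkr
    have hs : 0 ≤ √(r:ℝ) := Real.sqrt_nonneg _
    have e3 : |√(r:ℝ) * ((∫ y in (0:ℝ)..(k / r), f y) + ∫ y in (0:ℝ)..(k / r), g y)| ≤
        √(r:ℝ) * (ε / 2) := by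
      rw [abs_mul, abs_of_nonneg hs]
      exact mul_le_mul_of_nonneg_left e2 hs
    calc |∑ j ∈ Finset.range k, gap (m + j) - k - √r * ∫ y in (0:ℝ)..(k / r), f y|
        = |(∑ j ∈ Finset.range k, gap (m + j) - k + √r * ∫ y in (0:ℝ)..(k / r), g y) -
          √r * ((∫ y in (0:ℝ)..(k / r), f y) + ∫ y in (0:ℝ)..(k / r), g y)| := by
          congr 1
          ring
      _ ≤ 8 * (ε / 16) * √r + √r * (ε / 2) := (abs_sub _ _).trans (add_le_add e1 e3)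
      _ = ε * √r := by ring
  exact_mod_cast Finset.card_le_card hsub

end Pool.Agent.PF
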