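import Pool.Agent.PF.Prof

/-! From the profile to a smooth density. -/

open scoped ContDiff

namespace Pool.Agent.PF

open MeasureTheory

theorem exists_g {h : ℝ → ℝ} (hh : ContDiff ℝ 1 h) (h0 : h 0 = 0) {E : ℝ}
    (hE : ∫ x in (0:ℝ)..1, deriv h x ^ 2 < E) {ε : ℝ} (hε : 0 < ε) :
    ∃ g : ℝ → ℝ, ContDiff ℝ ∞ g ∧ HasCompactSupport g ∧ (∀ x, x ≤ 0 → g x = 0) ∧
      (∀ x, 1 ≤ x → g x = 0) ∧ ∫ x in (0:ℝ)..1, g x ^ 2 < E ∧
      ∀ x ∈ Set.Icc (0:ℝ) 1, |h x + ∫ y in (0:ℝ)..x, g y| ≤ ε := by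
  have hc : Continuous (deriv h) := hh.continuous_deriv_one
  have hf : ContinuousOn (fun x => -deriv h x) (Set.Icc 0 1) := hc.neg.continuousOn
  have hE' : ∫ x in (0:ℝ)..1, (-deriv h x) ^ 2 < E := by simpa using hE
  obtain ⟨g, δ, hδ, hδ1, hgs, hg0, hg1, hgE, hgf⟩ := exists_smooth_density hf hE' hε
  have k0 : ∀ x, x ≤ 0 → g x = 0 := fun x hx => hg0 x (by linarith)
  have k1 : ∀ x, 1 ≤ x → g x = 0 := fun x hx => hg1 x (by linarith)
  refine ⟨g, hgs ⊤, ?_, k0, k1, hgE, fun x hx => ?_⟩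
  · refine HasCompactSupport.intro (K := Set.Icc 0 1) isCompact_Icc fun x hx => ?_
    rw [Set.mem_Icc, not_and_or, not_le, not_le] at hx
    rcases hx with hx | hx
    · exact k0 x hx.le
    · exact k1 x hx.le
  · have h1 := hgf x hx
    have h2 : ∫ t in (0:ℝ)..x, -deriv h t = -h x := by
      rw [intervalIntegral.integral_neg, intervalIntegral.integral_deriv_eq_sub]
      · rw [h0, sub_zero]
      · exact fun t _ => (hh.differentiable one_ne_zero).differentiableAt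
      · exact hc.intervalIntegrable _ _
    rw [h2] at h1
    have h3 : h x + ∫ y in (0:ℝ)..x, g y = -(-h x - ∫ y in (0:ℝ)..x, g y) := by ring
    rw [h3, abs_neg]
    exact h1.le

end Pool.Agent.PF
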