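import Pool.Agent.ZGap.Res.Star

/-!
# Nonnegative band limited kernels
-/

open scoped ContDiff SchwartzMap

namespace Pool.Agent.PF

open MeasureTheory Real Set Pool.Agent.ZGap.Res

/-- The product of two even Schwartz functions. -/
lemma RS_mul {f g : ℝ → ℝ} (hf : RS f) (hg : RS g) : RS (fun x => f x * g x) := by
  obtain ⟨S, hS⟩ := hf.ex
  obtain ⟨S', hS'⟩ := hg.ex
  refine ⟨⟨SchwartzMap.bilinLeftCLM (ContinuousLinearMap.mul ℝ ℂ) S'.hasTemperateGrowth S,
    fun x => ?_⟩, fun x => by rw [hf.even, hg.even]⟩
  rw [SchwartzMap.bilinLeftCLM_apply]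
  simp only [ContinuousLinearMap.mul_apply', hS, hS']
  push_cast
  rfl

/-- A multiple of an even Schwartz function. -/
lemma RS_const_mul {f : ℝ → ℝ} (hf : RS f) (c : ℝ) : RS (fun x => c * f x) := by
  obtain ⟨S, hS⟩ := hf.ex
  refine ⟨⟨(c : ℂ) • S, fun x => ?_⟩, fun x => by rw [hf.even]⟩
  simp [hS]

/-- The multiplication formula. -/
lemma chat_fubini {f g : ℝ → ℝ} (hf : Integrable f) (hg : Integrable g) :
    ∫ x : ℝ, f x * chat g x = ∫ x : ℝ, chat f x * g x := by
  have h1 : Integrable (fun p : ℝ × ℝ => f p.1 * g p.2 * Real.cos (p.2 * p.1))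
      (volume.prod volume) := by
    have h2 : Integrable (fun p : ℝ × ℝ => f p.1 * g p.2) (volume.prod volume) := hf.mul_prod hg
    refine h2.norm.mono' (h2.aestronglyMeasurable.mul
      (Continuous.aestronglyMeasurable (by fun_prop))) (Filter.Eventually.of_forall fun p => ?_)
    rw [norm_mul]
    exact mul_le_of_le_one_right (norm_nonneg _) (by
      rw [Real.norm_eq_abs]; exact Real.abs_cos_le_one _)
  have h3 := integral_integral_swap (f := fun x y : ℝ => f x * g y * Real.cos (y * x)) h1
  calc ∫ x : ℝ, f x * chat g x = ∫ x : ℝ, ∫ y : ℝ, f x * g y * Real.cos (y * x) := by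
        refine integral_congr_ae (Filter.Eventually.of_forall fun x => ?_)
        simp only [chat]
        rw [← MeasureTheory.integral_const_mul]
        refine integral_congr_ae (Filter.Eventually.of_forall fun y => ?_)
        simp only
        ring
    _ = ∫ y : ℝ, ∫ x : ℝ, f x * g y * Real.cos (y * x) := h3
    _ = _ := by
        refine integral_congr_ae (Filter.Eventually.of_forall fun y => ?_)
        simp only [chat]
        rw [← MeasureTheory.integral_mul_const]
        refine integral_congr_ae (Filter.Eventually.of_forall fun x => ?_)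
        simp only
        rw [mul_comm y x]
        ring

/-- The transform of the two translates. -/
lemma chat_shift {φ : ℝ → ℝ} (hφ : RS φ) (ξ x : ℝ) :
    chat (fun u => (φ (u - ξ) + φ (u + ξ)) / 2) x = Real.cos (x * ξ) * chat φ x := by
  have i0 := hφ.continuous
  have i1 : ∀ c : ℝ, Integrable (fun u : ℝ => φ (u - c) * Real.cos (u * x)) := by
    intro c
    have h1 := (hφ.integrable.comp_sub_right c).norm
    refine h1.mono' (Continuous.aestronglyMeasurable (by fun_prop))
      (Filter.Eventually.of_forall fun u => ?_)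
    rw [norm_mul]
    exact mul_le_of_le_one_right (norm_nonneg _) (by
      rw [Real.norm_eq_abs]; exact Real.abs_cos_le_one _)
  have i2 : ∀ c : ℝ, ∫ u : ℝ, φ (u - c) * Real.cos (u * x) = Real.cos (c * x) * chat φ x := by
    intro c
    have h1 := integral_sub_right_eq_self (μ := (volume : Measure ℝ))
      (fun v : ℝ => φ v * Real.cos ((v + c) * x)) c
    simp only [sub_add_cancel] at h1
    rw [h1]
    have h2 : ∀ v : ℝ, φ v * Real.cos ((v + c) * x) =
        Real.cos (c * x) * (φ v * Real.cos (v * x)) -
          Real.sin (c * x) * (φ v * Real.sin (v * x)) := by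
      intro v
      rw [add_mul, Real.cos_add]
      ring
    simp_rw [h2]
    rw [integral_sub ((hφ.integrable_mul_cos x).const_mul _)
      ((hφ.integrable_mul_sin x).const_mul _), MeasureTheory.integral_const_mul,
      MeasureTheory.integral_const_mul, hφ.integral_sin]
    simp [chat]
  unfold chat
  have h3 : ∀ u : ℝ, (φ (u - ξ) + φ (u + ξ)) / 2 * Real.cos (u * x) =
      (1 / 2) * (φ (u - ξ) * Real.cos (u * x)) +
        (1 / 2) * (φ (u - (-ξ)) * Real.cos (u * x)) := by
    intro u
    rw [sub_neg_eq_add]
    ring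
  simp_rw [h3]
  rw [integral_add ((i1 ξ).const_mul _) ((i1 (-ξ)).const_mul _), MeasureTheory.integral_const_mul,
    MeasureTheory.integral_const_mul, i2, i2, neg_mul, Real.cos_neg, mul_comm ξ x]
  unfold chat
  ring

/-- The transform of the square of a transform. -/
lemma chat_sq {φ : ℝ → ℝ} (hφ : RS φ) (ξ : ℝ) :
    chat (fun x => chat φ x * chat φ x) ξ =
      2 * π * ∫ u : ℝ, φ u * ((φ (u - ξ) + φ (u + ξ)) / 2) := by
  have hc := hφ.chat
  have hi : Integrable (fun u : ℝ => (φ (u - ξ) + φ (u + ξ)) / 2) :=
    ((hφ.integrable.comp_sub_right ξ).add (hφ.integrable.comp_add_right ξ)).div_const 2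
  calc chat (fun x => chat φ x * chat φ x) ξ
      = ∫ x : ℝ, chat φ x * chat (fun u => (φ (u - ξ) + φ (u + ξ)) / 2) x := by
        unfold chat
        refine integral_congr_ae (Filter.Eventually.of_forall fun x => ?_)
        simp only
        have := chat_shift hφ ξ x
        unfold chat at this
        rw [this]
        ring
    _ = ∫ x : ℝ, chat (chat φ) x * ((φ (x - ξ) + φ (x + ξ)) / 2) := chat_fubini hc.integrable hi
    _ = _ := by
        rw [← MeasureTheory.integral_const_mul]
        refine integral_congr_ae (Filter.Eventually.of_forall fun x => ?_)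
        simp only
        rw [hφ.chat_chat]
        ring

/-- A nonnegative band limited even Schwartz function of mass one, positive near zero. -/
theorem exists_kernel {b : ℝ} (hb : 0 < b) : ∃ K : ℝ → ℝ, RS K ∧ (∀ x, 0 ≤ K x) ∧
    chat K 0 = 1 ∧ (∀ ξ, b ≤ |ξ| → chat K ξ = 0) ∧ (∀ ξ, 0 ≤ chat K ξ) ∧ (∀ ξ, chat K ξ ≤ 1) ∧
    ∀ x, |x| * b ≤ 3 → 0 < K x := by
  have hpi := Real.pi_pos
  let f : ContDiffBump (0:ℝ) := ⟨b / 4, b / 2, by positivity, by linarith⟩
  have hf0 : ∀ x, 0 ≤ f x := fun x => f.nonneg
  have hfs : ∀ x, b / 2 ≤ |x| → f x = 0 := by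
    intro x hx
    have : x ∉ Function.support f := by
      rw [f.support_eq]
      simp only [Metric.mem_ball, dist_zero_right, Real.norm_eq_abs, not_lt]
      exact hx
    simpa [Function.mem_support] using this
  have hf1 : ∀ x, |x| ≤ b / 4 → f x = 1 := by
    intro x hx
    apply f.one_of_mem_closedBall
    simp only [Metric.mem_closedBall, dist_zero_right, Real.norm_eq_abs]
    exact hx
  have hφ : RS f := RS.of_compact f.contDiff f.hasCompactSupport fun x => f.neg x
  have hc := hφ.chat
  have hsq := RS_mul hc hc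
  have hfc := hφ.continuous
  have hpos : ∀ x, |x| * b ≤ 3 → 0 < chat f x := by
    intro x hx
    unfold chat
    have h1 : ∀ u : ℝ, 0 ≤ f u * Real.cos (u * x) := by
      intro u
      rcases le_or_gt (b / 2) |u| with h | h
      · rw [hfs u h, zero_mul]
      · refine mul_nonneg (hf0 u) (Real.cos_nonneg_of_mem_Icc ?_)
        have h2 : |u * x| ≤ 3 / 2 := by
          rw [abs_mul]
          nlinarith [abs_nonneg x, abs_nonneg u]
        have h3 := abs_le.1 h2
        have h4 := Real.pi_gt_three
        constructor <;> linarith [h3.1, h3.2]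
    have h2 : (fun u => f u * Real.cos (u * x)) 0 ≠ 0 := by
      simp only [zero_mul, Real.cos_zero, mul_one]
      rw [hf1 0 (by rw [abs_zero]; positivity)]
      exact one_ne_zero
    exact Continuous.integral_pos_of_hasCompactSupport_nonneg_nonzero (by fun_prop)
      (f.hasCompactSupport.mul_right) h1 h2
  have hval := chat_sq hφ
  have hM : 0 < chat (fun x => chat f x * chat f x) 0 := by
    unfold chat
    simp only [mul_zero, Real.cos_zero, mul_one]
    have hcont : Continuous (fun x : ℝ => chat f x * chat f x) := hsq.continuous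
    refine (integral_pos_iff_support_of_nonneg (fun x => mul_self_nonneg _)
      hsq.integrable).2 ?_
    have h5 : Ioo (-(3 / b)) (3 / b) ⊆ Function.support (fun x : ℝ => chat f x * chat f x) := by
      intro x hx
      have : |x| * b ≤ 3 := by
        have := abs_lt.2 ⟨hx.1, hx.2⟩
        rw [lt_div_iff₀ hb] at this
        exact this.le
      exact (mul_pos (hpos x this) (hpos x this)).ne'
    refine lt_of_lt_of_le ?_ (measure_mono h5)
    rw [Real.volume_Ioo]
    simp only [ENNReal.ofReal_pos]
    have : 0 < 3 / b := by positivity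
    linarith
  set M := chat (fun x => chat f x * chat f x) 0 with hMd
  have hsc : ∀ ξ, chat (fun x => M⁻¹ * (chat f x * chat f x)) ξ =
      M⁻¹ * chat (fun x => chat f x * chat f x) ξ := by
    intro ξ
    unfold chat
    rw [← MeasureTheory.integral_const_mul]
    refine integral_congr_ae (Filter.Eventually.of_forall fun x => ?_)
    simp only
    ring
  have hM1 : 0 ≤ M⁻¹ := by positivity
  have hK0 : ∀ x, 0 ≤ M⁻¹ * (chat f x * chat f x) := fun x => mul_nonneg hM1 (mul_self_nonneg _)
  have hone : chat (fun x => M⁻¹ * (chat f x * chat f x)) 0 = 1 := by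
    rw [hsc, ← hMd, inv_mul_cancel₀ hM.ne']
  refine ⟨fun x => M⁻¹ * (chat f x * chat f x), RS_const_mul hsq _, hK0, hone, fun ξ hξ => ?_,
    fun ξ => ?_, fun ξ => ?_, fun x hx => ?_⟩
  · rw [hsc, hval]
    have : ∀ u : ℝ, f u * ((f (u - ξ) + f (u + ξ)) / 2) = 0 := by
      intro u
      rcases le_or_gt (b / 2) |u| with h | h
      · rw [hfs u h, zero_mul]
      · have h1 : b / 2 ≤ |u - ξ| := by
          have := abs_sub_abs_le_abs_sub ξ u
          rw [abs_sub_comm] at this
          linarith
        have h2 : b / 2 ≤ |u + ξ| := by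
          have := abs_sub_abs_le_abs_sub ξ (-u)
          rw [abs_neg, sub_neg_eq_add, add_comm] at this
          linarith
        rw [hfs _ h1, hfs _ h2]
        simp
    simp_rw [this]
    simp
  · rw [hsc, hval]
    refine mul_nonneg hM1 (mul_nonneg (by positivity) (integral_nonneg fun u => ?_))
    exact mul_nonneg (hf0 u) (div_nonneg (add_nonneg (hf0 _) (hf0 _)) (by norm_num))
  · rw [← hone]
    unfold chat
    refine integral_mono ((RS_const_mul hsq M⁻¹).integrable_mul_cos ξ)
      ((RS_const_mul hsq M⁻¹).integrable_mul_cos 0) fun x => ?_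
    exact mul_le_mul_of_nonneg_left (by rw [mul_zero, Real.cos_zero]; exact Real.cos_le_one _)
      (hK0 x)
  · exact mul_pos (by positivity) (mul_pos (hpos x hx) (hpos x hx))

end Pool.Agent.PF
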