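import Pool.Agent.RG.PBox

/-!
# Two-sided resonators with a complex amplitude: definitions and the prime sum
-/

open scoped ContDiff

namespace Pool.Agent.PF

open MeasureTheory Real Set Pool.Agent.ZGap.Res

/-- Data of a two-sided resonator with a complex amplitude. -/
structure CData where
  /-- half of the total length exponent -/
  th : ℝ
  /-- roughness exponent -/
  ep : ℝ
  /-- the size of the coefficients -/
  r : ℝ
  /-- the smooth complex amplitude of the primes -/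
  v : ℝ → ℂ
  /-- the smooth profile -/
  F : ℝ → ℝ
  ep_pos : 0 < ep
  ep_th : 2 * ep < th
  th_lt : th < 1 / 2
  v_smooth : ContDiff ℝ ∞ v
  v_le : ∀ x, ‖v x‖ ≤ 1
  v_low : ∀ x, x ≤ ep → v x = 0
  v_high : ∀ x, (th + 1 / 2) / 2 ≤ x → v x = 0
  F_smooth : ContDiff ℝ ∞ F
  F_supp : HasCompactSupport F
  F_nonneg : ∀ x, 0 ≤ F x
  F_one : ∀ x, 1 ≤ x → F x = 0

/-- The coefficient at a prime. -/
noncomputable def cc (D : CData) (T : ℝ) (p : ℕ) : ℂ :=
  D.r * D.v (Real.log p / Real.log T) / Real.sqrt p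

/-- The one-sided coefficient. -/
noncomputable def aa (D : CData) (T : ℝ) (S : Finset ℕ) : ℂ :=
  D.F (ell S / (D.th * Real.log T)) * ∏ p ∈ S, cc D T p

/-- The resonator. -/
noncomputable def Amp (D : CData) (T t : ℝ) : ℂ :=
  ∑ S ∈ (PP T).powerset, ∑ S' ∈ (PP T \ S).powerset,
    (aa D T S * (starRingEnd ℂ) (aa D T S')) *
      Complex.exp (((-(t * (ell S - ell S')) : ℝ) : ℂ) * Complex.I)

/-- The real part of the amplitude as real data. -/
noncomputable def CData.reD (D : CData) : RG.ResData where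
  th := D.th
  ep := D.ep
  r := D.r
  f := fun u => (D.v u).re
  F := D.F
  ep_pos := D.ep_pos
  ep_th := D.ep_th
  th_lt := D.th_lt
  f_smooth := Complex.reCLM.contDiff.comp D.v_smooth
  f_le := fun x => (Complex.abs_re_le_norm _).trans (D.v_le x)
  f_low := fun x hx => by rw [D.v_low x hx, Complex.zero_re]
  f_high := fun x hx => by rw [D.v_high x hx, Complex.zero_re]
  F_smooth := D.F_smooth
  F_supp := D.F_supp
  F_nonneg := D.F_nonneg
  F_one := D.F_one

/-- The imaginary part of the amplitude as real data. -/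
noncomputable def CData.imD (D : CData) : RG.ResData where
  th := D.th
  ep := D.ep
  r := D.r
  f := fun u => (D.v u).im
  F := D.F
  ep_pos := D.ep_pos
  ep_th := D.ep_th
  th_lt := D.th_lt
  f_smooth := Complex.imCLM.contDiff.comp D.v_smooth
  f_le := fun x => (Complex.abs_im_le_norm _).trans (D.v_le x)
  f_low := fun x hx => by rw [D.v_low x hx, Complex.zero_im]
  f_high := fun x hx => by rw [D.v_high x hx, Complex.zero_im]
  F_smooth := D.F_smooth
  F_supp := D.F_supp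
  F_nonneg := D.F_nonneg
  F_one := D.F_one

lemma cc_eq (D : CData) (T : ℝ) (p : ℕ) :
    cc D T p = (RG.cc D.reD T p : ℂ) + Complex.I * (RG.cc D.imD T p : ℂ) := by
  unfold cc RG.cc CData.reD CData.imD
  simp only
  conv_lhs => rw [← Complex.re_add_im (D.v (Real.log p / Real.log T))]
  push_cast
  ring

lemma norm_cc (D : CData) (T : ℝ) (p : ℕ) :
    ‖cc D T p‖ = |D.r| * ‖D.v (Real.log p / Real.log T)‖ / Real.sqrt p := by
  unfold cc
  rw [norm_div, norm_mul, Complex.norm_real, Complex.norm_real, Real.norm_eq_abs, Real.norm_eq_abs,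
    abs_of_nonneg (Real.sqrt_nonneg _)]

lemma norm_cc_le (D : CData) (T : ℝ) {p : ℕ} (hp : 1 ≤ p) : ‖cc D T p‖ ≤ |D.r| := by
  rw [norm_cc]
  have h0 := norm_nonneg (D.v (Real.log p / Real.log T))
  have h1 := D.v_le (Real.log p / Real.log T)
  have hs : 1 ≤ Real.sqrt p := by
    rw [Real.one_le_sqrt]; exact_mod_cast hp
  rw [div_le_iff₀ (by linarith)]
  have h2 := abs_nonneg D.r
  nlinarith [mul_nonneg h2 h0]

lemma norm_cc_sq_le (D : CData) {T : ℝ} (hT : 1 < T) {p : ℕ} (hp : 1 ≤ p) :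
    ‖cc D T p‖ ^ 2 ≤ D.r ^ 2 / (D.ep * Real.log T) * (Real.log p / p) := by
  have hL : 0 < Real.log T := Real.log_pos hT
  have hp0 : (0:ℝ) < p := by exact_mod_cast hp
  have hep := D.ep_pos
  have hlp : 0 ≤ Real.log p := Real.log_natCast_nonneg p
  rcases le_or_gt (Real.log p / Real.log T) D.ep with h | h
  · unfold cc
    rw [D.v_low _ h]
    have : ‖(D.r : ℂ) * 0 / (Real.sqrt p : ℂ)‖ ^ 2 = 0 := by simp
    rw [this]
    positivity
  · have h1 := D.v_le (Real.log p / Real.log T)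
    have h0 := norm_nonneg (D.v (Real.log p / Real.log T))
    rw [lt_div_iff₀ hL] at h
    rw [norm_cc, div_pow, mul_pow, Real.sq_sqrt hp0.le, sq_abs]
    have h2 : ‖D.v (Real.log p / Real.log T)‖ ^ 2 ≤ 1 := by nlinarith
    have h3 : 1 ≤ Real.log p / (D.ep * Real.log T) := by
      rw [le_div_iff₀ (by positivity)]; linarith
    calc D.r ^ 2 * ‖D.v (Real.log p / Real.log T)‖ ^ 2 / p ≤ D.r ^ 2 * 1 / p := by gcongr
      _ ≤ D.r ^ 2 * (Real.log p / (D.ep * Real.log T)) / p := by gcongr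
      _ = _ := by field_simp

/-- `∑ (2 ‖cc p‖)² ≤ C2²`. -/
lemma sum_cc_sq_le (D : CData) {T : ℝ} (hT : Real.exp 2 ≤ T) :
    ∑ p ∈ PP T, (2 * ‖cc D T p‖) ^ 2 ≤ 16 * D.r ^ 2 / D.ep := by
  have hT0 : 0 < T := (Real.exp_pos _).trans_le hT
  have hL2 : 2 ≤ Real.log T := by rw [Real.le_log_iff_exp_le hT0]; exact hT
  have hT1 : 1 < T := by
    have := Real.add_one_le_exp (2:ℝ); linarith
  have hfl : 1 ≤ ⌊T⌋₊ := Nat.le_floor (by push_cast; linarith)
  have h1 := Pool.Agent.DirPoly.sum_log_div_le hfl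
  have hlog : Real.log ⌊T⌋₊ ≤ Real.log T :=
    Real.log_le_log (by exact_mod_cast hfl) (Nat.floor_le hT0.le)
  have hl4 : Real.log 4 ≤ 2 := by
    have : Real.log 4 = 2 * Real.log 2 := by
      rw [show (4 : ℝ) = 2 ^ 2 by norm_num, Real.log_pow]; norm_num
    have := Real.log_two_lt_d9
    linarith
  have hl40 : 0 ≤ Real.log 4 := Real.log_nonneg (by norm_num)
  have hep := D.ep_pos
  calc _ ≤ ∑ p ∈ PP T, 4 * (D.r ^ 2 / (D.ep * Real.log T)) * (Real.log p / p) := by
        refine Finset.sum_le_sum fun p hp => ?_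
        rw [PP, Finset.mem_filter, Finset.mem_Icc] at hp
        have := norm_cc_sq_le D hT1 hp.1.1
        calc (2 * ‖cc D T p‖) ^ 2 = 4 * ‖cc D T p‖ ^ 2 := by ring
          _ ≤ 4 * (D.r ^ 2 / (D.ep * Real.log T) * (Real.log p / p)) := by gcongr
          _ = _ := by ring
    _ = 4 * (D.r ^ 2 / (D.ep * Real.log T)) * ∑ p ∈ PP T, (Real.log p / p) := by
        rw [Finset.mul_sum]
    _ ≤ 4 * (D.r ^ 2 / (D.ep * Real.log T)) * (2 * (2 * Real.log T)) := by
        have hLp : 0 < Real.log T := by linarith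
        gcongr
        refine h1.trans ?_
        gcongr
        linarith
    _ = _ := by
        have hLp : Real.log T ≠ 0 := by linarith
        field_simp
        ring

/-- The prime sum `∑ cc p p^{-it}`. -/
noncomputable def Pr (D : CData) (T t : ℝ) : ℂ :=
  ∑ p ∈ PP T, cc D T p * Complex.exp (((-(t * Real.log p) : ℝ) : ℂ) * Complex.I)

lemma Pr_eq (D : CData) (T t : ℝ) :
    Pr D T t = RG.FM.Pr D.reD T t + Complex.I * RG.FM.Pr D.imD T t := by
  unfold Pr RG.FM.Pr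
  rw [Finset.mul_sum, ← Finset.sum_add_distrib]
  refine Finset.sum_congr rfl fun p _ => ?_
  rw [cc_eq]
  ring

lemma norm_Pr_le_add (D : CData) (T t : ℝ) :
    ‖Pr D T t‖ ≤ ‖RG.FM.Pr D.reD T t‖ + ‖RG.FM.Pr D.imD T t‖ := by
  rw [Pr_eq]
  refine (norm_add_le _ _).trans ?_
  rw [norm_mul, Complex.norm_I, one_mul]

lemma Pr_continuous (D : CData) (T : ℝ) : Continuous (Pr D T) := by
  unfold Pr; fun_prop

lemma Amp_continuous (D : CData) (T : ℝ) : Continuous (Amp D T) := by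
  unfold Amp; fun_prop

lemma norm_Pr_le (D : CData) {T : ℝ} (hT : 0 ≤ T) (t : ℝ) : ‖Pr D T t‖ ≤ |D.r| * T := by
  unfold Pr
  calc _ ≤ ∑ p ∈ PP T, |D.r| := by
        refine (norm_sum_le _ _).trans (Finset.sum_le_sum fun p hp => ?_)
        rw [PP, Finset.mem_filter, Finset.mem_Icc] at hp
        rw [norm_mul, Complex.norm_exp_ofReal_mul_I, mul_one]
        exact norm_cc_le D T hp.1.1
    _ = (PP T).card * |D.r| := by rw [Finset.sum_const, nsmul_eq_mul]
    _ ≤ T * |D.r| := by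
        gcongr
        have h1 : (PP T).card ≤ ⌊T⌋₊ := by
          refine (Finset.card_filter_le _ _).trans ?_
          simp
        exact (by exact_mod_cast h1 : ((PP T).card : ℝ) ≤ ⌊T⌋₊).trans (Nat.floor_le hT)
    _ = _ := mul_comm _ _

/-- Moments of the prime sum over short windows. -/
theorem Pr_moment_short (hRH : RiemannHypothesis) {b : ℕ} (hb : 1 ≤ b) (D : CData) (n : ℕ) :
    ∃ K T0 : ℝ, 0 < K ∧ Real.exp 2 ≤ T0 ∧ ∀ T : ℝ, T0 ≤ T → ∀ y H : ℝ, T / 4 ≤ y →
      y + H ≤ 4 * T → T ^ (1 / (b : ℝ)) ≤ H → ∫ t in y..(y + H), ‖Pr D T t‖ ^ n ≤ K * H := by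
  obtain ⟨K1, T1, hK1, hT1, h1⟩ := RG.FM.Pr_moment_short hRH hb D.reD n
  obtain ⟨K2, T2, hK2, hT2, h2⟩ := RG.FM.Pr_moment_short hRH hb D.imD n
  refine ⟨2 ^ n * (K1 + K2), max T1 T2, by positivity, hT1.trans (le_max_left _ _),
    fun T hT y H hy hyH hH => ?_⟩
  have g1 := h1 T ((le_max_left _ _).trans hT) y H hy hyH hH
  have g2 := h2 T ((le_max_right _ _).trans hT) y H hy hyH hH
  have hT0 : 0 < T := (Real.exp_pos 2).trans_le ((hT1.trans (le_max_left _ _)).trans hT)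
  have hH0 : 0 < H := (Real.rpow_pos_of_pos hT0 _).trans_le hH
  have c1 := RG.FM.Pr_continuous D.reD T
  have c2 := RG.FM.Pr_continuous D.imD T
  have c3 := Pr_continuous D T
  have hpt : ∀ t, ‖Pr D T t‖ ^ n ≤
      2 ^ n * (‖RG.FM.Pr D.reD T t‖ ^ n + ‖RG.FM.Pr D.imD T t‖ ^ n) := by
    intro t
    have e1 := norm_Pr_le_add D T t
    have p1 := norm_nonneg (RG.FM.Pr D.reD T t)
    have p2 := norm_nonneg (RG.FM.Pr D.imD T t)
    have e2 : ‖Pr D T t‖ ≤ 2 * max ‖RG.FM.Pr D.reD T t‖ ‖RG.FM.Pr D.imD T t‖ := by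
      have := le_max_left ‖RG.FM.Pr D.reD T t‖ ‖RG.FM.Pr D.imD T t‖
      have := le_max_right ‖RG.FM.Pr D.reD T t‖ ‖RG.FM.Pr D.imD T t‖
      linarith
    calc ‖Pr D T t‖ ^ n ≤ (2 * max ‖RG.FM.Pr D.reD T t‖ ‖RG.FM.Pr D.imD T t‖) ^ n :=
          pow_le_pow_left₀ (norm_nonneg _) e2 n
      _ = 2 ^ n * (max ‖RG.FM.Pr D.reD T t‖ ‖RG.FM.Pr D.imD T t‖) ^ n := mul_pow _ _ _
      _ ≤ _ := by
          apply mul_le_mul_of_nonneg_left _ (by positivity)
          rcases le_total ‖RG.FM.Pr D.reD T t‖ ‖RG.FM.Pr D.imD T t‖ with h | h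
          · rw [max_eq_right h]
            have := pow_nonneg p1 n
            linarith
          · rw [max_eq_left h]
            have := pow_nonneg p2 n
            linarith
  have hle : y ≤ y + H := by linarith
  calc ∫ t in y..(y + H), ‖Pr D T t‖ ^ n ≤ ∫ t in y..(y + H),
        2 ^ n * (‖RG.FM.Pr D.reD T t‖ ^ n + ‖RG.FM.Pr D.imD T t‖ ^ n) := by
        refine intervalIntegral.integral_mono_on hle ?_ ?_ fun t _ => hpt t
        · exact (by fun_prop : Continuous fun t => ‖Pr D T t‖ ^ n).intervalIntegrable _ _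
        · exact (by fun_prop : Continuous fun t =>
            2 ^ n * (‖RG.FM.Pr D.reD T t‖ ^ n + ‖RG.FM.Pr D.imD T t‖ ^ n)).intervalIntegrable _ _
    _ = 2 ^ n * ((∫ t in y..(y + H), ‖RG.FM.Pr D.reD T t‖ ^ n) +
          ∫ t in y..(y + H), ‖RG.FM.Pr D.imD T t‖ ^ n) := by
        rw [intervalIntegral.integral_const_mul, intervalIntegral.integral_add]
        · exact (by fun_prop : Continuous fun t => ‖RG.FM.Pr D.reD T t‖ ^ n).intervalIntegrable _ _
        · exact (by fun_prop : Continuous fun t => ‖RG.FM.Pr D.imD T t‖ ^ n).intervalIntegrable _ _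
    _ ≤ 2 ^ n * (K1 * H + K2 * H) := by gcongr
    _ = _ := by ring

/-- The shifted moment over short windows. -/
theorem shifted_moment_short (hRH : RiemannHypothesis) {b : ℕ} (hb : 1 ≤ b) (D : CData)
    (n : ℕ) : ∃ K T0 : ℝ, 0 < K ∧ Real.exp 2 ≤ T0 ∧ ∀ T : ℝ, T0 ≤ T → ∀ y H : ℝ, T / 2 ≤ y →
      y + H ≤ 3 * T → T ^ (1 / (b : ℝ)) ≤ H → ∀ a : ℝ,
      ∫ t in y..(y + H), ‖Pr D T (t - a)‖ ^ n ≤ K * H * (1 + |a|) ^ n := by
  obtain ⟨K, T0, hK, hT0, h⟩ := Pr_moment_short hRH hb D n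
  refine ⟨K + (|D.r| * 4) ^ n + 1, T0, by positivity, hT0, fun T hT y H hy hyH hTH a => ?_⟩
  have hTe : Real.exp 2 ≤ T := hT0.trans hT
  have hTp : 0 < T := (Real.exp_pos _).trans_le hTe
  have hH0 : 0 < H := (Real.rpow_pos_of_pos hTp _).trans_le hTH
  have hPc := Pr_continuous D T
  have h1a : (1:ℝ) ≤ (1 + |a|) ^ n := one_le_pow₀ (by linarith [abs_nonneg a])
  rcases le_or_gt |a| (T / 4) with ha | ha
  · have h1 : ∫ t in y..(y + H), ‖Pr D T (t - a)‖ ^ n =
        ∫ t in (y - a)..(y + H - a), ‖Pr D T t‖ ^ n :=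
      intervalIntegral.integral_comp_sub_right (fun t => ‖Pr D T t‖ ^ n) a
    rw [h1, show y + H - a = (y - a) + H by ring]
    have ha' := abs_le.mp ha
    calc _ ≤ K * H := h T hT (y - a) H (by linarith [ha'.2]) (by linarith [ha'.1]) hTH
      _ ≤ (K + (|D.r| * 4) ^ n + 1) * H * 1 := by
          have : 0 ≤ (|D.r| * 4) ^ n := by positivity
          nlinarith
      _ ≤ _ := by gcongr
  · have h1 : ∫ t in y..(y + H), ‖Pr D T (t - a)‖ ^ n ≤
        ∫ t in y..(y + H), (|D.r| * T) ^ n := by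
      refine intervalIntegral.integral_mono_on (by linarith) ?_ ?_ fun t _ => ?_
      · exact (by fun_prop : Continuous fun t => ‖Pr D T (t - a)‖ ^ n).intervalIntegrable _ _
      · simp
      · gcongr
        exact norm_Pr_le D hTp.le _
    rw [intervalIntegral.integral_const, smul_eq_mul] at h1
    have h2 : (|D.r| * T) ^ n ≤ (|D.r| * 4) ^ n * (1 + |a|) ^ n := by
      rw [← mul_pow]
      have h0 := abs_nonneg D.r
      have h5 : |D.r| * T ≤ |D.r| * 4 * (1 + |a|) := by nlinarith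
      gcongr
    calc _ ≤ (y + H - y) * (|D.r| * T) ^ n := h1
      _ = H * (|D.r| * T) ^ n := by ring
      _ ≤ H * ((|D.r| * 4) ^ n * (1 + |a|) ^ n) := by gcongr
      _ = ((|D.r| * 4) ^ n) * H * (1 + |a|) ^ n := by ring
      _ ≤ _ := by
          gcongr
          linarith

end Pool.Agent.PF
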