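import Pool.Agent.PF.M4Defs

/-!
# Complex amplitude: the resonator as an integral of elementary symmetric sums
-/

open scoped ContDiff

namespace Pool.Agent.PF

open MeasureTheory Real Set Pool.Agent.ZGap.Res Pool.Agent.ZGap.Res.FM
open Pool.Agent.RG.FM (sh sh_continuous PhiOK exists_PhiOK M0 c2 one_le_c2 le_c2_sq NN)

/-- local factor, numerator -/
noncomputable def Xp (D : CData) (T t x : ℝ) (p : ℕ) : ℂ :=
  cc D T p * Complex.exp (((-((t - sh D.reD T x) * Real.log p) : ℝ) : ℂ) * Complex.I)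

/-- local factor, denominator -/
noncomputable def Yp (D : CData) (T t y : ℝ) (p : ℕ) : ℂ :=
  (starRingEnd ℂ) (cc D T p) *
    Complex.exp ((((t + sh D.reD T y) * Real.log p : ℝ) : ℂ) * Complex.I)

lemma prod_exp_ell' (S : Finset ℕ) (c : ℕ → ℂ) (a : ℝ) :
    ∏ p ∈ S, (c p * Complex.exp (((a * Real.log p : ℝ) : ℂ) * Complex.I)) =
      (∏ p ∈ S, c p) * Complex.exp (((a * ell S : ℝ) : ℂ) * Complex.I) := by
  rw [Finset.prod_mul_distrib, ← Complex.exp_sum]
  congr 2
  rw [← Finset.sum_mul]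
  congr 1
  unfold ell
  push_cast
  rw [Finset.mul_sum]

lemma prod_Xp (D : CData) (T t x : ℝ) (S : Finset ℕ) :
    ∏ p ∈ S, Xp D T t x p = (∏ p ∈ S, cc D T p) *
      Complex.exp (((-(t - sh D.reD T x) * ell S : ℝ) : ℂ) * Complex.I) := by
  rw [← prod_exp_ell']
  refine Finset.prod_congr rfl fun p _ => ?_
  unfold Xp
  congr 3
  push_cast
  ring

lemma prod_Yp (D : CData) (T t y : ℝ) (S : Finset ℕ) :
    ∏ p ∈ S, Yp D T t y p = (starRingEnd ℂ) (∏ p ∈ S, cc D T p) *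
      Complex.exp ((((t + sh D.reD T y) * ell S : ℝ) : ℂ) * Complex.I) := by
  rw [map_prod, ← prod_exp_ell']
  rfl

variable {D : CData} {Φ : ℝ → ℂ}

lemma int_X (h : PhiOK D.reD Φ) (T t : ℝ) (S : Finset ℕ) :
    ∫ x : ℝ, Φ x * ∏ p ∈ S, Xp D T t x p =
      aa D T S * Complex.exp (((-(t * ell S) : ℝ) : ℂ) * Complex.I) := by
  have h1 : ∀ x : ℝ, Φ x * ∏ p ∈ S, Xp D T t x p =
      (Φ x * Complex.exp (((2 * π * x * (ell S / (D.th * Real.log T)) : ℝ) : ℂ) * Complex.I)) *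
      ((∏ p ∈ S, cc D T p) * Complex.exp (((-(t * ell S) : ℝ) : ℂ) * Complex.I)) := by
    intro x
    rw [prod_Xp]
    have e1 : Complex.exp (((-(t - sh D.reD T x) * ell S : ℝ) : ℂ) * Complex.I) =
        Complex.exp (((2 * π * x * (ell S / (D.th * Real.log T)) : ℝ) : ℂ) * Complex.I) *
        Complex.exp (((-(t * ell S) : ℝ) : ℂ) * Complex.I) := by
      rw [← Complex.exp_add]
      congr 1
      unfold RG.FM.sh CData.reD
      push_cast
      ring
    rw [e1]
    ring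
  simp_rw [h1]
  rw [integral_mul_const, h.rep]
  unfold aa
  simp only [CData.reD]
  ring

lemma int_Y (h : PhiOK D.reD Φ) (T t : ℝ) (S : Finset ℕ) :
    ∫ x : ℝ, Φ x * ∏ p ∈ S, Yp D T t x p =
      (starRingEnd ℂ) (aa D T S) * Complex.exp (((t * ell S : ℝ) : ℂ) * Complex.I) := by
  have h1 : ∀ x : ℝ, Φ x * ∏ p ∈ S, Yp D T t x p =
      (Φ x * Complex.exp (((2 * π * x * (ell S / (D.th * Real.log T)) : ℝ) : ℂ) * Complex.I)) *
      ((starRingEnd ℂ) (∏ p ∈ S, cc D T p) *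
        Complex.exp (((t * ell S : ℝ) : ℂ) * Complex.I)) := by
    intro x
    rw [prod_Yp]
    have e1 : Complex.exp ((((t + sh D.reD T x) * ell S : ℝ) : ℂ) * Complex.I) =
        Complex.exp (((2 * π * x * (ell S / (D.th * Real.log T)) : ℝ) : ℂ) * Complex.I) *
        Complex.exp (((t * ell S : ℝ) : ℂ) * Complex.I) := by
      rw [← Complex.exp_add]
      congr 1
      unfold RG.FM.sh CData.reD
      push_cast
      ring
    rw [e1]
    ring
  simp_rw [h1]
  rw [integral_mul_const, h.rep]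
  unfold aa
  simp only [CData.reD]
  rw [map_mul, Complex.conj_ofReal]
  ring

lemma card_le_of_aa_ne {T : ℝ} (hT : 1 < T) {S : Finset ℕ} (_hS : S ⊆ PP T)
    (h : aa D T S ≠ 0) : S.card ≤ M0 D.reD := by
  have hL : 0 < Real.log T := Real.log_pos hT
  have hep := D.ep_pos
  have hth : 0 < D.th := by linarith [D.ep_th]
  unfold aa at h
  have hF : D.F (ell S / (D.th * Real.log T)) ≠ 0 := by
    intro h0
    apply h
    rw [h0, Complex.ofReal_zero, zero_mul]
  have hP : ∏ p ∈ S, cc D T p ≠ 0 := right_ne_zero_of_mul h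
  have h1 : ell S / (D.th * Real.log T) < 1 := by
    by_contra hcon
    push Not at hcon
    exact hF (D.F_one _ hcon)
  rw [div_lt_one (by positivity)] at h1
  have h2 : ∀ p ∈ S, D.ep * Real.log T ≤ Real.log p := by
    intro p hp
    have h3 := (Finset.prod_ne_zero_iff.mp hP) p hp
    by_contra hcon
    push Not at hcon
    apply h3
    unfold cc
    rw [D.v_low, mul_zero, zero_div]
    rw [div_le_iff₀ hL]
    exact hcon.le
  have h3 : S.card * (D.ep * Real.log T) ≤ ell S := by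
    unfold ell
    rw [← nsmul_eq_mul]
    exact Finset.card_nsmul_le_sum _ _ _ h2
  have h4 : (S.card : ℝ) < D.th / D.ep := by
    rw [lt_div_iff₀ hep]
    have h5 : S.card * (D.ep * Real.log T) < D.th * Real.log T := lt_of_le_of_lt h3 h1
    have h6 : (S.card * D.ep) * Real.log T < D.th * Real.log T := by linarith
    exact lt_of_mul_lt_mul_right h6 hL.le
  have h5 : (S.card : ℝ) ≤ M0 D.reD := h4.le.trans (Nat.le_ceil _)
  exact_mod_cast h5

lemma norm_Xp (D : CData) (T t x : ℝ) (p : ℕ) : ‖Xp D T t x p‖ = ‖cc D T p‖ := by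
  unfold Xp
  rw [norm_mul, Complex.norm_exp_ofReal_mul_I, mul_one]

lemma norm_Yp (D : CData) (T t x : ℝ) (p : ℕ) : ‖Yp D T t x p‖ = ‖cc D T p‖ := by
  unfold Yp
  rw [norm_mul, Complex.norm_exp_ofReal_mul_I, mul_one, RCLike.norm_conj]

lemma Xp_continuous (D : CData) (T t : ℝ) (p : ℕ) : Continuous (fun x => Xp D T t x p) := by
  have := sh_continuous D.reD T
  unfold Xp; fun_prop

lemma Yp_continuous (D : CData) (T t : ℝ) (p : ℕ) : Continuous (fun x => Yp D T t x p) := by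
  have := sh_continuous D.reD T
  unfold Yp; fun_prop

lemma integrable_X (h : PhiOK D.reD Φ) (T t : ℝ) (S : Finset ℕ) :
    Integrable fun x : ℝ => Φ x * ∏ p ∈ S, Xp D T t x p := by
  refine (h.norm_int.mul_const (∏ p ∈ S, ‖cc D T p‖)).mono' ?_
    (Filter.Eventually.of_forall fun x => ?_)
  · exact (h.cont.mul (continuous_finsetProd _ fun p _ => Xp_continuous D T t p)).aestronglyMeasurable
  · rw [norm_mul, norm_prod]
    simp only [norm_Xp]
    exact le_rfl

lemma integrable_Y (h : PhiOK D.reD Φ) (T t : ℝ) (S : Finset ℕ) :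
    Integrable fun x : ℝ => Φ x * ∏ p ∈ S, Yp D T t x p := by
  refine (h.norm_int.mul_const (∏ p ∈ S, ‖cc D T p‖)).mono' ?_
    (Filter.Eventually.of_forall fun x => ?_)
  · exact (h.cont.mul (continuous_finsetProd _ fun p _ => Yp_continuous D T t p)).aestronglyMeasurable
  · rw [norm_mul, norm_prod]
    simp only [norm_Yp]
    exact le_rfl

/-- The integrand. -/
noncomputable def EEc (D : CData) (T t : ℝ) (z : ℝ × ℝ) : ℂ :=
  ∑ m ∈ Finset.range (2 * M0 D.reD + 1),
    es (PP T) (fun p => Xp D T t z.1 p + Yp D T t z.2 p) m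

theorem Amp_eq (h : PhiOK D.reD Φ) {T : ℝ} (hT : 1 < T) (t : ℝ) :
    Amp D T t = ∫ z : ℝ × ℝ, Φ z.1 * Φ z.2 * EEc D T t z := by
  classical
  -- the expansion
  have hE : ∀ z : ℝ × ℝ, Φ z.1 * Φ z.2 * EEc D T t z =
      ∑ S ∈ (PP T).powerset, ∑ S' ∈ (PP T \ S).powerset,
        (if S.card + S'.card ∈ Finset.range (2 * M0 D.reD + 1) then
          (Φ z.1 * ∏ p ∈ S, Xp D T t z.1 p) * (Φ z.2 * ∏ p ∈ S', Yp D T t z.2 p) else 0) := by
    intro z
    unfold EEc
    simp_rw [← sum_disjoint_pairs]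
    rw [Finset.sum_comm, Finset.mul_sum]
    refine Finset.sum_congr rfl fun S _ => ?_
    rw [Finset.sum_comm, Finset.mul_sum]
    refine Finset.sum_congr rfl fun S' _ => ?_
    rw [Finset.sum_ite_eq]
    split_ifs
    · ring
    · rw [mul_zero]
  have hint : ∀ (S S' : Finset ℕ), Integrable (fun z : ℝ × ℝ =>
      (if S.card + S'.card ∈ Finset.range (2 * M0 D.reD + 1) then
          (Φ z.1 * ∏ p ∈ S, Xp D T t z.1 p) * (Φ z.2 * ∏ p ∈ S', Yp D T t z.2 p) else 0)) := by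
    intro S S'
    split_ifs
    · exact (integrable_X h T t S).mul_prod (integrable_Y h T t S')
    · exact integrable_zero _ _ _
  simp_rw [hE]
  rw [integral_finsetSum _ fun S _ => integrable_finsetSum _ fun S' _ => hint S S']
  unfold Amp
  refine Finset.sum_congr rfl fun S hS => ?_
  rw [integral_finsetSum _ fun S' _ => hint S S']
  refine Finset.sum_congr rfl fun S' hS' => ?_
  rw [Finset.mem_powerset] at hS hS'
  split_ifs with hc
  · have h1 := integral_prod_mul (μ := volume) (ν := volume)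
      (fun x : ℝ => Φ x * ∏ p ∈ S, Xp D T t x p) (fun x : ℝ => Φ x * ∏ p ∈ S', Yp D T t x p)
    rw [← Measure.volume_eq_prod] at h1
    rw [h1, int_X h, int_Y h]
    have e1 : Complex.exp (((-(t * (ell S - ell S')) : ℝ) : ℂ) * Complex.I) =
        Complex.exp (((-(t * ell S) : ℝ) : ℂ) * Complex.I) *
        Complex.exp (((t * ell S' : ℝ) : ℂ) * Complex.I) := by
      rw [← Complex.exp_add]
      congr 1
      push_cast
      ring
    rw [e1]
    ring
  · have h0 : aa D T S * (starRingEnd ℂ) (aa D T S') = 0 := by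
      by_contra hne
      apply hc
      have h1 := card_le_of_aa_ne hT hS (left_ne_zero_of_mul hne)
      have h2 := card_le_of_aa_ne (D := D) hT (hS'.trans Finset.sdiff_subset) (by
        intro h3
        apply right_ne_zero_of_mul hne
        rw [h3, map_zero])
      rw [Finset.mem_range]
      omega
    rw [h0]
    simp

lemma sum_Xp (D : CData) (T t x : ℝ) :
    ∑ p ∈ PP T, Xp D T t x p = Pr D T (t - sh D.reD T x) := rfl

lemma norm_sum_Yp (D : CData) (T t y : ℝ) :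
    ‖∑ p ∈ PP T, Yp D T t y p‖ = ‖Pr D T (t + sh D.reD T y)‖ := by
  have h : ∑ p ∈ PP T, Yp D T t y p = (starRingEnd ℂ) (Pr D T (t + sh D.reD T y)) := by
    unfold Pr Yp
    rw [map_sum]
    refine Finset.sum_congr rfl fun p _ => ?_
    rw [map_mul, ← Complex.exp_conj, map_mul, Complex.conj_ofReal,
      Complex.conj_I]
    congr 2
    push_cast
    ring
  rw [h, RCLike.norm_conj]

lemma norm_power_sum_le {T : ℝ} (hT : Real.exp 2 ≤ T) (t x y : ℝ) (l : ℕ) (hl : 1 ≤ l) :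
    ‖∑ p ∈ PP T, (Xp D T t x p + Yp D T t y p) ^ l‖ ≤
      (‖Pr D T (t - sh D.reD T x)‖ + ‖Pr D T (t + sh D.reD T y)‖ + c2 D.reD) ^ l := by
  have hc2 := one_le_c2 D.reD
  rcases Nat.eq_or_lt_of_le hl with h1 | h1
  · rw [← h1]
    simp only [pow_one]
    rw [Finset.sum_add_distrib, sum_Xp]
    refine (norm_add_le _ _).trans ?_
    rw [norm_sum_Yp]
    linarith
  · have hsum : ∑ p ∈ PP T, (2 * ‖cc D T p‖) ^ 2 ≤ c2 D.reD ^ 2 :=
      (sum_cc_sq_le D hT).trans (le_c2_sq D.reD)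
    have hle : ∀ p ∈ PP T, 2 * ‖cc D T p‖ ≤ c2 D.reD := by
      intro p hp
      have h3 : (2 * ‖cc D T p‖) ^ 2 ≤ c2 D.reD ^ 2 :=
        (Finset.single_le_sum (f := fun p => (2 * ‖cc D T p‖) ^ 2) (fun q _ => sq_nonneg _) hp).trans
          hsum
      exact abs_le_of_sq_le_sq' h3 (by linarith) |>.2
    have h2 : ‖∑ p ∈ PP T, (Xp D T t x p + Yp D T t y p) ^ l‖ ≤ c2 D.reD ^ l := by
      obtain ⟨j, rfl⟩ : ∃ j, l = j + 2 := ⟨l - 2, by omega⟩
      calc _ ≤ ∑ p ∈ PP T, c2 D.reD ^ j * (2 * ‖cc D T p‖) ^ 2 := by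
            refine (norm_sum_le _ _).trans (Finset.sum_le_sum fun p hp => ?_)
            rw [norm_pow]
            have h3 : ‖Xp D T t x p + Yp D T t y p‖ ≤ 2 * ‖cc D T p‖ := by
              refine (norm_add_le _ _).trans ?_
              rw [norm_Xp, norm_Yp]
              linarith
            calc ‖Xp D T t x p + Yp D T t y p‖ ^ (j + 2) ≤ (2 * ‖cc D T p‖) ^ (j + 2) := by gcongr
              _ = (2 * ‖cc D T p‖) ^ j * (2 * ‖cc D T p‖) ^ 2 := pow_add _ _ _
              _ ≤ c2 D.reD ^ j * (2 * ‖cc D T p‖) ^ 2 := by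
                  gcongr
                  exact hle p hp
        _ = c2 D.reD ^ j * ∑ p ∈ PP T, (2 * ‖cc D T p‖) ^ 2 := by rw [Finset.mul_sum]
        _ ≤ c2 D.reD ^ j * c2 D.reD ^ 2 := by gcongr
        _ = _ := (pow_add _ _ _).symm
    refine h2.trans ?_
    have := norm_nonneg (Pr D T (t - sh D.reD T x))
    have := norm_nonneg (Pr D T (t + sh D.reD T y))
    gcongr
    linarith

lemma norm_EEc_le {T : ℝ} (hT : Real.exp 2 ≤ T) (t : ℝ) (z : ℝ × ℝ) :
    ‖EEc D T t z‖ ≤ (NN D.reD + 1) *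
      (‖Pr D T (t - sh D.reD T z.1)‖ + ‖Pr D T (t + sh D.reD T z.2)‖ + c2 D.reD) ^ NN D.reD := by
  have hc2 := one_le_c2 D.reD
  set Y := ‖Pr D T (t - sh D.reD T z.1)‖ + ‖Pr D T (t + sh D.reD T z.2)‖ + c2 D.reD with hY
  have hY1 : 1 ≤ Y := by
    have := norm_nonneg (Pr D T (t - sh D.reD T z.1))
    have := norm_nonneg (Pr D T (t + sh D.reD T z.2))
    linarith
  unfold EEc
  calc _ ≤ ∑ m ∈ Finset.range (2 * M0 D.reD + 1), Y ^ NN D.reD := by
        refine (norm_sum_le _ _).trans (Finset.sum_le_sum fun m hm => ?_)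
        rw [Finset.mem_range] at hm
        refine (norm_es_le (by linarith) (fun l hl => norm_power_sum_le hT t z.1 z.2 l hl) m).trans ?_
        exact pow_le_pow_right₀ hY1 (by unfold RG.FM.NN; omega)
    _ = _ := by
        rw [Finset.sum_const, Finset.card_range, nsmul_eq_mul]
        unfold RG.FM.NN
        push_cast
        ring

/-- `J_-` and `J_+`. -/
noncomputable def Jm (D : CData) (Φ : ℝ → ℂ) (T t : ℝ) : ℝ :=
  ∫ x : ℝ, ‖Φ x‖ * ‖Pr D T (t - sh D.reD T x)‖ ^ (4 * NN D.reD)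

/-- `J_+`. -/
noncomputable def Jp (D : CData) (Φ : ℝ → ℂ) (T t : ℝ) : ℝ :=
  ∫ x : ℝ, ‖Φ x‖ * ‖Pr D T (t + sh D.reD T x)‖ ^ (4 * NN D.reD)

/-- Pointwise bound for the fourth power. -/
theorem norm_Amp_pow_le (h : PhiOK D.reD Φ) {T : ℝ} (hT : Real.exp 2 ≤ T) (t : ℝ) :
    ‖Amp D T t‖ ^ 4 ≤ ((∫ x, ‖Φ x‖) ^ 2) ^ 3 * ((NN D.reD + 1) ^ 4 * 3 ^ (4 * NN D.reD) *
      ((∫ x, ‖Φ x‖) * Jm D Φ T t + (∫ x, ‖Φ x‖) * Jp D Φ T t +
        (∫ x, ‖Φ x‖) ^ 2 * c2 D.reD ^ (4 * NN D.reD))) := by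
  have hT1 : 1 < T := by
    have := Real.add_one_le_exp (2:ℝ); linarith
  have hT0 : 0 ≤ T := by linarith
  have hc2 := one_le_c2 D.reD
  set W := ∫ x, ‖Φ x‖ with hW
  have hW0 : 0 ≤ W := integral_nonneg fun x => norm_nonneg _
  set w : ℝ × ℝ → ℝ := fun z => ‖Φ z.1‖ * ‖Φ z.2‖ with hw
  set Y : ℝ × ℝ → ℝ := fun z => ‖Pr D T (t - sh D.reD T z.1)‖ + ‖Pr D T (t + sh D.reD T z.2)‖ +
    c2 D.reD with hY
  set B : ℝ × ℝ → ℝ := fun z => (NN D.reD + 1) * Y z ^ NN D.reD with hB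
  have hPc := Pr_continuous D T
  have hsh := sh_continuous D.reD T
  have hYc : Continuous Y := by
    simp only [hY]; fun_prop
  have hY0 : ∀ z, 0 ≤ Y z := fun z => by simp only [hY]; positivity
  have hBc : Continuous B := by simp only [hB]; fun_prop
  have hYb : ∀ z, Y z ≤ 2 * (|D.r| * T) + c2 D.reD := by
    intro z
    have h1 := norm_Pr_le D hT0 (t - sh D.reD T z.1)
    have h2 := norm_Pr_le D hT0 (t + sh D.reD T z.2)
    simp only [hY]
    linarith
  have hB0 : ∀ z, 0 ≤ B z := fun z => by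
    have := hY0 z
    simp only [hB]; positivity
  have hBb : ∀ z, |B z| ≤ (NN D.reD + 1) * (2 * (|D.r| * T) + c2 D.reD) ^ NN D.reD := by
    intro z
    rw [abs_of_nonneg (hB0 z)]
    simp only [hB]
    have h3 := hY0 z
    have h4 := hYb z
    gcongr
  set Cb := (NN D.reD + 1) * (2 * (|D.r| * T) + c2 D.reD) ^ NN D.reD with hCb
  have hw0 : ∀ z, 0 ≤ w z := fun z => by simp only [hw]; positivity
  have i0 : Integrable w := h.norm_int.mul_prod h.norm_int
  have i1 : Integrable (fun z => w z * B z) := RG.FM.integrable_bdd2 h hBc hBb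
  have i2 : Integrable (fun z => w z * B z ^ 2) :=
    RG.FM.integrable_bdd2 h (hBc.pow 2) (C := Cb ^ 2) fun z => by
      rw [abs_pow]; gcongr; exact hBb z
  have i4 : Integrable (fun z => w z * B z ^ 4) :=
    RG.FM.integrable_bdd2 h (hBc.pow 4) (C := Cb ^ 4) fun z => by
      rw [abs_pow]; gcongr; exact hBb z
  have h1 : ‖Amp D T t‖ ≤ ∫ z, w z * B z := by
    rw [Amp_eq h hT1]
    refine norm_integral_le_of_norm_le i1 (Filter.Eventually.of_forall fun z => ?_)
    rw [norm_mul, norm_mul]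
    simp only [hw]
    exact mul_le_mul_of_nonneg_left (norm_EEc_le hT t z) (by positivity)
  have h2 := pow_four_integral_le hw0 i0 i1 i2 i4
  have hwint : ∫ z, w z = W ^ 2 := by
    have := integral_prod_mul (μ := volume) (ν := volume) (fun x : ℝ => ‖Φ x‖) (fun x : ℝ => ‖Φ x‖)
    rw [← Measure.volume_eq_prod] at this
    rw [this]; ring
  -- the fourth power
  set p1 : ℝ → ℝ := fun x => ‖Pr D T (t - sh D.reD T x)‖ ^ (4 * NN D.reD) with hp1
  set p2 : ℝ → ℝ := fun x => ‖Pr D T (t + sh D.reD T x)‖ ^ (4 * NN D.reD) with hp2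
  have hp1c : Continuous p1 := by simp only [hp1]; fun_prop
  have hp2c : Continuous p2 := by simp only [hp2]; fun_prop
  have hp1b : ∀ x, |p1 x| ≤ (|D.r| * T) ^ (4 * NN D.reD) := by
    intro x
    simp only [hp1]
    rw [abs_of_nonneg (by positivity)]
    gcongr
    exact norm_Pr_le D hT0 _
  have hp2b : ∀ x, |p2 x| ≤ (|D.r| * T) ^ (4 * NN D.reD) := by
    intro x
    simp only [hp2]
    rw [abs_of_nonneg (by positivity)]
    gcongr
    exact norm_Pr_le D hT0 _
  have i5 : Integrable (fun z : ℝ × ℝ => w z * p1 z.1) :=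
    RG.FM.integrable_bdd2 h (hp1c.comp continuous_fst) fun z => hp1b z.1
  have i6 : Integrable (fun z : ℝ × ℝ => w z * p2 z.2) :=
    RG.FM.integrable_bdd2 h (hp2c.comp continuous_snd) fun z => hp2b z.2
  have i7 : Integrable (fun z : ℝ × ℝ => w z * c2 D.reD ^ (4 * NN D.reD)) := i0.mul_const _
  have h3 : ∫ z, w z * B z ^ 4 ≤ (NN D.reD + 1) ^ 4 * 3 ^ (4 * NN D.reD) *
      (W * Jm D Φ T t + W * Jp D Φ T t + W ^ 2 * c2 D.reD ^ (4 * NN D.reD)) := by
    have e1 : ∀ z, w z * B z ^ 4 ≤ (NN D.reD + 1) ^ 4 * 3 ^ (4 * NN D.reD) *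
        ((w z * p1 z.1 + w z * p2 z.2) + w z * c2 D.reD ^ (4 * NN D.reD)) := by
      intro z
      have h4 := add_three_pow_le (norm_nonneg (Pr D T (t - sh D.reD T z.1)))
        (norm_nonneg (Pr D T (t + sh D.reD T z.2))) (by linarith : 0 ≤ c2 D.reD) (4 * NN D.reD)
      have e2 : B z ^ 4 = (NN D.reD + 1) ^ 4 * Y z ^ (4 * NN D.reD) := by
        simp only [hB]
        rw [mul_pow, ← pow_mul, mul_comm (NN D.reD) 4]
      rw [e2]
      calc w z * ((NN D.reD + 1) ^ 4 * Y z ^ (4 * NN D.reD)) ≤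
          w z * ((NN D.reD + 1) ^ 4 *
            (3 ^ (4 * NN D.reD) * (p1 z.1 + p2 z.2 + c2 D.reD ^ (4 * NN D.reD)))) := by
            have := hw0 z
            gcongr
        _ = _ := by ring
    have i56 : Integrable (fun z : ℝ × ℝ => w z * p1 z.1 + w z * p2 z.2) := i5.add i6
    have i567 : Integrable (fun z : ℝ × ℝ => (w z * p1 z.1 + w z * p2 z.2) +
      w z * c2 D.reD ^ (4 * NN D.reD)) := i56.add i7
    refine (integral_mono i4 (i567.const_mul _) e1).trans (le_of_eq ?_)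
    rw [integral_const_mul]
    congr 1
    rw [integral_add i56 i7, integral_add i5 i6]
    congr 1
    · congr 1
      · have e3 := integral_prod_mul (μ := volume) (ν := volume) (fun x : ℝ => ‖Φ x‖ * p1 x)
          (fun x : ℝ => ‖Φ x‖)
        rw [← Measure.volume_eq_prod] at e3
        have e4 : ∀ z : ℝ × ℝ, w z * p1 z.1 = ‖Φ z.1‖ * p1 z.1 * ‖Φ z.2‖ := by
          intro z; simp only [hw]; ring
        simp_rw [e4]
        rw [e3, mul_comm]
        rfl
      · have e3 := integral_prod_mul (μ := volume) (ν := volume) (fun x : ℝ => ‖Φ x‖)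
          (fun x : ℝ => ‖Φ x‖ * p2 x)
        rw [← Measure.volume_eq_prod] at e3
        have e4 : ∀ z : ℝ × ℝ, w z * p2 z.2 = ‖Φ z.1‖ * (‖Φ z.2‖ * p2 z.2) := by
          intro z; simp only [hw]; ring
        simp_rw [e4]
        rw [e3]
        rfl
    · rw [integral_mul_const, hwint]
  have h0 : 0 ≤ ‖Amp D T t‖ := norm_nonneg _
  calc ‖Amp D T t‖ ^ 4 ≤ (∫ z, w z * B z) ^ 4 := by gcongr
    _ ≤ (∫ z, w z) ^ 3 * ∫ z, w z * B z ^ 4 := h2
    _ ≤ _ := by
        rw [hwint]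
        gcongr

end Pool.Agent.PF
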