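import Pool.Agent.PF.M4a

/-!
# Complex amplitude: the fourth moment over short windows
-/

open scoped ContDiff

namespace Pool.Agent.PF

open MeasureTheory Real Set Pool.Agent.ZGap.Res Pool.Agent.ZGap.Res.FM
open Pool.Agent.RG.FM (sh sh_continuous PhiOK exists_PhiOK M0 c2 one_le_c2 le_c2_sq NN abs_sh_le)

/-- The generic double integral, any interval. -/
lemma double_integral_gen {D : CData} {Φ : ℝ → ℂ} (h : PhiOK D.reD Φ) {T : ℝ} (hT0 : 0 ≤ T)
    (n : ℕ) {s : ℝ → ℝ} (hs : Continuous s) {u v : ℝ} (huv : u ≤ v) :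
    IntervalIntegrable (fun t => ∫ x : ℝ, ‖Φ x‖ * ‖Pr D T (t - s x)‖ ^ n) volume u v ∧
    ∫ t in u..v, ∫ x : ℝ, ‖Φ x‖ * ‖Pr D T (t - s x)‖ ^ n =
      ∫ x : ℝ, ‖Φ x‖ * ∫ t in u..v, ‖Pr D T (t - s x)‖ ^ n := by
  have hPc := Pr_continuous D T
  have hΦ := h.cont
  have hprod : Integrable (fun p : ℝ × ℝ => ‖Φ p.2‖ * ‖Pr D T (p.1 - s p.2)‖ ^ n)
      ((volume.restrict (Ioc u v)).prod volume) := by
    have h1 : Integrable (fun _ : ℝ => (|D.r| * T) ^ n) (volume.restrict (Ioc u v)) :=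
      integrableOn_const (by rw [Real.volume_Ioc]; exact ENNReal.ofReal_ne_top)
    have h2 := h1.mul_prod h.norm_int
    refine h2.mono' ?_ (Filter.Eventually.of_forall fun p => ?_)
    · exact Continuous.aestronglyMeasurable (by fun_prop)
    · rw [norm_mul, norm_norm, Real.norm_of_nonneg (by positivity), mul_comm]
      gcongr
      exact norm_Pr_le D hT0 _
  constructor
  · rw [intervalIntegrable_iff, uIoc_of_le huv]
    exact hprod.integral_prod_left
  · rw [intervalIntegral.integral_of_le huv]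
    rw [integral_integral_swap hprod]
    refine integral_congr_ae (Filter.Eventually.of_forall fun x => ?_)
    simp only
    rw [intervalIntegral.integral_of_le huv, integral_const_mul]

/-- **Fourth moment of the complex resonator** over short windows, with an arbitrary shift. -/
theorem fourth_moment_short (hRH : RiemannHypothesis) {b : ℕ} (hb : 1 ≤ b) (R : CData) :
    ∃ K T0 : ℝ, 0 < K ∧ Real.exp 2 ≤ T0 ∧ ∀ T : ℝ, T0 ≤ T → ∀ y H : ℝ, T / 2 ≤ y →
      y + H ≤ 3 * T → T ^ (1 / (b : ℝ)) ≤ H → ∀ a : ℝ,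
      ∫ t in y..(y + H), ‖Amp R T (t - a)‖ ^ 4 ≤ K * H * (1 + |a|) ^ (4 * NN R.reD) := by
  obtain ⟨Φ, hΦ⟩ := exists_PhiOK R.reD
  obtain ⟨K, T0, hK, hT0, hsm⟩ := shifted_moment_short hRH hb R (4 * NN R.reD)
  have hth : 0 < R.th := by linarith [R.ep_th, R.ep_pos]
  have hth' : 0 < R.reD.th := hth
  have hc2 := one_le_c2 R.reD
  set W := ∫ x, ‖Φ x‖ with hW
  have hW0 : 0 ≤ W := integral_nonneg fun x => norm_nonneg _
  set V := ∫ x, ‖Φ x‖ * (1 + |x|) ^ (4 * NN R.reD) with hV
  have hV0 : 0 ≤ V := integral_nonneg fun x => by positivity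
  set A := (1 + 2 * π / R.reD.th) ^ (4 * NN R.reD) with hA
  have hA0 : 0 ≤ A := by positivity
  set D := (W ^ 2) ^ 3 * ((NN R.reD + 1) ^ 4 * 3 ^ (4 * NN R.reD)) with hD
  have hD0 : 0 ≤ D := by positivity
  refine ⟨D * (2 * W * (K * A * V) + W ^ 2 * c2 R.reD ^ (4 * NN R.reD)) + 1, T0, by positivity, hT0,
    fun T hT y H hy hyH hTH a => ?_⟩
  have hTe : Real.exp 2 ≤ T := hT0.trans hT
  have hTp : 0 < T := (Real.exp_pos _).trans_le hTe
  have hH0 : 0 < H := (Real.rpow_pos_of_pos hTp _).trans_le hTH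
  have hL2 : 2 ≤ Real.log T := by rw [Real.le_log_iff_exp_le hTp]; exact hTe
  have hle : y ≤ y + H := by linarith
  have hshc := sh_continuous R.reD T
  set P := (1 + |a|) ^ (4 * NN R.reD) with hP
  have hP1 : 1 ≤ P := one_le_pow₀ (by linarith [abs_nonneg a])
  obtain ⟨im, em⟩ := double_integral_gen (s := fun x => a + sh R.reD T x) hΦ hTp.le (4 * NN R.reD)
    (continuous_const.add hshc) hle
  obtain ⟨ip, ep⟩ := double_integral_gen (s := fun x => a + -sh R.reD T x) hΦ hTp.le (4 * NN R.reD)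
    (continuous_const.add hshc.neg) hle
  have hJm : ∀ t, Jm R Φ T (t - a) =
      ∫ x : ℝ, ‖Φ x‖ * ‖Pr R T (t - (a + sh R.reD T x))‖ ^ (4 * NN R.reD) := by
    intro t
    unfold Jm
    refine integral_congr_ae (Filter.Eventually.of_forall fun x => ?_)
    simp only
    rw [sub_sub]
  have hJp : ∀ t, Jp R Φ T (t - a) =
      ∫ x : ℝ, ‖Φ x‖ * ‖Pr R T (t - (a + -sh R.reD T x))‖ ^ (4 * NN R.reD) := by
    intro t
    unfold Jp
    refine integral_congr_ae (Filter.Eventually.of_forall fun x => ?_)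
    simp only
    congr 4
    ring
  -- bound of the double integrals
  have hbd : ∀ s : ℝ → ℝ, Continuous s → (∀ x, |s x| ≤ |a| + |sh R.reD T x|) →
      ∫ x : ℝ, ‖Φ x‖ * ∫ t in y..(y + H), ‖Pr R T (t - s x)‖ ^ (4 * NN R.reD) ≤
        K * A * V * H * P := by
    intro s hs hsx
    have h1 : ∀ x, ‖Φ x‖ * ∫ t in y..(y + H), ‖Pr R T (t - s x)‖ ^ (4 * NN R.reD) ≤
        K * A * H * P * (‖Φ x‖ * (1 + |x|) ^ (4 * NN R.reD)) := by
      intro x
      have h2 := hsm T hT y H hy hyH hTH (s x)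
      have h3 : (1 + |s x|) ^ (4 * NN R.reD) ≤ P * (A * (1 + |x|) ^ (4 * NN R.reD)) := by
        rw [hA, hP, ← mul_pow, ← mul_pow]
        have h4 := abs_sh_le R.reD (by linarith : 1 ≤ Real.log T) x
        have h5 := hsx x
        have h6 : 1 + |s x| ≤ (1 + |a|) * (1 + |sh R.reD T x|) := by
          nlinarith [mul_nonneg (abs_nonneg a) (abs_nonneg (sh R.reD T x))]
        have h7 : (1 + |a|) * (1 + |sh R.reD T x|) ≤
            (1 + |a|) * ((1 + 2 * π / R.reD.th) * (1 + |x|)) := by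
          gcongr
        have h8 : 0 ≤ 1 + |s x| := by positivity
        exact pow_le_pow_left₀ h8 (h6.trans h7) _
      calc _ ≤ ‖Φ x‖ * (K * H * (1 + |s x|) ^ (4 * NN R.reD)) := by gcongr
        _ ≤ ‖Φ x‖ * (K * H * (P * (A * (1 + |x|) ^ (4 * NN R.reD)))) := by gcongr
        _ = _ := by ring
    have h2 : ∫ x : ℝ, ‖Φ x‖ * ∫ t in y..(y + H), ‖Pr R T (t - s x)‖ ^ (4 * NN R.reD) ≤
        ∫ x : ℝ, K * A * H * P * (‖Φ x‖ * (1 + |x|) ^ (4 * NN R.reD)) := by
      refine integral_mono_of_nonneg (Filter.Eventually.of_forall fun x => ?_)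
        ((hΦ.int (4 * NN R.reD)).const_mul _) (Filter.Eventually.of_forall h1)
      refine mul_nonneg (norm_nonneg _) ?_
      exact intervalIntegral.integral_nonneg hle fun t _ => by positivity
    refine h2.trans (le_of_eq ?_)
    rw [integral_const_mul]
    ring
  have hJmb : ∫ t in y..(y + H), Jm R Φ T (t - a) ≤ K * A * V * H * P := by
    simp_rw [hJm]
    rw [em]
    exact hbd _ (continuous_const.add hshc) fun x => abs_add_le _ _
  have hJpb : ∫ t in y..(y + H), Jp R Φ T (t - a) ≤ K * A * V * H * P := by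
    simp_rw [hJp]
    rw [ep]
    refine hbd _ (continuous_const.add hshc.neg) fun x => ?_
    have := abs_add_le a (-sh R.reD T x)
    rwa [abs_neg] at this
  have im' : IntervalIntegrable (fun t => Jm R Φ T (t - a)) volume y (y + H) := by
    have : (fun t => Jm R Φ T (t - a)) =
        fun t => ∫ x : ℝ, ‖Φ x‖ * ‖Pr R T (t - (a + sh R.reD T x))‖ ^ (4 * NN R.reD) := funext hJm
    rw [this]
    exact im
  have ip' : IntervalIntegrable (fun t => Jp R Φ T (t - a)) volume y (y + H) := by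
    have : (fun t => Jp R Φ T (t - a)) =
        fun t => ∫ x : ℝ, ‖Φ x‖ * ‖Pr R T (t - (a + -sh R.reD T x))‖ ^ (4 * NN R.reD) := funext hJp
    rw [this]
    exact ip
  have hAmpc := Amp_continuous R T
  have hpt : ∀ t, ‖Amp R T (t - a)‖ ^ 4 ≤ D * (W * Jm R Φ T (t - a) + W * Jp R Φ T (t - a) +
      W ^ 2 * c2 R.reD ^ (4 * NN R.reD)) := by
    intro t
    refine (norm_Amp_pow_le hΦ hTe (t - a)).trans (le_of_eq ?_)
    rw [hD]
    ring
  have i1 : IntervalIntegrable (fun t => W * Jm R Φ T (t - a) + W * Jp R Φ T (t - a)) volume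
      y (y + H) := (im'.const_mul W).add (ip'.const_mul W)
  have i2 : IntervalIntegrable (fun t => (W * Jm R Φ T (t - a) + W * Jp R Φ T (t - a)) +
      W ^ 2 * c2 R.reD ^ (4 * NN R.reD)) volume y (y + H) := i1.add (by simp)
  calc ∫ t in y..(y + H), ‖Amp R T (t - a)‖ ^ 4 ≤
      ∫ t in y..(y + H), D * ((W * Jm R Φ T (t - a) + W * Jp R Φ T (t - a)) +
        W ^ 2 * c2 R.reD ^ (4 * NN R.reD)) := by
        refine intervalIntegral.integral_mono_on hle ?_ (i2.const_mul D) fun t _ => hpt t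
        exact (by fun_prop : Continuous fun t => ‖Amp R T (t - a)‖ ^ 4).intervalIntegrable _ _
    _ = D * (W * (∫ t in y..(y + H), Jm R Φ T (t - a)) +
          W * (∫ t in y..(y + H), Jp R Φ T (t - a)) +
          (y + H - y) * (W ^ 2 * c2 R.reD ^ (4 * NN R.reD))) := by
        rw [intervalIntegral.integral_const_mul, intervalIntegral.integral_add i1 (by simp),
          intervalIntegral.integral_add (im'.const_mul W) (ip'.const_mul W),
          intervalIntegral.integral_const_mul, intervalIntegral.integral_const_mul,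
          intervalIntegral.integral_const, smul_eq_mul]
    _ ≤ D * (W * (K * A * V * H * P) + W * (K * A * V * H * P) +
          (H * P) * (W ^ 2 * c2 R.reD ^ (4 * NN R.reD))) := by
        gcongr
        nlinarith
    _ = (D * (2 * W * (K * A * V) + W ^ 2 * c2 R.reD ^ (4 * NN R.reD))) * H * P := by ring
    _ ≤ _ := by
        have : 0 ≤ H * P := by positivity
        nlinarith

end Pool.Agent.PF
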