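import Pool.Agent.ZShort.MSc

/-!
# Mean squares of finite exponential sums over short intervals: only near frequencies matter
-/

namespace Pool.Agent.PF

open MeasureTheory Finset Pool.Agent.ZGap.Res Pool.Agent.TypBlk Pool.Agent.TypBlk.MSAux
open Pool.Agent.ZShort.MScAux

open Classical in
/-- The mean square of an exponential sum over any interval is at most the sum over pairs of near
frequencies. -/
theorem ms_short : ∃ C C0 : ℝ, 0 < C ∧ 0 < C0 ∧
    ∀ {ι : Type} (s : Finset ι) (c : ι → ℂ) (l : ι → ℝ) (y H : ℝ), 0 < H →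
    ∫ t in y..(y + H), ‖∑ x ∈ s, c x * Complex.exp (-((t * l x : ℝ) : ℂ) * Complex.I)‖ ^ 2 ≤
      C * H * ∑ x ∈ s, ∑ y ∈ s, if |l x - l y| < C0 / H then ‖c x‖ * ‖c y‖ else 0 := by
  obtain ⟨c1, s1, hc1, hs1, hW⟩ := WW_pos_near
  refine ⟨1 / (2 * s1 * c1), 2 * s1, by positivity, by positivity, ?_⟩
  intro ι s c l y H hH
  set k : ℝ := 2 * s1 / H with hk
  set a : ℝ := y + H / 2 with ha
  have hk0 : 0 < k := by positivity
  set S : ℝ → ℂ := fun t => ∑ x ∈ s, c x * Complex.exp (-((t * l x : ℝ) : ℂ) * Complex.I) with hS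
  have hScont : Continuous S := by
    simp only [hS]
    fun_prop
  have hWc := WW_continuous
  have hterm : ∀ x y : ι, Integrable (fun t : ℝ => c x * (starRingEnd ℂ) (c y) *
      EE k a (l x - l y) t) := fun x y => (EE_int k a hk0 _).const_mul _
  have hexp : ∀ t : ℝ, ((WW ((t - a) * k) * ‖S t‖ ^ 2 : ℝ) : ℂ) = ∑ x ∈ s, ∑ y ∈ s,
      c x * (starRingEnd ℂ) (c y) * EE k a (l x - l y) t := by
    intro t
    have h1 : ((‖S t‖ ^ 2 : ℝ) : ℂ) = S t * (starRingEnd ℂ) (S t) := by
      rw [Complex.mul_conj']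
      push_cast
      rfl
    rw [Complex.ofReal_mul, h1]
    simp only [hS]
    rw [map_sum, sum_mul_sum, mul_sum]
    refine Finset.sum_congr rfl fun x _ => ?_
    rw [mul_sum]
    refine Finset.sum_congr rfl fun y _ => ?_
    unfold EE
    rw [map_mul, ← Complex.exp_conj, map_mul, map_neg, Complex.conj_ofReal, Complex.conj_I]
    have h2 : Complex.exp (-((t * (l x - l y) : ℝ) : ℂ) * Complex.I) =
        Complex.exp (-((t * l x : ℝ) : ℂ) * Complex.I) *
          Complex.exp (-((t * l y : ℝ) : ℂ) * -Complex.I) := by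
      rw [← Complex.exp_add]
      congr 1
      push_cast
      ring
    rw [h2]
    ring
  have hint : Integrable (fun t : ℝ => WW ((t - a) * k) * ‖S t‖ ^ 2) := by
    have h1 : Integrable (fun t : ℝ => ((WW ((t - a) * k) * ‖S t‖ ^ 2 : ℝ) : ℂ)) := by
      simp_rw [hexp]
      exact integrable_finsetSum _ fun x _ => integrable_finsetSum _ fun y _ => hterm x y
    have h2 := h1.re
    refine h2.congr (Filter.Eventually.of_forall fun t => ?_)
    exact Complex.ofReal_re _
  -- step 1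
  have step1 : ∫ t in y..(y + H), ‖S t‖ ^ 2 ≤
      c1⁻¹ * ∫ t : ℝ, WW ((t - a) * k) * ‖S t‖ ^ 2 := by
    have h1 : ∫ t in y..(y + H), ‖S t‖ ^ 2 ≤
        ∫ t in y..(y + H), c1⁻¹ * (WW ((t - a) * k) * ‖S t‖ ^ 2) := by
      apply intervalIntegral.integral_mono_on (by linarith)
      · exact (hScont.norm.pow 2).intervalIntegrable _ _
      · exact Continuous.intervalIntegrable (by fun_prop) _ _
      · intro t ht
        have h2 : |(t - a) * k| ≤ s1 := by
          rw [abs_mul, abs_of_pos hk0]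
          have h3 : |t - a| ≤ H / 2 := by
            rw [abs_le]
            constructor <;> [skip; skip] <;> simp only [ha] <;> linarith [ht.1, ht.2]
          calc |t - a| * k ≤ H / 2 * k := by gcongr
            _ = s1 := by rw [hk]; field_simp
        have h4 := hW _ h2
        calc ‖S t‖ ^ 2 = c1⁻¹ * (c1 * ‖S t‖ ^ 2) := by field_simp
          _ ≤ c1⁻¹ * (WW ((t - a) * k) * ‖S t‖ ^ 2) := by gcongr
    refine h1.trans ?_
    rw [intervalIntegral.integral_const_mul, intervalIntegral.integral_of_le (by linarith)]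
    have h5 := setIntegral_le_integral (s := Set.Ioc y (y + H)) hint
      (Filter.Eventually.of_forall fun t => mul_nonneg (WW_nonneg _) (sq_nonneg _))
    gcongr
  -- step 2
  have step2 : ∫ t : ℝ, WW ((t - a) * k) * ‖S t‖ ^ 2 ≤
      ∑ x ∈ s, ∑ y ∈ s, k⁻¹ * if |l x - l y| < k then ‖c x‖ * ‖c y‖ else 0 := by
    have h1 : ((∫ t : ℝ, WW ((t - a) * k) * ‖S t‖ ^ 2 : ℝ) : ℂ) =
        ∑ x ∈ s, ∑ y ∈ s, c x * (starRingEnd ℂ) (c y) * ∫ t, EE k a (l x - l y) t := by
      rw [← integral_complex_ofReal]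
      simp_rw [hexp]
      rw [integral_finsetSum _ fun x _ => integrable_finsetSum _ fun y _ => hterm x y]
      refine Finset.sum_congr rfl fun x _ => ?_
      rw [integral_finsetSum _ fun y _ => hterm x y]
      refine Finset.sum_congr rfl fun y _ => ?_
      rw [MeasureTheory.integral_const_mul]
    have h2 : ∫ t : ℝ, WW ((t - a) * k) * ‖S t‖ ^ 2 ≤
        ‖((∫ t : ℝ, WW ((t - a) * k) * ‖S t‖ ^ 2 : ℝ) : ℂ)‖ := by
      rw [Complex.norm_real]
      exact le_abs_self _
    refine h2.trans ?_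
    rw [h1]
    refine (norm_sum_le _ _).trans (Finset.sum_le_sum fun x _ => ?_)
    refine (norm_sum_le _ _).trans (Finset.sum_le_sum fun y _ => ?_)
    rw [norm_mul, norm_mul, RCLike.norm_conj]
    split_ifs with h
    · have := EE_norm k a hk0 (l x - l y)
      calc ‖c x‖ * ‖c y‖ * _ ≤ ‖c x‖ * ‖c y‖ * k⁻¹ := by gcongr
        _ = _ := by ring
    · rw [EE_zero k a hk0 _ (not_lt.1 h)]
      simp
  calc ∫ t in y..(y + H), ‖S t‖ ^ 2 ≤ c1⁻¹ * ∫ t : ℝ, WW ((t - a) * k) * ‖S t‖ ^ 2 := step1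
    _ ≤ c1⁻¹ * ∑ x ∈ s, ∑ y ∈ s, k⁻¹ * (if |l x - l y| < k then ‖c x‖ * ‖c y‖ else 0) := by
        gcongr
    _ = _ := by
        simp_rw [← Finset.mul_sum]
        rw [hk]
        field_simp

end Pool.Agent.PF
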