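import Pool.Agent.PF.RSConv

/-!
# Band-limited majorants of an interval
-/

open scoped ContDiff

namespace Pool.Agent.PF

open MeasureTheory Real Set Pool.Agent.ZGap.Res

/-- A smooth cutoff, `1` on `[-A, A]` and `0` outside `[-A - 1, A + 1]`. -/
noncomputable def cut (A x : ℝ) : ℝ :=
  Real.smoothTransition (A + 1 - x) * Real.smoothTransition (A + 1 + x)

lemma cut_smooth (A : ℝ) : ContDiff ℝ ∞ (cut A) := by
  have h0 : ContDiff ℝ ∞ Real.smoothTransition := Real.smoothTransition.contDiff
  have h1 : ContDiff ℝ ∞ (fun x : ℝ => Real.smoothTransition (A + 1 - x)) := h0.comp (by fun_prop)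
  have h2 : ContDiff ℝ ∞ (fun x : ℝ => Real.smoothTransition (A + 1 + x)) := h0.comp (by fun_prop)
  exact h1.mul h2

lemma cut_zero {A x : ℝ} (h : A + 1 ≤ |x|) : cut A x = 0 := by
  unfold cut
  rcases le_total 0 x with hx | hx
  · rw [abs_of_nonneg hx] at h
    rw [Real.smoothTransition.zero_of_nonpos (by linarith : A + 1 - x ≤ 0), zero_mul]
  · rw [abs_of_nonpos hx] at h
    rw [Real.smoothTransition.zero_of_nonpos (by linarith : A + 1 + x ≤ 0), mul_zero]

lemma cut_one {A x : ℝ} (h : |x| ≤ A) : cut A x = 1 := by
  unfold cut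
  obtain ⟨h1, h2⟩ := abs_le.mp h
  rw [Real.smoothTransition.one_of_one_le (by linarith), Real.smoothTransition.one_of_one_le
    (by linarith), one_mul]

lemma cut_nonneg (A x : ℝ) : 0 ≤ cut A x :=
  mul_nonneg (Real.smoothTransition.nonneg _) (Real.smoothTransition.nonneg _)

lemma cut_le_one (A x : ℝ) : cut A x ≤ 1 :=
  mul_le_one₀ (Real.smoothTransition.le_one _) (Real.smoothTransition.nonneg _)
    (Real.smoothTransition.le_one _)

lemma cut_compact (A : ℝ) : HasCompactSupport (cut A) := by
  refine HasCompactSupport.intro (isCompact_Icc (a := -(A + 1)) (b := A + 1)) fun x hx => ?_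
  apply cut_zero
  by_contra hcon
  exact hx (abs_le.mp (not_le.mp hcon).le)

lemma cut_RS (A : ℝ) : RS (cut A) := by
  refine RS.of_compact (cut_smooth A) (cut_compact A) fun x => ?_
  unfold cut
  rw [mul_comm, sub_neg_eq_add, ← sub_eq_add_neg]

lemma cut_integral {A : ℝ} (hA : 0 ≤ A) : ∫ x, cut A x ≤ 2 * (A + 1) := by
  have i4 : Integrable ((Icc (-(A + 1)) (A + 1)).indicator (fun _ => (1:ℝ))) :=
    (integrable_indicator_iff measurableSet_Icc).mpr (integrableOn_const (by
      rw [Real.volume_Icc]; exact ENNReal.ofReal_ne_top))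
  calc ∫ x, cut A x ≤ ∫ x : ℝ, (Icc (-(A + 1)) (A + 1)).indicator (fun _ => (1:ℝ)) x := by
        refine integral_mono (cut_RS A).integrable i4 fun x => ?_
        by_cases hx : x ∈ Icc (-(A + 1)) (A + 1)
        · rw [Set.indicator_of_mem hx]; exact cut_le_one A x
        · rw [Set.indicator_of_notMem hx, cut_zero]
          by_contra hcon
          exact hx (abs_le.mp (not_le.mp hcon).le)
    _ = 2 * (A + 1) := by
        rw [integral_indicator measurableSet_Icc, setIntegral_const, Real.volume_real_Icc,
          max_eq_left (by linarith)]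
        simp only [smul_eq_mul]
        ring

/-- The total variation of the smooth transition. -/
noncomputable def Kst : ℝ := ∫ x, |deriv Real.smoothTransition x|

lemma Kst_nonneg : 0 ≤ Kst := integral_nonneg fun _ => abs_nonneg _

lemma dst_continuous : Continuous (deriv Real.smoothTransition) :=
  (Real.smoothTransition.contDiff (n := 1)).continuous_deriv le_rfl

lemma dst_zero {x : ℝ} (h : x < 0 ∨ 1 < x) : deriv Real.smoothTransition x = 0 := by
  rcases h with h | h
  · have h1 : Real.smoothTransition =ᶠ[nhds x] fun _ => 0 := by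
      filter_upwards [Iio_mem_nhds h] with y hy
      exact Real.smoothTransition.zero_of_nonpos (le_of_lt hy)
    rw [h1.deriv_eq, deriv_const]
  · have h1 : Real.smoothTransition =ᶠ[nhds x] fun _ => 1 := by
      filter_upwards [Ioi_mem_nhds h] with y hy
      exact Real.smoothTransition.one_of_one_le (le_of_lt hy)
    rw [h1.deriv_eq, deriv_const]

lemma dst_integrable : Integrable (deriv Real.smoothTransition) := by
  apply dst_continuous.integrable_of_hasCompactSupport
  refine HasCompactSupport.intro (isCompact_Icc (a := (0:ℝ)) (b := 1)) fun x hx => ?_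
  apply dst_zero
  by_contra hcon
  rw [not_or, not_lt, not_lt] at hcon
  exact hx hcon

/-- The cosine transform of the cutoff decays, uniformly in its length. -/
lemma chat_cut {A u : ℝ} (hu : 0 < u) : |chat (cut A) u| ≤ 2 * Kst / u := by
  have hst : ∀ x, HasDerivAt Real.smoothTransition (deriv Real.smoothTransition x) x := fun x =>
    ((Real.smoothTransition.contDiff (n := 1)).differentiable one_ne_zero x).hasDerivAt
  set G' : ℝ → ℝ := fun x =>
    -deriv Real.smoothTransition (A + 1 - x) * Real.smoothTransition (A + 1 + x) +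
      Real.smoothTransition (A + 1 - x) * deriv Real.smoothTransition (A + 1 + x) with hG'
  have hd : ∀ x, HasDerivAt (cut A) (G' x) x := by
    intro x
    have h1 : HasDerivAt (fun x : ℝ => Real.smoothTransition (A + 1 - x))
        (-deriv Real.smoothTransition (A + 1 - x)) x := by
      have h2 : HasDerivAt (fun x : ℝ => A + 1 - x) (-1) x := by
        simpa using (hasDerivAt_id x).const_sub (A + 1)
      have h3 := (hst (A + 1 - x)).comp x h2
      rw [mul_neg_one] at h3
      exact h3
    have h4 : HasDerivAt (fun x : ℝ => Real.smoothTransition (A + 1 + x))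
        (deriv Real.smoothTransition (A + 1 + x)) x := by
      have h2 : HasDerivAt (fun x : ℝ => A + 1 + x) 1 x := by
        simpa using (hasDerivAt_id x).const_add (A + 1)
      have h3 := (hst (A + 1 + x)).comp x h2
      rw [mul_one] at h3
      exact h3
    exact h1.mul h4
  have i1 : Integrable (fun x : ℝ => |deriv Real.smoothTransition (A + 1 - x)|) :=
    (dst_integrable.comp_sub_left (A + 1)).abs
  have i2 : Integrable (fun x : ℝ => |deriv Real.smoothTransition (A + 1 + x)|) :=
    (dst_integrable.comp_add_left (A + 1)).abs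
  have hbound : ∀ x, |G' x| ≤ |deriv Real.smoothTransition (A + 1 - x)| +
      |deriv Real.smoothTransition (A + 1 + x)| := by
    intro x
    have a1 := Real.smoothTransition.nonneg (A + 1 - x)
    have a2 := Real.smoothTransition.nonneg (A + 1 + x)
    have b1 := Real.smoothTransition.le_one (A + 1 - x)
    have b2 := Real.smoothTransition.le_one (A + 1 + x)
    refine (abs_add_le _ _).trans ?_
    rw [abs_mul, abs_mul, abs_neg, abs_of_nonneg a1, abs_of_nonneg a2]
    have c1 := mul_le_of_le_one_right (abs_nonneg (deriv Real.smoothTransition (A + 1 - x))) b2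
    have c2 := mul_le_of_le_one_left (abs_nonneg (deriv Real.smoothTransition (A + 1 + x))) b1
    linarith
  have hG'c : Continuous G' := by
    have h1 := dst_continuous
    have h2 := Real.smoothTransition.continuous
    rw [hG']
    fun_prop
  have hG'i : Integrable G' := by
    refine (i1.add i2).mono' hG'c.aestronglyMeasurable (Filter.Eventually.of_forall fun x => ?_)
    rw [Real.norm_eq_abs]
    exact hbound x
  have hGs : Integrable (fun x => G' x * Real.sin (x * u)) := by
    refine hG'i.norm.mono' (Continuous.aestronglyMeasurable (by fun_prop))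
      (Filter.Eventually.of_forall fun x => ?_)
    rw [norm_mul, Real.norm_eq_abs (Real.sin _)]
    exact mul_le_of_le_one_right (norm_nonneg _) (Real.abs_sin_le_one _)
  have hint : ∫ x, (G' x * Real.sin (x * u) + cut A x * (u * Real.cos (x * u))) = 0 := by
    apply integral_eq_zero_of_hasDerivAt_of_integrable (f := fun x => cut A x * Real.sin (x * u))
    · intro x
      have h1 : HasDerivAt (fun x : ℝ => Real.sin (x * u)) (u * Real.cos (x * u)) x := by
        have h2 : HasDerivAt (fun x : ℝ => x * u) u x := by
          simpa using (hasDerivAt_id x).mul_const u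
        have h3 := (Real.hasDerivAt_sin (x * u)).comp x h2
        rw [mul_comm] at h3
        exact h3
      exact (hd x).mul h1
    · refine hGs.add ?_
      have h2 : (fun x => cut A x * (u * Real.cos (x * u))) =
          fun x => u * (cut A x * Real.cos (x * u)) := by
        funext x; ring
      rw [h2]
      exact ((cut_RS A).integrable_mul_cos u).const_mul u
    · exact (cut_RS A).integrable_mul_sin u
  have h2 : (fun x => cut A x * (u * Real.cos (x * u))) =
      fun x => u * (cut A x * Real.cos (x * u)) := by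
    funext x; ring
  rw [integral_add hGs (by rw [h2]; exact ((cut_RS A).integrable_mul_cos u).const_mul u), h2,
    MeasureTheory.integral_const_mul] at hint
  have h3 : chat (cut A) u = -(∫ x, G' x * Real.sin (x * u)) / u := by
    unfold chat
    rw [eq_div_iff hu.ne']
    linarith
  rw [h3, abs_div, abs_neg, abs_of_pos hu]
  refine div_le_div_of_nonneg_right ?_ hu.le
  rw [← Real.norm_eq_abs]
  refine (norm_integral_le_integral_norm _).trans ?_
  calc ∫ x, ‖G' x * Real.sin (x * u)‖ ≤ ∫ x, (|deriv Real.smoothTransition (A + 1 - x)| +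
        |deriv Real.smoothTransition (A + 1 + x)|) := by
        refine integral_mono hGs.norm (i1.add i2) fun x => ?_
        simp only
        rw [norm_mul, Real.norm_eq_abs, Real.norm_eq_abs]
        exact (mul_le_of_le_one_right (abs_nonneg _) (Real.abs_sin_le_one _)).trans (hbound x)
    _ = 2 * Kst := by
        rw [integral_add i1 i2,
          integral_sub_left_eq_self (fun x => |deriv Real.smoothTransition x|) volume (A + 1),
          integral_add_left_eq_self (fun x => |deriv Real.smoothTransition x|) (A + 1)]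
        unfold Kst
        ring

/-- The tail of the kernel. -/
lemma ker_tail {b : ℝ} (hb : 0 < b) : ∃ K : ℝ, 0 < K ∧ ∀ M, 0 < M →
    1 - K / M ^ 4 ≤ ∫ x in Icc (-M) M, ker b x := by
  have hR := ker_RS hb
  obtain ⟨C4, hC4, h4⟩ := hR.decay 4 0
  obtain ⟨C6, hC6, h6⟩ := hR.decay 6 0
  have hc := hR.continuous
  have hi : Integrable (fun x => x ^ 4 * ker b x) := by
    refine (integrable_inv_one_add_sq.const_mul (C4 + C6)).mono'
      (Continuous.aestronglyMeasurable (by fun_prop)) (Filter.Eventually.of_forall fun x => ?_)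
    have e4 := h4 x
    have e6 := h6 x
    simp only [iteratedDeriv_zero] at e4 e6
    rw [norm_mul, norm_pow, Real.norm_eq_abs, Real.norm_eq_abs, ← div_eq_mul_inv,
      le_div_iff₀ (by positivity)]
    have e7 : |x| ^ 4 * |ker b x| * (1 + x ^ 2) = |x| ^ 4 * |ker b x| + |x| ^ 6 * |ker b x| := by
      rw [← sq_abs x]
      ring
    rw [e7]
    linarith
  set K := ∫ x, x ^ 4 * ker b x with hK
  have hK0 : 0 ≤ K := integral_nonneg fun x => mul_nonneg (by positivity) (ker_nonneg hb x)
  refine ⟨K + 1, by linarith, fun M hM => ?_⟩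
  have h1 := integral_add_compl (s := Icc (-M) M) measurableSet_Icc hR.integrable
  rw [ker_integral hb] at h1
  have h2 : ∫ x in (Icc (-M) M)ᶜ, ker b x ≤ K / M ^ 4 := by
    calc ∫ x in (Icc (-M) M)ᶜ, ker b x ≤ ∫ x in (Icc (-M) M)ᶜ, x ^ 4 * ker b x / M ^ 4 := by
          refine setIntegral_mono_on hR.integrable.integrableOn
            (hi.div_const _).integrableOn measurableSet_Icc.compl fun x hx => ?_
          have hx1 : M ≤ |x| := by
            by_contra hcon
            exact hx (abs_le.mp (not_le.mp hcon).le)
          rw [le_div_iff₀ (by positivity), mul_comm]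
          refine mul_le_mul_of_nonneg_right ?_ (ker_nonneg hb x)
          have e : x ^ 4 = |x| ^ 4 := by
            rw [← abs_pow, abs_of_nonneg (by positivity)]
          rw [e]
          gcongr
      _ ≤ ∫ x, x ^ 4 * ker b x / M ^ 4 := by
          refine setIntegral_le_integral (hi.div_const _) (Filter.Eventually.of_forall fun x => ?_)
          exact div_nonneg (mul_nonneg (by positivity) (ker_nonneg hb x)) (by positivity)
      _ = K / M ^ 4 := by rw [MeasureTheory.integral_div]
  have h3 : K / M ^ 4 ≤ (K + 1) / M ^ 4 := by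
    gcongr
    linarith
  linarith

/-- **Band-limited majorants** of the interval `[-X, X]`. -/
theorem exists_major {b : ℝ} (hb : 0 < b) : ∃ C : ℝ, 1 ≤ C ∧ ∀ M, C ≤ M → ∀ X, 0 ≤ X →
    X ≤ M ^ 4 → ∃ ψ : ℝ → ℝ, RS ψ ∧ (∀ x, 0 ≤ ψ x) ∧ (∀ x, |x| ≤ X → 1 ≤ ψ x) ∧
      (∀ u, b ≤ |u| → chat ψ u = 0) ∧ ∫ x, ψ x ≤ 2 * X + C * M ∧
      ∀ u, 0 < u → |chat ψ u| ≤ C / u := by
  obtain ⟨K, hK, htail⟩ := ker_tail hb
  have hKst := Kst_nonneg
  refine ⟨4 + 12 * K + 4 * Kst, by linarith, fun M hM X hX hXM => ?_⟩
  have hM1 : 1 ≤ M := by linarith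
  have hM0 : 0 < M := by linarith
  have hM4 : M ≤ M ^ 4 := le_self_pow₀ hM1 (by norm_num)
  have hKM : K / M ^ 4 ≤ 1 / 2 := by
    rw [div_le_iff₀ (by positivity)]
    linarith
  have hc1 := htail M hM0
  set c := ∫ x in Icc (-M) M, ker b x with hc
  have hc2 : 1 / 2 ≤ c := by linarith
  have hc3 : c ≤ 1 := by
    rw [hc, ← ker_integral hb]
    exact setIntegral_le_integral (ker_RS hb).integrable
      (Filter.Eventually.of_forall fun x => ker_nonneg hb x)
  have hc0 : 0 < c := by linarith
  have hpi := Real.pi_pos
  set A := X + M with hA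
  have hA0 : 0 ≤ A := by linarith
  set P : ℝ → ℝ := fun u => (2 * π * c)⁻¹ * (chat (cut A) u * chat (ker b) u) with hP
  have hPRS : RS P := RS_const_mul (RS_mul (cut_RS A).chat (ker_RS hb).chat) _
  have hval : ∀ x, chat P x = c⁻¹ * ∫ z, cut A (x - z) * ker b z := by
    intro x
    have h1 : chat P x = (2 * π * c)⁻¹ *
        chat (fun u => chat (cut A) u * chat (ker b) u) x := by
      unfold chat
      rw [← MeasureTheory.integral_const_mul]
      refine integral_congr_ae (Filter.Eventually.of_forall fun u => ?_)
      simp only [hP]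
      unfold chat
      ring
    rw [h1, chat_mul (cut_RS A) (ker_RS hb) (ker_compact hb)]
    field_simp
  have hchat : ∀ u, chat (chat P) u = c⁻¹ * (chat (cut A) u * chat (ker b) u) := by
    intro u
    rw [hPRS.chat_chat]
    simp only [hP]
    field_simp
  have hkc := (ker_RS hb).continuous
  have hcc := (cut_RS A).continuous
  have hconv : ∀ x, Integrable (fun z => cut A (x - z) * ker b z) := by
    intro x
    refine (ker_RS hb).integrable.mono' (Continuous.aestronglyMeasurable (by fun_prop))
      (Filter.Eventually.of_forall fun z => ?_)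
    rw [norm_mul, Real.norm_of_nonneg (cut_nonneg _ _), Real.norm_of_nonneg (ker_nonneg hb _)]
    exact mul_le_of_le_one_left (ker_nonneg hb _) (cut_le_one _ _)
  refine ⟨chat P, hPRS.chat, fun x => ?_, fun x hx => ?_, fun u hu => ?_, ?_, fun u hu => ?_⟩
  · rw [hval]
    exact mul_nonneg (inv_nonneg.2 hc0.le)
      (integral_nonneg fun z => mul_nonneg (cut_nonneg _ _) (ker_nonneg hb _))
  · rw [hval]
    have h1 : c ≤ ∫ z, cut A (x - z) * ker b z := by
      rw [hc, ← integral_indicator measurableSet_Icc]
      refine integral_mono ((ker_RS hb).integrable.indicator measurableSet_Icc) (hconv x)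
        fun z => ?_
      by_cases hz : z ∈ Icc (-M) M
      · have h2 : |x - z| ≤ A := by
          have h3 : |z| ≤ M := abs_le.mpr hz
          calc |x - z| ≤ |x| + |z| := abs_sub _ _
            _ ≤ A := by rw [hA]; linarith
        simp only
        rw [Set.indicator_of_mem hz, cut_one h2, one_mul]
      · simp only
        rw [Set.indicator_of_notMem hz]
        exact mul_nonneg (cut_nonneg _ _) (ker_nonneg hb _)
    rw [inv_mul_eq_div, le_div_iff₀ hc0, one_mul]
    exact h1
  · rw [hchat, chat_ker_zero hb hu, mul_zero, mul_zero]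
  · have h1 : ∫ x, chat P x = c⁻¹ * ∫ x, cut A x := by
      have h2 := hchat 0
      have h3 : ∀ f : ℝ → ℝ, chat f 0 = ∫ x, f x := by
        intro f
        unfold chat
        simp
      rw [h3, h3, h3, ker_integral hb, mul_one] at h2
      exact h2
    have h4 : c⁻¹ ≤ 1 + 2 * (K / M ^ 4) := by
      have h5 : c⁻¹ ≤ 1 + 2 * (1 - c) := by
        rw [inv_le_iff_one_le_mul₀ hc0]
        nlinarith
      linarith
    have h6 := cut_integral hA0
    have h7 : 0 ≤ ∫ x, cut A x := integral_nonneg fun x => cut_nonneg _ _
    have h8 : 0 ≤ K / M ^ 4 := by positivity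
    rw [h1]
    calc c⁻¹ * ∫ x, cut A x ≤ (1 + 2 * (K / M ^ 4)) * (2 * (A + 1)) := by gcongr
      _ = 2 * X + 2 * M + 2 + 4 * (K * ((X + M + 1) / M ^ 4)) := by
          rw [hA]; ring
      _ ≤ 2 * X + 2 * M + 2 + 4 * (K * 3) := by
          have h9 : (X + M + 1) / M ^ 4 ≤ 3 := by
            rw [div_le_iff₀ (by positivity)]
            linarith
          gcongr
      _ ≤ 2 * X + (4 + 12 * K + 4 * Kst) * M := by nlinarith
  · rw [hchat, abs_mul, abs_mul, abs_of_pos (inv_pos.2 hc0)]
    have h1 := chat_cut (A := A) hu
    have h2 := abs_chat_ker_le hb u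
    have h3 : c⁻¹ ≤ 2 := by
      rw [inv_le_comm₀ hc0 (by norm_num)]
      linarith
    have h4 : 0 ≤ 2 * Kst / u := by positivity
    calc c⁻¹ * (|chat (cut A) u| * |chat (ker b) u|) ≤ 2 * (2 * Kst / u * 1) := by gcongr
      _ = 4 * Kst / u := by ring
      _ ≤ (4 + 12 * K + 4 * Kst) / u := by
          gcongr
          linarith

end Pool.Agent.PF
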