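import Pool.Agent.Lib.ANT.MertensE

/-!
# Prime powers in the explicit formula, deterministically
-/

namespace Pool.Agent.PF

open Finset ArithmeticFunction

namespace PPwAux

/-- Mertens' second theorem, upper bound. -/
lemma mertens_two : ∃ C : ℝ, 0 < C ∧ ∀ y : ℕ, 2 ≤ y → ∀ z : ℕ, y ≤ z →
    ∑ n ∈ Finset.Ioc y z, vonMangoldt n / n / Real.log n ≤
      Real.log (Real.log z / Real.log y) + C := by
  obtain ⟨C, hC, hM⟩ := Pool.Agent.ANTE.mertens_one
  have hl2 : (0:ℝ) < Real.log 2 := Real.log_pos (by norm_num)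
  refine ⟨1 + 4 * C / Real.log 2, by positivity, fun y hy => ?_⟩
  set S : ℕ → ℝ := fun N => ∑ n ∈ Finset.Icc 1 N, vonMangoldt n / n with hS
  have hlogpos : ∀ n : ℕ, 2 ≤ n → Real.log 2 ≤ Real.log n := fun n hn =>
    Real.log_le_log (by norm_num) (by exact_mod_cast hn)
  have hly : 0 < Real.log y := hl2.trans_le (hlogpos y hy)
  have hSd : ∀ z : ℕ, y ≤ z → S z - S y ≤ Real.log z - Real.log y + 2 * C := by
    intro z hz
    have h1 := abs_le.mp (hM z (by omega))
    have h2 := abs_le.mp (hM y (by omega))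
    change S z - S y ≤ _
    have h3 : S z - Real.log z ≤ C := h1.2
    have h4 : -C ≤ S y - Real.log y := h2.1
    linarith
  have key : ∀ z : ℕ, y ≤ z →
      ∑ n ∈ Finset.Ioc y z, vonMangoldt n / n / Real.log n -
        (S z - S y) / Real.log z ≤
      (Real.log (Real.log z) - Real.log (Real.log y)) +
        2 * C * (1 / Real.log y - 1 / Real.log z) := by
    intro z hz
    induction z, hz using Nat.le_induction with
    | base => simp
    | succ z hz ih =>
      have hz2 : 2 ≤ z := by omega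
      have hlz : 0 < Real.log z := hl2.trans_le (hlogpos z hz2)
      have hlz1 : 0 < Real.log ((z + 1 : ℕ) : ℝ) := hl2.trans_le (hlogpos (z+1) (by omega))
      have hmono : Real.log z ≤ Real.log ((z + 1 : ℕ) : ℝ) :=
        Real.log_le_log (by exact_mod_cast (by omega : 0 < z)) (by push_cast; linarith)
      have hstep : S (z + 1) = S z + vonMangoldt (z + 1) / ((z + 1 : ℕ) : ℝ) := by
        simp only [hS]
        rw [Finset.sum_Icc_succ_top (by omega)]
      rw [Finset.sum_Ioc_succ_top (by omega), hstep]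
      have hinv : 1 / Real.log ((z + 1 : ℕ) : ℝ) ≤ 1 / Real.log z :=
        one_div_le_one_div_of_le hlz hmono
      have e1 : ∑ n ∈ Finset.Ioc y z, vonMangoldt n / n / Real.log n +
          vonMangoldt (z + 1) / ((z + 1 : ℕ) : ℝ) / Real.log ((z + 1 : ℕ) : ℝ) -
          (S z + vonMangoldt (z + 1) / ((z + 1 : ℕ) : ℝ) - S y) /
            Real.log ((z + 1 : ℕ) : ℝ) =
          (∑ n ∈ Finset.Ioc y z, vonMangoldt n / n / Real.log n -
            (S z - S y) / Real.log z) +
          (S z - S y) * (1 / Real.log z - 1 / Real.log ((z + 1 : ℕ) : ℝ)) := by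
        ring
      rw [e1]
      have hd : (S z - S y) * (1 / Real.log z - 1 / Real.log ((z + 1 : ℕ) : ℝ)) ≤
          (Real.log z + 2 * C) * (1 / Real.log z - 1 / Real.log ((z + 1 : ℕ) : ℝ)) := by
        refine mul_le_mul_of_nonneg_right ?_ (by linarith)
        have := hSd z hz
        linarith
      have hll : Real.log z * (1 / Real.log z - 1 / Real.log ((z + 1 : ℕ) : ℝ)) ≤
          Real.log (Real.log ((z + 1 : ℕ) : ℝ)) - Real.log (Real.log z) := by
        have h1 : Real.log (Real.log z / Real.log ((z + 1 : ℕ) : ℝ)) ≤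
            Real.log z / Real.log ((z + 1 : ℕ) : ℝ) - 1 :=
          Real.log_le_sub_one_of_pos (by positivity)
        rw [Real.log_div hlz.ne' hlz1.ne'] at h1
        have h2 : Real.log z * (1 / Real.log z - 1 / Real.log ((z + 1 : ℕ) : ℝ)) =
            1 - Real.log z / Real.log ((z + 1 : ℕ) : ℝ) := by
          field_simp
        linarith
      nlinarith [ih, hd, hll]
  intro z hz
  have hlz : 0 < Real.log z := hl2.trans_le (hlogpos z (by omega))
  have h1 := key z hz
  have h2 : (S z - S y) / Real.log z ≤ 1 + 2 * C / Real.log z := by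
    rw [div_le_iff₀ hlz]
    have := hSd z hz
    have e : (1 + 2 * C / Real.log z) * Real.log z = Real.log z + 2 * C := by
      field_simp
    rw [e]
    linarith
  have h3 : 2 * C / Real.log z ≤ 2 * C / Real.log 2 :=
    div_le_div_of_nonneg_left (by positivity) hl2 (hlogpos z (by omega))
  have h4 : 2 * C * (1 / Real.log y - 1 / Real.log z) ≤ 2 * C / Real.log 2 := by
    have h5 : 1 / Real.log y ≤ 1 / Real.log 2 :=
      one_div_le_one_div_of_le hl2 (hlogpos y hy)
    have h6 : 0 ≤ 1 / Real.log z := by positivity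
    calc 2 * C * (1 / Real.log y - 1 / Real.log z) ≤ 2 * C * (1 / Real.log 2) := by
          refine mul_le_mul_of_nonneg_left (by linarith) (by positivity)
      _ = _ := by ring
  rw [Real.log_div hlz.ne' hly.ne']
  have h7 : 4 * C / Real.log 2 = 2 * C / Real.log 2 + 2 * C / Real.log 2 := by ring
  linarith

lemma half_lt_log_two : (1:ℝ) / 2 < Real.log 2 := by
  have := Real.log_two_gt_d9; linarith

end PPwAux

open PPwAux

/-- The squares of primes. -/
theorem prime_sq_le : ∃ C : ℝ, 0 < C ∧ ∀ M B D : ℝ, 0 < B → 1 ≤ D → B ≤ M * D → ∀ g : ℝ → ℝ,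
    (∀ u, 0 < u → |g u| ≤ M) → (∀ u, 0 < u → |g u| ≤ B / u) →
    ∑ p ∈ (Icc 1 ⌊Real.exp (D / 2)⌋₊).filter Nat.Prime, Real.log p / p * |g (2 * Real.log p)| ≤
      C * B * (1 + Real.log (M * D / B)) := by
  obtain ⟨C1, hC1, h1⟩ := Pool.Agent.ANTE.mertens_one
  obtain ⟨C2, hC2, h2⟩ := mertens_two
  have hl2 := half_lt_log_two
  refine ⟨2 + C1 + C2, by positivity, fun M B D hB hD hMD g hg1 hg2 => ?_⟩
  have hM : 0 < M := by
    by_contra hcon
    push Not at hcon
    nlinarith
  set w : ℝ := B / M with hw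
  have hw0 : 0 < w := by positivity
  have hMw : M * w = B := by rw [hw]; field_simp
  set y0 : ℕ := ⌊Real.exp (w / 2)⌋₊ with hy0
  set y : ℕ := max 2 y0 with hy
  set z : ℕ := ⌊Real.exp (D / 2)⌋₊ with hz
  have hy2 : 2 ≤ y := le_max_left _ _
  have hyp : (0:ℝ) < y := by exact_mod_cast (by omega : 0 < y)
  have hy0l : (y0:ℝ) ≤ Real.exp (w / 2) := Nat.floor_le (Real.exp_pos _).le
  have hzl : (z:ℝ) ≤ Real.exp (D / 2) := Nat.floor_le (Real.exp_pos _).le
  have hlam : 0 ≤ Real.log (M * D / B) := by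
    apply Real.log_nonneg
    rw [le_div_iff₀ hB, one_mul]
    exact hMD
  -- log y ≥ w / 4
  have hylog : w / 4 ≤ Real.log y := by
    have h3 : w / 2 < Real.log ((y0 : ℝ) + 1) := by
      rw [Real.lt_log_iff_exp_lt (by positivity)]
      exact Nat.lt_floor_add_one _
    have h4 : Real.log ((y0 : ℝ) + 1) ≤ Real.log ((y : ℝ) ^ 2) := by
      apply Real.log_le_log (by positivity)
      have h5 : (y0 : ℝ) ≤ y := by exact_mod_cast le_max_right _ _
      have h6 : (2:ℝ) ≤ y := by exact_mod_cast hy2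
      nlinarith
    rw [Real.log_pow] at h4
    push_cast at h4
    linarith
  -- pointwise terms
  have hterm : ∀ p ∈ (Icc 1 z).filter Nat.Prime, Real.log p / p * |g (2 * Real.log p)| ≤
      (if p ≤ y0 then M * (vonMangoldt p / p) else 0) + (if p = 2 then B / 2 else 0) +
        (if y < p then B / 2 * (vonMangoldt p / p / Real.log p) else 0) := by
    intro p hp
    rw [mem_filter, mem_Icc] at hp
    have hpp := hp.2
    have hp0 : (0:ℝ) < p := by exact_mod_cast hpp.pos
    have hp2 : (2:ℝ) ≤ p := by exact_mod_cast hpp.two_le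
    have hlp : 0 < Real.log p := Real.log_pos (by linarith)
    have hL : vonMangoldt p = Real.log p := vonMangoldt_apply_prime hpp
    rw [hL]
    have hn1 : 0 ≤ (if p ≤ y0 then M * (Real.log p / p) else 0) := by
      split_ifs <;> positivity
    have hn2 : 0 ≤ (if p = 2 then B / 2 else 0) := by
      split_ifs <;> positivity
    have hn3 : 0 ≤ (if y < p then B / 2 * (Real.log p / p / Real.log p) else 0) := by
      split_ifs <;> positivity
    have hg : Real.log p / p * |g (2 * Real.log p)| ≤ B / 2 * (Real.log p / p / Real.log p) := by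
      have h3 := hg2 (2 * Real.log p) (by positivity)
      calc Real.log p / p * |g (2 * Real.log p)| ≤ Real.log p / p * (B / (2 * Real.log p)) := by
            gcongr
        _ = _ := by field_simp
    by_cases c1 : p ≤ y0
    · have h3 := hg1 (2 * Real.log p) (by positivity)
      rw [if_pos c1] at hn1 ⊢
      calc Real.log p / p * |g (2 * Real.log p)| ≤ Real.log p / p * M := by gcongr
        _ = M * (Real.log p / p) := by ring
        _ ≤ _ := by linarith
    · by_cases c2 : p = 2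
      · rw [if_pos c2] at hn2 ⊢
        have h4 : B / 2 * (Real.log p / p / Real.log p) ≤ B / 2 := by
          have h5 : Real.log p / p / Real.log p = 1 / p := by field_simp
          rw [h5]
          have h6 : 1 / (p:ℝ) ≤ 1 := by
            rw [div_le_one hp0]; linarith
          nlinarith
        linarith
      · have c3 : y < p := by
          have := hpp.two_le
          rcases le_total 2 y0 with h | h
          · have : y = y0 := max_eq_right h
            omega
          · have : y = 2 := max_eq_left h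
            omega
        rw [if_pos c3] at hn3 ⊢
        linarith
  refine (sum_le_sum hterm).trans ?_
  rw [sum_add_distrib, sum_add_distrib]
  -- part 1
  have part1 : ∑ p ∈ (Icc 1 z).filter Nat.Prime, (if p ≤ y0 then M * (vonMangoldt p / p) else 0) ≤
      (1 / 2 + C1) * B := by
    rcases Nat.lt_or_ge y0 2 with h | h
    · have : ∑ p ∈ (Icc 1 z).filter Nat.Prime,
          (if p ≤ y0 then M * (vonMangoldt p / p) else 0) = 0 := by
        refine sum_eq_zero fun p hp => ?_
        rw [mem_filter] at hp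
        rw [if_neg]
        have := hp.2.two_le
        omega
      rw [this]
      positivity
    · have h3 : ∑ p ∈ (Icc 1 z).filter Nat.Prime,
          (if p ≤ y0 then M * (vonMangoldt p / p) else 0) ≤
          M * ∑ n ∈ Icc 1 y0, vonMangoldt n / n := by
        rw [mul_sum, ← sum_filter]
        refine sum_le_sum_of_subset_of_nonneg ?_ fun n _ _ =>
          mul_nonneg hM.le (div_nonneg vonMangoldt_nonneg (Nat.cast_nonneg n))
        intro p hp
        rw [mem_filter, mem_filter, mem_Icc] at hp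
        rw [mem_Icc]
        exact ⟨hp.1.1.1, hp.2⟩
      have h4 := (abs_le.mp (h1 y0 (by omega))).2
      have hy0p : (0:ℝ) < y0 := by exact_mod_cast (by omega : 0 < y0)
      have h5 : Real.log y0 ≤ w / 2 := by
        rw [Real.log_le_iff_le_exp hy0p]; exact hy0l
      have h6 : Real.log 2 ≤ w / 2 := by
        refine le_trans (Real.log_le_log (by norm_num) ?_) h5
        exact_mod_cast h
      have h7 : M ≤ B := by rw [← hMw]; nlinarith
      calc _ ≤ M * ∑ n ∈ Icc 1 y0, vonMangoldt n / n := h3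
        _ ≤ M * (w / 2 + C1) := by gcongr; linarith
        _ = B / 2 + M * C1 := by rw [← hMw]; ring
        _ ≤ B / 2 + B * C1 := by gcongr
        _ = _ := by ring
  -- part 2
  have part2 : ∑ p ∈ (Icc 1 z).filter Nat.Prime, (if p = 2 then B / 2 else 0) ≤ B / 2 := by
    rw [sum_ite_eq']
    split_ifs
    · exact le_rfl
    · positivity
  -- part 3
  have part3 : ∑ p ∈ (Icc 1 z).filter Nat.Prime,
      (if y < p then B / 2 * (vonMangoldt p / p / Real.log p) else 0) ≤
      B / 2 * (1 + Real.log (M * D / B) + C2) := by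
    rcases Nat.lt_or_ge z y with h | h
    · have : ∑ p ∈ (Icc 1 z).filter Nat.Prime,
          (if y < p then B / 2 * (vonMangoldt p / p / Real.log p) else 0) = 0 := by
        refine sum_eq_zero fun p hp => ?_
        rw [mem_filter, mem_Icc] at hp
        rw [if_neg]
        omega
      rw [this]
      positivity
    · have h3 : ∑ p ∈ (Icc 1 z).filter Nat.Prime,
          (if y < p then B / 2 * (vonMangoldt p / p / Real.log p) else 0) ≤
          B / 2 * ∑ n ∈ Ioc y z, vonMangoldt n / n / Real.log n := by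
        rw [mul_sum, ← sum_filter]
        refine sum_le_sum_of_subset_of_nonneg ?_ fun n _ _ =>
          mul_nonneg (by positivity) (div_nonneg (div_nonneg vonMangoldt_nonneg
            (Nat.cast_nonneg n)) (Real.log_natCast_nonneg n))
        intro p hp
        rw [mem_filter, mem_filter, mem_Icc] at hp
        rw [mem_Ioc]
        exact ⟨hp.2, hp.1.1.2⟩
      have h4 := h2 y hy2 z h
      have hzp : (0:ℝ) < z := by exact_mod_cast (by omega : 0 < z)
      have hz2 : (2:ℝ) ≤ z := by exact_mod_cast (by omega : 2 ≤ z)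
      have h5 : Real.log z ≤ D / 2 := by
        rw [Real.log_le_iff_le_exp hzp]; exact hzl
      have h5' : 0 < Real.log z := Real.log_pos (by linarith)
      have h6 : Real.log (Real.log z / Real.log y) ≤ Real.log 2 + Real.log (M * D / B) := by
        rw [← Real.log_mul (by norm_num) (by positivity)]
        apply Real.log_le_log
        · exact div_pos h5' (lt_of_lt_of_le (by positivity) hylog)
        · calc Real.log z / Real.log y ≤ (D / 2) / (w / 4) := by gcongr
            _ = 2 * (M * D / B) := by rw [hw]; field_simp; ring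
      have h7 : Real.log 2 ≤ 1 := by
        have := Real.log_two_lt_d9; linarith
      refine h3.trans ?_
      have : 0 ≤ B / 2 := by positivity
      refine mul_le_mul_of_nonneg_left ?_ this
      linarith
  have : C1 * B * Real.log (M * D / B) ≥ 0 := by positivity
  have : C2 * B * Real.log (M * D / B) ≥ 0 := by positivity
  have : B * Real.log (M * D / B) ≥ 0 := by positivity
  have : C2 * B > 0 := by positivity
  nlinarith

namespace PPwAux

lemma geo {q : ℝ} (h0 : 0 ≤ q) (h1 : q ≤ 3 / 4) (K : ℕ) : ∑ k ∈ Icc 3 K, q ^ k ≤ 4 * q ^ 3 := by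
  have key : ∀ n : ℕ, (∑ k ∈ Icc 3 (n + 2), q ^ k) * (1 - q) = q ^ 3 - q ^ (n + 3) := by
    intro n
    induction n with
    | zero => simp
    | succ n ih =>
      rw [show n + 1 + 2 = (n + 2) + 1 by ring, sum_Icc_succ_top (by omega), add_mul, ih]
      ring
  rcases Nat.lt_or_ge K 2 with h | h
  · rw [Icc_eq_empty (by omega), sum_empty]
    positivity
  · obtain ⟨n, rfl⟩ : ∃ n, K = n + 2 := ⟨K - 2, by omega⟩
    have h2 := key n
    have h3 : 0 ≤ q ^ (n + 3) := by positivity
    have h4 : 0 ≤ ∑ k ∈ Icc 3 (n + 2), q ^ k := sum_nonneg fun k _ => by positivity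
    nlinarith

/-- The cubes and the higher powers. -/
lemma cubes_le : ∃ C : ℝ, 0 < C ∧ ∀ N K : ℕ,
    ∑ p ∈ (Icc 1 N).filter Nat.Prime, ∑ k ∈ Icc 3 K, Real.log p * (1 / Real.sqrt p) ^ k ≤ C := by
  have hsum : Summable (fun n : ℕ => (n : ℝ) ^ (-(5 / 4) : ℝ)) :=
    Real.summable_nat_rpow.mpr (by norm_num)
  have hnn : ∀ n : ℕ, 0 ≤ (n : ℝ) ^ (-(5 / 4) : ℝ) := fun n =>
    Real.rpow_nonneg (Nat.cast_nonneg n) _
  refine ⟨16 * (∑' n : ℕ, (n : ℝ) ^ (-(5 / 4) : ℝ)) + 1, ?_, fun N K => ?_⟩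
  · have : 0 ≤ ∑' n : ℕ, (n : ℝ) ^ (-(5 / 4) : ℝ) := tsum_nonneg hnn
    positivity
  have h1 : ∀ p ∈ (Icc 1 N).filter Nat.Prime,
      ∑ k ∈ Icc 3 K, Real.log p * (1 / Real.sqrt p) ^ k ≤ 16 * (p : ℝ) ^ (-(5 / 4) : ℝ) := by
    intro p hp
    rw [mem_filter] at hp
    have hp2 : (2:ℝ) ≤ p := by exact_mod_cast hp.2.two_le
    have hp0 : (0:ℝ) < p := by linarith
    have hsq : 4 / 3 ≤ Real.sqrt p := by
      rw [Real.le_sqrt (by norm_num) hp0.le]
      linarith
    have hq0 : 0 ≤ 1 / Real.sqrt p := by positivity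
    have hq1 : 1 / Real.sqrt p ≤ 3 / 4 := by
      rw [div_le_iff₀ (by linarith)]
      linarith
    rw [← mul_sum]
    have h2 := geo hq0 hq1 K
    have h3 : Real.log p ≤ 4 * (p : ℝ) ^ (1 / 4 : ℝ) := by
      have := Real.log_le_rpow_div hp0.le (by norm_num : (0:ℝ) < 1 / 4)
      linarith
    have h4 : (1 / Real.sqrt p) ^ 3 = (p : ℝ) ^ (-(3 / 2) : ℝ) := by
      rw [one_div, inv_pow, Real.sqrt_eq_rpow, ← Real.rpow_natCast, ← Real.rpow_mul hp0.le,
        ← Real.rpow_neg hp0.le]
      norm_num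
    have hlp : 0 ≤ Real.log p := Real.log_natCast_nonneg p
    calc Real.log p * ∑ k ∈ Icc 3 K, (1 / Real.sqrt p) ^ k ≤
        (4 * (p : ℝ) ^ (1 / 4 : ℝ)) * (4 * (1 / Real.sqrt p) ^ 3) := by gcongr
      _ = 16 * ((p : ℝ) ^ (1 / 4 : ℝ) * (p : ℝ) ^ (-(3 / 2) : ℝ)) := by rw [h4]; ring
      _ = _ := by
        rw [← Real.rpow_add hp0]
        norm_num
  refine (sum_le_sum h1).trans ?_
  rw [← mul_sum]
  have h2 : ∑ p ∈ (Icc 1 N).filter Nat.Prime, (p : ℝ) ^ (-(5 / 4) : ℝ) ≤
      ∑' n : ℕ, (n : ℝ) ^ (-(5 / 4) : ℝ) := hsum.sum_le_tsum _ fun n _ => hnn n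
  linarith

/-- Prime powers as pairs. -/
lemma nonprime_le (F : ℕ → ℝ) (hF : ∀ n, 0 ≤ F n) (hF0 : ∀ n, vonMangoldt n = 0 → F n = 0)
    (N : ℕ) : ∑ n ∈ (Icc 1 N).filter (fun n => ¬ n.Prime), F n ≤
      ∑ p ∈ (Icc 1 N).filter (fun p => p.Prime ∧ p ^ 2 ≤ N), F (p ^ 2) +
        ∑ p ∈ (Icc 1 N).filter Nat.Prime, ∑ k ∈ Icc 3 N, F (p ^ k) := by
  classical
  set A : Finset ℕ := ((Icc 1 N).filter (fun p => p.Prime ∧ p ^ 2 ≤ N)).image (fun p => p ^ 2)
  set B : Finset ℕ := (((Icc 1 N).filter Nat.Prime) ×ˢ (Icc 3 N)).image (fun x => x.1 ^ x.2)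
  have h1 : ∑ n ∈ (Icc 1 N).filter (fun n => ¬ n.Prime), F n ≤ ∑ n ∈ A ∪ B, F n := by
    rw [← sum_filter_ne_zero (s := (Icc 1 N).filter (fun n => ¬ n.Prime))]
    refine sum_le_sum_of_subset_of_nonneg ?_ fun n _ _ => hF n
    intro n hn
    rw [mem_filter, mem_filter, mem_Icc] at hn
    obtain ⟨⟨hn1, hn2⟩, hn3⟩ := hn
    have hL0 : vonMangoldt n ≠ 0 := fun h => hn3 (hF0 n h)
    rw [vonMangoldt_ne_zero_iff, isPrimePow_nat_iff] at hL0
    obtain ⟨p, j, hp, hj, rfl⟩ := hL0
    have hj1 : j ≠ 1 := fun h => hn2 (by rw [h, pow_one]; exact hp)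
    have hpN : p ≤ N := (Nat.le_self_pow hj.ne' p).trans hn1.2
    have hp1 := hp.one_lt
    have hjN : j ≤ N := (Nat.lt_pow_self hp1).le.trans hn1.2
    rw [mem_union]
    rcases Nat.lt_or_ge j 3 with h | h
    · left
      have hj2 : j = 2 := by omega
      subst hj2
      exact mem_image.mpr ⟨p, mem_filter.mpr ⟨mem_Icc.mpr ⟨by omega, hpN⟩, hp, hn1.2⟩, rfl⟩
    · right
      exact mem_image.mpr ⟨(p, j), mem_product.mpr ⟨mem_filter.mpr
        ⟨mem_Icc.mpr ⟨by omega, hpN⟩, hp⟩, mem_Icc.mpr ⟨h, hjN⟩⟩, rfl⟩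
  have h2 : ∑ n ∈ A ∪ B, F n ≤ ∑ n ∈ A, F n + ∑ n ∈ B, F n := by
    rw [← sum_union_inter]
    have : 0 ≤ ∑ n ∈ A ∩ B, F n := sum_nonneg fun n _ => hF n
    linarith
  have h3 : ∑ n ∈ A, F n ≤ ∑ p ∈ (Icc 1 N).filter (fun p => p.Prime ∧ p ^ 2 ≤ N), F (p ^ 2) :=
    sum_image_le_of_nonneg fun u _ => hF u
  have h4 : ∑ n ∈ B, F n ≤ ∑ x ∈ ((Icc 1 N).filter Nat.Prime) ×ˢ (Icc 3 N), F (x.1 ^ x.2) :=
    sum_image_le_of_nonneg fun u _ => hF u
  rw [sum_product] at h4
  linarith

end PPwAux

open PPwAux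

/-- All proper prime powers. -/
theorem ppow_le : ∃ C : ℝ, 0 < C ∧ ∀ M B D : ℝ, 0 < B → 1 ≤ D → B ≤ M * D → ∀ g : ℝ → ℝ,
    (∀ u, 0 < u → |g u| ≤ M) → (∀ u, 0 < u → |g u| ≤ B / u) → (∀ u, D < u → g u = 0) →
    ∀ N : ℕ, ∑ n ∈ (Icc 1 N).filter (fun n => ¬ n.Prime),
      vonMangoldt n / Real.sqrt n * |g (Real.log n)| ≤
        C * (B * (1 + Real.log (M * D / B)) + M) := by
  obtain ⟨C1, hC1, h1⟩ := prime_sq_le
  obtain ⟨C2, hC2, h2⟩ := cubes_le
  refine ⟨C1 + C2, by positivity, fun M B D hB hD hMD g hg1 hg2 hg3 N => ?_⟩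
  have hM : 0 < M := by
    by_contra hcon
    push Not at hcon
    nlinarith
  have hlam : 0 ≤ Real.log (M * D / B) := by
    apply Real.log_nonneg
    rw [le_div_iff₀ hB, one_mul]
    exact hMD
  refine (nonprime_le (fun n => vonMangoldt n / Real.sqrt n * |g (Real.log n)|)
    (fun n => mul_nonneg (div_nonneg vonMangoldt_nonneg (Real.sqrt_nonneg _)) (abs_nonneg _))
    (fun n hn => by rw [hn]; simp) N).trans ?_
  -- squares
  have hsq : ∑ p ∈ (Icc 1 N).filter (fun p => p.Prime ∧ p ^ 2 ≤ N),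
      vonMangoldt (p ^ 2) / Real.sqrt ((p ^ 2 : ℕ) : ℝ) * |g (Real.log ((p ^ 2 : ℕ) : ℝ))| ≤
      C1 * B * (1 + Real.log (M * D / B)) := by
    refine le_trans ?_ (h1 M B D hB hD hMD g hg1 hg2)
    rw [← sum_filter_ne_zero]
    refine (sum_le_sum (g := fun p : ℕ => Real.log p / p * |g (2 * Real.log p)|)
      fun p hp => ?_).trans (sum_le_sum_of_subset_of_nonneg ?_ fun p hp _ => ?_)
    · rw [mem_filter, mem_filter] at hp
      have hpp := hp.1.2.1
      have hp0 : (0:ℝ) < p := by exact_mod_cast hpp.pos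
      rw [vonMangoldt_apply_pow two_ne_zero, vonMangoldt_apply_prime hpp]
      push_cast
      rw [Real.sqrt_sq hp0.le, Real.log_pow]
      push_cast
      exact le_rfl
    · intro p hp
      rw [mem_filter, mem_filter, mem_Icc] at hp
      have hpp := hp.1.2.1
      have hp0 : (0:ℝ) < p := by exact_mod_cast hpp.pos
      rw [mem_filter, mem_Icc]
      refine ⟨⟨hp.1.1.1, ?_⟩, hpp⟩
      apply Nat.le_floor
      rw [← Real.log_le_iff_le_exp hp0]
      by_contra hcon
      push Not at hcon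
      apply hp.2
      rw [hg3 _ (by push_cast; rw [Real.log_pow]; push_cast; linarith)]
      simp
    · exact mul_nonneg (div_nonneg (Real.log_natCast_nonneg p) (Nat.cast_nonneg p))
        (abs_nonneg _)
  -- higher powers
  have hcb : ∑ p ∈ (Icc 1 N).filter Nat.Prime, ∑ k ∈ Icc 3 N,
      vonMangoldt (p ^ k) / Real.sqrt ((p ^ k : ℕ) : ℝ) * |g (Real.log ((p ^ k : ℕ) : ℝ))| ≤
      C2 * M := by
    refine le_trans ?_ (mul_le_mul_of_nonneg_right (h2 N N) hM.le)
    rw [sum_mul]
    refine sum_le_sum fun p hp => ?_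
    rw [sum_mul]
    refine sum_le_sum fun k hk => ?_
    rw [mem_filter] at hp
    rw [mem_Icc] at hk
    have hpp := hp.2
    have hp2 : (2:ℝ) ≤ p := by exact_mod_cast hpp.two_le
    have hp0 : (0:ℝ) < p := by linarith
    have hlp : 0 < Real.log p := Real.log_pos (by linarith)
    rw [vonMangoldt_apply_pow (by omega), vonMangoldt_apply_prime hpp]
    have e1 : Real.sqrt ((p ^ k : ℕ) : ℝ) = Real.sqrt p ^ k := by
      push_cast
      have e0 : (p : ℝ) ^ k = Real.sqrt p ^ k * Real.sqrt p ^ k := by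
        rw [← mul_pow, Real.mul_self_sqrt hp0.le]
      rw [e0, Real.sqrt_mul_self (by positivity)]
    have e2 : |g (Real.log ((p ^ k : ℕ) : ℝ))| ≤ M := by
      apply hg1
      push_cast
      rw [Real.log_pow]
      have : (0:ℝ) < k := by exact_mod_cast (by omega : 0 < k)
      positivity
    have hs : 0 < Real.sqrt p := Real.sqrt_pos.mpr hp0
    rw [e1]
    calc Real.log p / Real.sqrt p ^ k * |g (Real.log ((p ^ k : ℕ) : ℝ))| ≤
        Real.log p / Real.sqrt p ^ k * M := by gcongr
      _ = Real.log p * (1 / Real.sqrt p) ^ k * M := by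
        rw [one_div, inv_pow]; ring
  have h5 : 0 ≤ C2 * B * (1 + Real.log (M * D / B)) := by positivity
  have h6 : 0 ≤ C1 * M := by positivity
  have h7 : (C1 + C2) * (B * (1 + Real.log (M * D / B)) + M) =
      C1 * B * (1 + Real.log (M * D / B)) + C2 * B * (1 + Real.log (M * D / B)) +
        C1 * M + C2 * M := by ring
  rw [h7]
  linarith [hsq, hcb]

end Pool.Agent.PF
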