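import Mathlib

/-! Smooth profiles. -/

namespace Pool.Agent.PF

open Set MeasureTheory intervalIntegral

/-- Approximation of a continuous density by a smooth one which is zero near the ends. -/
theorem exists_smooth_density {f : ℝ → ℝ} (hf : ContinuousOn f (Icc 0 1)) {E : ℝ}
    (hE : ∫ x in (0:ℝ)..1, f x ^ 2 < E) {ε : ℝ} (hε : 0 < ε) :
    ∃ (g : ℝ → ℝ) (δ : ℝ), 0 < δ ∧ δ < 1 / 2 ∧ (∀ n : ℕ∞, ContDiff ℝ n g) ∧
      (∀ x, x ≤ δ → g x = 0) ∧ (∀ x, 1 - δ ≤ x → g x = 0) ∧ ∫ x in (0:ℝ)..1, g x ^ 2 < E ∧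
      ∀ x ∈ Icc (0:ℝ) 1, |(∫ t in (0:ℝ)..x, f t) - ∫ t in (0:ℝ)..x, g t| < ε := by
  obtain ⟨M, hM⟩ := isCompact_Icc.exists_bound_of_continuousOn hf
  have hM0 : 0 ≤ M := (norm_nonneg _).trans (hM 0 ⟨le_rfl, zero_le_one⟩)
  obtain ⟨E', hE', hE''⟩ := exists_between hE
  -- the constants
  obtain ⟨η, hη, hη1, hηE, hηε⟩ : ∃ η : ℝ, 0 < η ∧ η ≤ 1 ∧ η * (2 * M + 1) ≤ E - E' ∧
      η ≤ ε / 4 := by
    refine ⟨min (min 1 ((E - E') / (2 * M + 1))) (ε / 4), ?_, ?_, ?_, min_le_right _ _⟩
    · have : 0 < (E - E') / (2 * M + 1) := div_pos (by linarith) (by linarith)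
      exact lt_min (lt_min one_pos this) (by linarith)
    · exact (min_le_left _ _).trans (min_le_left _ _)
    · have h1 : min (min 1 ((E - E') / (2 * M + 1))) (ε / 4) ≤ (E - E') / (2 * M + 1) :=
        (min_le_left _ _).trans (min_le_right _ _)
      rwa [le_div_iff₀ (by linarith)] at h1
  obtain ⟨p, hp⟩ := exists_polynomial_near_of_continuousOn 0 1 f hf η hη
  have hpM : ∀ x ∈ Icc (0:ℝ) 1, |p.eval x| ≤ M + 1 := by
    intro x hx
    have h1 := hp x hx
    have h2 := hM x hx
    rw [Real.norm_eq_abs] at h2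
    rw [abs_lt] at h1
    rw [abs_le] at h2 ⊢
    constructor <;> linarith [h1.1, h1.2, h2.1, h2.2]
  obtain ⟨δ, hδ, hδ1, hδε⟩ : ∃ δ : ℝ, 0 < δ ∧ δ < 1 / 4 ∧ δ * (4 * (M + 1)) ≤ ε / 4 := by
    refine ⟨min (1 / 8) (ε / 4 / (4 * (M + 1))), ?_, ?_, ?_⟩
    · have : 0 < ε / 4 / (4 * (M + 1)) := div_pos (by linarith) (by linarith)
      exact lt_min (by norm_num) this
    · exact (min_le_left _ _).trans_lt (by norm_num)
    · have h1 : min (1 / 8) (ε / 4 / (4 * (M + 1))) ≤ ε / 4 / (4 * (M + 1)) := min_le_right _ _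
      rwa [le_div_iff₀ (by linarith)] at h1
  -- the cutoff
  let χ : ℝ → ℝ := fun x => Real.smoothTransition ((x - δ) / δ) *
    Real.smoothTransition ((1 - δ - x) / δ)
  have hχs : ∀ n : ℕ∞, ContDiff ℝ n χ := by
    intro n
    refine ContDiff.mul ?_ ?_
    · exact Real.smoothTransition.contDiff.comp ((contDiff_id.sub contDiff_const).div_const _)
    · exact Real.smoothTransition.contDiff.comp ((contDiff_const.sub contDiff_id).div_const _)
  have hχ0 : ∀ x, 0 ≤ χ x := fun x =>
    mul_nonneg (Real.smoothTransition.nonneg _) (Real.smoothTransition.nonneg _)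
  have hχ1 : ∀ x, χ x ≤ 1 := fun x =>
    mul_le_one₀ (Real.smoothTransition.le_one _) (Real.smoothTransition.nonneg _)
      (Real.smoothTransition.le_one _)
  have hχl : ∀ x, x ≤ δ → χ x = 0 := by
    intro x hx
    show _ * _ = _
    rw [Real.smoothTransition.zero_of_nonpos (div_nonpos_of_nonpos_of_nonneg (by linarith) hδ.le),
      zero_mul]
  have hχr : ∀ x, 1 - δ ≤ x → χ x = 0 := by
    intro x hx
    show _ * _ = _
    rw [Real.smoothTransition.zero_of_nonpos (x := (1 - δ - x) / δ)
      (div_nonpos_of_nonpos_of_nonneg (by linarith) hδ.le), mul_zero]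
  have hχm : ∀ x, 2 * δ ≤ x → x ≤ 1 - 2 * δ → χ x = 1 := by
    intro x h1 h2
    show _ * _ = _
    rw [Real.smoothTransition.one_of_one_le (by rw [le_div_iff₀ hδ]; linarith),
      Real.smoothTransition.one_of_one_le (by rw [le_div_iff₀ hδ]; linarith), mul_one]
  have hχc : Continuous χ := (hχs 0).continuous
  have hpc : Continuous fun x => p.eval x := p.continuous
  have hps : ∀ n : ℕ∞, ContDiff ℝ n fun x => p.eval x := by
    intro n
    have := Polynomial.contDiff_aeval (𝕜 := ℝ) p (n : WithTop ℕ∞)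
    simpa [Polynomial.coe_aeval_eq_eval] using this
  refine ⟨fun x => χ x * p.eval x, δ, hδ, by linarith, fun n => (hχs n).mul (hps n),
    fun x hx => ?_, fun x hx => ?_, ?_, ?_⟩
  · show χ x * _ = 0
    rw [hχl x hx, zero_mul]
  · show χ x * _ = 0
    rw [hχr x hx, zero_mul]
  · -- the energy
    have h1 : ∫ x in (0:ℝ)..1, (χ x * p.eval x) ^ 2 ≤
        ∫ x in (0:ℝ)..1, (f x ^ 2 + η * (2 * M + 1)) := by
      refine integral_mono_on zero_le_one ?_ ?_ fun x hx => ?_
      · exact ((hχc.mul hpc).pow 2).intervalIntegrable _ _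
      · refine ContinuousOn.intervalIntegrable ?_
        rw [uIcc_of_le zero_le_one]
        exact (hf.pow 2).add continuousOn_const
      · have h2 : (χ x * p.eval x) ^ 2 ≤ p.eval x ^ 2 := by
          rw [mul_pow]
          have h3 : χ x ^ 2 ≤ 1 := pow_le_one₀ (hχ0 x) (hχ1 x)
          nlinarith [sq_nonneg (p.eval x)]
        have h4 := hp x hx
        have h5 := hM x hx
        rw [Real.norm_eq_abs] at h5
        have h6 : p.eval x ^ 2 - f x ^ 2 = (p.eval x - f x) * (p.eval x + f x) := by ring
        have h7 : (p.eval x - f x) * (p.eval x + f x) ≤ η * (2 * M + 1) := by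
          refine (le_abs_self _).trans ?_
          rw [abs_mul]
          have h8 : |p.eval x + f x| ≤ 2 * M + 1 := by
            have h9 := hpM x hx
            calc |p.eval x + f x| ≤ |p.eval x| + |f x| := abs_add_le _ _
              _ ≤ (M + 1) + M := add_le_add h9 h5
              _ = 2 * M + 1 := by ring
          exact mul_le_mul h4.le h8 (abs_nonneg _) hη.le
        linarith
    have h2 : ∫ x in (0:ℝ)..1, (f x ^ 2 + η * (2 * M + 1)) =
        (∫ x in (0:ℝ)..1, f x ^ 2) + η * (2 * M + 1) := by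
      rw [intervalIntegral.integral_add, intervalIntegral.integral_const]
      · simp
      · refine ContinuousOn.intervalIntegrable ?_
        rw [uIcc_of_le zero_le_one]
        exact hf.pow 2
      · exact intervalIntegrable_const
    rw [h2] at h1
    linarith
  · -- the primitive
    intro x hx
    have hfi : IntervalIntegrable f volume 0 x := by
      refine ContinuousOn.intervalIntegrable ?_
      rw [uIcc_of_le hx.1]
      exact hf.mono (Icc_subset_Icc_right hx.2)
    have hpi : ∀ a b, IntervalIntegrable (fun x => p.eval x) volume a b :=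
      fun a b => hpc.intervalIntegrable _ _
    have hgi : ∀ a b, IntervalIntegrable (fun x => χ x * p.eval x) volume a b :=
      fun a b => (hχc.mul hpc).intervalIntegrable _ _
    have e1 : (∫ t in (0:ℝ)..x, f t) - ∫ t in (0:ℝ)..x, χ t * p.eval t =
        (∫ t in (0:ℝ)..x, (f t - p.eval t)) + ∫ t in (0:ℝ)..x, (1 - χ t) * p.eval t := by
      rw [← integral_sub hfi (hgi _ _), ← integral_add (hfi.sub (hpi _ _))]
      · refine integral_congr fun t _ => ?_
        ring
      · exact ((continuous_const.sub hχc).mul hpc).intervalIntegrable _ _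
    have e2 : |∫ t in (0:ℝ)..x, (f t - p.eval t)| ≤ η * |x - 0| := by
      have := norm_integral_le_of_norm_le_const (a := (0:ℝ)) (b := x) (C := η)
        (f := fun t => f t - p.eval t) (fun t ht => ?_)
      · simpa using this
      · rw [uIoc_of_le hx.1] at ht
        have h1 := hp t ⟨ht.1.le, ht.2.trans hx.2⟩
        rw [Real.norm_eq_abs, abs_sub_comm]
        exact h1.le
    have e3 : |∫ t in (0:ℝ)..x, (1 - χ t) * p.eval t| ≤ ε / 4 := by
      have k1 : |∫ t in (0:ℝ)..x, (1 - χ t) * p.eval t| ≤
          ∫ t in (0:ℝ)..1, (1 - χ t) * (M + 1) := by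
        have k2 : |∫ t in (0:ℝ)..x, (1 - χ t) * p.eval t| ≤
            ∫ t in (0:ℝ)..x, |(1 - χ t) * p.eval t| :=
          abs_integral_le_integral_abs hx.1
        have k3 : ∫ t in (0:ℝ)..x, |(1 - χ t) * p.eval t| ≤
            ∫ t in (0:ℝ)..x, (1 - χ t) * (M + 1) := by
          refine integral_mono_on hx.1 ?_ ?_ fun t ht => ?_
          · exact (((continuous_const.sub hχc).mul hpc).abs).intervalIntegrable _ _
          · exact ((continuous_const.sub hχc).mul continuous_const).intervalIntegrable _ _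
          · rw [abs_mul, abs_of_nonneg (by linarith [hχ1 t])]
            exact mul_le_mul_of_nonneg_left (hpM t ⟨ht.1, ht.2.trans hx.2⟩)
              (by linarith [hχ1 t])
        have k4 : ∫ t in (0:ℝ)..x, (1 - χ t) * (M + 1) ≤ ∫ t in (0:ℝ)..1, (1 - χ t) * (M + 1) := by
          have k5 : (∫ t in (0:ℝ)..1, (1 - χ t) * (M + 1)) =
              (∫ t in (0:ℝ)..x, (1 - χ t) * (M + 1)) + ∫ t in x..1, (1 - χ t) * (M + 1) :=
            (integral_add_adjacent_intervals
              (((continuous_const.sub hχc).mul continuous_const).intervalIntegrable _ _)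
              (((continuous_const.sub hχc).mul continuous_const).intervalIntegrable _ _)).symm
          have k6 : 0 ≤ ∫ t in x..1, (1 - χ t) * (M + 1) :=
            integral_nonneg hx.2 fun t _ => mul_nonneg (by linarith [hχ1 t]) (by linarith)
          linarith
        linarith
      have k7 : ∫ t in (0:ℝ)..1, (1 - χ t) * (M + 1) ≤ 4 * δ * (M + 1) := by
        have k8 : (∫ t in (0:ℝ)..1, (1 - χ t) * (M + 1)) =
            (∫ t in (0:ℝ)..(2 * δ), (1 - χ t) * (M + 1)) +
            ((∫ t in (2 * δ)..(1 - 2 * δ), (1 - χ t) * (M + 1)) +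
            ∫ t in (1 - 2 * δ)..1, (1 - χ t) * (M + 1)) := by
          have ii : ∀ a b : ℝ, IntervalIntegrable (fun t => (1 - χ t) * (M + 1)) volume a b :=
            fun a b => ((continuous_const.sub hχc).mul continuous_const).intervalIntegrable _ _
          rw [integral_add_adjacent_intervals (ii _ _) (ii _ _),
            integral_add_adjacent_intervals (ii _ _) (ii _ _)]
        have k9 : (∫ t in (0:ℝ)..(2 * δ), (1 - χ t) * (M + 1)) ≤ ∫ _ in (0:ℝ)..(2 * δ), (M + 1) := by
          refine integral_mono_on (by linarith) ?_ intervalIntegrable_const fun t _ => ?_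
          · exact ((continuous_const.sub hχc).mul continuous_const).intervalIntegrable _ _
          · nlinarith [hχ0 t]
        have k10 : (∫ t in (1 - 2 * δ)..1, (1 - χ t) * (M + 1)) ≤
            ∫ _ in (1 - 2 * δ)..1, (M + 1) := by
          refine integral_mono_on (by linarith) ?_ intervalIntegrable_const fun t _ => ?_
          · exact ((continuous_const.sub hχc).mul continuous_const).intervalIntegrable _ _
          · nlinarith [hχ0 t]
        have k11 : (∫ t in (2 * δ)..(1 - 2 * δ), (1 - χ t) * (M + 1)) = 0 := by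
          have : (∫ t in (2 * δ)..(1 - 2 * δ), (1 - χ t) * (M + 1)) =
              ∫ t in (2 * δ)..(1 - 2 * δ), (0:ℝ) := by
            refine integral_congr fun t ht => ?_
            rw [uIcc_of_le (by linarith)] at ht
            show (1 - χ t) * (M + 1) = 0
            rw [hχm t ht.1 ht.2]
            ring
          rw [this, intervalIntegral.integral_zero]
        rw [intervalIntegral.integral_const, smul_eq_mul] at k9 k10
        rw [k8, k11]
        nlinarith
      linarith
    rw [e1]
    refine (abs_add_le _ _).trans_lt ?_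
    have e4 : |x - 0| ≤ 1 := by
      rw [sub_zero, abs_of_nonneg hx.1]
      exact hx.2
    have e5 : η * |x - 0| ≤ η := by nlinarith [abs_nonneg (x - 0)]
    linarith

end Pool.Agent.PF
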