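import Pool.Agent.ZGap.Res.Om

/-!
# Products, dilations and convolutions of even Schwartz functions; the band-limited kernel
-/

open scoped ContDiff SchwartzMap

namespace Pool.Agent.PF

open MeasureTheory Real Set Pool.Agent.ZGap.Res

lemma RS_mul {f g : ℝ → ℝ} (hf : RS f) (hg : RS g) : RS (fun x => f x * g x) := by
  obtain ⟨S, hS⟩ := hf.ex
  obtain ⟨R, hR⟩ := hg.ex
  refine ⟨⟨SchwartzMap.smulLeftCLM ℂ (S : ℝ → ℂ) R, fun x => ?_⟩, fun x => ?_⟩
  · rw [SchwartzMap.smulLeftCLM_apply_apply S.hasTemperateGrowth, hS, hR, smul_eq_mul]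
    push_cast
    rfl
  · simp only [hf.even, hg.even]

lemma RS_const_mul {f : ℝ → ℝ} (hf : RS f) (c : ℝ) : RS (fun x => c * f x) := by
  obtain ⟨S, hS⟩ := hf.ex
  refine ⟨⟨(c : ℂ) • S, fun x => ?_⟩, fun x => ?_⟩
  · rw [SchwartzMap.smul_apply, hS, smul_eq_mul]
    push_cast
    rfl
  · simp only [hf.even]

lemma RS_add {f g : ℝ → ℝ} (hf : RS f) (hg : RS g) : RS (fun x => f x + g x) := by
  obtain ⟨S, hS⟩ := hf.ex
  obtain ⟨R, hR⟩ := hg.ex
  refine ⟨⟨S + R, fun x => ?_⟩, fun x => ?_⟩
  · rw [SchwartzMap.add_apply, hS, hR]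
    push_cast
    rfl
  · simp only [hf.even, hg.even]

lemma RS_comp_mul {f : ℝ → ℝ} (hf : RS f) {b : ℝ} (hb : b ≠ 0) : RS (fun x => f (b * x)) := by
  obtain ⟨S, hS⟩ := hf.ex
  refine ⟨⟨SchwartzMap.compCLMOfContinuousLinearEquiv ℂ
      (ContinuousLinearEquiv.unitsEquivAut ℝ (Units.mk0 _ hb)) S, fun x => ?_⟩, fun x => ?_⟩
  · rw [SchwartzMap.compCLMOfContinuousLinearEquiv_apply, Function.comp_apply, hS]
    congr 2
    simp
    ring
  · simp only [mul_neg, hf.even]

/-- The basic kernel is an even Schwartz function. -/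
lemma WW_RS : RS WW := by
  unfold WW
  exact RS_const_mul (RS_mul bmp_RS.chat bmp_RS.chat) _

/-- The kernel with spectrum in `[-b, b]`. -/
noncomputable def ker (b x : ℝ) : ℝ := b * WW (b * x)

lemma ker_RS {b : ℝ} (hb : 0 < b) : RS (ker b) :=
  RS_const_mul (RS_comp_mul WW_RS hb.ne') b

lemma ker_nonneg {b : ℝ} (hb : 0 < b) (x : ℝ) : 0 ≤ ker b x :=
  mul_nonneg hb.le (WW_nonneg _)

lemma chat_ker {b : ℝ} (hb : 0 < b) (u : ℝ) : chat (ker b) u = chat WW (u / b) := by
  unfold chat ker
  have h1 := Measure.integral_comp_mul_left (fun x : ℝ => WW x * Real.cos (x * (u / b))) b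
  rw [abs_of_pos (by positivity : 0 < b⁻¹), smul_eq_mul] at h1
  have h2 : ∀ x : ℝ, b * WW (b * x) * Real.cos (x * u) =
      b * (WW (b * x) * Real.cos (b * x * (u / b))) := by
    intro x
    have : b * x * (u / b) = x * u := by field_simp
    rw [this]
    ring
  simp_rw [h2]
  rw [MeasureTheory.integral_const_mul, h1, ← mul_assoc, mul_inv_cancel₀ hb.ne', one_mul]

lemma chat_ker_zero {b : ℝ} (hb : 0 < b) {u : ℝ} (hu : b ≤ |u|) : chat (ker b) u = 0 := by
  rw [chat_ker hb]
  have h1 : 1 ≤ |u / b| := by
    rw [abs_div, abs_of_pos hb, le_div_iff₀ hb, one_mul]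
    exact hu
  have h2 := WW_cos h1
  unfold chat
  rw [← h2]
  refine integral_congr_ae (Filter.Eventually.of_forall fun x => ?_)
  simp only
  rw [mul_comm x]

lemma ker_integral {b : ℝ} (hb : 0 < b) : ∫ x, ker b x = 1 := by
  have h1 := chat_ker hb 0
  unfold chat at h1
  simp only [mul_zero, zero_div, Real.cos_zero, mul_one] at h1
  rw [h1, WW_integral]

lemma abs_chat_ker_le {b : ℝ} (hb : 0 < b) (u : ℝ) : |chat (ker b) u| ≤ 1 := by
  unfold chat
  rw [← Real.norm_eq_abs]
  refine (norm_integral_le_integral_norm _).trans ?_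
  calc _ ≤ ∫ x, ker b x := by
        refine integral_mono_of_nonneg (Filter.Eventually.of_forall fun x => norm_nonneg _)
          (ker_RS hb).integrable (Filter.Eventually.of_forall fun x => ?_)
        simp only
        rw [norm_mul, Real.norm_of_nonneg (ker_nonneg hb x), Real.norm_eq_abs]
        exact mul_le_of_le_one_right (ker_nonneg hb x) (Real.abs_cos_le_one _)
    _ = 1 := ker_integral hb

/-- Modulation of a smooth even function of compact support. -/
lemma RS_modulate {f : ℝ → ℝ} (hf : RS f) (hc : HasCompactSupport f) (x : ℝ) :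
    RS (fun u => f u * Real.cos (u * x)) := by
  refine RS.of_compact ?_ hc.mul_right fun u => ?_
  · have h1 := hf.smooth
    have h2 : ContDiff ℝ ∞ (fun u : ℝ => Real.cos (u * x)) :=
      Real.contDiff_cos.comp (by fun_prop)
    exact h1.mul h2
  · simp only [hf.even, neg_mul, Real.cos_neg]

/-- The cosine transform of a product is a convolution. -/
theorem chat_mul {G w : ℝ → ℝ} (hG : RS G) (hw : RS w) (hc : HasCompactSupport (chat w)) (x : ℝ) :
    chat (fun u => chat G u * chat w u) x = 2 * π * ∫ z, G (x - z) * w z := by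
  have h1 : chat (fun u => chat G u * chat w u) x =
      ∫ u, chat G u * (chat w u * Real.cos (u * x)) := by
    unfold chat
    refine integral_congr_ae (Filter.Eventually.of_forall fun u => ?_)
    simp only
    ring
  have hm := RS_modulate hw.chat hc x
  rw [h1, hG.transfer hm]
  have h2 : ∀ y, chat (fun u => chat w u * Real.cos (u * x)) y = π * (w (x + y) + w (x - y)) := by
    intro y
    have e1 : ∀ u : ℝ, chat w u * Real.cos (u * x) * Real.cos (u * y) =
        1 / 2 * (chat w u * Real.cos (u * (x + y))) +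
          1 / 2 * (chat w u * Real.cos (u * (x - y))) := by
      intro u
      rw [mul_add, mul_sub, Real.cos_add, Real.cos_sub]
      ring
    have e2 : chat (fun u => chat w u * Real.cos (u * x)) y =
        ∫ u, chat w u * Real.cos (u * x) * Real.cos (u * y) := rfl
    rw [e2]
    simp_rw [e1]
    rw [integral_add ((hw.chat.integrable_mul_cos _).const_mul _)
      ((hw.chat.integrable_mul_cos _).const_mul _), MeasureTheory.integral_const_mul,
      MeasureTheory.integral_const_mul]
    have e3 : ∀ v, ∫ u, chat w u * Real.cos (u * v) = 2 * π * w v := fun v => hw.chat_chat v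
    rw [e3, e3]
    ring
  simp_rw [h2]
  -- integrability
  have hGc := hG.continuous
  have hwc := hw.continuous
  obtain ⟨B, hB, hbd⟩ := hw.decay 0 0
  have hwb : ∀ z, |w z| ≤ B := fun z => by simpa using hbd z
  have i1 : Integrable (fun y => G y * w (x + y)) := by
    refine (hG.integrable.norm.mul_const B).mono' (Continuous.aestronglyMeasurable (by fun_prop))
      (Filter.Eventually.of_forall fun y => ?_)
    rw [norm_mul, Real.norm_eq_abs (w _)]
    exact mul_le_mul_of_nonneg_left (hwb _) (norm_nonneg _)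
  have i2 : Integrable (fun y => G y * w (x - y)) := by
    refine (hG.integrable.norm.mul_const B).mono' (Continuous.aestronglyMeasurable (by fun_prop))
      (Filter.Eventually.of_forall fun y => ?_)
    rw [norm_mul, Real.norm_eq_abs (w _)]
    exact mul_le_mul_of_nonneg_left (hwb _) (norm_nonneg _)
  have e4 : ∀ y, G y * (π * (w (x + y) + w (x - y))) =
      π * (G y * w (x + y)) + π * (G y * w (x - y)) := fun y => by ring
  simp_rw [e4]
  rw [integral_add (i1.const_mul _) (i2.const_mul _), MeasureTheory.integral_const_mul,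
    MeasureTheory.integral_const_mul]
  have e5 : ∫ y, G y * w (x + y) = ∫ y, G y * w (x - y) := by
    have h3 := integral_neg_eq_self (fun y : ℝ => G y * w (x + y)) volume
    rw [← h3]
    refine integral_congr_ae (Filter.Eventually.of_forall fun y => ?_)
    simp only
    rw [hG.even, sub_eq_add_neg]
  have e6 : ∫ y, G y * w (x - y) = ∫ z, G (x - z) * w z := by
    have h3 := integral_sub_left_eq_self (fun y : ℝ => G y * w (x - y)) volume x
    rw [← h3]
    refine integral_congr_ae (Filter.Eventually.of_forall fun y => ?_)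
    simp only
    rw [sub_sub_cancel]
  rw [e5, e6]
  ring

lemma ker_compact {b : ℝ} (hb : 0 < b) : HasCompactSupport (chat (ker b)) := by
  refine HasCompactSupport.intro (isCompact_Icc (a := -b) (b := b)) fun x hx => ?_
  apply chat_ker_zero hb
  by_contra hcon
  exact hx (abs_le.mp (not_le.mp hcon).le)

end Pool.Agent.PF
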