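import Pool.Agent.PF.SNb
import Pool.Agent.PF.Sta
import Pool.Agent.PF.VarC
import Pool.Agent.PF.PPw

/-!
# The smoothed count as a sum over primes
-/

namespace Pool.Agent.PF.SN

open MeasureTheory Real Set ArithmeticFunction Pool.Agent.Hadamard Pool.Agent.DirPoly
  Pool.Agent.ZGap.Gen Pool.Agent.ZetaGaps
open Pool.Agent.ZGap.Res (PP)

/-- The explicit formula for the sum over the zeros. -/
theorem SS_near (hRH : RiemannHypothesis) : ∃ C : ℝ, 0 < C ∧
    ∀ (P : PhiData) (D : ℝ) (x : ℕ) (t : ℝ), 1 / 2 ≤ D → Real.exp D ≤ x + 1 → 1 ≤ t →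
      |SS P D t - (P.f0 0 / 2 * Real.log (t / (2 * π)) - (vmPoly (bb P D) x t).re)| ≤
        C * Real.exp D * (1 + Real.log t) / Real.sqrt t := by
  obtain ⟨C, hC, h⟩ := exists_explicit hRH
  refine ⟨C, hC, fun P D x t hD hx ht => ?_⟩
  obtain ⟨S, hS, h2⟩ := h P D x t hD hx ht
  have e : SS P D t = S := hS.tsum_eq
  rw [e]
  exact h2

lemma cpow_half (n : ℕ) : (n : ℂ) ^ (-(1 / 2) : ℂ) = ((Real.sqrt n)⁻¹ : ℝ) := by
  have h1 : ((n : ℝ) ^ (-(1 / 2) : ℝ) : ℝ) = (Real.sqrt n)⁻¹ := by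
    rw [Real.rpow_neg (Nat.cast_nonneg n), Real.sqrt_eq_rpow]
  rw [← h1, Complex.ofReal_cpow (Nat.cast_nonneg n)]
  push_cast
  rfl

lemma cpow_it {n : ℕ} (hn : 0 < n) (t : ℝ) : (n : ℂ) ^ (-(t * Complex.I) : ℂ) =
    Complex.exp (((-(t * Real.log n) : ℝ) : ℂ) * Complex.I) := by
  have hn0 : (n : ℂ) ≠ 0 := by exact_mod_cast hn.ne'
  rw [Complex.cpow_def_of_ne_zero hn0, ← Complex.natCast_log]
  congr 1
  push_cast
  ring

lemma cpow_line {n : ℕ} (hn : 0 < n) (t : ℝ) : (n : ℂ) ^ (-(1 / 2 + t * Complex.I) : ℂ) =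
    ((Real.sqrt n)⁻¹ : ℝ) * Complex.exp (((-(t * Real.log n) : ℝ) : ℂ) * Complex.I) := by
  have hn0 : (n : ℂ) ≠ 0 := by exact_mod_cast hn.ne'
  rw [neg_add, Complex.cpow_add _ _ hn0, cpow_half n, cpow_it hn]

lemma vmPoly_continuous (b : ℕ → ℂ) (x : ℕ) : Continuous (vmPoly b x) := by
  unfold vmPoly
  refine continuous_finsetSum _ fun n hn => ?_
  have hn0 : (n : ℂ) ≠ 0 := by
    have := (Finset.mem_Icc.mp hn).1
    exact_mod_cast (by omega : n ≠ 0)
  refine Continuous.mul continuous_const ?_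
  refine Continuous.const_cpow (by fun_prop) (Or.inl hn0)

/-- The average of `n^(-is)` over the window. -/
noncomputable def JJ (h : ℝ) (n : ℕ) : ℂ :=
  ((1 / π : ℝ) : ℂ) * ∫ s in (0:ℝ)..h, Complex.exp (((-(s * Real.log n) : ℝ) : ℂ) * Complex.I)

/-- The averaged sum over prime powers. -/
theorem int_vmPoly (b : ℕ → ℂ) (x : ℕ) (t h : ℝ) :
    1 / π * ∫ s in (0:ℝ)..h, (vmPoly b x (t + s)).re =
      (vmPoly (fun n => b n * JJ h n) x t).re := by
  have hc : Continuous fun s : ℝ => vmPoly b x (t + s) :=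
    (vmPoly_continuous b x).comp (by fun_prop)
  have h1 : ∫ s in (0:ℝ)..h, (vmPoly b x (t + s)).re = (∫ s in (0:ℝ)..h, vmPoly b x (t + s)).re :=
    Complex.reCLM.intervalIntegral_comp_comm (hc.intervalIntegrable _ _)
  have h2 : ∫ s in (0:ℝ)..h, vmPoly b x (t + s) =
      ∑ n ∈ Finset.Icc 1 x, (vonMangoldt n : ℂ) * b n * (n : ℂ) ^ (-(1 / 2 + t * Complex.I) : ℂ) *
        ∫ s in (0:ℝ)..h, Complex.exp (((-(s * Real.log n) : ℝ) : ℂ) * Complex.I) := by
    unfold vmPoly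
    rw [intervalIntegral.integral_finsetSum]
    · refine Finset.sum_congr rfl fun n hn => ?_
      have hn0 : 0 < n := (Finset.mem_Icc.mp hn).1
      rw [← intervalIntegral.integral_const_mul]
      refine intervalIntegral.integral_congr fun s _ => ?_
      show (vonMangoldt n : ℂ) * b n * (n : ℂ) ^ (-(1 / 2 + ((t + s : ℝ) : ℂ) * Complex.I) : ℂ) =
        (vonMangoldt n : ℂ) * b n * (n : ℂ) ^ (-(1 / 2 + t * Complex.I) : ℂ) *
          Complex.exp (((-(s * Real.log n) : ℝ) : ℂ) * Complex.I)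
      rw [cpow_line hn0, cpow_line hn0, mul_assoc ((vonMangoldt n : ℂ) * b n),
        mul_assoc (((Real.sqrt n)⁻¹ : ℝ) : ℂ), ← Complex.exp_add]
      congr 3
      push_cast
      ring
    · intro n hn
      have hn0 : (n : ℂ) ≠ 0 := by
        have := (Finset.mem_Icc.mp hn).1
        exact_mod_cast (by omega : n ≠ 0)
      refine Continuous.intervalIntegrable ?_ _ _
      refine Continuous.mul continuous_const ?_
      refine Continuous.const_cpow (by fun_prop) (Or.inl hn0)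
  have h3 : ((1 / π : ℝ) : ℂ) * ∫ s in (0:ℝ)..h, vmPoly b x (t + s) =
      vmPoly (fun n => b n * JJ h n) x t := by
    rw [h2, Finset.mul_sum]
    unfold vmPoly JJ
    refine Finset.sum_congr rfl fun n hn => ?_
    ring
  rw [h1, ← h3, Complex.re_ofReal_mul]

lemma JJ_eq {L x : ℝ} (hL : 0 < L) (n : ℕ) :
    JJ (2 * π * x / L) n = ((2 / L : ℝ) : ℂ) * (starRingEnd ℂ) (ker x (Real.log n / L)) := by
  have hpi := Real.pi_pos
  unfold JJ ker
  have h1 := intervalIntegral.smul_integral_comp_mul_left (a := 0) (b := x)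
    (fun s : ℝ => Complex.exp (((-(s * Real.log n) : ℝ) : ℂ) * Complex.I)) (2 * π / L)
  rw [mul_zero] at h1
  have e1 : 2 * π / L * x = 2 * π * x / L := by ring
  rw [e1] at h1
  rw [← h1, ← intervalIntegral.intervalIntegral_conj, Complex.real_smul, ← mul_assoc,
    ← Complex.ofReal_mul]
  have e2 : 1 / π * (2 * π / L) = 2 / L := by field_simp
  rw [e2]
  congr 1
  refine intervalIntegral.integral_congr fun y _ => ?_
  show Complex.exp (((-(2 * π / L * y * Real.log n) : ℝ) : ℂ) * Complex.I) =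
    (starRingEnd ℂ) (Complex.exp (2 * π * Complex.I * (y * ((Real.log n / L : ℝ) : ℂ))))
  rw [← Complex.exp_conj]
  congr 1
  rw [map_mul, map_mul, map_mul, map_mul, Complex.conj_I, Complex.conj_ofReal, Complex.conj_ofReal,
    Complex.conj_ofReal, Complex.conj_ofNat]
  push_cast
  ring

lemma norm_ker_le1 {x : ℝ} (hx : 0 ≤ x) (ξ : ℝ) : ‖ker x ξ‖ ≤ x := by
  unfold ker
  have h := intervalIntegral.norm_integral_le_of_norm_le_const (a := (0:ℝ)) (b := x) (C := 1)
    (f := fun y : ℝ => Complex.exp (2 * π * Complex.I * (y * ξ))) (fun y _ => ?_)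
  · rw [sub_zero, one_mul, abs_of_nonneg hx] at h
    exact h
  · rw [Complex.norm_exp]
    simp

lemma norm_ker_le2 (x : ℝ) {ξ : ℝ} (hξ : 0 < ξ) : ‖ker x ξ‖ ≤ 1 / (π * ξ) := by
  have hc : (2 * π * Complex.I * ξ : ℂ) ≠ 0 := by
    have h1 : (π : ℂ) ≠ 0 := by exact_mod_cast Real.pi_ne_zero
    have h2 : (ξ : ℂ) ≠ 0 := by exact_mod_cast hξ.ne'
    exact mul_ne_zero (mul_ne_zero (mul_ne_zero two_ne_zero h1) Complex.I_ne_zero) h2
  have h := integral_exp_mul_complex (a := 0) (b := x) hc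
  have h3 : ker x ξ = ∫ y in (0:ℝ)..x, Complex.exp (2 * π * Complex.I * ξ * y) := by
    unfold ker
    refine intervalIntegral.integral_congr fun y _ => ?_
    show Complex.exp _ = Complex.exp _
    congr 1
    ring
  rw [h3, h, norm_div]
  have h4 : ‖(2 * π * Complex.I * ξ : ℂ)‖ = 2 * (π * ξ) := by
    rw [norm_mul, norm_mul, norm_mul, Complex.norm_I, Complex.norm_real, Complex.norm_real,
      Real.norm_eq_abs, Real.norm_eq_abs, abs_of_pos Real.pi_pos, abs_of_pos hξ]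
    simp
    ring
  have h5 : ‖Complex.exp (2 * π * Complex.I * ξ * (x : ℂ)) -
      Complex.exp (2 * π * Complex.I * ξ * ((0:ℝ) : ℂ))‖ ≤ 2 := by
    refine (norm_sub_le _ _).trans ?_
    rw [Complex.norm_exp, Complex.norm_exp]
    simp
    norm_num
  have h6 : 0 < π * ξ := mul_pos Real.pi_pos hξ
  rw [h4, div_le_div_iff₀ (by linarith) h6]
  nlinarith

lemma wB_eq {b L : ℝ} (hb : 0 < b) (hL : 0 < L) {y : ℝ} (hy : 0 ≤ y) :
    wB b (y / L) = PK.f0 (min (y / (b * L)) 1) := by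
  have e1 : y / L / b = y / (b * L) := by field_simp
  show (max 0 (1 - (y / L / b) ^ 2)) ^ 2 = (1 - (min (y / (b * L)) 1) ^ 2) ^ 2
  rw [e1]
  have h0 : 0 ≤ y / (b * L) := by positivity
  rcases le_total (y / (b * L)) 1 with h | h
  · rw [min_eq_left h, max_eq_right (by nlinarith)]
  · rw [min_eq_right h, max_eq_left (by nlinarith)]
    norm_num

lemma fj_eq {b L : ℝ} (hb : 0 < b) (hL : 0 < L) {y : ℝ} (hy : 0 ≤ y) :
    2 * max 0 (1 - |y / L| / b) = PJ.f0 (min (y / (b * L)) 1) := by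
  have e1 : |y / L| / b = y / (b * L) := by
    rw [abs_of_nonneg (by positivity)]; field_simp
  show 2 * max 0 (1 - |y / L| / b) = 2 * (1 - min (y / (b * L)) 1)
  rw [e1]
  rcases le_total (y / (b * L)) 1 with h | h
  · rw [min_eq_left h, max_eq_right (by linarith)]
  · rw [min_eq_right h, max_eq_left (by linarith)]
    norm_num

/-- The Fejer sums over primes. -/
theorem XB_GF {b T : ℝ} (hb : 0 < b) (hL : 0 < Real.log T) (s t : ℝ) :
    Var.XB (PP T) (bG (GF b s) T) t = 1 / (b * Real.log T) *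
      (primePoly (bb PJ (b * Real.log T)) ⌊T⌋₊ (t + s / Real.log T)).re := by
  unfold Var.XB primePoly PP
  rw [Complex.re_sum, Finset.mul_sum]
  refine Finset.sum_congr rfl fun p hp => ?_
  have hp0 : 0 < p := (Finset.mem_filter.mp hp).2.pos
  have hlp : 0 ≤ Real.log p := Real.log_natCast_nonneg p
  have h1 := fj_eq hb hL hlp
  unfold bG GF bb
  rw [cpow_half p, cpow_it hp0, ← h1, ← Complex.re_ofReal_mul]
  congr 1
  have e1 : Complex.exp (((-((t + s / Real.log T) * Real.log p) : ℝ) : ℂ) * Complex.I) =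
      Complex.exp (((-(s * (Real.log p / Real.log T)) : ℝ) : ℂ) * Complex.I) *
        Complex.exp (((-(t * Real.log p) : ℝ) : ℂ) * Complex.I) := by
    rw [← Complex.exp_add]
    congr 1
    push_cast
    have : ((Real.log T : ℝ) : ℂ) ≠ 0 := by exact_mod_cast hL.ne'
    field_simp
    ring
  rw [e1]
  have hb' : ((b : ℝ) : ℂ) ≠ 0 := by exact_mod_cast hb.ne'
  have hL' : ((Real.log T : ℝ) : ℂ) ≠ 0 := by exact_mod_cast hL.ne'
  have hs : ((Real.sqrt p : ℝ) : ℂ) ≠ 0 := by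
    have : 0 < Real.sqrt p := Real.sqrt_pos.mpr (by exact_mod_cast hp0)
    exact_mod_cast this.ne'
  push_cast
  field_simp

/-- The window sums over primes. -/
theorem XB_GI {b T : ℝ} (hb : 0 < b) (hL : 0 < Real.log T) (x t : ℝ) :
    Var.XB (PP T) (bG (GI b x) T) t =
      -(primePoly (fun n => bb PK (b * Real.log T) n * JJ (2 * π * x / Real.log T) n) ⌊T⌋₊ t).re := by
  unfold Var.XB primePoly PP
  rw [Complex.re_sum, ← Finset.sum_neg_distrib]
  refine Finset.sum_congr rfl fun p hp => ?_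
  have hp0 : 0 < p := (Finset.mem_filter.mp hp).2.pos
  have hlp : 0 ≤ Real.log p := Real.log_natCast_nonneg p
  have h1 := wB_eq hb hL hlp
  show (bG (GI b x) T p * Complex.exp (((-(t * Real.log p) : ℝ) : ℂ) * Complex.I)).re =
    -(((Real.log p : ℂ) * (bb PK (b * Real.log T) p * JJ (2 * π * x / Real.log T) p) *
      (p : ℂ) ^ (-(1 / 2) : ℂ)) * (p : ℂ) ^ (-(t * Complex.I) : ℂ)).re
  rw [JJ_eq hL]
  unfold bG GI bb
  rw [cpow_half p, cpow_it hp0, ← h1, ← Complex.neg_re]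
  congr 1
  have hL' : ((Real.log T : ℝ) : ℂ) ≠ 0 := by exact_mod_cast hL.ne'
  have hs : ((Real.sqrt p : ℝ) : ℂ) ≠ 0 := by
    have : 0 < Real.sqrt p := Real.sqrt_pos.mpr (by exact_mod_cast hp0)
    exact_mod_cast this.ne'
  push_cast
  field_simp

end Pool.Agent.PF.SN
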