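import Mathlib

set_option autoImplicit false

/-!
# The variance of a sum of local operators in a truncated product state

`G = ι → ZMod 5` are exponent vectors (only the exponents `-2, ..., 2` are used). The product state
has the factors `psi (c p)`, and `X` is the sum of the operators
`(b p * (shift by 1) + conjugate of b p times (shift by -1)) / 2`.
-/

namespace Pool.Agent.PF.Var

open Finset

/-- The factor of the state at one prime. -/
noncomputable def psi (c : ℂ) (j : ZMod 5) : ℂ :=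
  if j = 0 then 1 else if j = 1 then c else if j = -1 then starRingEnd ℂ c else 0

lemma sum_Z5 {M : Type*} [AddCommMonoid M] (f : ZMod 5 → M) :
    ∑ j : ZMod 5, f j = f 0 + f 1 + f 2 + f 3 + f 4 := Fin.sum_univ_five f

lemma psi_0 (c : ℂ) : psi c 0 = 1 := by simp [psi]

lemma psi_1 (c : ℂ) : psi c 1 = c := by
  unfold psi
  rw [if_neg (by decide), if_pos rfl]

lemma psi_2 (c : ℂ) : psi c 2 = 0 := by
  unfold psi
  rw [if_neg (by decide), if_neg (by decide), if_neg (by decide)]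

lemma psi_3 (c : ℂ) : psi c 3 = 0 := by
  unfold psi
  rw [if_neg (by decide), if_neg (by decide), if_neg (by decide)]

lemma psi_4 (c : ℂ) : psi c 4 = starRingEnd ℂ c := by
  unfold psi
  rw [if_neg (by decide), if_neg (by decide), if_pos (by decide)]

/-- The norm of the factor. -/
lemma sum_psi_sq (c : ℂ) : ∑ j : ZMod 5, starRingEnd ℂ (psi c j) * psi c j = ((1 + 2 * ‖c‖ ^ 2 : ℝ) : ℂ) := by
  rw [sum_Z5, psi_0, psi_1, psi_2, psi_3, psi_4]
  have h := Complex.conj_mul' c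
  have h' : c * starRingEnd ℂ c = (‖c‖ : ℂ) ^ 2 := by rw [mul_comm, h]
  simp only [map_one, map_zero, mul_zero, Complex.conj_conj, h, h', one_mul, add_zero]
  push_cast
  ring

/-- The mean of the operator at one prime. -/
noncomputable def mup (b c : ℂ) : ℝ := 2 * (b * starRingEnd ℂ c).re / (1 + 2 * ‖c‖ ^ 2)

/-- The operator at one prime, centred. -/
noncomputable def phi (b c : ℂ) (j : ZMod 5) : ℂ :=
  (b * psi c (j - 1) + starRingEnd ℂ b * psi c (j + 1)) / 2 - mup b c * psi c j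

lemma Z5_sub : ((0 : ZMod 5) - 1 = 4) ∧ ((1 : ZMod 5) - 1 = 0) ∧ ((2 : ZMod 5) - 1 = 1) ∧
    ((3 : ZMod 5) - 1 = 2) ∧ ((4 : ZMod 5) - 1 = 3) := by decide

lemma Z5_add : ((0 : ZMod 5) + 1 = 1) ∧ ((1 : ZMod 5) + 1 = 2) ∧ ((2 : ZMod 5) + 1 = 3) ∧
    ((3 : ZMod 5) + 1 = 4) ∧ ((4 : ZMod 5) + 1 = 0) := by decide

/-- The centred operator is orthogonal to the state. -/
lemma sum_psi_phi (b c : ℂ) : ∑ j : ZMod 5, starRingEnd ℂ (psi c j) * phi b c j = 0 := by
  obtain ⟨s0, s1, s2, s3, s4⟩ := Z5_sub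
  obtain ⟨a0, a1, a2, a3, a4⟩ := Z5_add
  have h0 : ∑ j : ZMod 5, starRingEnd ℂ (psi c j) * phi b c j =
      (b * starRingEnd ℂ c + starRingEnd ℂ b * c) - mup b c * ∑ j : ZMod 5, starRingEnd ℂ (psi c j) * psi c j := by
    rw [sum_Z5, sum_Z5]
    unfold phi
    rw [s0, s1, s2, s3, s4, a0, a1, a2, a3, a4, psi_0, psi_1, psi_2, psi_3, psi_4]
    simp only [map_one, map_zero, Complex.conj_conj]
    ring
  rw [h0, sum_psi_sq]
  have h1 : b * starRingEnd ℂ c + starRingEnd ℂ b * c = ((2 * (b * starRingEnd ℂ c).re : ℝ) : ℂ) := by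
    have h2 := Complex.add_conj (b * starRingEnd ℂ c)
    rw [map_mul, Complex.conj_conj] at h2
    rw [h2]
  have h3 : (1 + 2 * ‖c‖ ^ 2 : ℝ) ≠ 0 := by positivity
  rw [h1, ← Complex.ofReal_mul, ← Complex.ofReal_sub]
  unfold mup
  rw [div_mul_cancel₀ _ h3, sub_self, Complex.ofReal_zero]

lemma sum_shift (f : ZMod 5 → ℝ) (a : ZMod 5) : ∑ j, f (j + a) = ∑ j, f j :=
  Equiv.sum_comp (Equiv.addRight a) f

lemma sum_psi_norm (c : ℂ) : ∑ j : ZMod 5, ‖psi c j‖ ^ 2 = 1 + 2 * ‖c‖ ^ 2 := by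
  rw [sum_Z5, psi_0, psi_1, psi_2, psi_3, psi_4]
  simp
  ring

/-- The norm of the centred operator. -/
lemma sum_phi_sq_le (b c : ℂ) :
    ∑ j : ZMod 5, ‖phi b c j‖ ^ 2 ≤ ‖b‖ ^ 2 * (1 + 2 * ‖c‖ ^ 2) := by
  -- the operator is the sum of the two orthogonal parts
  have h1 : ∀ j : ZMod 5, ‖(b * psi c (j - 1) + starRingEnd ℂ b * psi c (j + 1)) / 2‖ ^ 2 =
      ‖phi b c j‖ ^ 2 + mup b c ^ 2 * ‖psi c j‖ ^ 2 +
        2 * mup b c * (starRingEnd ℂ (psi c j) * phi b c j).re := by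
    intro j
    have e : (b * psi c (j - 1) + starRingEnd ℂ b * psi c (j + 1)) / 2 =
        phi b c j + mup b c * psi c j := by
      unfold phi
      ring
    rw [e, Complex.sq_norm, Complex.sq_norm, Complex.sq_norm, Complex.normSq_add,
      Complex.normSq_mul, Complex.normSq_ofReal]
    have e2 : (phi b c j * starRingEnd ℂ ((mup b c : ℂ) * psi c j)).re =
        mup b c * (starRingEnd ℂ (psi c j) * phi b c j).re := by
      rw [map_mul, Complex.conj_ofReal]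
      have e3 : phi b c j * ((mup b c : ℂ) * starRingEnd ℂ (psi c j)) =
          (mup b c : ℂ) * (starRingEnd ℂ (psi c j) * phi b c j) := by ring
      rw [e3, Complex.re_ofReal_mul]
    rw [e2]
    ring
  have h2 : ∑ j : ZMod 5, ‖(b * psi c (j - 1) + starRingEnd ℂ b * psi c (j + 1)) / 2‖ ^ 2 =
      ∑ j : ZMod 5, ‖phi b c j‖ ^ 2 + mup b c ^ 2 * ∑ j : ZMod 5, ‖psi c j‖ ^ 2 := by
    rw [sum_congr rfl fun j _ => h1 j, sum_add_distrib, sum_add_distrib, ← mul_sum, ← mul_sum,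
      ← Complex.re_sum, sum_psi_phi]
    simp
  have h3 : ∑ j : ZMod 5, ‖(b * psi c (j - 1) + starRingEnd ℂ b * psi c (j + 1)) / 2‖ ^ 2 ≤
      ∑ j : ZMod 5, ‖b‖ ^ 2 / 2 * (‖psi c (j - 1)‖ ^ 2 + ‖psi c (j + 1)‖ ^ 2) := by
    refine sum_le_sum fun j _ => ?_
    have e4 : ‖(b * psi c (j - 1) + starRingEnd ℂ b * psi c (j + 1)) / 2‖ ≤
        ‖b‖ * (‖psi c (j - 1)‖ + ‖psi c (j + 1)‖) / 2 := by
      rw [norm_div, Complex.norm_ofNat]
      refine div_le_div_of_nonneg_right ((norm_add_le _ _).trans (le_of_eq ?_)) (by norm_num)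
      rw [norm_mul, norm_mul, RCLike.norm_conj]
      ring
    calc _ ≤ (‖b‖ * (‖psi c (j - 1)‖ + ‖psi c (j + 1)‖) / 2) ^ 2 :=
          pow_le_pow_left₀ (norm_nonneg _) e4 2
      _ ≤ _ := by
          have := sq_nonneg (‖psi c (j - 1)‖ - ‖psi c (j + 1)‖)
          have h5 := mul_nonneg (sq_nonneg ‖b‖) this
          nlinarith
  have h4 : ∑ j : ZMod 5, ‖b‖ ^ 2 / 2 * (‖psi c (j - 1)‖ ^ 2 + ‖psi c (j + 1)‖ ^ 2) =
      ‖b‖ ^ 2 * (1 + 2 * ‖c‖ ^ 2) := by
    rw [← mul_sum, sum_add_distrib]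
    have e5 := sum_shift (fun j => ‖psi c j‖ ^ 2) 1
    have e6 := sum_shift (fun j => ‖psi c j‖ ^ 2) (-1)
    simp only [← sub_eq_add_neg] at e6
    rw [e5, e6, sum_psi_norm]
    ring
  have h5 : 0 ≤ mup b c ^ 2 * ∑ j : ZMod 5, ‖psi c j‖ ^ 2 :=
    mul_nonneg (sq_nonneg _) (sum_nonneg fun _ _ => sq_nonneg _)
  linarith

section

variable {ι : Type} [Fintype ι] [DecidableEq ι]

/-- Sums of products. -/
lemma sum_prod {R : Type*} [CommSemiring R] (g : ι → ZMod 5 → R) :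
    ∑ x : ι → ZMod 5, ∏ l, g l (x l) = ∏ l, ∑ j, g l j := by
  rw [Finset.prod_univ_sum, Fintype.piFinset_univ]

/-- A product vector. -/
noncomputable def prodv (g : ι → ZMod 5 → ℂ) (x : ι → ZMod 5) : ℂ := ∏ l, g l (x l)

lemma inner_prodv (g h : ι → ZMod 5 → ℂ) :
    ∑ x, starRingEnd ℂ (prodv g x) * prodv h x = ∏ l, ∑ j, starRingEnd ℂ (g l j) * h l j := by
  rw [← sum_prod]
  refine sum_congr rfl fun x _ => ?_
  unfold prodv
  rw [map_prod, ← prod_mul_distrib]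

lemma prodv_update (g : ι → ZMod 5 → ℂ) (p : ι) (f : ZMod 5 → ℂ) (x : ι → ZMod 5) :
    prodv (Function.update g p f) x = f (x p) * ∏ l ∈ univ.erase p, g l (x l) := by
  unfold prodv
  rw [← mul_prod_erase _ _ (mem_univ p), Function.update_self]
  refine congrArg _ (prod_congr rfl fun l hl => ?_)
  rw [Function.update_of_ne (ne_of_mem_erase hl)]

lemma prodv_shift (g : ι → ZMod 5 → ℂ) (p : ι) (a : ZMod 5) (x : ι → ZMod 5) :
    prodv g (x + Pi.single p a) = g p (x p + a) * ∏ l ∈ univ.erase p, g l (x l) := by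
  unfold prodv
  rw [← mul_prod_erase _ _ (mem_univ p), Pi.add_apply, Pi.single_eq_same]
  refine congrArg _ (prod_congr rfl fun l hl => ?_)
  rw [Pi.add_apply, Pi.single_eq_of_ne (ne_of_mem_erase hl), add_zero]

lemma prodv_self (g : ι → ZMod 5 → ℂ) (p : ι) (x : ι → ZMod 5) :
    prodv g x = g p (x p) * ∏ l ∈ univ.erase p, g l (x l) := by
  unfold prodv
  rw [← mul_prod_erase _ _ (mem_univ p)]

/-- The state. -/
noncomputable def Psi (c : ι → ℂ) : (ι → ZMod 5) → ℂ := prodv fun l => psi (c l)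

/-- The square of the norm of the state. -/
noncomputable def Nrm (c : ι → ℂ) : ℝ := ∏ l, (1 + 2 * ‖c l‖ ^ 2)

lemma Nrm_pos (c : ι → ℂ) : 0 < Nrm c := prod_pos fun _ _ => by positivity

/-- The operator. -/
noncomputable def opX (b : ι → ℂ) (v : (ι → ZMod 5) → ℂ) (x : ι → ZMod 5) : ℂ :=
  ∑ p, (b p * v (x + Pi.single p (-1)) + starRingEnd ℂ (b p) * v (x + Pi.single p 1)) / 2

/-- The mean of the operator in the state. -/
noncomputable def muX (b c : ι → ℂ) : ℝ := ∑ p, mup (b p) (c p)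

/-- The centred operator applied to the state is a sum of product vectors. -/
lemma opX_Psi (b c : ι → ℂ) (x : ι → ZMod 5) :
    opX b (Psi c) x - muX b c * Psi c x =
      ∑ p, prodv (Function.update (fun l => psi (c l)) p (phi (b p) (c p))) x := by
  unfold opX muX
  rw [Complex.ofReal_sum, sum_mul, ← sum_sub_distrib]
  refine sum_congr rfl fun p _ => ?_
  rw [prodv_update]
  unfold Psi
  rw [prodv_shift, prodv_shift, prodv_self _ p x]
  unfold phi
  rw [sub_eq_add_neg (x p) 1]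
  ring

lemma sq_norm_eq (z : ℂ) : ((‖z‖ ^ 2 : ℝ) : ℂ) = starRingEnd ℂ z * z := by
  rw [Complex.conj_mul']
  push_cast
  rfl

lemma norm_prodv (g : ι → ZMod 5 → ℂ) :
    ∑ x, ‖prodv g x‖ ^ 2 = ∏ l, ∑ j, ‖g l j‖ ^ 2 := by
  rw [← sum_prod]
  refine sum_congr rfl fun x _ => ?_
  unfold prodv
  rw [norm_prod, prod_pow]

lemma sum_norm_Psi (c : ι → ℂ) : ∑ x, ‖Psi c x‖ ^ 2 = Nrm c := by
  unfold Psi Nrm
  rw [norm_prodv]
  exact prod_congr rfl fun l _ => sum_psi_norm _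

/-- Pythagoras. -/
lemma sum_norm_sq_orth {α : Type*} [Fintype α] (w : ι → α → ℂ)
    (h : ∀ p p', p ≠ p' → ∑ x, starRingEnd ℂ (w p x) * w p' x = 0) :
    ∑ x, ‖∑ p, w p x‖ ^ 2 = ∑ p, ∑ x, ‖w p x‖ ^ 2 := by
  have h1 : ((∑ x, ‖∑ p, w p x‖ ^ 2 : ℝ) : ℂ) = ((∑ p, ∑ x, ‖w p x‖ ^ 2 : ℝ) : ℂ) := by
    rw [Complex.ofReal_sum, Complex.ofReal_sum]
    calc ∑ x, ((‖∑ p, w p x‖ ^ 2 : ℝ) : ℂ) = ∑ x, ∑ p, ∑ p', starRingEnd ℂ (w p x) * w p' x := by
          refine sum_congr rfl fun x _ => ?_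
          rw [sq_norm_eq, map_sum, sum_mul_sum]
      _ = ∑ p, ∑ p', ∑ x, starRingEnd ℂ (w p x) * w p' x := by
          rw [sum_comm]
          exact sum_congr rfl fun p _ => sum_comm
      _ = ∑ p, ∑ x, starRingEnd ℂ (w p x) * w p x := by
          refine sum_congr rfl fun p _ => ?_
          rw [sum_eq_single p (fun p' _ hne => h p p' hne.symm) (fun h => absurd (mem_univ _) h)]
      _ = _ := by
          refine sum_congr rfl fun p _ => ?_
          rw [Complex.ofReal_sum]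
          exact sum_congr rfl fun x _ => (sq_norm_eq _).symm
  exact_mod_cast h1

/-- **The variance in the product state.** -/
lemma var_Psi (b c : ι → ℂ) :
    ∑ x, ‖opX b (Psi c) x - muX b c * Psi c x‖ ^ 2 ≤ Nrm c * ∑ p, ‖b p‖ ^ 2 := by
  have h1 : ∑ x, ‖opX b (Psi c) x - muX b c * Psi c x‖ ^ 2 = ∑ p, ∑ x,
      ‖prodv (Function.update (fun l => psi (c l)) p (phi (b p) (c p))) x‖ ^ 2 := by
    rw [← sum_norm_sq_orth (fun p x =>
      prodv (Function.update (fun l => psi (c l)) p (phi (b p) (c p))) x)]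
    · exact sum_congr rfl fun x _ => by rw [opX_Psi]
    · intro p p' hne
      rw [inner_prodv]
      refine prod_eq_zero (mem_univ p') ?_
      rw [Function.update_of_ne hne.symm, Function.update_self]
      exact sum_psi_phi _ _
  rw [h1, mul_sum]
  refine sum_le_sum fun p _ => ?_
  rw [norm_prodv, ← mul_prod_erase _ _ (mem_univ p), Function.update_self]
  have h2 : ∏ l ∈ univ.erase p,
      ∑ j, ‖Function.update (fun l => psi (c l)) p (phi (b p) (c p)) l j‖ ^ 2 =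
      ∏ l ∈ univ.erase p, (1 + 2 * ‖c l‖ ^ 2) := by
    refine prod_congr rfl fun l hl => ?_
    rw [Function.update_of_ne (ne_of_mem_erase hl)]
    exact sum_psi_norm _
  rw [h2]
  unfold Nrm
  rw [← mul_prod_erase _ (fun l => (1 + 2 * ‖c l‖ ^ 2)) (mem_univ p)]
  calc _ ≤ (‖b p‖ ^ 2 * (1 + 2 * ‖c p‖ ^ 2)) * ∏ l ∈ univ.erase p, (1 + 2 * ‖c l‖ ^ 2) :=
        mul_le_mul_of_nonneg_right (sum_phi_sq_le _ _) (prod_nonneg fun _ _ => by positivity)
    _ = _ := by ring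

/-! ### The commutator -/

lemma sum_psi_shift (c : ℂ) {a : ZMod 5} (ha : a = 1 ∨ a = -1) :
    ∑ j : ZMod 5, ‖psi c (j + a)‖ * ‖psi c j‖ = 2 * ‖c‖ := by
  obtain ⟨s0, s1, s2, s3, s4⟩ := Z5_sub
  obtain ⟨a0, a1, a2, a3, a4⟩ := Z5_add
  rcases ha with rfl | rfl
  · rw [sum_Z5, a0, a1, a2, a3, a4, psi_0, psi_1, psi_2, psi_3, psi_4]
    simp
    ring
  · simp only [← sub_eq_add_neg]
    rw [sum_Z5, s0, s1, s2, s3, s4, psi_0, psi_1, psi_2, psi_3, psi_4]
    simp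
    ring

/-- The overlap of two shifts of the state. -/
lemma overlap (c : ι → ℂ) {a : ZMod 5} (ha : a = 1 ∨ a = -1) {p p' : ι} (hne : p ≠ p') :
    ∑ x : ι → ZMod 5, ‖Psi c (x + Pi.single p a)‖ * ‖Psi c (x + Pi.single p' a)‖ ≤
      Nrm c * (2 * ‖c p‖) * (2 * ‖c p'‖) := by
  have h1 : ∀ x : ι → ZMod 5, ‖Psi c (x + Pi.single p a)‖ * ‖Psi c (x + Pi.single p' a)‖ =
      ∏ l, (‖psi (c l) (x l + if l = p then a else 0)‖ *
        ‖psi (c l) (x l + if l = p' then a else 0)‖) := by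
    intro x
    unfold Psi prodv
    rw [norm_prod, norm_prod, ← prod_mul_distrib]
    refine prod_congr rfl fun l _ => ?_
    rw [Pi.add_apply, Pi.add_apply]
    have e1 : ∀ q : ι, (Pi.single q a : ι → ZMod 5) l = if l = q then a else 0 := by
      intro q
      by_cases h : l = q
      · rw [if_pos h, h, Pi.single_eq_same]
      · rw [if_neg h, Pi.single_eq_of_ne h]
    rw [e1, e1]
  rw [sum_congr rfl fun x _ => h1 x, sum_prod (fun l j =>
    ‖psi (c l) (j + if l = p then a else 0)‖ * ‖psi (c l) (j + if l = p' then a else 0)‖)]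
  have h2 : p' ∈ univ.erase p := mem_erase.mpr ⟨hne.symm, mem_univ _⟩
  rw [← mul_prod_erase _ _ (mem_univ p), ← mul_prod_erase _ _ h2]
  unfold Nrm
  rw [← mul_prod_erase _ (fun l => (1 + 2 * ‖c l‖ ^ 2)) (mem_univ p),
    ← mul_prod_erase _ (fun l => (1 + 2 * ‖c l‖ ^ 2)) h2]
  simp only [if_true, if_neg hne, if_neg hne.symm, add_zero]
  rw [sum_psi_shift _ ha]
  have h3 : ∑ j : ZMod 5, ‖psi (c p') j‖ * ‖psi (c p') (j + a)‖ = 2 * ‖c p'‖ := by
    rw [← sum_psi_shift (c p') ha]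
    exact sum_congr rfl fun j _ => mul_comm _ _
  rw [h3]
  have h4 : ∏ l ∈ (univ.erase p).erase p', ∑ j : ZMod 5,
      ‖psi (c l) (j + if l = p then a else 0)‖ * ‖psi (c l) (j + if l = p' then a else 0)‖ =
      ∏ l ∈ (univ.erase p).erase p', (1 + 2 * ‖c l‖ ^ 2) := by
    refine prod_congr rfl fun l hl => ?_
    have hl1 := ne_of_mem_erase hl
    have hl2 := ne_of_mem_erase (mem_of_mem_erase hl)
    simp only [if_neg hl1, if_neg hl2, add_zero]
    rw [← sum_psi_norm]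
    exact sum_congr rfl fun j _ => (sq _).symm
  rw [h4]
  set Q := ∏ l ∈ (univ.erase p).erase p', (1 + 2 * ‖c l‖ ^ 2) with hQ
  have hQ0 : 0 ≤ Q := prod_nonneg fun _ _ => by positivity
  have e1 : (0:ℝ) ≤ 2 * ‖c p‖ * (2 * ‖c p'‖) * Q := by positivity
  have e2 : (1:ℝ) ≤ (1 + 2 * ‖c p‖ ^ 2) * (1 + 2 * ‖c p'‖ ^ 2) := by
    nlinarith [sq_nonneg ‖c p‖, sq_nonneg ‖c p'‖,
      mul_nonneg (sq_nonneg ‖c p‖) (sq_nonneg ‖c p'‖)]
  calc 2 * ‖c p‖ * (2 * ‖c p'‖ * Q) = 2 * ‖c p‖ * (2 * ‖c p'‖) * Q * 1 := by ring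
    _ ≤ 2 * ‖c p‖ * (2 * ‖c p'‖) * Q * ((1 + 2 * ‖c p‖ ^ 2) * (1 + 2 * ‖c p'‖ ^ 2)) :=
        mul_le_mul_of_nonneg_left e2 e1
    _ = _ := by ring

/-- The bound of a sum of shifts. -/
lemma comm_bound (c : ι → ℂ) {a : ZMod 5} (ha : a = 1 ∨ a = -1) (β : ι → ℝ)
    (hβ : ∀ p, 0 ≤ β p) :
    ∑ x : ι → ZMod 5, (∑ p, β p * ‖Psi c (x + Pi.single p a)‖) ^ 2 ≤
      Nrm c * (∑ p, β p ^ 2 + (2 * ∑ p, β p * ‖c p‖) ^ 2) := by
  have h1 : ∑ x : ι → ZMod 5, (∑ p, β p * ‖Psi c (x + Pi.single p a)‖) ^ 2 =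
      ∑ p, ∑ p', β p * β p' *
        ∑ x : ι → ZMod 5, ‖Psi c (x + Pi.single p a)‖ * ‖Psi c (x + Pi.single p' a)‖ := by
    calc _ = ∑ x : ι → ZMod 5, ∑ p, ∑ p', β p * β p' *
          (‖Psi c (x + Pi.single p a)‖ * ‖Psi c (x + Pi.single p' a)‖) := by
          refine sum_congr rfl fun x _ => ?_
          rw [sq, sum_mul_sum]
          exact sum_congr rfl fun p _ => sum_congr rfl fun p' _ => by ring
      _ = _ := by
          rw [sum_comm]
          refine sum_congr rfl fun p _ => ?_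
          rw [sum_comm]
          exact sum_congr rfl fun p' _ => (mul_sum _ _ _).symm
  rw [h1]
  have h2 : ∀ p p', β p * β p' *
        ∑ x : ι → ZMod 5, ‖Psi c (x + Pi.single p a)‖ * ‖Psi c (x + Pi.single p' a)‖ ≤
      (if p = p' then β p ^ 2 * Nrm c else 0) +
        Nrm c * ((2 * (β p * ‖c p‖)) * (2 * (β p' * ‖c p'‖))) := by
    intro p p'
    have hb := mul_nonneg (hβ p) (hβ p')
    have hN := (Nrm_pos c).le
    by_cases h : p = p'
    · subst h
      rw [if_pos rfl]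
      have h3 : ∑ x : ι → ZMod 5, ‖Psi c (x + Pi.single p a)‖ * ‖Psi c (x + Pi.single p a)‖ = Nrm c := by
        rw [← sum_norm_Psi, ← Equiv.sum_comp (Equiv.addRight (Pi.single p a : ι → ZMod 5))
          (fun x => ‖Psi c x‖ ^ 2)]
        exact sum_congr rfl fun x _ => (sq _).symm
      rw [h3]
      have h4 : 0 ≤ Nrm c * ((2 * (β p * ‖c p‖)) * (2 * (β p * ‖c p‖))) :=
        mul_nonneg hN (mul_self_nonneg _)
      have h5 : β p * β p * Nrm c = β p ^ 2 * Nrm c := by ring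
      linarith
    · rw [if_neg h, zero_add]
      refine (mul_le_mul_of_nonneg_left (overlap c ha h) hb).trans (le_of_eq ?_)
      ring
  refine (sum_le_sum fun p _ => sum_le_sum fun p' _ => h2 p p').trans (le_of_eq ?_)
  simp_rw [sum_add_distrib]
  simp only [sum_ite_eq, mem_univ, if_true]
  simp_rw [← mul_sum]
  rw [← sum_mul, ← sum_mul, ← mul_sum]
  ring

/-- **The variance in the truncated product state.** -/
theorem var_trunc (b c : ι → ℂ) (P : (ι → ZMod 5) → ℝ) (η : ι → ℝ) (hη : ∀ p, 0 ≤ η p)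
    (hP : ∀ x, |P x| ≤ 1)
    (hPs : ∀ x p, Psi c x ≠ 0 → |P (x + Pi.single p 1) - P x| ≤ η p)
    (hPa : ∀ x p, Psi c x ≠ 0 → |P (x + Pi.single p (-1)) - P x| ≤ η p) :
    ∑ x, ‖opX b (fun x => P x * Psi c x) x - muX b c * (P x * Psi c x)‖ ^ 2 ≤
      3 * Nrm c * (∑ p, ‖b p‖ ^ 2 * (1 + η p ^ 2 / 2) + 2 * (∑ p, ‖b p‖ * ‖c p‖ * η p) ^ 2) := by
  have key : ∀ x : ι → ZMod 5,
      ‖opX b (fun x => P x * Psi c x) x - muX b c * (P x * Psi c x)‖ ^ 2 ≤
      3 * (‖opX b (Psi c) x - muX b c * Psi c x‖ ^ 2 +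
        (∑ p, ‖b p‖ * η p / 2 * ‖Psi c (x + Pi.single p (-1))‖) ^ 2 +
        (∑ p, ‖b p‖ * η p / 2 * ‖Psi c (x + Pi.single p 1)‖) ^ 2) := by
    intro x
    have e1 : opX b (fun x => P x * Psi c x) x - muX b c * (P x * Psi c x) =
        P x * (opX b (Psi c) x - muX b c * Psi c x) +
        ∑ p, b p / 2 * ((P (x + Pi.single p (-1)) - P x : ℝ) * Psi c (x + Pi.single p (-1))) +
        ∑ p, starRingEnd ℂ (b p) / 2 *
          ((P (x + Pi.single p 1) - P x : ℝ) * Psi c (x + Pi.single p 1)) := by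
      unfold opX
      rw [mul_sub, mul_sum, add_assoc, ← sum_add_distrib, sub_add_eq_add_sub, ← sum_add_distrib]
      have e2 : ∀ p, (b p * (P (x + Pi.single p (-1)) * Psi c (x + Pi.single p (-1))) +
          starRingEnd ℂ (b p) * (P (x + Pi.single p 1) * Psi c (x + Pi.single p 1))) / 2 =
          P x * ((b p * Psi c (x + Pi.single p (-1)) +
            starRingEnd ℂ (b p) * Psi c (x + Pi.single p 1)) / 2) +
          (b p / 2 * ((P (x + Pi.single p (-1)) - P x : ℝ) * Psi c (x + Pi.single p (-1))) +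
          starRingEnd ℂ (b p) / 2 *
            ((P (x + Pi.single p 1) - P x : ℝ) * Psi c (x + Pi.single p 1))) := by
        intro p
        push_cast
        ring
      rw [sum_congr rfl fun p _ => e2 p]
      ring
    have hA : ‖(P x : ℂ) * (opX b (Psi c) x - muX b c * Psi c x)‖ ≤
        ‖opX b (Psi c) x - muX b c * Psi c x‖ := by
      rw [norm_mul, Complex.norm_real, Real.norm_eq_abs]
      exact mul_le_of_le_one_left (norm_nonneg _) (hP x)
    have hB : ‖∑ p, b p / 2 *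
        ((P (x + Pi.single p (-1)) - P x : ℝ) * Psi c (x + Pi.single p (-1)))‖ ≤
        ∑ p, ‖b p‖ * η p / 2 * ‖Psi c (x + Pi.single p (-1))‖ := by
      refine (norm_sum_le _ _).trans (sum_le_sum fun p _ => ?_)
      rw [norm_mul, norm_mul, norm_div, Complex.norm_ofNat, Complex.norm_real, Real.norm_eq_abs]
      by_cases h0 : Psi c (x + Pi.single p (-1)) = 0
      · rw [h0, norm_zero, mul_zero, mul_zero, mul_zero]
      · have h1 := hPs _ p h0
        have h2 : x + Pi.single p (-1) + Pi.single p 1 = x := by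
          rw [add_assoc, ← Pi.single_add, neg_add_cancel, Pi.single_zero, add_zero]
        rw [h2, abs_sub_comm] at h1
        have h3 := mul_le_mul_of_nonneg_left h1
          (mul_nonneg (norm_nonneg (b p)) (norm_nonneg (Psi c (x + Pi.single p (-1)))))
        nlinarith
    have hC : ‖∑ p, starRingEnd ℂ (b p) / 2 *
        ((P (x + Pi.single p 1) - P x : ℝ) * Psi c (x + Pi.single p 1))‖ ≤
        ∑ p, ‖b p‖ * η p / 2 * ‖Psi c (x + Pi.single p 1)‖ := by
      refine (norm_sum_le _ _).trans (sum_le_sum fun p _ => ?_)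
      rw [norm_mul, norm_mul, norm_div, Complex.norm_ofNat, Complex.norm_real, Real.norm_eq_abs,
        RCLike.norm_conj]
      by_cases h0 : Psi c (x + Pi.single p 1) = 0
      · rw [h0, norm_zero, mul_zero, mul_zero, mul_zero]
      · have h1 := hPa _ p h0
        have h2 : x + Pi.single p 1 + Pi.single p (-1) = x := by
          rw [add_assoc, ← Pi.single_add, add_neg_cancel, Pi.single_zero, add_zero]
        rw [h2, abs_sub_comm] at h1
        have h3 := mul_le_mul_of_nonneg_left h1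
          (mul_nonneg (norm_nonneg (b p)) (norm_nonneg (Psi c (x + Pi.single p 1))))
        nlinarith
    rw [e1]
    set α := ‖opX b (Psi c) x - muX b c * Psi c x‖ with hα
    set β := ∑ p, ‖b p‖ * η p / 2 * ‖Psi c (x + Pi.single p (-1))‖ with hβ
    set γ := ∑ p, ‖b p‖ * η p / 2 * ‖Psi c (x + Pi.single p 1)‖ with hγ
    have h5 := norm_add₃_le (a := (P x : ℂ) * (opX b (Psi c) x - muX b c * Psi c x))
      (b := ∑ p, b p / 2 *
        ((P (x + Pi.single p (-1)) - P x : ℝ) * Psi c (x + Pi.single p (-1))))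
      (c := ∑ p, starRingEnd ℂ (b p) / 2 *
        ((P (x + Pi.single p 1) - P x : ℝ) * Psi c (x + Pi.single p 1)))
    have h6 := pow_le_pow_left₀ (norm_nonneg _) (h5.trans (add_le_add_three hA hB hC)) 2
    refine h6.trans ?_
    nlinarith [sq_nonneg (α - β), sq_nonneg (α - γ), sq_nonneg (β - γ)]
  refine (sum_le_sum fun x _ => key x).trans ?_
  rw [← mul_sum, sum_add_distrib, sum_add_distrib]
  have hβ : ∀ p, 0 ≤ ‖b p‖ * η p / 2 := fun p =>
    div_nonneg (mul_nonneg (norm_nonneg _) (hη p)) (by norm_num)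
  have h1 := var_Psi b c
  have h2 := comm_bound c (a := -1) (Or.inr rfl) (fun p => ‖b p‖ * η p / 2) hβ
  have h3 := comm_bound c (a := 1) (Or.inl rfl) (fun p => ‖b p‖ * η p / 2) hβ
  have e1 : ∑ p, (‖b p‖ * η p / 2) ^ 2 = (∑ p, ‖b p‖ ^ 2 * η p ^ 2) / 4 := by
    rw [sum_div]
    exact sum_congr rfl fun p _ => by ring
  have e2 : 2 * ∑ p, ‖b p‖ * η p / 2 * ‖c p‖ = ∑ p, ‖b p‖ * ‖c p‖ * η p := by
    rw [mul_sum]
    exact sum_congr rfl fun p _ => by ring
  have e3 : ∑ p, ‖b p‖ ^ 2 * (1 + η p ^ 2 / 2) =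
      ∑ p, ‖b p‖ ^ 2 + (∑ p, ‖b p‖ ^ 2 * η p ^ 2) / 2 := by
    rw [sum_div, ← sum_add_distrib]
    exact sum_congr rfl fun p _ => by ring
  rw [e1, e2] at h2 h3
  rw [e3]
  nlinarith [h1, h2, h3]

end

end Pool.Agent.PF.Var
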