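import Pool.Agent.PF.VarA
import Pool.Agent.ZGap.Res.Diag

set_option autoImplicit false

/-!
# Exponent vectors as rational numbers; the mean value theorem
-/

namespace Pool.Agent.PF.Var

open Finset MeasureTheory

/-- The exponent in the numerator. -/
def pe (j : ZMod 5) : ℕ := if j = 1 then 1 else if j = 2 then 2 else 0

/-- The exponent in the denominator. -/
def ne (j : ZMod 5) : ℕ := if j = 4 then 1 else if j = 3 then 2 else 0

lemma pe_ne_inj : ∀ a b : ZMod 5, pe a + ne b = pe b + ne a → a = b := by decide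

lemma pe_add_one : ∀ j : ZMod 5, j = 0 ∨ j = 1 ∨ j = -1 →
    (pe (j + 1) = pe j + 1 ∧ ne (j + 1) = ne j) ∨ (pe (j + 1) = pe j ∧ ne (j + 1) + 1 = ne j) := by
  decide

lemma pe_sub_one : ∀ j : ZMod 5, j = 0 ∨ j = 1 ∨ j = -1 →
    (pe (j + -1) + 1 = pe j ∧ ne (j + -1) = ne j) ∨
      (pe (j + -1) = pe j ∧ ne (j + -1) = ne j + 1) := by
  decide

section

variable {I : Finset ℕ}

/-- The logarithm of the numerator. -/
noncomputable def pos (x : I → ZMod 5) : ℝ := ∑ p, (pe (x p) : ℝ) * Real.log (p : ℕ)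

/-- The logarithm of the denominator. -/
noncomputable def neg (x : I → ZMod 5) : ℝ := ∑ p, (ne (x p) : ℝ) * Real.log (p : ℕ)

/-- The logarithm of the rational number. -/
noncomputable def lam (x : I → ZMod 5) : ℝ := pos x - neg x

lemma log_nat_nonneg (p : ℕ) : 0 ≤ Real.log p := Real.log_natCast_nonneg p

lemma pos_nonneg (x : I → ZMod 5) : 0 ≤ pos x :=
  sum_nonneg fun _ _ => mul_nonneg (Nat.cast_nonneg _) (log_nat_nonneg _)

lemma neg_nonneg (x : I → ZMod 5) : 0 ≤ neg x :=
  sum_nonneg fun _ _ => mul_nonneg (Nat.cast_nonneg _) (log_nat_nonneg _)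

/-- Changing one exponent. -/
lemma sum_shift_one (f : ZMod 5 → ℝ) (x : I → ZMod 5) (p : I) (a : ZMod 5) :
    ∑ l : I, f ((x + Pi.single p a : I → ZMod 5) l) * Real.log (l : ℕ) =
      ∑ l : I, f (x l) * Real.log (l : ℕ) + (f (x p + a) - f (x p)) * Real.log (p : ℕ) := by
  rw [← add_sum_erase _ _ (mem_univ p), ← add_sum_erase _ (fun l : I => f (x l) *
    Real.log (l : ℕ)) (mem_univ p)]
  have h1 : ∑ l ∈ univ.erase p, f ((x + Pi.single p a : I → ZMod 5) l) * Real.log (l : ℕ) =
      ∑ l ∈ univ.erase p, f (x l) * Real.log (l : ℕ) := by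
    refine sum_congr rfl fun l hl => ?_
    rw [Pi.add_apply, Pi.single_eq_of_ne (ne_of_mem_erase hl), add_zero]
  rw [h1, Pi.add_apply, Pi.single_eq_same]
  ring

lemma pos_shift (x : I → ZMod 5) (p : I) (a : ZMod 5) :
    pos (x + Pi.single p a) = pos x + ((pe (x p + a) : ℝ) - pe (x p)) * Real.log (p : ℕ) :=
  sum_shift_one (fun j => (pe j : ℝ)) x p a

lemma neg_shift (x : I → ZMod 5) (p : I) (a : ZMod 5) :
    neg (x + Pi.single p a) = neg x + ((ne (x p + a) : ℝ) - ne (x p)) * Real.log (p : ℕ) :=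
  sum_shift_one (fun j => (ne j : ℝ)) x p a

/-- The effect of a multiplication by `p`. -/
lemma shift_one {x : I → ZMod 5} {p : I} (h : x p = 0 ∨ x p = 1 ∨ x p = -1) :
    lam (x + Pi.single p 1) = lam x + Real.log (p : ℕ) ∧
      |pos (x + Pi.single p 1) - pos x| + |neg (x + Pi.single p 1) - neg x| =
        Real.log (p : ℕ) := by
  have hl := log_nat_nonneg (p : ℕ)
  unfold lam
  rw [pos_shift, neg_shift]
  rcases pe_add_one _ h with ⟨h1, h2⟩ | ⟨h1, h2⟩
  · have e1 : (pe (x p + 1) : ℝ) = pe (x p) + 1 := by exact_mod_cast h1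
    rw [h2, e1]
    constructor
    · ring
    · have e2 : pos x + ((pe (x p) : ℝ) + 1 - pe (x p)) * Real.log (p : ℕ) - pos x =
          Real.log (p : ℕ) := by ring
      have e3 : neg x + ((ne (x p) : ℝ) - ne (x p)) * Real.log (p : ℕ) - neg x = 0 := by ring
      rw [e2, e3, abs_zero, add_zero, abs_of_nonneg hl]
  · have e1 : (ne (x p) : ℝ) = ne (x p + 1) + 1 := by exact_mod_cast h2.symm
    rw [h1, e1]
    constructor
    · ring
    · have e2 : pos x + ((pe (x p) : ℝ) - pe (x p)) * Real.log (p : ℕ) - pos x = 0 := by ring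
      have e3 : neg x + ((ne (x p + 1) : ℝ) - (ne (x p + 1) + 1)) * Real.log (p : ℕ) - neg x =
          -Real.log (p : ℕ) := by ring
      rw [e2, e3, abs_zero, zero_add, abs_neg, abs_of_nonneg hl]

/-- The effect of a division by `p`. -/
lemma shift_neg {x : I → ZMod 5} {p : I} (h : x p = 0 ∨ x p = 1 ∨ x p = -1) :
    lam (x + Pi.single p (-1)) = lam x - Real.log (p : ℕ) ∧
      |pos (x + Pi.single p (-1)) - pos x| + |neg (x + Pi.single p (-1)) - neg x| =
        Real.log (p : ℕ) := by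
  have hl := log_nat_nonneg (p : ℕ)
  unfold lam
  rw [pos_shift, neg_shift]
  rcases pe_sub_one _ h with ⟨h1, h2⟩ | ⟨h1, h2⟩
  · have e1 : (pe (x p) : ℝ) = pe (x p + -1) + 1 := by exact_mod_cast h1.symm
    rw [h2, e1]
    constructor
    · ring
    · have e2 : pos x + ((pe (x p + -1) : ℝ) - (pe (x p + -1) + 1)) * Real.log (p : ℕ) - pos x =
          -Real.log (p : ℕ) := by ring
      have e3 : neg x + ((ne (x p) : ℝ) - ne (x p)) * Real.log (p : ℕ) - neg x = 0 := by ring
      rw [e2, e3, abs_zero, add_zero, abs_neg, abs_of_nonneg hl]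
  · have e1 : (ne (x p + -1) : ℝ) = ne (x p) + 1 := by exact_mod_cast h2
    rw [h1, e1]
    constructor
    · ring
    · have e2 : pos x + ((pe (x p) : ℝ) - pe (x p)) * Real.log (p : ℕ) - pos x = 0 := by ring
      have e3 : neg x + ((ne (x p) : ℝ) + 1 - ne (x p)) * Real.log (p : ℕ) - neg x =
          Real.log (p : ℕ) := by ring
      rw [e2, e3, abs_zero, zero_add, abs_of_nonneg hl]

/-! ### Spacing -/

/-- The numerator or denominator. -/
def num (f : I → ℕ) : ℕ := ∏ p : I, (p : ℕ) ^ f p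

lemma num_pos (hI : ∀ p ∈ I, p.Prime) (f : I → ℕ) : 0 < num f :=
  prod_pos fun p _ => pow_pos (hI p p.2).pos _

lemma log_num (hI : ∀ p ∈ I, p.Prime) (f : I → ℕ) :
    Real.log (num f) = ∑ p : I, (f p : ℝ) * Real.log (p : ℕ) := by
  unfold num
  push_cast
  rw [Real.log_prod fun p _ => pow_ne_zero _ (by exact_mod_cast (hI p p.2).ne_zero)]
  exact sum_congr rfl fun p _ => Real.log_pow _ _

lemma factorization_num (hI : ∀ p ∈ I, p.Prime) (f : I → ℕ) (q : I) :
    (num f).factorization q = f q := by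
  unfold num
  have h0 : ∀ p ∈ (univ : Finset I), (p : ℕ) ^ f p ≠ 0 := fun p _ =>
    pow_ne_zero _ (hI p p.2).ne_zero
  rw [Nat.factorization_prod h0, Finsupp.finsetSum_apply, sum_eq_single q]
  · rw [Nat.Prime.factorization_pow (hI q q.2), Finsupp.single_eq_same]
  · intro p _ hne
    rw [Nat.Prime.factorization_pow (hI p p.2), Finsupp.single_eq_of_ne]
    exact fun h => hne (Subtype.ext h.symm)
  · exact fun h => absurd (mem_univ _) h

lemma spacing_lam (hI : ∀ p ∈ I, p.Prime) {A : ℝ} {x x' : I → ZMod 5} (hne : x ≠ x')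
    (h1 : pos x ≤ A) (h2 : neg x' ≤ A) : Real.exp (-(2 * A)) / 2 ≤ |lam x - lam x'| := by
  set a := num fun p : I => pe (x p) + ne (x' p) with ha
  set b := num fun p : I => pe (x' p) + ne (x p) with hb
  have hab : a ≠ b := by
    intro h
    refine hne (funext fun q => pe_ne_inj _ _ ?_)
    have h3 := factorization_num hI (fun p : I => pe (x p) + ne (x' p)) q
    have h4 := factorization_num hI (fun p : I => pe (x' p) + ne (x p)) q
    rw [← ha, h, hb, h4] at h3
    exact h3.symm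
  have key := Pool.Agent.ZGap.Res.abs_log_sub_ge (num_pos hI _) (num_pos hI _) hab
  have e1 : Real.log a = pos x + neg x' := by
    rw [ha, log_num hI]
    unfold pos neg
    rw [← sum_add_distrib]
    exact sum_congr rfl fun p _ => by push_cast; ring
  have e2 : Real.log b = pos x' + neg x := by
    rw [hb, log_num hI]
    unfold pos neg
    rw [← sum_add_distrib]
    exact sum_congr rfl fun p _ => by push_cast; ring
  rw [e1, e2] at key
  have e3 : pos x + neg x' - (pos x' + neg x) = lam x - lam x' := by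
    unfold lam
    ring
  rw [e3] at key
  refine le_trans ?_ key
  have ha0 : (0:ℝ) < a := by exact_mod_cast num_pos hI _
  have e4 : (a : ℝ) ≤ Real.exp (2 * A) := by
    rw [← Real.log_le_iff_le_exp ha0, e1]
    linarith
  rw [Real.exp_neg, ← one_div, div_div, mul_comm]
  exact one_div_le_one_div_of_le (by positivity) (by linarith)

/-- The Dirichlet polynomial with the coefficients `y`. -/
noncomputable def poly (y : (I → ZMod 5) → ℂ) (t : ℝ) : ℂ :=
  ∑ x, y x * Complex.exp (((-(t * lam x) : ℝ) : ℂ) * Complex.I)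

lemma sq_norm_poly (y : (I → ZMod 5) → ℂ) (t : ℝ) :
    ((‖poly y t‖ ^ 2 : ℝ) : ℂ) = ∑ x, ∑ x', starRingEnd ℂ (y x) * y x' *
      Complex.exp (((t * (lam x - lam x') : ℝ) : ℂ) * Complex.I) := by
  rw [sq_norm_eq]
  unfold poly
  rw [map_sum, sum_mul_sum]
  refine sum_congr rfl fun x _ => sum_congr rfl fun x' _ => ?_
  rw [map_mul, ← Complex.exp_conj, map_mul, Complex.conj_ofReal, Complex.conj_I]
  have h : Complex.exp (((t * (lam x - lam x') : ℝ) : ℂ) * Complex.I) =
      Complex.exp (((-(t * lam x) : ℝ) : ℂ) * -Complex.I) *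
        Complex.exp (((-(t * lam x') : ℝ) : ℂ) * Complex.I) := by
    rw [← Complex.exp_add]
    congr 1
    push_cast
    ring
  rw [h]
  ring

/-- **The mean value theorem.** -/
theorem mean_value (hI : ∀ p ∈ I, p.Prime) {A δ : ℝ} {Om : ℝ → ℝ} (hOm : Integrable Om)
    (hvan : ∀ l : ℝ, δ ≤ |l| →
      ∫ t : ℝ, (Om t : ℂ) * Complex.exp (((t * l : ℝ) : ℂ) * Complex.I) = 0)
    (hδ : δ ≤ Real.exp (-(2 * A)) / 2) (y : (I → ZMod 5) → ℂ)
    (hy : ∀ x, y x ≠ 0 → pos x ≤ A ∧ neg x ≤ A) :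
    ∫ t : ℝ, Om t * ‖poly y t‖ ^ 2 = (∫ t : ℝ, Om t) * ∑ x, ‖y x‖ ^ 2 := by
  have hint : ∀ l : ℝ, Integrable fun t : ℝ =>
      (Om t : ℂ) * Complex.exp (((t * l : ℝ) : ℂ) * Complex.I) := by
    intro l
    refine hOm.ofReal.mul_bdd (c := 1) ?_ (Filter.Eventually.of_forall fun t => ?_)
    · exact Continuous.aestronglyMeasurable (by fun_prop)
    · rw [Complex.norm_exp_ofReal_mul_I]
  have h1 : ((∫ t : ℝ, Om t * ‖poly y t‖ ^ 2 : ℝ) : ℂ) =
      (((∫ t : ℝ, Om t) * ∑ x, ‖y x‖ ^ 2 : ℝ) : ℂ) := by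
    rw [← integral_complex_ofReal]
    have e1 : ∀ t : ℝ, ((Om t * ‖poly y t‖ ^ 2 : ℝ) : ℂ) =
        ∑ x, ∑ x', (starRingEnd ℂ (y x) * y x') *
          ((Om t : ℂ) * Complex.exp (((t * (lam x - lam x') : ℝ) : ℂ) * Complex.I)) := by
      intro t
      rw [Complex.ofReal_mul, sq_norm_poly, mul_sum]
      refine sum_congr rfl fun x _ => ?_
      rw [mul_sum]
      exact sum_congr rfl fun x' _ => by ring
    simp_rw [e1]
    rw [integral_finsetSum _ fun x _ => integrable_finsetSum _ fun x' _ =>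
      (hint _).const_mul _]
    rw [Complex.ofReal_mul, Complex.ofReal_sum, mul_sum]
    refine sum_congr rfl fun x _ => ?_
    rw [integral_finsetSum _ fun x' _ => (hint _).const_mul _]
    rw [sum_eq_single x]
    · rw [integral_const_mul, sub_self]
      simp only [mul_zero, Complex.ofReal_zero, zero_mul, Complex.exp_zero, mul_one]
      rw [integral_complex_ofReal, sq_norm_eq, mul_comm]
    · intro x' _ hne
      rw [integral_const_mul]
      by_cases h0 : y x = 0
      · rw [h0, map_zero, zero_mul, zero_mul]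
      by_cases h0' : y x' = 0
      · rw [h0', mul_zero, zero_mul]
      rw [hvan _ (hδ.trans (spacing_lam hI hne.symm (hy x h0).1 (hy x' h0').2)), mul_zero]
    · exact fun h => absurd (mem_univ _) h
  exact_mod_cast h1

end

end Pool.Agent.PF.Var
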